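import Pool.Agent.TH372.BFR.CapData

set_option autoImplicit false

/-! Sets with at most ten vertices span few edges. -/

namespace Pool.Agent.TH372.BFR

open Finset

theorem cfgs_lt : ∀ c ∈ cfgs, ∀ p ∈ c.2, p.1 < c.1 ∧ p.2 < c.1 := by decide +kernel

theorem bound {V : Type} {A : V → V → Prop} (hs : ∀ u v, A u v → A v u) (hc : Excl A cfgs) :
    ∀ N, N ≤ 10 → ∀ Z : Finset V, Z.card = N → DD A Z ≤ 2 * gB N := by
  classical
  intro N
  induction N using Nat.strong_induction_on with
  | _ N ih =>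
  intro hN10 Z hZ
  by_contra hlt
  have hev := DD_even hs Z
  have hD : 2 * (gB N + 1) ≤ DD A Z := by
    obtain ⟨r, hr⟩ := hev
    omega
  have hIH : ∀ Z' : Finset V, Z'.card < N → DD A Z' ≤ 2 * gB Z'.card :=
    fun Z' h => ih _ h (by omega) Z' rfl
  rcases Nat.eq_zero_or_pos N with h0 | hpos
  · subst h0
    rw [Finset.card_eq_zero] at hZ
    subst hZ
    simp [DD] at hlt
  have h2 : ∀ v ∈ Z, 2 ≤ nb A Z v := by
    intro v hv
    by_contra h
    have h4 := DD_erase hs Z v hv
    have h5 := hIH (Z.erase v) (by rw [Finset.card_erase_of_mem hv]; omega)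
    rw [Finset.card_erase_of_mem hv, hZ] at h5
    have h6 : N = 1 ∨ gB (N - 1) < gB N := by
      interval_cases N <;> decide
    rcases h6 with h6 | h6
    · subst h6
      rw [Finset.card_eq_one] at hZ
      obtain ⟨w, rfl⟩ := hZ
      have h7 : DD A {w} = 0 := by
        unfold DD nb
        rw [Finset.sum_singleton, Finset.card_eq_zero, Finset.filter_eq_empty_iff]
        intro x hx
        rw [Finset.mem_singleton] at hx
        exact fun h => h.1 hx
      omega
    · omega
  have h3 : ∀ v ∈ Z, nb A Z v ≤ 3 := fun v _ => nb_le_three (by simp [cfgs]) hc Z v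
  have hne : Z.Nonempty := Finset.card_pos.1 (by omega)
  have hex : 5 ≤ N → ∃ v ∈ Z, 3 ≤ nb A Z v := by
    intro h5
    by_contra hcon
    push Not at hcon
    have h7 : DD A Z ≤ ∑ v ∈ Z, 2 := Finset.sum_le_sum fun v hv => by
      have := hcon v hv; omega
    rw [Finset.sum_const, hZ, smul_eq_mul] at h7
    have h8 : N ≤ gB N := by
      interval_cases N <;> decide
    omega
  have fin : ∀ v ∈ Z, ∀ lb ct, lb ≤ nb A Z v → check gB N lb cfgs ct 1 [] [] [] = true →
      False := by
    intro v hv lb ct hlb hch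
    refine sound hs hc cfgs_lt hZ h2 h3 hD hIH hlb ct 1 [] [] [] (fun _ => v) hch rfl
      ⟨?_, fun _ _ => hv, by simp, by simp, by simp⟩
    intro i hi j hj _
    omega
  obtain ⟨v, hv⟩ := hne
  have hv2 := h2 v hv
  clear ih hIH hlt hev hD
  interval_cases N
  · exact fin v hv 2 cert1 hv2 cert1_ok
  · exact fin v hv 2 cert2 hv2 cert2_ok
  · exact fin v hv 2 cert3 hv2 cert3_ok
  · exact fin v hv 2 cert4 hv2 cert4_ok
  · obtain ⟨w, hw, hw3⟩ := hex (by norm_num)
    exact fin w hw 3 cert5 hw3 cert5_ok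
  · obtain ⟨w, hw, hw3⟩ := hex (by norm_num)
    exact fin w hw 3 cert6 hw3 cert6_ok
  · obtain ⟨w, hw, hw3⟩ := hex (by norm_num)
    exact fin w hw 3 cert7 hw3 cert7_ok
  · obtain ⟨w, hw, hw3⟩ := hex (by norm_num)
    exact fin w hw 3 cert8 hw3 cert8_ok
  · obtain ⟨w, hw, hw3⟩ := hex (by norm_num)
    exact fin w hw 3 cert9 hw3 cert9_ok
  · obtain ⟨w, hw, hw3⟩ := hex (by norm_num)
    exact fin w hw 3 cert10 hw3 cert10_ok

end Pool.Agent.TH372.BFR
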