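import Pool.Agent.TH372.BFR.CapApp

set_option autoImplicit false

/-! Sets with eleven or twelve vertices. -/

namespace Pool.Agent.TH372.BFR

open Finset

theorem step_bound {V : Type} {A : V → V → Prop} (hs : ∀ u v, A u v → A v u)
    (h3 : ∀ (Z : Finset V) v, nb A Z v ≤ 3) (N m : ℕ)
    (ih : ∀ Z : Finset V, Z.card = N → DD A Z ≤ m) (h : m + 6 < 3 * (N + 1)) :
    ∀ Z : Finset V, Z.card = N + 1 → DD A Z ≤ m + 4 := by
  classical
  intro Z hZ
  have key : ∀ v ∈ Z, DD A Z ≤ m + 2 * nb A Z v := by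
    intro v hv
    rw [DD_erase hs Z v hv]
    have := ih (Z.erase v) (by rw [Finset.card_erase_of_mem hv, hZ]; rfl)
    omega
  by_cases hex : ∃ v ∈ Z, nb A Z v ≤ 2
  · obtain ⟨v, hv, hv2⟩ := hex
    have := key v hv
    omega
  · exfalso
    push Not at hex
    have h1 : ∑ v ∈ Z, 3 ≤ DD A Z := Finset.sum_le_sum fun v hv => hex v hv
    rw [Finset.sum_const, hZ, smul_eq_mul] at h1
    obtain ⟨v, hv⟩ := Finset.card_pos.1 (show 0 < Z.card by omega)
    have h2 := key v hv
    have h4 := h3 Z v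
    omega

theorem b11 {V : Type} {A : V → V → Prop} (hs : ∀ u v, A u v → A v u) (hc : Excl A cfgs) :
    ∀ Z : Finset V, Z.card = 11 → DD A Z ≤ 26 :=
  step_bound hs (fun Z v => nb_le_three (by simp [cfgs]) hc Z v) 10 22
    (fun Z hZ => bound hs hc 10 le_rfl Z hZ) (by norm_num)

theorem b12w {V : Type} {A : V → V → Prop} (hs : ∀ u v, A u v → A v u) (hc : Excl A cfgs) :
    ∀ Z : Finset V, Z.card = 12 → DD A Z ≤ 30 :=
  step_bound hs (fun Z v => nb_le_three (by simp [cfgs]) hc Z v) 11 26 (b11 hs hc) (by norm_num)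

theorem DD_ge {V : Type} {A : V → V → Prop} {n : ℕ} (φ : Fin n → V) (hφ : Function.Injective φ)
    (T : Finset (Fin n × Fin n)) (hT : ∀ p ∈ T, p.1 ≠ p.2 ∧ A (φ p.1) (φ p.2)) (Z : Finset V)
    (hZ : ∀ i, φ i ∈ Z) : T.card ≤ DD A Z := by
  classical
  have h6 : DD A Z = (Z.sigma fun v => Z.filter fun u => u ≠ v ∧ A v u).card := by
    rw [Finset.card_sigma]
    rfl
  rw [h6]
  apply Finset.card_le_card_of_injOn
    (fun p : Fin n × Fin n => (⟨φ p.1, φ p.2⟩ : Sigma fun _ : V => V))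
  · intro p hp
    obtain ⟨h1, h2⟩ := hT p hp
    rw [Finset.mem_coe, Finset.mem_sigma, Finset.mem_filter]
    exact ⟨hZ _, hZ _, fun h => h1 (hφ h).symm, h2⟩
  · intro p _ p' _ h
    simp only [Sigma.mk.injEq, heq_eq_eq] at h
    exact Prod.ext (hφ h.1) (hφ h.2)

theorem no_sub12 {V E : Type} [Fintype V] [Fintype E] {s t : E → V} {k q : ℕ}
    (X : Piece k 12 q) (hX : X.Good) (hp : Function.Injective X.p)
    (hsimple : ∀ i j, (X.a i = X.a j ∧ X.b i = X.b j) ∨ (X.a i = X.b j ∧ X.b i = X.a j) → i = j)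
    (hloop : ∀ j, X.a j ≠ X.b j)
    (hcnt : (univ.filter fun p : Fin 12 × Fin 12 => adjB X p.1 p.2 = true).card = 30)
    (hS : Smallest s t) (hno : ¬ Contains s t X) (φ : Fin 12 → V) (hφ : Function.Injective φ)
    (h1 : ∀ j, Adj s t (φ (X.a j)) (φ (X.b j))) : False := by
  classical
  have h7 := card_of (E := E) φ hφ
  have h3 := ess_of_min hS.cubic hS.two hS.below hS.no (by omega)
  refine hno (contains_of_adj hX hp hsimple hS.cubic hS.two h3 (by omega) φ hφ h1 ?_)
  intro a b hab hadj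
  by_contra hn
  have hsymm : ∀ a b, adjB X a b = true → adjB X b a = true := by
    intro a b h
    rw [adjB_iff] at h ⊢
    obtain ⟨j, h | h⟩ := h
    · exact ⟨j, Or.inr h⟩
    · exact ⟨j, Or.inl h⟩
  have hn' : ¬ adjB X b a = true := fun h => hn (hsymm _ _ h)
  have hadj' : ∀ a b, adjB X a b = true → a ≠ b ∧ Adj s t (φ a) (φ b) := by
    intro a b h
    obtain ⟨j, ⟨p, q⟩ | ⟨p, q⟩⟩ := adjB_iff.1 h
    · have h8 := h1 j
      have h9 := hloop j
      rw [p, q] at h8 h9
      exact ⟨h9, h8⟩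
    · have h8 := h1 j
      have h9 := hloop j
      rw [p, q] at h8 h9
      exact ⟨h9.symm, h8.symm⟩
  obtain ⟨T, hTd⟩ : ∃ T : Finset (Fin 12 × Fin 12), T = insert (a, b) (insert (b, a)
      (univ.filter fun p : Fin 12 × Fin 12 => adjB X p.1 p.2 = true)) := ⟨_, rfl⟩
  have hT : T.card = 32 := by
    rw [hTd, Finset.card_insert_of_notMem, Finset.card_insert_of_notMem, hcnt]
    · rw [Finset.mem_filter]
      exact fun h => hn' h.2
    · rw [Finset.mem_insert, Finset.mem_filter]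
      rintro (h | h)
      · exact hab (Prod.ext_iff.1 h).1
      · exact hn h.2
  have hT2 : ∀ p ∈ T, p.1 ≠ p.2 ∧ Adj s t (φ p.1) (φ p.2) := by
    intro p hp
    rw [hTd, Finset.mem_insert, Finset.mem_insert, Finset.mem_filter] at hp
    rcases hp with rfl | rfl | hp
    · exact ⟨hab, hadj⟩
    · exact ⟨hab.symm, hadj.symm⟩
    · exact hadj' _ _ hp.2
  have h8 := DD_ge (A := Adj s t) φ hφ T hT2 (univ.image φ)
    (fun i => Finset.mem_image_of_mem _ (mem_univ i))
  rw [hT] at h8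
  have h9 := b12w (A := Adj s t) (fun u v h => h.symm) (excl_cfgs hS (by omega)) (univ.image φ) (by
    rw [Finset.card_image_of_injective _ hφ, Finset.card_univ, Fintype.card_fin])
  omega

end Pool.Agent.TH372.BFR
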