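import Mathlib

set_option autoImplicit false

/-! Sets with few vertices span few edges: soundness of a search. -/

namespace Pool.Agent.TH372.BFR

open Finset

variable {V : Type} {A : V → V → Prop}

open Classical in
/-- number of neighbours in `Z` -/
noncomputable def nb (A : V → V → Prop) (Z : Finset V) (v : V) : ℕ :=
  (Z.filter fun u => u ≠ v ∧ A v u).card

/-- sum of the degrees in `Z` -/
noncomputable def DD (A : V → V → Prop) (Z : Finset V) : ℕ := ∑ v ∈ Z, nb A Z v

open Classical in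
theorem DD_insert (hs : ∀ u v, A u v → A v u) (Z : Finset V) (v : V) (hv : v ∉ Z) :
    DD A (insert v Z) = DD A Z + 2 * nb A Z v := by
  unfold DD
  rw [Finset.sum_insert hv]
  have h1 : nb A (insert v Z) v = nb A Z v := by
    unfold nb
    rw [Finset.filter_insert, if_neg (by simp)]
  have h2 : ∀ u ∈ Z, nb A (insert v Z) u = nb A Z u + if A u v then 1 else 0 := by
    intro u hu
    have hne : v ≠ u := fun h => hv (h ▸ hu)
    unfold nb
    rw [Finset.filter_insert]
    by_cases h : A u v
    · rw [if_pos ⟨hne, h⟩, if_pos h, Finset.card_insert_of_notMem]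
      simp [hv]
    · rw [if_neg (fun h' => h h'.2), if_neg h, add_zero]
  rw [h1, Finset.sum_congr rfl h2, Finset.sum_add_distrib]
  have h3 : ∑ u ∈ Z, (if A u v then 1 else 0) = nb A Z v := by
    rw [← Finset.card_filter]
    unfold nb
    congr 1
    ext u
    simp only [Finset.mem_filter]
    constructor
    · rintro ⟨a, b⟩; exact ⟨a, fun h => hv (h ▸ a), hs _ _ b⟩
    · rintro ⟨a, _, b⟩; exact ⟨a, hs _ _ b⟩
  rw [h3]; ring

theorem DD_even (hs : ∀ u v, A u v → A v u) (Z : Finset V) : Even (DD A Z) := by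
  classical
  induction Z using Finset.induction_on with
  | empty => simp [DD]
  | insert v Z hv ih =>
    rw [DD_insert hs Z v hv]
    exact ih.add (even_two_mul _)

theorem nb_erase [DecidableEq V] (Z : Finset V) (v : V) : nb A (Z.erase v) v = nb A Z v := by
  classical
  unfold nb
  congr 1
  ext u
  simp only [Finset.mem_filter, Finset.mem_erase]
  tauto

theorem DD_erase [DecidableEq V] (hs : ∀ u v, A u v → A v u) (Z : Finset V) (v : V) (hv : v ∈ Z) :
    DD A Z = DD A (Z.erase v) + 2 * nb A Z v := by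
  classical
  have h := DD_insert hs (Z.erase v) v (Finset.notMem_erase v Z)
  rw [nb_erase] at h
  rw [← h]
  congr 1
  ext u
  simp only [Finset.mem_insert, Finset.mem_erase]
  constructor
  · intro hu
    by_cases h : u = v
    · exact Or.inl h
    · exact Or.inr ⟨h, hu⟩
  · rintro (rfl | h)
    · exact hv
    · exact h.2

/-- search tree -/
inductive Ct : Type
  | emb (j : ℕ) (f : List ℕ)
  | dec (v w : ℕ) (yes no : Ct)
  | fresh (v : ℕ) (yes no : Ct)
  | low (v : ℕ)
  | cap
  | comp
  | big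

/-- list of pairs of labels -/
abbrev Prs := List (ℕ × ℕ)

def has (P : Prs) (a b : ℕ) : Bool :=
  P.any fun p => (Nat.beq p.1 a && Nat.beq p.2 b) || (Nat.beq p.1 b && Nat.beq p.2 a)

def don (k : ℕ) (P Q : Prs) (C : List ℕ) (v : ℕ) : Bool :=
  C.any (fun c => Nat.beq c v) && (List.range k).all fun w =>
    Nat.beq w v || (has P v w || has Q v w)

def dP (k : ℕ) (P : Prs) (v : ℕ) : ℕ := ((List.range k).filter fun w => has P v w).length

def check (g : ℕ → ℕ) (N lb : ℕ) (cfg : List (ℕ × Prs)) : Ct → ℕ → Prs → Prs → List ℕ → Bool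
  | .emb j f, k, P, _, _ =>
    match cfg[j]? with
    | some c => Nat.beq f.length c.1 && f.all (fun x => Nat.blt x k) && decide f.Nodup &&
        c.2.all fun p => has P (f.getD p.1 0) (f.getD p.2 0)
    | none => false
  | .dec v w yes no, k, P, Q, C => Nat.blt v k && Nat.blt w k &&
      check g N lb cfg yes k ((v, w) :: P) Q C && check g N lb cfg no k P ((v, w) :: Q) C
  | .fresh v yes no, k, P, Q, C => Nat.blt v k &&
      check g N lb cfg yes (k + 1) ((v, k) :: P) (C.map (fun c => (c, k)) ++ Q) C &&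
      check g N lb cfg no k P Q (v :: C)
  | .low v, k, P, Q, C => Nat.blt v k && don k P Q C v &&
      Nat.blt (dP k P v) (if Nat.beq v 0 then lb else 2)
  | .cap, k, P, Q, C => Nat.blt (3 * N) (2 * (g N + 1) + ((List.range k).filter fun v =>
      don k P Q C v && Nat.ble (dP k P v) 2).length)
  | .comp, k, _, _, C => Nat.blt 0 k && Nat.blt k N &&
      ((List.range k).all fun v => C.any fun c => Nat.beq c v) && Nat.ble (g k + g (N - k)) (g N)
  | .big, k, _, _, _ => Nat.blt N k

/-- meaning of the partial information -/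
structure Inv (A : V → V → Prop) (Z : Finset V) (k : ℕ) (P Q : Prs) (C : List ℕ) (φ : ℕ → V) :
    Prop where
  inj : ∀ i < k, ∀ j < k, φ i = φ j → i = j
  mem : ∀ i < k, φ i ∈ Z
  pos : ∀ p ∈ P, p.1 < k ∧ p.2 < k ∧ A (φ p.1) (φ p.2)
  neg : ∀ p ∈ Q, p.1 < k ∧ p.2 < k ∧ ¬ A (φ p.1) (φ p.2)
  clo : ∀ c ∈ C, c < k ∧ ∀ u ∈ Z, A (φ c) u → ∃ i < k, φ i = u

theorem has_pos (hs : ∀ u v, A u v → A v u) {Z : Finset V} {k : ℕ} {P Q : Prs} {C : List ℕ}
    {φ : ℕ → V} (h : Inv A Z k P Q C φ) {a b : ℕ} (hab : has P a b = true) :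
    A (φ a) (φ b) := by
  unfold has at hab
  rw [List.any_eq_true] at hab
  obtain ⟨p, hp, hp2⟩ := hab
  have h1 := (h.pos p hp).2.2
  simp only [Bool.or_eq_true, Bool.and_eq_true, Nat.beq_eq] at hp2
  rcases hp2 with ⟨a1, a2⟩ | ⟨a1, a2⟩ <;> rw [a1, a2] at h1
  · exact h1
  · exact hs _ _ h1

theorem has_neg (hs : ∀ u v, A u v → A v u) {Z : Finset V} {k : ℕ} {P Q : Prs} {C : List ℕ}
    {φ : ℕ → V} (h : Inv A Z k P Q C φ) {a b : ℕ} (hab : has Q a b = true) :
    ¬ A (φ a) (φ b) := by
  unfold has at hab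
  rw [List.any_eq_true] at hab
  obtain ⟨p, hp, hp2⟩ := hab
  have h1 := (h.neg p hp).2.2
  simp only [Bool.or_eq_true, Bool.and_eq_true, Nat.beq_eq] at hp2
  rcases hp2 with ⟨a1, a2⟩ | ⟨a1, a2⟩ <;> rw [a1, a2] at h1
  · exact h1
  · exact fun h => h1 (hs _ _ h)

theorem nb_le (hs : ∀ u v, A u v → A v u) {Z : Finset V} {k : ℕ} {P Q : Prs} {C : List ℕ}
    {φ : ℕ → V} (h : Inv A Z k P Q C φ) {v : ℕ} (hv : don k P Q C v = true) :
    nb A Z (φ v) ≤ dP k P v := by
  classical
  unfold don at hv
  rw [Bool.and_eq_true, List.any_eq_true, List.all_eq_true] at hv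
  obtain ⟨⟨c, hc, hcv⟩, hv2⟩ := hv
  rw [Nat.beq_eq] at hcv
  subst hcv
  have hclo := (h.clo c hc).2
  unfold nb dP
  refine le_trans (le_trans (Finset.card_le_card (t := (((List.range k).filter fun w =>
    has P c w).toFinset).image φ) ?_) Finset.card_image_le) (List.toFinset_card_le _)
  intro u hu
  rw [Finset.mem_filter] at hu
  obtain ⟨hu1, hu2, hu3⟩ := hu
  obtain ⟨i, hi, hiu⟩ := hclo u hu1 hu3
  rw [Finset.mem_image]
  refine ⟨i, ?_, hiu⟩
  rw [List.mem_toFinset, List.mem_filter, List.mem_range]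
  refine ⟨hi, ?_⟩
  have h1 := hv2 i (List.mem_range.2 hi)
  rw [Bool.or_eq_true, Bool.or_eq_true, Nat.beq_eq] at h1
  rcases h1 with h1 | h1 | h1
  · exact absurd (by rw [← hiu, h1]) hu2
  · exact h1
  · exact absurd (by rw [hiu]; exact hu3) (has_neg hs h h1)

/-- configurations excluded -/
def Excl (A : V → V → Prop) (cfg : List (ℕ × Prs)) : Prop :=
  ∀ c ∈ cfg, ∀ ψ : ℕ → V, (∀ i < c.1, ∀ j < c.1, ψ i = ψ j → i = j) →
    (∀ p ∈ c.2, p.1 < c.1 ∧ p.2 < c.1 ∧ A (ψ p.1) (ψ p.2)) → False

theorem nb_le_three {cfg : List (ℕ × Prs)}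
    (hK : (5, [(0, 1), (0, 2), (0, 3), (0, 4)]) ∈ cfg) (hc : Excl A cfg) (Z : Finset V) (v : V) :
    nb A Z v ≤ 3 := by
  classical
  by_contra hlt
  have h4 : 4 ≤ (Z.filter fun u => u ≠ v ∧ A v u).card := by unfold nb at hlt; omega
  obtain ⟨T, hT, hT4⟩ := Finset.exists_subset_card_eq h4
  let e := (Finset.equivFinOfCardEq hT4).symm
  have hmem : ∀ i : Fin 4, (e i).1 ≠ v ∧ A v (e i).1 := by
    intro i
    have := hT (e i).2
    rw [Finset.mem_filter] at this
    exact this.2
  have hne : ∀ i j : Fin 4, i ≠ j → (e i).1 ≠ (e j).1 := by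
    intro i j hij h
    exact hij (e.injective (Subtype.ext h))
  refine hc _ hK (fun i => match i with
    | 0 => v
    | 1 => (e 0).1
    | 2 => (e 1).1
    | 3 => (e 2).1
    | _ => (e 3).1) ?_ ?_
  · intro i hi j hj hij
    have hi' : i < 5 := hi
    have hj' : j < 5 := hj
    interval_cases i <;> interval_cases j <;> first
      | rfl
      | exact absurd hij (hmem _).1
      | exact absurd hij.symm (hmem _).1
      | exact absurd hij (hne _ _ (by decide))
  · intro p hp
    simp only [List.mem_cons, List.not_mem_nil, or_false] at hp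
    rcases hp with rfl | rfl | rfl | rfl
    · exact ⟨by norm_num, by norm_num, (hmem 0).2⟩
    · exact ⟨by norm_num, by norm_num, (hmem 1).2⟩
    · exact ⟨by norm_num, by norm_num, (hmem 2).2⟩
    · exact ⟨by norm_num, by norm_num, (hmem 3).2⟩

/-- the sum of the degrees when many vertices have degree at most two -/
theorem DD_cap {Z T : Finset V} (hT : T ⊆ Z) (h3 : ∀ v ∈ Z, nb A Z v ≤ 3)
    (h2 : ∀ v ∈ T, nb A Z v ≤ 2) : DD A Z + T.card ≤ 3 * Z.card := by
  classical
  have h1 : T.card = ∑ v ∈ Z, if v ∈ T then 1 else 0 := by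
    rw [← Finset.card_filter]
    congr 1
    ext u
    rw [Finset.mem_filter]
    exact ⟨fun h => ⟨hT h, h⟩, fun h => h.2⟩
  unfold DD
  rw [h1, ← Finset.sum_add_distrib]
  calc ∑ v ∈ Z, (nb A Z v + if v ∈ T then 1 else 0) ≤ ∑ v ∈ Z, 3 := by
        apply Finset.sum_le_sum
        intro v hv
        by_cases h : v ∈ T
        · rw [if_pos h]; have := h2 v h; omega
        · rw [if_neg h]; have := h3 v hv; omega
    _ = 3 * Z.card := by rw [Finset.sum_const, smul_eq_mul, mul_comm]

/-- no adjacent vertices between two parts -/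
theorem DD_comp [DecidableEq V] (hs : ∀ u v, A u v → A v u) {Z S : Finset V} (hS : S ⊆ Z)
    (h : ∀ u ∈ S, ∀ w ∈ Z, A u w → w ∈ S) : DD A Z = DD A S + DD A (Z \ S) := by
  classical
  unfold DD
  rw [← Finset.sum_sdiff hS, add_comm]
  congr 1
  · apply Finset.sum_congr rfl
    intro u hu
    unfold nb
    congr 1
    ext w
    simp only [Finset.mem_filter]
    exact ⟨fun ⟨a, b⟩ => ⟨h u hu w a b.2, b⟩, fun ⟨a, b⟩ => ⟨hS a, b⟩⟩
  · apply Finset.sum_congr rfl
    intro u hu
    rw [Finset.mem_sdiff] at hu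
    unfold nb
    congr 1
    ext w
    simp only [Finset.mem_filter, Finset.mem_sdiff]
    constructor
    · rintro ⟨a, b⟩
      exact ⟨⟨a, fun hw => hu.2 (h w hw u hu.1 (hs _ _ b.2))⟩, b⟩
    · rintro ⟨a, b⟩
      exact ⟨a.1, b⟩

theorem sound {g : ℕ → ℕ} {N lb : ℕ} {cfg : List (ℕ × Prs)} (hs : ∀ u v, A u v → A v u)
    (hc : Excl A cfg) (hcn : ∀ c ∈ cfg, ∀ p ∈ c.2, p.1 < c.1 ∧ p.2 < c.1) {Z : Finset V}
    (hN : Z.card = N) (h2 : ∀ v ∈ Z, 2 ≤ nb A Z v)
    (h3 : ∀ v ∈ Z, nb A Z v ≤ 3) (hD : 2 * (g N + 1) ≤ DD A Z)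
    (hIH : ∀ Z' : Finset V, Z'.card < N → DD A Z' ≤ 2 * g Z'.card) {v₀ : V}
    (hv : lb ≤ nb A Z v₀) :
    ∀ (ct : Ct) (k : ℕ) (P Q : Prs) (C : List ℕ) (φ : ℕ → V),
      check g N lb cfg ct k P Q C = true → φ 0 = v₀ → Inv A Z k P Q C φ → False := by
  classical
  intro ct
  induction ct with
  | emb j f =>
    intro k P Q C φ hch h0 hI
    unfold check at hch
    split at hch
    · rename_i c hcj
      simp only [Bool.and_eq_true, List.all_eq_true, Nat.beq_eq, Nat.blt_eq,
        decide_eq_true_eq] at hch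
      obtain ⟨⟨⟨a1, a2⟩, a3⟩, a4⟩ := hch
      have hcm : c ∈ cfg := List.mem_of_getElem? hcj
      have hlt : ∀ i < c.1, f.getD i 0 < k := by
        intro i hi
        rw [← a1] at hi
        rw [List.getD_eq_getElem _ _ hi]
        exact a2 _ (List.getElem_mem hi)
      refine hc c hcm (fun i => φ (f.getD i 0)) ?_ ?_
      · intro i hi i' hi' hii
        have h4 := hI.inj _ (hlt i hi) _ (hlt i' hi') hii
        rw [← a1] at hi hi'
        rw [List.getD_eq_getElem _ _ hi, List.getD_eq_getElem _ _ hi'] at h4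
        exact (List.Nodup.getElem_inj_iff a3).1 h4
      · intro p hp
        exact ⟨(hcn c hcm p hp).1, (hcn c hcm p hp).2, has_pos hs hI (a4 p hp)⟩
    · exact absurd hch (by simp)
  | dec v w yes no ih1 ih2 =>
    intro k P Q C φ hch h0 hI
    simp only [check, Bool.and_eq_true, Nat.blt_eq] at hch
    obtain ⟨⟨⟨a1, a2⟩, a3⟩, a4⟩ := hch
    by_cases h : A (φ v) (φ w)
    · refine ih1 k _ Q C φ a3 h0 ⟨hI.inj, hI.mem, ?_, hI.neg, hI.clo⟩
      intro p hp
      rw [List.mem_cons] at hp
      rcases hp with rfl | hp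
      · exact ⟨a1, a2, h⟩
      · exact hI.pos p hp
    · refine ih2 k P _ C φ a4 h0 ⟨hI.inj, hI.mem, hI.pos, ?_, hI.clo⟩
      intro p hp
      rw [List.mem_cons] at hp
      rcases hp with rfl | hp
      · exact ⟨a1, a2, h⟩
      · exact hI.neg p hp
  | fresh v yes no ih1 ih2 =>
    intro k P Q C φ hch h0 hI
    simp only [check, Bool.and_eq_true, Nat.blt_eq] at hch
    obtain ⟨⟨a1, a3⟩, a4⟩ := hch
    by_cases h : ∃ u ∈ Z, A (φ v) u ∧ ∀ i < k, φ i ≠ u
    · obtain ⟨u, hu1, hu2, hu3⟩ := h
      have hφ : ∀ i < k, Function.update φ k u i = φ i := by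
        intro i hi
        rw [Function.update_of_ne (by omega)]
      have hφk : Function.update φ k u k = u := Function.update_self _ _ _
      refine ih1 (k + 1) _ _ C (Function.update φ k u) a3 ?_ ⟨?_, ?_, ?_, ?_, ?_⟩
      · rw [hφ 0 (by omega)]; exact h0
      · intro i hi j hj hij
        rcases Nat.lt_succ_iff_lt_or_eq.1 hi with hi | rfl
        · rcases Nat.lt_succ_iff_lt_or_eq.1 hj with hj | rfl
          · rw [hφ i hi, hφ j hj] at hij
            exact hI.inj i hi j hj hij
          · rw [hφ i hi, hφk] at hij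
            exact absurd hij (hu3 i hi)
        · rcases Nat.lt_succ_iff_lt_or_eq.1 hj with hj | rfl
          · rw [hφ j hj, hφk] at hij
            exact absurd hij.symm (hu3 j hj)
          · rfl
      · intro i hi
        rcases Nat.lt_succ_iff_lt_or_eq.1 hi with hi | rfl
        · rw [hφ i hi]; exact hI.mem i hi
        · rw [hφk]; exact hu1
      · intro p hp
        rw [List.mem_cons] at hp
        rcases hp with rfl | hp
        · refine ⟨by simp only; omega, by simp, ?_⟩
          simp only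
          rw [hφk, hφ v a1]; exact hu2
        · obtain ⟨b1, b2, b3⟩ := hI.pos p hp
          refine ⟨by omega, by omega, ?_⟩
          rw [hφ _ b1, hφ _ b2]; exact b3
      · intro p hp
        rw [List.mem_append, List.mem_map] at hp
        rcases hp with ⟨c, hc1, rfl⟩ | hp
        · obtain ⟨b1, b2⟩ := hI.clo c hc1
          refine ⟨by simp only; omega, by simp, ?_⟩
          simp only
          rw [hφk, hφ c b1]
          intro hA
          obtain ⟨i, hi, hiu⟩ := b2 u hu1 hA
          exact hu3 i hi hiu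
        · obtain ⟨b1, b2, b3⟩ := hI.neg p hp
          refine ⟨by omega, by omega, ?_⟩
          rw [hφ _ b1, hφ _ b2]; exact b3
      · intro c hc1
        obtain ⟨b1, b2⟩ := hI.clo c hc1
        refine ⟨by omega, ?_⟩
        intro w hw hA
        rw [hφ c b1] at hA
        obtain ⟨i, hi, hiu⟩ := b2 w hw hA
        exact ⟨i, by omega, by rw [hφ i hi]; exact hiu⟩
    · refine ih2 k P Q _ φ a4 h0 ⟨hI.inj, hI.mem, hI.pos, hI.neg, ?_⟩
      intro c hc1
      rw [List.mem_cons] at hc1
      rcases hc1 with rfl | hc1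
      · refine ⟨a1, ?_⟩
        intro u hu hA
        by_contra hcon
        exact h ⟨u, hu, hA, fun i hi hiu => hcon ⟨i, hi, hiu⟩⟩
      · exact hI.clo c hc1
  | low v =>
    intro k P Q C φ hch h0 hI
    simp only [check, Bool.and_eq_true, Nat.blt_eq] at hch
    obtain ⟨⟨a1, a2⟩, a3⟩ := hch
    have h4 := nb_le hs hI a2
    by_cases hv0 : v = 0
    · subst hv0
      rw [h0] at h4
      have h7 : Nat.beq 0 0 = true := rfl
      rw [if_pos h7] at a3
      omega
    · have h5 : Nat.beq v 0 = false := by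
        rw [← Bool.not_eq_true, Nat.beq_eq]; exact hv0
      rw [h5] at a3
      have h6 := h2 _ (hI.mem v a1)
      simp only [Bool.false_eq_true, if_false] at a3
      omega
  | cap =>
    intro k P Q C φ hch h0 hI
    simp only [check, Nat.blt_eq] at hch
    set L := (List.range k).filter fun v => don k P Q C v && Nat.ble (dP k P v) 2 with hL
    have hmem : ∀ v ∈ L, v < k ∧ don k P Q C v = true ∧ dP k P v ≤ 2 := by
      intro v hv
      rw [hL, List.mem_filter, List.mem_range, Bool.and_eq_true, Nat.ble_eq] at hv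
      exact ⟨hv.1, hv.2.1, hv.2.2⟩
    have hnd : L.Nodup := List.Nodup.filter _ List.nodup_range
    have hcard : (L.toFinset.image φ).card = L.length := by
      rw [Finset.card_image_of_injOn, List.toFinset_card_of_nodup hnd]
      intro i hi j hj hij
      rw [Finset.mem_coe, List.mem_toFinset] at hi hj
      exact hI.inj i (hmem i hi).1 j (hmem j hj).1 hij
    have h4 := DD_cap (A := A) (Z := Z) (T := L.toFinset.image φ) (by
      intro u hu
      rw [Finset.mem_image] at hu
      obtain ⟨i, hi, rfl⟩ := hu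
      rw [List.mem_toFinset] at hi
      exact hI.mem i (hmem i hi).1) h3 (by
      intro u hu
      rw [Finset.mem_image] at hu
      obtain ⟨i, hi, rfl⟩ := hu
      rw [List.mem_toFinset] at hi
      exact le_trans (nb_le hs hI (hmem i hi).2.1) (hmem i hi).2.2)
    rw [hcard, hN] at h4
    omega
  | comp =>
    intro k P Q C φ hch h0 hI
    simp only [check, Bool.and_eq_true, Nat.blt_eq, Nat.ble_eq, List.all_eq_true,
      List.any_eq_true, Nat.beq_eq, List.mem_range] at hch
    obtain ⟨⟨⟨a1, a2⟩, a3⟩, a4⟩ := hch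
    have hS : (Finset.range k).image φ ⊆ Z := by
      intro u hu
      rw [Finset.mem_image] at hu
      obtain ⟨i, hi, rfl⟩ := hu
      exact hI.mem i (Finset.mem_range.1 hi)
    have hcard : ((Finset.range k).image φ).card = k := by
      rw [Finset.card_image_of_injOn, Finset.card_range]
      intro i hi j hj hij
      rw [Finset.mem_coe, Finset.mem_range] at hi hj
      exact hI.inj i hi j hj hij
    have h4 := DD_comp hs hS (by
      intro u hu w hw hA
      rw [Finset.mem_image] at hu ⊢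
      obtain ⟨i, hi, rfl⟩ := hu
      obtain ⟨c, hc1, rfl⟩ := a3 i (Finset.mem_range.1 hi)
      obtain ⟨j, hj, hj2⟩ := (hI.clo c hc1).2 w hw hA
      exact ⟨j, Finset.mem_range.2 hj, hj2⟩)
    have h5 := hIH ((Finset.range k).image φ) (by omega)
    have h6 := hIH (Z \ (Finset.range k).image φ) (by
      rw [Finset.card_sdiff_of_subset hS, hcard, hN]; omega)
    rw [Finset.card_sdiff_of_subset hS, hcard, hN] at h6
    rw [hcard] at h5
    omega
  | big =>
    intro k P Q C φ hch h0 hI
    simp only [check, Nat.blt_eq] at hch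
    have h4 : ((Finset.range k).image φ).card ≤ Z.card := by
      apply Finset.card_le_card
      intro u hu
      rw [Finset.mem_image] at hu
      obtain ⟨i, hi, rfl⟩ := hu
      exact hI.mem i (Finset.mem_range.1 hi)
    rw [Finset.card_image_of_injOn, Finset.card_range, hN] at h4
    · omega
    · intro i hi j hj hij
      rw [Finset.mem_coe, Finset.mem_range] at hi hj
      exact hI.inj i hi j hj hij

end Pool.Agent.TH372.BFR
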