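import Pool.Agent.TH372.BFR.Cap

set_option autoImplicit false

/-! Sets with few vertices span few edges: soundness of a search with more rules. -/

namespace Pool.Agent.TH372.BFR

open Finset

variable {V : Type} {A : V → V → Prop}

/-- search tree -/
inductive Cs : Type
  | emb (j : ℕ) (f : List ℕ)
  | dec (v w : ℕ) (yes no : Cs)
  | fresh (v : ℕ) (yes no : Cs)
  | full (v : ℕ) (r : Cs)
  | low (v : ℕ)
  | adj2 (v w : ℕ)
  | cap
  | big

/-- the search for twelve vertices, fourteen edges; the label 0 has two neighbours -/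
def chk3 (cfg : List (ℕ × Prs)) : Cs → ℕ → Prs → Prs → List ℕ → Bool
  | .emb j f, k, P, _, _ =>
    match cfg[j]? with
    | some c => Nat.beq f.length c.1 && f.all (fun x => Nat.blt x k) && decide f.Nodup &&
        c.2.all fun p => has P (f.getD p.1 0) (f.getD p.2 0)
    | none => false
  | .dec v w yes no, k, P, Q, C => Nat.blt v k && Nat.blt w k &&
      chk3 cfg yes k ((v, w) :: P) Q C && chk3 cfg no k P ((v, w) :: Q) C
  | .fresh v yes no, k, P, Q, C => Nat.blt v k &&
      chk3 cfg yes (k + 1) ((v, k) :: P) (C.map (fun c => (c, k)) ++ Q) C &&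
      chk3 cfg no k P Q (v :: C)
  | .full v r, k, P, Q, C => Nat.blt v k && !has P v v &&
      Nat.ble (if Nat.beq v 0 then 2 else 3) (dP k P v) &&
      chk3 cfg r k P (((List.range k).filter fun w => !Nat.beq w v && !has P v w).map
        (fun w => (v, w)) ++ Q) (v :: C)
  | .low v, k, P, Q, C => Nat.blt v k && don k P Q C v && Nat.blt (dP k P v) 2
  | .adj2 v w, k, P, Q, C => Nat.blt v k && Nat.blt w k && !Nat.beq v w && has P v w &&
      don k P Q C v && don k P Q C w && Nat.ble (dP k P v) 2 && Nat.ble (dP k P w) 2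
  | .cap, k, P, Q, C => Nat.blt 6 ((List.range k).filter fun v =>
      don k P Q C v && Nat.ble (dP k P v) 2).length
  | .big, k, _, _, _ => Nat.blt 12 k

open Classical in
/-- the neighbours of `v` in `Z` -/
noncomputable def NB (A : V → V → Prop) (Z : Finset V) (v : V) : Finset V :=
  Z.filter fun u => u ≠ v ∧ A v u

theorem NB_card (Z : Finset V) (v : V) : (NB A Z v).card = nb A Z v := rfl

/-- if as many neighbours are labelled as the degree allows then all are -/
theorem full_of (hs : ∀ u v, A u v → A v u) {Z : Finset V} {k : ℕ} {P Q : Prs} {C : List ℕ}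
    {φ : ℕ → V} (h : Inv A Z k P Q C φ) {v : ℕ} (hv : v < k) (hvv : has P v v = false)
    (hd : nb A Z (φ v) ≤ dP k P v) :
    ∀ u ∈ Z, u ≠ φ v → A (φ v) u → ∃ w < k, has P v w = true ∧ φ w = u := by
  classical
  have hsub : (((List.range k).filter fun w => has P v w).toFinset).image φ ⊆ NB A Z (φ v) := by
    intro u hu
    rw [Finset.mem_image] at hu
    obtain ⟨w, hw, rfl⟩ := hu
    rw [List.mem_toFinset, List.mem_filter, List.mem_range] at hw
    unfold NB
    rw [Finset.mem_filter]
    refine ⟨h.mem w hw.1, ?_, has_pos hs h hw.2⟩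
    intro hwv
    have := h.inj w hw.1 v hv hwv
    rw [this, hvv] at hw
    exact absurd hw.2 (by simp)
  have hcard : ((((List.range k).filter fun w => has P v w).toFinset).image φ).card =
      dP k P v := by
    rw [Finset.card_image_of_injOn, List.toFinset_card_of_nodup
      (List.Nodup.filter _ List.nodup_range)]
    · rfl
    · intro i hi j hj hij
      rw [Finset.mem_coe, List.mem_toFinset, List.mem_filter, List.mem_range] at hi hj
      exact h.inj i hi.1 j hj.1 hij
  have heq := Finset.eq_of_subset_of_card_le hsub (by rw [hcard, NB_card]; exact hd)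
  intro u hu hne hA
  have hu2 : u ∈ NB A Z (φ v) := by
    unfold NB
    rw [Finset.mem_filter]
    exact ⟨hu, hne, hA⟩
  rw [← heq, Finset.mem_image] at hu2
  obtain ⟨w, hw, hwu⟩ := hu2
  rw [List.mem_toFinset, List.mem_filter, List.mem_range] at hw
  exact ⟨w, hw.1, hw.2, hwu⟩

theorem sound3 {cfg : List (ℕ × Prs)} (hs : ∀ u v, A u v → A v u)
    (hc : Excl A cfg) (hcn : ∀ c ∈ cfg, ∀ p ∈ c.2, p.1 < c.1 ∧ p.2 < c.1) {Z : Finset V}
    (hN : Z.card = 12) (h2 : ∀ v ∈ Z, 2 ≤ nb A Z v)
    (h3 : ∀ v ∈ Z, nb A Z v ≤ 3) (hD : 30 ≤ DD A Z)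
    (hIH : ∀ Z' : Finset V, Z'.card = 10 → DD A Z' ≤ 22) {v₀ : V}
    (hv : nb A Z v₀ ≤ 2) :
    ∀ (ct : Cs) (k : ℕ) (P Q : Prs) (C : List ℕ) (φ : ℕ → V),
      chk3 cfg ct k P Q C = true → φ 0 = v₀ → Inv A Z k P Q C φ → False := by
  classical
  intro ct
  induction ct with
  | emb j f =>
    intro k P Q C φ hch h0 hI
    unfold chk3 at hch
    split at hch
    · rename_i c hcj
      simp only [Bool.and_eq_true, List.all_eq_true, Nat.beq_eq, Nat.blt_eq,
        decide_eq_true_eq] at hch
      obtain ⟨⟨⟨a1, a2⟩, a3⟩, a4⟩ := hch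
      have hcm : c ∈ cfg := List.mem_of_getElem? hcj
      have hlt : ∀ i < c.1, f.getD i 0 < k := by
        intro i hi
        rw [← a1] at hi
        rw [List.getD_eq_getElem _ _ hi]
        exact a2 _ (List.getElem_mem hi)
      refine hc c hcm (fun i => φ (f.getD i 0)) ?_ ?_
      · intro i hi i' hi' hii
        have h4 := hI.inj _ (hlt i hi) _ (hlt i' hi') hii
        rw [← a1] at hi hi'
        rw [List.getD_eq_getElem _ _ hi, List.getD_eq_getElem _ _ hi'] at h4
        exact (List.Nodup.getElem_inj_iff a3).1 h4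
      · intro p hp
        exact ⟨(hcn c hcm p hp).1, (hcn c hcm p hp).2, has_pos hs hI (a4 p hp)⟩
    · exact absurd hch (by simp)
  | dec v w yes no ih1 ih2 =>
    intro k P Q C φ hch h0 hI
    simp only [chk3, Bool.and_eq_true, Nat.blt_eq] at hch
    obtain ⟨⟨⟨a1, a2⟩, a3⟩, a4⟩ := hch
    by_cases h : A (φ v) (φ w)
    · refine ih1 k _ Q C φ a3 h0 ⟨hI.inj, hI.mem, ?_, hI.neg, hI.clo⟩
      intro p hp
      rw [List.mem_cons] at hp
      rcases hp with rfl | hp
      · exact ⟨a1, a2, h⟩
      · exact hI.pos p hp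
    · refine ih2 k P _ C φ a4 h0 ⟨hI.inj, hI.mem, hI.pos, ?_, hI.clo⟩
      intro p hp
      rw [List.mem_cons] at hp
      rcases hp with rfl | hp
      · exact ⟨a1, a2, h⟩
      · exact hI.neg p hp
  | fresh v yes no ih1 ih2 =>
    intro k P Q C φ hch h0 hI
    simp only [chk3, Bool.and_eq_true, Nat.blt_eq] at hch
    obtain ⟨⟨a1, a3⟩, a4⟩ := hch
    by_cases h : ∃ u ∈ Z, A (φ v) u ∧ ∀ i < k, φ i ≠ u
    · obtain ⟨u, hu1, hu2, hu3⟩ := h
      have hφ : ∀ i < k, Function.update φ k u i = φ i := by
        intro i hi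
        rw [Function.update_of_ne (by omega)]
      have hφk : Function.update φ k u k = u := Function.update_self _ _ _
      refine ih1 (k + 1) _ _ C (Function.update φ k u) a3 ?_ ⟨?_, ?_, ?_, ?_, ?_⟩
      · rw [hφ 0 (by omega)]; exact h0
      · intro i hi j hj hij
        rcases Nat.lt_succ_iff_lt_or_eq.1 hi with hi | rfl
        · rcases Nat.lt_succ_iff_lt_or_eq.1 hj with hj | rfl
          · rw [hφ i hi, hφ j hj] at hij
            exact hI.inj i hi j hj hij
          · rw [hφ i hi, hφk] at hij
            exact absurd hij (hu3 i hi)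
        · rcases Nat.lt_succ_iff_lt_or_eq.1 hj with hj | rfl
          · rw [hφ j hj, hφk] at hij
            exact absurd hij.symm (hu3 j hj)
          · rfl
      · intro i hi
        rcases Nat.lt_succ_iff_lt_or_eq.1 hi with hi | rfl
        · rw [hφ i hi]; exact hI.mem i hi
        · rw [hφk]; exact hu1
      · intro p hp
        rw [List.mem_cons] at hp
        rcases hp with rfl | hp
        · refine ⟨by simp only; omega, by simp, ?_⟩
          simp only
          rw [hφk, hφ v a1]; exact hu2
        · obtain ⟨b1, b2, b3⟩ := hI.pos p hp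
          refine ⟨by omega, by omega, ?_⟩
          rw [hφ _ b1, hφ _ b2]; exact b3
      · intro p hp
        rw [List.mem_append, List.mem_map] at hp
        rcases hp with ⟨c, hc1, rfl⟩ | hp
        · obtain ⟨b1, b2⟩ := hI.clo c hc1
          refine ⟨by simp only; omega, by simp, ?_⟩
          simp only
          rw [hφk, hφ c b1]
          intro hA
          obtain ⟨i, hi, hiu⟩ := b2 u hu1 hA
          exact hu3 i hi hiu
        · obtain ⟨b1, b2, b3⟩ := hI.neg p hp
          refine ⟨by omega, by omega, ?_⟩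
          rw [hφ _ b1, hφ _ b2]; exact b3
      · intro c hc1
        obtain ⟨b1, b2⟩ := hI.clo c hc1
        refine ⟨by omega, ?_⟩
        intro w hw hA
        rw [hφ c b1] at hA
        obtain ⟨i, hi, hiu⟩ := b2 w hw hA
        exact ⟨i, by omega, by rw [hφ i hi]; exact hiu⟩
    · refine ih2 k P Q _ φ a4 h0 ⟨hI.inj, hI.mem, hI.pos, hI.neg, ?_⟩
      intro c hc1
      rw [List.mem_cons] at hc1
      rcases hc1 with rfl | hc1
      · refine ⟨a1, ?_⟩
        intro u hu hA
        by_contra hcon
        exact h ⟨u, hu, hA, fun i hi hiu => hcon ⟨i, hi, hiu⟩⟩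
      · exact hI.clo c hc1
  | full v r ih =>
    intro k P Q C φ hch h0 hI
    simp only [chk3, Bool.and_eq_true, Nat.blt_eq, Nat.ble_eq, Bool.not_eq_true'] at hch
    obtain ⟨⟨⟨a1, a2⟩, a3⟩, a4⟩ := hch
    have hd : nb A Z (φ v) ≤ dP k P v := by
      by_cases hv0 : v = 0
      · subst hv0
        have h7 : Nat.beq 0 0 = true := rfl
        rw [if_pos h7] at a3
        rw [h0]
        omega
      · have h5 : Nat.beq v 0 = false := by
          rw [← Bool.not_eq_true, Nat.beq_eq]; exact hv0
        rw [h5] at a3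
        have h6 := h3 _ (hI.mem v a1)
        simp only [Bool.false_eq_true, if_false] at a3
        omega
    have hf := full_of hs hI a1 a2 hd
    refine ih k P _ _ φ a4 h0 ⟨hI.inj, hI.mem, hI.pos, ?_, ?_⟩
    · intro p hp
      rw [List.mem_append, List.mem_map] at hp
      rcases hp with ⟨w, hw, rfl⟩ | hp
      · rw [List.mem_filter, List.mem_range, Bool.and_eq_true, Bool.not_eq_true',
          Bool.not_eq_true'] at hw
        obtain ⟨b1, b2, b3⟩ := hw
        refine ⟨a1, b1, ?_⟩
        intro hA
        have hne : φ w ≠ φ v := by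
          intro hwv
          have h8 := hI.inj w b1 v a1 hwv
          rw [h8] at b2
          have h9 : Nat.beq v v = true := Nat.beq_refl v
          rw [h9] at b2
          exact absurd b2 (by simp)
        obtain ⟨w', c1, c2, c3⟩ := hf (φ w) (hI.mem w b1) hne hA
        have h8 := hI.inj w' c1 w b1 c3
        rw [h8, b3] at c2
        exact absurd c2 (by simp)
      · exact hI.neg p hp
    · intro c hc1
      rw [List.mem_cons] at hc1
      rcases hc1 with rfl | hc1
      · refine ⟨a1, ?_⟩
        intro u hu hA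
        by_cases hne : u = φ c
        · exact ⟨c, a1, hne.symm⟩
        · obtain ⟨w, c1, -, c3⟩ := hf u hu hne hA
          exact ⟨w, c1, c3⟩
      · exact hI.clo c hc1
  | low v =>
    intro k P Q C φ hch h0 hI
    simp only [chk3, Bool.and_eq_true, Nat.blt_eq] at hch
    obtain ⟨⟨a1, a2⟩, a3⟩ := hch
    have h4 := nb_le hs hI a2
    have h6 := h2 _ (hI.mem v a1)
    omega
  | adj2 v w =>
    intro k P Q C φ hch h0 hI
    simp only [chk3, Bool.and_eq_true, Nat.blt_eq, Nat.ble_eq, Bool.not_eq_true'] at hch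
    obtain ⟨⟨⟨⟨⟨⟨⟨a1, a2⟩, a3⟩, a4⟩, a5⟩, a6⟩, a7⟩, a8⟩ := hch
    have hvw : v ≠ w := by
      rintro rfl
      have h9 : Nat.beq v v = true := Nat.beq_refl v
      rw [h9] at a3
      exact absurd a3 (by simp)
    have hne : φ v ≠ φ w := fun h => hvw (hI.inj v a1 w a2 h)
    have hA := has_pos hs hI a4
    have b1 := nb_le hs hI a5
    have b2 := nb_le hs hI a6
    have hvZ := hI.mem v a1
    have hwZ := hI.mem w a2
    have c1 := DD_erase hs Z (φ v) hvZ
    have hwZ' : φ w ∈ Z.erase (φ v) := Finset.mem_erase.2 ⟨hne.symm, hwZ⟩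
    have c2 := DD_erase hs (Z.erase (φ v)) (φ w) hwZ'
    have c3 : nb A (Z.erase (φ v)) (φ w) + 1 ≤ nb A Z (φ w) := by
      unfold nb
      rw [← Finset.card_insert_of_notMem (a := φ v) (s := (Z.erase (φ v)).filter
        fun u => u ≠ φ w ∧ A (φ w) u) (by simp)]
      apply Finset.card_le_card
      intro u hu
      rw [Finset.mem_insert, Finset.mem_filter, Finset.mem_erase] at hu
      rw [Finset.mem_filter]
      rcases hu with rfl | hu
      · exact ⟨hvZ, hne, hs _ _ hA⟩
      · exact ⟨hu.1.2, hu.2⟩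
    have c4 := hIH ((Z.erase (φ v)).erase (φ w)) (by
      rw [Finset.card_erase_of_mem hwZ', Finset.card_erase_of_mem hvZ, hN])
    omega
  | cap =>
    intro k P Q C φ hch h0 hI
    simp only [chk3, Nat.blt_eq] at hch
    set L := (List.range k).filter fun v => don k P Q C v && Nat.ble (dP k P v) 2 with hL
    have hmem : ∀ v ∈ L, v < k ∧ don k P Q C v = true ∧ dP k P v ≤ 2 := by
      intro v hv
      rw [hL, List.mem_filter, List.mem_range, Bool.and_eq_true, Nat.ble_eq] at hv
      exact ⟨hv.1, hv.2.1, hv.2.2⟩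
    have hnd : L.Nodup := List.Nodup.filter _ List.nodup_range
    have hcard : (L.toFinset.image φ).card = L.length := by
      rw [Finset.card_image_of_injOn, List.toFinset_card_of_nodup hnd]
      intro i hi j hj hij
      rw [Finset.mem_coe, List.mem_toFinset] at hi hj
      exact hI.inj i (hmem i hi).1 j (hmem j hj).1 hij
    have h4 := DD_cap (A := A) (Z := Z) (T := L.toFinset.image φ) (by
      intro u hu
      rw [Finset.mem_image] at hu
      obtain ⟨i, hi, rfl⟩ := hu
      rw [List.mem_toFinset] at hi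
      exact hI.mem i (hmem i hi).1) h3 (by
      intro u hu
      rw [Finset.mem_image] at hu
      obtain ⟨i, hi, rfl⟩ := hu
      rw [List.mem_toFinset] at hi
      exact le_trans (nb_le hs hI (hmem i hi).2.1) (hmem i hi).2.2)
    rw [hcard, hN] at h4
    omega
  | big =>
    intro k P Q C φ hch h0 hI
    simp only [chk3, Nat.blt_eq] at hch
    have h4 : ((Finset.range k).image φ).card ≤ Z.card := by
      apply Finset.card_le_card
      intro u hu
      rw [Finset.mem_image] at hu
      obtain ⟨i, hi, rfl⟩ := hu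
      exact hI.mem i (Finset.mem_range.1 hi)
    rw [Finset.card_image_of_injOn, Finset.card_range, hN] at h4
    · omega
    · intro i hi j hj hij
      rw [Finset.mem_coe, Finset.mem_range] at hi hj
      exact hI.inj i hi j hj hij

end Pool.Agent.TH372.BFR
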