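import Pool.Agent.TH372.BFR.Sub
import Pool.Agent.TH372.BFR.N10x14

set_option autoImplicit false

/-! The excluded subgraphs. -/

namespace Pool.Agent.TH372.BFR

open Finset

/-- edges of the configuration N10x14 -/
def N10x14.L : List (Fin 10 × Fin 10) :=
  [(0, 4), (4, 1), (0, 5), (5, 6), (6, 1), (0, 2), (1, 3), (2, 7), (7, 3), (2, 8), (8, 9), (9, 3)]

def N10x14.spd : List (Fin 10 × Fin 10 × (Fin 7 → Fin 10)) :=
  [(5, 9, ![1, 3, 4, 6, 0, 9, 5]), (6, 8, ![0, 2, 4, 5, 1, 8, 6])]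

theorem N10x14.no_sub {V E : Type} [Fintype V] [Fintype E] {s t : E → V} (hS : Smallest s t) :
    ¬ HasSub s t 10 N10x14.L := by
  rintro ⟨φ, hφ, h⟩
  have h1 : ∀ j, Adj s t (φ (N10x14.X.a j)) (φ (N10x14.X.b j)) := fun j =>
    h (N10x14.X.a j, N10x14.X.b j) (by revert j; decide +kernel)
  refine BFR.no_sub N10x14.X N10x14.good (by decide +kernel) (by decide +kernel) (by decide +kernel)
    (by norm_num) hS (N10x14.no hS) (N10x14.spd.map fun p => (p.1,
    p.2.1)) (by decide +kernel) φ hφ h1 ?_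
  intro p hp hadj
  rw [List.mem_map] at hp
  obtain ⟨p', hp', rfl⟩ := hp
  exact sp_sound N10x14.X N10x14.spd (by decide +kernel) hS φ hφ h1 p' hp' hadj

end Pool.Agent.TH372.BFR
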