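import Pool.Agent.TH372.BFR.FiveApp
import Pool.Agent.TH372.BFR.Bound
import Pool.Agent.TH372.BFR.Subs2

set_option autoImplicit false

/-! In a smallest counterexample sets with at most ten vertices span few edges. -/

namespace Pool.Agent.TH372.BFR

open Finset

theorem excl_of {V E : Type} {s t : E → V} {n : ℕ} (L : List (Fin n × Fin n)) (L' : Prs)
    (hL : ∀ p ∈ L, (p.1.val, p.2.val) ∈ L') (h : ¬ HasSub s t n L) (ψ : ℕ → V)
    (h1 : ∀ i < n, ∀ j < n, ψ i = ψ j → i = j)
    (h2 : ∀ p ∈ L', p.1 < n ∧ p.2 < n ∧ Adj s t (ψ p.1) (ψ p.2)) : False := by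
  refine h ⟨fun i => ψ i.val, ?_, ?_⟩
  · intro i j hij
    exact Fin.ext (h1 _ i.isLt _ j.isLt hij)
  · intro p hp
    exact (h2 _ (hL p hp)).2.2

theorem excl_cfgs {V E : Type} [Fintype V] [Fintype E] {s t : E → V} (hS : Smallest s t)
    (h5 : 5 ≤ Fintype.card V) : Excl (Adj s t) cfgs := by
  have hC := ctx_of hS h5
  intro c hc
  simp only [cfgs, List.mem_cons, List.not_mem_nil, or_false] at hc
  rcases hc with rfl | rfl | rfl | rfl | rfl | rfl | rfl | rfl | rfl | rfl | rfl | rfl | rfl | rfl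
  · intro ψ h1 h2
    have hne : ∀ i j, i < 5 → j < 5 → i ≠ j → ψ i ≠ ψ j := fun i j hi hj hij h =>
      hij (h1 i hi j hj h)
    exact hC.deg (ψ 0) (ψ 1) (ψ 2) (ψ 3) (ψ 4) (h2 (0, 1) (by simp)).2.2
      (h2 (0, 2) (by simp)).2.2 (h2 (0, 3) (by simp)).2.2 (h2 (0, 4) (by simp)).2.2
      (hne _ _ (by norm_num) (by norm_num) (by norm_num))
      (hne _ _ (by norm_num) (by norm_num) (by norm_num))
      (hne _ _ (by norm_num) (by norm_num) (by norm_num))
      (hne _ _ (by norm_num) (by norm_num) (by norm_num))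
      (hne _ _ (by norm_num) (by norm_num) (by norm_num))
      (hne _ _ (by norm_num) (by norm_num) (by norm_num))
  · intro ψ h1 h2
    have hne : ∀ i j, i < 3 → j < 3 → i ≠ j → ψ i ≠ ψ j := fun i j hi hj hij h =>
      hij (h1 i hi j hj h)
    exact hC.tri (ψ 0) (ψ 1) (ψ 2) (h2 (0, 1) (by simp)).2.2
      (h2 (1, 2) (by simp)).2.2 (h2 (2, 0) (by simp)).2.2
      (hne _ _ (by norm_num) (by norm_num) (by norm_num))
      (hne _ _ (by norm_num) (by norm_num) (by norm_num))
      (hne _ _ (by norm_num) (by norm_num) (by norm_num))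
  · intro ψ h1 h2
    have hne : ∀ i j, i < 4 → j < 4 → i ≠ j → ψ i ≠ ψ j := fun i j hi hj hij h =>
      hij (h1 i hi j hj h)
    exact hC.quad (ψ 0) (ψ 1) (ψ 2) (ψ 3) (h2 (0, 1) (by simp)).2.2
      (h2 (1, 2) (by simp)).2.2 (h2 (2, 3) (by simp)).2.2 (h2 (3, 0) (by simp)).2.2
      (hne _ _ (by norm_num) (by norm_num) (by norm_num))
      (hne _ _ (by norm_num) (by norm_num) (by norm_num))
      (hne _ _ (by norm_num) (by norm_num) (by norm_num))
      (hne _ _ (by norm_num) (by norm_num) (by norm_num))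
      (hne _ _ (by norm_num) (by norm_num) (by norm_num))
      (hne _ _ (by norm_num) (by norm_num) (by norm_num))
  · exact excl_of thetaL _ (by decide +kernel) (no_theta_sub hS)
  · exact excl_of N8x3.L _ (by decide +kernel) (N8x3.no_sub hS)
  · exact excl_of N9x4.L _ (by decide +kernel) (N9x4.no_sub hS)
  · exact excl_of N10x2.L _ (by decide +kernel) (N10x2.no_sub hS)
  · exact excl_of N10x5.L _ (by decide +kernel) (N10x5.no_sub hS)
  · exact excl_of N10x6.L _ (by decide +kernel) (N10x6.no_sub hS)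
  · exact excl_of N10x7.L _ (by decide +kernel) (N10x7.no_sub hS)
  · exact excl_of N10x8.L _ (by decide +kernel) (N10x8.no_sub hS)
  · exact excl_of N10x12.L _ (by decide +kernel) (N10x12.no_sub hS)
  · exact excl_of N10x13.L _ (by decide +kernel) (N10x13.no_sub hS)
  · exact excl_of N10x14.L _ (by decide +kernel) (N10x14.no_sub hS)

theorem inner_le {V E : Type} [Fintype V] [Fintype E] {s t : E → V} (hc : Cubic s t)
    (h2 : TwoEC s t) (h3 : Ess s t) (h5 : 5 ≤ Fintype.card V) (Z : Set V) (Z' : Finset V)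
    (hZ : ∀ v, v ∈ Z' ↔ v ∈ Z) :
    2 * ∑ e, ind (s e ∈ Z ∧ t e ∈ Z) ≤ DD (Adj s t) Z' := by
  classical
  have h1 : ∑ e, ind (s e ∈ Z ∧ t e ∈ Z) = (univ.filter fun e => s e ∈ Z ∧ t e ∈ Z).card := by
    rw [Finset.card_filter]
    apply Finset.sum_congr rfl
    intro e _
    by_cases h : s e ∈ Z ∧ t e ∈ Z
    · rw [ind_true h, if_pos h]
    · rw [ind_false h, if_neg h]
  have h4 : 2 * (univ.filter fun e => s e ∈ Z ∧ t e ∈ Z).card =
      ((univ.filter fun e => s e ∈ Z ∧ t e ∈ Z) ×ˢ (univ : Finset Bool)).card := by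
    rw [Finset.card_product, Finset.card_univ, Fintype.card_bool, mul_comm]
  have h6 : DD (Adj s t) Z' =
      (Z'.sigma fun v => Z'.filter fun u => u ≠ v ∧ Adj s t v u).card := by
    rw [Finset.card_sigma]
    rfl
  rw [h1, h4, h6]
  apply Finset.card_le_card_of_injOn
    (fun d : E × Bool => (⟨en s t d, en s t (d.1, !d.2)⟩ : Sigma fun _ : V => V))
  · rintro ⟨e, b⟩ hd
    rw [Finset.mem_coe, Finset.mem_product, Finset.mem_filter] at hd
    obtain ⟨⟨-, ha, hb⟩, -⟩ := hd
    have hne := G1 hc h2 h5 e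
    rw [Finset.mem_coe, Finset.mem_sigma, Finset.mem_filter]
    cases b
    · exact ⟨(hZ _).2 ha, (hZ _).2 hb, fun h => hne h.symm, ⟨e, Or.inl ⟨rfl, rfl⟩⟩⟩
    · exact ⟨(hZ _).2 hb, (hZ _).2 ha, fun h => hne h, ⟨e, Or.inr ⟨rfl, rfl⟩⟩⟩
  · rintro ⟨e, b⟩ - ⟨e', b'⟩ - hdd
    simp only [Sigma.mk.injEq, heq_eq_eq] at hdd
    obtain ⟨d1, d2⟩ := hdd
    have hne := G1 hc h2 h5 e
    have hne' := G1 hc h2 h5 e'
    cases b <;> cases b'
    · have d1' : s e = s e' := d1
      have d2' : t e = t e' := d2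
      have := G2 hc h3 h5 hne e e' (Or.inl ⟨rfl, rfl⟩) (Or.inl ⟨d1'.symm, d2'.symm⟩)
      rw [this]
    · have d1' : s e = t e' := d1
      have d2' : t e = s e' := d2
      have := G2 hc h3 h5 hne e e' (Or.inl ⟨rfl, rfl⟩) (Or.inr ⟨d2'.symm, d1'.symm⟩)
      subst this
      exact absurd d1' hne
    · have d1' : t e = s e' := d1
      have d2' : s e = t e' := d2
      have := G2 hc h3 h5 hne e e' (Or.inl ⟨rfl, rfl⟩) (Or.inr ⟨d1'.symm, d2'.symm⟩)
      subst this
      exact absurd d2' hne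
    · have d1' : t e = t e' := d1
      have d2' : s e = s e' := d2
      have := G2 hc h3 h5 hne e e' (Or.inl ⟨rfl, rfl⟩) (Or.inl ⟨d2'.symm, d1'.symm⟩)
      rw [this]

/-- lower bound for the number of edges that leave a set with at most ten vertices -/
theorem cut_ge {V E : Type} [Fintype V] [Fintype E] {s t : E → V} (hS : Smallest s t)
    (Z : Set V) (h5 : 5 ≤ Z.ncard) (h10 : Z.ncard ≤ 10) :
    3 * Z.ncard ≤ cut s t Z + 2 * gB Z.ncard := by
  classical
  have hV : 5 ≤ Fintype.card V := by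
    have := Set.ncard_le_card Z
    rw [Nat.card_eq_fintype_card] at this
    omega
  have h3 := ess_of_min hS.cubic hS.two hS.below hS.no (by omega)
  have h6 := handshake' s t hS.cubic Z
  have hn : Z.toFinset.card = Z.ncard := (Set.ncard_eq_toFinset_card' Z).symm
  have h7 := inner_le hS.cubic hS.two h3 hV Z Z.toFinset (fun v => Set.mem_toFinset)
  have h8 := bound (A := Adj s t) (fun u v h => h.symm) (excl_cfgs hS hV) Z.ncard h10 Z.toFinset hn
  omega

end Pool.Agent.TH372.BFR
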