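import Pool.Agent.TH372.BFR.Cap

set_option autoImplicit false

/-! Search trees. -/

namespace Pool.Agent.TH372.BFR

/-- bound for the number of edges -/
def gB (n : ℕ) : ℕ := ([0, 0, 1, 2, 3, 5, 6, 7, 9, 10, 11] : List ℕ).getD n 0

/-- the excluded configurations -/
def cfgs : List (ℕ × Prs) := [
  (5, [(0, 1), (0, 2), (0, 3), (0, 4)]),
  (3, [(0, 1), (1, 2), (2, 0)]),
  (4, [(0, 1), (1, 2), (2, 3), (3, 0)]),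
  (7, [(0, 1), (0, 2), (0, 3), (2, 4), (1, 5), (4, 6), (5, 6), (3, 6)]),
  (8, [(0, 1), (1, 2), (1, 3), (2, 4), (4, 5), (3, 6), (0, 7), (5, 6), (5, 7)]),
  (9, [(0, 1), (1, 2), (0, 3), (2, 4), (0, 5), (3, 6), (6, 7), (5, 8), (2, 8), (5, 7), (4, 6)]),
  (10, [(0, 1), (0, 2), (0, 3), (1, 4), (1, 5), (5, 6), (3, 7), (5, 8), (8, 9), (2, 6), (4, 7),
    (7, 9)]),
  (10, [(0, 1), (1, 2), (0, 3), (2, 4), (3, 5), (4, 6), (0, 7), (7, 8), (4, 9), (8, 9), (3, 6),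
    (5, 9)]),
  (10, [(0, 1), (1, 2), (1, 3), (3, 4), (3, 5), (5, 6), (5, 7), (0, 8), (0, 9), (6, 8), (4, 9),
    (2, 7)]),
  (10, [(0, 1), (0, 2), (2, 3), (3, 4), (4, 5), (1, 6), (3, 7), (0, 8), (7, 9), (5, 6), (5, 9),
    (8, 9)]),
  (10, [(0, 1), (1, 2), (1, 3), (2, 4), (0, 5), (4, 6), (3, 7), (0, 8), (8, 9), (2, 9), (5, 7),
    (3, 6)]),
  (10, [(0, 1), (1, 2), (2, 3), (0, 4), (0, 5), (2, 6), (6, 7), (5, 8), (7, 9), (4, 9), (8, 9),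
    (3, 5)]),
  (10, [(0, 1), (1, 2), (2, 3), (3, 4), (4, 5), (5, 6), (1, 7), (3, 8), (6, 9), (0, 5), (7, 9),
    (8, 9)]),
  (10, [(0, 4), (4, 1), (0, 5), (5, 6), (6, 1), (0, 2), (1, 3), (2, 7), (7, 3), (2, 8), (8, 9),
    (9, 3)])]


def cert1 : Ct :=
  (.fresh 0 .big (.low 0))

theorem cert1_ok : check gB 1 2 cfgs cert1 1 [] [] [] = true := by decide +kernel


def cert2 : Ct :=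
  (.fresh 0 (.fresh 0 .big (.low 0)) (.low 0))

theorem cert2_ok : check gB 2 2 cfgs cert2 1 [] [] [] = true := by decide +kernel


def cert3 : Ct :=
  (.fresh 0 (.fresh 0 (.fresh 0 .big (.dec 1 2 (.emb 1 [0,1,2]) (.fresh 1 .big (.low 1)))) (.low
  0)) (.low 0))

theorem cert3_ok : check gB 3 2 cfgs cert3 1 [] [] [] = true := by decide +kernel


def cert4 : Ct :=
  (.fresh 0 (.fresh 0 (.fresh 0 (.fresh 0 .big (.dec 1 2 (.emb 1 [0,1,2]) (.dec 1 3 (.emb 1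
  [0,1,3]) (.fresh 1 .big (.low 1))))) (.dec 1 2 (.emb 1 [0,1,2]) (.fresh 1 (.fresh 1 .big (.dec 2
  3 (.emb 2 [0,1,3,2]) (.fresh 2 .big (.low 2)))) (.low 1)))) (.low 0)) (.low 0))

theorem cert4_ok : check gB 4 2 cfgs cert4 1 [] [] [] = true := by decide +kernel


def cert5 : Ct :=
  (.fresh 0 (.fresh 0 (.fresh 0 (.fresh 0 (.emb 0 [0,1,2,3,4]) (.dec 1 2 (.emb 1 [0,1,2]) (.dec 1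
  3 (.emb 1 [0,1,3]) (.fresh 1 (.fresh 1 .big (.dec 2 3 (.emb 1 [0,2,3]) (.dec 2 4 (.emb 2
  [0,1,4,2]) (.fresh 2 .big (.low 2))))) (.low 1))))) (.low 0)) (.low 0)) (.low 0))

theorem cert5_ok : check gB 5 3 cfgs cert5 1 [] [] [] = true := by decide +kernel


def cert6 : Ct :=
  (.fresh 0 (.fresh 0 (.fresh 0 (.fresh 0 (.emb 0 [0,1,2,3,4]) (.dec 1 2 (.emb 1 [0,1,2]) (.dec 1
  3 (.emb 1 [0,1,3]) (.fresh 1 (.fresh 1 (.fresh 1 .big (.dec 2 3 (.emb 1 [0,2,3]) (.dec 2 4 (.emb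
  2 [0,1,4,2]) (.dec 2 5 (.emb 2 [0,1,5,2]) (.fresh 2 .big (.low 2)))))) (.dec 2 3 (.emb 1
  [0,2,3]) (.dec 2 4 (.emb 2 [0,1,4,2]) (.fresh 2 (.fresh 2 .big (.dec 3 4 (.emb 2 [0,1,4,3])
  (.dec 3 5 (.emb 2 [0,2,5,3]) (.fresh 3 .big (.low 3))))) (.low 2))))) (.low 1))))) (.low 0))
  (.low 0)) (.low 0))

theorem cert6_ok : check gB 6 3 cfgs cert6 1 [] [] [] = true := by decide +kernel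


def cert7 : Ct :=
  (.fresh 0 (.fresh 0 (.fresh 0 (.fresh 0 (.emb 0 [0,1,2,3,4]) (.dec 1 2 (.emb 1 [0,1,2]) (.dec 1
  3 (.emb 1 [0,1,3]) (.fresh 1 (.fresh 1 (.fresh 1 (.emb 0 [1,0,4,5,6]) (.dec 2 3 (.emb 1 [0,2,3])
  (.dec 2 4 (.emb 2 [0,1,4,2]) (.dec 2 5 (.emb 2 [0,1,5,2]) (.fresh 2 (.fresh 2 .big (.dec 3 4
  (.emb 2 [0,1,4,3]) (.dec 3 5 (.emb 2 [0,1,5,3]) (.dec 3 6 (.emb 2 [0,2,6,3]) (.fresh 3 .big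
  (.low 3)))))) (.low 2)))))) (.dec 2 3 (.emb 1 [0,2,3]) (.dec 2 4 (.emb 2 [0,1,4,2]) (.fresh 2
  (.fresh 2 (.fresh 2 .big (.dec 3 4 (.emb 2 [0,1,4,3]) (.dec 3 5 (.emb 2 [0,2,5,3]) (.dec 3 6
  (.emb 2 [0,2,6,3]) (.fresh 3 .big (.low 3)))))) (.dec 3 4 (.emb 2 [0,1,4,3]) (.dec 3 5 (.emb 2
  [0,2,5,3]) (.fresh 3 (.fresh 3 .big (.dec 4 5 (.dec 4 6 (.emb 3 [0,2,3,1,6,5,4]) (.fresh 4 .big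
  (.dec 5 6 (.emb 3 [0,1,3,2,6,4,5]) (.fresh 5 .big (.fresh 6 .big (.low 6)))))) (.dec 4 6 (.fresh
  4 .big (.dec 5 6 (.emb 3 [0,1,2,3,5,4,6]) (.fresh 5 .big (.low 5)))) (.fresh 4 .big (.low 4)))))
  (.low 3))))) (.low 2))))) (.low 1))))) (.low 0)) (.low 0)) (.low 0))

theorem cert7_ok : check gB 7 3 cfgs cert7 1 [] [] [] = true := by decide +kernel

def c8_0 : Ct :=
  (.fresh 2 (.fresh 2 (.emb 0 [2,0,5,6,7]) (.dec 3 4 (.emb 2 [0,1,4,3]) (.dec 3 5 (.emb 2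
  [0,2,5,3]) (.dec 3 6 (.emb 2 [0,2,6,3]) (.fresh 3 (.fresh 3 .big (.dec 4 5 (.dec 4 6 (.emb 2
  [2,5,4,6]) (.dec 4 7 (.emb 3 [0,2,3,1,7,5,4]) (.fresh 4 .big (.dec 5 6 (.emb 1 [2,5,6]) (.dec 5
  7 (.emb 3 [0,1,3,2,7,4,5]) (.fresh 5 .big (.dec 6 7 (.fresh 6 .big .cap) (.fresh 6 .big (.low
  6))))))))) (.dec 4 6 (.dec 4 7 (.emb 3 [0,2,3,1,7,6,4]) (.fresh 4 .big (.dec 5 6 (.emb 1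
  [2,5,6]) (.dec 5 7 (.fresh 5 .big (.dec 6 7 (.emb 2 [2,5,7,6]) (.fresh 6 .big .cap))) (.fresh 5
  .big (.low 5)))))) (.dec 4 7 (.fresh 4 .big (.dec 5 6 (.emb 1 [2,5,6]) (.dec 5 7 (.emb 3
  [0,1,2,3,5,4,7]) (.fresh 5 .big (.low 5))))) (.fresh 4 .big (.low 4)))))) (.low 3)))))) (.dec 3
  4 (.emb 2 [0,1,4,3]) (.dec 3 5 (.emb 2 [0,2,5,3]) (.fresh 3 (.fresh 3 (.fresh 3 .big (.dec 4 5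
  (.dec 4 6 (.emb 3 [0,2,3,1,6,5,4]) (.dec 4 7 (.emb 3 [0,2,3,1,7,5,4]) (.fresh 4 .big (.dec 5 6
  (.emb 3 [0,1,3,2,6,4,5]) (.dec 5 7 (.emb 3 [0,1,3,2,7,4,5]) (.fresh 5 .big (.dec 6 7 (.emb 1
  [3,6,7]) (.fresh 6 .big (.low 6))))))))) (.dec 4 6 (.dec 4 7 (.emb 2 [3,6,4,7]) (.fresh 4 .big
  (.dec 5 6 (.emb 3 [0,1,2,3,5,4,6]) (.dec 5 7 (.fresh 5 .big (.dec 6 7 (.emb 1 [3,6,7]) (.fresh 6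
  .big .cap))) (.fresh 5 .big (.low 5)))))) (.dec 4 7 (.fresh 4 .big (.dec 5 6 (.dec 5 7 (.emb 2
  [3,6,5,7]) (.fresh 5 .big (.dec 6 7 (.emb 1 [3,6,7]) (.fresh 6 .big .cap)))) (.dec 5 7 (.emb 3
  [0,1,2,3,5,4,7]) (.fresh 5 .big (.low 5))))) (.fresh 4 .big (.low 4)))))) (.dec 4 5 (.dec 4 6
  (.emb 3 [0,2,3,1,6,5,4]) (.fresh 4 (.fresh 4 .big (.dec 5 6 (.emb 3 [0,1,3,2,6,4,5]) (.dec 5 7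
  (.emb 1 [4,5,7]) (.fresh 5 .big (.dec 6 7 (.fresh 6 .big .cap) (.fresh 6 .big (.low 6)))))))
  (.dec 5 6 (.emb 3 [0,1,3,2,6,4,5]) (.fresh 5 (.fresh 5 .big (.dec 6 7 (.fresh 6 .big .cap)
  (.fresh 6 .big (.low 6)))) .cap)))) (.dec 4 6 (.fresh 4 (.fresh 4 .big (.dec 5 6 (.emb 3
  [0,1,2,3,5,4,6]) (.dec 5 7 (.fresh 5 .big (.dec 6 7 (.emb 1 [4,6,7]) (.fresh 6 .big .cap)))
  (.fresh 5 .big (.low 5))))) (.dec 5 6 (.emb 3 [0,1,2,3,5,4,6]) (.fresh 5 (.fresh 5 .big .cap)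
  (.low 5)))) (.fresh 4 (.fresh 4 .big (.dec 5 6 (.dec 5 7 (.fresh 5 .big (.dec 6 7 (.emb 1
  [5,6,7]) (.fresh 6 .big .cap))) (.fresh 5 .big .cap)) (.dec 5 7 (.fresh 5 .big .cap) (.fresh 5
  .big (.low 5))))) (.low 4))))) (.low 3)))))

def cert8 : Ct :=
  (.fresh 0 (.fresh 0 (.fresh 0 (.fresh 0 (.emb 0 [0,1,2,3,4]) (.dec 1 2 (.emb 1 [0,1,2]) (.dec 1
  3 (.emb 1 [0,1,3]) (.fresh 1 (.fresh 1 (.fresh 1 (.emb 0 [1,0,4,5,6]) (.dec 2 3 (.emb 1 [0,2,3])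
  (.dec 2 4 (.emb 2 [0,1,4,2]) (.dec 2 5 (.emb 2 [0,1,5,2]) (.fresh 2 (.fresh 2 (.fresh 2 .big
  (.dec 3 4 (.emb 2 [0,1,4,3]) (.dec 3 5 (.emb 2 [0,1,5,3]) (.dec 3 6 (.emb 2 [0,2,6,3]) (.dec 3 7
  (.emb 2 [0,2,7,3]) (.fresh 3 .big (.low 3))))))) (.dec 3 4 (.emb 2 [0,1,4,3]) (.dec 3 5 (.emb 2
  [0,1,5,3]) (.dec 3 6 (.emb 2 [0,2,6,3]) (.fresh 3 (.fresh 3 .big (.dec 4 5 (.emb 1 [1,4,5])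
  (.dec 4 6 (.dec 4 7 (.emb 3 [0,2,3,1,7,6,4]) (.fresh 4 .big (.dec 5 6 (.emb 2 [1,4,6,5]) (.dec 5
  7 (.fresh 5 .big (.dec 6 7 (.emb 3 [0,1,2,3,6,5,7]) (.fresh 6 .big .cap))) (.fresh 5 .big (.low
  5)))))) (.dec 4 7 (.fresh 4 .big (.dec 5 6 (.dec 5 7 (.emb 2 [1,4,7,5]) (.fresh 5 .big (.dec 6 7
  (.emb 3 [0,1,2,3,6,4,7]) (.fresh 6 .big .cap)))) (.dec 5 7 (.emb 2 [1,4,7,5]) (.fresh 5 .big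
  (.low 5))))) (.fresh 4 .big (.low 4)))))) (.low 3)))))) (.low 2)))))) (.dec 2 3 (.emb 1 [0,2,3])
  (.dec 2 4 (.emb 2 [0,1,4,2]) (.fresh 2 c8_0 (.low 2))))) (.low 1))))) (.low 0)) (.low 0)) (.low
  0))

theorem cert8_ok : check gB 8 3 cfgs cert8 1 [] [] [] = true := by decide +kernel

def c9_0 : Ct :=
  (.dec 4 6 (.dec 4 7 (.emb 3 [0,2,3,1,7,6,4]) (.fresh 4 (.fresh 4 .big (.dec 5 6 (.emb 2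
  [1,4,6,5]) (.dec 5 7 (.dec 5 8 (.emb 2 [1,4,8,5]) (.fresh 5 .big (.dec 6 7 (.emb 3
  [0,1,2,3,6,5,7]) (.dec 6 8 (.emb 1 [4,8,6]) (.fresh 6 .big (.dec 7 8 (.emb 3 [1,0,4,5,8,3,7])
  (.fresh 7 .big (.fresh 8 .big (.low 8))))))))) (.dec 5 8 (.emb 2 [1,4,8,5]) (.fresh 5 .big (.low
  5)))))) (.dec 5 6 (.emb 2 [1,4,6,5]) (.dec 5 7 (.fresh 5 (.fresh 5 .big (.dec 6 7 (.emb 3
  [0,1,2,3,6,5,7]) (.dec 6 8 (.emb 3 [1,0,5,4,8,2,6]) (.fresh 6 .big (.dec 7 8 (.emb 1 [5,8,7])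
  (.fresh 7 .big (.fresh 8 .big (.low 8)))))))) (.dec 6 7 (.emb 3 [0,1,2,3,6,5,7]) (.fresh 6
  (.fresh 6 .big (.dec 7 8 (.emb 5 [0,2,6,3,8,1,7,5,4]) (.fresh 7 .big (.fresh 8 .big (.low 8)))))
  (.fresh 7 (.fresh 7 .big (.fresh 8 .big (.low 8))) .cap)))) (.fresh 5 (.fresh 5 .big (.dec 6 7
  (.emb 3 [0,1,3,2,7,4,6]) (.dec 6 8 (.emb 3 [1,0,5,4,8,2,6]) (.fresh 6 .big (.dec 7 8 (.fresh 7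
  .big .cap) (.fresh 7 .big (.low 7))))))) (.low 5)))))) (.dec 4 7 (.fresh 4 (.fresh 4 .big (.dec
  5 6 (.dec 5 7 (.emb 2 [1,4,7,5]) (.dec 5 8 (.emb 2 [1,4,8,5]) (.fresh 5 .big (.dec 6 7 (.emb 3
  [0,1,2,3,6,4,7]) (.dec 6 8 (.emb 3 [1,0,4,5,8,2,6]) (.fresh 6 .big (.dec 7 8 (.emb 1 [4,8,7])
  (.fresh 7 .big (.fresh 8 .big (.low 8)))))))))) (.dec 5 7 (.emb 2 [1,4,7,5]) (.dec 5 8 (.emb 2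
  [1,4,8,5]) (.fresh 5 .big (.low 5)))))) (.dec 5 6 (.dec 5 7 (.emb 2 [1,4,7,5]) (.fresh 5 (.fresh
  5 .big (.dec 6 7 (.emb 3 [0,1,2,3,6,4,7]) (.dec 6 8 (.emb 1 [5,8,6]) (.fresh 6 .big (.dec 7 8
  (.emb 3 [1,0,5,4,8,3,7]) (.fresh 7 .big (.fresh 8 .big (.low 8)))))))) (.dec 6 7 (.emb 3
  [0,1,2,3,6,4,7]) (.fresh 6 (.fresh 6 .big (.dec 7 8 (.emb 5 [0,2,6,3,8,1,7,4,5]) (.fresh 7 .big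
  (.fresh 8 .big (.low 8))))) (.fresh 7 (.fresh 7 .big (.fresh 8 .big (.low 8))) .cap))))) (.dec 5
  7 (.emb 2 [1,4,7,5]) (.fresh 5 (.fresh 5 .big (.dec 6 7 (.emb 3 [0,1,2,3,6,4,7]) (.dec 6 8
  (.fresh 6 .big (.dec 7 8 (.emb 3 [1,0,5,4,8,3,7]) (.fresh 7 .big .cap))) (.fresh 6 .big (.low
  6))))) (.low 5))))) (.fresh 4 (.fresh 4 .big (.dec 5 6 (.dec 5 7 (.emb 3 [0,2,3,1,7,6,5]) (.dec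
  5 8 (.emb 2 [1,4,8,5]) (.fresh 5 .big (.dec 6 7 (.emb 3 [0,1,3,2,7,5,6]) (.dec 6 8 (.emb 3
  [1,0,4,5,8,2,6]) (.fresh 6 .big (.dec 7 8 (.fresh 7 .big .cap) (.fresh 7 .big (.low 7)))))))))
  (.dec 5 7 (.dec 5 8 (.emb 2 [1,4,8,5]) (.fresh 5 .big (.dec 6 7 (.emb 3 [0,1,2,3,6,5,7]) (.dec 6
  8 (.fresh 6 .big (.dec 7 8 (.emb 3 [1,0,4,5,8,3,7]) (.fresh 7 .big .cap))) (.fresh 6 .big (.low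
  6)))))) (.dec 5 8 (.emb 2 [1,4,8,5]) (.fresh 5 .big (.low 5)))))) (.low 4))))

def c9_1 : Ct :=
  (.fresh 2 (.fresh 2 (.emb 0 [2,0,8,6,7]) (.dec 3 4 (.emb 2 [0,1,4,3]) (.dec 3 5 (.emb 2
  [0,1,5,3]) (.dec 3 6 (.emb 2 [0,2,6,3]) (.dec 3 7 (.emb 2 [0,2,7,3]) (.fresh 3 (.fresh 3 .big
  (.dec 4 5 (.emb 1 [1,4,5]) (.dec 4 6 (.dec 4 7 (.emb 2 [2,6,4,7]) (.dec 4 8 (.emb 3
  [0,2,3,1,8,6,4]) (.fresh 4 .big (.dec 5 6 (.emb 2 [1,4,6,5]) (.dec 5 7 (.emb 3 [1,4,5,0,7,6,2])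
  (.dec 5 8 (.fresh 5 .big (.dec 6 7 (.emb 1 [2,6,7]) (.dec 6 8 (.emb 3 [0,1,2,3,6,5,8]) (.fresh 6
  .big (.dec 7 8 (.emb 3 [0,1,2,3,7,5,8]) (.fresh 7 .big (.low 7))))))) (.fresh 5 .big (.low
  5)))))))) (.dec 4 7 (.dec 4 8 (.emb 3 [0,2,3,1,8,7,4]) (.fresh 4 .big (.dec 5 6 (.emb 3
  [1,4,5,0,6,7,2]) (.dec 5 7 (.emb 2 [1,4,7,5]) (.dec 5 8 (.fresh 5 .big (.dec 6 7 (.emb 1
  [2,6,7]) (.dec 6 8 (.emb 3 [0,1,2,3,6,5,8]) (.fresh 6 .big (.low 6))))) (.fresh 5 .big (.low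
  5))))))) (.dec 4 8 (.fresh 4 .big (.dec 5 6 (.dec 5 7 (.emb 2 [2,6,5,7]) (.dec 5 8 (.emb 2
  [1,4,8,5]) (.fresh 5 .big (.dec 6 7 (.emb 1 [2,6,7]) (.dec 6 8 (.emb 3 [0,1,2,3,6,4,8]) (.fresh
  6 .big (.dec 7 8 (.emb 3 [0,1,2,3,7,4,8]) (.fresh 7 .big (.low 7))))))))) (.dec 5 7 (.dec 5 8
  (.emb 2 [1,4,8,5]) (.fresh 5 .big (.dec 6 7 (.emb 1 [2,6,7]) (.dec 6 8 (.emb 3 [0,1,2,3,6,4,8])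
  (.fresh 6 .big (.low 6)))))) (.dec 5 8 (.emb 2 [1,4,8,5]) (.fresh 5 .big (.low 5)))))) (.fresh 4
  .big (.low 4))))))) (.low 3))))))) (.dec 3 4 (.emb 2 [0,1,4,3]) (.dec 3 5 (.emb 2 [0,1,5,3])
  (.dec 3 6 (.emb 2 [0,2,6,3]) (.fresh 3 (.fresh 3 (.fresh 3 .big (.dec 4 5 (.emb 1 [1,4,5]) (.dec
  4 6 (.dec 4 7 (.emb 3 [0,2,3,1,7,6,4]) (.dec 4 8 (.emb 3 [0,2,3,1,8,6,4]) (.fresh 4 .big (.dec 5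
  6 (.emb 2 [1,4,6,5]) (.dec 5 7 (.dec 5 8 (.emb 2 [3,8,5,7]) (.fresh 5 .big (.dec 6 7 (.emb 3
  [0,1,2,3,6,5,7]) (.dec 6 8 (.emb 3 [0,1,3,2,8,4,6]) (.fresh 6 .big (.dec 7 8 (.emb 1 [3,8,7])
  (.fresh 7 .big (.fresh 8 .big (.low 8))))))))) (.dec 5 8 (.fresh 5 .big (.dec 6 7 (.emb 3
  [0,1,3,2,7,4,6]) (.dec 6 8 (.emb 3 [0,1,2,3,6,5,8]) (.fresh 6 .big (.dec 7 8 (.emb 1 [3,8,7])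
  (.fresh 7 .big (.low 7))))))) (.fresh 5 .big (.low 5)))))))) (.dec 4 7 (.dec 4 8 (.emb 2
  [3,8,4,7]) (.fresh 4 .big (.dec 5 6 (.dec 5 7 (.emb 2 [1,4,7,5]) (.dec 5 8 (.emb 3
  [0,2,3,1,8,6,5]) (.fresh 5 .big (.dec 6 7 (.emb 3 [0,1,2,3,6,4,7]) (.dec 6 8 (.emb 3
  [0,1,3,2,8,5,6]) (.fresh 6 .big (.dec 7 8 (.emb 1 [3,8,7]) (.fresh 7 .big (.fresh 8 .big (.low
  8)))))))))) (.dec 5 7 (.emb 2 [1,4,7,5]) (.dec 5 8 (.emb 3 [1,4,5,0,8,7,3]) (.fresh 5 .big (.low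
  5))))))) (.dec 4 8 (.fresh 4 .big (.dec 5 6 (.dec 5 7 (.emb 3 [0,2,3,1,7,6,5]) (.dec 5 8 (.emb 2
  [1,4,8,5]) (.fresh 5 .big (.dec 6 7 (.emb 3 [0,1,3,2,7,5,6]) (.dec 6 8 (.emb 3 [0,1,2,3,6,4,8])
  (.fresh 6 .big (.dec 7 8 (.emb 1 [3,8,7]) (.fresh 7 .big (.low 7))))))))) (.dec 5 7 (.emb 3
  [1,4,5,0,7,8,3]) (.dec 5 8 (.emb 2 [1,4,8,5]) (.fresh 5 .big (.low 5)))))) (.fresh 4 .big (.low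
  4))))))) (.dec 4 5 (.emb 1 [1,4,5]) c9_0)) (.low 3))))))

def c9_2 : Ct :=
  (.dec 4 6 (.dec 4 7 (.emb 3 [0,2,3,1,7,6,4]) (.fresh 4 (.fresh 4 .big (.dec 5 6 (.emb 1 [2,5,6])
  (.dec 5 7 (.dec 5 8 (.emb 3 [2,0,5,6,8,1,4]) (.fresh 5 .big (.dec 6 7 (.emb 2 [2,5,7,6]) (.dec 6
  8 (.emb 1 [4,8,6]) (.fresh 6 .big (.dec 7 8 (.emb 5 [0,1,4,3,8,2,7,5,6]) (.fresh 7 .big (.fresh
  8 .big (.low 8))))))))) (.dec 5 8 (.emb 3 [2,0,5,6,8,1,4]) (.fresh 5 .big (.low 5)))))) (.dec 5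
  6 (.emb 1 [2,5,6]) (.dec 5 7 (.fresh 5 (.fresh 5 .big (.dec 6 7 (.emb 2 [2,5,7,6]) (.dec 6 8
  (.emb 2 [2,5,8,6]) (.fresh 6 .big (.dec 7 8 (.emb 1 [5,8,7]) (.fresh 7 .big (.fresh 8 .big (.low
  8)))))))) (.dec 6 7 (.emb 2 [2,5,7,6]) (.fresh 6 (.fresh 6 .big (.dec 7 8 (.emb 3
  [2,0,6,5,8,3,7]) (.fresh 7 .big (.fresh 8 .big (.low 8))))) (.fresh 7 (.fresh 7 .big (.fresh 8
  .big (.low 8))) .cap)))) (.fresh 5 (.fresh 5 .big (.dec 6 7 (.emb 3 [0,1,3,2,7,4,6]) (.dec 6 8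
  (.emb 2 [2,5,8,6]) (.fresh 6 .big (.dec 7 8 (.fresh 7 .big .cap) (.fresh 7 .big (.low 7)))))))
  (.low 5)))))) (.dec 4 7 (.fresh 4 (.fresh 4 .big (.dec 5 6 (.emb 1 [2,5,6]) (.dec 5 7 (.emb 3
  [0,1,2,3,5,4,7]) (.dec 5 8 (.fresh 5 .big (.dec 6 7 (.emb 3 [0,1,2,3,6,4,7]) (.dec 6 8 (.emb 2
  [2,5,8,6]) (.fresh 6 .big (.low 6))))) (.fresh 5 .big (.low 5)))))) (.dec 5 6 (.emb 1 [2,5,6])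
  (.dec 5 7 (.emb 3 [0,1,2,3,5,4,7]) (.fresh 5 (.fresh 5 .big (.dec 6 7 (.emb 3 [0,1,2,3,6,4,7])
  (.dec 6 8 (.emb 2 [2,5,8,6]) (.fresh 6 .big (.low 6))))) (.low 5))))) (.fresh 4 (.fresh 4 .big
  (.dec 5 6 (.emb 1 [2,5,6]) (.dec 5 7 (.dec 5 8 (.fresh 5 .big (.dec 6 7 (.emb 2 [2,5,7,6]) (.dec
  6 8 (.emb 2 [2,5,8,6]) (.fresh 6 .big (.low 6))))) (.fresh 5 .big (.dec 6 7 (.emb 2 [2,5,7,6])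
  (.dec 6 8 (.fresh 6 .big (.dec 7 8 (.emb 3 [2,0,6,5,8,3,7]) (.fresh 7 .big .cap))) (.fresh 6
  .big (.low 6)))))) (.dec 5 8 (.fresh 5 .big (.dec 6 7 (.dec 6 8 (.emb 2 [2,5,8,6]) (.fresh 6
  .big (.dec 7 8 (.emb 3 [2,0,5,6,8,3,7]) (.fresh 7 .big .cap)))) (.dec 6 8 (.emb 2 [2,5,8,6])
  (.fresh 6 .big (.low 6))))) (.fresh 5 .big (.low 5)))))) (.low 4))))

def c9_3 : Ct :=
  (.fresh 3 (.fresh 3 .big (.dec 4 5 (.dec 4 6 (.emb 2 [2,5,4,6]) (.dec 4 7 (.emb 3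
  [0,2,3,1,7,5,4]) (.dec 4 8 (.emb 3 [0,2,3,1,8,5,4]) (.fresh 4 .big (.dec 5 6 (.emb 1 [2,5,6])
  (.dec 5 7 (.emb 3 [0,1,3,2,7,4,5]) (.dec 5 8 (.emb 3 [0,1,3,2,8,4,5]) (.fresh 5 .big (.dec 6 7
  (.dec 6 8 (.emb 2 [3,8,6,7]) (.fresh 6 .big (.dec 7 8 (.emb 1 [3,8,7]) (.fresh 7 .big (.fresh 8
  .big (.low 8)))))) (.dec 6 8 (.fresh 6 .big (.dec 7 8 (.emb 1 [3,8,7]) (.fresh 7 .big (.low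
  7)))) (.fresh 6 .big (.low 6)))))))))))) (.dec 4 6 (.dec 4 7 (.emb 3 [0,2,3,1,7,6,4]) (.dec 4 8
  (.emb 3 [0,2,3,1,8,6,4]) (.fresh 4 .big (.dec 5 6 (.emb 1 [2,5,6]) (.dec 5 7 (.dec 5 8 (.emb 2
  [3,8,5,7]) (.fresh 5 .big (.dec 6 7 (.emb 2 [2,5,7,6]) (.dec 6 8 (.emb 3 [0,1,3,2,8,4,6])
  (.fresh 6 .big (.dec 7 8 (.emb 1 [3,8,7]) (.fresh 7 .big (.fresh 8 .big (.low 8))))))))) (.dec 5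
  8 (.fresh 5 .big (.dec 6 7 (.emb 3 [0,1,3,2,7,4,6]) (.dec 6 8 (.emb 2 [2,5,8,6]) (.fresh 6 .big
  (.dec 7 8 (.emb 1 [3,8,7]) (.fresh 7 .big (.low 7))))))) (.fresh 5 .big (.low 5)))))))) (.dec 4
  7 (.dec 4 8 (.emb 2 [3,8,4,7]) (.fresh 4 .big (.dec 5 6 (.emb 1 [2,5,6]) (.dec 5 7 (.emb 3
  [0,1,2,3,5,4,7]) (.dec 5 8 (.fresh 5 .big (.dec 6 7 (.emb 3 [0,1,2,3,6,4,7]) (.dec 6 8 (.emb 2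
  [2,5,8,6]) (.fresh 6 .big (.low 6))))) (.fresh 5 .big (.low 5))))))) (.dec 4 8 (.fresh 4 .big
  (.dec 5 6 (.emb 1 [2,5,6]) (.dec 5 7 (.dec 5 8 (.emb 2 [3,8,5,7]) (.fresh 5 .big (.dec 6 7 (.emb
  2 [2,5,7,6]) (.dec 6 8 (.emb 3 [0,1,2,3,6,4,8]) (.fresh 6 .big (.low 6)))))) (.dec 5 8 (.emb 3
  [0,1,2,3,5,4,8]) (.fresh 5 .big (.low 5)))))) (.fresh 4 .big (.low 4))))))) (.dec 4 5 (.dec 4 6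
  (.emb 2 [2,5,4,6]) (.dec 4 7 (.emb 3 [0,2,3,1,7,5,4]) (.fresh 4 (.fresh 4 .big (.dec 5 6 (.emb 1
  [2,5,6]) (.dec 5 7 (.emb 3 [0,1,3,2,7,4,5]) (.dec 5 8 (.emb 1 [4,8,5]) (.fresh 5 .big (.dec 6 7
  (.dec 6 8 (.emb 3 [2,0,6,5,8,1,4]) (.fresh 6 .big (.dec 7 8 (.emb 5 [0,1,4,3,8,2,7,6,5]) (.fresh
  7 .big (.fresh 8 .big (.low 8)))))) (.dec 6 8 (.emb 3 [2,0,6,5,8,1,4]) (.fresh 6 .big (.low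
  6))))))))) (.dec 5 6 (.emb 1 [2,5,6]) (.dec 5 7 (.emb 3 [0,1,3,2,7,4,5]) (.fresh 5 (.fresh 5
  .big (.dec 6 7 (.dec 6 8 (.emb 2 [2,5,8,6]) (.fresh 6 .big (.dec 7 8 (.emb 3 [2,0,5,6,8,3,7])
  (.fresh 7 .big (.fresh 8 .big (.low 8)))))) (.dec 6 8 (.emb 2 [2,5,8,6]) (.fresh 6 .big (.low
  6))))) (.dec 6 7 (.fresh 6 (.fresh 6 .big (.dec 7 8 (.emb 1 [6,8,7]) (.fresh 7 .big (.fresh 8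
  .big (.low 8))))) (.fresh 7 (.fresh 7 .big (.fresh 8 .big (.low 8))) .cap)) (.fresh 6 (.fresh 6
  .big (.dec 7 8 (.fresh 7 .big .cap) (.fresh 7 .big (.low 7)))) (.low 6))))))))) c9_2))

def c9_4 : Ct :=
  (.dec 4 7 (.fresh 4 (.fresh 4 .big (.dec 5 6 (.dec 5 7 (.emb 2 [3,6,5,7]) (.dec 5 8 (.emb 5
  [0,1,4,2,8,3,5,6,7]) (.fresh 5 .big (.dec 6 7 (.emb 1 [3,6,7]) (.dec 6 8 (.emb 3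
  [3,0,6,7,8,1,4]) (.fresh 6 .big (.dec 7 8 (.emb 1 [4,8,7]) (.fresh 7 .big (.fresh 8 .big (.low
  8)))))))))) (.dec 5 7 (.emb 3 [0,1,2,3,5,4,7]) (.dec 5 8 (.fresh 5 .big (.dec 6 7 (.emb 1
  [3,6,7]) (.dec 6 8 (.emb 3 [3,0,6,7,8,1,4]) (.fresh 6 .big (.low 6))))) (.fresh 5 .big (.low
  5)))))) (.dec 5 6 (.dec 5 7 (.emb 2 [3,6,5,7]) (.fresh 5 (.fresh 5 .big (.dec 6 7 (.emb 1
  [3,6,7]) (.dec 6 8 (.emb 1 [5,8,6]) (.fresh 6 .big (.dec 7 8 (.emb 3 [3,0,7,6,8,2,5]) (.fresh 7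
  .big (.fresh 8 .big (.low 8)))))))) (.dec 6 7 (.emb 1 [3,6,7]) (.fresh 6 (.fresh 6 .big (.dec 7
  8 (.emb 2 [3,6,8,7]) (.fresh 7 .big (.fresh 8 .big (.low 8))))) (.fresh 7 (.fresh 7 .big (.fresh
  8 .big (.low 8))) .cap))))) (.dec 5 7 (.emb 3 [0,1,2,3,5,4,7]) (.fresh 5 (.fresh 5 .big (.dec 6
  7 (.emb 1 [3,6,7]) (.dec 6 8 (.fresh 6 .big (.dec 7 8 (.emb 2 [3,6,8,7]) (.fresh 7 .big .cap)))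
  (.fresh 6 .big (.low 6))))) (.low 5))))) (.fresh 4 (.fresh 4 .big (.dec 5 6 (.dec 5 7 (.emb 2
  [3,6,5,7]) (.dec 5 8 (.fresh 5 .big (.dec 6 7 (.emb 1 [3,6,7]) (.dec 6 8 (.emb 1 [5,8,6])
  (.fresh 6 .big (.dec 7 8 (.emb 3 [3,0,7,6,8,2,5]) (.fresh 7 .big (.low 7))))))) (.fresh 5 .big
  (.dec 6 7 (.emb 1 [3,6,7]) (.dec 6 8 (.fresh 6 .big (.dec 7 8 (.emb 2 [3,6,8,7]) (.fresh 7 .big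
  (.low 7)))) (.fresh 6 .big (.dec 7 8 (.fresh 7 .big .cap) (.fresh 7 .big (.low 7))))))))) (.dec
  5 7 (.dec 5 8 (.fresh 5 .big (.dec 6 7 (.emb 1 [3,6,7]) (.dec 6 8 (.emb 3 [3,0,6,7,8,2,5])
  (.fresh 6 .big (.low 6))))) (.fresh 5 .big (.dec 6 7 (.emb 1 [3,6,7]) (.dec 6 8 (.fresh 6 .big
  (.dec 7 8 (.emb 2 [3,6,8,7]) (.fresh 7 .big .cap))) (.fresh 6 .big (.low 6)))))) (.dec 5 8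
  (.fresh 5 .big (.dec 6 7 (.emb 1 [3,6,7]) (.dec 6 8 (.emb 4 [1,0,2,3,5,8,6,4]) (.fresh 6 .big
  (.low 6))))) (.fresh 5 .big (.low 5)))))) (.low 4)))

def c9_5 : Ct :=
  (.dec 4 5 (.dec 4 6 (.emb 3 [0,2,3,1,6,5,4]) (.dec 4 7 (.emb 3 [0,2,3,1,7,5,4]) (.fresh 4
  (.fresh 4 .big (.dec 5 6 (.emb 3 [0,1,3,2,6,4,5]) (.dec 5 7 (.emb 3 [0,1,3,2,7,4,5]) (.dec 5 8
  (.emb 1 [4,8,5]) (.fresh 5 .big (.dec 6 7 (.emb 1 [3,6,7]) (.dec 6 8 (.fresh 6 .big (.dec 7 8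
  (.emb 2 [3,6,8,7]) (.fresh 7 .big (.low 7)))) (.fresh 6 .big (.low 6))))))))) (.dec 5 6 (.emb 3
  [0,1,3,2,6,4,5]) (.dec 5 7 (.emb 3 [0,1,3,2,7,4,5]) (.fresh 5 (.fresh 5 .big (.dec 6 7 (.emb 1
  [3,6,7]) (.dec 6 8 (.fresh 6 .big (.dec 7 8 (.emb 2 [3,6,8,7]) (.fresh 7 .big (.low 7))))
  (.fresh 6 .big (.low 6))))) (.dec 6 7 (.emb 1 [3,6,7]) (.fresh 6 (.fresh 6 .big (.dec 7 8 (.emb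
  2 [3,6,8,7]) (.fresh 7 .big (.low 7)))) (.low 6))))))))) (.dec 4 6 (.dec 4 7 (.emb 2 [3,6,4,7])
  (.fresh 4 (.fresh 4 .big (.dec 5 6 (.emb 3 [0,1,2,3,5,4,6]) (.dec 5 7 (.dec 5 8 (.emb 5
  [0,1,4,2,8,3,5,7,6]) (.fresh 5 .big (.dec 6 7 (.emb 1 [3,6,7]) (.dec 6 8 (.emb 1 [4,8,6])
  (.fresh 6 .big (.dec 7 8 (.emb 3 [3,0,7,6,8,1,4]) (.fresh 7 .big (.fresh 8 .big (.low 8)))))))))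
  (.dec 5 8 (.fresh 5 .big (.dec 6 7 (.emb 1 [3,6,7]) (.dec 6 8 (.emb 1 [4,8,6]) (.fresh 6 .big
  (.dec 7 8 (.emb 3 [3,0,7,6,8,1,4]) (.fresh 7 .big (.low 7))))))) (.fresh 5 .big (.low 5))))))
  (.dec 5 6 (.emb 3 [0,1,2,3,5,4,6]) (.dec 5 7 (.fresh 5 (.fresh 5 .big (.dec 6 7 (.emb 1 [3,6,7])
  (.dec 6 8 (.emb 3 [3,0,6,7,8,2,5]) (.fresh 6 .big (.dec 7 8 (.emb 1 [5,8,7]) (.fresh 7 .big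
  (.fresh 8 .big (.low 8)))))))) (.dec 6 7 (.emb 1 [3,6,7]) (.fresh 6 (.fresh 6 .big (.dec 7 8
  (.emb 2 [3,6,8,7]) (.fresh 7 .big (.fresh 8 .big (.low 8))))) (.fresh 7 (.fresh 7 .big (.fresh 8
  .big (.low 8))) .cap)))) (.fresh 5 (.fresh 5 .big (.dec 6 7 (.emb 1 [3,6,7]) (.dec 6 8 (.fresh 6
  .big (.dec 7 8 (.emb 2 [3,6,8,7]) (.fresh 7 .big (.low 7)))) (.fresh 6 .big (.dec 7 8 (.fresh 7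
  .big .cap) (.fresh 7 .big (.low 7))))))) (.low 5)))))) c9_4))

def c9_6 : Ct :=
  (.fresh 4 (.fresh 4 .big (.dec 5 6 (.dec 5 7 (.dec 5 8 (.emb 0 [5,8,2,6,7]) (.fresh 5 .big (.dec
  6 7 (.emb 1 [5,6,7]) (.dec 6 8 (.emb 5 [5,2,0,7,1,6,4,8,3]) (.fresh 6 .big (.dec 7 8 (.emb 1
  [4,8,7]) (.fresh 7 .big (.fresh 8 .big (.low 8))))))))) (.dec 5 8 (.fresh 5 .big (.dec 6 7 (.emb
  5 [5,8,4,2,1,6,0,3,7]) (.dec 6 8 (.emb 1 [5,8,6]) (.fresh 6 .big (.dec 7 8 (.emb 1 [4,8,7])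
  (.fresh 7 .big (.low 7))))))) (.fresh 5 .big (.dec 6 7 (.dec 6 8 (.emb 0 [6,8,3,5,7]) (.fresh 6
  .big (.dec 7 8 (.emb 1 [4,8,7]) (.fresh 7 .big (.fresh 8 .big (.low 8)))))) (.dec 6 8 (.fresh 6
  .big (.dec 7 8 (.emb 1 [4,8,7]) (.fresh 7 .big (.low 7)))) (.fresh 6 .big (.dec 7 8 (.emb 1
  [4,8,7]) (.fresh 7 .big (.low 7))))))))) (.dec 5 7 (.dec 5 8 (.emb 2 [4,8,5,7]) (.fresh 5 .big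
  (.dec 6 7 (.emb 4 [1,0,2,3,5,7,6,4]) (.dec 6 8 (.fresh 6 .big (.dec 7 8 (.emb 1 [4,8,7]) (.fresh
  7 .big .cap))) (.fresh 6 .big (.low 6)))))) (.dec 5 8 (.fresh 5 .big (.dec 6 7 (.dec 6 8 (.emb 2
  [4,8,6,7]) (.fresh 6 .big (.dec 7 8 (.emb 1 [4,8,7]) (.fresh 7 .big .cap)))) (.dec 6 8 (.emb 4
  [1,0,2,3,5,8,6,4]) (.fresh 6 .big (.low 6))))) (.fresh 5 .big (.low 5)))))) (.dec 5 6 (.dec 5 7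
  (.fresh 5 (.emb 0 [5,8,2,6,7]) (.dec 6 7 (.emb 1 [5,6,7]) (.fresh 6 (.fresh 6 .big (.dec 7 8
  (.emb 2 [5,6,8,7]) (.fresh 7 .big (.fresh 8 .big (.low 8))))) (.fresh 7 (.fresh 7 .big (.fresh 8
  .big (.low 8))) .cap)))) (.fresh 5 (.fresh 5 .big (.dec 6 7 (.dec 6 8 (.emb 0 [6,8,3,5,7])
  (.fresh 6 .big (.dec 7 8 (.emb 2 [5,8,7,6]) (.fresh 7 .big (.fresh 8 .big (.low 8)))))) (.dec 6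
  8 (.emb 1 [5,8,6]) (.fresh 6 .big (.dec 7 8 (.fresh 7 .big .cap) (.fresh 7 .big (.low 7)))))))
  (.dec 6 7 (.fresh 6 (.emb 0 [6,8,3,5,7]) (.fresh 7 (.fresh 7 .big (.fresh 8 .big (.low 8)))
  .cap)) (.fresh 6 (.fresh 6 .big (.dec 7 8 (.fresh 7 .big .cap) (.fresh 7 .big (.low 7))))
  .cap)))) (.dec 5 7 (.fresh 5 (.fresh 5 .big (.dec 6 7 (.emb 4 [1,0,2,3,5,7,6,4]) (.dec 6 8
  (.fresh 6 .big (.dec 7 8 (.emb 1 [5,8,7]) (.fresh 7 .big .cap))) (.fresh 6 .big (.low 6)))))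
  (.dec 6 7 (.emb 4 [1,0,2,3,5,7,6,4]) (.fresh 6 (.fresh 6 .big .cap) (.low 6)))) (.fresh 5
  (.fresh 5 .big (.dec 6 7 (.dec 6 8 (.fresh 6 .big (.dec 7 8 (.emb 1 [6,8,7]) (.fresh 7 .big
  .cap))) (.fresh 6 .big .cap)) (.dec 6 8 (.fresh 6 .big .cap) (.fresh 6 .big (.low 6))))) (.low
  5)))))

def c9_7 : Ct :=
  (.dec 4 5 (.dec 4 6 (.emb 3 [0,2,3,1,6,5,4]) (.fresh 4 (.fresh 4 (.emb 0 [4,8,1,5,7]) (.dec 5 6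
  (.emb 3 [0,1,3,2,6,4,5]) (.dec 5 7 (.emb 1 [4,5,7]) (.fresh 5 (.fresh 5 .big (.dec 6 7 (.dec 6 8
  (.emb 5 [4,1,0,7,3,5,6,8,2]) (.fresh 6 .big (.dec 7 8 (.emb 2 [4,5,8,7]) (.fresh 7 .big (.fresh
  8 .big (.low 8)))))) (.dec 6 8 (.fresh 6 .big (.dec 7 8 (.emb 2 [4,5,8,7]) (.fresh 7 .big (.low
  7)))) (.fresh 6 .big (.low 6))))) (.dec 6 7 (.fresh 6 (.fresh 6 .big (.dec 7 8 (.emb 1 [6,8,7])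
  (.fresh 7 .big (.fresh 8 .big (.low 8))))) (.fresh 7 (.fresh 7 .big (.fresh 8 .big (.low 8)))
  .cap)) (.fresh 6 (.fresh 6 .big (.dec 7 8 (.fresh 7 .big .cap) (.fresh 7 .big (.low 7)))) (.low
  6))))))) (.dec 5 6 (.emb 3 [0,1,3,2,6,4,5]) (.fresh 5 (.fresh 5 (.emb 0 [5,8,2,4,7]) (.dec 6 7
  (.fresh 6 (.fresh 6 .big (.dec 7 8 (.emb 1 [6,8,7]) (.fresh 7 .big (.fresh 8 .big (.low 8)))))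
  (.fresh 7 (.fresh 7 .big (.fresh 8 .big (.low 8))) .cap)) (.fresh 6 (.fresh 6 .big (.dec 7 8
  (.fresh 7 .big .cap) (.fresh 7 .big (.low 7)))) (.low 6)))) (.fresh 6 (.fresh 6 (.fresh 6 .big
  (.dec 7 8 (.emb 1 [6,8,7]) (.fresh 7 .big (.low 7)))) .cap) (.low 6)))))) (.dec 4 6 (.fresh 4
  (.fresh 4 (.emb 0 [4,8,1,6,7]) (.dec 5 6 (.emb 3 [0,1,2,3,5,4,6]) (.dec 5 7 (.fresh 5 (.fresh 5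
  .big (.dec 6 7 (.emb 1 [4,6,7]) (.dec 6 8 (.emb 5 [4,1,0,7,2,6,5,8,3]) (.fresh 6 .big (.dec 7 8
  (.emb 1 [5,8,7]) (.fresh 7 .big (.fresh 8 .big (.low 8)))))))) (.dec 6 7 (.emb 1 [4,6,7])
  (.fresh 6 (.fresh 6 .big (.dec 7 8 (.emb 2 [4,6,8,7]) (.fresh 7 .big (.fresh 8 .big (.low 8)))))
  (.fresh 7 (.fresh 7 .big (.fresh 8 .big (.low 8))) .cap)))) (.fresh 5 (.fresh 5 .big (.dec 6 7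
  (.emb 1 [4,6,7]) (.dec 6 8 (.fresh 6 .big (.dec 7 8 (.emb 2 [4,6,8,7]) (.fresh 7 .big (.low
  7)))) (.fresh 6 .big (.dec 7 8 (.fresh 7 .big .cap) (.fresh 7 .big (.low 7))))))) (.low 5)))))
  (.dec 5 6 (.emb 3 [0,1,2,3,5,4,6]) (.fresh 5 (.fresh 5 (.fresh 5 .big (.dec 6 7 (.dec 6 8 (.emb
  0 [6,8,3,4,7]) (.fresh 6 .big (.dec 7 8 (.emb 1 [5,8,7]) (.fresh 7 .big (.fresh 8 .big (.low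
  8)))))) (.dec 6 8 (.fresh 6 .big (.dec 7 8 (.emb 1 [5,8,7]) (.fresh 7 .big (.low 7)))) (.fresh 6
  .big (.dec 7 8 (.emb 1 [5,8,7]) (.fresh 7 .big (.low 7))))))) (.dec 6 7 (.fresh 6 (.emb 0
  [6,8,3,4,7]) (.fresh 7 (.fresh 7 .big (.fresh 8 .big (.low 8))) .cap)) (.fresh 6 (.fresh 6 .big
  (.dec 7 8 (.fresh 7 .big .cap) (.fresh 7 .big (.low 7)))) .cap))) (.low 5)))) (.fresh 4 c9_6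
  (.low 4))))

def cert9 : Ct :=
  (.fresh 0 (.fresh 0 (.fresh 0 (.fresh 0 (.emb 0 [0,1,2,3,4]) (.dec 1 2 (.emb 1 [0,1,2]) (.dec 1
  3 (.emb 1 [0,1,3]) (.fresh 1 (.fresh 1 (.fresh 1 (.emb 0 [1,0,4,5,6]) (.dec 2 3 (.emb 1 [0,2,3])
  (.dec 2 4 (.emb 2 [0,1,4,2]) (.dec 2 5 (.emb 2 [0,1,5,2]) (.fresh 2 c9_1 (.low 2)))))) (.dec 2 3
  (.emb 1 [0,2,3]) (.dec 2 4 (.emb 2 [0,1,4,2]) (.fresh 2 (.fresh 2 (.fresh 2 (.emb 0 [2,0,5,6,7])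
  (.dec 3 4 (.emb 2 [0,1,4,3]) (.dec 3 5 (.emb 2 [0,2,5,3]) (.dec 3 6 (.emb 2 [0,2,6,3]) (.fresh 3
  c9_3 (.low 3)))))) (.dec 3 4 (.emb 2 [0,1,4,3]) (.dec 3 5 (.emb 2 [0,2,5,3]) (.fresh 3 (.fresh 3
  (.fresh 3 (.emb 0 [3,0,8,6,7]) c9_5) c9_7) (.low 3))))) (.low 2))))) (.low 1))))) (.low 0))
  (.low 0)) (.low 0))

theorem cert9_ok : check gB 9 3 cfgs cert9 1 [] [] [] = true := by decide +kernel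

def c10_0 : Ct :=
  (.dec 4 6 (.dec 4 7 (.emb 2 [2,6,4,7]) (.dec 4 8 (.emb 3 [0,2,3,1,8,6,4]) (.dec 4 9 (.emb 3
  [0,2,3,1,9,6,4]) (.fresh 4 .big (.dec 5 6 (.emb 2 [1,4,6,5]) (.dec 5 7 (.emb 3 [1,4,5,0,7,6,2])
  (.dec 5 8 (.dec 5 9 (.emb 2 [3,8,5,9]) (.fresh 5 .big (.dec 6 7 (.emb 1 [2,6,7]) (.dec 6 8 (.emb
  3 [0,1,2,3,6,5,8]) (.dec 6 9 (.emb 3 [0,1,3,2,9,4,6]) (.fresh 6 .big (.dec 7 8 (.emb 3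
  [0,1,2,3,7,5,8]) (.dec 7 9 (.emb 10 [1,0,3,2,9,4,7,6,5,8]) (.fresh 7 .big (.low 7))))))))))
  (.dec 5 9 (.fresh 5 .big (.dec 6 7 (.emb 1 [2,6,7]) (.dec 6 8 (.emb 3 [0,1,3,2,8,4,6]) (.dec 6 9
  (.emb 3 [0,1,2,3,6,5,9]) (.fresh 6 .big (.dec 7 8 (.emb 10 [1,0,3,2,8,4,7,6,5,9]) (.dec 7 9
  (.emb 3 [0,1,2,3,7,5,9]) (.fresh 7 .big (.low 7))))))))) (.fresh 5 .big (.low 5)))))))))) (.dec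
  4 7 (.dec 4 8 (.emb 3 [0,2,3,1,8,7,4]) (.dec 4 9 (.emb 3 [0,2,3,1,9,7,4]) (.fresh 4 .big (.dec 5
  6 (.emb 3 [1,4,5,0,6,7,2]) (.dec 5 7 (.emb 2 [1,4,7,5]) (.dec 5 8 (.dec 5 9 (.emb 2 [3,8,5,9])
  (.fresh 5 .big (.dec 6 7 (.emb 1 [2,6,7]) (.dec 6 8 (.emb 3 [0,1,2,3,6,5,8]) (.dec 6 9 (.emb 10
  [1,0,3,2,9,4,6,7,5,8]) (.fresh 6 .big (.low 6))))))) (.dec 5 9 (.fresh 5 .big (.dec 6 7 (.emb 1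
  [2,6,7]) (.dec 6 8 (.emb 10 [1,0,3,2,8,4,6,7,5,9]) (.dec 6 9 (.emb 3 [0,1,2,3,6,5,9]) (.fresh 6
  .big (.low 6)))))) (.fresh 5 .big (.low 5))))))))) (.dec 4 8 (.dec 4 9 (.emb 2 [3,8,4,9])
  (.fresh 4 .big (.dec 5 6 (.dec 5 7 (.emb 2 [2,6,5,7]) (.dec 5 8 (.emb 2 [1,4,8,5]) (.dec 5 9
  (.emb 3 [0,2,3,1,9,6,5]) (.fresh 5 .big (.dec 6 7 (.emb 1 [2,6,7]) (.dec 6 8 (.emb 3
  [0,1,2,3,6,4,8]) (.dec 6 9 (.emb 3 [0,1,3,2,9,5,6]) (.fresh 6 .big (.dec 7 8 (.emb 3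
  [0,1,2,3,7,4,8]) (.dec 7 9 (.emb 10 [1,0,2,3,7,4,9,8,5,6]) (.fresh 7 .big (.low 7))))))))))))
  (.dec 5 7 (.dec 5 8 (.emb 2 [1,4,8,5]) (.dec 5 9 (.emb 3 [0,2,3,1,9,7,5]) (.fresh 5 .big (.dec 6
  7 (.emb 1 [2,6,7]) (.dec 6 8 (.emb 3 [0,1,2,3,6,4,8]) (.dec 6 9 (.emb 10 [1,0,2,3,6,4,9,8,5,7])
  (.fresh 6 .big (.low 6)))))))) (.dec 5 8 (.emb 2 [1,4,8,5]) (.dec 5 9 (.emb 3 [1,4,5,0,9,8,3])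
  (.fresh 5 .big (.low 5)))))))) (.dec 4 9 (.fresh 4 .big (.dec 5 6 (.dec 5 7 (.emb 2 [2,6,5,7])
  (.dec 5 8 (.emb 3 [0,2,3,1,8,6,5]) (.dec 5 9 (.emb 2 [1,4,9,5]) (.fresh 5 .big (.dec 6 7 (.emb 1
  [2,6,7]) (.dec 6 8 (.emb 3 [0,1,3,2,8,5,6]) (.dec 6 9 (.emb 3 [0,1,2,3,6,4,9]) (.fresh 6 .big
  (.dec 7 8 (.emb 10 [1,0,2,3,7,4,8,9,5,6]) (.dec 7 9 (.emb 3 [0,1,2,3,7,4,9]) (.fresh 7 .big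
  (.low 7)))))))))))) (.dec 5 7 (.dec 5 8 (.emb 3 [0,2,3,1,8,7,5]) (.dec 5 9 (.emb 2 [1,4,9,5])
  (.fresh 5 .big (.dec 6 7 (.emb 1 [2,6,7]) (.dec 6 8 (.emb 10 [1,0,2,3,6,4,8,9,5,7]) (.dec 6 9
  (.emb 3 [0,1,2,3,6,4,9]) (.fresh 6 .big (.low 6)))))))) (.dec 5 8 (.emb 3 [1,4,5,0,8,9,3]) (.dec
  5 9 (.emb 2 [1,4,9,5]) (.fresh 5 .big (.low 5))))))) (.fresh 4 .big (.low 4))))))

def c10_1 : Ct :=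
  (.fresh 4 (.fresh 4 .big (.dec 5 6 (.dec 5 7 (.emb 2 [2,6,5,7]) (.dec 5 8 (.emb 2 [1,4,8,5])
  (.dec 5 9 (.emb 2 [1,4,9,5]) (.fresh 5 .big (.dec 6 7 (.emb 1 [2,6,7]) (.dec 6 8 (.emb 3
  [0,1,2,3,6,4,8]) (.dec 6 9 (.emb 3 [1,0,4,5,9,2,6]) (.fresh 6 .big (.dec 7 8 (.emb 3
  [0,1,2,3,7,4,8]) (.dec 7 9 (.emb 8 [2,0,3,1,5,4,9,8,7,6]) (.fresh 7 .big (.low 7))))))))))))
  (.dec 5 7 (.dec 5 8 (.emb 2 [1,4,8,5]) (.dec 5 9 (.emb 2 [1,4,9,5]) (.fresh 5 .big (.dec 6 7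
  (.emb 1 [2,6,7]) (.dec 6 8 (.emb 3 [0,1,2,3,6,4,8]) (.dec 6 9 (.emb 8 [2,0,3,1,5,4,9,8,6,7])
  (.fresh 6 .big (.low 6)))))))) (.dec 5 8 (.emb 2 [1,4,8,5]) (.dec 5 9 (.emb 2 [1,4,9,5]) (.fresh
  5 .big (.low 5))))))) (.dec 5 6 (.dec 5 7 (.emb 2 [2,6,5,7]) (.dec 5 8 (.emb 2 [1,4,8,5])
  (.fresh 5 (.fresh 5 .big (.dec 6 7 (.emb 1 [2,6,7]) (.dec 6 8 (.emb 3 [0,1,2,3,6,4,8]) (.dec 6 9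
  (.emb 1 [5,6,9]) (.fresh 6 .big (.dec 7 8 (.emb 3 [0,1,2,3,7,4,8]) (.dec 7 9 (.emb 3
  [2,0,7,6,9,1,5]) (.fresh 7 .big (.low 7))))))))) (.dec 6 7 (.emb 1 [2,6,7]) (.dec 6 8 (.emb 3
  [0,1,2,3,6,4,8]) (.fresh 6 (.fresh 6 .big (.dec 7 8 (.emb 3 [0,1,2,3,7,4,8]) (.dec 7 9 (.emb 2
  [2,6,9,7]) (.fresh 7 .big (.low 7))))) (.dec 7 8 (.emb 3 [0,1,2,3,7,4,8]) (.fresh 7 (.fresh 7
  .big (.dec 8 9 (.emb 6 [1,0,5,4,3,2,6,8,7,9]) (.fresh 8 .big (.fresh 9 .big (.low 9))))) (.low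
  7))))))))) (.dec 5 7 (.dec 5 8 (.emb 2 [1,4,8,5]) (.fresh 5 (.fresh 5 .big (.dec 6 7 (.emb 1
  [2,6,7]) (.dec 6 8 (.emb 3 [0,1,2,3,6,4,8]) (.dec 6 9 (.emb 3 [2,0,6,7,9,1,5]) (.fresh 6 .big
  (.low 6)))))) (.dec 6 7 (.emb 1 [2,6,7]) (.dec 6 8 (.emb 3 [0,1,2,3,6,4,8]) (.fresh 6 (.fresh 6
  .big (.dec 7 8 (.emb 3 [0,1,2,3,7,4,8]) (.dec 7 9 (.emb 2 [2,6,9,7]) (.fresh 7 .big (.dec 8 9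
  (.emb 6 [1,0,5,4,3,2,7,8,6,9]) (.fresh 8 .big (.fresh 9 .big (.low 9)))))))) (.low 6)))))) (.dec
  5 8 (.emb 2 [1,4,8,5]) (.fresh 5 (.fresh 5 .big (.dec 6 7 (.emb 1 [2,6,7]) (.dec 6 8 (.emb 3
  [0,1,2,3,6,4,8]) (.dec 6 9 (.fresh 6 .big (.dec 7 8 (.emb 3 [0,1,2,3,7,4,8]) (.dec 7 9 (.emb 2
  [2,6,9,7]) (.fresh 7 .big (.low 7))))) (.fresh 6 .big (.low 6)))))) (.low 5))))))

def c10_2 : Ct :=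
  (.dec 4 7 (.dec 4 8 (.emb 3 [0,2,3,1,8,7,4]) (.fresh 4 (.fresh 4 .big (.dec 5 6 (.emb 3
  [1,4,5,0,6,7,2]) (.dec 5 7 (.emb 2 [1,4,7,5]) (.dec 5 8 (.dec 5 9 (.emb 2 [1,4,9,5]) (.fresh 5
  .big (.dec 6 7 (.emb 1 [2,6,7]) (.dec 6 8 (.emb 3 [0,1,2,3,6,5,8]) (.dec 6 9 (.emb 3
  [2,0,6,7,9,1,4]) (.fresh 6 .big (.low 6))))))) (.dec 5 9 (.emb 2 [1,4,9,5]) (.fresh 5 .big (.low
  5))))))) (.dec 5 6 (.emb 3 [1,4,5,0,6,7,2]) (.dec 5 7 (.emb 2 [1,4,7,5]) (.dec 5 8 (.fresh 5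
  (.fresh 5 .big (.dec 6 7 (.emb 1 [2,6,7]) (.dec 6 8 (.emb 3 [0,1,2,3,6,5,8]) (.dec 6 9 (.emb 8
  [2,0,3,1,4,5,9,8,6,7]) (.fresh 6 .big (.low 6)))))) (.dec 6 7 (.emb 1 [2,6,7]) (.dec 6 8 (.emb 3
  [0,1,2,3,6,5,8]) (.fresh 6 (.fresh 6 .big (.dec 7 8 (.emb 3 [0,1,2,3,7,5,8]) (.dec 7 9 (.emb 2
  [2,6,9,7]) (.fresh 7 .big (.dec 8 9 (.emb 6 [1,0,4,5,3,2,7,8,6,9]) (.fresh 8 .big (.fresh 9 .big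
  (.low 9)))))))) (.low 6))))) (.fresh 5 (.fresh 5 .big (.dec 6 7 (.emb 1 [2,6,7]) (.dec 6 8 (.dec
  6 9 (.emb 8 [1,0,3,2,7,6,9,8,5,4]) (.fresh 6 .big (.dec 7 8 (.emb 2 [2,6,8,7]) (.dec 7 9 (.emb 3
  [1,0,5,4,9,2,7]) (.fresh 7 .big (.dec 8 9 (.emb 6 [2,0,7,6,3,1,4,8,5,9]) (.fresh 8 .big (.fresh
  9 .big (.low 9))))))))) (.dec 6 9 (.fresh 6 .big (.dec 7 8 (.emb 3 [0,1,3,2,8,4,7]) (.dec 7 9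
  (.emb 2 [2,6,9,7]) (.fresh 7 .big (.dec 8 9 (.emb 4 [1,0,2,3,6,9,8,5]) (.fresh 8 .big (.low
  8))))))) (.fresh 6 .big (.low 6)))))) (.low 5))))))) (.dec 4 8 c10_1 (.fresh 4 (.fresh 4 .big
  (.dec 5 6 (.dec 5 7 (.emb 2 [2,6,5,7]) (.dec 5 8 (.emb 3 [0,2,3,1,8,6,5]) (.dec 5 9 (.emb 2
  [1,4,9,5]) (.fresh 5 .big (.dec 6 7 (.emb 1 [2,6,7]) (.dec 6 8 (.emb 3 [0,1,3,2,8,5,6]) (.dec 6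
  9 (.emb 3 [1,0,4,5,9,2,6]) (.fresh 6 .big (.dec 7 8 (.dec 7 9 (.emb 8 [1,0,3,2,6,7,9,8,4,5])
  (.fresh 7 .big (.dec 8 9 (.emb 6 [2,0,6,7,3,1,5,8,4,9]) (.fresh 8 .big (.fresh 9 .big (.low
  9)))))) (.dec 7 9 (.fresh 7 .big (.dec 8 9 (.emb 4 [1,0,2,3,7,9,8,4]) (.fresh 8 .big (.low 8))))
  (.fresh 7 .big (.low 7)))))))))))) (.dec 5 7 (.dec 5 8 (.emb 3 [0,2,3,1,8,7,5]) (.dec 5 9 (.emb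
  2 [1,4,9,5]) (.fresh 5 .big (.dec 6 7 (.emb 1 [2,6,7]) (.dec 6 8 (.dec 6 9 (.emb 8
  [1,0,3,2,7,6,9,8,4,5]) (.fresh 6 .big (.dec 7 8 (.emb 2 [2,6,8,7]) (.dec 7 9 (.emb 3
  [1,0,4,5,9,2,7]) (.fresh 7 .big (.dec 8 9 (.emb 6 [2,0,7,6,3,1,5,8,4,9]) (.fresh 8 .big (.fresh
  9 .big (.low 9))))))))) (.dec 6 9 (.fresh 6 .big (.dec 7 8 (.emb 3 [0,1,3,2,8,5,7]) (.dec 7 9
  (.emb 2 [2,6,9,7]) (.fresh 7 .big (.dec 8 9 (.emb 4 [1,0,2,3,6,9,8,4]) (.fresh 8 .big (.low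
  8))))))) (.fresh 6 .big (.low 6)))))))) (.dec 5 8 (.dec 5 9 (.emb 2 [1,4,9,5]) (.fresh 5 .big
  (.dec 6 7 (.emb 1 [2,6,7]) (.dec 6 8 (.emb 3 [0,1,2,3,6,5,8]) (.dec 6 9 (.fresh 6 .big (.dec 7 8
  (.emb 3 [0,1,2,3,7,5,8]) (.dec 7 9 (.emb 2 [2,6,9,7]) (.fresh 7 .big (.low 7))))) (.fresh 6 .big
  (.low 6))))))) (.dec 5 9 (.emb 2 [1,4,9,5]) (.fresh 5 .big (.low 5))))))) (.low 4))))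

def c10_3 : Ct :=
  (.fresh 4 (.fresh 4 .big (.dec 5 6 (.emb 2 [1,4,6,5]) (.dec 5 7 (.dec 5 8 (.emb 2 [3,8,5,7])
  (.dec 5 9 (.emb 2 [1,4,9,5]) (.fresh 5 .big (.dec 6 7 (.emb 3 [0,1,2,3,6,5,7]) (.dec 6 8 (.emb 3
  [0,1,3,2,8,4,6]) (.dec 6 9 (.emb 1 [4,6,9]) (.fresh 6 .big (.dec 7 8 (.emb 1 [3,8,7]) (.dec 7 9
  (.emb 3 [1,0,4,5,9,3,7]) (.fresh 7 .big (.dec 8 9 (.emb 8 [3,0,2,1,5,4,9,6,8,7]) (.fresh 8 .big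
  (.low 8))))))))))))) (.dec 5 8 (.dec 5 9 (.emb 2 [1,4,9,5]) (.fresh 5 .big (.dec 6 7 (.emb 3
  [0,1,3,2,7,4,6]) (.dec 6 8 (.emb 3 [0,1,2,3,6,5,8]) (.dec 6 9 (.emb 1 [4,6,9]) (.fresh 6 .big
  (.dec 7 8 (.emb 1 [3,8,7]) (.dec 7 9 (.emb 8 [3,0,2,1,5,4,9,6,7,8]) (.fresh 7 .big (.low
  7)))))))))) (.dec 5 9 (.emb 2 [1,4,9,5]) (.fresh 5 .big (.low 5))))))) (.dec 5 6 (.emb 2
  [1,4,6,5]) (.dec 5 7 (.dec 5 8 (.emb 2 [3,8,5,7]) (.fresh 5 (.fresh 5 .big (.dec 6 7 (.emb 3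
  [0,1,2,3,6,5,7]) (.dec 6 8 (.emb 3 [0,1,3,2,8,4,6]) (.dec 6 9 (.emb 3 [1,0,5,4,9,2,6]) (.fresh 6
  .big (.dec 7 8 (.emb 1 [3,8,7]) (.dec 7 9 (.emb 1 [5,9,7]) (.fresh 7 .big (.dec 8 9 (.emb 3
  [3,0,8,7,9,1,5]) (.fresh 8 .big (.low 8))))))))))) (.dec 6 7 (.emb 3 [0,1,2,3,6,5,7]) (.dec 6 8
  (.emb 3 [0,1,3,2,8,4,6]) (.fresh 6 (.fresh 6 .big (.dec 7 8 (.emb 1 [3,8,7]) (.dec 7 9 (.emb 5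
  [0,2,6,3,9,1,7,5,4]) (.fresh 7 .big (.dec 8 9 (.emb 6 [1,0,5,4,2,3,7,6,8,9]) (.fresh 8 .big
  (.low 8))))))) (.dec 7 8 (.emb 1 [3,8,7]) (.fresh 7 (.fresh 7 .big (.dec 8 9 (.emb 2 [3,8,9,7])
  (.fresh 8 .big (.low 8)))) (.fresh 8 (.fresh 8 .big (.fresh 9 .big (.low 9))) (.low 8)))))))))
  (.dec 5 8 (.fresh 5 (.fresh 5 .big (.dec 6 7 (.emb 3 [0,1,3,2,7,4,6]) (.dec 6 8 (.emb 3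
  [0,1,2,3,6,5,8]) (.dec 6 9 (.emb 3 [1,0,5,4,9,2,6]) (.fresh 6 .big (.dec 7 8 (.emb 1 [3,8,7])
  (.dec 7 9 (.emb 3 [3,0,7,8,9,1,5]) (.fresh 7 .big (.low 7))))))))) (.dec 6 7 (.emb 3
  [0,1,3,2,7,4,6]) (.dec 6 8 (.emb 3 [0,1,2,3,6,5,8]) (.fresh 6 (.fresh 6 .big (.dec 7 8 (.emb 1
  [3,8,7]) (.dec 7 9 (.emb 6 [1,0,5,4,2,3,8,6,7,9]) (.fresh 7 .big (.low 7))))) (.dec 7 8 (.emb 1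
  [3,8,7]) (.fresh 7 (.fresh 7 .big (.dec 8 9 (.emb 2 [3,8,9,7]) (.fresh 8 .big (.fresh 9 .big
  (.low 9))))) (.low 7))))))) (.fresh 5 (.fresh 5 .big (.dec 6 7 (.emb 3 [0,1,3,2,7,4,6]) (.dec 6
  8 (.emb 3 [0,1,3,2,8,4,6]) (.dec 6 9 (.emb 3 [1,0,5,4,9,2,6]) (.fresh 6 .big (.dec 7 8 (.emb 1
  [3,8,7]) (.dec 7 9 (.fresh 7 .big (.dec 8 9 (.emb 2 [3,8,9,7]) (.fresh 8 .big (.low 8))))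
  (.fresh 7 .big (.low 7))))))))) (.low 5))))))

def c10_4 : Ct :=
  (.dec 4 8 (.fresh 4 (.fresh 4 .big (.dec 5 6 (.dec 5 7 (.emb 3 [0,2,3,1,7,6,5]) (.dec 5 8 (.emb
  2 [1,4,8,5]) (.dec 5 9 (.emb 2 [1,4,9,5]) (.fresh 5 .big (.dec 6 7 (.emb 3 [0,1,3,2,7,5,6])
  (.dec 6 8 (.emb 3 [0,1,2,3,6,4,8]) (.dec 6 9 (.emb 3 [1,0,4,5,9,2,6]) (.fresh 6 .big (.dec 7 8
  (.emb 1 [3,8,7]) (.dec 7 9 (.emb 3 [3,0,7,8,9,1,4]) (.fresh 7 .big (.low 7)))))))))))) (.dec 5 7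
  (.emb 3 [1,4,5,0,7,8,3]) (.dec 5 8 (.emb 2 [1,4,8,5]) (.dec 5 9 (.emb 2 [1,4,9,5]) (.fresh 5
  .big (.low 5))))))) (.dec 5 6 (.dec 5 7 (.emb 3 [0,2,3,1,7,6,5]) (.dec 5 8 (.emb 2 [1,4,8,5])
  (.fresh 5 (.fresh 5 .big (.dec 6 7 (.emb 3 [0,1,3,2,7,5,6]) (.dec 6 8 (.emb 3 [0,1,2,3,6,4,8])
  (.dec 6 9 (.emb 1 [5,6,9]) (.fresh 6 .big (.dec 7 8 (.emb 1 [3,8,7]) (.dec 7 9 (.emb 8
  [3,0,2,1,4,5,9,6,7,8]) (.fresh 7 .big (.low 7))))))))) (.dec 6 7 (.emb 3 [0,1,3,2,7,5,6]) (.dec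
  6 8 (.emb 3 [0,1,2,3,6,4,8]) (.fresh 6 (.fresh 6 .big (.dec 7 8 (.emb 1 [3,8,7]) (.dec 7 9 (.emb
  6 [1,0,4,5,2,3,8,6,7,9]) (.fresh 7 .big (.low 7))))) (.dec 7 8 (.emb 1 [3,8,7]) (.fresh 7
  (.fresh 7 .big (.dec 8 9 (.emb 2 [3,8,9,7]) (.fresh 8 .big (.fresh 9 .big (.low 9))))) (.low
  7))))))))) (.dec 5 7 (.emb 3 [1,4,5,0,7,8,3]) (.dec 5 8 (.emb 2 [1,4,8,5]) (.fresh 5 (.fresh 5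
  .big (.dec 6 7 (.dec 6 8 (.emb 2 [3,8,6,7]) (.dec 6 9 (.emb 6 [3,0,8,7,2,1,4,6,5,9]) (.fresh 6
  .big (.dec 7 8 (.emb 1 [3,8,7]) (.dec 7 9 (.emb 8 [1,0,2,3,8,7,9,6,5,4]) (.fresh 7 .big (.dec 8
  9 (.emb 3 [1,0,5,4,9,3,8]) (.fresh 8 .big (.fresh 9 .big (.low 9)))))))))) (.dec 6 8 (.emb 3
  [0,1,2,3,6,4,8]) (.dec 6 9 (.fresh 6 .big (.dec 7 8 (.emb 1 [3,8,7]) (.dec 7 9 (.emb 4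
  [1,0,2,3,6,9,7,5]) (.fresh 7 .big (.low 7))))) (.fresh 6 .big (.low 6)))))) (.low 5))))))
  (.fresh 4 (.fresh 4 .big (.dec 5 6 (.dec 5 7 (.emb 3 [0,2,3,1,7,6,5]) (.dec 5 8 (.emb 3
  [0,2,3,1,8,6,5]) (.dec 5 9 (.emb 2 [1,4,9,5]) (.fresh 5 .big (.dec 6 7 (.emb 3 [0,1,3,2,7,5,6])
  (.dec 6 8 (.emb 3 [0,1,3,2,8,5,6]) (.dec 6 9 (.emb 3 [1,0,4,5,9,2,6]) (.fresh 6 .big (.dec 7 8
  (.emb 1 [3,8,7]) (.dec 7 9 (.fresh 7 .big (.dec 8 9 (.emb 2 [3,8,9,7]) (.fresh 8 .big (.low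
  8)))) (.fresh 7 .big (.low 7)))))))))))) (.dec 5 7 (.dec 5 8 (.emb 2 [3,8,5,7]) (.dec 5 9 (.emb
  2 [1,4,9,5]) (.fresh 5 .big (.dec 6 7 (.emb 3 [0,1,2,3,6,5,7]) (.dec 6 8 (.dec 6 9 (.emb 6
  [3,0,7,8,2,1,5,6,4,9]) (.fresh 6 .big (.dec 7 8 (.emb 1 [3,8,7]) (.dec 7 9 (.emb 3
  [1,0,4,5,9,3,7]) (.fresh 7 .big (.dec 8 9 (.emb 8 [1,0,2,3,7,8,9,6,4,5]) (.fresh 8 .big (.fresh
  9 .big (.low 9))))))))) (.dec 6 9 (.fresh 6 .big (.dec 7 8 (.emb 1 [3,8,7]) (.dec 7 9 (.emb 3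
  [1,0,4,5,9,3,7]) (.fresh 7 .big (.dec 8 9 (.emb 4 [1,0,2,3,6,9,8,4]) (.fresh 8 .big (.low
  8))))))) (.fresh 6 .big (.low 6)))))))) (.dec 5 8 (.dec 5 9 (.emb 2 [1,4,9,5]) (.fresh 5 .big
  (.dec 6 7 (.dec 6 8 (.emb 2 [3,8,6,7]) (.dec 6 9 (.emb 6 [3,0,8,7,2,1,5,6,4,9]) (.fresh 6 .big
  (.dec 7 8 (.emb 1 [3,8,7]) (.dec 7 9 (.emb 8 [1,0,2,3,8,7,9,6,4,5]) (.fresh 7 .big (.dec 8 9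
  (.emb 3 [1,0,4,5,9,3,8]) (.fresh 8 .big (.fresh 9 .big (.low 9)))))))))) (.dec 6 8 (.emb 3
  [0,1,2,3,6,5,8]) (.dec 6 9 (.fresh 6 .big (.dec 7 8 (.emb 1 [3,8,7]) (.dec 7 9 (.emb 4
  [1,0,2,3,6,9,7,4]) (.fresh 7 .big (.low 7))))) (.fresh 6 .big (.low 6))))))) (.dec 5 9 (.emb 2
  [1,4,9,5]) (.fresh 5 .big (.low 5))))))) (.low 4)))

def c10_5 : Ct :=
  (.dec 4 7 (.dec 4 8 (.emb 2 [3,8,4,7]) (.fresh 4 (.fresh 4 .big (.dec 5 6 (.dec 5 7 (.emb 2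
  [1,4,7,5]) (.dec 5 8 (.emb 3 [0,2,3,1,8,6,5]) (.dec 5 9 (.emb 2 [1,4,9,5]) (.fresh 5 .big (.dec
  6 7 (.emb 3 [0,1,2,3,6,4,7]) (.dec 6 8 (.emb 3 [0,1,3,2,8,5,6]) (.dec 6 9 (.emb 3
  [1,0,4,5,9,2,6]) (.fresh 6 .big (.dec 7 8 (.emb 1 [3,8,7]) (.dec 7 9 (.emb 1 [4,9,7]) (.fresh 7
  .big (.dec 8 9 (.emb 3 [3,0,8,7,9,1,4]) (.fresh 8 .big (.low 8)))))))))))))) (.dec 5 7 (.emb 2
  [1,4,7,5]) (.dec 5 8 (.emb 3 [1,4,5,0,8,7,3]) (.dec 5 9 (.emb 2 [1,4,9,5]) (.fresh 5 .big (.low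
  5))))))) (.dec 5 6 (.dec 5 7 (.emb 2 [1,4,7,5]) (.dec 5 8 (.emb 3 [0,2,3,1,8,6,5]) (.fresh 5
  (.fresh 5 .big (.dec 6 7 (.emb 3 [0,1,2,3,6,4,7]) (.dec 6 8 (.emb 3 [0,1,3,2,8,5,6]) (.dec 6 9
  (.emb 1 [5,6,9]) (.fresh 6 .big (.dec 7 8 (.emb 1 [3,8,7]) (.dec 7 9 (.emb 3 [1,0,5,4,9,3,7])
  (.fresh 7 .big (.dec 8 9 (.emb 8 [3,0,2,1,4,5,9,6,8,7]) (.fresh 8 .big (.low 8))))))))))) (.dec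
  6 7 (.emb 3 [0,1,2,3,6,4,7]) (.dec 6 8 (.emb 3 [0,1,3,2,8,5,6]) (.fresh 6 (.fresh 6 .big (.dec 7
  8 (.emb 1 [3,8,7]) (.dec 7 9 (.emb 5 [0,2,6,3,9,1,7,4,5]) (.fresh 7 .big (.dec 8 9 (.emb 6
  [1,0,4,5,2,3,7,6,8,9]) (.fresh 8 .big (.low 8))))))) (.dec 7 8 (.emb 1 [3,8,7]) (.fresh 7
  (.fresh 7 .big (.dec 8 9 (.emb 2 [3,8,9,7]) (.fresh 8 .big (.low 8)))) (.fresh 8 (.fresh 8 .big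
  (.fresh 9 .big (.low 9))) (.low 8)))))))))) (.dec 5 7 (.emb 2 [1,4,7,5]) (.dec 5 8 (.emb 3
  [1,4,5,0,8,7,3]) (.fresh 5 (.fresh 5 .big (.dec 6 7 (.emb 3 [0,1,2,3,6,4,7]) (.dec 6 8 (.dec 6 9
  (.emb 6 [3,0,7,8,2,1,4,6,5,9]) (.fresh 6 .big (.dec 7 8 (.emb 1 [3,8,7]) (.dec 7 9 (.emb 3
  [1,0,5,4,9,3,7]) (.fresh 7 .big (.dec 8 9 (.emb 8 [1,0,2,3,7,8,9,6,5,4]) (.fresh 8 .big (.fresh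
  9 .big (.low 9))))))))) (.dec 6 9 (.fresh 6 .big (.dec 7 8 (.emb 1 [3,8,7]) (.dec 7 9 (.emb 3
  [1,0,5,4,9,3,7]) (.fresh 7 .big (.dec 8 9 (.emb 4 [1,0,2,3,6,9,8,5]) (.fresh 8 .big (.low
  8))))))) (.fresh 6 .big (.low 6)))))) (.low 5))))))) c10_4)

def c10_6 : Ct :=
  (.dec 5 7 (.fresh 5 (.fresh 5 (.emb 0 [5,8,1,9,7]) (.dec 6 7 (.emb 3 [0,1,2,3,6,5,7]) (.dec 6 8
  (.emb 3 [1,0,5,4,8,2,6]) (.fresh 6 (.fresh 6 .big (.dec 7 8 (.emb 1 [5,8,7]) (.dec 7 9 (.emb 5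
  [0,2,6,3,9,1,7,5,4]) (.fresh 7 .big (.dec 8 9 (.emb 6 [0,1,3,2,4,5,7,6,8,9]) (.fresh 8 .big
  (.low 8))))))) (.dec 7 8 (.emb 1 [5,8,7]) (.fresh 7 (.fresh 7 .big (.dec 8 9 (.emb 2 [5,8,9,7])
  (.fresh 8 .big (.low 8)))) (.fresh 8 (.fresh 8 .big (.fresh 9 .big (.low 9))) (.low 8))))))))
  (.dec 6 7 (.emb 3 [0,1,2,3,6,5,7]) (.fresh 6 (.fresh 6 (.emb 0 [6,8,9,2,4]) (.dec 7 8 (.emb 5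
  [0,2,6,3,8,1,7,5,4]) (.fresh 7 (.fresh 7 .big (.dec 8 9 (.emb 11 [0,2,6,4,3,1,8,9,5,7]) (.fresh
  8 .big (.low 8)))) (.fresh 8 (.fresh 8 .big (.fresh 9 .big (.low 9))) (.low 8))))) (.fresh 7
  (.fresh 7 (.emb 0 [7,8,9,3,5]) (.fresh 8 (.fresh 8 .big (.fresh 9 .big (.low 9))) (.low 8)))
  .comp)))) (.fresh 5 (.fresh 5 (.fresh 5 .big (.dec 6 7 (.emb 3 [0,1,3,2,7,4,6]) (.dec 6 8 (.emb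
  3 [1,0,5,4,8,2,6]) (.dec 6 9 (.emb 3 [1,0,5,4,9,2,6]) (.fresh 6 .big (.dec 7 8 (.dec 7 9 (.emb 2
  [5,8,7,9]) (.fresh 7 .big (.dec 8 9 (.emb 1 [5,8,9]) (.fresh 8 .big (.fresh 9 .big (.low 9))))))
  (.dec 7 9 (.fresh 7 .big (.dec 8 9 (.emb 1 [5,8,9]) (.fresh 8 .big (.low 8)))) (.fresh 7 .big
  (.low 7))))))))) (.dec 6 7 (.emb 3 [0,1,3,2,7,4,6]) (.dec 6 8 (.emb 3 [1,0,5,4,8,2,6]) (.fresh 6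
  (.fresh 6 .big (.dec 7 8 (.dec 7 9 (.emb 9 [7,8,9,6,4,1,5,2,3,0]) (.fresh 7 .big (.dec 8 9 (.emb
  9 [8,7,9,6,2,0,3,4,5,1]) (.fresh 8 .big (.fresh 9 .big (.low 9)))))) (.dec 7 9 (.fresh 7 .big
  (.dec 8 9 (.emb 7 [9,8,5,6,1,2,4,7,3,0]) (.fresh 8 .big (.low 8)))) (.fresh 7 .big (.low 7)))))
  (.dec 7 8 (.fresh 7 (.fresh 7 .big (.dec 8 9 (.emb 1 [7,8,9]) (.fresh 8 .big (.fresh 9 .big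
  (.low 9))))) (.fresh 8 (.fresh 8 .big (.fresh 9 .big (.low 9))) .cap)) (.fresh 7 (.fresh 7 .big
  (.dec 8 9 (.fresh 8 .big .cap) (.fresh 8 .big (.low 8)))) (.low 7))))))) (.low 5)))

def c10_7 : Ct :=
  (.dec 5 6 (.dec 5 7 (.emb 2 [1,4,7,5]) (.fresh 5 (.fresh 5 (.emb 0 [5,8,1,6,9]) (.dec 6 7 (.emb
  3 [0,1,2,3,6,4,7]) (.dec 6 8 (.emb 1 [5,8,6]) (.fresh 6 (.fresh 6 .big (.dec 7 8 (.emb 3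
  [1,0,5,4,8,3,7]) (.dec 7 9 (.emb 5 [0,2,6,3,9,1,7,4,5]) (.fresh 7 .big (.dec 8 9 (.emb 2
  [5,8,9,6]) (.fresh 8 .big (.low 8))))))) (.dec 7 8 (.emb 3 [1,0,5,4,8,3,7]) (.fresh 7 (.fresh 7
  .big (.dec 8 9 (.emb 6 [0,1,2,3,4,5,6,7,8,9]) (.fresh 8 .big (.low 8)))) (.fresh 8 (.fresh 8
  .big (.fresh 9 .big (.low 9))) (.low 8)))))))) (.dec 6 7 (.emb 3 [0,1,2,3,6,4,7]) (.fresh 6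
  (.fresh 6 (.emb 0 [6,8,9,2,5]) (.dec 7 8 (.emb 5 [0,2,6,3,8,1,7,4,5]) (.fresh 7 (.fresh 7 .big
  (.dec 8 9 (.emb 11 [0,2,6,5,3,1,8,9,4,7]) (.fresh 8 .big (.low 8)))) (.fresh 8 (.fresh 8 .big
  (.fresh 9 .big (.low 9))) (.low 8))))) (.fresh 7 (.fresh 7 (.emb 0 [7,8,9,3,4]) (.fresh 8
  (.fresh 8 .big (.fresh 9 .big (.low 9))) (.low 8))) .comp))))) (.dec 5 7 (.emb 2 [1,4,7,5])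
  (.fresh 5 (.fresh 5 (.fresh 5 .big (.dec 6 7 (.emb 3 [0,1,2,3,6,4,7]) (.dec 6 8 (.dec 6 9 (.emb
  2 [5,8,6,9]) (.fresh 6 .big (.dec 7 8 (.emb 3 [1,0,5,4,8,3,7]) (.dec 7 9 (.emb 3
  [1,0,5,4,9,3,7]) (.fresh 7 .big (.dec 8 9 (.emb 1 [5,8,9]) (.fresh 8 .big (.fresh 9 .big (.low
  9))))))))) (.dec 6 9 (.fresh 6 .big (.dec 7 8 (.emb 3 [1,0,5,4,8,3,7]) (.dec 7 9 (.emb 3
  [1,0,5,4,9,3,7]) (.fresh 7 .big (.dec 8 9 (.emb 1 [5,8,9]) (.fresh 8 .big (.low 8))))))) (.fresh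
  6 .big (.low 6)))))) (.dec 6 7 (.emb 3 [0,1,2,3,6,4,7]) (.dec 6 8 (.fresh 6 (.fresh 6 .big (.dec
  7 8 (.emb 3 [1,0,5,4,8,3,7]) (.dec 7 9 (.emb 9 [6,8,9,7,4,1,5,3,2,0]) (.fresh 7 .big (.dec 8 9
  (.emb 1 [6,8,9]) (.fresh 8 .big (.fresh 9 .big (.low 9)))))))) (.dec 7 8 (.emb 3
  [1,0,5,4,8,3,7]) (.fresh 7 (.fresh 7 .big (.dec 8 9 (.emb 9 [8,6,9,7,3,0,2,4,5,1]) (.fresh 8
  .big (.fresh 9 .big (.low 9))))) (.fresh 8 (.fresh 8 .big (.fresh 9 .big (.low 9))) .cap))))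
  (.fresh 6 (.fresh 6 .big (.dec 7 8 (.emb 3 [1,0,5,4,8,3,7]) (.dec 7 9 (.fresh 7 .big (.dec 8 9
  (.emb 7 [9,8,5,7,1,3,4,6,2,0]) (.fresh 8 .big (.low 8)))) (.fresh 7 .big (.dec 8 9 (.fresh 8
  .big .cap) (.fresh 8 .big (.low 8))))))) (.low 6))))) (.low 5))))

def c10_8 : Ct :=
  (.dec 5 7 (.dec 5 8 (.emb 2 [1,4,8,5]) (.fresh 5 (.fresh 5 .big (.dec 6 7 (.emb 3
  [0,1,2,3,6,5,7]) (.dec 6 8 (.dec 6 9 (.emb 4 [0,1,4,5,8,6,9,2]) (.fresh 6 .big (.dec 7 8 (.emb 3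
  [1,0,4,5,8,3,7]) (.dec 7 9 (.emb 1 [5,9,7]) (.fresh 7 .big (.dec 8 9 (.emb 6
  [5,1,7,9,4,0,3,8,2,6]) (.fresh 8 .big (.fresh 9 .big (.low 9))))))))) (.dec 6 9 (.fresh 6 .big
  (.dec 7 8 (.emb 3 [1,0,4,5,8,3,7]) (.dec 7 9 (.emb 1 [5,9,7]) (.fresh 7 .big (.dec 8 9 (.emb 8
  [0,1,4,5,7,9,6,8,2,3]) (.fresh 8 .big (.low 8))))))) (.fresh 6 .big (.low 6)))))) (.dec 6 7
  (.emb 3 [0,1,2,3,6,5,7]) (.dec 6 8 (.fresh 6 (.fresh 6 .big (.dec 7 8 (.emb 3 [1,0,4,5,8,3,7])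
  (.dec 7 9 (.emb 9 [6,8,9,7,5,1,4,3,2,0]) (.fresh 7 .big (.dec 8 9 (.emb 1 [6,8,9]) (.fresh 8
  .big (.fresh 9 .big (.low 9)))))))) (.dec 7 8 (.emb 3 [1,0,4,5,8,3,7]) (.fresh 7 (.fresh 7 .big
  (.dec 8 9 (.emb 9 [8,6,9,7,3,0,2,5,4,1]) (.fresh 8 .big (.fresh 9 .big (.low 9))))) (.fresh 8
  (.fresh 8 .big (.fresh 9 .big (.low 9))) .cap)))) (.fresh 6 (.fresh 6 .big (.dec 7 8 (.emb 3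
  [1,0,4,5,8,3,7]) (.dec 7 9 (.fresh 7 .big (.dec 8 9 (.emb 7 [9,8,4,7,1,3,5,6,2,0]) (.fresh 8
  .big (.low 8)))) (.fresh 7 .big (.dec 8 9 (.fresh 8 .big .cap) (.fresh 8 .big (.low 8)))))))
  (.low 6)))))) (.dec 5 8 (.emb 2 [1,4,8,5]) (.fresh 5 (.fresh 5 .big (.dec 6 7 (.dec 6 8 (.dec 6
  9 (.emb 0 [6,8,9,2,7]) (.fresh 6 .big (.dec 7 8 (.emb 1 [6,8,7]) (.dec 7 9 (.emb 7
  [1,4,8,0,6,3,2,5,9,7]) (.fresh 7 .big (.dec 8 9 (.emb 13 [0,6,1,8,2,3,7,4,5,9]) (.fresh 8 .big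
  (.fresh 9 .big (.low 9))))))))) (.dec 6 9 (.fresh 6 .big (.dec 7 8 (.emb 7
  [1,4,8,0,7,2,3,5,9,6]) (.dec 7 9 (.emb 1 [6,9,7]) (.fresh 7 .big (.dec 8 9 (.emb 13
  [0,6,1,9,2,3,7,5,4,8]) (.fresh 8 .big (.low 8))))))) (.fresh 6 .big (.dec 7 8 (.dec 7 9 (.emb 0
  [7,8,9,3,6]) (.fresh 7 .big (.dec 8 9 (.emb 13 [0,7,1,8,3,2,6,4,5,9]) (.fresh 8 .big (.fresh 9
  .big (.low 9)))))) (.dec 7 9 (.fresh 7 .big (.dec 8 9 (.emb 13 [0,7,1,9,3,2,6,5,4,8]) (.fresh 8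
  .big (.low 8)))) (.fresh 7 .big (.dec 8 9 (.fresh 8 .big .cap) (.fresh 8 .big (.low 8)))))))))
  (.dec 6 8 (.dec 6 9 (.emb 4 [0,1,4,5,8,6,9,2]) (.fresh 6 .big (.dec 7 8 (.emb 4
  [1,0,2,3,6,8,7,4]) (.dec 7 9 (.fresh 7 .big (.dec 8 9 (.emb 7 [0,2,6,1,8,5,4,3,7,9]) (.fresh 8
  .big .cap))) (.fresh 7 .big (.low 7)))))) (.dec 6 9 (.fresh 6 .big (.dec 7 8 (.dec 7 9 (.emb 4
  [0,1,4,5,8,7,9,3]) (.fresh 7 .big (.dec 8 9 (.emb 7 [0,2,6,1,9,4,5,3,7,8]) (.fresh 8 .big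
  .cap)))) (.dec 7 9 (.emb 4 [1,0,2,3,6,9,7,5]) (.fresh 7 .big (.low 7))))) (.fresh 6 .big (.low
  6)))))) (.low 5))))

def c10_9 : Ct :=
  (.fresh 4 (.fresh 4 .big (.dec 5 6 (.dec 5 7 (.emb 3 [0,2,3,1,7,6,5]) (.dec 5 8 (.emb 2
  [1,4,8,5]) (.dec 5 9 (.emb 2 [1,4,9,5]) (.fresh 5 .big (.dec 6 7 (.emb 3 [0,1,3,2,7,5,6]) (.dec
  6 8 (.emb 3 [1,0,4,5,8,2,6]) (.dec 6 9 (.emb 3 [1,0,4,5,9,2,6]) (.fresh 6 .big (.dec 7 8 (.dec 7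
  9 (.emb 2 [4,8,7,9]) (.fresh 7 .big (.dec 8 9 (.emb 1 [4,8,9]) (.fresh 8 .big (.fresh 9 .big
  (.low 9)))))) (.dec 7 9 (.fresh 7 .big (.dec 8 9 (.emb 1 [4,8,9]) (.fresh 8 .big (.low 8))))
  (.fresh 7 .big (.low 7)))))))))))) (.dec 5 7 (.dec 5 8 (.emb 2 [1,4,8,5]) (.dec 5 9 (.emb 2
  [1,4,9,5]) (.fresh 5 .big (.dec 6 7 (.emb 3 [0,1,2,3,6,5,7]) (.dec 6 8 (.dec 6 9 (.emb 2
  [4,8,6,9]) (.fresh 6 .big (.dec 7 8 (.emb 3 [1,0,4,5,8,3,7]) (.dec 7 9 (.emb 3 [1,0,4,5,9,3,7])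
  (.fresh 7 .big (.dec 8 9 (.emb 1 [4,8,9]) (.fresh 8 .big (.fresh 9 .big (.low 9))))))))) (.dec 6
  9 (.fresh 6 .big (.dec 7 8 (.emb 3 [1,0,4,5,8,3,7]) (.dec 7 9 (.emb 3 [1,0,4,5,9,3,7]) (.fresh 7
  .big (.dec 8 9 (.emb 1 [4,8,9]) (.fresh 8 .big (.low 8))))))) (.fresh 6 .big (.low 6))))))))
  (.dec 5 8 (.emb 2 [1,4,8,5]) (.dec 5 9 (.emb 2 [1,4,9,5]) (.fresh 5 .big (.low 5))))))) (.dec 5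
  6 (.dec 5 7 (.emb 3 [0,2,3,1,7,6,5]) (.dec 5 8 (.emb 2 [1,4,8,5]) (.fresh 5 (.fresh 5 .big (.dec
  6 7 (.emb 3 [0,1,3,2,7,5,6]) (.dec 6 8 (.emb 3 [1,0,4,5,8,2,6]) (.dec 6 9 (.emb 1 [5,6,9])
  (.fresh 6 .big (.dec 7 8 (.dec 7 9 (.emb 4 [0,1,4,5,8,7,9,3]) (.fresh 7 .big (.dec 8 9 (.emb 6
  [5,1,6,9,4,0,2,8,3,7]) (.fresh 8 .big (.fresh 9 .big (.low 9)))))) (.dec 7 9 (.fresh 7 .big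
  (.dec 8 9 (.emb 8 [0,1,4,5,6,9,7,8,3,2]) (.fresh 8 .big (.low 8)))) (.fresh 7 .big (.low
  7))))))))) (.dec 6 7 (.emb 3 [0,1,3,2,7,5,6]) (.dec 6 8 (.emb 3 [1,0,4,5,8,2,6]) (.fresh 6
  (.fresh 6 .big (.dec 7 8 (.dec 7 9 (.emb 9 [7,8,9,6,5,1,4,2,3,0]) (.fresh 7 .big (.dec 8 9 (.emb
  9 [8,7,9,6,2,0,3,5,4,1]) (.fresh 8 .big (.fresh 9 .big (.low 9)))))) (.dec 7 9 (.fresh 7 .big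
  (.dec 8 9 (.emb 7 [9,8,4,6,1,2,5,7,3,0]) (.fresh 8 .big (.low 8)))) (.fresh 7 .big (.low 7)))))
  (.dec 7 8 (.fresh 7 (.fresh 7 .big (.dec 8 9 (.emb 1 [7,8,9]) (.fresh 8 .big (.fresh 9 .big
  (.low 9))))) (.fresh 8 (.fresh 8 .big (.fresh 9 .big (.low 9))) .cap)) (.fresh 7 (.fresh 7 .big
  (.dec 8 9 (.fresh 8 .big .cap) (.fresh 8 .big (.low 8)))) (.low 7))))))))) c10_8))

def c10_10 : Ct :=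
  (.dec 4 6 (.dec 4 7 (.emb 3 [0,2,3,1,7,6,4]) (.fresh 4 (.fresh 4 (.emb 0 [4,8,1,6,9]) (.dec 5 6
  (.emb 2 [1,4,6,5]) (.dec 5 7 (.dec 5 8 (.emb 2 [1,4,8,5]) (.fresh 5 (.fresh 5 .big (.dec 6 7
  (.emb 3 [0,1,2,3,6,5,7]) (.dec 6 8 (.emb 1 [4,8,6]) (.dec 6 9 (.emb 3 [1,0,5,4,9,2,6]) (.fresh 6
  .big (.dec 7 8 (.emb 3 [1,0,4,5,8,3,7]) (.dec 7 9 (.emb 1 [5,9,7]) (.fresh 7 .big (.dec 8 9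
  (.emb 10 [0,1,5,4,9,2,8,6,3,7]) (.fresh 8 .big (.low 8))))))))))) (.dec 6 7 (.emb 3
  [0,1,2,3,6,5,7]) (.dec 6 8 (.emb 1 [4,8,6]) (.fresh 6 (.fresh 6 .big (.dec 7 8 (.emb 3
  [1,0,4,5,8,3,7]) (.dec 7 9 (.emb 5 [0,2,6,3,9,1,7,5,4]) (.fresh 7 .big (.dec 8 9 (.emb 2
  [4,8,9,6]) (.fresh 8 .big (.low 8))))))) (.dec 7 8 (.emb 3 [1,0,4,5,8,3,7]) (.fresh 7 (.fresh 7
  .big (.dec 8 9 (.emb 6 [0,1,2,3,5,4,6,7,8,9]) (.fresh 8 .big (.low 8)))) (.fresh 8 (.fresh 8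
  .big (.fresh 9 .big (.low 9))) (.low 8))))))))) (.dec 5 8 (.emb 2 [1,4,8,5]) (.fresh 5 (.fresh 5
  .big (.dec 6 7 (.emb 3 [0,1,3,2,7,4,6]) (.dec 6 8 (.emb 1 [4,8,6]) (.dec 6 9 (.emb 3
  [1,0,5,4,9,2,6]) (.fresh 6 .big (.dec 7 8 (.dec 7 9 (.emb 4 [0,1,4,5,8,7,9,3]) (.fresh 7 .big
  (.dec 8 9 (.emb 8 [0,1,5,4,6,8,7,9,3,2]) (.fresh 8 .big (.fresh 9 .big (.low 9)))))) (.dec 7 9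
  (.fresh 7 .big (.dec 8 9 (.emb 6 [4,1,6,8,5,0,2,9,3,7]) (.fresh 8 .big (.low 8)))) (.fresh 7
  .big (.low 7))))))))) (.low 5)))))) (.dec 5 6 (.emb 2 [1,4,6,5]) c10_6))) (.dec 4 7 (.fresh 4
  (.fresh 4 (.emb 0 [4,8,1,9,7]) (.dec 5 6 (.dec 5 7 (.emb 2 [1,4,7,5]) (.dec 5 8 (.emb 2
  [1,4,8,5]) (.fresh 5 (.fresh 5 .big (.dec 6 7 (.emb 3 [0,1,2,3,6,4,7]) (.dec 6 8 (.emb 3
  [1,0,4,5,8,2,6]) (.dec 6 9 (.emb 1 [5,6,9]) (.fresh 6 .big (.dec 7 8 (.emb 1 [4,8,7]) (.dec 7 9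
  (.emb 3 [1,0,5,4,9,3,7]) (.fresh 7 .big (.dec 8 9 (.emb 10 [0,1,4,5,8,2,9,6,3,7]) (.fresh 8 .big
  (.low 8))))))))))) (.dec 6 7 (.emb 3 [0,1,2,3,6,4,7]) (.dec 6 8 (.emb 3 [1,0,4,5,8,2,6]) (.fresh
  6 (.fresh 6 .big (.dec 7 8 (.emb 1 [4,8,7]) (.dec 7 9 (.emb 5 [0,2,6,3,9,1,7,4,5]) (.fresh 7
  .big (.dec 8 9 (.emb 6 [0,1,3,2,5,4,7,6,8,9]) (.fresh 8 .big (.low 8))))))) (.dec 7 8 (.emb 1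
  [4,8,7]) (.fresh 7 (.fresh 7 .big (.dec 8 9 (.emb 2 [4,8,9,7]) (.fresh 8 .big (.low 8))))
  (.fresh 8 (.fresh 8 .big (.fresh 9 .big (.low 9))) (.low 8)))))))))) (.dec 5 7 (.emb 2
  [1,4,7,5]) (.dec 5 8 (.emb 2 [1,4,8,5]) (.fresh 5 (.fresh 5 .big (.dec 6 7 (.emb 3
  [0,1,2,3,6,4,7]) (.dec 6 8 (.dec 6 9 (.emb 4 [0,1,4,5,8,6,9,2]) (.fresh 6 .big (.dec 7 8 (.emb 1
  [4,8,7]) (.dec 7 9 (.emb 3 [1,0,5,4,9,3,7]) (.fresh 7 .big (.dec 8 9 (.emb 8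
  [0,1,5,4,7,8,6,9,2,3]) (.fresh 8 .big (.fresh 9 .big (.low 9))))))))) (.dec 6 9 (.fresh 6 .big
  (.dec 7 8 (.emb 1 [4,8,7]) (.dec 7 9 (.emb 3 [1,0,5,4,9,3,7]) (.fresh 7 .big (.dec 8 9 (.emb 6
  [4,1,7,8,5,0,3,9,2,6]) (.fresh 8 .big (.low 8))))))) (.fresh 6 .big (.low 6)))))) (.low 5))))))
  c10_7) (.fresh 4 c10_9 (.low 4))))

def c10_11 : Ct :=
  (.fresh 2 (.fresh 2 (.emb 0 [2,0,8,6,7]) (.dec 3 4 (.emb 2 [0,1,4,3]) (.dec 3 5 (.emb 2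
  [0,1,5,3]) (.dec 3 6 (.emb 2 [0,2,6,3]) (.dec 3 7 (.emb 2 [0,2,7,3]) (.fresh 3 (.fresh 3 (.fresh
  3 .big (.dec 4 5 (.emb 1 [1,4,5]) c10_0)) (.dec 4 5 (.emb 1 [1,4,5]) (.dec 4 6 (.dec 4 7 (.emb 2
  [2,6,4,7]) (.dec 4 8 (.emb 3 [0,2,3,1,8,6,4]) (.fresh 4 (.fresh 4 .big (.dec 5 6 (.emb 2
  [1,4,6,5]) (.dec 5 7 (.emb 3 [1,4,5,0,7,6,2]) (.dec 5 8 (.dec 5 9 (.emb 2 [1,4,9,5]) (.fresh 5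
  .big (.dec 6 7 (.emb 1 [2,6,7]) (.dec 6 8 (.emb 3 [0,1,2,3,6,5,8]) (.dec 6 9 (.emb 1 [4,6,9])
  (.fresh 6 .big (.dec 7 8 (.emb 3 [0,1,2,3,7,5,8]) (.dec 7 9 (.emb 3 [2,0,7,6,9,1,4]) (.fresh 7
  .big (.low 7)))))))))) (.dec 5 9 (.emb 2 [1,4,9,5]) (.fresh 5 .big (.low 5))))))) (.dec 5 6
  (.emb 2 [1,4,6,5]) (.dec 5 7 (.emb 3 [1,4,5,0,7,6,2]) (.dec 5 8 (.fresh 5 (.fresh 5 .big (.dec 6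
  7 (.emb 1 [2,6,7]) (.dec 6 8 (.emb 3 [0,1,2,3,6,5,8]) (.dec 6 9 (.emb 3 [1,0,5,4,9,2,6]) (.fresh
  6 .big (.dec 7 8 (.emb 3 [0,1,2,3,7,5,8]) (.dec 7 9 (.emb 8 [2,0,3,1,4,5,9,8,7,6]) (.fresh 7
  .big (.low 7))))))))) (.dec 6 7 (.emb 1 [2,6,7]) (.dec 6 8 (.emb 3 [0,1,2,3,6,5,8]) (.fresh 6
  (.fresh 6 .big (.dec 7 8 (.emb 3 [0,1,2,3,7,5,8]) (.dec 7 9 (.emb 2 [2,6,9,7]) (.fresh 7 .big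
  (.low 7))))) (.dec 7 8 (.emb 3 [0,1,2,3,7,5,8]) (.fresh 7 (.fresh 7 .big (.dec 8 9 (.emb 6
  [1,0,4,5,3,2,6,8,7,9]) (.fresh 8 .big (.fresh 9 .big (.low 9))))) (.low 7))))))) (.fresh 5
  (.fresh 5 .big (.dec 6 7 (.emb 1 [2,6,7]) (.dec 6 8 (.emb 3 [0,1,3,2,8,4,6]) (.dec 6 9 (.emb 3
  [1,0,5,4,9,2,6]) (.fresh 6 .big (.dec 7 8 (.dec 7 9 (.emb 8 [1,0,3,2,6,7,9,8,5,4]) (.fresh 7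
  .big (.dec 8 9 (.emb 6 [2,0,6,7,3,1,4,8,5,9]) (.fresh 8 .big (.fresh 9 .big (.low 9)))))) (.dec
  7 9 (.fresh 7 .big (.dec 8 9 (.emb 4 [1,0,2,3,7,9,8,5]) (.fresh 8 .big (.low 8)))) (.fresh 7
  .big (.low 7))))))))) (.low 5)))))))) c10_2))) (.low 3))))))) (.dec 3 4 (.emb 2 [0,1,4,3]) (.dec
  3 5 (.emb 2 [0,1,5,3]) (.dec 3 6 (.emb 2 [0,2,6,3]) (.fresh 3 (.fresh 3 (.fresh 3 (.emb 0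
  [3,0,8,9,7]) (.dec 4 5 (.emb 1 [1,4,5]) (.dec 4 6 (.dec 4 7 (.emb 3 [0,2,3,1,7,6,4]) (.dec 4 8
  (.emb 3 [0,2,3,1,8,6,4]) c10_3)) c10_5))) (.dec 4 5 (.emb 1 [1,4,5]) c10_10)) (.low 3))))))

def c10_12 : Ct :=
  (.fresh 4 (.fresh 4 .big (.dec 5 6 (.emb 1 [2,5,6]) (.dec 5 7 (.emb 3 [0,1,3,2,7,4,5]) (.dec 5 8
  (.emb 3 [0,1,3,2,8,4,5]) (.dec 5 9 (.emb 1 [4,5,9]) (.fresh 5 .big (.dec 6 7 (.dec 6 8 (.emb 2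
  [3,8,6,7]) (.dec 6 9 (.emb 3 [2,0,6,5,9,1,4]) (.fresh 6 .big (.dec 7 8 (.emb 1 [3,8,7]) (.dec 7
  9 (.emb 5 [0,1,4,3,9,2,7,6,5]) (.fresh 7 .big (.dec 8 9 (.emb 6 [2,0,6,5,1,3,7,4,8,9]) (.fresh 8
  .big (.low 8))))))))) (.dec 6 8 (.dec 6 9 (.emb 3 [2,0,6,5,9,1,4]) (.fresh 6 .big (.dec 7 8
  (.emb 1 [3,8,7]) (.dec 7 9 (.emb 6 [2,0,6,5,1,3,8,4,7,9]) (.fresh 7 .big (.low 7)))))) (.dec 6 9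
  (.emb 3 [2,0,6,5,9,1,4]) (.fresh 6 .big (.low 6))))))))))) (.dec 5 6 (.emb 1 [2,5,6]) (.dec 5 7
  (.emb 3 [0,1,3,2,7,4,5]) (.dec 5 8 (.emb 3 [0,1,3,2,8,4,5]) (.fresh 5 (.fresh 5 .big (.dec 6 7
  (.dec 6 8 (.emb 2 [3,8,6,7]) (.dec 6 9 (.emb 2 [2,5,9,6]) (.fresh 6 .big (.dec 7 8 (.emb 1
  [3,8,7]) (.dec 7 9 (.emb 3 [2,0,5,6,9,3,7]) (.fresh 7 .big (.dec 8 9 (.emb 8
  [3,0,1,2,6,5,9,4,8,7]) (.fresh 8 .big (.low 8))))))))) (.dec 6 8 (.dec 6 9 (.emb 2 [2,5,9,6])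
  (.fresh 6 .big (.dec 7 8 (.emb 1 [3,8,7]) (.dec 7 9 (.emb 8 [3,0,1,2,6,5,9,4,7,8]) (.fresh 7
  .big (.low 7)))))) (.dec 6 9 (.emb 2 [2,5,9,6]) (.fresh 6 .big (.low 6)))))) (.dec 6 7 (.dec 6 8
  (.emb 2 [3,8,6,7]) (.fresh 6 (.fresh 6 .big (.dec 7 8 (.emb 1 [3,8,7]) (.dec 7 9 (.emb 1
  [6,9,7]) (.fresh 7 .big (.dec 8 9 (.emb 3 [3,0,8,7,9,2,6]) (.fresh 8 .big (.low 8))))))) (.dec 7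
  8 (.emb 1 [3,8,7]) (.fresh 7 (.fresh 7 .big (.dec 8 9 (.emb 2 [3,8,9,7]) (.fresh 8 .big (.low
  8)))) (.fresh 8 (.fresh 8 .big (.fresh 9 .big (.low 9))) (.low 8)))))) (.dec 6 8 (.fresh 6
  (.fresh 6 .big (.dec 7 8 (.emb 1 [3,8,7]) (.dec 7 9 (.emb 3 [3,0,7,8,9,2,6]) (.fresh 7 .big
  (.low 7))))) (.dec 7 8 (.emb 1 [3,8,7]) (.fresh 7 (.fresh 7 .big (.dec 8 9 (.emb 2 [3,8,9,7])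
  (.fresh 8 .big (.fresh 9 .big (.low 9))))) (.low 7)))) (.fresh 6 (.fresh 6 .big (.dec 7 8 (.emb
  1 [3,8,7]) (.dec 7 9 (.fresh 7 .big (.dec 8 9 (.emb 2 [3,8,9,7]) (.fresh 8 .big (.low 8))))
  (.fresh 7 .big (.low 7))))) (.low 6)))))))))

def c10_13 : Ct :=
  (.fresh 4 (.fresh 4 .big (.dec 5 6 (.emb 1 [2,5,6]) (.dec 5 7 (.dec 5 8 (.emb 2 [3,8,5,7]) (.dec
  5 9 (.emb 3 [2,0,5,6,9,1,4]) (.fresh 5 .big (.dec 6 7 (.emb 2 [2,5,7,6]) (.dec 6 8 (.emb 3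
  [0,1,3,2,8,4,6]) (.dec 6 9 (.emb 1 [4,6,9]) (.fresh 6 .big (.dec 7 8 (.emb 1 [3,8,7]) (.dec 7 9
  (.emb 5 [0,1,4,3,9,2,7,5,6]) (.fresh 7 .big (.dec 8 9 (.emb 6 [2,0,5,6,1,3,7,4,8,9]) (.fresh 8
  .big (.low 8))))))))))))) (.dec 5 8 (.dec 5 9 (.emb 3 [2,0,5,6,9,1,4]) (.fresh 5 .big (.dec 6 7
  (.emb 3 [0,1,3,2,7,4,6]) (.dec 6 8 (.emb 2 [2,5,8,6]) (.dec 6 9 (.emb 1 [4,6,9]) (.fresh 6 .big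
  (.dec 7 8 (.emb 1 [3,8,7]) (.dec 7 9 (.emb 6 [2,0,5,6,1,3,8,4,7,9]) (.fresh 7 .big (.low
  7)))))))))) (.dec 5 9 (.emb 3 [2,0,5,6,9,1,4]) (.fresh 5 .big (.low 5))))))) (.dec 5 6 (.emb 1
  [2,5,6]) (.dec 5 7 (.dec 5 8 (.emb 2 [3,8,5,7]) (.fresh 5 (.fresh 5 .big (.dec 6 7 (.emb 2
  [2,5,7,6]) (.dec 6 8 (.emb 3 [0,1,3,2,8,4,6]) (.dec 6 9 (.emb 2 [2,5,9,6]) (.fresh 6 .big (.dec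
  7 8 (.emb 1 [3,8,7]) (.dec 7 9 (.emb 1 [5,9,7]) (.fresh 7 .big (.dec 8 9 (.emb 3
  [3,0,8,7,9,2,5]) (.fresh 8 .big (.low 8))))))))))) (.dec 6 7 (.emb 2 [2,5,7,6]) (.dec 6 8 (.emb
  3 [0,1,3,2,8,4,6]) (.fresh 6 (.fresh 6 .big (.dec 7 8 (.emb 1 [3,8,7]) (.dec 7 9 (.emb 3
  [2,0,6,5,9,3,7]) (.fresh 7 .big (.dec 8 9 (.emb 8 [3,0,1,2,5,6,9,4,8,7]) (.fresh 8 .big (.low
  8))))))) (.dec 7 8 (.emb 1 [3,8,7]) (.fresh 7 (.fresh 7 .big (.dec 8 9 (.emb 2 [3,8,9,7])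
  (.fresh 8 .big (.low 8)))) (.fresh 8 (.fresh 8 .big (.fresh 9 .big (.low 9))) (.low 8)))))))))
  (.dec 5 8 (.fresh 5 (.fresh 5 .big (.dec 6 7 (.emb 3 [0,1,3,2,7,4,6]) (.dec 6 8 (.emb 2
  [2,5,8,6]) (.dec 6 9 (.emb 2 [2,5,9,6]) (.fresh 6 .big (.dec 7 8 (.emb 1 [3,8,7]) (.dec 7 9
  (.emb 3 [3,0,7,8,9,2,5]) (.fresh 7 .big (.low 7))))))))) (.dec 6 7 (.emb 3 [0,1,3,2,7,4,6])
  (.dec 6 8 (.emb 2 [2,5,8,6]) (.fresh 6 (.fresh 6 .big (.dec 7 8 (.emb 1 [3,8,7]) (.dec 7 9 (.emb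
  8 [3,0,1,2,5,6,9,4,7,8]) (.fresh 7 .big (.low 7))))) (.dec 7 8 (.emb 1 [3,8,7]) (.fresh 7
  (.fresh 7 .big (.dec 8 9 (.emb 2 [3,8,9,7]) (.fresh 8 .big (.fresh 9 .big (.low 9))))) (.low
  7))))))) (.fresh 5 (.fresh 5 .big (.dec 6 7 (.emb 3 [0,1,3,2,7,4,6]) (.dec 6 8 (.emb 3
  [0,1,3,2,8,4,6]) (.dec 6 9 (.emb 2 [2,5,9,6]) (.fresh 6 .big (.dec 7 8 (.emb 1 [3,8,7]) (.dec 7
  9 (.fresh 7 .big (.dec 8 9 (.emb 2 [3,8,9,7]) (.fresh 8 .big (.low 8)))) (.fresh 7 .big (.low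
  7))))))))) (.low 5))))))

def c10_14 : Ct :=
  (.dec 4 8 (.fresh 4 (.fresh 4 .big (.dec 5 6 (.emb 1 [2,5,6]) (.dec 5 7 (.dec 5 8 (.emb 2
  [3,8,5,7]) (.dec 5 9 (.emb 5 [0,1,4,2,9,3,5,7,8]) (.fresh 5 .big (.dec 6 7 (.emb 2 [2,5,7,6])
  (.dec 6 8 (.emb 3 [0,1,2,3,6,4,8]) (.dec 6 9 (.emb 6 [3,0,7,8,1,2,5,4,6,9]) (.fresh 6 .big (.low
  6)))))))) (.dec 5 8 (.emb 3 [0,1,2,3,5,4,8]) (.dec 5 9 (.fresh 5 .big (.dec 6 7 (.emb 6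
  [3,0,7,8,1,2,6,4,5,9]) (.dec 6 8 (.emb 3 [0,1,2,3,6,4,8]) (.dec 6 9 (.emb 2 [2,5,9,6]) (.fresh 6
  .big (.low 6)))))) (.fresh 5 .big (.low 5))))))) (.dec 5 6 (.emb 1 [2,5,6]) (.dec 5 7 (.dec 5 8
  (.emb 2 [3,8,5,7]) (.fresh 5 (.fresh 5 .big (.dec 6 7 (.emb 2 [2,5,7,6]) (.dec 6 8 (.emb 3
  [0,1,2,3,6,4,8]) (.dec 6 9 (.emb 2 [2,5,9,6]) (.fresh 6 .big (.low 6)))))) (.dec 6 7 (.emb 2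
  [2,5,7,6]) (.dec 6 8 (.emb 3 [0,1,2,3,6,4,8]) (.fresh 6 (.fresh 6 .big (.dec 7 8 (.emb 1
  [3,8,7]) (.dec 7 9 (.emb 3 [2,0,6,5,9,3,7]) (.fresh 7 .big (.dec 8 9 (.emb 8
  [2,0,1,3,7,8,9,4,6,5]) (.fresh 8 .big (.fresh 9 .big (.low 9)))))))) (.low 6)))))) (.dec 5 8
  (.emb 3 [0,1,2,3,5,4,8]) (.fresh 5 (.fresh 5 .big (.dec 6 7 (.dec 6 8 (.emb 2 [3,8,6,7]) (.dec 6
  9 (.emb 2 [2,5,9,6]) (.fresh 6 .big (.dec 7 8 (.emb 1 [3,8,7]) (.dec 7 9 (.emb 3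
  [2,0,5,6,9,3,7]) (.fresh 7 .big (.dec 8 9 (.emb 8 [2,0,1,3,7,8,9,4,5,6]) (.fresh 8 .big (.fresh
  9 .big (.low 9)))))))))) (.dec 6 8 (.emb 3 [0,1,2,3,6,4,8]) (.dec 6 9 (.emb 2 [2,5,9,6]) (.fresh
  6 .big (.low 6)))))) (.low 5)))))) (.fresh 4 (.fresh 4 .big (.dec 5 6 (.emb 1 [2,5,6]) (.dec 5 7
  (.dec 5 8 (.emb 2 [3,8,5,7]) (.dec 5 9 (.fresh 5 .big (.dec 6 7 (.emb 2 [2,5,7,6]) (.dec 6 8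
  (.emb 3 [2,5,6,0,8,7,3]) (.dec 6 9 (.emb 2 [2,5,9,6]) (.fresh 6 .big (.low 6)))))) (.fresh 5
  .big (.dec 6 7 (.emb 2 [2,5,7,6]) (.dec 6 8 (.emb 3 [2,5,6,0,8,7,3]) (.dec 6 9 (.fresh 6 .big
  (.dec 7 8 (.emb 1 [3,8,7]) (.dec 7 9 (.emb 3 [2,0,6,5,9,3,7]) (.fresh 7 .big (.dec 8 9 (.emb 4
  [1,0,2,3,6,9,8,4]) (.fresh 8 .big (.low 8))))))) (.fresh 6 .big (.low 6)))))))) (.dec 5 8 (.dec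
  5 9 (.fresh 5 .big (.dec 6 7 (.emb 3 [2,5,6,0,7,8,3]) (.dec 6 8 (.emb 2 [2,5,8,6]) (.dec 6 9
  (.emb 2 [2,5,9,6]) (.fresh 6 .big (.low 6)))))) (.fresh 5 .big (.dec 6 7 (.emb 3
  [2,5,6,0,7,8,3]) (.dec 6 8 (.emb 2 [2,5,8,6]) (.dec 6 9 (.fresh 6 .big (.dec 7 8 (.emb 1
  [3,8,7]) (.dec 7 9 (.emb 4 [1,0,2,3,6,9,7,4]) (.fresh 7 .big (.low 7))))) (.fresh 6 .big (.low
  6))))))) (.dec 5 9 (.fresh 5 .big (.dec 6 7 (.dec 6 8 (.emb 2 [3,8,6,7]) (.dec 6 9 (.emb 2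
  [2,5,9,6]) (.fresh 6 .big (.dec 7 8 (.emb 1 [3,8,7]) (.dec 7 9 (.emb 3 [2,0,5,6,9,3,7]) (.fresh
  7 .big (.dec 8 9 (.emb 4 [1,0,2,3,5,9,8,4]) (.fresh 8 .big (.low 8))))))))) (.dec 6 8 (.dec 6 9
  (.emb 2 [2,5,9,6]) (.fresh 6 .big (.dec 7 8 (.emb 1 [3,8,7]) (.dec 7 9 (.emb 4
  [1,0,2,3,5,9,7,4]) (.fresh 7 .big (.low 7)))))) (.dec 6 9 (.emb 2 [2,5,9,6]) (.fresh 6 .big
  (.low 6)))))) (.fresh 5 .big (.low 5))))))) (.low 4)))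

def c10_15 : Ct :=
  (.fresh 5 (.fresh 5 (.emb 0 [5,8,9,2,4]) (.dec 6 7 (.dec 6 8 (.emb 2 [2,5,8,6]) (.fresh 6
  (.fresh 6 .big (.dec 7 8 (.emb 3 [2,0,5,6,8,3,7]) (.dec 7 9 (.emb 1 [6,9,7]) (.fresh 7 .big
  (.dec 8 9 (.emb 10 [0,2,6,5,9,1,8,4,3,7]) (.fresh 8 .big (.low 8))))))) (.dec 7 8 (.emb 3
  [2,0,5,6,8,3,7]) (.fresh 7 (.fresh 7 .big (.dec 8 9 (.emb 6 [0,2,1,3,6,5,4,7,8,9]) (.fresh 8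
  .big (.low 8)))) (.fresh 8 (.fresh 8 .big (.fresh 9 .big (.low 9))) (.low 8)))))) (.dec 6 8
  (.emb 2 [2,5,8,6]) (.fresh 6 (.fresh 6 .big (.dec 7 8 (.dec 7 9 (.emb 4 [0,2,5,6,8,7,9,3])
  (.fresh 7 .big (.dec 8 9 (.emb 8 [0,2,6,5,4,8,7,9,3,1]) (.fresh 8 .big (.fresh 9 .big (.low
  9)))))) (.dec 7 9 (.fresh 7 .big (.dec 8 9 (.emb 6 [5,2,4,8,6,0,1,9,3,7]) (.fresh 8 .big (.low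
  8)))) (.fresh 7 .big (.low 7))))) (.low 6))))) (.dec 6 7 (.fresh 6 (.fresh 6 (.emb 0
  [6,8,9,2,7]) (.dec 7 8 (.emb 1 [6,8,7]) (.fresh 7 (.fresh 7 .big (.dec 8 9 (.emb 2 [6,8,9,7])
  (.fresh 8 .big (.low 8)))) (.fresh 8 (.fresh 8 .big (.fresh 9 .big (.low 9))) (.low 8)))))
  (.fresh 7 (.fresh 7 (.emb 0 [7,8,9,3,6]) (.fresh 8 (.fresh 8 .big (.fresh 9 .big (.low 9)))
  (.low 8))) .comp)) (.fresh 6 (.fresh 6 (.fresh 6 .big (.dec 7 8 (.dec 7 9 (.emb 2 [6,8,7,9])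
  (.fresh 7 .big (.dec 8 9 (.emb 1 [6,8,9]) (.fresh 8 .big (.fresh 9 .big (.low 9)))))) (.dec 7 9
  (.fresh 7 .big (.dec 8 9 (.emb 1 [6,8,9]) (.fresh 8 .big (.low 8)))) (.fresh 7 .big (.low 7)))))
  (.dec 7 8 (.fresh 7 (.fresh 7 .big (.dec 8 9 (.emb 1 [7,8,9]) (.fresh 8 .big (.fresh 9 .big
  (.low 9))))) (.fresh 8 (.fresh 8 .big (.fresh 9 .big (.low 9))) .cap)) (.fresh 7 (.fresh 7 .big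
  (.dec 8 9 (.fresh 8 .big .cap) (.fresh 8 .big (.low 8)))) (.low 7)))) (.low 6))))

def c10_16 : Ct :=
  (.dec 5 7 (.fresh 5 (.fresh 5 (.emb 0 [5,8,9,2,7]) (.dec 6 7 (.emb 2 [2,5,7,6]) (.dec 6 8 (.emb
  2 [2,5,8,6]) (.fresh 6 (.fresh 6 .big (.dec 7 8 (.emb 1 [5,8,7]) (.dec 7 9 (.emb 3
  [2,0,6,5,9,3,7]) (.fresh 7 .big (.dec 8 9 (.emb 10 [0,2,5,6,8,1,9,4,3,7]) (.fresh 8 .big (.low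
  8))))))) (.dec 7 8 (.emb 1 [5,8,7]) (.fresh 7 (.fresh 7 .big (.dec 8 9 (.emb 2 [5,8,9,7])
  (.fresh 8 .big (.low 8)))) (.fresh 8 (.fresh 8 .big (.fresh 9 .big (.low 9))) (.low 8))))))))
  (.dec 6 7 (.emb 2 [2,5,7,6]) (.fresh 6 (.fresh 6 (.emb 0 [6,8,9,2,4]) (.dec 7 8 (.emb 3
  [2,0,6,5,8,3,7]) (.fresh 7 (.fresh 7 .big (.dec 8 9 (.emb 6 [0,2,1,3,5,6,4,7,8,9]) (.fresh 8
  .big (.low 8)))) (.fresh 8 (.fresh 8 .big (.fresh 9 .big (.low 9))) (.low 8))))) (.fresh 7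
  (.fresh 7 (.emb 0 [7,8,9,3,5]) (.fresh 8 (.fresh 8 .big (.fresh 9 .big (.low 9))) (.low 8)))
  .comp)))) (.fresh 5 (.fresh 5 (.fresh 5 .big (.dec 6 7 (.emb 3 [0,1,3,2,7,4,6]) (.dec 6 8 (.emb
  2 [2,5,8,6]) (.dec 6 9 (.emb 2 [2,5,9,6]) (.fresh 6 .big (.dec 7 8 (.dec 7 9 (.emb 2 [5,8,7,9])
  (.fresh 7 .big (.dec 8 9 (.emb 1 [5,8,9]) (.fresh 8 .big (.fresh 9 .big (.low 9)))))) (.dec 7 9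
  (.fresh 7 .big (.dec 8 9 (.emb 1 [5,8,9]) (.fresh 8 .big (.low 8)))) (.fresh 7 .big (.low
  7))))))))) (.dec 6 7 (.emb 3 [0,1,3,2,7,4,6]) (.dec 6 8 (.emb 2 [2,5,8,6]) (.fresh 6 (.fresh 6
  .big (.dec 7 8 (.dec 7 9 (.emb 4 [0,2,5,6,8,7,9,3]) (.fresh 7 .big (.dec 8 9 (.emb 6
  [6,2,4,9,5,0,1,8,3,7]) (.fresh 8 .big (.fresh 9 .big (.low 9)))))) (.dec 7 9 (.fresh 7 .big
  (.dec 8 9 (.emb 8 [0,2,5,6,4,9,7,8,3,1]) (.fresh 8 .big (.low 8)))) (.fresh 7 .big (.low 7)))))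
  (.dec 7 8 (.fresh 7 (.fresh 7 .big (.dec 8 9 (.emb 1 [7,8,9]) (.fresh 8 .big (.fresh 9 .big
  (.low 9))))) (.fresh 8 (.fresh 8 .big (.fresh 9 .big (.low 9))) .cap)) (.fresh 7 (.fresh 7 .big
  (.dec 8 9 (.fresh 8 .big .cap) (.fresh 8 .big (.low 8)))) (.low 7))))))) (.low 5)))

def c10_17 : Ct :=
  (.dec 5 8 (.fresh 5 (.fresh 5 .big (.dec 6 7 (.dec 6 8 (.emb 2 [2,5,8,6]) (.dec 6 9 (.emb 2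
  [2,5,9,6]) (.fresh 6 .big (.dec 7 8 (.emb 3 [2,0,5,6,8,3,7]) (.dec 7 9 (.emb 3 [2,0,5,6,9,3,7])
  (.fresh 7 .big (.dec 8 9 (.emb 1 [5,8,9]) (.fresh 8 .big (.fresh 9 .big (.low 9)))))))))) (.dec
  6 8 (.emb 2 [2,5,8,6]) (.dec 6 9 (.emb 2 [2,5,9,6]) (.fresh 6 .big (.low 6)))))) (.dec 6 7 (.dec
  6 8 (.emb 2 [2,5,8,6]) (.fresh 6 (.fresh 6 .big (.dec 7 8 (.emb 3 [2,0,5,6,8,3,7]) (.dec 7 9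
  (.emb 1 [6,9,7]) (.fresh 7 .big (.dec 8 9 (.emb 6 [6,2,7,9,5,0,3,8,1,4]) (.fresh 8 .big (.fresh
  9 .big (.low 9)))))))) (.dec 7 8 (.emb 3 [2,0,5,6,8,3,7]) (.fresh 7 (.fresh 7 .big (.dec 8 9
  (.emb 9 [8,4,9,7,3,0,1,6,5,2]) (.fresh 8 .big (.fresh 9 .big (.low 9))))) (.fresh 8 (.fresh 8
  .big (.fresh 9 .big (.low 9))) .cap))))) (.dec 6 8 (.emb 2 [2,5,8,6]) (.fresh 6 (.fresh 6 .big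
  (.dec 7 8 (.emb 4 [1,0,2,3,5,8,7,4]) (.dec 7 9 (.fresh 7 .big (.dec 8 9 (.emb 7
  [0,1,4,2,8,6,5,3,7,9]) (.fresh 8 .big .cap))) (.fresh 7 .big (.low 7))))) (.low 6))))) (.fresh 5
  (.fresh 5 .big (.dec 6 7 (.dec 6 8 (.dec 6 9 (.emb 0 [6,8,9,2,7]) (.fresh 6 .big (.dec 7 8 (.emb
  1 [6,8,7]) (.dec 7 9 (.emb 3 [2,0,5,6,9,3,7]) (.fresh 7 .big (.dec 8 9 (.emb 8
  [0,2,5,6,7,8,4,9,1,3]) (.fresh 8 .big (.fresh 9 .big (.low 9))))))))) (.dec 6 9 (.emb 2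
  [2,5,9,6]) (.fresh 6 .big (.dec 7 8 (.dec 7 9 (.emb 0 [7,8,9,3,6]) (.fresh 7 .big (.dec 8 9
  (.emb 7 [8,9,5,7,2,3,6,4,1,0]) (.fresh 8 .big (.fresh 9 .big (.low 9)))))) (.dec 7 9 (.emb 3
  [2,0,5,6,9,3,7]) (.fresh 7 .big (.dec 8 9 (.fresh 8 .big .cap) (.fresh 8 .big (.low 8)))))))))
  (.dec 6 8 (.dec 6 9 (.emb 2 [2,5,9,6]) (.fresh 6 .big (.dec 7 8 (.emb 4 [1,0,2,3,6,8,7,4]) (.dec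
  7 9 (.fresh 7 .big (.dec 8 9 (.emb 7 [0,1,4,2,8,5,6,3,7,9]) (.fresh 8 .big .cap))) (.fresh 7
  .big (.low 7)))))) (.dec 6 9 (.emb 2 [2,5,9,6]) (.fresh 6 .big (.low 6)))))) (.low 5)))

def c10_18 : Ct :=
  (.fresh 4 (.fresh 4 .big (.dec 5 6 (.emb 1 [2,5,6]) (.dec 5 7 (.dec 5 8 (.dec 5 9 (.emb 0
  [5,8,9,2,7]) (.fresh 5 .big (.dec 6 7 (.emb 2 [2,5,7,6]) (.dec 6 8 (.emb 2 [2,5,8,6]) (.dec 6 9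
  (.emb 4 [0,2,5,6,8,4,9,1]) (.fresh 6 .big (.low 6))))))) (.dec 5 9 (.fresh 5 .big (.dec 6 7
  (.emb 2 [2,5,7,6]) (.dec 6 8 (.emb 4 [0,2,5,6,9,4,8,1]) (.dec 6 9 (.emb 2 [2,5,9,6]) (.fresh 6
  .big (.low 6)))))) (.fresh 5 .big (.dec 6 7 (.emb 2 [2,5,7,6]) (.dec 6 8 (.dec 6 9 (.emb 2
  [4,8,6,9]) (.fresh 6 .big (.dec 7 8 (.emb 3 [2,0,6,5,8,3,7]) (.dec 7 9 (.emb 9
  [4,8,9,7,5,2,6,3,1,0]) (.fresh 7 .big (.dec 8 9 (.emb 1 [4,8,9]) (.fresh 8 .big (.fresh 9 .big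
  (.low 9))))))))) (.dec 6 9 (.fresh 6 .big (.dec 7 8 (.emb 9 [4,9,8,7,5,2,6,3,1,0]) (.dec 7 9
  (.emb 3 [2,0,6,5,9,3,7]) (.fresh 7 .big (.dec 8 9 (.emb 1 [4,8,9]) (.fresh 8 .big (.low 8)))))))
  (.fresh 6 .big (.low 6)))))))) (.dec 5 8 (.dec 5 9 (.emb 2 [4,8,5,9]) (.fresh 5 .big (.dec 6 7
  (.dec 6 8 (.emb 2 [2,5,8,6]) (.dec 6 9 (.emb 4 [0,2,5,6,8,4,9,1]) (.fresh 6 .big (.dec 7 8 (.emb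
  3 [2,0,5,6,8,3,7]) (.dec 7 9 (.emb 9 [4,8,9,7,6,2,5,3,1,0]) (.fresh 7 .big (.dec 8 9 (.emb 1
  [4,8,9]) (.fresh 8 .big (.fresh 9 .big (.low 9)))))))))) (.dec 6 8 (.emb 2 [2,5,8,6]) (.dec 6 9
  (.emb 4 [0,2,5,6,8,4,9,1]) (.fresh 6 .big (.low 6))))))) (.dec 5 9 (.fresh 5 .big (.dec 6 7
  (.dec 6 8 (.emb 4 [0,2,5,6,9,4,8,1]) (.dec 6 9 (.emb 2 [2,5,9,6]) (.fresh 6 .big (.dec 7 8 (.emb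
  9 [4,9,8,7,6,2,5,3,1,0]) (.dec 7 9 (.emb 3 [2,0,5,6,9,3,7]) (.fresh 7 .big (.dec 8 9 (.emb 1
  [4,8,9]) (.fresh 8 .big (.low 8))))))))) (.dec 6 8 (.emb 4 [0,2,5,6,9,4,8,1]) (.dec 6 9 (.emb 2
  [2,5,9,6]) (.fresh 6 .big (.low 6)))))) (.fresh 5 .big (.low 5))))))) (.dec 5 6 (.emb 1 [2,5,6])
  (.dec 5 7 (.dec 5 8 (.fresh 5 (.emb 0 [5,8,9,2,7]) (.dec 6 7 (.emb 2 [2,5,7,6]) (.dec 6 8 (.emb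
  2 [2,5,8,6]) (.fresh 6 (.fresh 6 .big (.dec 7 8 (.emb 1 [5,8,7]) (.dec 7 9 (.emb 3
  [2,0,6,5,9,3,7]) (.fresh 7 .big (.dec 8 9 (.emb 8 [0,2,6,5,7,8,4,9,1,3]) (.fresh 8 .big (.fresh
  9 .big (.low 9)))))))) (.low 6))))) (.fresh 5 (.fresh 5 .big (.dec 6 7 (.emb 2 [2,5,7,6]) (.dec
  6 8 (.dec 6 9 (.emb 2 [2,5,9,6]) (.fresh 6 .big (.dec 7 8 (.emb 3 [2,0,6,5,8,3,7]) (.dec 7 9
  (.emb 1 [5,9,7]) (.fresh 7 .big (.dec 8 9 (.emb 6 [5,2,7,9,6,0,3,8,1,4]) (.fresh 8 .big (.fresh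
  9 .big (.low 9))))))))) (.dec 6 9 (.emb 2 [2,5,9,6]) (.fresh 6 .big (.low 6)))))) (.dec 6 7
  (.emb 2 [2,5,7,6]) (.dec 6 8 (.fresh 6 (.fresh 6 .big (.dec 7 8 (.emb 3 [2,0,6,5,8,3,7]) (.dec 7
  9 (.emb 3 [2,0,6,5,9,3,7]) (.fresh 7 .big (.dec 8 9 (.emb 1 [6,8,9]) (.fresh 8 .big (.fresh 9
  .big (.low 9)))))))) (.dec 7 8 (.emb 3 [2,0,6,5,8,3,7]) (.fresh 7 (.fresh 7 .big (.dec 8 9 (.emb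
  9 [8,4,9,7,3,0,1,5,6,2]) (.fresh 8 .big (.fresh 9 .big (.low 9))))) (.fresh 8 (.fresh 8 .big
  (.fresh 9 .big (.low 9))) .cap)))) (.fresh 6 (.fresh 6 .big (.dec 7 8 (.dec 7 9 (.emb 0
  [7,8,9,3,5]) (.fresh 7 .big (.dec 8 9 (.emb 7 [8,9,6,7,2,3,5,4,1,0]) (.fresh 8 .big (.fresh 9
  .big (.low 9)))))) (.dec 7 9 (.emb 3 [2,0,6,5,9,3,7]) (.fresh 7 .big (.dec 8 9 (.fresh 8 .big
  .cap) (.fresh 8 .big (.low 8))))))) (.low 6)))))) c10_17)))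

def c10_19 : Ct :=
  (.dec 4 6 (.dec 4 7 (.emb 3 [0,2,3,1,7,6,4]) (.fresh 4 (.fresh 4 (.emb 0 [4,8,1,6,9]) (.dec 5 6
  (.emb 1 [2,5,6]) (.dec 5 7 (.dec 5 8 (.emb 3 [2,0,5,6,8,1,4]) (.fresh 5 (.fresh 5 .big (.dec 6 7
  (.emb 2 [2,5,7,6]) (.dec 6 8 (.emb 1 [4,8,6]) (.dec 6 9 (.emb 2 [2,5,9,6]) (.fresh 6 .big (.dec
  7 8 (.emb 5 [0,1,4,3,8,2,7,5,6]) (.dec 7 9 (.emb 1 [5,9,7]) (.fresh 7 .big (.dec 8 9 (.emb 6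
  [0,2,3,1,6,5,7,4,9,8]) (.fresh 8 .big (.low 8))))))))))) (.dec 6 7 (.emb 2 [2,5,7,6]) (.dec 6 8
  (.emb 1 [4,8,6]) (.fresh 6 (.fresh 6 .big (.dec 7 8 (.emb 5 [0,1,4,3,8,2,7,5,6]) (.dec 7 9 (.emb
  3 [2,0,6,5,9,3,7]) (.fresh 7 .big (.dec 8 9 (.emb 2 [4,8,9,6]) (.fresh 8 .big (.low 8)))))))
  (.dec 7 8 (.emb 5 [0,1,4,3,8,2,7,5,6]) (.fresh 7 (.fresh 7 .big (.dec 8 9 (.emb 11
  [0,1,4,6,3,2,8,9,5,7]) (.fresh 8 .big (.low 8)))) (.fresh 8 (.fresh 8 .big (.fresh 9 .big (.low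
  9))) (.low 8))))))))) (.dec 5 8 (.emb 3 [2,0,5,6,8,1,4]) (.fresh 5 (.fresh 5 .big (.dec 6 7
  (.emb 3 [0,1,3,2,7,4,6]) (.dec 6 8 (.emb 1 [4,8,6]) (.dec 6 9 (.emb 2 [2,5,9,6]) (.fresh 6 .big
  (.dec 7 8 (.dec 7 9 (.emb 9 [7,9,8,4,6,2,5,1,3,0]) (.fresh 7 .big (.dec 8 9 (.emb 7
  [8,9,5,4,2,1,6,7,3,0]) (.fresh 8 .big (.fresh 9 .big (.low 9)))))) (.dec 7 9 (.fresh 7 .big
  (.dec 8 9 (.emb 9 [9,7,8,4,1,0,3,6,5,2]) (.fresh 8 .big (.low 8)))) (.fresh 7 .big (.low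
  7))))))))) (.low 5)))))) (.dec 5 6 (.emb 1 [2,5,6]) c10_16))) (.dec 4 7 (.fresh 4 (.fresh 4
  (.emb 0 [4,8,1,9,7]) (.dec 5 6 (.emb 1 [2,5,6]) (.dec 5 7 (.emb 3 [0,1,2,3,5,4,7]) (.dec 5 8
  (.fresh 5 (.fresh 5 .big (.dec 6 7 (.emb 3 [0,1,2,3,6,4,7]) (.dec 6 8 (.emb 2 [2,5,8,6]) (.dec 6
  9 (.emb 2 [2,5,9,6]) (.fresh 6 .big (.low 6)))))) (.dec 6 7 (.emb 3 [0,1,2,3,6,4,7]) (.dec 6 8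
  (.emb 2 [2,5,8,6]) (.fresh 6 (.fresh 6 .big (.dec 7 8 (.emb 1 [4,8,7]) (.dec 7 9 (.emb 7
  [2,5,8,0,4,3,1,6,9,7]) (.fresh 7 .big (.dec 8 9 (.emb 13 [0,4,2,8,1,3,7,5,6,9]) (.fresh 8 .big
  (.fresh 9 .big (.low 9)))))))) (.low 6))))) (.fresh 5 (.fresh 5 .big (.dec 6 7 (.emb 3
  [0,1,2,3,6,4,7]) (.dec 6 8 (.dec 6 9 (.emb 2 [2,5,9,6]) (.fresh 6 .big (.dec 7 8 (.emb 1
  [4,8,7]) (.dec 7 9 (.emb 7 [2,5,9,0,7,1,3,6,8,4]) (.fresh 7 .big (.dec 8 9 (.emb 13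
  [0,4,2,8,1,3,7,6,5,9]) (.fresh 8 .big (.fresh 9 .big (.low 9))))))))) (.dec 6 9 (.emb 2
  [2,5,9,6]) (.fresh 6 .big (.low 6)))))) (.low 5)))))) (.dec 5 6 (.emb 1 [2,5,6]) (.dec 5 7 (.emb
  3 [0,1,2,3,5,4,7]) (.fresh 5 (.fresh 5 (.fresh 5 .big (.dec 6 7 (.emb 3 [0,1,2,3,6,4,7]) (.dec 6
  8 (.emb 2 [2,5,8,6]) (.dec 6 9 (.emb 2 [2,5,9,6]) (.fresh 6 .big (.low 6)))))) (.dec 6 7 (.emb 3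
  [0,1,2,3,6,4,7]) (.dec 6 8 (.emb 2 [2,5,8,6]) (.fresh 6 (.fresh 6 .big (.dec 7 8 (.dec 7 9 (.emb
  0 [7,8,9,3,4]) (.fresh 7 .big (.dec 8 9 (.emb 13 [0,7,2,8,3,1,4,5,6,9]) (.fresh 8 .big (.fresh 9
  .big (.low 9)))))) (.dec 7 9 (.fresh 7 .big (.dec 8 9 (.emb 13 [0,7,2,9,3,1,4,6,5,8]) (.fresh 8
  .big (.low 8)))) (.fresh 7 .big (.dec 8 9 (.fresh 8 .big .cap) (.fresh 8 .big (.low 8)))))))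
  (.low 6))))) (.low 5))))) (.fresh 4 c10_18 (.low 4))))

def c10_20 : Ct :=
  (.fresh 3 (.fresh 3 (.emb 0 [3,0,8,9,7]) (.dec 4 5 (.dec 4 6 (.emb 2 [2,5,4,6]) (.dec 4 7 (.emb
  3 [0,2,3,1,7,5,4]) (.dec 4 8 (.emb 3 [0,2,3,1,8,5,4]) c10_12))) (.dec 4 6 (.dec 4 7 (.emb 3
  [0,2,3,1,7,6,4]) (.dec 4 8 (.emb 3 [0,2,3,1,8,6,4]) c10_13)) (.dec 4 7 (.dec 4 8 (.emb 2
  [3,8,4,7]) (.fresh 4 (.fresh 4 .big (.dec 5 6 (.emb 1 [2,5,6]) (.dec 5 7 (.emb 3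
  [0,1,2,3,5,4,7]) (.dec 5 8 (.dec 5 9 (.emb 5 [0,1,4,2,9,3,5,8,7]) (.fresh 5 .big (.dec 6 7 (.emb
  3 [0,1,2,3,6,4,7]) (.dec 6 8 (.emb 2 [2,5,8,6]) (.dec 6 9 (.emb 6 [3,0,8,7,1,2,5,4,6,9]) (.fresh
  6 .big (.low 6))))))) (.dec 5 9 (.fresh 5 .big (.dec 6 7 (.emb 3 [0,1,2,3,6,4,7]) (.dec 6 8
  (.emb 6 [3,0,8,7,1,2,6,4,5,9]) (.dec 6 9 (.emb 2 [2,5,9,6]) (.fresh 6 .big (.low 6)))))) (.fresh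
  5 .big (.low 5))))))) (.dec 5 6 (.emb 1 [2,5,6]) (.dec 5 7 (.emb 3 [0,1,2,3,5,4,7]) (.dec 5 8
  (.fresh 5 (.fresh 5 .big (.dec 6 7 (.emb 3 [0,1,2,3,6,4,7]) (.dec 6 8 (.emb 2 [2,5,8,6]) (.dec 6
  9 (.emb 2 [2,5,9,6]) (.fresh 6 .big (.low 6)))))) (.dec 6 7 (.emb 3 [0,1,2,3,6,4,7]) (.dec 6 8
  (.emb 2 [2,5,8,6]) (.fresh 6 (.fresh 6 .big (.dec 7 8 (.emb 1 [3,8,7]) (.dec 7 9 (.emb 8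
  [2,0,1,3,8,7,9,4,6,5]) (.fresh 7 .big (.dec 8 9 (.emb 3 [2,0,6,5,9,3,8]) (.fresh 8 .big (.fresh
  9 .big (.low 9)))))))) (.low 6))))) (.fresh 5 (.fresh 5 .big (.dec 6 7 (.emb 3 [0,1,2,3,6,4,7])
  (.dec 6 8 (.dec 6 9 (.emb 2 [2,5,9,6]) (.fresh 6 .big (.dec 7 8 (.emb 1 [3,8,7]) (.dec 7 9 (.emb
  8 [2,0,1,3,8,7,9,4,5,6]) (.fresh 7 .big (.dec 8 9 (.emb 3 [2,0,5,6,9,3,8]) (.fresh 8 .big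
  (.fresh 9 .big (.low 9))))))))) (.dec 6 9 (.emb 2 [2,5,9,6]) (.fresh 6 .big (.low 6)))))) (.low
  5))))))) c10_14)))) (.dec 4 5 (.dec 4 6 (.emb 2 [2,5,4,6]) (.dec 4 7 (.emb 3 [0,2,3,1,7,5,4])
  (.fresh 4 (.fresh 4 (.emb 0 [4,8,1,5,9]) (.dec 5 6 (.emb 1 [2,5,6]) (.dec 5 7 (.emb 3
  [0,1,3,2,7,4,5]) (.dec 5 8 (.emb 1 [4,8,5]) (.fresh 5 (.fresh 5 .big (.dec 6 7 (.dec 6 8 (.emb 3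
  [2,0,6,5,8,1,4]) (.dec 6 9 (.emb 2 [2,5,9,6]) (.fresh 6 .big (.dec 7 8 (.emb 5
  [0,1,4,3,8,2,7,6,5]) (.dec 7 9 (.emb 3 [2,0,5,6,9,3,7]) (.fresh 7 .big (.dec 8 9 (.emb 2
  [4,8,9,5]) (.fresh 8 .big (.low 8))))))))) (.dec 6 8 (.emb 3 [2,0,6,5,8,1,4]) (.dec 6 9 (.emb 2
  [2,5,9,6]) (.fresh 6 .big (.low 6)))))) (.dec 6 7 (.dec 6 8 (.emb 3 [2,0,6,5,8,1,4]) (.fresh 6
  (.fresh 6 .big (.dec 7 8 (.emb 5 [0,1,4,3,8,2,7,6,5]) (.dec 7 9 (.emb 1 [6,9,7]) (.fresh 7 .big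
  (.dec 8 9 (.emb 6 [0,2,3,1,5,6,7,4,9,8]) (.fresh 8 .big (.low 8))))))) (.dec 7 8 (.emb 5
  [0,1,4,3,8,2,7,6,5]) (.fresh 7 (.fresh 7 .big (.dec 8 9 (.emb 11 [0,1,4,5,3,2,8,9,6,7]) (.fresh
  8 .big (.low 8)))) (.fresh 8 (.fresh 8 .big (.fresh 9 .big (.low 9))) (.low 8)))))) (.dec 6 8
  (.emb 3 [2,0,6,5,8,1,4]) (.fresh 6 (.fresh 6 .big (.dec 7 8 (.dec 7 9 (.emb 9
  [7,9,8,4,5,2,6,1,3,0]) (.fresh 7 .big (.dec 8 9 (.emb 7 [8,9,6,4,2,1,5,7,3,0]) (.fresh 8 .big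
  (.fresh 9 .big (.low 9)))))) (.dec 7 9 (.fresh 7 .big (.dec 8 9 (.emb 9 [9,7,8,4,1,0,3,5,6,2])
  (.fresh 8 .big (.low 8)))) (.fresh 7 .big (.low 7))))) (.low 6))))))))) (.dec 5 6 (.emb 1
  [2,5,6]) (.dec 5 7 (.emb 3 [0,1,3,2,7,4,5]) c10_15))))) c10_19))

def c10_21 : Ct :=
  (.fresh 4 (.fresh 4 (.emb 0 [4,8,1,5,9]) (.dec 5 6 (.emb 3 [0,1,3,2,6,4,5]) (.dec 5 7 (.emb 3
  [0,1,3,2,7,4,5]) (.dec 5 8 (.emb 1 [4,8,5]) (.fresh 5 (.fresh 5 .big (.dec 6 7 (.emb 1 [3,6,7])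
  (.dec 6 8 (.dec 6 9 (.emb 5 [4,8,6,1,3,5,0,2,9]) (.fresh 6 .big (.dec 7 8 (.emb 2 [3,6,8,7])
  (.dec 7 9 (.emb 7 [3,6,8,0,4,2,1,7,9,5]) (.fresh 7 .big (.low 7)))))) (.dec 6 9 (.fresh 6 .big
  (.dec 7 8 (.emb 7 [3,6,9,0,5,1,2,7,8,4]) (.dec 7 9 (.emb 2 [3,6,9,7]) (.fresh 7 .big (.low
  7))))) (.fresh 6 .big (.low 6)))))) (.dec 6 7 (.emb 1 [3,6,7]) (.dec 6 8 (.fresh 6 (.fresh 6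
  .big (.dec 7 8 (.emb 2 [3,6,8,7]) (.dec 7 9 (.emb 2 [3,6,9,7]) (.fresh 7 .big (.low 7))))) (.dec
  7 8 (.emb 2 [3,6,8,7]) (.fresh 7 (.fresh 7 .big (.dec 8 9 (.emb 13 [0,4,3,8,1,2,5,6,7,9])
  (.fresh 8 .big (.fresh 9 .big (.low 9))))) (.low 7)))) (.fresh 6 (.fresh 6 .big (.dec 7 8 (.dec
  7 9 (.emb 2 [3,6,9,7]) (.fresh 7 .big (.dec 8 9 (.emb 13 [0,4,3,8,1,2,5,7,6,9]) (.fresh 8 .big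
  (.fresh 9 .big (.low 9)))))) (.dec 7 9 (.emb 2 [3,6,9,7]) (.fresh 7 .big (.low 7))))) (.low
  6))))))))) (.dec 5 6 (.emb 3 [0,1,3,2,6,4,5]) (.dec 5 7 (.emb 3 [0,1,3,2,7,4,5]) (.fresh 5
  (.fresh 5 (.emb 0 [5,8,9,2,4]) (.dec 6 7 (.emb 1 [3,6,7]) (.dec 6 8 (.fresh 6 (.fresh 6 .big
  (.dec 7 8 (.emb 2 [3,6,8,7]) (.dec 7 9 (.emb 2 [3,6,9,7]) (.fresh 7 .big (.low 7))))) (.dec 7 8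
  (.emb 2 [3,6,8,7]) (.fresh 7 (.fresh 7 .big (.dec 8 9 (.emb 13 [0,5,3,8,2,1,4,6,7,9]) (.fresh 8
  .big (.fresh 9 .big (.low 9))))) (.low 7)))) (.fresh 6 (.fresh 6 .big (.dec 7 8 (.dec 7 9 (.emb
  2 [3,6,9,7]) (.fresh 7 .big (.dec 8 9 (.emb 13 [0,5,3,8,2,1,4,7,6,9]) (.fresh 8 .big (.fresh 9
  .big (.low 9)))))) (.dec 7 9 (.emb 2 [3,6,9,7]) (.fresh 7 .big (.low 7))))) (.low 6))))) (.dec 6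
  7 (.emb 1 [3,6,7]) (.fresh 6 (.fresh 6 (.fresh 6 .big (.dec 7 8 (.emb 2 [3,6,8,7]) (.dec 7 9
  (.emb 2 [3,6,9,7]) (.fresh 7 .big (.low 7))))) (.dec 7 8 (.emb 2 [3,6,8,7]) (.fresh 7 (.fresh 7
  .big (.dec 8 9 (.fresh 8 .big .cap) (.fresh 8 .big (.low 8)))) (.low 7)))) (.low 6)))))))

def c10_22 : Ct :=
  (.dec 5 7 (.fresh 5 (.fresh 5 (.emb 0 [5,8,9,2,7]) (.dec 6 7 (.emb 1 [3,6,7]) (.dec 6 8 (.emb 3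
  [3,0,6,7,8,2,5]) (.fresh 6 (.fresh 6 .big (.dec 7 8 (.emb 1 [5,8,7]) (.dec 7 9 (.emb 2
  [3,6,9,7]) (.fresh 7 .big (.dec 8 9 (.emb 6 [0,3,1,2,7,6,4,5,9,8]) (.fresh 8 .big (.low 8)))))))
  (.dec 7 8 (.emb 1 [5,8,7]) (.fresh 7 (.fresh 7 .big (.dec 8 9 (.emb 2 [5,8,9,7]) (.fresh 8 .big
  (.low 8)))) (.fresh 8 (.fresh 8 .big (.fresh 9 .big (.low 9))) (.low 8)))))))) (.dec 6 7 (.emb 1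
  [3,6,7]) (.fresh 6 (.fresh 6 (.emb 0 [6,8,9,3,4]) (.dec 7 8 (.emb 2 [3,6,8,7]) (.fresh 7 (.fresh
  7 .big (.dec 8 9 (.emb 10 [0,3,7,6,9,1,8,4,2,5]) (.fresh 8 .big (.low 8)))) (.fresh 8 (.fresh 8
  .big (.fresh 9 .big (.low 9))) (.low 8))))) (.fresh 7 (.fresh 7 (.emb 0 [7,8,9,3,5]) (.fresh 8
  (.fresh 8 .big (.fresh 9 .big (.low 9))) (.low 8))) .comp)))) (.fresh 5 (.fresh 5 (.fresh 5 .big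
  (.dec 6 7 (.emb 1 [3,6,7]) (.dec 6 8 (.dec 6 9 (.emb 0 [6,8,9,3,4]) (.fresh 6 .big (.dec 7 8
  (.emb 2 [3,6,8,7]) (.dec 7 9 (.emb 4 [0,3,6,7,8,5,9,2]) (.fresh 7 .big (.low 7)))))) (.dec 6 9
  (.fresh 6 .big (.dec 7 8 (.emb 4 [0,3,6,7,9,5,8,2]) (.dec 7 9 (.emb 2 [3,6,9,7]) (.fresh 7 .big
  (.low 7))))) (.fresh 6 .big (.dec 7 8 (.dec 7 9 (.emb 2 [5,8,7,9]) (.fresh 7 .big (.dec 8 9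
  (.emb 1 [5,8,9]) (.fresh 8 .big (.fresh 9 .big (.low 9)))))) (.dec 7 9 (.fresh 7 .big (.dec 8 9
  (.emb 1 [5,8,9]) (.fresh 8 .big (.low 8)))) (.fresh 7 .big (.low 7))))))))) (.dec 6 7 (.emb 1
  [3,6,7]) (.dec 6 8 (.fresh 6 (.emb 0 [6,8,9,3,4]) (.dec 7 8 (.emb 2 [3,6,8,7]) (.fresh 7 (.fresh
  7 .big (.dec 8 9 (.emb 8 [0,3,7,6,4,8,5,9,2,1]) (.fresh 8 .big (.fresh 9 .big (.low 9))))) (.low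
  7)))) (.fresh 6 (.fresh 6 .big (.dec 7 8 (.dec 7 9 (.emb 2 [3,6,9,7]) (.fresh 7 .big (.dec 8 9
  (.emb 6 [6,3,4,9,7,0,1,8,2,5]) (.fresh 8 .big (.fresh 9 .big (.low 9)))))) (.dec 7 9 (.emb 2
  [3,6,9,7]) (.fresh 7 .big (.low 7))))) (.dec 7 8 (.fresh 7 (.fresh 7 .big (.dec 8 9 (.emb 1
  [7,8,9]) (.fresh 8 .big (.fresh 9 .big (.low 9))))) (.fresh 8 (.fresh 8 .big (.fresh 9 .big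
  (.low 9))) .cap)) (.fresh 7 (.fresh 7 .big (.dec 8 9 (.fresh 8 .big .cap) (.fresh 8 .big (.low
  8)))) (.low 7))))))) (.low 5)))

def c10_23 : Ct :=
  (.dec 5 6 (.dec 5 7 (.emb 2 [3,6,5,7]) (.fresh 5 (.fresh 5 (.emb 0 [5,8,9,2,6]) (.dec 6 7 (.emb
  1 [3,6,7]) (.dec 6 8 (.emb 1 [5,8,6]) (.fresh 6 (.fresh 6 .big (.dec 7 8 (.emb 3
  [3,0,7,6,8,2,5]) (.dec 7 9 (.emb 2 [3,6,9,7]) (.fresh 7 .big (.dec 8 9 (.emb 2 [5,8,9,6])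
  (.fresh 8 .big (.low 8))))))) (.dec 7 8 (.emb 3 [3,0,7,6,8,2,5]) (.fresh 7 (.fresh 7 .big (.dec
  8 9 (.emb 6 [0,3,1,2,6,7,4,5,9,8]) (.fresh 8 .big (.low 8)))) (.fresh 8 (.fresh 8 .big (.fresh 9
  .big (.low 9))) (.low 8)))))))) (.dec 6 7 (.emb 1 [3,6,7]) (.fresh 6 (.fresh 6 (.emb 0
  [6,8,9,3,5]) (.dec 7 8 (.emb 2 [3,6,8,7]) (.fresh 7 (.fresh 7 .big (.dec 8 9 (.emb 10
  [0,3,6,7,8,1,9,4,2,5]) (.fresh 8 .big (.low 8)))) (.fresh 8 (.fresh 8 .big (.fresh 9 .big (.low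
  9))) (.low 8))))) (.fresh 7 (.fresh 7 (.emb 0 [7,8,9,3,4]) (.fresh 8 (.fresh 8 .big (.fresh 9
  .big (.low 9))) (.low 8))) .comp))))) (.dec 5 7 (.emb 3 [0,1,2,3,5,4,7]) (.fresh 5 (.fresh 5
  (.fresh 5 .big (.dec 6 7 (.emb 1 [3,6,7]) (.dec 6 8 (.dec 6 9 (.emb 2 [5,8,6,9]) (.fresh 6 .big
  (.dec 7 8 (.emb 2 [3,6,8,7]) (.dec 7 9 (.emb 4 [0,3,6,7,8,5,9,2]) (.fresh 7 .big (.dec 8 9 (.emb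
  1 [5,8,9]) (.fresh 8 .big (.fresh 9 .big (.low 9))))))))) (.dec 6 9 (.fresh 6 .big (.dec 7 8
  (.emb 4 [0,3,6,7,9,5,8,2]) (.dec 7 9 (.emb 2 [3,6,9,7]) (.fresh 7 .big (.dec 8 9 (.emb 1
  [5,8,9]) (.fresh 8 .big (.low 8))))))) (.fresh 6 .big (.low 6)))))) (.dec 6 7 (.emb 1 [3,6,7])
  (.dec 6 8 (.fresh 6 (.fresh 6 .big (.dec 7 8 (.emb 2 [3,6,8,7]) (.dec 7 9 (.emb 2 [3,6,9,7])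
  (.fresh 7 .big (.dec 8 9 (.emb 1 [6,8,9]) (.fresh 8 .big (.fresh 9 .big (.low 9)))))))) (.dec 7
  8 (.emb 2 [3,6,8,7]) (.fresh 7 (.fresh 7 .big (.dec 8 9 (.emb 6 [7,3,4,9,6,0,1,8,2,5]) (.fresh 8
  .big (.fresh 9 .big (.low 9))))) (.fresh 8 (.fresh 8 .big (.fresh 9 .big (.low 9))) .cap))))
  (.fresh 6 (.fresh 6 .big (.dec 7 8 (.dec 7 9 (.emb 0 [7,8,9,3,4]) (.fresh 7 .big (.dec 8 9 (.emb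
  8 [0,3,6,7,4,8,5,9,2,1]) (.fresh 8 .big (.fresh 9 .big (.low 9)))))) (.dec 7 9 (.emb 2
  [3,6,9,7]) (.fresh 7 .big (.dec 8 9 (.fresh 8 .big .cap) (.fresh 8 .big (.low 8))))))) (.low
  6))))) (.low 5))))

def c10_24 : Ct :=
  (.dec 5 6 (.dec 5 7 (.emb 2 [3,6,5,7]) (.dec 5 8 (.dec 5 9 (.emb 0 [5,8,9,2,6]) (.fresh 5 .big
  (.dec 6 7 (.emb 1 [3,6,7]) (.dec 6 8 (.emb 1 [5,8,6]) (.dec 6 9 (.emb 5 [5,8,4,2,1,6,0,3,9])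
  (.fresh 6 .big (.dec 7 8 (.emb 3 [3,0,7,6,8,2,5]) (.dec 7 9 (.emb 9 [4,9,8,5,6,3,7,2,1,0])
  (.fresh 7 .big (.low 7)))))))))) (.dec 5 9 (.fresh 5 .big (.dec 6 7 (.emb 1 [3,6,7]) (.dec 6 8
  (.emb 5 [5,9,4,2,1,6,0,3,8]) (.dec 6 9 (.emb 1 [5,9,6]) (.fresh 6 .big (.dec 7 8 (.emb 9
  [4,8,9,5,6,3,7,2,1,0]) (.dec 7 9 (.emb 3 [3,0,7,6,9,2,5]) (.fresh 7 .big (.low 7)))))))))
  (.fresh 5 .big (.dec 6 7 (.emb 1 [3,6,7]) (.dec 6 8 (.dec 6 9 (.emb 0 [6,8,9,3,5]) (.fresh 6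
  .big (.dec 7 8 (.emb 2 [3,6,8,7]) (.dec 7 9 (.emb 4 [0,3,6,7,8,4,9,1]) (.fresh 7 .big (.low
  7)))))) (.dec 6 9 (.fresh 6 .big (.dec 7 8 (.emb 4 [0,3,6,7,9,4,8,1]) (.dec 7 9 (.emb 2
  [3,6,9,7]) (.fresh 7 .big (.low 7))))) (.fresh 6 .big (.dec 7 8 (.dec 7 9 (.emb 2 [4,8,7,9])
  (.fresh 7 .big (.dec 8 9 (.emb 1 [4,8,9]) (.fresh 8 .big (.fresh 9 .big (.low 9)))))) (.dec 7 9
  (.fresh 7 .big (.dec 8 9 (.emb 1 [4,8,9]) (.fresh 8 .big (.low 8)))) (.fresh 7 .big (.low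
  7)))))))))))) (.dec 5 7 (.dec 5 8 (.dec 5 9 (.emb 0 [5,8,9,2,7]) (.fresh 5 .big (.dec 6 7 (.emb
  1 [3,6,7]) (.dec 6 8 (.emb 3 [3,0,6,7,8,2,5]) (.dec 6 9 (.emb 9 [4,9,8,5,7,3,6,2,1,0]) (.fresh 6
  .big (.low 6))))))) (.dec 5 9 (.fresh 5 .big (.dec 6 7 (.emb 1 [3,6,7]) (.dec 6 8 (.emb 9
  [4,8,9,5,7,3,6,2,1,0]) (.dec 6 9 (.emb 3 [3,0,6,7,9,2,5]) (.fresh 6 .big (.low 6)))))) (.fresh 5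
  .big (.dec 6 7 (.emb 1 [3,6,7]) (.dec 6 8 (.dec 6 9 (.emb 2 [4,8,6,9]) (.fresh 6 .big (.dec 7 8
  (.emb 2 [3,6,8,7]) (.dec 7 9 (.emb 4 [0,3,6,7,8,4,9,1]) (.fresh 7 .big (.dec 8 9 (.emb 1
  [4,8,9]) (.fresh 8 .big (.fresh 9 .big (.low 9))))))))) (.dec 6 9 (.fresh 6 .big (.dec 7 8 (.emb
  4 [0,3,6,7,9,4,8,1]) (.dec 7 9 (.emb 2 [3,6,9,7]) (.fresh 7 .big (.dec 8 9 (.emb 1 [4,8,9])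
  (.fresh 8 .big (.low 8))))))) (.fresh 6 .big (.low 6)))))))) (.dec 5 8 (.dec 5 9 (.emb 2
  [4,8,5,9]) (.fresh 5 .big (.dec 6 7 (.emb 1 [3,6,7]) (.dec 6 8 (.emb 4 [1,0,2,3,5,8,6,4]) (.dec
  6 9 (.fresh 6 .big (.dec 7 8 (.emb 4 [0,3,6,7,9,4,8,1]) (.dec 7 9 (.emb 2 [3,6,9,7]) (.fresh 7
  .big (.low 7))))) (.fresh 6 .big (.low 6))))))) (.dec 5 9 (.fresh 5 .big (.dec 6 7 (.emb 1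
  [3,6,7]) (.dec 6 8 (.dec 6 9 (.emb 2 [4,8,6,9]) (.fresh 6 .big (.dec 7 8 (.emb 2 [3,6,8,7])
  (.dec 7 9 (.emb 4 [0,3,6,7,8,4,9,1]) (.fresh 7 .big (.low 7)))))) (.dec 6 9 (.emb 4
  [1,0,2,3,5,9,6,4]) (.fresh 6 .big (.low 6)))))) (.fresh 5 .big (.low 5))))))

def c10_25 : Ct :=
  (.dec 5 7 (.dec 5 8 (.fresh 5 (.emb 0 [5,8,9,2,7]) (.dec 6 7 (.emb 1 [3,6,7]) (.dec 6 8 (.emb 3
  [3,0,6,7,8,2,5]) (.fresh 6 (.fresh 6 .big (.dec 7 8 (.emb 1 [5,8,7]) (.dec 7 9 (.emb 2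
  [3,6,9,7]) (.fresh 7 .big (.dec 8 9 (.emb 7 [8,9,6,5,3,2,7,4,1,0]) (.fresh 8 .big (.fresh 9 .big
  (.low 9)))))))) (.low 6))))) (.fresh 5 (.fresh 5 .big (.dec 6 7 (.emb 1 [3,6,7]) (.dec 6 8 (.dec
  6 9 (.emb 3 [3,0,6,7,9,2,5]) (.fresh 6 .big (.dec 7 8 (.emb 2 [3,6,8,7]) (.dec 7 9 (.emb 1
  [5,9,7]) (.fresh 7 .big (.dec 8 9 (.emb 9 [8,4,9,5,2,0,1,7,6,3]) (.fresh 8 .big (.fresh 9 .big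
  (.low 9))))))))) (.dec 6 9 (.emb 3 [3,0,6,7,9,2,5]) (.fresh 6 .big (.low 6)))))) (.dec 6 7 (.emb
  1 [3,6,7]) (.dec 6 8 (.fresh 6 (.fresh 6 .big (.dec 7 8 (.emb 2 [3,6,8,7]) (.dec 7 9 (.emb 2
  [3,6,9,7]) (.fresh 7 .big (.dec 8 9 (.emb 1 [6,8,9]) (.fresh 8 .big (.fresh 9 .big (.low
  9)))))))) (.dec 7 8 (.emb 2 [3,6,8,7]) (.fresh 7 (.fresh 7 .big (.dec 8 9 (.emb 6
  [7,3,5,9,6,0,2,8,1,4]) (.fresh 8 .big (.fresh 9 .big (.low 9))))) (.fresh 8 (.fresh 8 .big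
  (.fresh 9 .big (.low 9))) .cap)))) (.fresh 6 (.fresh 6 .big (.dec 7 8 (.dec 7 9 (.emb 0
  [7,8,9,3,5]) (.fresh 7 .big (.dec 8 9 (.emb 8 [0,3,6,7,5,8,4,9,1,2]) (.fresh 8 .big (.fresh 9
  .big (.low 9)))))) (.dec 7 9 (.emb 2 [3,6,9,7]) (.fresh 7 .big (.dec 8 9 (.fresh 8 .big .cap)
  (.fresh 8 .big (.low 8))))))) (.low 6)))))) (.dec 5 8 (.fresh 5 (.fresh 5 .big (.dec 6 7 (.emb 1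
  [3,6,7]) (.dec 6 8 (.emb 4 [1,0,2,3,5,8,6,4]) (.dec 6 9 (.fresh 6 .big (.dec 7 8 (.emb 4
  [0,3,6,7,9,5,8,2]) (.dec 7 9 (.emb 2 [3,6,9,7]) (.fresh 7 .big (.low 7))))) (.fresh 6 .big (.low
  6)))))) (.dec 6 7 (.emb 1 [3,6,7]) (.dec 6 8 (.emb 4 [1,0,2,3,5,8,6,4]) (.fresh 6 (.fresh 6 .big
  (.dec 7 8 (.emb 4 [1,0,2,3,5,8,7,4]) (.dec 7 9 (.emb 2 [3,6,9,7]) (.fresh 7 .big (.low 7)))))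
  (.low 6))))) (.fresh 5 (.fresh 5 .big (.dec 6 7 (.emb 1 [3,6,7]) (.dec 6 8 (.dec 6 9 (.fresh 6
  .big (.dec 7 8 (.emb 2 [3,6,8,7]) (.dec 7 9 (.emb 2 [3,6,9,7]) (.fresh 7 .big (.low 7)))))
  (.fresh 6 .big (.dec 7 8 (.emb 2 [3,6,8,7]) (.dec 7 9 (.fresh 7 .big (.dec 8 9 (.emb 7
  [0,1,4,3,8,7,6,2,5,9]) (.fresh 8 .big .cap))) (.fresh 7 .big (.low 7)))))) (.dec 6 9 (.fresh 6
  .big (.dec 7 8 (.dec 7 9 (.emb 2 [3,6,9,7]) (.fresh 7 .big (.dec 8 9 (.emb 7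
  [0,1,4,3,8,6,7,2,5,9]) (.fresh 8 .big .cap)))) (.dec 7 9 (.emb 2 [3,6,9,7]) (.fresh 7 .big (.low
  7))))) (.fresh 6 .big (.low 6)))))) (.low 5))))

def c10_26 : Ct :=
  (.dec 4 7 (.fresh 4 (.fresh 4 (.emb 0 [4,8,1,9,7]) (.dec 5 6 (.dec 5 7 (.emb 2 [3,6,5,7]) (.dec
  5 8 (.emb 5 [0,1,4,2,8,3,5,6,7]) (.fresh 5 (.fresh 5 .big (.dec 6 7 (.emb 1 [3,6,7]) (.dec 6 8
  (.emb 3 [3,0,6,7,8,1,4]) (.dec 6 9 (.emb 1 [5,9,6]) (.fresh 6 .big (.dec 7 8 (.emb 1 [4,8,7])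
  (.dec 7 9 (.emb 3 [3,0,7,6,9,2,5]) (.fresh 7 .big (.dec 8 9 (.emb 11 [0,1,4,7,2,3,8,9,6,5])
  (.fresh 8 .big (.low 8))))))))))) (.dec 6 7 (.emb 1 [3,6,7]) (.dec 6 8 (.emb 3 [3,0,6,7,8,1,4])
  (.fresh 6 (.fresh 6 .big (.dec 7 8 (.emb 1 [4,8,7]) (.dec 7 9 (.emb 2 [3,6,9,7]) (.fresh 7 .big
  (.dec 8 9 (.emb 6 [0,3,2,1,7,6,5,4,9,8]) (.fresh 8 .big (.low 8))))))) (.dec 7 8 (.emb 1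
  [4,8,7]) (.fresh 7 (.fresh 7 .big (.dec 8 9 (.emb 2 [4,8,9,7]) (.fresh 8 .big (.low 8))))
  (.fresh 8 (.fresh 8 .big (.fresh 9 .big (.low 9))) (.low 8)))))))))) (.dec 5 7 (.emb 3
  [0,1,2,3,5,4,7]) (.dec 5 8 (.fresh 5 (.fresh 5 .big (.dec 6 7 (.emb 1 [3,6,7]) (.dec 6 8 (.emb 3
  [3,0,6,7,8,1,4]) (.dec 6 9 (.emb 9 [5,9,8,4,7,3,6,1,2,0]) (.fresh 6 .big (.low 6)))))) (.dec 6 7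
  (.emb 1 [3,6,7]) (.dec 6 8 (.emb 3 [3,0,6,7,8,1,4]) (.fresh 6 (.fresh 6 .big (.dec 7 8 (.emb 1
  [4,8,7]) (.dec 7 9 (.emb 2 [3,6,9,7]) (.fresh 7 .big (.dec 8 9 (.emb 7 [8,9,6,4,3,1,7,5,2,0])
  (.fresh 8 .big (.fresh 9 .big (.low 9)))))))) (.low 6))))) (.fresh 5 (.fresh 5 .big (.dec 6 7
  (.emb 1 [3,6,7]) (.dec 6 8 (.emb 3 [3,0,6,7,8,1,4]) (.dec 6 9 (.fresh 6 .big (.dec 7 8 (.emb 1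
  [4,8,7]) (.dec 7 9 (.emb 2 [3,6,9,7]) (.fresh 7 .big (.dec 8 9 (.emb 9 [9,5,8,4,1,0,2,7,6,3])
  (.fresh 8 .big (.low 8))))))) (.fresh 6 .big (.low 6)))))) (.low 5)))))) c10_23) (.fresh 4
  (.fresh 4 (.fresh 4 .big c10_24) (.dec 5 6 (.dec 5 7 (.emb 2 [3,6,5,7]) (.dec 5 8 (.fresh 5
  (.emb 0 [5,8,9,2,6]) (.dec 6 7 (.emb 1 [3,6,7]) (.dec 6 8 (.emb 1 [5,8,6]) (.fresh 6 (.fresh 6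
  .big (.dec 7 8 (.emb 3 [3,0,7,6,8,2,5]) (.dec 7 9 (.emb 2 [3,6,9,7]) (.fresh 7 .big (.low 7)))))
  (.dec 7 8 (.emb 3 [3,0,7,6,8,2,5]) (.fresh 7 (.fresh 7 .big (.dec 8 9 (.emb 7
  [8,9,7,5,3,2,6,4,1,0]) (.fresh 8 .big (.fresh 9 .big (.low 9))))) (.low 7))))))) (.fresh 5
  (.fresh 5 .big (.dec 6 7 (.emb 1 [3,6,7]) (.dec 6 8 (.dec 6 9 (.emb 0 [6,8,9,3,5]) (.fresh 6
  .big (.dec 7 8 (.emb 2 [3,6,8,7]) (.dec 7 9 (.emb 3 [3,0,7,6,9,2,5]) (.fresh 7 .big (.low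
  7)))))) (.dec 6 9 (.emb 1 [5,9,6]) (.fresh 6 .big (.dec 7 8 (.dec 7 9 (.emb 3 [3,0,7,6,9,2,5])
  (.fresh 7 .big (.dec 8 9 (.emb 9 [8,4,9,5,2,0,1,6,7,3]) (.fresh 8 .big (.fresh 9 .big (.low
  9)))))) (.dec 7 9 (.emb 3 [3,0,7,6,9,2,5]) (.fresh 7 .big (.low 7))))))))) (.dec 6 7 (.emb 1
  [3,6,7]) (.dec 6 8 (.fresh 6 (.emb 0 [6,8,9,3,5]) (.dec 7 8 (.emb 2 [3,6,8,7]) (.fresh 7 (.fresh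
  7 .big (.dec 8 9 (.emb 8 [0,3,7,6,5,8,4,9,1,2]) (.fresh 8 .big (.fresh 9 .big (.low 9))))) (.low
  7)))) (.fresh 6 (.fresh 6 .big (.dec 7 8 (.dec 7 9 (.emb 2 [3,6,9,7]) (.fresh 7 .big (.dec 8 9
  (.emb 6 [6,3,5,9,7,0,2,8,1,4]) (.fresh 8 .big (.fresh 9 .big (.low 9)))))) (.dec 7 9 (.emb 2
  [3,6,9,7]) (.fresh 7 .big (.low 7))))) (.dec 7 8 (.fresh 7 (.fresh 7 .big (.dec 8 9 (.emb 1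
  [7,8,9]) (.fresh 8 .big (.fresh 9 .big (.low 9))))) (.fresh 8 (.fresh 8 .big (.fresh 9 .big
  (.low 9))) .cap)) (.fresh 7 (.fresh 7 .big (.dec 8 9 (.fresh 8 .big .cap) (.fresh 8 .big (.low
  8)))) (.low 7))))))))) c10_25)) (.low 4)))

def c10_27 : Ct :=
  (.dec 4 6 (.dec 4 7 (.emb 2 [3,6,4,7]) (.fresh 4 (.fresh 4 (.emb 0 [4,8,1,6,9]) (.dec 5 6 (.emb
  3 [0,1,2,3,5,4,6]) (.dec 5 7 (.dec 5 8 (.emb 5 [0,1,4,2,8,3,5,7,6]) (.fresh 5 (.fresh 5 .big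
  (.dec 6 7 (.emb 1 [3,6,7]) (.dec 6 8 (.emb 1 [4,8,6]) (.dec 6 9 (.emb 3 [3,0,6,7,9,2,5]) (.fresh
  6 .big (.dec 7 8 (.emb 3 [3,0,7,6,8,1,4]) (.dec 7 9 (.emb 1 [5,9,7]) (.fresh 7 .big (.dec 8 9
  (.emb 11 [0,1,4,6,2,3,8,9,7,5]) (.fresh 8 .big (.low 8))))))))))) (.dec 6 7 (.emb 1 [3,6,7])
  (.dec 6 8 (.emb 1 [4,8,6]) (.fresh 6 (.fresh 6 .big (.dec 7 8 (.emb 3 [3,0,7,6,8,1,4]) (.dec 7 9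
  (.emb 2 [3,6,9,7]) (.fresh 7 .big (.dec 8 9 (.emb 2 [4,8,9,6]) (.fresh 8 .big (.low 8)))))))
  (.dec 7 8 (.emb 3 [3,0,7,6,8,1,4]) (.fresh 7 (.fresh 7 .big (.dec 8 9 (.emb 6
  [0,3,2,1,6,7,5,4,9,8]) (.fresh 8 .big (.low 8)))) (.fresh 8 (.fresh 8 .big (.fresh 9 .big (.low
  9))) (.low 8))))))))) (.dec 5 8 (.fresh 5 (.fresh 5 .big (.dec 6 7 (.emb 1 [3,6,7]) (.dec 6 8
  (.emb 1 [4,8,6]) (.dec 6 9 (.emb 5 [4,8,5,1,2,6,0,3,9]) (.fresh 6 .big (.dec 7 8 (.emb 3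
  [3,0,7,6,8,1,4]) (.dec 7 9 (.emb 9 [5,9,8,4,6,3,7,1,2,0]) (.fresh 7 .big (.low 7))))))))) (.dec
  6 7 (.emb 1 [3,6,7]) (.dec 6 8 (.emb 1 [4,8,6]) (.fresh 6 (.fresh 6 .big (.dec 7 8 (.emb 3
  [3,0,7,6,8,1,4]) (.dec 7 9 (.emb 2 [3,6,9,7]) (.fresh 7 .big (.low 7))))) (.dec 7 8 (.emb 3
  [3,0,7,6,8,1,4]) (.fresh 7 (.fresh 7 .big (.dec 8 9 (.emb 7 [8,9,7,4,3,1,6,5,2,0]) (.fresh 8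
  .big (.fresh 9 .big (.low 9))))) (.low 7))))))) (.fresh 5 (.fresh 5 .big (.dec 6 7 (.emb 1
  [3,6,7]) (.dec 6 8 (.emb 1 [4,8,6]) (.dec 6 9 (.fresh 6 .big (.dec 7 8 (.emb 3 [3,0,7,6,8,1,4])
  (.dec 7 9 (.emb 2 [3,6,9,7]) (.fresh 7 .big (.low 7))))) (.fresh 6 .big (.dec 7 8 (.emb 3
  [3,0,7,6,8,1,4]) (.dec 7 9 (.fresh 7 .big (.dec 8 9 (.emb 9 [9,5,8,4,1,0,2,6,7,3]) (.fresh 8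
  .big (.low 8)))) (.fresh 7 .big (.low 7))))))))) (.low 5)))))) (.dec 5 6 (.emb 3
  [0,1,2,3,5,4,6]) c10_22))) c10_26)

def c10_28 : Ct :=
  (.fresh 5 (.fresh 5 (.emb 0 [5,8,9,2,4]) (.dec 6 7 (.dec 6 8 (.emb 5 [4,1,0,7,3,5,6,8,2])
  (.fresh 6 (.fresh 6 .big (.dec 7 8 (.emb 2 [4,5,8,7]) (.dec 7 9 (.emb 1 [6,9,7]) (.fresh 7 .big
  (.dec 8 9 (.emb 9 [6,9,3,0,2,5,8,1,7,4]) (.fresh 8 .big (.low 8))))))) (.dec 7 8 (.emb 2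
  [4,5,8,7]) (.fresh 7 (.fresh 7 .big (.dec 8 9 (.emb 6 [5,4,8,2,1,7,9,0,6,3]) (.fresh 8 .big
  (.low 8)))) (.fresh 8 (.fresh 8 .big (.fresh 9 .big (.low 9))) (.low 8)))))) (.dec 6 8 (.fresh 6
  (.fresh 6 .big (.dec 7 8 (.emb 2 [4,5,8,7]) (.dec 7 9 (.emb 9 [6,9,3,0,1,4,7,2,8,5]) (.fresh 7
  .big (.low 7))))) (.dec 7 8 (.emb 2 [4,5,8,7]) (.fresh 7 (.fresh 7 .big (.dec 8 9 (.emb 6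
  [4,5,7,1,2,8,9,0,6,3]) (.fresh 8 .big (.fresh 9 .big (.low 9))))) (.low 7)))) (.fresh 6 (.fresh
  6 .big (.dec 7 8 (.emb 2 [4,5,8,7]) (.dec 7 9 (.fresh 7 .big (.dec 8 9 (.emb 11
  [4,1,0,2,7,5,3,6,8,9]) (.fresh 8 .big (.low 8)))) (.fresh 7 .big (.low 7))))) (.low 6))))) (.dec
  6 7 (.fresh 6 (.fresh 6 (.emb 0 [6,8,9,3,7]) (.dec 7 8 (.emb 1 [6,8,7]) (.fresh 7 (.fresh 7 .big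
  (.dec 8 9 (.emb 2 [6,8,9,7]) (.fresh 8 .big (.low 8)))) (.fresh 8 (.fresh 8 .big (.fresh 9 .big
  (.low 9))) (.low 8))))) (.fresh 7 (.fresh 7 (.emb 0 [7,8,9,4,6]) (.fresh 8 (.fresh 8 .big
  (.fresh 9 .big (.low 9))) (.low 8))) .comp)) (.fresh 6 (.fresh 6 (.fresh 6 .big (.dec 7 8 (.dec
  7 9 (.emb 2 [6,8,7,9]) (.fresh 7 .big (.dec 8 9 (.emb 1 [6,8,9]) (.fresh 8 .big (.fresh 9 .big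
  (.low 9)))))) (.dec 7 9 (.fresh 7 .big (.dec 8 9 (.emb 1 [6,8,9]) (.fresh 8 .big (.low 8))))
  (.fresh 7 .big (.low 7))))) (.dec 7 8 (.fresh 7 (.fresh 7 .big (.dec 8 9 (.emb 1 [7,8,9])
  (.fresh 8 .big (.fresh 9 .big (.low 9))))) (.fresh 8 (.fresh 8 .big (.fresh 9 .big (.low 9)))
  .cap)) (.fresh 7 (.fresh 7 .big (.dec 8 9 (.fresh 8 .big .cap) (.fresh 8 .big (.low 8)))) (.low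
  7)))) (.low 6))))

def c10_29 : Ct :=
  (.dec 5 7 (.fresh 5 (.fresh 5 (.emb 0 [5,8,9,2,7]) (.dec 6 7 (.emb 1 [4,6,7]) (.dec 6 8 (.emb 5
  [4,1,0,7,2,6,5,8,3]) (.fresh 6 (.fresh 6 .big (.dec 7 8 (.emb 1 [5,8,7]) (.dec 7 9 (.emb 2
  [4,6,9,7]) (.fresh 7 .big (.dec 8 9 (.emb 9 [5,8,2,0,3,6,9,1,7,4]) (.fresh 8 .big (.low 8)))))))
  (.dec 7 8 (.emb 1 [5,8,7]) (.fresh 7 (.fresh 7 .big (.dec 8 9 (.emb 2 [5,8,9,7]) (.fresh 8 .big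
  (.low 8)))) (.fresh 8 (.fresh 8 .big (.fresh 9 .big (.low 9))) (.low 8)))))))) (.dec 6 7 (.emb 1
  [4,6,7]) (.fresh 6 (.fresh 6 (.emb 0 [6,8,9,3,4]) (.dec 7 8 (.emb 2 [4,6,8,7]) (.fresh 7 (.fresh
  7 .big (.dec 8 9 (.emb 6 [6,4,8,3,1,7,9,0,5,2]) (.fresh 8 .big (.low 8)))) (.fresh 8 (.fresh 8
  .big (.fresh 9 .big (.low 9))) (.low 8))))) (.fresh 7 (.fresh 7 (.emb 0 [7,8,9,4,5]) (.fresh 8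
  (.fresh 8 .big (.fresh 9 .big (.low 9))) (.low 8))) .comp)))) (.fresh 5 (.fresh 5 (.fresh 5 .big
  (.dec 6 7 (.emb 1 [4,6,7]) (.dec 6 8 (.dec 6 9 (.emb 0 [6,8,9,3,4]) (.fresh 6 .big (.dec 7 8
  (.emb 2 [4,6,8,7]) (.dec 7 9 (.emb 9 [5,9,2,0,1,4,7,3,8,6]) (.fresh 7 .big (.low 7)))))) (.dec 6
  9 (.fresh 6 .big (.dec 7 8 (.emb 9 [5,8,2,0,1,4,7,3,9,6]) (.dec 7 9 (.emb 2 [4,6,9,7]) (.fresh 7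
  .big (.low 7))))) (.fresh 6 .big (.dec 7 8 (.dec 7 9 (.emb 2 [5,8,7,9]) (.fresh 7 .big (.dec 8 9
  (.emb 1 [5,8,9]) (.fresh 8 .big (.fresh 9 .big (.low 9)))))) (.dec 7 9 (.fresh 7 .big (.dec 8 9
  (.emb 1 [5,8,9]) (.fresh 8 .big (.low 8)))) (.fresh 7 .big (.low 7))))))))) (.dec 6 7 (.emb 1
  [4,6,7]) (.dec 6 8 (.fresh 6 (.emb 0 [6,8,9,3,4]) (.dec 7 8 (.emb 2 [4,6,8,7]) (.fresh 7 (.fresh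
  7 .big (.dec 8 9 (.emb 6 [4,6,7,1,3,8,9,0,5,2]) (.fresh 8 .big (.fresh 9 .big (.low 9))))) (.low
  7)))) (.fresh 6 (.fresh 6 .big (.dec 7 8 (.dec 7 9 (.emb 2 [4,6,9,7]) (.fresh 7 .big (.dec 8 9
  (.emb 11 [4,1,0,3,7,6,2,5,9,8]) (.fresh 8 .big (.fresh 9 .big (.low 9)))))) (.dec 7 9 (.emb 2
  [4,6,9,7]) (.fresh 7 .big (.low 7))))) (.dec 7 8 (.fresh 7 (.fresh 7 .big (.dec 8 9 (.emb 1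
  [7,8,9]) (.fresh 8 .big (.fresh 9 .big (.low 9))))) (.fresh 8 (.fresh 8 .big (.fresh 9 .big
  (.low 9))) .cap)) (.fresh 7 (.fresh 7 .big (.dec 8 9 (.fresh 8 .big .cap) (.fresh 8 .big (.low
  8)))) (.low 7))))))) (.low 5)))

def c10_30 : Ct :=
  (.dec 5 7 (.dec 5 8 (.emb 0 [5,8,2,6,7]) (.fresh 5 (.emb 0 [5,9,2,6,7]) (.dec 6 7 (.emb 1
  [5,6,7]) (.dec 6 8 (.emb 5 [5,2,0,7,1,6,4,8,3]) (.fresh 6 (.fresh 6 .big (.dec 7 8 (.emb 1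
  [4,8,7]) (.dec 7 9 (.emb 2 [5,6,9,7]) (.fresh 7 .big (.dec 8 9 (.emb 9 [4,8,1,0,3,6,9,2,7,5])
  (.fresh 8 .big (.low 8))))))) (.dec 7 8 (.emb 1 [4,8,7]) (.fresh 7 (.fresh 7 .big (.dec 8 9
  (.emb 2 [4,8,9,7]) (.fresh 8 .big (.low 8)))) (.fresh 8 (.fresh 8 .big (.fresh 9 .big (.low 9)))
  (.low 8))))))))) (.dec 5 8 (.fresh 5 (.emb 0 [5,8,9,2,6]) (.dec 6 7 (.emb 5 [5,8,4,2,1,6,0,3,7])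
  (.dec 6 8 (.emb 1 [5,8,6]) (.fresh 6 (.fresh 6 .big (.dec 7 8 (.emb 1 [4,8,7]) (.dec 7 9 (.emb 9
  [4,7,1,0,3,6,9,2,8,5]) (.fresh 7 .big (.low 7))))) (.dec 7 8 (.emb 1 [4,8,7]) (.fresh 7 (.fresh
  7 .big (.dec 8 9 (.emb 2 [4,8,9,7]) (.fresh 8 .big (.fresh 9 .big (.low 9))))) (.low 7)))))))
  (.fresh 5 (.fresh 5 .big (.dec 6 7 (.dec 6 8 (.emb 0 [6,8,3,5,7]) (.dec 6 9 (.emb 0 [6,9,3,5,7])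
  (.fresh 6 .big (.dec 7 8 (.emb 1 [4,8,7]) (.dec 7 9 (.emb 2 [5,9,7,6]) (.fresh 7 .big (.dec 8 9
  (.emb 9 [4,8,1,0,2,5,9,3,7,6]) (.fresh 8 .big (.low 8))))))))) (.dec 6 8 (.dec 6 9 (.emb 0
  [6,8,9,3,5]) (.fresh 6 .big (.dec 7 8 (.emb 1 [4,8,7]) (.dec 7 9 (.emb 9 [4,7,1,0,2,5,9,3,8,6])
  (.fresh 7 .big (.low 7)))))) (.dec 6 9 (.emb 1 [5,9,6]) (.fresh 6 .big (.dec 7 8 (.emb 1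
  [4,8,7]) (.dec 7 9 (.fresh 7 .big (.dec 8 9 (.emb 2 [4,8,9,7]) (.fresh 8 .big (.low 8))))
  (.fresh 7 .big (.low 7))))))))) (.dec 6 7 (.dec 6 8 (.emb 0 [6,8,3,5,7]) (.fresh 6 (.emb 0
  [6,9,3,5,7]) (.dec 7 8 (.emb 1 [4,8,7]) (.fresh 7 (.fresh 7 .big (.dec 8 9 (.emb 2 [4,8,9,7])
  (.fresh 8 .big (.low 8)))) (.fresh 8 (.fresh 8 .big (.fresh 9 .big (.low 9))) (.low 8))))))
  (.dec 6 8 (.fresh 6 (.emb 0 [6,8,9,3,5]) (.dec 7 8 (.emb 1 [4,8,7]) (.fresh 7 (.fresh 7 .big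
  (.dec 8 9 (.emb 2 [4,8,9,7]) (.fresh 8 .big (.fresh 9 .big (.low 9))))) (.low 7)))) (.fresh 6
  (.fresh 6 .big (.dec 7 8 (.emb 1 [4,8,7]) (.dec 7 9 (.fresh 7 .big (.dec 8 9 (.emb 2 [4,8,9,7])
  (.fresh 8 .big (.low 8)))) (.fresh 7 .big (.low 7))))) (.dec 7 8 (.emb 1 [4,8,7]) (.fresh 7
  (.fresh 7 .big (.dec 8 9 (.emb 2 [4,8,9,7]) (.fresh 8 .big (.low 8)))) (.low 7)))))))))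

def c10_31 : Ct :=
  (.dec 5 8 (.fresh 5 (.fresh 5 .big (.dec 6 7 (.dec 6 8 (.emb 2 [4,8,6,7]) (.dec 6 9 (.emb 12
  [1,0,2,5,8,4,7,3,9,6]) (.fresh 6 .big (.dec 7 8 (.emb 1 [4,8,7]) (.dec 7 9 (.emb 9
  [0,3,2,5,9,7,6,8,1,4]) (.fresh 7 .big (.dec 8 9 (.emb 1 [5,8,9]) (.fresh 8 .big (.fresh 9 .big
  (.low 9)))))))))) (.dec 6 8 (.emb 4 [1,0,2,3,5,8,6,4]) (.dec 6 9 (.fresh 6 .big (.dec 7 8 (.emb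
  1 [4,8,7]) (.dec 7 9 (.emb 9 [0,3,1,4,7,9,6,8,2,5]) (.fresh 7 .big (.low 7))))) (.fresh 6 .big
  (.low 6)))))) (.dec 6 7 (.dec 6 8 (.emb 2 [4,8,6,7]) (.fresh 6 (.fresh 6 .big (.dec 7 8 (.emb 1
  [4,8,7]) (.dec 7 9 (.emb 1 [6,9,7]) (.fresh 7 .big (.dec 8 9 (.emb 9 [0,2,3,6,9,8,5,7,1,4])
  (.fresh 8 .big (.fresh 9 .big (.low 9)))))))) (.dec 7 8 (.emb 1 [4,8,7]) (.fresh 7 (.fresh 7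
  .big (.dec 8 9 (.emb 2 [4,8,9,7]) (.fresh 8 .big (.fresh 9 .big (.low 9))))) (.fresh 8 (.fresh 8
  .big (.fresh 9 .big (.low 9))) .cap))))) (.dec 6 8 (.emb 4 [1,0,2,3,5,8,6,4]) (.fresh 6 (.fresh
  6 .big (.dec 7 8 (.emb 1 [4,8,7]) (.dec 7 9 (.fresh 7 .big (.dec 8 9 (.emb 2 [4,8,9,7]) (.fresh
  8 .big .cap))) (.fresh 7 .big (.low 7))))) (.low 6))))) (.fresh 5 (.fresh 5 .big (.dec 6 7 (.dec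
  6 8 (.emb 2 [4,8,6,7]) (.dec 6 9 (.fresh 6 .big (.dec 7 8 (.emb 1 [4,8,7]) (.dec 7 9 (.emb 1
  [6,9,7]) (.fresh 7 .big (.dec 8 9 (.emb 9 [0,2,1,4,8,9,5,7,3,6]) (.fresh 8 .big (.low 8)))))))
  (.fresh 6 .big (.dec 7 8 (.emb 1 [4,8,7]) (.dec 7 9 (.fresh 7 .big (.dec 8 9 (.emb 2 [4,8,9,7])
  (.fresh 8 .big (.low 8)))) (.fresh 7 .big (.dec 8 9 (.fresh 8 .big .cap) (.fresh 8 .big (.low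
  8))))))))) (.dec 6 8 (.dec 6 9 (.fresh 6 .big (.dec 7 8 (.emb 1 [4,8,7]) (.dec 7 9 (.emb 9
  [0,2,1,4,7,9,5,8,3,6]) (.fresh 7 .big (.low 7))))) (.fresh 6 .big (.dec 7 8 (.emb 1 [4,8,7])
  (.dec 7 9 (.fresh 7 .big (.dec 8 9 (.emb 2 [4,8,9,7]) (.fresh 8 .big .cap))) (.fresh 7 .big
  (.low 7)))))) (.dec 6 9 (.fresh 6 .big (.dec 7 8 (.emb 1 [4,8,7]) (.dec 7 9 (.fresh 7 .big (.dec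
  8 9 (.emb 0 [9,8,5,6,7]) (.fresh 8 .big (.low 8)))) (.fresh 7 .big (.low 7))))) (.fresh 6 .big
  (.low 6)))))) (.low 5)))

def c10_32 : Ct :=
  (.dec 5 7 (.fresh 5 (.emb 0 [5,8,2,6,7]) (.dec 6 7 (.emb 1 [5,6,7]) (.fresh 6 (.fresh 6 (.emb 0
  [6,8,9,3,5]) (.dec 7 8 (.emb 2 [5,6,8,7]) (.fresh 7 (.fresh 7 .big (.dec 8 9 (.emb 6
  [6,5,8,3,2,7,9,0,4,1]) (.fresh 8 .big (.low 8)))) (.fresh 8 (.fresh 8 .big (.fresh 9 .big (.low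
  9))) (.low 8))))) (.fresh 7 (.fresh 7 (.emb 0 [7,8,9,4,5]) (.fresh 8 (.fresh 8 .big (.fresh 9
  .big (.low 9))) (.low 8))) .comp)))) (.fresh 5 (.fresh 5 (.emb 0 [5,8,9,2,6]) (.dec 6 7 (.dec 6
  8 (.emb 0 [6,8,3,5,7]) (.fresh 6 (.emb 0 [6,9,3,5,7]) (.dec 7 8 (.emb 2 [5,8,7,6]) (.fresh 7
  (.fresh 7 .big (.dec 8 9 (.emb 6 [5,6,8,2,3,7,9,0,4,1]) (.fresh 8 .big (.low 8)))) (.fresh 8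
  (.fresh 8 .big (.fresh 9 .big (.low 9))) (.low 8)))))) (.dec 6 8 (.emb 1 [5,8,6]) (.fresh 6
  (.fresh 6 .big (.dec 7 8 (.dec 7 9 (.emb 11 [5,8,7,9,2,6,4,1,3,0]) (.fresh 7 .big (.dec 8 9
  (.emb 2 [5,8,9,6]) (.fresh 8 .big (.fresh 9 .big (.low 9)))))) (.dec 7 9 (.fresh 7 .big (.dec 8
  9 (.emb 2 [5,8,9,6]) (.fresh 8 .big (.low 8)))) (.fresh 7 .big (.low 7))))) (.dec 7 8 (.fresh 7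
  (.fresh 7 .big (.dec 8 9 (.emb 1 [7,8,9]) (.fresh 8 .big (.fresh 9 .big (.low 9))))) (.fresh 8
  (.fresh 8 .big (.fresh 9 .big (.low 9))) .cap)) (.fresh 7 (.fresh 7 .big (.dec 8 9 (.fresh 8
  .big .cap) (.fresh 8 .big (.low 8)))) (.low 7))))))) (.dec 6 7 (.fresh 6 (.emb 0 [6,8,3,5,7])
  (.fresh 7 (.fresh 7 (.emb 0 [7,8,9,4,6]) (.fresh 8 (.fresh 8 .big (.fresh 9 .big (.low 9)))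
  (.low 8))) .comp)) (.fresh 6 (.fresh 6 (.emb 0 [6,8,9,3,5]) (.dec 7 8 (.fresh 7 (.fresh 7 .big
  (.dec 8 9 (.emb 1 [7,8,9]) (.fresh 8 .big (.fresh 9 .big (.low 9))))) (.fresh 8 (.fresh 8 .big
  (.fresh 9 .big (.low 9))) .cap)) (.fresh 7 (.fresh 7 .big (.dec 8 9 (.fresh 8 .big .cap) (.fresh
  8 .big (.low 8)))) (.low 7)))) (.fresh 7 (.fresh 7 (.fresh 7 .big (.dec 8 9 (.emb 1 [7,8,9])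
  (.fresh 8 .big (.low 8)))) .cap) (.low 7))))))

def c10_33 : Ct :=
  (.fresh 5 (.fresh 5 .big (.dec 6 7 (.dec 6 8 (.dec 6 9 (.emb 0 [6,8,9,3,7]) (.fresh 6 .big (.dec
  7 8 (.emb 1 [6,8,7]) (.dec 7 9 (.emb 9 [0,1,2,5,9,7,4,8,3,6]) (.fresh 7 .big (.dec 8 9 (.emb 1
  [5,8,9]) (.fresh 8 .big (.fresh 9 .big (.low 9))))))))) (.dec 6 9 (.fresh 6 .big (.dec 7 8 (.emb
  9 [0,1,2,5,8,7,4,9,3,6]) (.dec 7 9 (.emb 1 [6,9,7]) (.fresh 7 .big (.dec 8 9 (.emb 1 [5,8,9])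
  (.fresh 8 .big (.low 8))))))) (.fresh 6 .big (.dec 7 8 (.dec 7 9 (.emb 0 [7,8,9,4,6]) (.fresh 7
  .big (.dec 8 9 (.emb 1 [5,8,9]) (.fresh 8 .big (.fresh 9 .big (.low 9)))))) (.dec 7 9 (.fresh 7
  .big (.dec 8 9 (.emb 1 [5,8,9]) (.fresh 8 .big (.low 8)))) (.fresh 7 .big (.dec 8 9 (.emb 1
  [5,8,9]) (.fresh 8 .big (.low 8))))))))) (.dec 6 8 (.dec 6 9 (.emb 2 [5,8,6,9]) (.fresh 6 .big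
  (.dec 7 8 (.dec 7 9 (.emb 2 [5,8,7,9]) (.fresh 7 .big (.dec 8 9 (.emb 0 [8,9,5,6,7]) (.fresh 8
  .big (.fresh 9 .big (.low 9)))))) (.dec 7 9 (.fresh 7 .big (.dec 8 9 (.emb 1 [5,8,9]) (.fresh 8
  .big .cap))) (.fresh 7 .big (.low 7)))))) (.dec 6 9 (.fresh 6 .big (.dec 7 8 (.dec 7 9 (.emb 2
  [5,8,7,9]) (.fresh 7 .big (.dec 8 9 (.emb 1 [5,8,9]) (.fresh 8 .big .cap)))) (.dec 7 9 (.fresh 7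
  .big (.dec 8 9 (.emb 0 [9,8,5,6,7]) (.fresh 8 .big (.low 8)))) (.fresh 7 .big (.low 7)))))
  (.fresh 6 .big (.low 6)))))) (.dec 6 7 (.dec 6 8 (.fresh 6 (.emb 0 [6,8,9,3,7]) (.dec 7 8 (.emb
  1 [6,8,7]) (.fresh 7 (.fresh 7 .big (.dec 8 9 (.emb 2 [6,8,9,7]) (.fresh 8 .big (.fresh 9 .big
  (.low 9))))) (.fresh 8 (.fresh 8 .big (.fresh 9 .big (.low 9))) .cap)))) (.fresh 6 (.fresh 6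
  .big (.dec 7 8 (.dec 7 9 (.emb 0 [7,8,9,4,6]) (.fresh 7 .big (.dec 8 9 (.emb 2 [6,9,8,7])
  (.fresh 8 .big (.fresh 9 .big (.low 9)))))) (.dec 7 9 (.emb 1 [6,9,7]) (.fresh 7 .big (.dec 8 9
  (.fresh 8 .big .cap) (.fresh 8 .big (.low 8))))))) (.dec 7 8 (.fresh 7 (.emb 0 [7,8,9,4,6])
  (.fresh 8 (.fresh 8 .big (.fresh 9 .big (.low 9))) .cap)) (.fresh 7 (.fresh 7 .big (.dec 8 9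
  (.fresh 8 .big .cap) (.fresh 8 .big (.low 8)))) .cap)))) (.dec 6 8 (.fresh 6 (.fresh 6 .big
  (.dec 7 8 (.dec 7 9 (.emb 2 [6,8,7,9]) (.fresh 7 .big (.dec 8 9 (.emb 0 [8,9,5,6,7]) (.fresh 8
  .big (.fresh 9 .big (.low 9)))))) (.dec 7 9 (.fresh 7 .big (.dec 8 9 (.emb 1 [6,8,9]) (.fresh 8
  .big .cap))) (.fresh 7 .big (.low 7))))) (.dec 7 8 (.fresh 7 (.fresh 7 .big (.dec 8 9 (.emb 0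
  [8,9,5,6,7]) (.fresh 8 .big (.fresh 9 .big (.low 9))))) .cap) (.fresh 7 (.fresh 7 .big .cap)
  (.low 7)))) (.fresh 6 (.fresh 6 .big (.dec 7 8 (.dec 7 9 (.fresh 7 .big (.dec 8 9 (.emb 1
  [7,8,9]) (.fresh 8 .big .cap))) (.fresh 7 .big .cap)) (.dec 7 9 (.fresh 7 .big .cap) (.fresh 7
  .big (.low 7))))) (.low 6)))))

def c10_34 : Ct :=
  (.fresh 4 (.fresh 4 (.emb 0 [4,8,1,9,7]) (.dec 5 6 c10_30 (.dec 5 7 (.dec 5 8 (.emb 2 [4,8,5,7])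
  (.fresh 5 (.fresh 5 .big (.dec 6 7 (.emb 4 [1,0,2,3,5,7,6,4]) (.dec 6 8 (.dec 6 9 (.emb 12
  [1,0,2,5,7,4,8,3,9,6]) (.fresh 6 .big (.dec 7 8 (.emb 1 [4,8,7]) (.dec 7 9 (.emb 1 [5,9,7])
  (.fresh 7 .big (.dec 8 9 (.emb 9 [0,3,2,5,9,8,6,7,1,4]) (.fresh 8 .big (.fresh 9 .big (.low
  9))))))))) (.dec 6 9 (.fresh 6 .big (.dec 7 8 (.emb 1 [4,8,7]) (.dec 7 9 (.emb 1 [5,9,7])
  (.fresh 7 .big (.dec 8 9 (.emb 9 [0,3,1,4,8,9,6,7,2,5]) (.fresh 8 .big (.low 8))))))) (.fresh 6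
  .big (.low 6)))))) (.dec 6 7 (.emb 4 [1,0,2,3,5,7,6,4]) (.dec 6 8 (.fresh 6 (.fresh 6 .big (.dec
  7 8 (.emb 1 [4,8,7]) (.dec 7 9 (.emb 9 [0,2,3,6,9,7,5,8,1,4]) (.fresh 7 .big (.dec 8 9 (.emb 1
  [6,8,9]) (.fresh 8 .big (.fresh 9 .big (.low 9)))))))) (.dec 7 8 (.emb 1 [4,8,7]) (.fresh 7
  (.fresh 7 .big (.dec 8 9 (.emb 2 [4,8,9,7]) (.fresh 8 .big (.fresh 9 .big (.low 9))))) (.fresh 8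
  (.fresh 8 .big (.fresh 9 .big (.low 9))) .cap)))) (.fresh 6 (.fresh 6 .big (.dec 7 8 (.emb 1
  [4,8,7]) (.dec 7 9 (.fresh 7 .big (.dec 8 9 (.emb 2 [4,8,9,7]) (.fresh 8 .big (.low 8))))
  (.fresh 7 .big (.dec 8 9 (.fresh 8 .big .cap) (.fresh 8 .big (.low 8))))))) (.low 6))))))
  c10_31))) (.dec 5 6 c10_32 (.dec 5 7 (.fresh 5 (.fresh 5 (.emb 0 [5,8,9,2,7]) (.dec 6 7 (.emb 4
  [1,0,2,3,5,7,6,4]) (.dec 6 8 (.fresh 6 (.fresh 6 .big (.dec 7 8 (.emb 1 [5,8,7]) (.dec 7 9 (.emb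
  9 [0,1,3,6,9,7,4,8,2,5]) (.fresh 7 .big (.dec 8 9 (.emb 1 [6,8,9]) (.fresh 8 .big (.fresh 9 .big
  (.low 9)))))))) (.dec 7 8 (.emb 1 [5,8,7]) (.fresh 7 (.fresh 7 .big (.dec 8 9 (.emb 2 [5,8,9,7])
  (.fresh 8 .big (.fresh 9 .big (.low 9))))) (.fresh 8 (.fresh 8 .big (.fresh 9 .big (.low 9)))
  .cap)))) (.fresh 6 (.fresh 6 .big (.dec 7 8 (.emb 1 [5,8,7]) (.dec 7 9 (.fresh 7 .big (.dec 8 9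
  (.emb 2 [5,8,9,7]) (.fresh 8 .big (.low 8)))) (.fresh 7 .big (.dec 8 9 (.fresh 8 .big .cap)
  (.fresh 8 .big (.low 8))))))) (.low 6))))) (.dec 6 7 (.emb 4 [1,0,2,3,5,7,6,4]) (.fresh 6
  (.fresh 6 (.fresh 6 .big (.dec 7 8 (.dec 7 9 (.emb 0 [7,8,9,4,5]) (.fresh 7 .big (.dec 8 9 (.emb
  1 [6,8,9]) (.fresh 8 .big (.fresh 9 .big (.low 9)))))) (.dec 7 9 (.fresh 7 .big (.dec 8 9 (.emb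
  1 [6,8,9]) (.fresh 8 .big (.low 8)))) (.fresh 7 .big (.dec 8 9 (.emb 1 [6,8,9]) (.fresh 8 .big
  (.low 8))))))) (.dec 7 8 (.fresh 7 (.emb 0 [7,8,9,4,5]) (.fresh 8 (.fresh 8 .big (.fresh 9 .big
  (.low 9))) .cap)) (.fresh 7 (.fresh 7 .big (.dec 8 9 (.fresh 8 .big .cap) (.fresh 8 .big (.low
  8)))) .cap))) (.low 6)))) (.fresh 5 c10_33 (.low 5)))))

def c10_35 : Ct :=
  (.dec 4 5 (.dec 4 6 (.emb 3 [0,2,3,1,6,5,4]) (.fresh 4 (.fresh 4 (.emb 0 [4,8,1,5,7]) (.dec 5 6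
  (.emb 3 [0,1,3,2,6,4,5]) (.dec 5 7 (.emb 1 [4,5,7]) c10_28))) (.dec 5 6 (.emb 3 [0,1,3,2,6,4,5])
  (.fresh 5 (.fresh 5 (.emb 0 [5,8,2,4,7]) (.dec 6 7 (.fresh 6 (.fresh 6 (.emb 0 [6,8,9,3,7])
  (.dec 7 8 (.emb 1 [6,8,7]) (.fresh 7 (.fresh 7 .big (.dec 8 9 (.emb 2 [6,8,9,7]) (.fresh 8 .big
  (.low 8)))) (.fresh 8 (.fresh 8 .big (.fresh 9 .big (.low 9))) (.low 8))))) (.fresh 7 (.fresh 7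
  (.emb 0 [7,8,9,5,6]) (.fresh 8 (.fresh 8 .big (.fresh 9 .big (.low 9))) (.low 8))) .comp))
  (.fresh 6 (.fresh 6 (.fresh 6 .big (.dec 7 8 (.dec 7 9 (.emb 2 [6,8,7,9]) (.fresh 7 .big (.dec 8
  9 (.emb 1 [6,8,9]) (.fresh 8 .big (.fresh 9 .big (.low 9)))))) (.dec 7 9 (.fresh 7 .big (.dec 8
  9 (.emb 1 [6,8,9]) (.fresh 8 .big (.low 8)))) (.fresh 7 .big (.low 7))))) (.dec 7 8 (.fresh 7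
  (.fresh 7 .big (.dec 8 9 (.emb 1 [7,8,9]) (.fresh 8 .big (.fresh 9 .big (.low 9))))) (.fresh 8
  (.fresh 8 .big (.fresh 9 .big (.low 9))) .cap)) (.fresh 7 (.fresh 7 .big (.dec 8 9 (.fresh 8
  .big .cap) (.fresh 8 .big (.low 8)))) (.low 7)))) (.low 6)))) (.fresh 6 (.fresh 6 (.fresh 6
  (.emb 0 [6,8,9,3,7]) (.dec 7 8 (.emb 1 [6,8,7]) (.fresh 7 (.fresh 7 .big (.dec 8 9 (.emb 2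
  [6,8,9,7]) (.fresh 8 .big (.low 8)))) (.low 7)))) (.fresh 7 (.fresh 7 (.fresh 7 .big (.dec 8 9
  (.emb 1 [7,8,9]) (.fresh 8 .big (.low 8)))) .cap) (.low 7))) (.low 6)))))) (.dec 4 6 (.fresh 4
  (.fresh 4 (.emb 0 [4,8,1,6,7]) (.dec 5 6 (.emb 3 [0,1,2,3,5,4,6]) c10_29)) (.dec 5 6 (.emb 3
  [0,1,2,3,5,4,6]) (.fresh 5 (.fresh 5 (.fresh 5 (.emb 0 [5,8,9,2,7]) (.dec 6 7 (.dec 6 8 (.emb 0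
  [6,8,3,4,7]) (.fresh 6 (.emb 0 [6,9,3,4,7]) (.dec 7 8 (.emb 1 [5,8,7]) (.fresh 7 (.fresh 7 .big
  (.dec 8 9 (.emb 2 [5,8,9,7]) (.fresh 8 .big (.low 8)))) (.fresh 8 (.fresh 8 .big (.fresh 9 .big
  (.low 9))) (.low 8)))))) (.dec 6 8 (.fresh 6 (.emb 0 [6,8,9,3,4]) (.dec 7 8 (.emb 1 [5,8,7])
  (.fresh 7 (.fresh 7 .big (.dec 8 9 (.emb 2 [5,8,9,7]) (.fresh 8 .big (.fresh 9 .big (.low 9)))))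
  (.low 7)))) (.fresh 6 (.fresh 6 .big (.dec 7 8 (.emb 1 [5,8,7]) (.dec 7 9 (.fresh 7 .big (.dec 8
  9 (.emb 2 [5,8,9,7]) (.fresh 8 .big (.low 8)))) (.fresh 7 .big (.low 7))))) (.dec 7 8 (.emb 1
  [5,8,7]) (.fresh 7 (.fresh 7 .big (.dec 8 9 (.emb 2 [5,8,9,7]) (.fresh 8 .big (.low 8)))) (.low
  7))))))) (.dec 6 7 (.fresh 6 (.emb 0 [6,8,3,4,7]) (.fresh 7 (.fresh 7 (.emb 0 [7,8,9,5,6])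
  (.fresh 8 (.fresh 8 .big (.fresh 9 .big (.low 9))) (.low 8))) .comp)) (.fresh 6 (.fresh 6 (.emb
  0 [6,8,9,3,4]) (.dec 7 8 (.fresh 7 (.fresh 7 .big (.dec 8 9 (.emb 1 [7,8,9]) (.fresh 8 .big
  (.fresh 9 .big (.low 9))))) (.fresh 8 (.fresh 8 .big (.fresh 9 .big (.low 9))) .cap)) (.fresh 7
  (.fresh 7 .big (.dec 8 9 (.fresh 8 .big .cap) (.fresh 8 .big (.low 8)))) (.low 7)))) (.fresh 7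
  (.fresh 7 (.fresh 7 .big (.dec 8 9 (.emb 1 [7,8,9]) (.fresh 8 .big (.low 8)))) .cap) (.low
  7))))) (.low 5)))) (.fresh 4 c10_34 (.low 4))))

def cert10 : Ct :=
  (.fresh 0 (.fresh 0 (.fresh 0 (.fresh 0 (.emb 0 [0,1,2,3,4]) (.dec 1 2 (.emb 1 [0,1,2]) (.dec 1
  3 (.emb 1 [0,1,3]) (.fresh 1 (.fresh 1 (.fresh 1 (.emb 0 [1,0,4,5,6]) (.dec 2 3 (.emb 1 [0,2,3])
  (.dec 2 4 (.emb 2 [0,1,4,2]) (.dec 2 5 (.emb 2 [0,1,5,2]) (.fresh 2 c10_11 (.low 2)))))) (.dec 2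
  3 (.emb 1 [0,2,3]) (.dec 2 4 (.emb 2 [0,1,4,2]) (.fresh 2 (.fresh 2 (.fresh 2 (.emb 0
  [2,0,5,6,7]) (.dec 3 4 (.emb 2 [0,1,4,3]) (.dec 3 5 (.emb 2 [0,2,5,3]) (.dec 3 6 (.emb 2
  [0,2,6,3]) (.fresh 3 c10_20 (.low 3)))))) (.dec 3 4 (.emb 2 [0,1,4,3]) (.dec 3 5 (.emb 2
  [0,2,5,3]) (.fresh 3 (.fresh 3 (.fresh 3 (.emb 0 [3,0,8,6,7]) (.dec 4 5 (.dec 4 6 (.emb 3
  [0,2,3,1,6,5,4]) (.dec 4 7 (.emb 3 [0,2,3,1,7,5,4]) c10_21)) c10_27)) c10_35) (.low 3))))) (.low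
  2))))) (.low 1))))) (.low 0)) (.low 0)) (.low 0))

theorem cert10_ok : check gB 10 3 cfgs cert10 1 [] [] [] = true := by decide +kernel

end Pool.Agent.TH372.BFR
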