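import Pool.Agent.TH372.BFR.Cap3

set_option autoImplicit false

/-! Search tree for twelve vertices. -/

namespace Pool.Agent.TH372.BFR

/-- the excluded configurations -/
def cfgs12 : List (ℕ × Prs) := [
  (5, [(0, 1), (0, 2), (0, 3), (0, 4)]),
  (3, [(0, 1), (1, 2), (2, 0)]),
  (4, [(0, 1), (1, 2), (2, 3), (3, 0)]),
  (7, [(0, 1), (0, 2), (0, 3), (2, 4), (1, 5), (4, 6), (5, 6), (3, 6)]),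
  (8, [(0, 1), (1, 2), (1, 3), (2, 4), (4, 5), (3, 6), (0, 7), (5, 6), (5, 7)]),
  (9, [(0, 1), (1, 2), (0, 3), (2, 4), (0, 5), (3, 6), (6, 7), (5, 8), (2, 8), (5, 7), (4, 6)]),
  (10, [(0, 1), (0, 2), (0, 3), (1, 4), (1, 5), (5, 6), (3, 7), (5, 8), (8, 9), (2, 6), (4, 7),
    (7, 9)]),
  (10, [(0, 1), (1, 2), (0, 3), (2, 4), (3, 5), (4, 6), (0, 7), (7, 8), (4, 9), (8, 9), (3, 6),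
    (5, 9)]),
  (10, [(0, 1), (1, 2), (1, 3), (3, 4), (3, 5), (5, 6), (5, 7), (0, 8), (0, 9), (6, 8), (4, 9),
    (2, 7)]),
  (10, [(0, 1), (0, 2), (2, 3), (3, 4), (4, 5), (1, 6), (3, 7), (0, 8), (7, 9), (5, 6), (5, 9),
    (8, 9)]),
  (10, [(0, 1), (1, 2), (1, 3), (2, 4), (0, 5), (4, 6), (3, 7), (0, 8), (8, 9), (2, 9), (5, 7),
    (3, 6)]),
  (10, [(0, 1), (1, 2), (2, 3), (0, 4), (0, 5), (2, 6), (6, 7), (5, 8), (7, 9), (4, 9), (8, 9),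
    (3, 5)]),
  (10, [(0, 1), (1, 2), (2, 3), (3, 4), (4, 5), (5, 6), (1, 7), (3, 8), (6, 9), (0, 5), (7, 9),
    (8, 9)]),
  (10, [(0, 4), (4, 1), (0, 5), (5, 6), (6, 1), (0, 2), (1, 3), (2, 7), (7, 3), (2, 8), (8, 9),
    (9, 3)]),
  (11, [(0, 1), (1, 2), (2, 3), (3, 4), (4, 0), (0, 5), (5, 6), (6, 7), (7, 1), (2, 8), (8, 9),
    (9, 10), (10, 3)]),
  (12, [(0, 1), (0, 2), (0, 3), (1, 4), (2, 5), (3, 6), (4, 7), (4, 8), (5, 9), (5, 10), (6, 7),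
    (6, 11), (8, 9), (8, 11), (10, 11)]),
  (12, [(0, 1), (0, 2), (0, 3), (1, 4), (2, 5), (3, 6), (4, 7), (4, 8), (5, 9), (5, 10), (6, 7),
    (6, 11), (7, 9), (8, 11), (10, 11)]),
  (12, [(0, 1), (0, 2), (0, 3), (1, 4), (2, 5), (3, 6), (4, 7), (4, 8), (5, 9), (5, 10), (6, 7),
    (6, 9), (8, 10), (8, 11), (9, 11)]),
  (12, [(0, 1), (0, 2), (0, 3), (1, 4), (2, 5), (3, 6), (4, 7), (4, 8), (5, 6), (5, 9), (6, 10),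
    (7, 9), (8, 10), (8, 11), (9, 11)]),
  (12, [(0, 1), (0, 2), (0, 3), (1, 4), (2, 5), (3, 6), (4, 7), (4, 8), (5, 6), (5, 9), (6, 7),
    (7, 10), (8, 11), (9, 11), (10, 11)]),
  (12, [(0, 1), (0, 2), (0, 3), (1, 4), (2, 5), (3, 6), (3, 7), (4, 8), (4, 9), (5, 10), (5,
    11), (6, 8), (7, 10), (8, 11), (9, 10)]),
  (12, [(0, 1), (0, 2), (0, 3), (1, 4), (1, 5), (2, 6), (3, 7), (4, 6), (5, 8), (6, 9), (7, 8),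
    (7, 10), (8, 11), (9, 10), (9, 11)]),
  (12, [(0, 1), (0, 2), (0, 3), (1, 4), (1, 5), (2, 6), (3, 7), (4, 8), (5, 9), (6, 8), (6, 10),
    (7, 9), (7, 10), (8, 11), (9, 11)])]

def s12_0 : Cs :=
  (.fresh 6 (.full 6 (.dec 7 8 (.emb 2 [3,5,8,7]) (.dec 7 9 (.dec 7 10 (.emb 6
  [1,3,4,0,5,7,9,2,10,6]) (.dec 7 11 (.emb 6 [1,3,4,0,5,7,9,2,11,6]) (.fresh 7 .big (.dec 9 8
  (.emb 3 [3,1,5,7,8,4,9]) (.dec 9 10 (.emb 11 [1,0,2,5,4,3,6,10,7,9]) (.dec 9 11 (.emb 11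
  [1,0,2,5,4,3,6,11,7,9]) (.fresh 9 .big (.adj2 7 9)))))))) (.dec 7 10 (.dec 7 11 (.emb 2
  [6,11,7,10]) (.fresh 7 .big (.dec 10 8 (.emb 3 [5,2,3,8,7,6,10]) (.dec 10 9 (.emb 9
  [10,9,6,2,0,1,4,5,7,3]) (.dec 10 11 (.emb 1 [6,11,10]) (.fresh 10 .big (.adj2 7 10))))))) (.dec
  7 11 (.fresh 7 .big (.dec 11 8 (.emb 3 [5,2,3,8,7,6,11]) (.dec 11 9 (.emb 9
  [11,9,6,2,0,1,4,5,7,3]) (.dec 11 10 (.emb 1 [6,11,10]) (.fresh 11 .big (.adj2 7 11)))))) (.fresh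
  7 .big (.low 7))))))) (.dec 7 8 (.emb 2 [3,5,8,7]) (.dec 7 9 (.dec 7 10 (.emb 6
  [1,3,4,0,5,7,9,2,10,6]) (.fresh 7 (.full 7 (.dec 9 8 (.emb 3 [3,1,5,7,8,4,9]) (.dec 9 10 (.emb
  11 [1,0,2,5,4,3,6,10,7,9]) (.dec 9 11 (.emb 1 [7,11,9]) (.fresh 9 .big (.adj2 4 9)))))) (.dec 9
  8 (.emb 3 [3,1,5,7,8,4,9]) (.dec 9 10 (.emb 11 [1,0,2,5,4,3,6,10,7,9]) (.fresh 9 (.full 9 (.dec
  8 10 (.emb 14 [1,3,5,2,0,4,9,7,8,10,6]) (.dec 8 11 (.emb 6 [1,3,0,4,7,5,2,9,8,11]) (.fresh 8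
  .big (.low 8))))) (.adj2 7 9)))))) (.dec 7 10 (.fresh 7 (.full 7 (.dec 10 8 (.emb 3
  [5,2,3,8,7,6,10]) (.dec 10 9 (.emb 9 [10,9,6,2,0,1,4,5,7,3]) (.dec 10 11 (.emb 1 [7,11,10])
  (.fresh 10 .big (.adj2 6 10)))))) (.dec 10 8 (.emb 3 [5,2,3,8,7,6,10]) (.dec 10 9 (.emb 9
  [10,9,6,2,0,1,4,5,7,3]) (.fresh 10 (.full 10 (.dec 8 9 (.dec 8 11 (.emb 4 [2,5,8,3,11,10,7,6])
  (.fresh 8 .big (.dec 9 11 (.emb 16 [9,4,11,8,1,10,5,3,0,7,6,2]) (.fresh 9 .big (.adj2 8 9)))))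
  (.dec 8 11 (.emb 4 [2,5,8,3,11,10,7,6]) (.fresh 8 .big (.low 8))))) (.adj2 7 10))))) (.fresh 7
  (.fresh 7 .big (.dec 8 9 (.dec 8 10 (.emb 6 [2,5,6,0,3,8,10,1,9,4]) (.dec 8 11 (.emb 8
  [1,3,7,5,2,8,9,11,4,0]) (.fresh 8 .big (.dec 9 10 (.emb 9 [9,10,4,1,0,2,6,3,8,5]) (.dec 9 11
  (.emb 4 [1,3,5,7,8,9,11,4]) (.fresh 9 .big (.adj2 8 9))))))) (.dec 8 10 (.dec 8 11 (.emb 10
  [2,5,8,3,11,0,7,1,6,10]) (.fresh 8 .big (.dec 10 9 (.emb 11 [2,0,1,3,6,5,4,9,8,10]) (.dec 10 11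
  (.emb 6 [2,5,0,6,8,3,1,10,7,11]) (.fresh 10 .big (.adj2 8 10)))))) (.dec 8 11 (.fresh 8 .big
  (.dec 11 9 (.emb 6 [5,3,2,8,7,1,0,11,4,9]) (.dec 11 10 (.emb 6 [3,5,1,7,8,2,0,11,6,10]) (.fresh
  11 .big (.adj2 8 11))))) (.fresh 8 .big (.low 8)))))) (.low 7))))))

def s12_1 : Cs :=
  (.fresh 4 (.full 4 (.dec 6 7 (.emb 3 [2,0,6,5,7,1,3]) (.dec 6 8 (.emb 2 [2,5,8,6]) (.dec 6 9
  (.dec 6 10 (.emb 2 [4,10,6,9]) (.fresh 6 (.full 6 (.dec 9 7 (.emb 5 [1,0,2,4,6,3,9,7,5]) (.dec 9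
  8 (.emb 5 [2,0,1,6,4,5,9,8,3]) (.dec 9 10 (.emb 1 [4,10,9]) (.dec 9 11 (.emb 1 [6,9,11]) (.fresh
  9 .big (.dec 7 8 (.emb 2 [3,5,8,7]) (.dec 7 10 (.emb 6 [3,1,7,5,0,4,10,2,9,6]) (.dec 7 11 (.emb
  7 [6,9,4,2,1,5,0,11,7,3]) (.fresh 7 .big (.low 7))))))))))) (.dec 9 7 (.emb 5
  [1,0,2,4,6,3,9,7,5]) (.dec 9 8 (.emb 5 [2,0,1,6,4,5,9,8,3]) (.dec 9 10 (.emb 1 [4,10,9]) (.fresh
  9 (.full 9 (.dec 7 8 (.emb 2 [3,5,8,7]) (.dec 7 10 (.emb 6 [3,1,7,5,0,4,10,2,9,6]) (.dec 7 11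
  (.emb 9 [9,11,6,2,5,3,7,0,4,1]) (.fresh 7 .big (.low 7)))))) (.adj2 6 9))))))) (.dec 6 10
  (.fresh 6 (.full 6 (.dec 10 7 (.emb 5 [1,0,2,4,6,3,10,7,5]) (.dec 10 8 (.emb 5
  [2,0,1,6,4,5,10,8,3]) (.dec 10 9 (.emb 1 [4,10,9]) (.dec 10 11 (.emb 1 [6,11,10]) (.fresh 10
  .big (.dec 7 8 (.emb 2 [3,5,8,7]) (.dec 7 9 (.emb 6 [3,1,7,5,0,4,9,2,10,6]) (.dec 7 11 (.emb 7
  [6,11,7,2,3,0,5,10,4,1]) (.fresh 7 .big (.low 7))))))))))) (.dec 10 7 (.emb 5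
  [1,0,2,4,6,3,10,7,5]) (.dec 10 8 (.emb 5 [2,0,1,6,4,5,10,8,3]) (.dec 10 9 (.emb 1 [4,10,9])
  (.fresh 10 (.full 10 (.dec 7 8 (.emb 2 [3,5,8,7]) (.dec 7 9 (.emb 6 [3,1,7,5,0,4,9,2,10,6])
  (.dec 7 11 (.emb 9 [10,11,6,2,5,3,7,0,4,1]) (.fresh 7 .big (.low 7)))))) (.adj2 6 10))))))
  (.fresh 6 (.fresh 6 .big (.dec 7 8 (.emb 2 [3,5,8,7]) (.dec 7 9 (.dec 7 10 (.emb 2 [4,10,7,9])
  (.dec 7 11 (.emb 6 [1,3,4,0,5,7,9,2,11,6]) (.fresh 7 .big (.dec 9 8 (.emb 3 [3,1,5,7,8,4,9])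
  (.dec 9 10 (.emb 1 [4,10,9]) (.dec 9 11 (.emb 11 [1,0,2,5,4,3,6,11,7,9]) (.fresh 9 .big (.adj2 7
  9)))))))) (.dec 7 10 (.dec 7 11 (.emb 6 [1,3,4,0,5,7,10,2,11,6]) (.fresh 7 .big (.dec 10 8 (.emb
  3 [3,1,5,7,8,4,10]) (.dec 10 9 (.emb 1 [4,10,9]) (.dec 10 11 (.emb 11 [1,0,2,5,4,3,6,11,7,10])
  (.fresh 10 .big (.adj2 7 10))))))) (.dec 7 11 (.fresh 7 .big (.dec 11 8 (.emb 3
  [5,2,3,8,7,6,11]) (.dec 11 9 (.emb 9 [11,9,6,2,0,1,4,5,7,3]) (.dec 11 10 (.emb 9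
  [11,10,6,2,0,1,4,5,7,3]) (.fresh 11 .big (.adj2 7 11)))))) (.fresh 7 .big (.low 7))))))) (.low
  6))))))) (.dec 6 7 (.emb 3 [2,0,6,5,7,1,3]) (.dec 6 8 (.emb 2 [2,5,8,6]) (.dec 6 9 (.fresh 6
  (.full 6 (.dec 9 7 (.emb 5 [1,0,2,4,6,3,9,7,5]) (.dec 9 8 (.emb 5 [2,0,1,6,4,5,9,8,3]) (.dec 9
  10 (.emb 1 [6,9,10]) (.fresh 9 (.full 9 (.dec 7 8 (.emb 2 [3,5,8,7]) (.dec 7 10 (.emb 7
  [6,9,4,2,1,5,0,10,7,3]) (.dec 7 11 (.emb 9 [9,11,6,2,5,3,7,0,4,1]) (.fresh 7 .big (.low 7))))))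
  (.adj2 4 9)))))) (.dec 9 7 (.emb 5 [1,0,2,4,6,3,9,7,5]) (.dec 9 8 (.emb 5 [2,0,1,6,4,5,9,8,3])
  (.fresh 9 (.full 9 (.dec 7 8 (.emb 2 [3,5,8,7]) (.dec 7 10 (.emb 9 [9,10,6,2,5,3,7,0,4,1])
  (.fresh 7 (.fresh 7 .big (.dec 8 10 (.emb 9 [9,10,4,1,3,5,8,0,6,2]) (.dec 8 11 (.fresh 8 .big
  (.dec 11 10 (.emb 15 [9,4,10,6,1,11,2,0,3,7,8,5]) (.fresh 11 .big (.adj2 8 11)))) (.fresh 8 .big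
  (.low 8))))) (.low 7))))) (.adj2 6 9))))) (.fresh 6 s12_0 (.low 6))))))

def s12_2 : Cs :=
  (.dec 7 8 (.dec 7 9 (.emb 2 [4,8,7,9]) (.dec 7 10 (.emb 6 [1,3,4,0,5,7,8,2,10,6]) (.fresh 7
  (.full 7 (.dec 8 9 (.emb 1 [4,8,9]) (.dec 8 10 (.emb 11 [1,0,2,5,4,3,6,10,7,8]) (.dec 8 11 (.emb
  1 [7,8,11]) (.fresh 8 .big (.dec 9 10 (.dec 9 11 (.emb 3 [4,1,9,8,11,3,7]) (.fresh 9 .big (.dec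
  10 11 (.emb 15 [10,9,6,11,4,2,7,8,1,0,5,3]) (.fresh 10 .big (.adj2 9 10))))) (.dec 9 11 (.emb 3
  [4,1,9,8,11,3,7]) (.fresh 9 .big (.low 9))))))))) (.dec 8 9 (.emb 1 [4,8,9]) (.dec 8 10 (.emb 11
  [1,0,2,5,4,3,6,10,7,8]) (.fresh 8 (.full 8 (.dec 9 10 (.dec 9 11 (.emb 2 [4,8,11,9]) (.fresh 9
  .big (.dec 10 11 (.emb 14 [3,1,4,8,7,5,2,0,9,10,11]) (.fresh 10 .big (.adj2 9 10))))) (.dec 9 11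
  (.emb 2 [4,8,11,9]) (.fresh 9 .big (.low 9))))) (.adj2 7 8))))))) (.dec 7 9 (.dec 7 10 (.emb 6
  [1,3,4,0,5,7,9,2,10,6]) (.fresh 7 (.full 7 (.dec 9 8 (.emb 1 [4,8,9]) (.dec 9 10 (.emb 11
  [1,0,2,5,4,3,6,10,7,9]) (.dec 9 11 (.emb 1 [7,11,9]) (.fresh 9 .big (.dec 8 10 (.dec 8 11 (.emb
  3 [4,8,1,9,3,11,7]) (.fresh 8 .big (.dec 10 11 (.emb 15 [10,8,6,11,4,2,7,9,1,0,5,3]) (.fresh 10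
  .big (.adj2 8 10))))) (.dec 8 11 (.emb 3 [4,8,1,9,3,11,7]) (.fresh 8 .big (.low 8))))))))) (.dec
  9 8 (.emb 1 [4,8,9]) (.dec 9 10 (.emb 11 [1,0,2,5,4,3,6,10,7,9]) (.fresh 9 (.full 9 (.dec 8 10
  (.dec 8 11 (.emb 2 [4,8,11,9]) (.fresh 8 .big (.dec 10 11 (.emb 14 [3,1,4,9,7,5,2,0,8,10,11])
  (.fresh 10 .big (.adj2 8 10))))) (.dec 8 11 (.emb 2 [4,8,11,9]) (.fresh 8 .big (.low 8)))))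
  (.adj2 7 9)))))) (.dec 7 10 (.fresh 7 (.full 7 (.dec 10 8 (.emb 9 [10,8,6,2,0,1,4,5,7,3]) (.dec
  10 9 (.emb 9 [10,9,6,2,0,1,4,5,7,3]) (.dec 10 11 (.emb 1 [7,11,10]) (.fresh 10 .big (.adj2 6
  10)))))) (.dec 10 8 (.emb 9 [10,8,6,2,0,1,4,5,7,3]) (.dec 10 9 (.emb 9 [10,9,6,2,0,1,4,5,7,3])
  (.fresh 10 (.full 10 (.dec 8 9 (.emb 1 [4,8,9]) (.dec 8 11 (.fresh 8 .big (.dec 11 9 (.emb 2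
  [4,8,11,9]) (.fresh 11 .big (.adj2 8 11)))) (.fresh 8 .big (.low 8))))) (.adj2 7 10))))) (.fresh
  7 (.fresh 7 .big (.dec 8 9 (.emb 1 [4,8,9]) (.dec 8 10 (.dec 8 11 (.full 8 (.dec 10 9 (.emb 2
  [4,8,10,9]) (.dec 10 11 (.emb 1 [8,10,11]) (.fresh 10 .big (.adj2 6 10))))) (.fresh 8 .big (.dec
  10 9 (.emb 2 [4,8,10,9]) (.dec 10 11 (.full 10 (.dec 11 9 (.emb 18 [2,6,0,5,10,1,3,8,11,4,7,9])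
  (.fresh 11 .big (.adj2 7 11)))) (.fresh 10 .big (.adj2 8 10)))))) (.dec 8 11 (.fresh 8 .big
  (.dec 11 9 (.emb 2 [4,8,11,9]) (.dec 11 10 (.full 11 (.dec 10 9 (.emb 18
  [2,6,0,5,10,1,3,9,11,4,7,8]) (.fresh 10 .big (.adj2 6 10)))) (.fresh 11 .big (.adj2 8 11)))))
  (.fresh 8 .big (.low 8)))))) (.low 7)))))

def s12_3 : Cs :=
  (.dec 6 8 (.dec 6 9 (.emb 2 [4,8,6,9]) (.fresh 6 (.full 6 (.dec 8 7 (.emb 5 [1,0,2,4,6,3,8,7,5])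
  (.dec 8 9 (.emb 1 [4,8,9]) (.dec 8 10 (.emb 1 [6,8,10]) (.fresh 8 (.full 8 (.dec 7 9 (.emb 6
  [3,1,7,5,0,4,9,2,8,6]) (.dec 7 10 (.emb 7 [6,8,4,2,1,5,0,10,7,3]) (.dec 7 11 (.emb 9
  [8,11,6,2,5,3,7,0,4,1]) (.fresh 7 .big (.low 7)))))) (.dec 7 9 (.emb 6 [3,1,7,5,0,4,9,2,8,6])
  (.dec 7 10 (.emb 7 [6,8,4,2,1,5,0,10,7,3]) (.fresh 7 (.fresh 7 .big (.dec 9 10 (.emb 13
  [1,2,4,6,0,3,5,8,9,10]) (.dec 9 11 (.fresh 9 .big (.dec 11 10 (.emb 17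
  [11,10,7,9,6,3,4,8,2,1,5,0]) (.fresh 11 .big (.adj2 9 11)))) (.fresh 9 .big (.low 9))))) (.low
  7))))))))) (.dec 8 7 (.emb 5 [1,0,2,4,6,3,8,7,5]) (.dec 8 9 (.emb 1 [4,8,9]) (.fresh 8 (.full 8
  (.dec 7 9 (.emb 6 [3,1,7,5,0,4,9,2,8,6]) (.dec 7 10 (.emb 9 [8,10,6,2,5,3,7,0,4,1]) (.fresh 7
  (.fresh 7 .big (.dec 9 10 (.emb 2 [4,8,10,9]) (.dec 9 11 (.fresh 9 .big (.dec 11 10 (.emb 19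
  [2,6,5,0,8,3,1,4,10,7,9,11]) (.fresh 11 .big (.adj2 9 11)))) (.fresh 9 .big (.low 9))))) (.low
  7))))) (.adj2 6 8)))))) (.dec 6 9 (.fresh 6 (.full 6 (.dec 9 7 (.emb 5 [1,0,2,4,6,3,9,7,5])
  (.dec 9 8 (.emb 1 [4,8,9]) (.dec 9 10 (.emb 1 [6,9,10]) (.fresh 9 (.full 9 (.dec 7 8 (.emb 6
  [3,1,7,5,0,4,8,2,9,6]) (.dec 7 10 (.emb 7 [6,9,4,2,1,5,0,10,7,3]) (.dec 7 11 (.emb 9
  [9,11,6,2,5,3,7,0,4,1]) (.fresh 7 .big (.low 7)))))) (.dec 7 8 (.emb 6 [3,1,7,5,0,4,8,2,9,6])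
  (.dec 7 10 (.emb 7 [6,9,4,2,1,5,0,10,7,3]) (.fresh 7 (.fresh 7 .big (.dec 8 10 (.emb 13
  [1,2,4,6,0,3,5,9,8,10]) (.dec 8 11 (.fresh 8 .big (.dec 11 10 (.emb 17
  [11,10,7,8,6,3,4,9,2,1,5,0]) (.fresh 11 .big (.adj2 8 11)))) (.fresh 8 .big (.low 8))))) (.low
  7))))))))) (.dec 9 7 (.emb 5 [1,0,2,4,6,3,9,7,5]) (.dec 9 8 (.emb 1 [4,8,9]) (.fresh 9 (.full 9
  (.dec 7 8 (.emb 6 [3,1,7,5,0,4,8,2,9,6]) (.dec 7 10 (.emb 9 [9,10,6,2,5,3,7,0,4,1]) (.fresh 7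
  (.fresh 7 .big (.dec 8 10 (.emb 2 [4,8,10,9]) (.dec 8 11 (.fresh 8 .big (.dec 11 10 (.emb 19
  [2,6,5,0,9,3,1,4,10,7,8,11]) (.fresh 11 .big (.adj2 8 11)))) (.fresh 8 .big (.low 8))))) (.low
  7))))) (.adj2 6 9))))) (.fresh 6 (.fresh 6 (.full 6 (.dec 7 8 (.dec 7 9 (.emb 2 [4,8,7,9]) (.dec
  7 10 (.emb 6 [1,3,4,0,5,7,8,2,10,6]) (.dec 7 11 (.emb 6 [1,3,4,0,5,7,8,2,11,6]) (.fresh 7 .big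
  (.dec 8 9 (.emb 1 [4,8,9]) (.dec 8 10 (.emb 11 [1,0,2,5,4,3,6,10,7,8]) (.dec 8 11 (.emb 11
  [1,0,2,5,4,3,6,11,7,8]) (.fresh 8 .big (.adj2 7 8))))))))) (.dec 7 9 (.dec 7 10 (.emb 6
  [1,3,4,0,5,7,9,2,10,6]) (.dec 7 11 (.emb 6 [1,3,4,0,5,7,9,2,11,6]) (.fresh 7 .big (.dec 9 8
  (.emb 1 [4,8,9]) (.dec 9 10 (.emb 11 [1,0,2,5,4,3,6,10,7,9]) (.dec 9 11 (.emb 11
  [1,0,2,5,4,3,6,11,7,9]) (.fresh 9 .big (.adj2 7 9)))))))) (.dec 7 10 (.dec 7 11 (.emb 2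
  [6,11,7,10]) (.fresh 7 .big (.dec 10 8 (.emb 9 [10,8,6,2,0,1,4,5,7,3]) (.dec 10 9 (.emb 9
  [10,9,6,2,0,1,4,5,7,3]) (.dec 10 11 (.emb 1 [6,11,10]) (.fresh 10 .big (.adj2 7 10))))))) (.dec
  7 11 (.fresh 7 .big (.dec 11 8 (.emb 9 [11,8,6,2,0,1,4,5,7,3]) (.dec 11 9 (.emb 9
  [11,9,6,2,0,1,4,5,7,3]) (.dec 11 10 (.emb 1 [6,11,10]) (.fresh 11 .big (.adj2 7 11)))))) (.fresh
  7 .big (.low 7))))))) s12_2) (.low 6))))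

def s12_4 : Cs :=
  (.dec 7 8 (.dec 7 9 (.emb 6 [1,3,4,0,5,7,8,2,9,6]) (.dec 7 10 (.emb 6 [1,3,4,0,5,7,8,2,10,6])
  (.fresh 7 (.full 7 (.dec 8 9 (.emb 11 [1,0,2,5,4,3,6,9,7,8]) (.dec 8 10 (.emb 11
  [1,0,2,5,4,3,6,10,7,8]) (.dec 8 11 (.emb 1 [7,8,11]) (.fresh 8 .big (.adj2 4 8)))))) (.dec 8 9
  (.emb 11 [1,0,2,5,4,3,6,9,7,8]) (.dec 8 10 (.emb 11 [1,0,2,5,4,3,6,10,7,8]) (.fresh 8 (.full 8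
  (.dec 9 10 (.emb 1 [6,9,10]) (.dec 9 11 (.fresh 9 .big (.dec 11 10 (.emb 2 [6,9,11,10]) (.fresh
  11 .big (.adj2 9 11)))) (.fresh 9 .big (.low 9))))) (.adj2 7 8))))))) (.dec 7 9 (.dec 7 10 (.emb
  2 [6,9,7,10]) (.fresh 7 (.full 7 (.dec 9 8 (.emb 9 [9,8,6,2,0,1,4,5,7,3]) (.dec 9 10 (.emb 1
  [6,9,10]) (.dec 9 11 (.emb 1 [7,11,9]) (.fresh 9 .big (.dec 8 10 (.dec 8 11 (.emb 17
  [8,10,4,11,6,1,7,9,2,3,0,5]) (.fresh 8 .big (.adj2 4 8))) (.dec 8 11 (.fresh 8 .big (.adj2 4 8))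
  (.fresh 8 .big (.low 8))))))))) (.dec 9 8 (.emb 9 [9,8,6,2,0,1,4,5,7,3]) (.dec 9 10 (.emb 1
  [6,9,10]) (.fresh 9 (.full 9 (.dec 8 10 (.dec 8 11 (.emb 18 [8,4,10,11,1,6,9,0,3,2,7,5]) (.fresh
  8 .big (.adj2 4 8))) (.dec 8 11 (.fresh 8 .big (.adj2 4 8)) (.fresh 8 .big (.low 8))))) (.adj2 7
  9)))))) (.dec 7 10 (.fresh 7 (.full 7 (.dec 10 8 (.emb 9 [10,8,6,2,0,1,4,5,7,3]) (.dec 10 9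
  (.emb 1 [6,9,10]) (.dec 10 11 (.emb 1 [7,11,10]) (.fresh 10 .big (.dec 8 9 (.dec 8 11 (.emb 17
  [8,9,4,11,6,1,7,10,2,3,0,5]) (.fresh 8 .big (.adj2 4 8))) (.dec 8 11 (.fresh 8 .big (.adj2 4 8))
  (.fresh 8 .big (.low 8))))))))) (.dec 10 8 (.emb 9 [10,8,6,2,0,1,4,5,7,3]) (.dec 10 9 (.emb 1
  [6,9,10]) (.fresh 10 (.full 10 (.dec 8 9 (.dec 8 11 (.emb 18 [8,4,9,11,1,6,10,0,3,2,7,5])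
  (.fresh 8 .big (.adj2 4 8))) (.dec 8 11 (.fresh 8 .big (.adj2 4 8)) (.fresh 8 .big (.low 8)))))
  (.adj2 7 10))))) (.fresh 7 (.fresh 7 .big (.dec 8 9 (.dec 8 10 (.emb 2 [6,9,8,10]) (.dec 8 11
  (.full 8 (.dec 9 10 (.emb 1 [6,9,10]) (.dec 9 11 (.emb 1 [8,9,11]) (.fresh 9 .big (.dec 11 10
  (.emb 21 [1,3,0,4,5,7,2,8,11,6,9,10]) (.fresh 11 .big (.adj2 7 11))))))) (.fresh 8 .big (.adj2 4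
  8)))) (.dec 8 10 (.dec 8 11 (.full 8 (.dec 10 9 (.emb 1 [6,9,10]) (.dec 10 11 (.emb 1 [8,10,11])
  (.fresh 10 .big (.dec 11 9 (.emb 21 [1,3,0,4,5,7,2,8,11,6,10,9]) (.fresh 11 .big (.adj2 7
  11))))))) (.fresh 8 .big (.adj2 4 8))) (.dec 8 11 (.fresh 8 .big (.adj2 4 8)) (.fresh 8 .big
  (.low 8)))))) (.low 7)))))

def s12_5 : Cs :=
  (.dec 7 8 (.dec 7 9 (.emb 6 [1,3,4,0,5,7,8,2,9,6]) (.fresh 7 (.full 7 (.dec 8 9 (.emb 11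
  [1,0,2,5,4,3,6,9,7,8]) (.dec 8 10 (.emb 1 [7,8,10]) (.fresh 8 (.full 8 (.dec 9 10 (.dec 9 11
  (.emb 14 [1,3,7,8,4,0,2,5,10,9,11]) (.fresh 9 .big (.adj2 6 9))) (.dec 9 11 (.fresh 9 .big
  (.adj2 6 9)) (.fresh 9 .big (.low 9))))) (.adj2 4 8))))) (.dec 8 9 (.emb 11
  [1,0,2,5,4,3,6,9,7,8]) (.fresh 8 (.full 8 (.dec 9 10 (.fresh 9 (.full 9 (.dec 10 11 (.emb 1
  [9,10,11]) (.fresh 10 .big (.fresh 11 .big (.low 11))))) (.adj2 6 9)) (.fresh 9 (.fresh 9 .big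
  (.adj2 6 9)) (.low 9)))) (.adj2 7 8))))) (.dec 7 9 (.fresh 7 (.full 7 (.dec 9 8 (.emb 9
  [9,8,6,2,0,1,4,5,7,3]) (.dec 9 10 (.emb 1 [7,9,10]) (.fresh 9 (.full 9 (.dec 8 10 (.dec 8 11
  (.emb 19 [2,6,0,5,9,1,3,7,11,4,10,8]) (.fresh 8 .big (.adj2 4 8))) (.dec 8 11 (.fresh 8 .big
  (.adj2 4 8)) (.fresh 8 .big (.low 8))))) (.adj2 6 9))))) (.dec 9 8 (.emb 9
  [9,8,6,2,0,1,4,5,7,3]) (.fresh 9 (.full 9 (.dec 8 10 (.fresh 8 (.full 8 (.dec 10 11 (.emb 1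
  [8,10,11]) (.fresh 10 .big (.fresh 11 .big (.low 11))))) (.adj2 4 8)) (.fresh 8 (.fresh 8 .big
  (.adj2 4 8)) (.low 8)))) (.adj2 7 9)))) (.fresh 7 (.fresh 7 (.full 7 (.dec 8 9 (.dec 8 10 (.full
  8 (.dec 9 10 (.emb 1 [8,9,10]) (.dec 9 11 (.emb 18 [2,6,5,0,9,3,1,11,8,7,4,10]) (.fresh 9 .big
  (.adj2 6 9))))) (.dec 8 11 (.full 8 (.dec 9 10 (.emb 18 [2,6,5,0,9,3,1,10,8,7,4,11]) (.dec 9 11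
  (.emb 1 [8,9,11]) (.fresh 9 .big (.adj2 6 9))))) (.fresh 8 .big (.adj2 4 8)))) (.dec 8 10 (.dec
  8 11 (.emb 2 [7,11,8,10]) (.fresh 8 .big (.adj2 4 8))) (.dec 8 11 (.fresh 8 .big (.adj2 4 8))
  (.fresh 8 .big (.low 8)))))) (.dec 8 9 (.dec 8 10 (.full 8 (.dec 9 10 (.emb 1 [8,9,10]) (.fresh
  9 (.full 9 (.dec 10 11 (.emb 2 [8,9,11,10]) (.fresh 10 .big (.adj2 7 10)))) (.adj2 6 9))))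
  (.fresh 8 (.full 8 (.dec 9 10 (.full 9 (.dec 10 11 (.emb 2 [8,9,10,11]) (.fresh 10 .big (.adj2 7
  10)))) (.dec 9 11 (.emb 1 [8,9,11]) (.fresh 9 .big (.adj2 6 9))))) (.adj2 4 8))) (.dec 8 10
  (.fresh 8 (.full 8 (.dec 10 9 (.full 10 (.dec 9 11 (.emb 2 [8,10,9,11]) (.fresh 9 .big (.adj2 6
  9)))) (.dec 10 11 (.emb 1 [8,10,11]) (.fresh 10 .big (.adj2 7 10))))) (.adj2 4 8)) (.fresh 8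
  (.fresh 8 .big (.adj2 4 8)) (.low 8))))) (.low 7))))

def s12_6 : Cs :=
  (.dec 7 8 (.dec 7 9 (.emb 2 [4,8,7,9]) (.dec 7 10 (.emb 6 [2,5,6,0,3,7,10,1,8,4]) (.fresh 7
  (.full 7 (.dec 8 9 (.emb 1 [4,8,9]) (.dec 8 10 (.emb 9 [8,10,4,1,0,2,6,3,7,5]) (.dec 8 11 (.emb
  1 [7,8,11]) (.fresh 8 .big (.dec 9 10 (.dec 9 11 (.emb 13 [1,5,4,7,3,0,2,8,9,11]) (.fresh 9 .big
  (.dec 10 11 (.emb 17 [10,9,6,11,4,2,7,8,1,5,0,3]) (.fresh 10 .big (.adj2 9 10))))) (.dec 9 11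
  (.emb 13 [1,5,4,7,3,0,2,8,9,11]) (.fresh 9 .big (.low 9))))))))) (.dec 8 9 (.emb 1 [4,8,9])
  (.dec 8 10 (.emb 9 [8,10,4,1,0,2,6,3,7,5]) (.fresh 8 (.full 8 (.dec 9 10 (.dec 9 11 (.emb 2
  [4,8,11,9]) (.fresh 9 .big (.dec 10 11 (.emb 18 [10,6,9,11,2,4,8,0,5,1,7,3]) (.fresh 10 .big
  (.adj2 9 10))))) (.dec 9 11 (.emb 2 [4,8,11,9]) (.fresh 9 .big (.low 9))))) (.adj2 7 8)))))))
  (.dec 7 9 (.dec 7 10 (.emb 6 [2,5,6,0,3,7,10,1,9,4]) (.fresh 7 (.full 7 (.dec 9 8 (.emb 1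
  [4,8,9]) (.dec 9 10 (.emb 9 [9,10,4,1,0,2,6,3,7,5]) (.dec 9 11 (.emb 1 [7,9,11]) (.fresh 9 .big
  (.dec 8 10 (.dec 8 11 (.emb 13 [1,5,4,7,3,0,2,9,8,11]) (.fresh 8 .big (.dec 10 11 (.emb 17
  [10,8,6,11,4,2,7,9,1,5,0,3]) (.fresh 10 .big (.adj2 8 10))))) (.dec 8 11 (.emb 13
  [1,5,4,7,3,0,2,9,8,11]) (.fresh 8 .big (.low 8))))))))) (.dec 9 8 (.emb 1 [4,8,9]) (.dec 9 10
  (.emb 9 [9,10,4,1,0,2,6,3,7,5]) (.fresh 9 (.full 9 (.dec 8 10 (.dec 8 11 (.emb 2 [4,8,11,9])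
  (.fresh 8 .big (.dec 10 11 (.emb 18 [10,6,8,11,2,4,9,0,5,1,7,3]) (.fresh 10 .big (.adj2 8
  10))))) (.dec 8 11 (.emb 2 [4,8,11,9]) (.fresh 8 .big (.low 8))))) (.adj2 7 9)))))) (.dec 7 10
  (.fresh 7 (.full 7 (.dec 10 8 (.emb 11 [2,0,1,3,6,5,4,8,7,10]) (.dec 10 9 (.emb 11
  [2,0,1,3,6,5,4,9,7,10]) (.dec 10 11 (.emb 1 [7,10,11]) (.fresh 10 .big (.adj2 6 10)))))) (.dec
  10 8 (.emb 11 [2,0,1,3,6,5,4,8,7,10]) (.dec 10 9 (.emb 11 [2,0,1,3,6,5,4,9,7,10]) (.fresh 10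
  (.full 10 (.dec 8 9 (.emb 1 [4,8,9]) (.dec 8 11 (.fresh 8 .big (.dec 11 9 (.emb 2 [4,8,11,9])
  (.fresh 11 .big (.adj2 8 11)))) (.fresh 8 .big (.low 8))))) (.adj2 7 10))))) (.fresh 7 (.fresh 7
  .big (.dec 8 9 (.emb 1 [4,8,9]) (.dec 8 10 (.dec 8 11 (.full 8 (.dec 10 9 (.emb 2 [4,8,10,9])
  (.dec 10 11 (.emb 1 [8,10,11]) (.fresh 10 .big (.adj2 6 10))))) (.fresh 8 .big (.dec 10 9 (.emb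
  2 [4,8,10,9]) (.dec 10 11 (.full 10 (.dec 11 9 (.emb 21 [2,5,0,6,3,7,1,10,11,4,8,9]) (.fresh 11
  .big (.adj2 7 11)))) (.fresh 10 .big (.adj2 8 10)))))) (.dec 8 11 (.fresh 8 .big (.dec 11 9
  (.emb 2 [4,8,11,9]) (.dec 11 10 (.full 11 (.dec 10 9 (.emb 21 [2,5,0,6,3,7,1,10,11,4,9,8])
  (.fresh 10 .big (.adj2 6 10)))) (.fresh 11 .big (.adj2 8 11))))) (.fresh 8 .big (.low 8))))))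
  (.low 7)))))

def s12_7 : Cs :=
  (.dec 6 8 (.dec 6 9 (.emb 2 [4,8,6,9]) (.fresh 6 (.full 6 (.dec 8 7 (.emb 5 [2,0,1,6,4,5,8,7,3])
  (.dec 8 9 (.emb 1 [4,8,9]) (.dec 8 10 (.emb 1 [6,8,10]) (.fresh 8 (.full 8 (.dec 7 9 (.emb 7
  [4,8,6,1,2,3,0,9,7,5]) (.dec 7 10 (.emb 6 [5,2,7,3,0,6,10,1,8,4]) (.dec 7 11 (.emb 9
  [8,11,4,1,3,5,7,0,6,2]) (.fresh 7 .big (.low 7)))))) (.dec 7 9 (.emb 7 [4,8,6,1,2,3,0,9,7,5])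
  (.dec 7 10 (.emb 6 [5,2,7,3,0,6,10,1,8,4]) (.fresh 7 (.fresh 7 .big (.dec 9 10 (.emb 13
  [1,2,4,6,0,3,5,8,9,10]) (.dec 9 11 (.fresh 9 .big (.dec 11 10 (.emb 17
  [11,9,7,10,4,5,6,8,1,2,3,0]) (.fresh 11 .big (.adj2 9 11)))) (.fresh 9 .big (.low 9))))) (.low
  7))))))))) (.dec 8 7 (.emb 5 [2,0,1,6,4,5,8,7,3]) (.dec 8 9 (.emb 1 [4,8,9]) (.fresh 8 (.full 8
  (.dec 7 9 (.emb 7 [4,8,6,1,2,3,0,9,7,5]) (.dec 7 10 (.emb 9 [8,10,4,1,3,5,7,0,6,2]) (.fresh 7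
  (.fresh 7 .big (.dec 9 10 (.emb 2 [4,8,10,9]) (.dec 9 11 (.fresh 9 .big (.dec 11 10 (.emb 18
  [11,7,9,10,5,4,8,3,2,1,6,0]) (.fresh 11 .big (.adj2 9 11)))) (.fresh 9 .big (.low 9))))) (.low
  7))))) (.adj2 6 8)))))) (.dec 6 9 (.fresh 6 (.full 6 (.dec 9 7 (.emb 5 [2,0,1,6,4,5,9,7,3])
  (.dec 9 8 (.emb 1 [4,8,9]) (.dec 9 10 (.emb 1 [6,9,10]) (.fresh 9 (.full 9 (.dec 7 8 (.emb 7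
  [4,8,7,1,5,0,3,9,6,2]) (.dec 7 10 (.emb 6 [5,2,7,3,0,6,10,1,9,4]) (.dec 7 11 (.emb 9
  [9,11,4,1,3,5,7,0,6,2]) (.fresh 7 .big (.low 7)))))) (.dec 7 8 (.emb 7 [4,8,7,1,5,0,3,9,6,2])
  (.dec 7 10 (.emb 6 [5,2,7,3,0,6,10,1,9,4]) (.fresh 7 (.fresh 7 .big (.dec 8 10 (.emb 13
  [1,2,4,6,0,3,5,9,8,10]) (.dec 8 11 (.fresh 8 .big (.dec 11 10 (.emb 17
  [11,8,7,10,4,5,6,9,1,2,3,0]) (.fresh 11 .big (.adj2 8 11)))) (.fresh 8 .big (.low 8))))) (.low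
  7))))))))) (.dec 9 7 (.emb 5 [2,0,1,6,4,5,9,7,3]) (.dec 9 8 (.emb 1 [4,8,9]) (.fresh 9 (.full 9
  (.dec 7 8 (.emb 7 [4,8,7,1,5,0,3,9,6,2]) (.dec 7 10 (.emb 9 [9,10,4,1,3,5,7,0,6,2]) (.fresh 7
  (.fresh 7 .big (.dec 8 10 (.emb 2 [4,8,10,9]) (.dec 8 11 (.fresh 8 .big (.dec 11 10 (.emb 18
  [11,7,8,10,5,4,9,3,2,1,6,0]) (.fresh 11 .big (.adj2 8 11)))) (.fresh 8 .big (.low 8))))) (.low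
  7))))) (.adj2 6 9))))) (.fresh 6 (.fresh 6 (.full 6 (.dec 7 8 (.dec 7 9 (.emb 2 [4,8,7,9]) (.dec
  7 10 (.emb 6 [2,5,6,0,3,7,10,1,8,4]) (.dec 7 11 (.emb 6 [2,5,6,0,3,7,11,1,8,4]) (.fresh 7 .big
  (.dec 8 9 (.emb 1 [4,8,9]) (.dec 8 10 (.emb 9 [8,10,4,1,0,2,6,3,7,5]) (.dec 8 11 (.emb 9
  [8,11,4,1,0,2,6,3,7,5]) (.fresh 8 .big (.adj2 7 8))))))))) (.dec 7 9 (.dec 7 10 (.emb 6
  [2,5,6,0,3,7,10,1,9,4]) (.dec 7 11 (.emb 6 [2,5,6,0,3,7,11,1,9,4]) (.fresh 7 .big (.dec 9 8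
  (.emb 1 [4,8,9]) (.dec 9 10 (.emb 9 [9,10,4,1,0,2,6,3,7,5]) (.dec 9 11 (.emb 9
  [9,11,4,1,0,2,6,3,7,5]) (.fresh 9 .big (.adj2 7 9)))))))) (.dec 7 10 (.dec 7 11 (.emb 2
  [6,11,7,10]) (.fresh 7 .big (.dec 10 8 (.emb 11 [2,0,1,3,6,5,4,8,7,10]) (.dec 10 9 (.emb 11
  [2,0,1,3,6,5,4,9,7,10]) (.dec 10 11 (.emb 1 [6,11,10]) (.fresh 10 .big (.adj2 7 10))))))) (.dec
  7 11 (.fresh 7 .big (.dec 11 8 (.emb 11 [2,0,1,3,6,5,4,8,7,11]) (.dec 11 9 (.emb 11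
  [2,0,1,3,6,5,4,9,7,11]) (.dec 11 10 (.emb 1 [6,11,10]) (.fresh 11 .big (.adj2 7 11)))))) (.fresh
  7 .big (.low 7))))))) s12_6) (.low 6))))

def s12_8 : Cs :=
  (.dec 7 8 (.dec 7 9 (.emb 6 [2,5,6,0,3,7,9,1,8,4]) (.dec 7 10 (.emb 6 [2,5,6,0,3,7,10,1,8,4])
  (.fresh 7 (.full 7 (.dec 8 9 (.emb 9 [8,9,4,1,0,2,6,3,7,5]) (.dec 8 10 (.emb 9
  [8,10,4,1,0,2,6,3,7,5]) (.dec 8 11 (.emb 1 [7,8,11]) (.fresh 8 .big (.adj2 4 8)))))) (.dec 8 9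
  (.emb 9 [8,9,4,1,0,2,6,3,7,5]) (.dec 8 10 (.emb 9 [8,10,4,1,0,2,6,3,7,5]) (.fresh 8 (.full 8
  (.dec 9 10 (.emb 1 [6,9,10]) (.dec 9 11 (.fresh 9 .big (.dec 11 10 (.emb 2 [6,9,11,10]) (.fresh
  11 .big (.adj2 9 11)))) (.fresh 9 .big (.low 9))))) (.adj2 7 8))))))) (.dec 7 9 (.dec 7 10 (.emb
  2 [6,9,7,10]) (.fresh 7 (.full 7 (.dec 9 8 (.emb 11 [2,0,1,3,6,5,4,8,7,9]) (.dec 9 10 (.emb 1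
  [6,9,10]) (.dec 9 11 (.emb 1 [7,9,11]) (.fresh 9 .big (.dec 8 10 (.dec 8 11 (.emb 15
  [8,10,4,11,6,1,7,9,2,0,3,5]) (.fresh 8 .big (.adj2 4 8))) (.dec 8 11 (.fresh 8 .big (.adj2 4 8))
  (.fresh 8 .big (.low 8))))))))) (.dec 9 8 (.emb 11 [2,0,1,3,6,5,4,8,7,9]) (.dec 9 10 (.emb 1
  [6,9,10]) (.fresh 9 (.full 9 (.dec 8 10 (.dec 8 11 (.emb 14 [5,2,6,9,7,3,1,0,10,8,11]) (.fresh 8
  .big (.adj2 4 8))) (.dec 8 11 (.fresh 8 .big (.adj2 4 8)) (.fresh 8 .big (.low 8))))) (.adj2 7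
  9)))))) (.dec 7 10 (.fresh 7 (.full 7 (.dec 10 8 (.emb 11 [2,0,1,3,6,5,4,8,7,10]) (.dec 10 9
  (.emb 1 [6,9,10]) (.dec 10 11 (.emb 1 [7,10,11]) (.fresh 10 .big (.dec 8 9 (.dec 8 11 (.emb 15
  [8,9,4,11,6,1,7,10,2,0,3,5]) (.fresh 8 .big (.adj2 4 8))) (.dec 8 11 (.fresh 8 .big (.adj2 4 8))
  (.fresh 8 .big (.low 8))))))))) (.dec 10 8 (.emb 11 [2,0,1,3,6,5,4,8,7,10]) (.dec 10 9 (.emb 1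
  [6,9,10]) (.fresh 10 (.full 10 (.dec 8 9 (.dec 8 11 (.emb 14 [5,2,6,10,7,3,1,0,9,8,11]) (.fresh
  8 .big (.adj2 4 8))) (.dec 8 11 (.fresh 8 .big (.adj2 4 8)) (.fresh 8 .big (.low 8))))) (.adj2 7
  10))))) (.fresh 7 (.fresh 7 .big (.dec 8 9 (.dec 8 10 (.emb 2 [6,9,8,10]) (.dec 8 11 (.full 8
  (.dec 9 10 (.emb 1 [6,9,10]) (.dec 9 11 (.emb 1 [8,9,11]) (.fresh 9 .big (.dec 11 10 (.emb 18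
  [1,4,0,3,8,2,5,9,11,6,7,10]) (.fresh 11 .big (.adj2 7 11))))))) (.fresh 8 .big (.adj2 4 8))))
  (.dec 8 10 (.dec 8 11 (.full 8 (.dec 10 9 (.emb 1 [6,9,10]) (.dec 10 11 (.emb 1 [8,10,11])
  (.fresh 10 .big (.dec 11 9 (.emb 18 [1,4,0,3,8,2,5,10,11,6,7,9]) (.fresh 11 .big (.adj2 7
  11))))))) (.fresh 8 .big (.adj2 4 8))) (.dec 8 11 (.fresh 8 .big (.adj2 4 8)) (.fresh 8 .big
  (.low 8)))))) (.low 7)))))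

def s12_9 : Cs :=
  (.dec 7 8 (.dec 7 9 (.emb 6 [2,5,6,0,3,7,9,1,8,4]) (.fresh 7 (.full 7 (.dec 8 9 (.emb 9
  [8,9,4,1,0,2,6,3,7,5]) (.dec 8 10 (.emb 1 [7,8,10]) (.fresh 8 (.full 8 (.dec 9 10 (.dec 9 11
  (.emb 19 [1,4,0,3,8,2,5,7,11,6,10,9]) (.fresh 9 .big (.adj2 6 9))) (.dec 9 11 (.fresh 9 .big
  (.adj2 6 9)) (.fresh 9 .big (.low 9))))) (.adj2 4 8))))) (.dec 8 9 (.emb 9
  [8,9,4,1,0,2,6,3,7,5]) (.fresh 8 (.full 8 (.dec 9 10 (.fresh 9 (.full 9 (.dec 10 11 (.emb 1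
  [9,10,11]) (.fresh 10 .big (.fresh 11 .big (.low 11))))) (.adj2 6 9)) (.fresh 9 (.fresh 9 .big
  (.adj2 6 9)) (.low 9)))) (.adj2 7 8))))) (.dec 7 9 (.fresh 7 (.full 7 (.dec 9 8 (.emb 11
  [2,0,1,3,6,5,4,8,7,9]) (.dec 9 10 (.emb 1 [7,9,10]) (.fresh 9 (.full 9 (.dec 8 10 (.dec 8 11
  (.emb 14 [2,5,7,9,6,0,1,3,10,8,11]) (.fresh 8 .big (.adj2 4 8))) (.dec 8 11 (.fresh 8 .big
  (.adj2 4 8)) (.fresh 8 .big (.low 8))))) (.adj2 6 9))))) (.dec 9 8 (.emb 11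
  [2,0,1,3,6,5,4,8,7,9]) (.fresh 9 (.full 9 (.dec 8 10 (.fresh 8 (.full 8 (.dec 10 11 (.emb 1
  [8,10,11]) (.fresh 10 .big (.fresh 11 .big (.low 11))))) (.adj2 4 8)) (.fresh 8 (.fresh 8 .big
  (.adj2 4 8)) (.low 8)))) (.adj2 7 9)))) (.fresh 7 (.fresh 7 (.full 7 (.dec 8 9 (.dec 8 10 (.full
  8 (.dec 9 10 (.emb 1 [8,9,10]) (.dec 9 11 (.emb 18 [1,4,3,0,8,5,2,10,9,7,6,11]) (.fresh 9 .big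
  (.adj2 6 9))))) (.dec 8 11 (.full 8 (.dec 9 10 (.emb 18 [1,4,3,0,8,5,2,11,9,7,6,10]) (.dec 9 11
  (.emb 1 [8,9,11]) (.fresh 9 .big (.adj2 6 9))))) (.fresh 8 .big (.adj2 4 8)))) (.dec 8 10 (.dec
  8 11 (.emb 2 [7,10,8,11]) (.fresh 8 .big (.adj2 4 8))) (.dec 8 11 (.fresh 8 .big (.adj2 4 8))
  (.fresh 8 .big (.low 8)))))) (.dec 8 9 (.dec 8 10 (.full 8 (.dec 9 10 (.emb 1 [8,9,10]) (.fresh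
  9 (.full 9 (.dec 10 11 (.emb 2 [8,9,11,10]) (.fresh 10 .big (.adj2 7 10)))) (.adj2 6 9))))
  (.fresh 8 (.full 8 (.dec 9 10 (.full 9 (.dec 10 11 (.emb 2 [8,9,10,11]) (.fresh 10 .big (.adj2 7
  10)))) (.dec 9 11 (.emb 1 [8,9,11]) (.fresh 9 .big (.adj2 6 9))))) (.adj2 4 8))) (.dec 8 10
  (.fresh 8 (.full 8 (.dec 10 9 (.full 10 (.dec 9 11 (.emb 2 [8,10,9,11]) (.fresh 9 .big (.adj2 6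
  9)))) (.dec 10 11 (.emb 1 [8,10,11]) (.fresh 10 .big (.adj2 7 10))))) (.adj2 4 8)) (.fresh 8
  (.fresh 8 .big (.adj2 4 8)) (.low 8))))) (.low 7))))

def s12_10 : Cs :=
  (.fresh 3 (.full 3 (.dec 5 4 (.emb 2 [1,3,5,4]) (.dec 5 6 (.emb 1 [2,5,6]) (.dec 5 7 (.emb 1
  [3,5,7]) (.fresh 5 (.full 5 (.dec 4 6 (.emb 3 [1,3,4,0,6,5,2]) (.dec 4 7 (.emb 2 [1,3,7,4])
  (.dec 4 8 (.emb 3 [1,0,4,3,8,2,5]) (.fresh 4 s12_1 (.low 4)))))) (.dec 4 6 (.emb 3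
  [1,3,4,0,6,5,2]) (.dec 4 7 (.emb 2 [1,3,7,4]) (.fresh 4 (.fresh 4 (.full 4 (.dec 6 7 (.emb 3
  [2,0,6,5,7,1,3]) s12_3)) (.dec 6 7 (.emb 3 [2,0,6,5,7,1,3]) (.dec 6 8 (.fresh 6 (.full 6 (.dec 8
  7 (.emb 5 [1,0,2,4,6,3,8,7,5]) (.dec 8 9 (.emb 1 [6,8,9]) (.fresh 8 (.full 8 (.dec 7 9 (.emb 7
  [6,8,4,2,1,5,0,9,7,3]) (.dec 7 10 (.emb 9 [8,10,6,2,5,3,7,0,4,1]) (.fresh 7 (.fresh 7 .big (.dec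
  9 10 (.emb 2 [6,8,10,9]) (.dec 9 11 (.fresh 9 .big (.dec 11 10 (.emb 18
  [11,7,9,10,3,6,8,5,1,2,4,0]) (.fresh 11 .big (.adj2 9 11)))) (.fresh 9 .big (.low 9))))) (.low
  7))))) (.adj2 4 8))))) (.dec 8 7 (.emb 5 [1,0,2,4,6,3,8,7,5]) (.fresh 8 (.full 8 (.dec 7 9 (.emb
  9 [8,9,6,2,5,3,7,0,4,1]) (.fresh 7 (.fresh 7 (.full 7 (.dec 9 10 (.dec 9 11 (.emb 2 [7,11,9,10])
  (.fresh 9 .big (.dec 10 11 (.emb 1 [7,11,10]) (.fresh 10 .big (.adj2 9 10))))) (.dec 9 11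
  (.fresh 9 .big (.dec 11 10 (.emb 1 [7,11,10]) (.fresh 11 .big (.adj2 9 11)))) (.fresh 9 .big
  (.low 9))))) (.dec 9 10 (.fresh 9 (.full 9 (.dec 10 11 (.emb 1 [9,10,11]) (.fresh 10 .big (.adj2
  7 10)))) (.fresh 10 (.full 10 (.fresh 11 .big (.low 11))) .cap)) (.fresh 9 (.fresh 9 .big (.dec
  10 11 (.fresh 10 .big .cap) (.fresh 10 .big (.low 10)))) (.low 9)))) (.low 7)))) (.adj2 6 8))))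
  (.fresh 6 (.fresh 6 (.full 6 s12_4) s12_5) (.low 6))))) (.low 4))))))))) (.dec 5 4 (.emb 2
  [1,3,5,4]) (.dec 5 6 (.emb 1 [2,5,6]) (.fresh 5 (.full 5 (.dec 4 6 (.emb 3 [1,3,4,0,6,5,2])
  (.dec 4 7 (.emb 3 [1,0,4,3,7,2,5]) (.fresh 4 (.fresh 4 (.full 4 (.dec 6 7 (.emb 2 [2,5,7,6])
  s12_7)) (.dec 6 7 (.emb 2 [2,5,7,6]) (.dec 6 8 (.fresh 6 (.full 6 (.dec 8 7 (.emb 5
  [2,0,1,6,4,5,8,7,3]) (.dec 8 9 (.emb 1 [6,8,9]) (.fresh 8 (.full 8 (.dec 7 9 (.emb 6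
  [5,2,7,3,0,6,9,1,8,4]) (.dec 7 10 (.emb 9 [8,10,4,1,3,5,7,0,6,2]) (.fresh 7 (.fresh 7 .big (.dec
  9 10 (.emb 2 [6,8,10,9]) (.dec 9 11 (.fresh 9 .big (.dec 11 10 (.emb 19
  [1,4,3,0,8,5,2,6,10,7,9,11]) (.fresh 11 .big (.adj2 9 11)))) (.fresh 9 .big (.low 9))))) (.low
  7))))) (.adj2 4 8))))) (.dec 8 7 (.emb 5 [2,0,1,6,4,5,8,7,3]) (.fresh 8 (.full 8 (.dec 7 9 (.emb
  9 [8,9,4,1,3,5,7,0,6,2]) (.fresh 7 (.fresh 7 (.full 7 (.dec 9 10 (.dec 9 11 (.emb 2 [7,10,9,11])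
  (.fresh 9 .big (.dec 10 11 (.emb 1 [7,10,11]) (.fresh 10 .big (.adj2 9 10))))) (.dec 9 11
  (.fresh 9 .big (.dec 11 10 (.emb 1 [7,10,11]) (.fresh 11 .big (.adj2 9 11)))) (.fresh 9 .big
  (.low 9))))) (.dec 9 10 (.fresh 9 (.full 9 (.dec 10 11 (.emb 1 [9,10,11]) (.fresh 10 .big (.adj2
  7 10)))) (.fresh 10 (.full 10 (.fresh 11 .big (.low 11))) .cap)) (.fresh 9 (.fresh 9 .big (.dec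
  10 11 (.fresh 10 .big .cap) (.fresh 10 .big (.low 10)))) (.low 9)))) (.low 7)))) (.adj2 6 8))))
  (.fresh 6 (.fresh 6 (.full 6 s12_8) s12_9) (.low 6))))) (.low 4))))) (.adj2 3 5)))))

def s12_11 : Cs :=
  (.fresh 5 (.full 5 (.dec 7 8 (.emb 2 [3,6,8,7]) (.dec 7 9 (.dec 7 10 (.emb 6
  [1,3,4,0,6,7,9,2,10,5]) (.dec 7 11 (.emb 6 [1,3,4,0,6,7,9,2,11,5]) (.fresh 7 .big (.dec 9 8
  (.emb 3 [3,1,6,7,8,4,9]) (.dec 9 10 (.emb 11 [1,0,2,6,4,3,5,10,7,9]) (.dec 9 11 (.emb 11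
  [1,0,2,6,4,3,5,11,7,9]) (.fresh 9 .big (.adj2 7 9)))))))) (.dec 7 10 (.dec 7 11 (.emb 2
  [5,11,7,10]) (.fresh 7 .big (.dec 10 8 (.emb 3 [6,2,3,8,7,5,10]) (.dec 10 9 (.emb 9
  [10,9,5,2,0,1,4,6,7,3]) (.dec 10 11 (.emb 1 [5,11,10]) (.fresh 10 .big (.adj2 7 10))))))) (.dec
  7 11 (.fresh 7 .big (.dec 11 8 (.emb 3 [6,2,3,8,7,5,11]) (.dec 11 9 (.emb 9
  [11,9,5,2,0,1,4,6,7,3]) (.dec 11 10 (.emb 1 [5,11,10]) (.fresh 11 .big (.adj2 7 11)))))) (.fresh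
  7 .big (.low 7))))))) (.dec 7 8 (.emb 2 [3,6,8,7]) (.dec 7 9 (.dec 7 10 (.emb 6
  [1,3,4,0,6,7,9,2,10,5]) (.fresh 7 (.full 7 (.dec 9 8 (.emb 3 [3,1,6,7,8,4,9]) (.dec 9 10 (.emb
  11 [1,0,2,6,4,3,5,10,7,9]) (.dec 9 11 (.emb 1 [7,11,9]) (.fresh 9 .big (.adj2 4 9)))))) (.dec 9
  8 (.emb 3 [3,1,6,7,8,4,9]) (.dec 9 10 (.emb 11 [1,0,2,6,4,3,5,10,7,9]) (.fresh 9 (.full 9 (.dec
  8 10 (.emb 14 [1,3,6,2,0,4,9,7,8,10,5]) (.dec 8 11 (.emb 6 [1,3,0,4,7,6,2,9,8,11]) (.fresh 8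
  .big (.low 8))))) (.adj2 7 9)))))) (.dec 7 10 (.fresh 7 (.full 7 (.dec 10 8 (.emb 3
  [6,2,3,8,7,5,10]) (.dec 10 9 (.emb 9 [10,9,5,2,0,1,4,6,7,3]) (.dec 10 11 (.emb 1 [7,11,10])
  (.fresh 10 .big (.adj2 5 10)))))) (.dec 10 8 (.emb 3 [6,2,3,8,7,5,10]) (.dec 10 9 (.emb 9
  [10,9,5,2,0,1,4,6,7,3]) (.fresh 10 (.full 10 (.dec 8 9 (.dec 8 11 (.emb 4 [2,6,8,3,11,10,7,5])
  (.fresh 8 .big (.dec 9 11 (.emb 16 [9,4,11,8,1,10,6,3,0,7,5,2]) (.fresh 9 .big (.adj2 8 9)))))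
  (.dec 8 11 (.emb 4 [2,6,8,3,11,10,7,5]) (.fresh 8 .big (.low 8))))) (.adj2 7 10))))) (.fresh 7
  (.fresh 7 .big (.dec 8 9 (.dec 8 10 (.emb 6 [2,6,5,0,3,8,10,1,9,4]) (.dec 8 11 (.emb 8
  [1,3,7,6,2,8,9,11,4,0]) (.fresh 8 .big (.dec 9 10 (.emb 9 [9,10,4,1,0,2,5,3,8,6]) (.dec 9 11
  (.emb 4 [1,3,6,7,8,9,11,4]) (.fresh 9 .big (.adj2 8 9))))))) (.dec 8 10 (.dec 8 11 (.emb 10
  [2,6,8,3,11,0,7,1,5,10]) (.fresh 8 .big (.dec 10 9 (.emb 11 [2,0,1,3,5,6,4,9,8,10]) (.dec 10 11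
  (.emb 6 [2,6,0,5,8,3,1,10,7,11]) (.fresh 10 .big (.adj2 8 10)))))) (.dec 8 11 (.fresh 8 .big
  (.dec 11 9 (.emb 6 [6,3,2,8,7,1,0,11,4,9]) (.dec 11 10 (.emb 6 [3,6,1,7,8,2,0,11,5,10]) (.fresh
  11 .big (.adj2 8 11))))) (.fresh 8 .big (.low 8)))))) (.low 7))))))

def s12_12 : Cs :=
  (.fresh 4 (.full 4 (.dec 5 7 (.emb 3 [2,0,5,6,7,1,3]) (.dec 5 8 (.emb 2 [2,5,8,6]) (.dec 5 9
  (.dec 5 10 (.emb 2 [4,10,5,9]) (.fresh 5 (.full 5 (.dec 9 7 (.emb 5 [1,0,2,4,5,3,9,7,6]) (.dec 9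
  8 (.emb 5 [2,0,1,5,4,6,9,8,3]) (.dec 9 10 (.emb 1 [4,10,9]) (.dec 9 11 (.emb 1 [5,9,11]) (.fresh
  9 .big (.dec 7 8 (.emb 2 [3,6,8,7]) (.dec 7 10 (.emb 6 [3,1,7,6,0,4,10,2,9,5]) (.dec 7 11 (.emb
  7 [5,9,4,2,1,6,0,11,7,3]) (.fresh 7 .big (.low 7))))))))))) (.dec 9 7 (.emb 5
  [1,0,2,4,5,3,9,7,6]) (.dec 9 8 (.emb 5 [2,0,1,5,4,6,9,8,3]) (.dec 9 10 (.emb 1 [4,10,9]) (.fresh
  9 (.full 9 (.dec 7 8 (.emb 2 [3,6,8,7]) (.dec 7 10 (.emb 6 [3,1,7,6,0,4,10,2,9,5]) (.dec 7 11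
  (.emb 9 [9,11,5,2,6,3,7,0,4,1]) (.fresh 7 .big (.low 7)))))) (.adj2 5 9))))))) (.dec 5 10
  (.fresh 5 (.full 5 (.dec 10 7 (.emb 5 [1,0,2,4,5,3,10,7,6]) (.dec 10 8 (.emb 5
  [2,0,1,5,4,6,10,8,3]) (.dec 10 9 (.emb 1 [4,10,9]) (.dec 10 11 (.emb 1 [5,11,10]) (.fresh 10
  .big (.dec 7 8 (.emb 2 [3,6,8,7]) (.dec 7 9 (.emb 6 [3,1,7,6,0,4,9,2,10,5]) (.dec 7 11 (.emb 7
  [5,11,7,2,3,0,6,10,4,1]) (.fresh 7 .big (.low 7))))))))))) (.dec 10 7 (.emb 5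
  [1,0,2,4,5,3,10,7,6]) (.dec 10 8 (.emb 5 [2,0,1,5,4,6,10,8,3]) (.dec 10 9 (.emb 1 [4,10,9])
  (.fresh 10 (.full 10 (.dec 7 8 (.emb 2 [3,6,8,7]) (.dec 7 9 (.emb 6 [3,1,7,6,0,4,9,2,10,5])
  (.dec 7 11 (.emb 9 [10,11,5,2,6,3,7,0,4,1]) (.fresh 7 .big (.low 7)))))) (.adj2 5 10))))))
  (.fresh 5 (.fresh 5 .big (.dec 7 8 (.emb 2 [3,6,8,7]) (.dec 7 9 (.dec 7 10 (.emb 2 [4,10,7,9])
  (.dec 7 11 (.emb 6 [1,3,4,0,6,7,9,2,11,5]) (.fresh 7 .big (.dec 9 8 (.emb 3 [3,1,6,7,8,4,9])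
  (.dec 9 10 (.emb 1 [4,10,9]) (.dec 9 11 (.emb 11 [1,0,2,6,4,3,5,11,7,9]) (.fresh 9 .big (.adj2 7
  9)))))))) (.dec 7 10 (.dec 7 11 (.emb 6 [1,3,4,0,6,7,10,2,11,5]) (.fresh 7 .big (.dec 10 8 (.emb
  3 [3,1,6,7,8,4,10]) (.dec 10 9 (.emb 1 [4,10,9]) (.dec 10 11 (.emb 11 [1,0,2,6,4,3,5,11,7,10])
  (.fresh 10 .big (.adj2 7 10))))))) (.dec 7 11 (.fresh 7 .big (.dec 11 8 (.emb 3
  [6,2,3,8,7,5,11]) (.dec 11 9 (.emb 9 [11,9,5,2,0,1,4,6,7,3]) (.dec 11 10 (.emb 9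
  [11,10,5,2,0,1,4,6,7,3]) (.fresh 11 .big (.adj2 7 11)))))) (.fresh 7 .big (.low 7))))))) (.low
  5))))))) (.dec 5 7 (.emb 3 [2,0,5,6,7,1,3]) (.dec 5 8 (.emb 2 [2,5,8,6]) (.dec 5 9 (.fresh 5
  (.full 5 (.dec 9 7 (.emb 5 [1,0,2,4,5,3,9,7,6]) (.dec 9 8 (.emb 5 [2,0,1,5,4,6,9,8,3]) (.dec 9
  10 (.emb 1 [5,9,10]) (.fresh 9 (.full 9 (.dec 7 8 (.emb 2 [3,6,8,7]) (.dec 7 10 (.emb 7
  [5,9,4,2,1,6,0,10,7,3]) (.dec 7 11 (.emb 9 [9,11,5,2,6,3,7,0,4,1]) (.fresh 7 .big (.low 7))))))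
  (.adj2 4 9)))))) (.dec 9 7 (.emb 5 [1,0,2,4,5,3,9,7,6]) (.dec 9 8 (.emb 5 [2,0,1,5,4,6,9,8,3])
  (.fresh 9 (.full 9 (.dec 7 8 (.emb 2 [3,6,8,7]) (.dec 7 10 (.emb 9 [9,10,5,2,6,3,7,0,4,1])
  (.fresh 7 (.fresh 7 .big (.dec 8 10 (.emb 9 [9,10,4,1,3,6,8,0,5,2]) (.dec 8 11 (.fresh 8 .big
  (.dec 11 10 (.emb 15 [9,4,10,5,1,11,2,0,3,7,8,6]) (.fresh 11 .big (.adj2 8 11)))) (.fresh 8 .big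
  (.low 8))))) (.low 7))))) (.adj2 5 9))))) (.fresh 5 s12_11 (.low 5))))))

def s12_13 : Cs :=
  (.dec 7 8 (.dec 7 9 (.emb 2 [4,8,7,9]) (.dec 7 10 (.emb 6 [1,3,4,0,6,7,8,2,10,5]) (.fresh 7
  (.full 7 (.dec 8 9 (.emb 1 [4,8,9]) (.dec 8 10 (.emb 11 [1,0,2,6,4,3,5,10,7,8]) (.dec 8 11 (.emb
  1 [7,8,11]) (.fresh 8 .big (.dec 9 10 (.dec 9 11 (.emb 3 [4,1,9,8,11,3,7]) (.fresh 9 .big (.dec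
  10 11 (.emb 15 [10,9,5,11,4,2,7,8,1,0,6,3]) (.fresh 10 .big (.adj2 9 10))))) (.dec 9 11 (.emb 3
  [4,1,9,8,11,3,7]) (.fresh 9 .big (.low 9))))))))) (.dec 8 9 (.emb 1 [4,8,9]) (.dec 8 10 (.emb 11
  [1,0,2,6,4,3,5,10,7,8]) (.fresh 8 (.full 8 (.dec 9 10 (.dec 9 11 (.emb 2 [4,8,11,9]) (.fresh 9
  .big (.dec 10 11 (.emb 14 [3,1,4,8,7,6,2,0,9,10,11]) (.fresh 10 .big (.adj2 9 10))))) (.dec 9 11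
  (.emb 2 [4,8,11,9]) (.fresh 9 .big (.low 9))))) (.adj2 7 8))))))) (.dec 7 9 (.dec 7 10 (.emb 6
  [1,3,4,0,6,7,9,2,10,5]) (.fresh 7 (.full 7 (.dec 9 8 (.emb 1 [4,8,9]) (.dec 9 10 (.emb 11
  [1,0,2,6,4,3,5,10,7,9]) (.dec 9 11 (.emb 1 [7,11,9]) (.fresh 9 .big (.dec 8 10 (.dec 8 11 (.emb
  3 [4,8,1,9,3,11,7]) (.fresh 8 .big (.dec 10 11 (.emb 15 [10,8,5,11,4,2,7,9,1,0,6,3]) (.fresh 10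
  .big (.adj2 8 10))))) (.dec 8 11 (.emb 3 [4,8,1,9,3,11,7]) (.fresh 8 .big (.low 8))))))))) (.dec
  9 8 (.emb 1 [4,8,9]) (.dec 9 10 (.emb 11 [1,0,2,6,4,3,5,10,7,9]) (.fresh 9 (.full 9 (.dec 8 10
  (.dec 8 11 (.emb 2 [4,8,11,9]) (.fresh 8 .big (.dec 10 11 (.emb 14 [3,1,4,9,7,6,2,0,8,10,11])
  (.fresh 10 .big (.adj2 8 10))))) (.dec 8 11 (.emb 2 [4,8,11,9]) (.fresh 8 .big (.low 8)))))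
  (.adj2 7 9)))))) (.dec 7 10 (.fresh 7 (.full 7 (.dec 10 8 (.emb 9 [10,8,5,2,0,1,4,6,7,3]) (.dec
  10 9 (.emb 9 [10,9,5,2,0,1,4,6,7,3]) (.dec 10 11 (.emb 1 [7,11,10]) (.fresh 10 .big (.adj2 5
  10)))))) (.dec 10 8 (.emb 9 [10,8,5,2,0,1,4,6,7,3]) (.dec 10 9 (.emb 9 [10,9,5,2,0,1,4,6,7,3])
  (.fresh 10 (.full 10 (.dec 8 9 (.emb 1 [4,8,9]) (.dec 8 11 (.fresh 8 .big (.dec 11 9 (.emb 2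
  [4,8,11,9]) (.fresh 11 .big (.adj2 8 11)))) (.fresh 8 .big (.low 8))))) (.adj2 7 10))))) (.fresh
  7 (.fresh 7 .big (.dec 8 9 (.emb 1 [4,8,9]) (.dec 8 10 (.dec 8 11 (.full 8 (.dec 10 9 (.emb 2
  [4,8,10,9]) (.dec 10 11 (.emb 1 [8,10,11]) (.fresh 10 .big (.adj2 5 10))))) (.fresh 8 .big (.dec
  10 9 (.emb 2 [4,8,10,9]) (.dec 10 11 (.full 10 (.dec 11 9 (.emb 18 [2,5,0,6,10,1,3,8,11,4,7,9])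
  (.fresh 11 .big (.adj2 7 11)))) (.fresh 10 .big (.adj2 8 10)))))) (.dec 8 11 (.fresh 8 .big
  (.dec 11 9 (.emb 2 [4,8,11,9]) (.dec 11 10 (.full 11 (.dec 10 9 (.emb 18
  [2,5,0,6,10,1,3,9,11,4,7,8]) (.fresh 10 .big (.adj2 5 10)))) (.fresh 11 .big (.adj2 8 11)))))
  (.fresh 8 .big (.low 8)))))) (.low 7)))))

def s12_14 : Cs :=
  (.dec 5 8 (.dec 5 9 (.emb 2 [4,8,5,9]) (.fresh 5 (.full 5 (.dec 8 7 (.emb 5 [1,0,2,4,5,3,8,7,6])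
  (.dec 8 9 (.emb 1 [4,8,9]) (.dec 8 10 (.emb 1 [5,8,10]) (.fresh 8 (.full 8 (.dec 7 9 (.emb 6
  [3,1,7,6,0,4,9,2,8,5]) (.dec 7 10 (.emb 7 [5,8,4,2,1,6,0,10,7,3]) (.dec 7 11 (.emb 9
  [8,11,5,2,6,3,7,0,4,1]) (.fresh 7 .big (.low 7)))))) (.dec 7 9 (.emb 6 [3,1,7,6,0,4,9,2,8,5])
  (.dec 7 10 (.emb 7 [5,8,4,2,1,6,0,10,7,3]) (.fresh 7 (.fresh 7 .big (.dec 9 10 (.emb 13
  [1,2,4,5,0,3,6,8,9,10]) (.dec 9 11 (.fresh 9 .big (.dec 11 10 (.emb 17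
  [11,10,7,9,5,3,4,8,2,1,6,0]) (.fresh 11 .big (.adj2 9 11)))) (.fresh 9 .big (.low 9))))) (.low
  7))))))))) (.dec 8 7 (.emb 5 [1,0,2,4,5,3,8,7,6]) (.dec 8 9 (.emb 1 [4,8,9]) (.fresh 8 (.full 8
  (.dec 7 9 (.emb 6 [3,1,7,6,0,4,9,2,8,5]) (.dec 7 10 (.emb 9 [8,10,5,2,6,3,7,0,4,1]) (.fresh 7
  (.fresh 7 .big (.dec 9 10 (.emb 2 [4,8,10,9]) (.dec 9 11 (.fresh 9 .big (.dec 11 10 (.emb 19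
  [2,5,6,0,8,3,1,4,10,7,9,11]) (.fresh 11 .big (.adj2 9 11)))) (.fresh 9 .big (.low 9))))) (.low
  7))))) (.adj2 5 8)))))) (.dec 5 9 (.fresh 5 (.full 5 (.dec 9 7 (.emb 5 [1,0,2,4,5,3,9,7,6])
  (.dec 9 8 (.emb 1 [4,8,9]) (.dec 9 10 (.emb 1 [5,9,10]) (.fresh 9 (.full 9 (.dec 7 8 (.emb 6
  [3,1,7,6,0,4,8,2,9,5]) (.dec 7 10 (.emb 7 [5,9,4,2,1,6,0,10,7,3]) (.dec 7 11 (.emb 9
  [9,11,5,2,6,3,7,0,4,1]) (.fresh 7 .big (.low 7)))))) (.dec 7 8 (.emb 6 [3,1,7,6,0,4,8,2,9,5])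
  (.dec 7 10 (.emb 7 [5,9,4,2,1,6,0,10,7,3]) (.fresh 7 (.fresh 7 .big (.dec 8 10 (.emb 13
  [1,2,4,5,0,3,6,9,8,10]) (.dec 8 11 (.fresh 8 .big (.dec 11 10 (.emb 17
  [11,10,7,8,5,3,4,9,2,1,6,0]) (.fresh 11 .big (.adj2 8 11)))) (.fresh 8 .big (.low 8))))) (.low
  7))))))))) (.dec 9 7 (.emb 5 [1,0,2,4,5,3,9,7,6]) (.dec 9 8 (.emb 1 [4,8,9]) (.fresh 9 (.full 9
  (.dec 7 8 (.emb 6 [3,1,7,6,0,4,8,2,9,5]) (.dec 7 10 (.emb 9 [9,10,5,2,6,3,7,0,4,1]) (.fresh 7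
  (.fresh 7 .big (.dec 8 10 (.emb 2 [4,8,10,9]) (.dec 8 11 (.fresh 8 .big (.dec 11 10 (.emb 19
  [2,5,6,0,9,3,1,4,10,7,8,11]) (.fresh 11 .big (.adj2 8 11)))) (.fresh 8 .big (.low 8))))) (.low
  7))))) (.adj2 5 9))))) (.fresh 5 (.fresh 5 (.full 5 (.dec 7 8 (.dec 7 9 (.emb 2 [4,8,7,9]) (.dec
  7 10 (.emb 6 [1,3,4,0,6,7,8,2,10,5]) (.dec 7 11 (.emb 6 [1,3,4,0,6,7,8,2,11,5]) (.fresh 7 .big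
  (.dec 8 9 (.emb 1 [4,8,9]) (.dec 8 10 (.emb 11 [1,0,2,6,4,3,5,10,7,8]) (.dec 8 11 (.emb 11
  [1,0,2,6,4,3,5,11,7,8]) (.fresh 8 .big (.adj2 7 8))))))))) (.dec 7 9 (.dec 7 10 (.emb 6
  [1,3,4,0,6,7,9,2,10,5]) (.dec 7 11 (.emb 6 [1,3,4,0,6,7,9,2,11,5]) (.fresh 7 .big (.dec 9 8
  (.emb 1 [4,8,9]) (.dec 9 10 (.emb 11 [1,0,2,6,4,3,5,10,7,9]) (.dec 9 11 (.emb 11
  [1,0,2,6,4,3,5,11,7,9]) (.fresh 9 .big (.adj2 7 9)))))))) (.dec 7 10 (.dec 7 11 (.emb 2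
  [5,11,7,10]) (.fresh 7 .big (.dec 10 8 (.emb 9 [10,8,5,2,0,1,4,6,7,3]) (.dec 10 9 (.emb 9
  [10,9,5,2,0,1,4,6,7,3]) (.dec 10 11 (.emb 1 [5,11,10]) (.fresh 10 .big (.adj2 7 10))))))) (.dec
  7 11 (.fresh 7 .big (.dec 11 8 (.emb 9 [11,8,5,2,0,1,4,6,7,3]) (.dec 11 9 (.emb 9
  [11,9,5,2,0,1,4,6,7,3]) (.dec 11 10 (.emb 1 [5,11,10]) (.fresh 11 .big (.adj2 7 11)))))) (.fresh
  7 .big (.low 7))))))) s12_13) (.low 5))))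

def s12_15 : Cs :=
  (.dec 7 8 (.dec 7 9 (.emb 6 [1,3,4,0,6,7,8,2,9,5]) (.dec 7 10 (.emb 6 [1,3,4,0,6,7,8,2,10,5])
  (.fresh 7 (.full 7 (.dec 8 9 (.emb 11 [1,0,2,6,4,3,5,9,7,8]) (.dec 8 10 (.emb 11
  [1,0,2,6,4,3,5,10,7,8]) (.dec 8 11 (.emb 1 [7,8,11]) (.fresh 8 .big (.adj2 4 8)))))) (.dec 8 9
  (.emb 11 [1,0,2,6,4,3,5,9,7,8]) (.dec 8 10 (.emb 11 [1,0,2,6,4,3,5,10,7,8]) (.fresh 8 (.full 8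
  (.dec 9 10 (.emb 1 [5,9,10]) (.dec 9 11 (.fresh 9 .big (.dec 11 10 (.emb 2 [5,9,11,10]) (.fresh
  11 .big (.adj2 9 11)))) (.fresh 9 .big (.low 9))))) (.adj2 7 8))))))) (.dec 7 9 (.dec 7 10 (.emb
  2 [5,9,7,10]) (.fresh 7 (.full 7 (.dec 9 8 (.emb 9 [9,8,5,2,0,1,4,6,7,3]) (.dec 9 10 (.emb 1
  [5,9,10]) (.dec 9 11 (.emb 1 [7,11,9]) (.fresh 9 .big (.dec 8 10 (.dec 8 11 (.emb 17
  [8,10,4,11,5,1,7,9,2,3,0,6]) (.fresh 8 .big (.adj2 4 8))) (.dec 8 11 (.fresh 8 .big (.adj2 4 8))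
  (.fresh 8 .big (.low 8))))))))) (.dec 9 8 (.emb 9 [9,8,5,2,0,1,4,6,7,3]) (.dec 9 10 (.emb 1
  [5,9,10]) (.fresh 9 (.full 9 (.dec 8 10 (.dec 8 11 (.emb 18 [8,4,10,11,1,5,9,0,3,2,7,6]) (.fresh
  8 .big (.adj2 4 8))) (.dec 8 11 (.fresh 8 .big (.adj2 4 8)) (.fresh 8 .big (.low 8))))) (.adj2 7
  9)))))) (.dec 7 10 (.fresh 7 (.full 7 (.dec 10 8 (.emb 9 [10,8,5,2,0,1,4,6,7,3]) (.dec 10 9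
  (.emb 1 [5,9,10]) (.dec 10 11 (.emb 1 [7,11,10]) (.fresh 10 .big (.dec 8 9 (.dec 8 11 (.emb 17
  [8,9,4,11,5,1,7,10,2,3,0,6]) (.fresh 8 .big (.adj2 4 8))) (.dec 8 11 (.fresh 8 .big (.adj2 4 8))
  (.fresh 8 .big (.low 8))))))))) (.dec 10 8 (.emb 9 [10,8,5,2,0,1,4,6,7,3]) (.dec 10 9 (.emb 1
  [5,9,10]) (.fresh 10 (.full 10 (.dec 8 9 (.dec 8 11 (.emb 18 [8,4,9,11,1,5,10,0,3,2,7,6])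
  (.fresh 8 .big (.adj2 4 8))) (.dec 8 11 (.fresh 8 .big (.adj2 4 8)) (.fresh 8 .big (.low 8)))))
  (.adj2 7 10))))) (.fresh 7 (.fresh 7 .big (.dec 8 9 (.dec 8 10 (.emb 2 [5,9,8,10]) (.dec 8 11
  (.full 8 (.dec 9 10 (.emb 1 [5,9,10]) (.dec 9 11 (.emb 1 [8,9,11]) (.fresh 9 .big (.dec 11 10
  (.emb 21 [1,3,0,4,6,7,2,8,11,5,9,10]) (.fresh 11 .big (.adj2 7 11))))))) (.fresh 8 .big (.adj2 4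
  8)))) (.dec 8 10 (.dec 8 11 (.full 8 (.dec 10 9 (.emb 1 [5,9,10]) (.dec 10 11 (.emb 1 [8,10,11])
  (.fresh 10 .big (.dec 11 9 (.emb 21 [1,3,0,4,6,7,2,8,11,5,10,9]) (.fresh 11 .big (.adj2 7
  11))))))) (.fresh 8 .big (.adj2 4 8))) (.dec 8 11 (.fresh 8 .big (.adj2 4 8)) (.fresh 8 .big
  (.low 8)))))) (.low 7)))))

def s12_16 : Cs :=
  (.dec 7 8 (.dec 7 9 (.emb 6 [1,3,4,0,6,7,8,2,9,5]) (.fresh 7 (.full 7 (.dec 8 9 (.emb 11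
  [1,0,2,6,4,3,5,9,7,8]) (.dec 8 10 (.emb 1 [7,8,10]) (.fresh 8 (.full 8 (.dec 9 10 (.dec 9 11
  (.emb 14 [1,3,7,8,4,0,2,6,10,9,11]) (.fresh 9 .big (.adj2 5 9))) (.dec 9 11 (.fresh 9 .big
  (.adj2 5 9)) (.fresh 9 .big (.low 9))))) (.adj2 4 8))))) (.dec 8 9 (.emb 11
  [1,0,2,6,4,3,5,9,7,8]) (.fresh 8 (.full 8 (.dec 9 10 (.fresh 9 (.full 9 (.dec 10 11 (.emb 1
  [9,10,11]) (.fresh 10 .big (.fresh 11 .big (.low 11))))) (.adj2 5 9)) (.fresh 9 (.fresh 9 .big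
  (.adj2 5 9)) (.low 9)))) (.adj2 7 8))))) (.dec 7 9 (.fresh 7 (.full 7 (.dec 9 8 (.emb 9
  [9,8,5,2,0,1,4,6,7,3]) (.dec 9 10 (.emb 1 [7,9,10]) (.fresh 9 (.full 9 (.dec 8 10 (.dec 8 11
  (.emb 19 [2,5,0,6,9,1,3,7,11,4,10,8]) (.fresh 8 .big (.adj2 4 8))) (.dec 8 11 (.fresh 8 .big
  (.adj2 4 8)) (.fresh 8 .big (.low 8))))) (.adj2 5 9))))) (.dec 9 8 (.emb 9
  [9,8,5,2,0,1,4,6,7,3]) (.fresh 9 (.full 9 (.dec 8 10 (.fresh 8 (.full 8 (.dec 10 11 (.emb 1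
  [8,10,11]) (.fresh 10 .big (.fresh 11 .big (.low 11))))) (.adj2 4 8)) (.fresh 8 (.fresh 8 .big
  (.adj2 4 8)) (.low 8)))) (.adj2 7 9)))) (.fresh 7 (.fresh 7 (.full 7 (.dec 8 9 (.dec 8 10 (.full
  8 (.dec 9 10 (.emb 1 [8,9,10]) (.dec 9 11 (.emb 18 [2,5,6,0,9,3,1,11,8,7,4,10]) (.fresh 9 .big
  (.adj2 5 9))))) (.dec 8 11 (.full 8 (.dec 9 10 (.emb 18 [2,5,6,0,9,3,1,10,8,7,4,11]) (.dec 9 11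
  (.emb 1 [8,9,11]) (.fresh 9 .big (.adj2 5 9))))) (.fresh 8 .big (.adj2 4 8)))) (.dec 8 10 (.dec
  8 11 (.emb 2 [7,11,8,10]) (.fresh 8 .big (.adj2 4 8))) (.dec 8 11 (.fresh 8 .big (.adj2 4 8))
  (.fresh 8 .big (.low 8)))))) (.dec 8 9 (.dec 8 10 (.full 8 (.dec 9 10 (.emb 1 [8,9,10]) (.fresh
  9 (.full 9 (.dec 10 11 (.emb 2 [8,9,11,10]) (.fresh 10 .big (.adj2 7 10)))) (.adj2 5 9))))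
  (.fresh 8 (.full 8 (.dec 9 10 (.full 9 (.dec 10 11 (.emb 2 [8,9,10,11]) (.fresh 10 .big (.adj2 7
  10)))) (.dec 9 11 (.emb 1 [8,9,11]) (.fresh 9 .big (.adj2 5 9))))) (.adj2 4 8))) (.dec 8 10
  (.fresh 8 (.full 8 (.dec 10 9 (.full 10 (.dec 9 11 (.emb 2 [8,10,9,11]) (.fresh 9 .big (.adj2 5
  9)))) (.dec 10 11 (.emb 1 [8,10,11]) (.fresh 10 .big (.adj2 7 10))))) (.adj2 4 8)) (.fresh 8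
  (.fresh 8 .big (.adj2 4 8)) (.low 8))))) (.low 7))))

def s12_17 : Cs :=
  (.dec 7 8 (.dec 7 9 (.emb 2 [4,8,7,9]) (.dec 7 10 (.emb 6 [2,6,5,0,3,7,10,1,8,4]) (.fresh 7
  (.full 7 (.dec 8 9 (.emb 1 [4,8,9]) (.dec 8 10 (.emb 9 [8,10,4,1,0,2,5,3,7,6]) (.dec 8 11 (.emb
  1 [7,8,11]) (.fresh 8 .big (.dec 9 10 (.dec 9 11 (.emb 13 [1,6,4,7,3,0,2,8,9,11]) (.fresh 9 .big
  (.dec 10 11 (.emb 17 [10,9,5,11,4,2,7,8,1,6,0,3]) (.fresh 10 .big (.adj2 9 10))))) (.dec 9 11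
  (.emb 13 [1,6,4,7,3,0,2,8,9,11]) (.fresh 9 .big (.low 9))))))))) (.dec 8 9 (.emb 1 [4,8,9])
  (.dec 8 10 (.emb 9 [8,10,4,1,0,2,5,3,7,6]) (.fresh 8 (.full 8 (.dec 9 10 (.dec 9 11 (.emb 2
  [4,8,11,9]) (.fresh 9 .big (.dec 10 11 (.emb 18 [10,5,9,11,2,4,8,0,6,1,7,3]) (.fresh 10 .big
  (.adj2 9 10))))) (.dec 9 11 (.emb 2 [4,8,11,9]) (.fresh 9 .big (.low 9))))) (.adj2 7 8)))))))
  (.dec 7 9 (.dec 7 10 (.emb 6 [2,6,5,0,3,7,10,1,9,4]) (.fresh 7 (.full 7 (.dec 9 8 (.emb 1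
  [4,8,9]) (.dec 9 10 (.emb 9 [9,10,4,1,0,2,5,3,7,6]) (.dec 9 11 (.emb 1 [7,9,11]) (.fresh 9 .big
  (.dec 8 10 (.dec 8 11 (.emb 13 [1,6,4,7,3,0,2,9,8,11]) (.fresh 8 .big (.dec 10 11 (.emb 17
  [10,8,5,11,4,2,7,9,1,6,0,3]) (.fresh 10 .big (.adj2 8 10))))) (.dec 8 11 (.emb 13
  [1,6,4,7,3,0,2,9,8,11]) (.fresh 8 .big (.low 8))))))))) (.dec 9 8 (.emb 1 [4,8,9]) (.dec 9 10
  (.emb 9 [9,10,4,1,0,2,5,3,7,6]) (.fresh 9 (.full 9 (.dec 8 10 (.dec 8 11 (.emb 2 [4,8,11,9])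
  (.fresh 8 .big (.dec 10 11 (.emb 18 [10,5,8,11,2,4,9,0,6,1,7,3]) (.fresh 10 .big (.adj2 8
  10))))) (.dec 8 11 (.emb 2 [4,8,11,9]) (.fresh 8 .big (.low 8))))) (.adj2 7 9)))))) (.dec 7 10
  (.fresh 7 (.full 7 (.dec 10 8 (.emb 11 [2,0,1,3,5,6,4,8,7,10]) (.dec 10 9 (.emb 11
  [2,0,1,3,5,6,4,9,7,10]) (.dec 10 11 (.emb 1 [7,10,11]) (.fresh 10 .big (.adj2 5 10)))))) (.dec
  10 8 (.emb 11 [2,0,1,3,5,6,4,8,7,10]) (.dec 10 9 (.emb 11 [2,0,1,3,5,6,4,9,7,10]) (.fresh 10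
  (.full 10 (.dec 8 9 (.emb 1 [4,8,9]) (.dec 8 11 (.fresh 8 .big (.dec 11 9 (.emb 2 [4,8,11,9])
  (.fresh 11 .big (.adj2 8 11)))) (.fresh 8 .big (.low 8))))) (.adj2 7 10))))) (.fresh 7 (.fresh 7
  .big (.dec 8 9 (.emb 1 [4,8,9]) (.dec 8 10 (.dec 8 11 (.full 8 (.dec 10 9 (.emb 2 [4,8,10,9])
  (.dec 10 11 (.emb 1 [8,10,11]) (.fresh 10 .big (.adj2 5 10))))) (.fresh 8 .big (.dec 10 9 (.emb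
  2 [4,8,10,9]) (.dec 10 11 (.full 10 (.dec 11 9 (.emb 21 [2,6,0,5,3,7,1,10,11,4,8,9]) (.fresh 11
  .big (.adj2 7 11)))) (.fresh 10 .big (.adj2 8 10)))))) (.dec 8 11 (.fresh 8 .big (.dec 11 9
  (.emb 2 [4,8,11,9]) (.dec 11 10 (.full 11 (.dec 10 9 (.emb 21 [2,6,0,5,3,7,1,10,11,4,9,8])
  (.fresh 10 .big (.adj2 5 10)))) (.fresh 11 .big (.adj2 8 11))))) (.fresh 8 .big (.low 8))))))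
  (.low 7)))))

def s12_18 : Cs :=
  (.dec 5 8 (.dec 5 9 (.emb 2 [4,8,5,9]) (.fresh 5 (.full 5 (.dec 8 7 (.emb 5 [2,0,1,5,4,6,8,7,3])
  (.dec 8 9 (.emb 1 [4,8,9]) (.dec 8 10 (.emb 1 [5,8,10]) (.fresh 8 (.full 8 (.dec 7 9 (.emb 7
  [4,8,5,1,2,3,0,9,7,6]) (.dec 7 10 (.emb 6 [6,2,7,3,0,5,10,1,8,4]) (.dec 7 11 (.emb 9
  [8,11,4,1,3,6,7,0,5,2]) (.fresh 7 .big (.low 7)))))) (.dec 7 9 (.emb 7 [4,8,5,1,2,3,0,9,7,6])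
  (.dec 7 10 (.emb 6 [6,2,7,3,0,5,10,1,8,4]) (.fresh 7 (.fresh 7 .big (.dec 9 10 (.emb 13
  [1,2,4,5,0,3,6,8,9,10]) (.dec 9 11 (.fresh 9 .big (.dec 11 10 (.emb 17
  [11,9,7,10,4,6,5,8,1,2,3,0]) (.fresh 11 .big (.adj2 9 11)))) (.fresh 9 .big (.low 9))))) (.low
  7))))))))) (.dec 8 7 (.emb 5 [2,0,1,5,4,6,8,7,3]) (.dec 8 9 (.emb 1 [4,8,9]) (.fresh 8 (.full 8
  (.dec 7 9 (.emb 7 [4,8,5,1,2,3,0,9,7,6]) (.dec 7 10 (.emb 9 [8,10,4,1,3,6,7,0,5,2]) (.fresh 7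
  (.fresh 7 .big (.dec 9 10 (.emb 2 [4,8,10,9]) (.dec 9 11 (.fresh 9 .big (.dec 11 10 (.emb 18
  [11,7,9,10,6,4,8,3,2,1,5,0]) (.fresh 11 .big (.adj2 9 11)))) (.fresh 9 .big (.low 9))))) (.low
  7))))) (.adj2 5 8)))))) (.dec 5 9 (.fresh 5 (.full 5 (.dec 9 7 (.emb 5 [2,0,1,5,4,6,9,7,3])
  (.dec 9 8 (.emb 1 [4,8,9]) (.dec 9 10 (.emb 1 [5,9,10]) (.fresh 9 (.full 9 (.dec 7 8 (.emb 7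
  [4,8,7,1,6,0,3,9,5,2]) (.dec 7 10 (.emb 6 [6,2,7,3,0,5,10,1,9,4]) (.dec 7 11 (.emb 9
  [9,11,4,1,3,6,7,0,5,2]) (.fresh 7 .big (.low 7)))))) (.dec 7 8 (.emb 7 [4,8,7,1,6,0,3,9,5,2])
  (.dec 7 10 (.emb 6 [6,2,7,3,0,5,10,1,9,4]) (.fresh 7 (.fresh 7 .big (.dec 8 10 (.emb 13
  [1,2,4,5,0,3,6,9,8,10]) (.dec 8 11 (.fresh 8 .big (.dec 11 10 (.emb 17
  [11,8,7,10,4,6,5,9,1,2,3,0]) (.fresh 11 .big (.adj2 8 11)))) (.fresh 8 .big (.low 8))))) (.low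
  7))))))))) (.dec 9 7 (.emb 5 [2,0,1,5,4,6,9,7,3]) (.dec 9 8 (.emb 1 [4,8,9]) (.fresh 9 (.full 9
  (.dec 7 8 (.emb 7 [4,8,7,1,6,0,3,9,5,2]) (.dec 7 10 (.emb 9 [9,10,4,1,3,6,7,0,5,2]) (.fresh 7
  (.fresh 7 .big (.dec 8 10 (.emb 2 [4,8,10,9]) (.dec 8 11 (.fresh 8 .big (.dec 11 10 (.emb 18
  [11,7,8,10,6,4,9,3,2,1,5,0]) (.fresh 11 .big (.adj2 8 11)))) (.fresh 8 .big (.low 8))))) (.low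
  7))))) (.adj2 5 9))))) (.fresh 5 (.fresh 5 (.full 5 (.dec 7 8 (.dec 7 9 (.emb 2 [4,8,7,9]) (.dec
  7 10 (.emb 6 [2,6,5,0,3,7,10,1,8,4]) (.dec 7 11 (.emb 6 [2,6,5,0,3,7,11,1,8,4]) (.fresh 7 .big
  (.dec 8 9 (.emb 1 [4,8,9]) (.dec 8 10 (.emb 9 [8,10,4,1,0,2,5,3,7,6]) (.dec 8 11 (.emb 9
  [8,11,4,1,0,2,5,3,7,6]) (.fresh 8 .big (.adj2 7 8))))))))) (.dec 7 9 (.dec 7 10 (.emb 6
  [2,6,5,0,3,7,10,1,9,4]) (.dec 7 11 (.emb 6 [2,6,5,0,3,7,11,1,9,4]) (.fresh 7 .big (.dec 9 8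
  (.emb 1 [4,8,9]) (.dec 9 10 (.emb 9 [9,10,4,1,0,2,5,3,7,6]) (.dec 9 11 (.emb 9
  [9,11,4,1,0,2,5,3,7,6]) (.fresh 9 .big (.adj2 7 9)))))))) (.dec 7 10 (.dec 7 11 (.emb 2
  [5,11,7,10]) (.fresh 7 .big (.dec 10 8 (.emb 11 [2,0,1,3,5,6,4,8,7,10]) (.dec 10 9 (.emb 11
  [2,0,1,3,5,6,4,9,7,10]) (.dec 10 11 (.emb 1 [5,11,10]) (.fresh 10 .big (.adj2 7 10))))))) (.dec
  7 11 (.fresh 7 .big (.dec 11 8 (.emb 11 [2,0,1,3,5,6,4,8,7,11]) (.dec 11 9 (.emb 11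
  [2,0,1,3,5,6,4,9,7,11]) (.dec 11 10 (.emb 1 [5,11,10]) (.fresh 11 .big (.adj2 7 11)))))) (.fresh
  7 .big (.low 7))))))) s12_17) (.low 5))))

def s12_19 : Cs :=
  (.dec 7 8 (.dec 7 9 (.emb 6 [2,6,5,0,3,7,9,1,8,4]) (.dec 7 10 (.emb 6 [2,6,5,0,3,7,10,1,8,4])
  (.fresh 7 (.full 7 (.dec 8 9 (.emb 9 [8,9,4,1,0,2,5,3,7,6]) (.dec 8 10 (.emb 9
  [8,10,4,1,0,2,5,3,7,6]) (.dec 8 11 (.emb 1 [7,8,11]) (.fresh 8 .big (.adj2 4 8)))))) (.dec 8 9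
  (.emb 9 [8,9,4,1,0,2,5,3,7,6]) (.dec 8 10 (.emb 9 [8,10,4,1,0,2,5,3,7,6]) (.fresh 8 (.full 8
  (.dec 9 10 (.emb 1 [5,9,10]) (.dec 9 11 (.fresh 9 .big (.dec 11 10 (.emb 2 [5,9,11,10]) (.fresh
  11 .big (.adj2 9 11)))) (.fresh 9 .big (.low 9))))) (.adj2 7 8))))))) (.dec 7 9 (.dec 7 10 (.emb
  2 [5,9,7,10]) (.fresh 7 (.full 7 (.dec 9 8 (.emb 11 [2,0,1,3,5,6,4,8,7,9]) (.dec 9 10 (.emb 1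
  [5,9,10]) (.dec 9 11 (.emb 1 [7,9,11]) (.fresh 9 .big (.dec 8 10 (.dec 8 11 (.emb 15
  [8,10,4,11,5,1,7,9,2,0,3,6]) (.fresh 8 .big (.adj2 4 8))) (.dec 8 11 (.fresh 8 .big (.adj2 4 8))
  (.fresh 8 .big (.low 8))))))))) (.dec 9 8 (.emb 11 [2,0,1,3,5,6,4,8,7,9]) (.dec 9 10 (.emb 1
  [5,9,10]) (.fresh 9 (.full 9 (.dec 8 10 (.dec 8 11 (.emb 14 [6,2,5,9,7,3,1,0,10,8,11]) (.fresh 8
  .big (.adj2 4 8))) (.dec 8 11 (.fresh 8 .big (.adj2 4 8)) (.fresh 8 .big (.low 8))))) (.adj2 7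
  9)))))) (.dec 7 10 (.fresh 7 (.full 7 (.dec 10 8 (.emb 11 [2,0,1,3,5,6,4,8,7,10]) (.dec 10 9
  (.emb 1 [5,9,10]) (.dec 10 11 (.emb 1 [7,10,11]) (.fresh 10 .big (.dec 8 9 (.dec 8 11 (.emb 15
  [8,9,4,11,5,1,7,10,2,0,3,6]) (.fresh 8 .big (.adj2 4 8))) (.dec 8 11 (.fresh 8 .big (.adj2 4 8))
  (.fresh 8 .big (.low 8))))))))) (.dec 10 8 (.emb 11 [2,0,1,3,5,6,4,8,7,10]) (.dec 10 9 (.emb 1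
  [5,9,10]) (.fresh 10 (.full 10 (.dec 8 9 (.dec 8 11 (.emb 14 [6,2,5,10,7,3,1,0,9,8,11]) (.fresh
  8 .big (.adj2 4 8))) (.dec 8 11 (.fresh 8 .big (.adj2 4 8)) (.fresh 8 .big (.low 8))))) (.adj2 7
  10))))) (.fresh 7 (.fresh 7 .big (.dec 8 9 (.dec 8 10 (.emb 2 [5,9,8,10]) (.dec 8 11 (.full 8
  (.dec 9 10 (.emb 1 [5,9,10]) (.dec 9 11 (.emb 1 [8,9,11]) (.fresh 9 .big (.dec 11 10 (.emb 18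
  [1,4,0,3,8,2,6,9,11,5,7,10]) (.fresh 11 .big (.adj2 7 11))))))) (.fresh 8 .big (.adj2 4 8))))
  (.dec 8 10 (.dec 8 11 (.full 8 (.dec 10 9 (.emb 1 [5,9,10]) (.dec 10 11 (.emb 1 [8,10,11])
  (.fresh 10 .big (.dec 11 9 (.emb 18 [1,4,0,3,8,2,6,10,11,5,7,9]) (.fresh 11 .big (.adj2 7
  11))))))) (.fresh 8 .big (.adj2 4 8))) (.dec 8 11 (.fresh 8 .big (.adj2 4 8)) (.fresh 8 .big
  (.low 8)))))) (.low 7)))))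

def s12_20 : Cs :=
  (.dec 7 8 (.dec 7 9 (.emb 6 [2,6,5,0,3,7,9,1,8,4]) (.fresh 7 (.full 7 (.dec 8 9 (.emb 9
  [8,9,4,1,0,2,5,3,7,6]) (.dec 8 10 (.emb 1 [7,8,10]) (.fresh 8 (.full 8 (.dec 9 10 (.dec 9 11
  (.emb 19 [1,4,0,3,8,2,6,7,11,5,10,9]) (.fresh 9 .big (.adj2 5 9))) (.dec 9 11 (.fresh 9 .big
  (.adj2 5 9)) (.fresh 9 .big (.low 9))))) (.adj2 4 8))))) (.dec 8 9 (.emb 9
  [8,9,4,1,0,2,5,3,7,6]) (.fresh 8 (.full 8 (.dec 9 10 (.fresh 9 (.full 9 (.dec 10 11 (.emb 1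
  [9,10,11]) (.fresh 10 .big (.fresh 11 .big (.low 11))))) (.adj2 5 9)) (.fresh 9 (.fresh 9 .big
  (.adj2 5 9)) (.low 9)))) (.adj2 7 8))))) (.dec 7 9 (.fresh 7 (.full 7 (.dec 9 8 (.emb 11
  [2,0,1,3,5,6,4,8,7,9]) (.dec 9 10 (.emb 1 [7,9,10]) (.fresh 9 (.full 9 (.dec 8 10 (.dec 8 11
  (.emb 14 [2,6,7,9,5,0,1,3,10,8,11]) (.fresh 8 .big (.adj2 4 8))) (.dec 8 11 (.fresh 8 .big
  (.adj2 4 8)) (.fresh 8 .big (.low 8))))) (.adj2 5 9))))) (.dec 9 8 (.emb 11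
  [2,0,1,3,5,6,4,8,7,9]) (.fresh 9 (.full 9 (.dec 8 10 (.fresh 8 (.full 8 (.dec 10 11 (.emb 1
  [8,10,11]) (.fresh 10 .big (.fresh 11 .big (.low 11))))) (.adj2 4 8)) (.fresh 8 (.fresh 8 .big
  (.adj2 4 8)) (.low 8)))) (.adj2 7 9)))) (.fresh 7 (.fresh 7 (.full 7 (.dec 8 9 (.dec 8 10 (.full
  8 (.dec 9 10 (.emb 1 [8,9,10]) (.dec 9 11 (.emb 18 [1,4,3,0,8,6,2,10,9,7,5,11]) (.fresh 9 .big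
  (.adj2 5 9))))) (.dec 8 11 (.full 8 (.dec 9 10 (.emb 18 [1,4,3,0,8,6,2,11,9,7,5,10]) (.dec 9 11
  (.emb 1 [8,9,11]) (.fresh 9 .big (.adj2 5 9))))) (.fresh 8 .big (.adj2 4 8)))) (.dec 8 10 (.dec
  8 11 (.emb 2 [7,10,8,11]) (.fresh 8 .big (.adj2 4 8))) (.dec 8 11 (.fresh 8 .big (.adj2 4 8))
  (.fresh 8 .big (.low 8)))))) (.dec 8 9 (.dec 8 10 (.full 8 (.dec 9 10 (.emb 1 [8,9,10]) (.fresh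
  9 (.full 9 (.dec 10 11 (.emb 2 [8,9,11,10]) (.fresh 10 .big (.adj2 7 10)))) (.adj2 5 9))))
  (.fresh 8 (.full 8 (.dec 9 10 (.full 9 (.dec 10 11 (.emb 2 [8,9,10,11]) (.fresh 10 .big (.adj2 7
  10)))) (.dec 9 11 (.emb 1 [8,9,11]) (.fresh 9 .big (.adj2 5 9))))) (.adj2 4 8))) (.dec 8 10
  (.fresh 8 (.full 8 (.dec 10 9 (.full 10 (.dec 9 11 (.emb 2 [8,10,9,11]) (.fresh 9 .big (.adj2 5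
  9)))) (.dec 10 11 (.emb 1 [8,10,11]) (.fresh 10 .big (.adj2 7 10))))) (.adj2 4 8)) (.fresh 8
  (.fresh 8 .big (.adj2 4 8)) (.low 8))))) (.low 7))))

def s12_21 : Cs :=
  (.fresh 3 (.full 3 (.dec 6 4 (.emb 2 [1,3,6,4]) (.dec 6 5 (.emb 1 [2,5,6]) (.dec 6 7 (.emb 1
  [3,6,7]) (.fresh 6 (.full 6 (.dec 4 5 (.emb 3 [1,3,4,0,5,6,2]) (.dec 4 7 (.emb 2 [1,3,7,4])
  (.dec 4 8 (.emb 3 [1,0,4,3,8,2,6]) (.fresh 4 s12_12 (.low 4)))))) (.dec 4 5 (.emb 3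
  [1,3,4,0,5,6,2]) (.dec 4 7 (.emb 2 [1,3,7,4]) (.fresh 4 (.fresh 4 (.full 4 (.dec 5 7 (.emb 3
  [2,0,5,6,7,1,3]) s12_14)) (.dec 5 7 (.emb 3 [2,0,5,6,7,1,3]) (.dec 5 8 (.fresh 5 (.full 5 (.dec
  8 7 (.emb 5 [1,0,2,4,5,3,8,7,6]) (.dec 8 9 (.emb 1 [5,8,9]) (.fresh 8 (.full 8 (.dec 7 9 (.emb 7
  [5,8,4,2,1,6,0,9,7,3]) (.dec 7 10 (.emb 9 [8,10,5,2,6,3,7,0,4,1]) (.fresh 7 (.fresh 7 .big (.dec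
  9 10 (.emb 2 [5,8,10,9]) (.dec 9 11 (.fresh 9 .big (.dec 11 10 (.emb 18
  [11,7,9,10,3,5,8,6,1,2,4,0]) (.fresh 11 .big (.adj2 9 11)))) (.fresh 9 .big (.low 9))))) (.low
  7))))) (.adj2 4 8))))) (.dec 8 7 (.emb 5 [1,0,2,4,5,3,8,7,6]) (.fresh 8 (.full 8 (.dec 7 9 (.emb
  9 [8,9,5,2,6,3,7,0,4,1]) (.fresh 7 (.fresh 7 (.full 7 (.dec 9 10 (.dec 9 11 (.emb 2 [7,11,9,10])
  (.fresh 9 .big (.dec 10 11 (.emb 1 [7,11,10]) (.fresh 10 .big (.adj2 9 10))))) (.dec 9 11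
  (.fresh 9 .big (.dec 11 10 (.emb 1 [7,11,10]) (.fresh 11 .big (.adj2 9 11)))) (.fresh 9 .big
  (.low 9))))) (.dec 9 10 (.fresh 9 (.full 9 (.dec 10 11 (.emb 1 [9,10,11]) (.fresh 10 .big (.adj2
  7 10)))) (.fresh 10 (.full 10 (.fresh 11 .big (.low 11))) .cap)) (.fresh 9 (.fresh 9 .big (.dec
  10 11 (.fresh 10 .big .cap) (.fresh 10 .big (.low 10)))) (.low 9)))) (.low 7)))) (.adj2 5 8))))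
  (.fresh 5 (.fresh 5 (.full 5 s12_15) s12_16) (.low 5))))) (.low 4))))))))) (.dec 6 4 (.emb 2
  [1,3,6,4]) (.dec 6 5 (.emb 1 [2,5,6]) (.fresh 6 (.full 6 (.dec 4 5 (.emb 3 [1,3,4,0,5,6,2])
  (.dec 4 7 (.emb 3 [1,0,4,3,7,2,6]) (.fresh 4 (.fresh 4 (.full 4 (.dec 5 7 (.emb 2 [2,5,7,6])
  s12_18)) (.dec 5 7 (.emb 2 [2,5,7,6]) (.dec 5 8 (.fresh 5 (.full 5 (.dec 8 7 (.emb 5
  [2,0,1,5,4,6,8,7,3]) (.dec 8 9 (.emb 1 [5,8,9]) (.fresh 8 (.full 8 (.dec 7 9 (.emb 6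
  [6,2,7,3,0,5,9,1,8,4]) (.dec 7 10 (.emb 9 [8,10,4,1,3,6,7,0,5,2]) (.fresh 7 (.fresh 7 .big (.dec
  9 10 (.emb 2 [5,8,10,9]) (.dec 9 11 (.fresh 9 .big (.dec 11 10 (.emb 19
  [1,4,3,0,8,6,2,5,10,7,9,11]) (.fresh 11 .big (.adj2 9 11)))) (.fresh 9 .big (.low 9))))) (.low
  7))))) (.adj2 4 8))))) (.dec 8 7 (.emb 5 [2,0,1,5,4,6,8,7,3]) (.fresh 8 (.full 8 (.dec 7 9 (.emb
  9 [8,9,4,1,3,6,7,0,5,2]) (.fresh 7 (.fresh 7 (.full 7 (.dec 9 10 (.dec 9 11 (.emb 2 [7,10,9,11])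
  (.fresh 9 .big (.dec 10 11 (.emb 1 [7,10,11]) (.fresh 10 .big (.adj2 9 10))))) (.dec 9 11
  (.fresh 9 .big (.dec 11 10 (.emb 1 [7,10,11]) (.fresh 11 .big (.adj2 9 11)))) (.fresh 9 .big
  (.low 9))))) (.dec 9 10 (.fresh 9 (.full 9 (.dec 10 11 (.emb 1 [9,10,11]) (.fresh 10 .big (.adj2
  7 10)))) (.fresh 10 (.full 10 (.fresh 11 .big (.low 11))) .cap)) (.fresh 9 (.fresh 9 .big (.dec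
  10 11 (.fresh 10 .big .cap) (.fresh 10 .big (.low 10)))) (.low 9)))) (.low 7)))) (.adj2 5 8))))
  (.fresh 5 (.fresh 5 (.full 5 s12_19) s12_20) (.low 5))))) (.low 4))))) (.adj2 3 6)))))

def s12_22 : Cs :=
  (.fresh 6 (.full 6 (.dec 7 8 (.emb 1 [3,8,7]) (.dec 7 9 (.dec 7 10 (.emb 11
  [1,0,2,5,3,4,6,10,9,7]) (.dec 7 11 (.emb 11 [1,0,2,5,3,4,6,11,9,7]) (.fresh 7 .big (.dec 9 8
  (.emb 2 [3,8,9,7]) (.dec 9 10 (.emb 6 [1,4,3,0,5,9,7,2,10,6]) (.dec 9 11 (.emb 6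
  [1,4,3,0,5,9,7,2,11,6]) (.fresh 9 .big (.adj2 7 9)))))))) (.dec 7 10 (.dec 7 11 (.emb 2
  [6,11,7,10]) (.fresh 7 .big (.dec 10 8 (.emb 2 [3,8,10,7]) (.dec 10 9 (.emb 9
  [10,7,6,2,0,1,3,5,9,4]) (.dec 10 11 (.emb 1 [6,11,10]) (.fresh 10 .big (.adj2 7 10))))))) (.dec
  7 11 (.fresh 7 .big (.dec 11 8 (.emb 2 [3,8,11,7]) (.dec 11 9 (.emb 9 [11,7,6,2,0,1,3,5,9,4])
  (.dec 11 10 (.emb 1 [6,11,10]) (.fresh 11 .big (.adj2 7 11)))))) (.fresh 7 .big (.low 7)))))))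
  (.dec 7 8 (.emb 1 [3,8,7]) (.dec 7 9 (.dec 7 10 (.emb 11 [1,0,2,5,3,4,6,10,9,7]) (.fresh 7
  (.full 7 (.dec 9 8 (.emb 2 [3,8,9,7]) (.dec 9 10 (.emb 6 [1,4,3,0,5,9,7,2,10,6]) (.dec 9 11
  (.emb 1 [7,11,9]) (.fresh 9 .big (.dec 8 10 (.dec 8 11 (.emb 2 [3,8,11,7]) (.fresh 8 .big (.dec
  10 11 (.emb 14 [4,1,3,7,9,5,2,0,8,10,11]) (.fresh 10 .big (.adj2 8 10))))) (.dec 8 11 (.emb 2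
  [3,8,11,7]) (.fresh 8 .big (.low 8))))))))) (.dec 9 8 (.emb 2 [3,8,9,7]) (.dec 9 10 (.emb 6
  [1,4,3,0,5,9,7,2,10,6]) (.fresh 9 (.full 9 (.dec 8 10 (.dec 8 11 (.emb 3 [3,8,1,7,4,11,9])
  (.fresh 8 .big (.dec 10 11 (.emb 15 [10,8,6,11,3,2,9,7,1,0,5,4]) (.fresh 10 .big (.adj2 8
  10))))) (.dec 8 11 (.emb 3 [3,8,1,7,4,11,9]) (.fresh 8 .big (.low 8))))) (.adj2 7 9)))))) (.dec
  7 10 (.fresh 7 (.full 7 (.dec 10 8 (.emb 2 [3,8,10,7]) (.dec 10 9 (.emb 9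
  [10,7,6,2,0,1,3,5,9,4]) (.dec 10 11 (.emb 1 [7,11,10]) (.fresh 10 .big (.adj2 6 10)))))) (.dec
  10 8 (.emb 2 [3,8,10,7]) (.dec 10 9 (.emb 9 [10,7,6,2,0,1,3,5,9,4]) (.fresh 10 (.full 10 (.dec 8
  9 (.dec 8 11 (.emb 14 [4,1,3,8,9,5,2,0,7,10,11]) (.fresh 8 .big (.dec 9 11 (.emb 15
  [10,11,6,7,9,2,3,8,4,5,0,1]) (.fresh 9 .big (.adj2 8 9))))) (.dec 8 11 (.fresh 8 .big (.dec 11 9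
  (.emb 18 [2,6,0,5,10,1,4,7,11,3,9,8]) (.fresh 11 .big (.adj2 8 11)))) (.fresh 8 .big (.low
  8))))) (.adj2 7 10))))) (.fresh 7 (.fresh 7 .big (.dec 8 9 (.dec 8 10 (.emb 11
  [1,0,2,5,3,4,6,10,9,8]) (.dec 8 11 (.emb 2 [3,8,11,7]) (.fresh 8 .big (.dec 9 10 (.emb 6
  [1,4,3,0,5,9,8,2,10,6]) (.dec 9 11 (.emb 3 [3,1,7,8,11,4,9]) (.fresh 9 .big (.adj2 8 9)))))))
  (.dec 8 10 (.dec 8 11 (.emb 2 [3,8,11,7]) (.fresh 8 .big (.dec 10 9 (.emb 9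
  [10,8,6,2,0,1,3,5,9,4]) (.dec 10 11 (.full 10 (.dec 11 9 (.emb 18 [2,6,0,5,10,1,4,8,11,3,9,7])
  (.fresh 11 .big (.adj2 7 11)))) (.fresh 10 .big (.adj2 8 10)))))) (.dec 8 11 (.emb 2 [3,8,11,7])
  (.fresh 8 .big (.low 8)))))) (.low 7))))))

def s12_23 : Cs :=
  (.fresh 5 (.full 5 (.dec 6 7 (.dec 6 8 (.emb 2 [3,8,6,7]) (.dec 6 9 (.emb 3 [2,0,6,5,9,1,4])
  (.dec 6 10 (.emb 2 [2,5,10,6]) (.fresh 6 (.full 6 (.dec 7 8 (.emb 1 [3,8,7]) (.dec 7 9 (.emb 5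
  [1,0,2,3,6,4,7,9,5]) (.dec 7 10 (.emb 5 [2,0,1,6,3,5,7,10,4]) (.dec 7 11 (.emb 1 [6,11,7])
  (.fresh 7 .big (.dec 8 9 (.emb 6 [4,1,9,5,0,3,8,2,7,6]) (.dec 8 10 (.emb 7
  [3,8,10,1,5,0,4,7,6,2]) (.dec 8 11 (.emb 13 [1,2,3,6,0,4,5,7,8,11]) (.fresh 8 .big (.low
  8))))))))))) (.dec 7 8 (.emb 1 [3,8,7]) (.dec 7 9 (.emb 5 [1,0,2,3,6,4,7,9,5]) (.dec 7 10 (.emb
  5 [2,0,1,6,3,5,7,10,4]) (.fresh 7 (.full 7 (.dec 8 9 (.emb 6 [4,1,9,5,0,3,8,2,7,6]) (.dec 8 10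
  (.emb 7 [3,8,10,1,5,0,4,7,6,2]) (.dec 8 11 (.emb 2 [3,8,11,7]) (.fresh 8 .big (.low 8))))))
  (.adj2 6 7))))))))) (.dec 6 8 (.dec 6 9 (.emb 3 [2,0,6,5,9,1,4]) (.dec 6 10 (.emb 2 [2,5,10,6])
  (.fresh 6 (.full 6 (.dec 8 7 (.emb 1 [3,8,7]) (.dec 8 9 (.emb 5 [1,0,2,3,6,4,8,9,5]) (.dec 8 10
  (.emb 5 [2,0,1,6,3,5,8,10,4]) (.dec 8 11 (.emb 1 [6,8,11]) (.fresh 8 .big (.dec 7 9 (.emb 6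
  [4,1,9,5,0,3,7,2,8,6]) (.dec 7 10 (.emb 7 [3,8,6,1,2,4,0,7,10,5]) (.dec 7 11 (.emb 13
  [1,2,3,6,0,4,5,8,7,11]) (.fresh 7 .big (.low 7))))))))))) (.dec 8 7 (.emb 1 [3,8,7]) (.dec 8 9
  (.emb 5 [1,0,2,3,6,4,8,9,5]) (.dec 8 10 (.emb 5 [2,0,1,6,3,5,8,10,4]) (.fresh 8 (.full 8 (.dec 7
  9 (.emb 6 [4,1,9,5,0,3,7,2,8,6]) (.dec 7 10 (.emb 7 [3,8,6,1,2,4,0,7,10,5]) (.dec 7 11 (.emb 2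
  [3,8,11,7]) (.fresh 7 .big (.low 7)))))) (.adj2 6 8)))))))) (.dec 6 9 (.emb 3 [2,0,6,5,9,1,4])
  (.dec 6 10 (.emb 2 [2,5,10,6]) (.fresh 6 (.fresh 6 .big (.dec 7 8 (.emb 1 [3,8,7]) (.dec 7 9
  (.dec 7 10 (.emb 3 [4,1,5,9,10,3,7]) (.dec 7 11 (.emb 11 [1,0,2,5,3,4,6,11,9,7]) (.fresh 7 .big
  (.dec 9 8 (.emb 2 [3,8,9,7]) (.dec 9 10 (.emb 2 [4,5,10,9]) (.dec 9 11 (.emb 6
  [1,4,3,0,5,9,7,2,11,6]) (.fresh 9 .big (.adj2 7 9)))))))) (.dec 7 10 (.dec 7 11 (.emb 9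
  [7,11,3,1,0,2,6,4,10,5]) (.fresh 7 .big (.dec 10 8 (.emb 2 [3,8,10,7]) (.dec 10 9 (.emb 2
  [4,5,10,9]) (.dec 10 11 (.emb 6 [2,5,6,0,4,10,11,1,7,3]) (.fresh 10 .big (.adj2 7 10)))))))
  (.dec 7 11 (.fresh 7 .big (.dec 11 8 (.emb 2 [3,8,11,7]) (.dec 11 9 (.emb 9
  [11,7,6,2,0,1,3,5,9,4]) (.dec 11 10 (.emb 11 [2,0,1,4,6,5,3,7,10,11]) (.fresh 11 .big (.adj2 7
  11)))))) (.fresh 7 .big (.low 7))))))) (.low 6))))))) (.dec 6 7 (.dec 6 8 (.emb 2 [3,8,6,7])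
  (.dec 6 9 (.emb 3 [2,0,6,5,9,1,4]) (.fresh 6 (.full 6 (.dec 7 8 (.emb 1 [3,8,7]) (.dec 7 9 (.emb
  5 [1,0,2,3,6,4,7,9,5]) (.dec 7 10 (.emb 1 [6,10,7]) (.fresh 7 (.full 7 (.dec 8 9 (.emb 6
  [4,1,9,5,0,3,8,2,7,6]) (.dec 8 10 (.emb 13 [1,2,3,6,0,4,5,7,8,10]) (.dec 8 11 (.emb 2
  [3,8,11,7]) (.fresh 8 .big (.low 8)))))) (.dec 8 9 (.emb 6 [4,1,9,5,0,3,8,2,7,6]) (.dec 8 10
  (.emb 13 [1,2,3,6,0,4,5,7,8,10]) (.fresh 8 (.fresh 8 .big (.dec 9 10 (.emb 7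
  [6,10,9,2,4,0,5,7,3,1]) (.dec 9 11 (.fresh 9 .big (.dec 11 10 (.emb 17
  [11,10,9,8,6,4,3,7,2,1,5,0]) (.fresh 11 .big (.adj2 9 11)))) (.fresh 9 .big (.low 9))))) (.low
  8))))))))) (.dec 7 8 (.emb 1 [3,8,7]) (.dec 7 9 (.emb 5 [1,0,2,3,6,4,7,9,5]) (.fresh 7 (.full 7
  (.dec 8 9 (.emb 6 [4,1,9,5,0,3,8,2,7,6]) (.dec 8 10 (.emb 2 [3,8,10,7]) (.fresh 8 (.fresh 8 .big
  (.dec 9 10 (.emb 9 [7,10,6,2,5,4,9,0,3,1]) (.dec 9 11 (.fresh 9 .big (.dec 11 10 (.emb 19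
  [2,6,5,0,7,4,1,3,10,9,8,11]) (.fresh 11 .big (.adj2 9 11)))) (.fresh 9 .big (.low 9))))) (.low
  8))))) (.adj2 6 7))))))) (.dec 6 8 (.dec 6 9 (.emb 3 [2,0,6,5,9,1,4]) (.fresh 6 (.full 6 (.dec 8
  7 (.emb 1 [3,8,7]) (.dec 8 9 (.emb 5 [1,0,2,3,6,4,8,9,5]) (.dec 8 10 (.emb 1 [6,8,10]) (.fresh 8
  (.full 8 (.dec 7 9 (.emb 6 [4,1,9,5,0,3,7,2,8,6]) (.dec 7 10 (.emb 13 [1,2,3,6,0,4,5,8,7,10])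
  (.dec 7 11 (.emb 2 [3,8,11,7]) (.fresh 7 .big (.low 7)))))) (.dec 7 9 (.emb 6
  [4,1,9,5,0,3,7,2,8,6]) (.dec 7 10 (.emb 13 [1,2,3,6,0,4,5,8,7,10]) (.fresh 7 (.fresh 7 .big
  (.dec 9 10 (.emb 7 [6,8,3,2,1,5,0,10,9,4]) (.dec 9 11 (.fresh 9 .big (.dec 11 10 (.emb 17
  [11,10,9,7,6,4,3,8,2,1,5,0]) (.fresh 11 .big (.adj2 9 11)))) (.fresh 9 .big (.low 9))))) (.low
  7))))))))) (.dec 8 7 (.emb 1 [3,8,7]) (.dec 8 9 (.emb 5 [1,0,2,3,6,4,8,9,5]) (.fresh 8 (.full 8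
  (.dec 7 9 (.emb 6 [4,1,9,5,0,3,7,2,8,6]) (.dec 7 10 (.emb 2 [3,8,10,7]) (.fresh 7 (.fresh 7 .big
  (.dec 9 10 (.emb 9 [8,10,6,2,5,4,9,0,3,1]) (.dec 9 11 (.fresh 9 .big (.dec 11 10 (.emb 19
  [2,6,5,0,8,4,1,3,10,9,7,11]) (.fresh 11 .big (.adj2 9 11)))) (.fresh 9 .big (.low 9))))) (.low
  7))))) (.adj2 6 8)))))) (.dec 6 9 (.emb 3 [2,0,6,5,9,1,4]) (.fresh 6 s12_22 (.low 6))))))

def s12_24 : Cs :=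
  (.fresh 6 (.full 6 (.dec 7 8 (.emb 1 [3,8,7]) (.dec 7 9 (.dec 7 10 (.emb 9
  [7,10,3,1,0,2,6,4,9,5]) (.dec 7 11 (.emb 9 [7,11,3,1,0,2,6,4,9,5]) (.fresh 7 .big (.dec 9 8
  (.emb 2 [3,8,9,7]) (.dec 9 10 (.emb 6 [2,5,6,0,4,9,10,1,7,3]) (.dec 9 11 (.emb 6
  [2,5,6,0,4,9,11,1,7,3]) (.fresh 9 .big (.adj2 7 9)))))))) (.dec 7 10 (.dec 7 11 (.emb 2
  [6,11,7,10]) (.fresh 7 .big (.dec 10 8 (.emb 2 [3,8,10,7]) (.dec 10 9 (.emb 11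
  [2,0,1,4,6,5,3,7,9,10]) (.dec 10 11 (.emb 1 [6,11,10]) (.fresh 10 .big (.adj2 7 10))))))) (.dec
  7 11 (.fresh 7 .big (.dec 11 8 (.emb 2 [3,8,11,7]) (.dec 11 9 (.emb 11 [2,0,1,4,6,5,3,7,9,11])
  (.dec 11 10 (.emb 1 [6,11,10]) (.fresh 11 .big (.adj2 7 11)))))) (.fresh 7 .big (.low 7)))))))
  (.dec 7 8 (.emb 1 [3,8,7]) (.dec 7 9 (.dec 7 10 (.emb 9 [7,10,3,1,0,2,6,4,9,5]) (.fresh 7 (.full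
  7 (.dec 9 8 (.emb 2 [3,8,9,7]) (.dec 9 10 (.emb 6 [2,5,6,0,4,9,10,1,7,3]) (.dec 9 11 (.emb 1
  [7,11,9]) (.fresh 9 .big (.dec 8 10 (.dec 8 11 (.emb 2 [3,8,11,7]) (.fresh 8 .big (.dec 10 11
  (.emb 18 [10,6,8,11,2,3,7,0,5,1,9,4]) (.fresh 10 .big (.adj2 8 10))))) (.dec 8 11 (.emb 2
  [3,8,11,7]) (.fresh 8 .big (.low 8))))))))) (.dec 9 8 (.emb 2 [3,8,9,7]) (.dec 9 10 (.emb 6
  [2,5,6,0,4,9,10,1,7,3]) (.fresh 9 (.full 9 (.dec 8 10 (.dec 8 11 (.emb 13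
  [1,5,3,9,4,0,2,7,8,11]) (.fresh 8 .big (.dec 10 11 (.emb 17 [10,8,6,11,3,2,9,7,1,5,0,4]) (.fresh
  10 .big (.adj2 8 10))))) (.dec 8 11 (.emb 13 [1,5,3,9,4,0,2,7,8,11]) (.fresh 8 .big (.low 8)))))
  (.adj2 7 9)))))) (.dec 7 10 (.fresh 7 (.full 7 (.dec 10 8 (.emb 2 [3,8,10,7]) (.dec 10 9 (.emb
  11 [2,0,1,4,6,5,3,7,9,10]) (.dec 10 11 (.emb 1 [7,11,10]) (.fresh 10 .big (.adj2 6 10))))))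
  (.dec 10 8 (.emb 2 [3,8,10,7]) (.dec 10 9 (.emb 11 [2,0,1,4,6,5,3,7,9,10]) (.fresh 10 (.full 10
  (.dec 8 9 (.dec 8 11 (.emb 18 [10,6,7,11,2,3,8,0,5,1,9,4]) (.fresh 8 .big (.dec 9 11 (.emb 17
  [10,7,6,11,3,2,9,8,1,5,0,4]) (.fresh 9 .big (.adj2 8 9))))) (.dec 8 11 (.fresh 8 .big (.dec 11 9
  (.emb 21 [2,5,0,6,4,9,1,10,11,3,7,8]) (.fresh 11 .big (.adj2 8 11)))) (.fresh 8 .big (.low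
  8))))) (.adj2 7 10))))) (.fresh 7 (.fresh 7 .big (.dec 8 9 (.dec 8 10 (.emb 9
  [8,10,3,1,0,2,6,4,9,5]) (.dec 8 11 (.emb 2 [3,8,11,7]) (.fresh 8 .big (.dec 9 10 (.emb 6
  [2,5,6,0,4,9,10,1,8,3]) (.dec 9 11 (.emb 13 [1,5,3,9,4,0,2,8,7,11]) (.fresh 9 .big (.adj2 8
  9))))))) (.dec 8 10 (.dec 8 11 (.emb 2 [3,8,11,7]) (.fresh 8 .big (.dec 10 9 (.emb 11
  [2,0,1,4,6,5,3,8,9,10]) (.dec 10 11 (.full 10 (.dec 11 9 (.emb 21 [2,5,0,6,4,9,1,10,11,3,8,7])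
  (.fresh 11 .big (.adj2 7 11)))) (.fresh 10 .big (.adj2 8 10)))))) (.dec 8 11 (.emb 2 [3,8,11,7])
  (.fresh 8 .big (.low 8)))))) (.low 7))))))

def s12_25 : Cs :=
  (.fresh 5 (.full 5 (.dec 6 7 (.dec 6 8 (.emb 2 [3,8,6,7]) (.dec 6 9 (.emb 2 [2,5,9,6]) (.fresh 6
  (.full 6 (.dec 7 8 (.emb 1 [3,8,7]) (.dec 7 9 (.emb 5 [2,0,1,6,3,5,7,9,4]) (.dec 7 10 (.emb 1
  [6,10,7]) (.fresh 7 (.full 7 (.dec 8 9 (.emb 7 [3,8,9,1,5,0,4,7,6,2]) (.dec 8 10 (.emb 13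
  [1,2,3,6,0,4,5,7,8,10]) (.dec 8 11 (.emb 2 [3,8,11,7]) (.fresh 8 .big (.low 8)))))) (.dec 8 9
  (.emb 7 [3,8,9,1,5,0,4,7,6,2]) (.dec 8 10 (.emb 13 [1,2,3,6,0,4,5,7,8,10]) (.fresh 8 (.fresh 8
  .big (.dec 9 10 (.emb 6 [5,2,9,4,0,6,10,1,7,3]) (.dec 9 11 (.fresh 9 .big (.dec 11 10 (.emb 17
  [11,8,9,10,3,5,6,7,1,2,4,0]) (.fresh 11 .big (.adj2 9 11)))) (.fresh 9 .big (.low 9))))) (.low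
  8))))))))) (.dec 7 8 (.emb 1 [3,8,7]) (.dec 7 9 (.emb 5 [2,0,1,6,3,5,7,9,4]) (.fresh 7 (.full 7
  (.dec 8 9 (.emb 7 [3,8,9,1,5,0,4,7,6,2]) (.dec 8 10 (.emb 2 [3,8,10,7]) (.fresh 8 (.fresh 8 .big
  (.dec 9 10 (.emb 9 [7,10,3,1,4,5,9,0,6,2]) (.dec 9 11 (.fresh 9 .big (.dec 11 10 (.emb 18
  [11,9,8,10,5,3,7,4,2,1,6,0]) (.fresh 11 .big (.adj2 9 11)))) (.fresh 9 .big (.low 9))))) (.low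
  8))))) (.adj2 6 7))))))) (.dec 6 8 (.dec 6 9 (.emb 2 [2,5,9,6]) (.fresh 6 (.full 6 (.dec 8 7
  (.emb 1 [3,8,7]) (.dec 8 9 (.emb 5 [2,0,1,6,3,5,8,9,4]) (.dec 8 10 (.emb 1 [6,8,10]) (.fresh 8
  (.full 8 (.dec 7 9 (.emb 7 [3,8,6,1,2,4,0,7,9,5]) (.dec 7 10 (.emb 13 [1,2,3,6,0,4,5,8,7,10])
  (.dec 7 11 (.emb 2 [3,8,11,7]) (.fresh 7 .big (.low 7)))))) (.dec 7 9 (.emb 7
  [3,8,6,1,2,4,0,7,9,5]) (.dec 7 10 (.emb 13 [1,2,3,6,0,4,5,8,7,10]) (.fresh 7 (.fresh 7 .big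
  (.dec 9 10 (.emb 6 [5,2,9,4,0,6,10,1,8,3]) (.dec 9 11 (.fresh 9 .big (.dec 11 10 (.emb 17
  [11,7,9,10,3,5,6,8,1,2,4,0]) (.fresh 11 .big (.adj2 9 11)))) (.fresh 9 .big (.low 9))))) (.low
  7))))))))) (.dec 8 7 (.emb 1 [3,8,7]) (.dec 8 9 (.emb 5 [2,0,1,6,3,5,8,9,4]) (.fresh 8 (.full 8
  (.dec 7 9 (.emb 7 [3,8,6,1,2,4,0,7,9,5]) (.dec 7 10 (.emb 2 [3,8,10,7]) (.fresh 7 (.fresh 7 .big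
  (.dec 9 10 (.emb 9 [8,10,3,1,4,5,9,0,6,2]) (.dec 9 11 (.fresh 9 .big (.dec 11 10 (.emb 18
  [11,9,7,10,5,3,8,4,2,1,6,0]) (.fresh 11 .big (.adj2 9 11)))) (.fresh 9 .big (.low 9))))) (.low
  7))))) (.adj2 6 8)))))) (.dec 6 9 (.emb 2 [2,5,9,6]) (.fresh 6 s12_24 (.low 6)))))) (.adj2 4 5))

def s12_26 : Cs :=
  (.fresh 5 (.full 5 (.dec 7 8 (.emb 1 [3,8,7]) (.dec 7 9 (.dec 7 10 (.emb 11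
  [1,0,2,6,3,4,5,10,9,7]) (.dec 7 11 (.emb 11 [1,0,2,6,3,4,5,11,9,7]) (.fresh 7 .big (.dec 9 8
  (.emb 2 [3,8,9,7]) (.dec 9 10 (.emb 6 [1,4,3,0,6,9,7,2,10,5]) (.dec 9 11 (.emb 6
  [1,4,3,0,6,9,7,2,11,5]) (.fresh 9 .big (.adj2 7 9)))))))) (.dec 7 10 (.dec 7 11 (.emb 2
  [5,11,7,10]) (.fresh 7 .big (.dec 10 8 (.emb 2 [3,8,10,7]) (.dec 10 9 (.emb 9
  [10,7,5,2,0,1,3,6,9,4]) (.dec 10 11 (.emb 1 [5,11,10]) (.fresh 10 .big (.adj2 7 10))))))) (.dec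
  7 11 (.fresh 7 .big (.dec 11 8 (.emb 2 [3,8,11,7]) (.dec 11 9 (.emb 9 [11,7,5,2,0,1,3,6,9,4])
  (.dec 11 10 (.emb 1 [5,11,10]) (.fresh 11 .big (.adj2 7 11)))))) (.fresh 7 .big (.low 7)))))))
  (.dec 7 8 (.emb 1 [3,8,7]) (.dec 7 9 (.dec 7 10 (.emb 11 [1,0,2,6,3,4,5,10,9,7]) (.fresh 7
  (.full 7 (.dec 9 8 (.emb 2 [3,8,9,7]) (.dec 9 10 (.emb 6 [1,4,3,0,6,9,7,2,10,5]) (.dec 9 11
  (.emb 1 [7,11,9]) (.fresh 9 .big (.dec 8 10 (.dec 8 11 (.emb 2 [3,8,11,7]) (.fresh 8 .big (.dec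
  10 11 (.emb 14 [4,1,3,7,9,6,2,0,8,10,11]) (.fresh 10 .big (.adj2 8 10))))) (.dec 8 11 (.emb 2
  [3,8,11,7]) (.fresh 8 .big (.low 8))))))))) (.dec 9 8 (.emb 2 [3,8,9,7]) (.dec 9 10 (.emb 6
  [1,4,3,0,6,9,7,2,10,5]) (.fresh 9 (.full 9 (.dec 8 10 (.dec 8 11 (.emb 3 [3,8,1,7,4,11,9])
  (.fresh 8 .big (.dec 10 11 (.emb 15 [10,8,5,11,3,2,9,7,1,0,6,4]) (.fresh 10 .big (.adj2 8
  10))))) (.dec 8 11 (.emb 3 [3,8,1,7,4,11,9]) (.fresh 8 .big (.low 8))))) (.adj2 7 9)))))) (.dec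
  7 10 (.fresh 7 (.full 7 (.dec 10 8 (.emb 2 [3,8,10,7]) (.dec 10 9 (.emb 9
  [10,7,5,2,0,1,3,6,9,4]) (.dec 10 11 (.emb 1 [7,11,10]) (.fresh 10 .big (.adj2 5 10)))))) (.dec
  10 8 (.emb 2 [3,8,10,7]) (.dec 10 9 (.emb 9 [10,7,5,2,0,1,3,6,9,4]) (.fresh 10 (.full 10 (.dec 8
  9 (.dec 8 11 (.emb 14 [4,1,3,8,9,6,2,0,7,10,11]) (.fresh 8 .big (.dec 9 11 (.emb 15
  [10,11,5,7,9,2,3,8,4,6,0,1]) (.fresh 9 .big (.adj2 8 9))))) (.dec 8 11 (.fresh 8 .big (.dec 11 9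
  (.emb 18 [2,5,0,6,10,1,4,7,11,3,9,8]) (.fresh 11 .big (.adj2 8 11)))) (.fresh 8 .big (.low
  8))))) (.adj2 7 10))))) (.fresh 7 (.fresh 7 .big (.dec 8 9 (.dec 8 10 (.emb 11
  [1,0,2,6,3,4,5,10,9,8]) (.dec 8 11 (.emb 2 [3,8,11,7]) (.fresh 8 .big (.dec 9 10 (.emb 6
  [1,4,3,0,6,9,8,2,10,5]) (.dec 9 11 (.emb 3 [3,1,7,8,11,4,9]) (.fresh 9 .big (.adj2 8 9)))))))
  (.dec 8 10 (.dec 8 11 (.emb 2 [3,8,11,7]) (.fresh 8 .big (.dec 10 9 (.emb 9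
  [10,8,5,2,0,1,3,6,9,4]) (.dec 10 11 (.full 10 (.dec 11 9 (.emb 18 [2,5,0,6,10,1,4,8,11,3,9,7])
  (.fresh 11 .big (.adj2 7 11)))) (.fresh 10 .big (.adj2 8 10)))))) (.dec 8 11 (.emb 2 [3,8,11,7])
  (.fresh 8 .big (.low 8)))))) (.low 7))))))

def s12_27 : Cs :=
  (.fresh 6 (.full 6 (.dec 5 7 (.dec 5 8 (.emb 2 [3,8,5,7]) (.dec 5 9 (.emb 3 [2,0,5,6,9,1,4])
  (.dec 5 10 (.emb 2 [2,5,10,6]) (.fresh 5 (.full 5 (.dec 7 8 (.emb 1 [3,8,7]) (.dec 7 9 (.emb 5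
  [1,0,2,3,5,4,7,9,6]) (.dec 7 10 (.emb 5 [2,0,1,5,3,6,7,10,4]) (.dec 7 11 (.emb 1 [5,11,7])
  (.fresh 7 .big (.dec 8 9 (.emb 6 [4,1,9,6,0,3,8,2,7,5]) (.dec 8 10 (.emb 7
  [3,8,10,1,6,0,4,7,5,2]) (.dec 8 11 (.emb 13 [1,2,3,5,0,4,6,7,8,11]) (.fresh 8 .big (.low
  8))))))))))) (.dec 7 8 (.emb 1 [3,8,7]) (.dec 7 9 (.emb 5 [1,0,2,3,5,4,7,9,6]) (.dec 7 10 (.emb
  5 [2,0,1,5,3,6,7,10,4]) (.fresh 7 (.full 7 (.dec 8 9 (.emb 6 [4,1,9,6,0,3,8,2,7,5]) (.dec 8 10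
  (.emb 7 [3,8,10,1,6,0,4,7,5,2]) (.dec 8 11 (.emb 2 [3,8,11,7]) (.fresh 8 .big (.low 8))))))
  (.adj2 5 7))))))))) (.dec 5 8 (.dec 5 9 (.emb 3 [2,0,5,6,9,1,4]) (.dec 5 10 (.emb 2 [2,5,10,6])
  (.fresh 5 (.full 5 (.dec 8 7 (.emb 1 [3,8,7]) (.dec 8 9 (.emb 5 [1,0,2,3,5,4,8,9,6]) (.dec 8 10
  (.emb 5 [2,0,1,5,3,6,8,10,4]) (.dec 8 11 (.emb 1 [5,8,11]) (.fresh 8 .big (.dec 7 9 (.emb 6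
  [4,1,9,6,0,3,7,2,8,5]) (.dec 7 10 (.emb 7 [3,8,5,1,2,4,0,7,10,6]) (.dec 7 11 (.emb 13
  [1,2,3,5,0,4,6,8,7,11]) (.fresh 7 .big (.low 7))))))))))) (.dec 8 7 (.emb 1 [3,8,7]) (.dec 8 9
  (.emb 5 [1,0,2,3,5,4,8,9,6]) (.dec 8 10 (.emb 5 [2,0,1,5,3,6,8,10,4]) (.fresh 8 (.full 8 (.dec 7
  9 (.emb 6 [4,1,9,6,0,3,7,2,8,5]) (.dec 7 10 (.emb 7 [3,8,5,1,2,4,0,7,10,6]) (.dec 7 11 (.emb 2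
  [3,8,11,7]) (.fresh 7 .big (.low 7)))))) (.adj2 5 8)))))))) (.dec 5 9 (.emb 3 [2,0,5,6,9,1,4])
  (.dec 5 10 (.emb 2 [2,5,10,6]) (.fresh 5 (.fresh 5 .big (.dec 7 8 (.emb 1 [3,8,7]) (.dec 7 9
  (.dec 7 10 (.emb 3 [4,1,6,9,10,3,7]) (.dec 7 11 (.emb 11 [1,0,2,6,3,4,5,11,9,7]) (.fresh 7 .big
  (.dec 9 8 (.emb 2 [3,8,9,7]) (.dec 9 10 (.emb 2 [4,6,10,9]) (.dec 9 11 (.emb 6
  [1,4,3,0,6,9,7,2,11,5]) (.fresh 9 .big (.adj2 7 9)))))))) (.dec 7 10 (.dec 7 11 (.emb 9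
  [7,11,3,1,0,2,5,4,10,6]) (.fresh 7 .big (.dec 10 8 (.emb 2 [3,8,10,7]) (.dec 10 9 (.emb 2
  [4,6,10,9]) (.dec 10 11 (.emb 6 [2,6,5,0,4,10,11,1,7,3]) (.fresh 10 .big (.adj2 7 10)))))))
  (.dec 7 11 (.fresh 7 .big (.dec 11 8 (.emb 2 [3,8,11,7]) (.dec 11 9 (.emb 9
  [11,7,5,2,0,1,3,6,9,4]) (.dec 11 10 (.emb 11 [2,0,1,4,5,6,3,7,10,11]) (.fresh 11 .big (.adj2 7
  11)))))) (.fresh 7 .big (.low 7))))))) (.low 5))))))) (.dec 5 7 (.dec 5 8 (.emb 2 [3,8,5,7])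
  (.dec 5 9 (.emb 3 [2,0,5,6,9,1,4]) (.fresh 5 (.full 5 (.dec 7 8 (.emb 1 [3,8,7]) (.dec 7 9 (.emb
  5 [1,0,2,3,5,4,7,9,6]) (.dec 7 10 (.emb 1 [5,10,7]) (.fresh 7 (.full 7 (.dec 8 9 (.emb 6
  [4,1,9,6,0,3,8,2,7,5]) (.dec 8 10 (.emb 13 [1,2,3,5,0,4,6,7,8,10]) (.dec 8 11 (.emb 2
  [3,8,11,7]) (.fresh 8 .big (.low 8)))))) (.dec 8 9 (.emb 6 [4,1,9,6,0,3,8,2,7,5]) (.dec 8 10
  (.emb 13 [1,2,3,5,0,4,6,7,8,10]) (.fresh 8 (.fresh 8 .big (.dec 9 10 (.emb 7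
  [5,10,9,2,4,0,6,7,3,1]) (.dec 9 11 (.fresh 9 .big (.dec 11 10 (.emb 17
  [11,10,9,8,5,4,3,7,2,1,6,0]) (.fresh 11 .big (.adj2 9 11)))) (.fresh 9 .big (.low 9))))) (.low
  8))))))))) (.dec 7 8 (.emb 1 [3,8,7]) (.dec 7 9 (.emb 5 [1,0,2,3,5,4,7,9,6]) (.fresh 7 (.full 7
  (.dec 8 9 (.emb 6 [4,1,9,6,0,3,8,2,7,5]) (.dec 8 10 (.emb 2 [3,8,10,7]) (.fresh 8 (.fresh 8 .big
  (.dec 9 10 (.emb 9 [7,10,5,2,6,4,9,0,3,1]) (.dec 9 11 (.fresh 9 .big (.dec 11 10 (.emb 19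
  [2,5,6,0,7,4,1,3,10,9,8,11]) (.fresh 11 .big (.adj2 9 11)))) (.fresh 9 .big (.low 9))))) (.low
  8))))) (.adj2 5 7))))))) (.dec 5 8 (.dec 5 9 (.emb 3 [2,0,5,6,9,1,4]) (.fresh 5 (.full 5 (.dec 8
  7 (.emb 1 [3,8,7]) (.dec 8 9 (.emb 5 [1,0,2,3,5,4,8,9,6]) (.dec 8 10 (.emb 1 [5,8,10]) (.fresh 8
  (.full 8 (.dec 7 9 (.emb 6 [4,1,9,6,0,3,7,2,8,5]) (.dec 7 10 (.emb 13 [1,2,3,5,0,4,6,8,7,10])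
  (.dec 7 11 (.emb 2 [3,8,11,7]) (.fresh 7 .big (.low 7)))))) (.dec 7 9 (.emb 6
  [4,1,9,6,0,3,7,2,8,5]) (.dec 7 10 (.emb 13 [1,2,3,5,0,4,6,8,7,10]) (.fresh 7 (.fresh 7 .big
  (.dec 9 10 (.emb 7 [5,8,3,2,1,6,0,10,9,4]) (.dec 9 11 (.fresh 9 .big (.dec 11 10 (.emb 17
  [11,10,9,7,5,4,3,8,2,1,6,0]) (.fresh 11 .big (.adj2 9 11)))) (.fresh 9 .big (.low 9))))) (.low
  7))))))))) (.dec 8 7 (.emb 1 [3,8,7]) (.dec 8 9 (.emb 5 [1,0,2,3,5,4,8,9,6]) (.fresh 8 (.full 8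
  (.dec 7 9 (.emb 6 [4,1,9,6,0,3,7,2,8,5]) (.dec 7 10 (.emb 2 [3,8,10,7]) (.fresh 7 (.fresh 7 .big
  (.dec 9 10 (.emb 9 [8,10,5,2,6,4,9,0,3,1]) (.dec 9 11 (.fresh 9 .big (.dec 11 10 (.emb 19
  [2,5,6,0,8,4,1,3,10,9,7,11]) (.fresh 11 .big (.adj2 9 11)))) (.fresh 9 .big (.low 9))))) (.low
  7))))) (.adj2 5 8)))))) (.dec 5 9 (.emb 3 [2,0,5,6,9,1,4]) (.fresh 5 s12_26 (.low 5))))))

def s12_28 : Cs :=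
  (.fresh 5 (.full 5 (.dec 7 8 (.emb 1 [3,8,7]) (.dec 7 9 (.dec 7 10 (.emb 9
  [7,10,3,1,0,2,5,4,9,6]) (.dec 7 11 (.emb 9 [7,11,3,1,0,2,5,4,9,6]) (.fresh 7 .big (.dec 9 8
  (.emb 2 [3,8,9,7]) (.dec 9 10 (.emb 6 [2,6,5,0,4,9,10,1,7,3]) (.dec 9 11 (.emb 6
  [2,6,5,0,4,9,11,1,7,3]) (.fresh 9 .big (.adj2 7 9)))))))) (.dec 7 10 (.dec 7 11 (.emb 2
  [5,11,7,10]) (.fresh 7 .big (.dec 10 8 (.emb 2 [3,8,10,7]) (.dec 10 9 (.emb 11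
  [2,0,1,4,5,6,3,7,9,10]) (.dec 10 11 (.emb 1 [5,11,10]) (.fresh 10 .big (.adj2 7 10))))))) (.dec
  7 11 (.fresh 7 .big (.dec 11 8 (.emb 2 [3,8,11,7]) (.dec 11 9 (.emb 11 [2,0,1,4,5,6,3,7,9,11])
  (.dec 11 10 (.emb 1 [5,11,10]) (.fresh 11 .big (.adj2 7 11)))))) (.fresh 7 .big (.low 7)))))))
  (.dec 7 8 (.emb 1 [3,8,7]) (.dec 7 9 (.dec 7 10 (.emb 9 [7,10,3,1,0,2,5,4,9,6]) (.fresh 7 (.full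
  7 (.dec 9 8 (.emb 2 [3,8,9,7]) (.dec 9 10 (.emb 6 [2,6,5,0,4,9,10,1,7,3]) (.dec 9 11 (.emb 1
  [7,11,9]) (.fresh 9 .big (.dec 8 10 (.dec 8 11 (.emb 2 [3,8,11,7]) (.fresh 8 .big (.dec 10 11
  (.emb 18 [10,5,8,11,2,3,7,0,6,1,9,4]) (.fresh 10 .big (.adj2 8 10))))) (.dec 8 11 (.emb 2
  [3,8,11,7]) (.fresh 8 .big (.low 8))))))))) (.dec 9 8 (.emb 2 [3,8,9,7]) (.dec 9 10 (.emb 6
  [2,6,5,0,4,9,10,1,7,3]) (.fresh 9 (.full 9 (.dec 8 10 (.dec 8 11 (.emb 13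
  [1,6,3,9,4,0,2,7,8,11]) (.fresh 8 .big (.dec 10 11 (.emb 17 [10,8,5,11,3,2,9,7,1,6,0,4]) (.fresh
  10 .big (.adj2 8 10))))) (.dec 8 11 (.emb 13 [1,6,3,9,4,0,2,7,8,11]) (.fresh 8 .big (.low 8)))))
  (.adj2 7 9)))))) (.dec 7 10 (.fresh 7 (.full 7 (.dec 10 8 (.emb 2 [3,8,10,7]) (.dec 10 9 (.emb
  11 [2,0,1,4,5,6,3,7,9,10]) (.dec 10 11 (.emb 1 [7,11,10]) (.fresh 10 .big (.adj2 5 10))))))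
  (.dec 10 8 (.emb 2 [3,8,10,7]) (.dec 10 9 (.emb 11 [2,0,1,4,5,6,3,7,9,10]) (.fresh 10 (.full 10
  (.dec 8 9 (.dec 8 11 (.emb 18 [10,5,7,11,2,3,8,0,6,1,9,4]) (.fresh 8 .big (.dec 9 11 (.emb 17
  [10,7,5,11,3,2,9,8,1,6,0,4]) (.fresh 9 .big (.adj2 8 9))))) (.dec 8 11 (.fresh 8 .big (.dec 11 9
  (.emb 21 [2,6,0,5,4,9,1,10,11,3,7,8]) (.fresh 11 .big (.adj2 8 11)))) (.fresh 8 .big (.low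
  8))))) (.adj2 7 10))))) (.fresh 7 (.fresh 7 .big (.dec 8 9 (.dec 8 10 (.emb 9
  [8,10,3,1,0,2,5,4,9,6]) (.dec 8 11 (.emb 2 [3,8,11,7]) (.fresh 8 .big (.dec 9 10 (.emb 6
  [2,6,5,0,4,9,10,1,8,3]) (.dec 9 11 (.emb 13 [1,6,3,9,4,0,2,8,7,11]) (.fresh 9 .big (.adj2 8
  9))))))) (.dec 8 10 (.dec 8 11 (.emb 2 [3,8,11,7]) (.fresh 8 .big (.dec 10 9 (.emb 11
  [2,0,1,4,5,6,3,8,9,10]) (.dec 10 11 (.full 10 (.dec 11 9 (.emb 21 [2,6,0,5,4,9,1,10,11,3,8,7])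
  (.fresh 11 .big (.adj2 7 11)))) (.fresh 10 .big (.adj2 8 10)))))) (.dec 8 11 (.emb 2 [3,8,11,7])
  (.fresh 8 .big (.low 8)))))) (.low 7))))))

def s12_29 : Cs :=
  (.fresh 6 (.full 6 (.dec 5 7 (.dec 5 8 (.emb 2 [3,8,5,7]) (.dec 5 9 (.emb 2 [2,5,9,6]) (.fresh 5
  (.full 5 (.dec 7 8 (.emb 1 [3,8,7]) (.dec 7 9 (.emb 5 [2,0,1,5,3,6,7,9,4]) (.dec 7 10 (.emb 1
  [5,10,7]) (.fresh 7 (.full 7 (.dec 8 9 (.emb 7 [3,8,9,1,6,0,4,7,5,2]) (.dec 8 10 (.emb 13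
  [1,2,3,5,0,4,6,7,8,10]) (.dec 8 11 (.emb 2 [3,8,11,7]) (.fresh 8 .big (.low 8)))))) (.dec 8 9
  (.emb 7 [3,8,9,1,6,0,4,7,5,2]) (.dec 8 10 (.emb 13 [1,2,3,5,0,4,6,7,8,10]) (.fresh 8 (.fresh 8
  .big (.dec 9 10 (.emb 6 [6,2,9,4,0,5,10,1,7,3]) (.dec 9 11 (.fresh 9 .big (.dec 11 10 (.emb 17
  [11,8,9,10,3,6,5,7,1,2,4,0]) (.fresh 11 .big (.adj2 9 11)))) (.fresh 9 .big (.low 9))))) (.low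
  8))))))))) (.dec 7 8 (.emb 1 [3,8,7]) (.dec 7 9 (.emb 5 [2,0,1,5,3,6,7,9,4]) (.fresh 7 (.full 7
  (.dec 8 9 (.emb 7 [3,8,9,1,6,0,4,7,5,2]) (.dec 8 10 (.emb 2 [3,8,10,7]) (.fresh 8 (.fresh 8 .big
  (.dec 9 10 (.emb 9 [7,10,3,1,4,6,9,0,5,2]) (.dec 9 11 (.fresh 9 .big (.dec 11 10 (.emb 18
  [11,9,8,10,6,3,7,4,2,1,5,0]) (.fresh 11 .big (.adj2 9 11)))) (.fresh 9 .big (.low 9))))) (.low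
  8))))) (.adj2 5 7))))))) (.dec 5 8 (.dec 5 9 (.emb 2 [2,5,9,6]) (.fresh 5 (.full 5 (.dec 8 7
  (.emb 1 [3,8,7]) (.dec 8 9 (.emb 5 [2,0,1,5,3,6,8,9,4]) (.dec 8 10 (.emb 1 [5,8,10]) (.fresh 8
  (.full 8 (.dec 7 9 (.emb 7 [3,8,5,1,2,4,0,7,9,6]) (.dec 7 10 (.emb 13 [1,2,3,5,0,4,6,8,7,10])
  (.dec 7 11 (.emb 2 [3,8,11,7]) (.fresh 7 .big (.low 7)))))) (.dec 7 9 (.emb 7
  [3,8,5,1,2,4,0,7,9,6]) (.dec 7 10 (.emb 13 [1,2,3,5,0,4,6,8,7,10]) (.fresh 7 (.fresh 7 .big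
  (.dec 9 10 (.emb 6 [6,2,9,4,0,5,10,1,8,3]) (.dec 9 11 (.fresh 9 .big (.dec 11 10 (.emb 17
  [11,7,9,10,3,6,5,8,1,2,4,0]) (.fresh 11 .big (.adj2 9 11)))) (.fresh 9 .big (.low 9))))) (.low
  7))))))))) (.dec 8 7 (.emb 1 [3,8,7]) (.dec 8 9 (.emb 5 [2,0,1,5,3,6,8,9,4]) (.fresh 8 (.full 8
  (.dec 7 9 (.emb 7 [3,8,5,1,2,4,0,7,9,6]) (.dec 7 10 (.emb 2 [3,8,10,7]) (.fresh 7 (.fresh 7 .big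
  (.dec 9 10 (.emb 9 [8,10,3,1,4,6,9,0,5,2]) (.dec 9 11 (.fresh 9 .big (.dec 11 10 (.emb 18
  [11,9,7,10,6,3,8,4,2,1,5,0]) (.fresh 11 .big (.adj2 9 11)))) (.fresh 9 .big (.low 9))))) (.low
  7))))) (.adj2 5 8)))))) (.dec 5 9 (.emb 2 [2,5,9,6]) (.fresh 5 s12_28 (.low 5)))))) (.adj2 4 6))

def s12_30 : Cs :=
  (.fresh 5 (.full 5 (.dec 7 6 (.emb 2 [2,5,7,6]) (.dec 7 8 (.emb 1 [3,8,7]) (.dec 7 9 (.full 7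
  (.dec 9 6 (.emb 5 [7,3,1,5,0,9,2,6,4]) (.dec 9 8 (.emb 2 [3,8,9,7]) (.dec 9 10 (.emb 1 [4,10,9])
  (.dec 9 11 (.emb 2 [5,11,9,7]) (.fresh 9 .big (.dec 6 8 (.emb 4 [0,2,5,6,7,3,8,1]) (.dec 6 10
  (.emb 9 [2,6,5,7,9,4,10,3,0,1]) (.dec 6 11 (.emb 2 [2,5,11,6]) (.fresh 6 .big (.low 6)))))))))))
  (.dec 7 10 (.full 7 (.dec 10 6 (.emb 5 [7,3,1,5,0,10,2,6,4]) (.dec 10 8 (.emb 2 [3,8,10,7])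
  (.dec 10 9 (.emb 1 [4,10,9]) (.dec 10 11 (.emb 2 [5,11,10,7]) (.fresh 10 .big (.dec 6 8 (.emb 4
  [0,2,5,6,7,3,8,1]) (.dec 6 9 (.emb 9 [2,6,5,7,10,4,9,3,0,1]) (.dec 6 11 (.emb 2 [2,5,11,6])
  (.fresh 6 .big (.low 6))))))))))) (.dec 7 11 (.emb 1 [5,11,7]) (.fresh 7 .big (.dec 6 8 (.emb 4
  [0,2,5,6,7,3,8,1]) (.dec 6 9 (.dec 6 10 (.emb 2 [4,10,6,9]) (.dec 6 11 (.emb 2 [2,5,11,6])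
  (.fresh 6 .big (.dec 9 8 (.emb 9 [2,5,6,9,8,3,7,4,0,1]) (.dec 9 10 (.emb 1 [4,10,9]) (.dec 9 11
  (.emb 9 [1,3,4,9,11,5,7,6,0,2]) (.fresh 9 .big (.adj2 6 9)))))))) (.dec 6 10 (.dec 6 11 (.emb 2
  [2,5,11,6]) (.fresh 6 .big (.dec 10 8 (.emb 9 [2,5,6,10,8,3,7,4,0,1]) (.dec 10 9 (.emb 1
  [4,10,9]) (.dec 10 11 (.emb 9 [1,3,4,10,11,5,7,6,0,2]) (.fresh 10 .big (.adj2 6 10))))))) (.dec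
  6 11 (.emb 2 [2,5,11,6]) (.fresh 6 .big (.low 6))))))))))))) (.dec 7 6 (.emb 2 [2,5,7,6]) (.dec
  7 8 (.emb 1 [3,8,7]) (.dec 7 9 (.full 7 (.dec 9 6 (.emb 5 [7,3,1,5,0,9,2,6,4]) (.dec 9 8 (.emb 2
  [3,8,9,7]) (.dec 9 10 (.emb 1 [4,10,9]) (.fresh 9 (.full 9 (.dec 6 8 (.emb 4 [0,2,5,6,7,3,8,1])
  (.dec 6 10 (.emb 9 [2,6,5,7,9,4,10,3,0,1]) (.dec 6 11 (.emb 9 [2,6,0,1,4,9,11,3,5,7]) (.fresh 6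
  .big (.low 6)))))) (.dec 6 8 (.emb 4 [0,2,5,6,7,3,8,1]) (.dec 6 10 (.emb 9
  [2,6,5,7,9,4,10,3,0,1]) (.fresh 6 (.fresh 6 .big (.dec 8 10 (.emb 3 [3,8,7,1,9,10,4]) (.dec 8 11
  (.fresh 8 .big (.dec 11 10 (.emb 16 [2,5,6,0,7,11,1,3,9,8,10,4]) (.fresh 11 .big (.adj2 8 11))))
  (.fresh 8 .big (.low 8))))) (.low 6))))))))) (.dec 7 10 (.full 7 (.dec 10 6 (.emb 5
  [7,3,1,5,0,10,2,6,4]) (.dec 10 8 (.emb 2 [3,8,10,7]) (.dec 10 9 (.emb 1 [4,10,9]) (.fresh 10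
  (.full 10 (.dec 6 8 (.emb 4 [0,2,5,6,7,3,8,1]) (.dec 6 9 (.emb 9 [2,6,5,7,10,4,9,3,0,1]) (.dec 6
  11 (.emb 9 [2,6,0,1,4,10,11,3,5,7]) (.fresh 6 .big (.low 6)))))) (.dec 6 8 (.emb 4
  [0,2,5,6,7,3,8,1]) (.dec 6 9 (.emb 9 [2,6,5,7,10,4,9,3,0,1]) (.fresh 6 (.fresh 6 .big (.dec 8 9
  (.emb 3 [3,8,7,1,10,9,4]) (.dec 8 11 (.fresh 8 .big (.dec 11 9 (.emb 16
  [2,5,6,0,7,11,1,3,10,8,9,4]) (.fresh 11 .big (.adj2 8 11)))) (.fresh 8 .big (.low 8))))) (.low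
  6))))))))) (.fresh 7 (.full 7 (.dec 6 8 (.emb 4 [0,2,5,6,7,3,8,1]) (.dec 6 9 (.dec 6 10 (.emb 2
  [4,10,6,9]) (.dec 6 11 (.emb 9 [1,4,3,7,11,6,9,5,0,2]) (.fresh 6 .big (.dec 9 8 (.emb 9
  [2,5,6,9,8,3,7,4,0,1]) (.dec 9 10 (.emb 1 [4,10,9]) (.dec 9 11 (.emb 12 [0,1,3,7,5,2,6,4,11,9])
  (.fresh 9 .big (.adj2 6 9)))))))) (.dec 6 10 (.dec 6 11 (.emb 9 [1,4,3,7,11,6,10,5,0,2]) (.fresh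
  6 .big (.dec 10 8 (.emb 9 [2,5,6,10,8,3,7,4,0,1]) (.dec 10 9 (.emb 1 [4,10,9]) (.dec 10 11 (.emb
  12 [0,1,3,7,5,2,6,4,11,10]) (.fresh 10 .big (.adj2 6 10))))))) (.dec 6 11 (.fresh 6 .big (.dec
  11 8 (.emb 2 [3,8,11,7]) (.dec 11 9 (.emb 9 [1,4,0,2,6,11,9,5,3,7]) (.dec 11 10 (.emb 9
  [1,4,0,2,6,11,10,5,3,7]) (.fresh 11 .big (.adj2 6 11)))))) (.fresh 6 .big (.low 6))))))) (.adj2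
  5 7)))))))

def s12_31 : Cs :=
  (.fresh 5 (.full 5 (.dec 8 6 (.emb 2 [2,5,8,6]) (.dec 8 7 (.emb 1 [3,8,7]) (.dec 8 9 (.full 8
  (.dec 9 6 (.emb 5 [8,3,1,5,0,9,2,6,4]) (.dec 9 7 (.emb 2 [3,8,9,7]) (.dec 9 10 (.emb 1 [4,10,9])
  (.dec 9 11 (.emb 2 [5,8,9,11]) (.fresh 9 .big (.dec 6 7 (.emb 4 [0,2,5,6,8,3,7,1]) (.dec 6 10
  (.emb 9 [2,6,5,8,9,4,10,3,0,1]) (.dec 6 11 (.emb 2 [2,5,11,6]) (.fresh 6 .big (.low 6)))))))))))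
  (.dec 8 10 (.full 8 (.dec 10 6 (.emb 5 [8,3,1,5,0,10,2,6,4]) (.dec 10 7 (.emb 2 [3,8,10,7])
  (.dec 10 9 (.emb 1 [4,10,9]) (.dec 10 11 (.emb 2 [5,8,10,11]) (.fresh 10 .big (.dec 6 7 (.emb 4
  [0,2,5,6,8,3,7,1]) (.dec 6 9 (.emb 9 [2,6,5,8,10,4,9,3,0,1]) (.dec 6 11 (.emb 2 [2,5,11,6])
  (.fresh 6 .big (.low 6))))))))))) (.dec 8 11 (.emb 1 [5,8,11]) (.fresh 8 .big (.dec 6 7 (.emb 4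
  [0,2,5,6,8,3,7,1]) (.dec 6 9 (.dec 6 10 (.emb 2 [4,10,6,9]) (.dec 6 11 (.emb 2 [2,5,11,6])
  (.fresh 6 .big (.dec 9 7 (.emb 9 [2,5,6,9,7,3,8,4,0,1]) (.dec 9 10 (.emb 1 [4,10,9]) (.dec 9 11
  (.emb 9 [1,3,4,9,11,5,8,6,0,2]) (.fresh 9 .big (.adj2 6 9)))))))) (.dec 6 10 (.dec 6 11 (.emb 2
  [2,5,11,6]) (.fresh 6 .big (.dec 10 7 (.emb 9 [2,5,6,10,7,3,8,4,0,1]) (.dec 10 9 (.emb 1
  [4,10,9]) (.dec 10 11 (.emb 9 [1,3,4,10,11,5,8,6,0,2]) (.fresh 10 .big (.adj2 6 10))))))) (.dec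
  6 11 (.emb 2 [2,5,11,6]) (.fresh 6 .big (.low 6))))))))))))) (.dec 8 6 (.emb 2 [2,5,8,6]) (.dec
  8 7 (.emb 1 [3,8,7]) (.dec 8 9 (.full 8 (.dec 9 6 (.emb 5 [8,3,1,5,0,9,2,6,4]) (.dec 9 7 (.emb 2
  [3,8,9,7]) (.dec 9 10 (.emb 1 [4,10,9]) (.fresh 9 (.full 9 (.dec 6 7 (.emb 4 [0,2,5,6,8,3,7,1])
  (.dec 6 10 (.emb 9 [2,6,5,8,9,4,10,3,0,1]) (.dec 6 11 (.emb 9 [2,6,0,1,4,9,11,3,5,8]) (.fresh 6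
  .big (.low 6)))))) (.dec 6 7 (.emb 4 [0,2,5,6,8,3,7,1]) (.dec 6 10 (.emb 9
  [2,6,5,8,9,4,10,3,0,1]) (.fresh 6 (.fresh 6 .big (.dec 7 10 (.emb 3 [3,8,7,1,10,9,4]) (.dec 7 11
  (.fresh 7 .big (.dec 11 10 (.emb 16 [2,5,6,0,8,11,1,3,9,7,10,4]) (.fresh 11 .big (.adj2 7 11))))
  (.fresh 7 .big (.low 7))))) (.low 6))))))))) (.dec 8 10 (.full 8 (.dec 10 6 (.emb 5
  [8,3,1,5,0,10,2,6,4]) (.dec 10 7 (.emb 2 [3,8,10,7]) (.dec 10 9 (.emb 1 [4,10,9]) (.fresh 10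
  (.full 10 (.dec 6 7 (.emb 4 [0,2,5,6,8,3,7,1]) (.dec 6 9 (.emb 9 [2,6,5,8,10,4,9,3,0,1]) (.dec 6
  11 (.emb 9 [2,6,0,1,4,10,11,3,5,8]) (.fresh 6 .big (.low 6)))))) (.dec 6 7 (.emb 4
  [0,2,5,6,8,3,7,1]) (.dec 6 9 (.emb 9 [2,6,5,8,10,4,9,3,0,1]) (.fresh 6 (.fresh 6 .big (.dec 7 9
  (.emb 3 [3,8,7,1,9,10,4]) (.dec 7 11 (.fresh 7 .big (.dec 11 9 (.emb 16
  [2,5,6,0,8,11,1,3,10,7,9,4]) (.fresh 11 .big (.adj2 7 11)))) (.fresh 7 .big (.low 7))))) (.low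
  6))))))))) (.fresh 8 (.full 8 (.dec 6 7 (.emb 4 [0,2,5,6,8,3,7,1]) (.dec 6 9 (.dec 6 10 (.emb 2
  [4,10,6,9]) (.dec 6 11 (.emb 9 [1,4,3,8,11,6,9,5,0,2]) (.fresh 6 .big (.dec 9 7 (.emb 9
  [2,5,6,9,7,3,8,4,0,1]) (.dec 9 10 (.emb 1 [4,10,9]) (.dec 9 11 (.emb 12 [0,1,3,8,5,2,6,4,11,9])
  (.fresh 9 .big (.adj2 6 9)))))))) (.dec 6 10 (.dec 6 11 (.emb 9 [1,4,3,8,11,6,10,5,0,2]) (.fresh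
  6 .big (.dec 10 7 (.emb 9 [2,5,6,10,7,3,8,4,0,1]) (.dec 10 9 (.emb 1 [4,10,9]) (.dec 10 11 (.emb
  12 [0,1,3,8,5,2,6,4,11,10]) (.fresh 10 .big (.adj2 6 10))))))) (.dec 6 11 (.fresh 6 .big (.dec
  11 7 (.emb 2 [3,8,11,7]) (.dec 11 9 (.emb 9 [1,4,0,2,6,11,9,5,3,8]) (.dec 11 10 (.emb 9
  [1,4,0,2,6,11,10,5,3,8]) (.fresh 11 .big (.adj2 6 11)))))) (.fresh 6 .big (.low 6))))))) (.adj2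
  5 8)))))))

def s12_32 : Cs :=
  (.fresh 5 (.full 5 (.dec 9 6 (.emb 2 [2,5,9,6]) (.dec 9 7 (.full 9 (.dec 7 6 (.emb 5
  [7,3,1,6,0,9,2,5,4]) (.dec 7 8 (.emb 1 [3,8,7]) (.dec 7 10 (.emb 2 [4,10,7,9]) (.dec 7 11 (.emb
  2 [5,9,7,11]) (.fresh 7 .big (.dec 6 8 (.emb 9 [2,6,5,9,7,3,8,4,0,1]) (.dec 6 10 (.emb 4
  [0,2,5,6,9,4,10,1]) (.dec 6 11 (.emb 2 [2,5,11,6]) (.fresh 6 .big (.low 6))))))))))) (.dec 9 8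
  (.full 9 (.dec 8 6 (.emb 5 [8,3,1,6,0,9,2,5,4]) (.dec 8 7 (.emb 1 [3,8,7]) (.dec 8 10 (.emb 2
  [4,10,8,9]) (.dec 8 11 (.emb 2 [5,9,8,11]) (.fresh 8 .big (.dec 6 7 (.emb 9
  [2,6,5,9,8,3,7,4,0,1]) (.dec 6 10 (.emb 4 [0,2,5,6,9,4,10,1]) (.dec 6 11 (.emb 2 [2,5,11,6])
  (.fresh 6 .big (.low 6))))))))))) (.dec 9 10 (.emb 1 [4,10,9]) (.dec 9 11 (.emb 1 [5,9,11])
  (.fresh 9 .big (.dec 6 7 (.dec 6 8 (.emb 2 [3,8,6,7]) (.dec 6 10 (.emb 4 [0,1,3,4,7,6,10,2])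
  (.dec 6 11 (.emb 2 [2,5,11,6]) (.fresh 6 .big (.dec 7 8 (.emb 1 [3,8,7]) (.dec 7 10 (.emb 9
  [2,5,6,7,10,4,9,3,0,1]) (.dec 7 11 (.emb 9 [1,4,3,7,11,5,9,6,0,2]) (.fresh 7 .big (.adj2 6
  7))))))))) (.dec 6 8 (.dec 6 10 (.emb 4 [0,1,3,4,8,6,10,2]) (.dec 6 11 (.emb 2 [2,5,11,6])
  (.fresh 6 .big (.dec 8 7 (.emb 1 [3,8,7]) (.dec 8 10 (.emb 9 [2,5,6,8,10,4,9,3,0,1]) (.dec 8 11
  (.emb 9 [1,4,3,8,11,5,9,6,0,2]) (.fresh 8 .big (.adj2 6 8)))))))) (.dec 6 10 (.emb 4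
  [0,2,5,6,9,4,10,1]) (.dec 6 11 (.emb 2 [2,5,11,6]) (.fresh 6 .big (.low 6))))))))))))) (.dec 9 6
  (.emb 2 [2,5,9,6]) (.dec 9 7 (.full 9 (.dec 7 6 (.emb 5 [7,3,1,6,0,9,2,5,4]) (.dec 7 8 (.emb 1
  [3,8,7]) (.dec 7 10 (.emb 2 [4,10,7,9]) (.fresh 7 (.full 7 (.dec 6 8 (.emb 9
  [2,6,5,9,7,3,8,4,0,1]) (.dec 6 10 (.emb 4 [0,2,5,6,9,4,10,1]) (.dec 6 11 (.emb 9
  [2,6,0,1,3,7,11,4,5,9]) (.fresh 6 .big (.low 6)))))) (.dec 6 8 (.emb 9 [2,6,5,9,7,3,8,4,0,1])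
  (.dec 6 10 (.emb 4 [0,2,5,6,9,4,10,1]) (.fresh 6 (.fresh 6 .big (.dec 8 10 (.emb 3
  [3,8,7,1,9,10,4]) (.dec 8 11 (.fresh 8 .big (.dec 11 10 (.emb 16 [2,5,6,0,9,11,1,4,7,10,8,3])
  (.fresh 11 .big (.adj2 8 11)))) (.fresh 8 .big (.low 8))))) (.low 6))))))))) (.dec 9 8 (.full 9
  (.dec 8 6 (.emb 5 [8,3,1,6,0,9,2,5,4]) (.dec 8 7 (.emb 1 [3,8,7]) (.dec 8 10 (.emb 2 [4,10,8,9])
  (.fresh 8 (.full 8 (.dec 6 7 (.emb 9 [2,6,5,9,8,3,7,4,0,1]) (.dec 6 10 (.emb 4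
  [0,2,5,6,9,4,10,1]) (.dec 6 11 (.emb 9 [2,6,0,1,3,8,11,4,5,9]) (.fresh 6 .big (.low 6))))))
  (.dec 6 7 (.emb 9 [2,6,5,9,8,3,7,4,0,1]) (.dec 6 10 (.emb 4 [0,2,5,6,9,4,10,1]) (.fresh 6
  (.fresh 6 .big (.dec 7 10 (.emb 3 [3,8,7,1,10,9,4]) (.dec 7 11 (.fresh 7 .big (.dec 11 10 (.emb
  16 [2,5,6,0,9,11,1,4,8,10,7,3]) (.fresh 11 .big (.adj2 7 11)))) (.fresh 7 .big (.low 7)))))
  (.low 6))))))))) (.dec 9 10 (.emb 1 [4,10,9]) (.fresh 9 (.full 9 (.dec 6 7 (.dec 6 8 (.emb 2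
  [3,8,6,7]) (.dec 6 10 (.emb 4 [0,1,3,4,7,6,10,2]) (.dec 6 11 (.emb 9 [1,3,4,9,11,6,7,5,0,2])
  (.fresh 6 .big (.dec 7 8 (.emb 1 [3,8,7]) (.dec 7 10 (.emb 9 [2,5,6,7,10,4,9,3,0,1]) (.dec 7 11
  (.emb 12 [0,1,3,7,6,2,5,4,11,9]) (.fresh 7 .big (.adj2 6 7))))))))) (.dec 6 8 (.dec 6 10 (.emb 4
  [0,1,3,4,8,6,10,2]) (.dec 6 11 (.emb 9 [1,3,4,9,11,6,8,5,0,2]) (.fresh 6 .big (.dec 8 7 (.emb 1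
  [3,8,7]) (.dec 8 10 (.emb 9 [2,5,6,8,10,4,9,3,0,1]) (.dec 8 11 (.emb 12 [0,1,3,8,6,2,5,4,11,9])
  (.fresh 8 .big (.adj2 6 8)))))))) (.dec 6 10 (.emb 4 [0,2,5,6,9,4,10,1]) (.dec 6 11 (.fresh 6
  .big (.dec 11 7 (.emb 9 [1,3,0,2,6,11,7,5,4,9]) (.dec 11 8 (.emb 9 [1,3,0,2,6,11,8,5,4,9]) (.dec
  11 10 (.emb 2 [4,10,11,9]) (.fresh 11 .big (.adj2 6 11)))))) (.fresh 6 .big (.low 6)))))))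
  (.adj2 5 9)))))))

def s12_33 : Cs :=
  (.fresh 5 (.full 5 (.dec 10 6 (.emb 2 [2,5,10,6]) (.dec 10 7 (.full 10 (.dec 7 6 (.emb 5
  [7,3,1,6,0,10,2,5,4]) (.dec 7 8 (.emb 1 [3,8,7]) (.dec 7 9 (.emb 2 [4,10,7,9]) (.dec 7 11 (.emb
  2 [5,11,7,10]) (.fresh 7 .big (.dec 6 8 (.emb 9 [2,6,5,10,7,3,8,4,0,1]) (.dec 6 9 (.emb 4
  [0,2,5,6,10,4,9,1]) (.dec 6 11 (.emb 2 [2,5,11,6]) (.fresh 6 .big (.low 6))))))))))) (.dec 10 8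
  (.full 10 (.dec 8 6 (.emb 5 [8,3,1,6,0,10,2,5,4]) (.dec 8 7 (.emb 1 [3,8,7]) (.dec 8 9 (.emb 2
  [4,10,8,9]) (.dec 8 11 (.emb 2 [5,11,8,10]) (.fresh 8 .big (.dec 6 7 (.emb 9
  [2,6,5,10,8,3,7,4,0,1]) (.dec 6 9 (.emb 4 [0,2,5,6,10,4,9,1]) (.dec 6 11 (.emb 2 [2,5,11,6])
  (.fresh 6 .big (.low 6))))))))))) (.dec 10 9 (.emb 1 [4,10,9]) (.dec 10 11 (.emb 1 [5,11,10])
  (.fresh 10 .big (.dec 6 7 (.dec 6 8 (.emb 2 [3,8,6,7]) (.dec 6 9 (.emb 4 [0,1,3,4,7,6,9,2])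
  (.dec 6 11 (.emb 2 [2,5,11,6]) (.fresh 6 .big (.dec 7 8 (.emb 1 [3,8,7]) (.dec 7 9 (.emb 9
  [2,5,6,7,9,4,10,3,0,1]) (.dec 7 11 (.emb 9 [1,4,3,7,11,5,10,6,0,2]) (.fresh 7 .big (.adj2 6
  7))))))))) (.dec 6 8 (.dec 6 9 (.emb 4 [0,1,3,4,8,6,9,2]) (.dec 6 11 (.emb 2 [2,5,11,6]) (.fresh
  6 .big (.dec 8 7 (.emb 1 [3,8,7]) (.dec 8 9 (.emb 9 [2,5,6,8,9,4,10,3,0,1]) (.dec 8 11 (.emb 9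
  [1,4,3,8,11,5,10,6,0,2]) (.fresh 8 .big (.adj2 6 8)))))))) (.dec 6 9 (.emb 4 [0,2,5,6,10,4,9,1])
  (.dec 6 11 (.emb 2 [2,5,11,6]) (.fresh 6 .big (.low 6))))))))))))) (.dec 10 6 (.emb 2
  [2,5,10,6]) (.dec 10 7 (.full 10 (.dec 7 6 (.emb 5 [7,3,1,6,0,10,2,5,4]) (.dec 7 8 (.emb 1
  [3,8,7]) (.dec 7 9 (.emb 2 [4,10,7,9]) (.fresh 7 (.full 7 (.dec 6 8 (.emb 9
  [2,6,5,10,7,3,8,4,0,1]) (.dec 6 9 (.emb 4 [0,2,5,6,10,4,9,1]) (.dec 6 11 (.emb 9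
  [2,6,0,1,3,7,11,4,5,10]) (.fresh 6 .big (.low 6)))))) (.dec 6 8 (.emb 9 [2,6,5,10,7,3,8,4,0,1])
  (.dec 6 9 (.emb 4 [0,2,5,6,10,4,9,1]) (.fresh 6 (.fresh 6 .big (.dec 8 9 (.emb 3
  [3,8,7,1,10,9,4]) (.dec 8 11 (.fresh 8 .big (.dec 11 9 (.emb 16 [2,5,6,0,10,11,1,4,7,9,8,3])
  (.fresh 11 .big (.adj2 8 11)))) (.fresh 8 .big (.low 8))))) (.low 6))))))))) (.dec 10 8 (.full
  10 (.dec 8 6 (.emb 5 [8,3,1,6,0,10,2,5,4]) (.dec 8 7 (.emb 1 [3,8,7]) (.dec 8 9 (.emb 2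
  [4,10,8,9]) (.fresh 8 (.full 8 (.dec 6 7 (.emb 9 [2,6,5,10,8,3,7,4,0,1]) (.dec 6 9 (.emb 4
  [0,2,5,6,10,4,9,1]) (.dec 6 11 (.emb 9 [2,6,0,1,3,8,11,4,5,10]) (.fresh 6 .big (.low 6))))))
  (.dec 6 7 (.emb 9 [2,6,5,10,8,3,7,4,0,1]) (.dec 6 9 (.emb 4 [0,2,5,6,10,4,9,1]) (.fresh 6
  (.fresh 6 .big (.dec 7 9 (.emb 3 [3,8,7,1,9,10,4]) (.dec 7 11 (.fresh 7 .big (.dec 11 9 (.emb 16
  [2,5,6,0,10,11,1,4,8,9,7,3]) (.fresh 11 .big (.adj2 7 11)))) (.fresh 7 .big (.low 7))))) (.low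
  6))))))))) (.dec 10 9 (.emb 1 [4,10,9]) (.fresh 10 (.full 10 (.dec 6 7 (.dec 6 8 (.emb 2
  [3,8,6,7]) (.dec 6 9 (.emb 4 [0,1,3,4,7,6,9,2]) (.dec 6 11 (.emb 9 [1,3,4,10,11,6,7,5,0,2])
  (.fresh 6 .big (.dec 7 8 (.emb 1 [3,8,7]) (.dec 7 9 (.emb 9 [2,5,6,7,9,4,10,3,0,1]) (.dec 7 11
  (.emb 12 [0,1,3,7,6,2,5,4,11,10]) (.fresh 7 .big (.adj2 6 7))))))))) (.dec 6 8 (.dec 6 9 (.emb 4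
  [0,1,3,4,8,6,9,2]) (.dec 6 11 (.emb 9 [1,3,4,10,11,6,8,5,0,2]) (.fresh 6 .big (.dec 8 7 (.emb 1
  [3,8,7]) (.dec 8 9 (.emb 9 [2,5,6,8,9,4,10,3,0,1]) (.dec 8 11 (.emb 12 [0,1,3,8,6,2,5,4,11,10])
  (.fresh 8 .big (.adj2 6 8)))))))) (.dec 6 9 (.emb 4 [0,2,5,6,10,4,9,1]) (.dec 6 11 (.fresh 6
  .big (.dec 11 7 (.emb 9 [1,3,0,2,6,11,7,5,4,10]) (.dec 11 8 (.emb 9 [1,3,0,2,6,11,8,5,4,10])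
  (.dec 11 9 (.emb 2 [4,10,11,9]) (.fresh 11 .big (.adj2 6 11)))))) (.fresh 6 .big (.low 6)))))))
  (.adj2 5 10)))))))

def s12_34 : Cs :=
  (.dec 6 8 (.dec 6 9 (.emb 4 [0,1,3,4,8,6,9,2]) (.dec 6 10 (.emb 4 [0,1,3,4,8,6,10,2]) (.dec 6 11
  (.emb 2 [2,5,11,6]) (.fresh 6 .big (.dec 8 7 (.emb 1 [3,8,7]) (.dec 8 9 (.full 8 (.dec 9 7 (.emb
  2 [3,8,9,7]) (.dec 9 10 (.emb 1 [4,10,9]) (.dec 9 11 (.emb 9 [2,5,0,1,4,9,11,3,6,8]) (.fresh 9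
  .big (.dec 7 10 (.emb 3 [3,8,7,1,10,9,4]) (.dec 7 11 (.fresh 7 .big (.dec 11 10 (.emb 16
  [2,6,5,0,8,11,1,3,9,7,10,4]) (.fresh 11 .big (.adj2 7 11)))) (.fresh 7 .big (.low 7)))))))))
  (.dec 8 10 (.full 8 (.dec 10 7 (.emb 2 [3,8,10,7]) (.dec 10 9 (.emb 1 [4,10,9]) (.dec 10 11
  (.emb 9 [2,5,0,1,4,10,11,3,6,8]) (.fresh 10 .big (.dec 7 9 (.emb 3 [3,8,7,1,9,10,4]) (.dec 7 11
  (.fresh 7 .big (.dec 11 9 (.emb 16 [2,6,5,0,8,11,1,3,10,7,9,4]) (.fresh 11 .big (.adj2 7 11))))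
  (.fresh 7 .big (.low 7))))))))) (.dec 8 11 (.full 8 (.dec 11 7 (.emb 2 [3,8,11,7]) (.dec 11 9
  (.emb 9 [1,4,0,2,5,11,9,6,3,8]) (.dec 11 10 (.emb 9 [1,4,0,2,5,11,10,6,3,8]) (.fresh 11 .big
  (.adj2 5 11)))))) (.fresh 8 .big (.adj2 6 8)))))))))) (.dec 6 9 (.dec 6 10 (.emb 2 [4,10,6,9])
  (.dec 6 11 (.emb 2 [2,5,11,6]) (.fresh 6 .big (.dec 9 7 (.full 9 (.dec 7 8 (.emb 1 [3,8,7])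
  (.dec 7 10 (.emb 2 [4,10,7,9]) (.dec 7 11 (.emb 9 [2,5,0,1,3,7,11,4,6,9]) (.fresh 7 .big (.dec 8
  10 (.emb 3 [3,8,7,1,9,10,4]) (.dec 8 11 (.fresh 8 .big (.dec 11 10 (.emb 16
  [2,6,5,0,9,11,1,4,7,10,8,3]) (.fresh 11 .big (.adj2 8 11)))) (.fresh 8 .big (.low 8)))))))))
  (.dec 9 8 (.full 9 (.dec 8 7 (.emb 1 [3,8,7]) (.dec 8 10 (.emb 2 [4,10,8,9]) (.dec 8 11 (.emb 9
  [2,5,0,1,3,8,11,4,6,9]) (.fresh 8 .big (.dec 7 10 (.emb 3 [3,8,7,1,10,9,4]) (.dec 7 11 (.fresh 7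
  .big (.dec 11 10 (.emb 16 [2,6,5,0,9,11,1,4,8,10,7,3]) (.fresh 11 .big (.adj2 7 11)))) (.fresh 7
  .big (.low 7))))))))) (.dec 9 10 (.emb 1 [4,10,9]) (.dec 9 11 (.full 9 (.dec 11 7 (.emb 9
  [1,3,0,2,5,11,7,6,4,9]) (.dec 11 8 (.emb 9 [1,3,0,2,5,11,8,6,4,9]) (.dec 11 10 (.emb 2
  [4,10,11,9]) (.fresh 11 .big (.adj2 5 11)))))) (.fresh 9 .big (.adj2 6 9))))))))) (.dec 6 10
  (.dec 6 11 (.emb 2 [2,5,11,6]) (.fresh 6 .big (.dec 10 7 (.full 10 (.dec 7 8 (.emb 1 [3,8,7])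
  (.dec 7 9 (.emb 2 [4,10,7,9]) (.dec 7 11 (.emb 9 [2,5,0,1,3,7,11,4,6,10]) (.fresh 7 .big (.dec 8
  9 (.emb 3 [3,8,7,1,10,9,4]) (.dec 8 11 (.fresh 8 .big (.dec 11 9 (.emb 16
  [2,6,5,0,10,11,1,4,7,9,8,3]) (.fresh 11 .big (.adj2 8 11)))) (.fresh 8 .big (.low 8)))))))))
  (.dec 10 8 (.full 10 (.dec 8 7 (.emb 1 [3,8,7]) (.dec 8 9 (.emb 2 [4,10,8,9]) (.dec 8 11 (.emb 9
  [2,5,0,1,3,8,11,4,6,10]) (.fresh 8 .big (.dec 7 9 (.emb 3 [3,8,7,1,9,10,4]) (.dec 7 11 (.fresh 7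
  .big (.dec 11 9 (.emb 16 [2,6,5,0,10,11,1,4,8,9,7,3]) (.fresh 11 .big (.adj2 7 11)))) (.fresh 7
  .big (.low 7))))))))) (.dec 10 9 (.emb 1 [4,10,9]) (.dec 10 11 (.full 10 (.dec 11 7 (.emb 9
  [1,3,0,2,5,11,7,6,4,10]) (.dec 11 8 (.emb 9 [1,3,0,2,5,11,8,6,4,10]) (.dec 11 9 (.emb 2
  [4,10,11,9]) (.fresh 11 .big (.adj2 5 11)))))) (.fresh 10 .big (.adj2 6 10)))))))) (.dec 6 11
  (.emb 2 [2,5,11,6]) (.fresh 6 .big (.low 6))))))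

def s12_35 : Cs :=
  (.dec 7 9 (.full 7 (.dec 9 6 (.emb 5 [7,3,1,5,0,9,2,6,4]) (.dec 9 8 (.emb 2 [3,8,9,7]) (.dec 9
  10 (.emb 2 [5,10,9,7]) (.fresh 9 (.full 9 (.dec 6 8 (.emb 4 [0,2,5,6,7,3,8,1]) (.dec 6 10 (.emb
  2 [2,5,10,6]) (.dec 6 11 (.emb 9 [2,6,0,1,4,9,11,3,5,7]) (.fresh 6 .big (.low 6)))))) (.adj2 4
  9)))))) (.dec 7 10 (.emb 1 [5,10,7]) (.fresh 7 (.full 7 (.dec 6 8 (.emb 4 [0,2,5,6,7,3,8,1])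
  (.dec 6 9 (.dec 6 10 (.emb 2 [2,5,10,6]) (.dec 6 11 (.emb 9 [1,4,3,7,11,6,9,5,0,2]) (.fresh 6
  .big (.dec 9 8 (.emb 9 [2,5,6,9,8,3,7,4,0,1]) (.dec 9 10 (.emb 9 [1,3,4,9,10,5,7,6,0,2]) (.dec 9
  11 (.emb 12 [0,1,3,7,5,2,6,4,11,9]) (.fresh 9 .big (.adj2 6 9)))))))) (.dec 6 10 (.emb 2
  [2,5,10,6]) (.dec 6 11 (.fresh 6 .big (.dec 11 8 (.emb 2 [3,8,11,7]) (.dec 11 9 (.emb 9
  [1,4,0,2,6,11,9,5,3,7]) (.dec 11 10 (.emb 2 [5,10,11,7]) (.fresh 11 .big (.adj2 6 11))))))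
  (.fresh 6 .big (.low 6))))))) (.dec 6 8 (.emb 4 [0,2,5,6,7,3,8,1]) (.dec 6 9 (.dec 6 10 (.emb 2
  [2,5,10,6]) (.fresh 6 (.full 6 (.dec 9 8 (.emb 9 [2,5,6,9,8,3,7,4,0,1]) (.dec 9 10 (.emb 9
  [1,3,4,9,10,5,7,6,0,2]) (.dec 9 11 (.emb 1 [6,9,11]) (.fresh 9 .big (.adj2 4 9)))))) (.dec 9 8
  (.emb 9 [2,5,6,9,8,3,7,4,0,1]) (.dec 9 10 (.emb 9 [1,3,4,9,10,5,7,6,0,2]) (.fresh 9 (.full 9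
  (.dec 8 10 (.dec 8 11 (.emb 17 [9,6,11,4,2,8,1,0,5,3,10,7]) (.fresh 8 .big (.dec 10 11 (.emb 17
  [9,4,11,6,1,10,2,0,3,5,8,7]) (.fresh 10 .big (.adj2 8 10))))) (.dec 8 11 (.fresh 8 .big (.dec 11
  10 (.emb 22 [1,3,0,4,7,8,2,9,5,11,6,10]) (.fresh 11 .big (.adj2 8 11)))) (.fresh 8 .big (.low
  8))))) (.adj2 6 9)))))) (.dec 6 10 (.emb 2 [2,5,10,6]) (.fresh 6 (.fresh 6 .big (.dec 8 9 (.dec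
  8 10 (.emb 6 [8,3,9,10,7,1,4,5,0,2]) (.dec 8 11 (.full 8 (.dec 9 10 (.emb 9
  [5,2,10,9,4,1,0,8,7,3]) (.dec 9 11 (.emb 1 [8,11,9]) (.fresh 9 .big (.adj2 4 9))))) (.fresh 8
  .big (.dec 9 10 (.emb 9 [5,2,10,9,4,1,0,8,7,3]) (.dec 9 11 (.full 9 (.dec 11 10 (.emb 21
  [1,3,4,0,8,7,9,2,5,11,6,10]) (.fresh 11 .big (.adj2 6 11)))) (.fresh 9 .big (.adj2 8 9)))))))
  (.dec 8 10 (.dec 8 11 (.emb 7 [2,0,1,5,3,10,7,6,11,8]) (.fresh 8 .big (.dec 10 9 (.emb 7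
  [1,0,2,3,5,8,7,4,9,10]) (.dec 10 11 (.emb 6 [10,5,11,8,7,2,6,3,0,1]) (.fresh 10 .big (.adj2 8
  10)))))) (.dec 8 11 (.fresh 8 .big (.dec 11 9 (.full 11 (.dec 9 10 (.emb 20
  [1,0,4,3,2,9,7,8,5,6,11,10]) (.fresh 9 .big (.adj2 4 9)))) (.dec 11 10 (.emb 9
  [3,1,8,11,6,2,0,10,7,5]) (.fresh 11 .big (.adj2 8 11))))) (.fresh 8 .big (.low 8)))))) (.low
  6))))))))

def s12_36 : Cs :=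
  (.dec 7 9 (.full 7 (.dec 9 6 (.emb 5 [7,3,1,5,0,9,2,6,4]) (.dec 9 8 (.emb 2 [3,8,9,7]) (.fresh 9
  (.full 9 (.dec 6 8 (.emb 4 [0,2,5,6,7,3,8,1]) (.dec 6 10 (.emb 9 [2,6,0,1,4,9,10,3,5,7]) (.fresh
  6 (.fresh 6 .big (.dec 8 10 (.emb 3 [3,8,1,7,4,10,9]) (.dec 8 11 (.fresh 8 .big (.dec 11 10
  (.emb 16 [2,0,6,5,1,11,7,3,4,8,10,9]) (.fresh 11 .big (.adj2 8 11)))) (.fresh 8 .big (.low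
  8))))) (.low 6))))) (.adj2 4 9))))) (.fresh 7 (.full 7 (.dec 6 8 (.emb 4 [0,2,5,6,7,3,8,1])
  (.dec 6 9 (.dec 6 10 (.emb 9 [1,4,3,7,10,6,9,5,0,2]) (.fresh 6 (.full 6 (.dec 9 8 (.emb 9
  [2,5,6,9,8,3,7,4,0,1]) (.dec 9 10 (.emb 12 [0,1,3,7,5,2,6,4,10,9]) (.dec 9 11 (.emb 1 [6,9,11])
  (.fresh 9 .big (.adj2 4 9)))))) (.dec 9 8 (.emb 9 [2,5,6,9,8,3,7,4,0,1]) (.dec 9 10 (.emb 12
  [0,1,3,7,5,2,6,4,10,9]) (.fresh 9 (.full 9 (.dec 8 10 (.emb 2 [3,8,10,7]) (.dec 8 11 (.fresh 8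
  .big (.dec 11 10 (.emb 17 [2,6,5,0,9,7,1,4,11,3,10,8]) (.fresh 11 .big (.adj2 8 11)))) (.fresh 8
  .big (.low 8))))) (.adj2 6 9)))))) (.dec 6 10 (.fresh 6 (.full 6 (.dec 10 8 (.emb 2 [3,8,10,7])
  (.dec 10 9 (.emb 9 [1,4,0,2,6,10,9,5,3,7]) (.dec 10 11 (.emb 1 [6,11,10]) (.fresh 10 .big (.dec
  8 9 (.dec 8 11 (.emb 7 [3,8,11,7,6,5,10,1,0,2]) (.fresh 8 .big (.dec 9 11 (.emb 18
  [9,11,8,4,6,3,1,10,2,7,0,5]) (.fresh 9 .big (.adj2 8 9))))) (.dec 8 11 (.emb 7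
  [3,8,11,7,6,5,10,1,0,2]) (.fresh 8 .big (.low 8))))))))) (.dec 10 8 (.emb 2 [3,8,10,7]) (.dec 10
  9 (.emb 9 [1,4,0,2,6,10,9,5,3,7]) (.fresh 10 (.full 10 (.dec 8 9 (.dec 8 11 (.emb 6
  [10,7,11,6,5,3,8,2,1,0]) (.fresh 8 .big (.dec 9 11 (.emb 19 [2,0,6,5,1,10,7,3,4,11,8,9]) (.fresh
  9 .big (.adj2 8 9))))) (.dec 8 11 (.emb 6 [10,7,11,6,5,3,8,2,1,0]) (.fresh 8 .big (.low 8)))))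
  (.adj2 6 10))))) (.fresh 6 (.fresh 6 .big (.dec 8 9 (.dec 8 10 (.emb 2 [3,8,10,7]) (.dec 8 11
  (.full 8 (.dec 9 10 (.emb 3 [3,1,7,8,10,4,9]) (.dec 9 11 (.emb 1 [8,11,9]) (.fresh 9 .big (.adj2
  4 9))))) (.fresh 8 .big (.dec 9 10 (.emb 3 [3,1,7,8,10,4,9]) (.dec 9 11 (.full 9 (.dec 11 10
  (.emb 17 [2,6,0,5,11,1,7,10,9,3,4,8]) (.fresh 11 .big (.adj2 6 11)))) (.fresh 9 .big (.adj2 8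
  9))))))) (.dec 8 10 (.emb 2 [3,8,10,7]) (.dec 8 11 (.fresh 8 .big (.dec 11 9 (.full 11 (.dec 9
  10 (.emb 4 [1,3,8,7,11,9,10,4]) (.fresh 9 .big (.adj2 4 9)))) (.dec 11 10 (.emb 9
  [2,0,6,11,8,3,1,10,5,7]) (.fresh 11 .big (.adj2 8 11))))) (.fresh 8 .big (.low 8)))))) (.low
  6)))))) (.adj2 5 7)))

def s12_37 : Cs :=
  (.dec 8 9 (.full 8 (.dec 9 6 (.emb 5 [8,3,1,5,0,9,2,6,4]) (.dec 9 7 (.emb 2 [3,8,9,7]) (.dec 9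
  10 (.emb 2 [5,8,9,10]) (.fresh 9 (.full 9 (.dec 6 7 (.emb 4 [0,2,5,6,8,3,7,1]) (.dec 6 10 (.emb
  2 [2,5,10,6]) (.dec 6 11 (.emb 9 [2,6,0,1,4,9,11,3,5,8]) (.fresh 6 .big (.low 6)))))) (.adj2 4
  9)))))) (.dec 8 10 (.emb 1 [5,8,10]) (.fresh 8 (.full 8 (.dec 6 7 (.emb 4 [0,2,5,6,8,3,7,1])
  (.dec 6 9 (.dec 6 10 (.emb 2 [2,5,10,6]) (.dec 6 11 (.emb 9 [1,4,3,8,11,6,9,5,0,2]) (.fresh 6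
  .big (.dec 9 7 (.emb 9 [2,5,6,9,7,3,8,4,0,1]) (.dec 9 10 (.emb 9 [1,3,4,9,10,5,8,6,0,2]) (.dec 9
  11 (.emb 12 [0,1,3,8,5,2,6,4,11,9]) (.fresh 9 .big (.adj2 6 9)))))))) (.dec 6 10 (.emb 2
  [2,5,10,6]) (.dec 6 11 (.fresh 6 .big (.dec 11 7 (.emb 2 [3,8,11,7]) (.dec 11 9 (.emb 9
  [1,4,0,2,6,11,9,5,3,8]) (.dec 11 10 (.emb 2 [5,8,11,10]) (.fresh 11 .big (.adj2 6 11))))))
  (.fresh 6 .big (.low 6))))))) (.dec 6 7 (.emb 4 [0,2,5,6,8,3,7,1]) (.dec 6 9 (.dec 6 10 (.emb 2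
  [2,5,10,6]) (.fresh 6 (.full 6 (.dec 9 7 (.emb 9 [2,5,6,9,7,3,8,4,0,1]) (.dec 9 10 (.emb 9
  [1,3,4,9,10,5,8,6,0,2]) (.dec 9 11 (.emb 1 [6,9,11]) (.fresh 9 .big (.adj2 4 9)))))) (.dec 9 7
  (.emb 9 [2,5,6,9,7,3,8,4,0,1]) (.dec 9 10 (.emb 9 [1,3,4,9,10,5,8,6,0,2]) (.fresh 9 (.full 9
  (.dec 7 10 (.dec 7 11 (.emb 17 [9,6,11,4,2,7,1,0,5,3,10,8]) (.fresh 7 .big (.dec 10 11 (.emb 17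
  [9,4,11,6,1,10,2,0,3,5,7,8]) (.fresh 10 .big (.adj2 7 10))))) (.dec 7 11 (.fresh 7 .big (.dec 11
  10 (.emb 22 [1,3,0,4,8,7,2,9,5,11,6,10]) (.fresh 11 .big (.adj2 7 11)))) (.fresh 7 .big (.low
  7))))) (.adj2 6 9)))))) (.dec 6 10 (.emb 2 [2,5,10,6]) (.fresh 6 (.fresh 6 .big (.dec 7 9 (.dec
  7 10 (.emb 6 [7,3,9,10,8,1,4,5,0,2]) (.dec 7 11 (.full 7 (.dec 9 10 (.emb 9
  [5,2,10,9,4,1,0,7,8,3]) (.dec 9 11 (.emb 1 [7,11,9]) (.fresh 9 .big (.adj2 4 9))))) (.fresh 7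
  .big (.dec 9 10 (.emb 9 [5,2,10,9,4,1,0,7,8,3]) (.dec 9 11 (.full 9 (.dec 11 10 (.emb 21
  [1,3,4,0,7,8,9,2,5,11,6,10]) (.fresh 11 .big (.adj2 6 11)))) (.fresh 9 .big (.adj2 7 9)))))))
  (.dec 7 10 (.dec 7 11 (.emb 7 [2,0,1,5,3,10,8,6,11,7]) (.fresh 7 .big (.dec 10 9 (.emb 7
  [1,0,2,3,5,7,8,4,9,10]) (.dec 10 11 (.emb 6 [10,5,11,7,8,2,6,3,0,1]) (.fresh 10 .big (.adj2 7
  10)))))) (.dec 7 11 (.fresh 7 .big (.dec 11 9 (.full 11 (.dec 9 10 (.emb 20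
  [1,0,4,3,2,9,8,7,5,6,11,10]) (.fresh 9 .big (.adj2 4 9)))) (.dec 11 10 (.emb 9
  [3,1,7,11,6,2,0,10,8,5]) (.fresh 11 .big (.adj2 7 11))))) (.fresh 7 .big (.low 7)))))) (.low
  6))))))))

def s12_38 : Cs :=
  (.dec 8 9 (.full 8 (.dec 9 6 (.emb 5 [8,3,1,5,0,9,2,6,4]) (.dec 9 7 (.emb 2 [3,8,9,7]) (.fresh 9
  (.full 9 (.dec 6 7 (.emb 4 [0,2,5,6,8,3,7,1]) (.dec 6 10 (.emb 9 [2,6,0,1,4,9,10,3,5,8]) (.fresh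
  6 (.fresh 6 .big (.dec 7 10 (.emb 3 [3,1,7,8,10,4,9]) (.dec 7 11 (.fresh 7 .big (.dec 11 10
  (.emb 16 [2,0,6,5,1,11,8,3,4,7,10,9]) (.fresh 11 .big (.adj2 7 11)))) (.fresh 7 .big (.low
  7))))) (.low 6))))) (.adj2 4 9))))) (.fresh 8 (.full 8 (.dec 6 7 (.emb 4 [0,2,5,6,8,3,7,1])
  (.dec 6 9 (.dec 6 10 (.emb 9 [1,4,3,8,10,6,9,5,0,2]) (.fresh 6 (.full 6 (.dec 9 7 (.emb 9
  [2,5,6,9,7,3,8,4,0,1]) (.dec 9 10 (.emb 12 [0,1,3,8,5,2,6,4,10,9]) (.dec 9 11 (.emb 1 [6,9,11])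
  (.fresh 9 .big (.adj2 4 9)))))) (.dec 9 7 (.emb 9 [2,5,6,9,7,3,8,4,0,1]) (.dec 9 10 (.emb 12
  [0,1,3,8,5,2,6,4,10,9]) (.fresh 9 (.full 9 (.dec 7 10 (.emb 2 [3,8,10,7]) (.dec 7 11 (.fresh 7
  .big (.dec 11 10 (.emb 17 [2,6,5,0,9,8,1,4,11,3,10,7]) (.fresh 11 .big (.adj2 7 11)))) (.fresh 7
  .big (.low 7))))) (.adj2 6 9)))))) (.dec 6 10 (.fresh 6 (.full 6 (.dec 10 7 (.emb 2 [3,8,10,7])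
  (.dec 10 9 (.emb 9 [1,4,0,2,6,10,9,5,3,8]) (.dec 10 11 (.emb 1 [6,11,10]) (.fresh 10 .big (.dec
  7 9 (.dec 7 11 (.emb 7 [3,1,0,8,2,10,5,7,11,6]) (.fresh 7 .big (.dec 9 11 (.emb 18
  [9,11,7,4,6,3,1,10,2,8,0,5]) (.fresh 9 .big (.adj2 7 9))))) (.dec 7 11 (.emb 7
  [3,1,0,8,2,10,5,7,11,6]) (.fresh 7 .big (.low 7))))))))) (.dec 10 7 (.emb 2 [3,8,10,7]) (.dec 10
  9 (.emb 9 [1,4,0,2,6,10,9,5,3,8]) (.fresh 10 (.full 10 (.dec 7 9 (.dec 7 11 (.emb 6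
  [10,8,11,6,5,3,7,2,1,0]) (.fresh 7 .big (.dec 9 11 (.emb 19 [2,0,6,5,1,10,8,3,4,11,7,9]) (.fresh
  9 .big (.adj2 7 9))))) (.dec 7 11 (.emb 6 [10,8,11,6,5,3,7,2,1,0]) (.fresh 7 .big (.low 7)))))
  (.adj2 6 10))))) (.fresh 6 (.fresh 6 .big (.dec 7 9 (.dec 7 10 (.emb 2 [3,8,10,7]) (.dec 7 11
  (.full 7 (.dec 9 10 (.emb 3 [3,8,1,7,4,10,9]) (.dec 9 11 (.emb 1 [7,11,9]) (.fresh 9 .big (.adj2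
  4 9))))) (.fresh 7 .big (.dec 9 10 (.emb 3 [3,8,1,7,4,10,9]) (.dec 9 11 (.full 9 (.dec 11 10
  (.emb 17 [2,6,0,5,11,1,8,10,9,3,4,7]) (.fresh 11 .big (.adj2 6 11)))) (.fresh 9 .big (.adj2 7
  9))))))) (.dec 7 10 (.emb 2 [3,8,10,7]) (.dec 7 11 (.fresh 7 .big (.dec 11 9 (.full 11 (.dec 9
  10 (.emb 4 [1,3,8,7,10,9,11,4]) (.fresh 9 .big (.adj2 4 9)))) (.dec 11 10 (.emb 9
  [2,0,6,11,7,3,1,10,5,8]) (.fresh 11 .big (.adj2 7 11))))) (.fresh 7 .big (.low 7)))))) (.low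
  6)))))) (.adj2 5 8)))

def s12_39 : Cs :=
  (.dec 6 8 (.dec 6 10 (.emb 9 [1,3,4,9,10,6,8,5,0,2]) (.fresh 6 (.full 6 (.dec 8 7 (.emb 1
  [3,8,7]) (.dec 8 10 (.emb 12 [0,1,3,8,6,2,5,4,10,9]) (.dec 8 11 (.emb 1 [6,8,11]) (.fresh 8 .big
  (.dec 7 10 (.dec 7 11 (.emb 17 [9,5,10,4,2,7,1,0,6,3,11,8]) (.fresh 7 .big (.dec 10 11 (.emb 22
  [1,3,0,4,8,7,2,9,6,10,5,11]) (.fresh 10 .big (.adj2 7 10))))) (.dec 7 11 (.fresh 7 .big (.dec 11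
  10 (.emb 17 [9,4,10,5,1,11,2,0,3,6,7,8]) (.fresh 11 .big (.adj2 7 11)))) (.fresh 7 .big (.low
  7))))))))) (.dec 8 7 (.emb 1 [3,8,7]) (.dec 8 10 (.emb 12 [0,1,3,8,6,2,5,4,10,9]) (.fresh 8
  (.full 8 (.dec 7 10 (.dec 7 11 (.emb 2 [3,8,11,7]) (.fresh 7 .big (.dec 10 11 (.emb 17
  [2,5,6,0,9,8,1,4,10,3,11,7]) (.fresh 10 .big (.adj2 7 10))))) (.dec 7 11 (.emb 2 [3,8,11,7])
  (.fresh 7 .big (.low 7))))) (.adj2 6 8)))))) (.dec 6 10 (.fresh 6 (.full 6 (.dec 10 7 (.emb 9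
  [1,3,0,2,6,10,7,5,4,9]) (.dec 10 8 (.emb 9 [1,3,0,2,6,10,8,5,4,9]) (.dec 10 11 (.emb 1
  [6,11,10]) (.fresh 10 .big (.dec 7 8 (.emb 1 [3,8,7]) (.dec 7 11 (.fresh 7 .big (.dec 11 8 (.emb
  2 [3,8,11,7]) (.fresh 11 .big (.adj2 7 11)))) (.fresh 7 .big (.low 7))))))))) (.dec 10 7 (.emb 9
  [1,3,0,2,6,10,7,5,4,9]) (.dec 10 8 (.emb 9 [1,3,0,2,6,10,8,5,4,9]) (.fresh 10 (.full 10 (.dec 7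
  8 (.emb 1 [3,8,7]) (.dec 7 11 (.fresh 7 .big (.dec 11 8 (.emb 2 [3,8,11,7]) (.fresh 11 .big
  (.adj2 7 11)))) (.fresh 7 .big (.low 7))))) (.adj2 6 10))))) (.fresh 6 (.fresh 6 .big (.dec 7 8
  (.emb 1 [3,8,7]) (.dec 7 10 (.dec 7 11 (.full 7 (.dec 10 8 (.emb 2 [3,8,10,7]) (.dec 10 11 (.emb
  1 [7,11,10]) (.fresh 10 .big (.dec 11 8 (.emb 2 [3,8,11,7]) (.fresh 11 .big (.adj2 6 11)))))))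
  (.fresh 7 .big (.dec 10 8 (.emb 2 [3,8,10,7]) (.dec 10 11 (.full 10 (.dec 11 8 (.emb 17
  [2,0,6,5,1,11,9,4,3,10,8,7]) (.fresh 11 .big (.adj2 6 11)))) (.fresh 10 .big (.adj2 7 10))))))
  (.dec 7 11 (.fresh 7 .big (.dec 11 8 (.emb 2 [3,8,11,7]) (.dec 11 10 (.full 11 (.dec 10 8 (.emb
  17 [2,0,6,5,1,11,9,4,3,10,7,8]) (.fresh 10 .big (.fresh 8 .big (.low 8))))) (.fresh 11 .big
  (.adj2 7 11))))) (.fresh 7 .big (.low 7)))))) (.low 6))))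

def s12_40 : Cs :=
  (.dec 9 7 (.full 9 (.dec 7 6 (.emb 5 [7,3,1,6,0,9,2,5,4]) (.dec 7 8 (.emb 1 [3,8,7]) (.fresh 7
  (.full 7 (.dec 6 8 (.emb 9 [2,6,5,9,7,3,8,4,0,1]) (.dec 6 10 (.emb 9 [2,6,0,1,3,7,10,4,5,9])
  (.fresh 6 (.fresh 6 .big (.dec 8 10 (.emb 2 [3,8,10,7]) (.dec 8 11 (.fresh 8 .big (.dec 11 10
  (.emb 15 [2,0,6,5,1,11,9,4,3,8,10,7]) (.fresh 11 .big (.adj2 8 11)))) (.fresh 8 .big (.low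
  8))))) (.low 6))))) (.dec 6 8 (.emb 9 [2,6,5,9,7,3,8,4,0,1]) (.fresh 6 (.fresh 6 (.full 6 (.dec
  8 10 (.dec 8 11 (.emb 2 [6,11,8,10]) (.fresh 8 .big (.dec 10 11 (.emb 1 [6,11,10]) (.fresh 10
  .big (.adj2 8 10))))) (.dec 8 11 (.fresh 8 .big (.dec 11 10 (.emb 1 [6,11,10]) (.fresh 11 .big
  (.adj2 8 11)))) (.fresh 8 .big (.low 8))))) (.dec 8 10 (.fresh 8 (.full 8 (.dec 10 11 (.emb 1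
  [8,11,10]) (.fresh 10 .big (.adj2 6 10)))) (.fresh 10 (.full 10 (.fresh 11 .big (.low 11)))
  .cap)) (.fresh 8 (.fresh 8 .big (.dec 10 11 (.fresh 10 .big .cap) (.fresh 10 .big (.low 10))))
  (.low 8)))) (.low 6))))))) (.dec 9 8 (.full 9 (.dec 8 6 (.emb 5 [8,3,1,6,0,9,2,5,4]) (.dec 8 7
  (.emb 1 [3,8,7]) (.fresh 8 (.full 8 (.dec 6 7 (.emb 9 [2,6,5,9,8,3,7,4,0,1]) (.dec 6 10 (.emb 9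
  [2,6,0,1,3,8,10,4,5,9]) (.fresh 6 (.fresh 6 .big (.dec 7 10 (.emb 2 [3,8,10,7]) (.dec 7 11
  (.fresh 7 .big (.dec 11 10 (.emb 15 [2,0,6,5,1,11,9,4,3,7,10,8]) (.fresh 11 .big (.adj2 7 11))))
  (.fresh 7 .big (.low 7))))) (.low 6))))) (.dec 6 7 (.emb 9 [2,6,5,9,8,3,7,4,0,1]) (.fresh 6
  (.fresh 6 (.full 6 (.dec 7 10 (.dec 7 11 (.emb 2 [6,11,7,10]) (.fresh 7 .big (.dec 10 11 (.emb 1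
  [6,11,10]) (.fresh 10 .big (.adj2 7 10))))) (.dec 7 11 (.fresh 7 .big (.dec 11 10 (.emb 1
  [6,11,10]) (.fresh 11 .big (.adj2 7 11)))) (.fresh 7 .big (.low 7))))) (.dec 7 10 (.fresh 7
  (.full 7 (.dec 10 11 (.emb 1 [7,11,10]) (.fresh 10 .big (.adj2 6 10)))) (.fresh 10 (.full 10
  (.fresh 11 .big (.low 11))) .cap)) (.fresh 7 (.fresh 7 .big (.dec 10 11 (.fresh 10 .big .cap)
  (.fresh 10 .big (.low 10)))) (.low 7)))) (.low 6))))))) (.fresh 9 (.full 9 (.dec 6 7 (.dec 6 8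
  (.emb 2 [3,8,6,7]) (.dec 6 10 (.emb 9 [1,3,4,9,10,6,7,5,0,2]) (.fresh 6 (.full 6 (.dec 7 8 (.emb
  1 [3,8,7]) (.dec 7 10 (.emb 12 [0,1,3,7,6,2,5,4,10,9]) (.dec 7 11 (.emb 1 [6,11,7]) (.fresh 7
  .big (.dec 8 10 (.dec 8 11 (.emb 17 [9,5,10,4,2,8,1,0,6,3,11,7]) (.fresh 8 .big (.dec 10 11
  (.emb 22 [1,3,0,4,7,8,2,9,6,10,5,11]) (.fresh 10 .big (.adj2 8 10))))) (.dec 8 11 (.fresh 8 .big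
  (.dec 11 10 (.emb 17 [9,4,10,5,1,11,2,0,3,6,8,7]) (.fresh 11 .big (.adj2 8 11)))) (.fresh 8 .big
  (.low 8))))))))) (.dec 7 8 (.emb 1 [3,8,7]) (.dec 7 10 (.emb 12 [0,1,3,7,6,2,5,4,10,9]) (.fresh
  7 (.full 7 (.dec 8 10 (.dec 8 11 (.emb 2 [3,8,11,7]) (.fresh 8 .big (.dec 10 11 (.emb 17
  [2,5,6,0,9,7,1,4,10,3,11,8]) (.fresh 10 .big (.adj2 8 10))))) (.dec 8 11 (.emb 2 [3,8,11,7])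
  (.fresh 8 .big (.low 8))))) (.adj2 6 7))))))) s12_39)) (.adj2 5 9))))

def s12_41 : Cs :=
  (.dec 6 8 (.dec 6 9 (.emb 4 [0,1,3,4,8,6,9,2]) (.dec 6 10 (.emb 2 [2,5,10,6]) (.dec 6 11 (.emb 2
  [2,5,11,6]) (.fresh 6 .big (.dec 8 7 (.emb 1 [3,8,7]) (.dec 8 9 (.full 8 (.dec 9 7 (.emb 2
  [3,8,9,7]) (.dec 9 10 (.emb 9 [2,5,0,1,4,9,10,3,6,8]) (.dec 9 11 (.emb 9 [2,5,0,1,4,9,11,3,6,8])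
  (.fresh 9 .big (.adj2 4 9)))))) (.dec 8 10 (.full 8 (.dec 10 7 (.emb 2 [3,8,10,7]) (.dec 10 9
  (.emb 9 [1,4,0,2,5,10,9,6,3,8]) (.dec 10 11 (.emb 1 [5,11,10]) (.fresh 10 .big (.dec 7 9 (.dec 7
  11 (.emb 7 [3,1,0,8,2,10,6,7,11,5]) (.fresh 7 .big (.dec 9 11 (.emb 18
  [9,11,7,4,5,3,1,10,2,8,0,6]) (.fresh 9 .big (.adj2 7 9))))) (.dec 7 11 (.emb 7
  [3,1,0,8,2,10,6,7,11,5]) (.fresh 7 .big (.low 7))))))))) (.dec 8 11 (.full 8 (.dec 11 7 (.emb 2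
  [3,8,11,7]) (.dec 11 9 (.emb 9 [1,4,0,2,5,11,9,6,3,8]) (.dec 11 10 (.emb 1 [5,11,10]) (.fresh 11
  .big (.dec 7 9 (.dec 7 10 (.emb 7 [3,1,0,8,2,11,6,7,10,5]) (.fresh 7 .big (.dec 9 10 (.emb 18
  [9,10,7,4,5,3,1,11,2,8,0,6]) (.fresh 9 .big (.adj2 7 9))))) (.dec 7 10 (.emb 7
  [3,1,0,8,2,11,6,7,10,5]) (.fresh 7 .big (.low 7))))))))) (.fresh 8 .big (.adj2 6 8))))))))))
  (.dec 6 9 (.dec 6 10 (.emb 2 [2,5,10,6]) (.dec 6 11 (.emb 2 [2,5,11,6]) (.fresh 6 .big (.dec 9 7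
  (.full 9 (.dec 7 8 (.emb 1 [3,8,7]) (.dec 7 10 (.emb 9 [2,5,0,1,3,7,10,4,6,9]) (.dec 7 11 (.emb
  9 [2,5,0,1,3,7,11,4,6,9]) (.fresh 7 .big (.dec 8 10 (.dec 8 11 (.emb 2 [5,11,8,10]) (.fresh 8
  .big (.dec 10 11 (.emb 1 [5,11,10]) (.fresh 10 .big (.adj2 8 10))))) (.dec 8 11 (.fresh 8 .big
  (.dec 11 10 (.emb 1 [5,11,10]) (.fresh 11 .big (.adj2 8 11)))) (.fresh 8 .big (.low 8)))))))))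
  (.dec 9 8 (.full 9 (.dec 8 7 (.emb 1 [3,8,7]) (.dec 8 10 (.emb 9 [2,5,0,1,3,8,10,4,6,9]) (.dec 8
  11 (.emb 9 [2,5,0,1,3,8,11,4,6,9]) (.fresh 8 .big (.dec 7 10 (.dec 7 11 (.emb 2 [5,11,7,10])
  (.fresh 7 .big (.dec 10 11 (.emb 1 [5,11,10]) (.fresh 10 .big (.adj2 7 10))))) (.dec 7 11
  (.fresh 7 .big (.dec 11 10 (.emb 1 [5,11,10]) (.fresh 11 .big (.adj2 7 11)))) (.fresh 7 .big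
  (.low 7))))))))) (.dec 9 10 (.full 9 (.dec 10 7 (.emb 9 [1,3,0,2,5,10,7,6,4,9]) (.dec 10 8 (.emb
  9 [1,3,0,2,5,10,8,6,4,9]) (.dec 10 11 (.emb 1 [5,11,10]) (.fresh 10 .big (.dec 7 8 (.emb 1
  [3,8,7]) (.dec 7 11 (.fresh 7 .big (.dec 11 8 (.emb 2 [3,8,11,7]) (.fresh 11 .big (.adj2 7
  11)))) (.fresh 7 .big (.low 7))))))))) (.dec 9 11 (.full 9 (.dec 11 7 (.emb 9
  [1,3,0,2,5,11,7,6,4,9]) (.dec 11 8 (.emb 9 [1,3,0,2,5,11,8,6,4,9]) (.dec 11 10 (.emb 1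
  [5,11,10]) (.fresh 11 .big (.dec 7 8 (.emb 1 [3,8,7]) (.dec 7 10 (.fresh 7 .big (.dec 10 8 (.emb
  2 [3,8,10,7]) (.fresh 10 .big (.adj2 7 10)))) (.fresh 7 .big (.low 7))))))))) (.fresh 9 .big
  (.adj2 6 9))))))))) (.dec 6 10 (.emb 2 [2,5,10,6]) (.dec 6 11 (.emb 2 [2,5,11,6]) (.fresh 6 .big
  (.low 6))))))

def s12_42 : Cs :=
  (.fresh 6 (.full 6 (.dec 7 8 (.emb 1 [3,8,7]) (.dec 7 9 (.full 7 (.dec 9 8 (.emb 2 [3,8,9,7])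
  (.dec 9 10 (.emb 9 [2,5,0,1,4,9,10,3,6,7]) (.dec 9 11 (.emb 2 [6,11,9,7]) (.fresh 9 .big (.adj2
  4 9)))))) (.dec 7 10 (.full 7 (.dec 10 8 (.emb 2 [3,8,10,7]) (.dec 10 9 (.emb 9
  [1,4,0,2,5,10,9,6,3,7]) (.dec 10 11 (.emb 2 [6,11,10,7]) (.fresh 10 .big (.adj2 5 10)))))) (.dec
  7 11 (.emb 1 [6,11,7]) (.fresh 7 .big (.dec 8 9 (.dec 8 10 (.full 8 (.dec 9 10 (.emb 1 [8,9,10])
  (.dec 9 11 (.emb 9 [6,2,11,9,4,1,0,8,7,3]) (.fresh 9 .big (.adj2 4 9))))) (.dec 8 11 (.emb 6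
  [8,3,9,11,7,1,4,6,0,2]) (.fresh 8 .big (.dec 9 10 (.full 9 (.dec 10 11 (.emb 21
  [1,3,4,0,8,7,9,2,6,10,5,11]) (.fresh 10 .big (.adj2 5 10)))) (.dec 9 11 (.emb 9
  [6,2,11,9,4,1,0,8,7,3]) (.fresh 9 .big (.adj2 8 9))))))) (.dec 8 10 (.dec 8 11 (.emb 7
  [2,0,1,6,3,11,7,5,10,8]) (.fresh 8 .big (.dec 10 9 (.full 10 (.dec 9 11 (.emb 20
  [1,0,4,3,2,9,7,8,6,5,10,11]) (.fresh 9 .big (.adj2 4 9)))) (.dec 10 11 (.emb 9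
  [3,1,8,10,5,2,0,11,7,6]) (.fresh 10 .big (.adj2 8 10)))))) (.dec 8 11 (.fresh 8 .big (.dec 11 9
  (.emb 7 [1,0,2,3,6,8,7,4,9,11]) (.dec 11 10 (.emb 6 [11,6,10,8,7,2,5,3,0,1]) (.fresh 11 .big
  (.adj2 8 11))))) (.fresh 8 .big (.low 8))))))))))) (.dec 7 8 (.emb 1 [3,8,7]) (.dec 7 9 (.full 7
  (.dec 9 8 (.emb 2 [3,8,9,7]) (.dec 9 10 (.emb 9 [2,5,0,1,4,9,10,3,6,7]) (.fresh 9 (.full 9 (.dec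
  8 10 (.dec 8 11 (.emb 3 [3,8,1,7,4,11,9]) (.fresh 8 .big (.dec 10 11 (.emb 16
  [2,0,5,6,1,10,7,3,4,8,11,9]) (.fresh 10 .big (.adj2 8 10))))) (.dec 8 11 (.emb 3
  [3,8,1,7,4,11,9]) (.fresh 8 .big (.low 8))))) (.adj2 4 9))))) (.dec 7 10 (.full 7 (.dec 10 8
  (.emb 2 [3,8,10,7]) (.dec 10 9 (.emb 9 [1,4,0,2,5,10,9,6,3,7]) (.fresh 10 (.full 10 (.dec 8 9
  (.dec 8 11 (.emb 6 [10,7,11,5,6,3,8,2,1,0]) (.fresh 8 .big (.dec 9 11 (.emb 19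
  [2,0,5,6,1,10,7,3,4,11,8,9]) (.fresh 9 .big (.adj2 8 9))))) (.dec 8 11 (.emb 6
  [10,7,11,5,6,3,8,2,1,0]) (.fresh 8 .big (.low 8))))) (.adj2 5 10))))) (.fresh 7 (.full 7 (.dec 8
  9 (.dec 8 10 (.full 8 (.dec 9 10 (.emb 1 [8,9,10]) (.dec 9 11 (.emb 3 [3,1,7,8,11,4,9]) (.fresh
  9 .big (.adj2 4 9))))) (.dec 8 11 (.emb 2 [3,8,11,7]) (.fresh 8 .big (.dec 9 10 (.full 9 (.dec
  10 11 (.emb 17 [2,5,0,6,10,1,7,11,9,3,4,8]) (.fresh 10 .big (.adj2 5 10)))) (.dec 9 11 (.emb 3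
  [3,1,7,8,11,4,9]) (.fresh 9 .big (.adj2 8 9))))))) (.dec 8 10 (.dec 8 11 (.emb 2 [3,8,11,7])
  (.fresh 8 .big (.dec 10 9 (.full 10 (.dec 9 11 (.emb 4 [1,3,8,7,10,9,11,4]) (.fresh 9 .big
  (.adj2 4 9)))) (.dec 10 11 (.emb 9 [2,0,5,10,8,3,1,11,6,7]) (.fresh 10 .big (.adj2 8 10))))))
  (.dec 8 11 (.emb 2 [3,8,11,7]) (.fresh 8 .big (.low 8)))))) (.adj2 6 7))))))

def s12_43 : Cs :=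
  (.fresh 6 (.full 6 (.dec 8 7 (.emb 1 [3,8,7]) (.dec 8 9 (.full 8 (.dec 9 7 (.emb 2 [3,8,9,7])
  (.dec 9 10 (.emb 9 [2,5,0,1,4,9,10,3,6,8]) (.dec 9 11 (.emb 2 [6,8,9,11]) (.fresh 9 .big (.adj2
  4 9)))))) (.dec 8 10 (.full 8 (.dec 10 7 (.emb 2 [3,8,10,7]) (.dec 10 9 (.emb 9
  [1,4,0,2,5,10,9,6,3,8]) (.dec 10 11 (.emb 2 [6,8,10,11]) (.fresh 10 .big (.adj2 5 10)))))) (.dec
  8 11 (.emb 1 [6,8,11]) (.fresh 8 .big (.dec 7 9 (.dec 7 10 (.full 7 (.dec 9 10 (.emb 1 [7,9,10])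
  (.dec 9 11 (.emb 9 [6,2,11,9,4,1,0,7,8,3]) (.fresh 9 .big (.adj2 4 9))))) (.dec 7 11 (.emb 6
  [7,3,9,11,8,1,4,6,0,2]) (.fresh 7 .big (.dec 9 10 (.full 9 (.dec 10 11 (.emb 21
  [1,3,4,0,7,8,9,2,6,10,5,11]) (.fresh 10 .big (.adj2 5 10)))) (.dec 9 11 (.emb 9
  [6,2,11,9,4,1,0,7,8,3]) (.fresh 9 .big (.adj2 7 9))))))) (.dec 7 10 (.dec 7 11 (.emb 7
  [2,0,1,6,3,11,8,5,10,7]) (.fresh 7 .big (.dec 10 9 (.full 10 (.dec 9 11 (.emb 20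
  [1,0,4,3,2,9,8,7,6,5,10,11]) (.fresh 9 .big (.adj2 4 9)))) (.dec 10 11 (.emb 9
  [3,1,7,10,5,2,0,11,8,6]) (.fresh 10 .big (.adj2 7 10)))))) (.dec 7 11 (.fresh 7 .big (.dec 11 9
  (.emb 7 [1,0,2,3,6,7,8,4,9,11]) (.dec 11 10 (.emb 6 [11,6,10,7,8,2,5,3,0,1]) (.fresh 11 .big
  (.adj2 7 11))))) (.fresh 7 .big (.low 7))))))))))) (.dec 8 7 (.emb 1 [3,8,7]) (.dec 8 9 (.full 8
  (.dec 9 7 (.emb 2 [3,8,9,7]) (.dec 9 10 (.emb 9 [2,5,0,1,4,9,10,3,6,8]) (.fresh 9 (.full 9 (.dec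
  7 10 (.dec 7 11 (.emb 3 [3,1,7,8,11,4,9]) (.fresh 7 .big (.dec 10 11 (.emb 16
  [2,0,5,6,1,10,8,3,4,7,11,9]) (.fresh 10 .big (.adj2 7 10))))) (.dec 7 11 (.emb 3
  [3,1,7,8,11,4,9]) (.fresh 7 .big (.low 7))))) (.adj2 4 9))))) (.dec 8 10 (.full 8 (.dec 10 7
  (.emb 2 [3,8,10,7]) (.dec 10 9 (.emb 9 [1,4,0,2,5,10,9,6,3,8]) (.fresh 10 (.full 10 (.dec 7 9
  (.dec 7 11 (.emb 6 [10,8,11,5,6,3,7,2,1,0]) (.fresh 7 .big (.dec 9 11 (.emb 19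
  [2,0,5,6,1,10,8,3,4,11,7,9]) (.fresh 9 .big (.adj2 7 9))))) (.dec 7 11 (.emb 6
  [10,8,11,5,6,3,7,2,1,0]) (.fresh 7 .big (.low 7))))) (.adj2 5 10))))) (.fresh 8 (.full 8 (.dec 7
  9 (.dec 7 10 (.full 7 (.dec 9 10 (.emb 1 [7,9,10]) (.dec 9 11 (.emb 3 [3,8,1,7,4,11,9]) (.fresh
  9 .big (.adj2 4 9))))) (.dec 7 11 (.emb 2 [3,8,11,7]) (.fresh 7 .big (.dec 9 10 (.full 9 (.dec
  10 11 (.emb 17 [2,5,0,6,10,1,8,11,9,3,4,7]) (.fresh 10 .big (.adj2 5 10)))) (.dec 9 11 (.emb 3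
  [3,8,1,7,4,11,9]) (.fresh 9 .big (.adj2 7 9))))))) (.dec 7 10 (.dec 7 11 (.emb 2 [3,8,11,7])
  (.fresh 7 .big (.dec 10 9 (.full 10 (.dec 9 11 (.emb 4 [1,3,8,7,11,9,10,4]) (.fresh 9 .big
  (.adj2 4 9)))) (.dec 10 11 (.emb 9 [2,0,5,10,7,3,1,11,6,8]) (.fresh 10 .big (.adj2 7 10))))))
  (.dec 7 11 (.emb 2 [3,8,11,7]) (.fresh 7 .big (.low 7)))))) (.adj2 6 8))))))

def s12_44 : Cs :=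
  (.dec 9 7 (.full 9 (.dec 7 8 (.emb 1 [3,8,7]) (.dec 7 10 (.emb 9 [2,5,0,1,3,7,10,4,6,9]) (.fresh
  7 (.full 7 (.dec 8 10 (.dec 8 11 (.emb 2 [3,8,11,7]) (.fresh 8 .big (.dec 10 11 (.emb 15
  [2,0,5,6,1,10,9,4,3,8,11,7]) (.fresh 10 .big (.adj2 8 10))))) (.dec 8 11 (.emb 2 [3,8,11,7])
  (.fresh 8 .big (.low 8))))) (.dec 8 10 (.fresh 8 (.full 8 (.dec 10 11 (.emb 1 [8,11,10]) (.fresh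
  10 .big (.adj2 5 10)))) (.fresh 10 (.full 10 (.fresh 11 .big (.low 11))) .cap)) (.fresh 8
  (.fresh 8 .big (.dec 10 11 (.fresh 10 .big .cap) (.fresh 10 .big (.low 10)))) (.low 8)))))))
  (.dec 9 8 (.full 9 (.dec 8 7 (.emb 1 [3,8,7]) (.dec 8 10 (.emb 9 [2,5,0,1,3,8,10,4,6,9]) (.fresh
  8 (.full 8 (.dec 7 10 (.dec 7 11 (.emb 2 [3,8,11,7]) (.fresh 7 .big (.dec 10 11 (.emb 15
  [2,0,5,6,1,10,9,4,3,7,11,8]) (.fresh 10 .big (.adj2 7 10))))) (.dec 7 11 (.emb 2 [3,8,11,7])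
  (.fresh 7 .big (.low 7))))) (.dec 7 10 (.fresh 7 (.full 7 (.dec 10 11 (.emb 1 [7,11,10]) (.fresh
  10 .big (.adj2 5 10)))) (.fresh 10 (.full 10 (.fresh 11 .big (.low 11))) .cap)) (.fresh 7
  (.fresh 7 .big (.dec 10 11 (.fresh 10 .big .cap) (.fresh 10 .big (.low 10)))) (.low 7)))))))
  (.dec 9 10 (.full 9 (.dec 10 7 (.emb 9 [1,3,0,2,5,10,7,6,4,9]) (.dec 10 8 (.emb 9
  [1,3,0,2,5,10,8,6,4,9]) (.fresh 10 (.full 10 (.dec 7 8 (.emb 1 [3,8,7]) (.dec 7 11 (.fresh 7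
  .big (.dec 11 8 (.emb 2 [3,8,11,7]) (.fresh 11 .big (.adj2 7 11)))) (.fresh 7 .big (.low 7)))))
  (.adj2 5 10))))) (.fresh 9 (.full 9 (.dec 7 8 (.emb 1 [3,8,7]) (.dec 7 10 (.dec 7 11 (.full 7
  (.dec 10 8 (.emb 2 [3,8,10,7]) (.dec 10 11 (.emb 1 [7,11,10]) (.fresh 10 .big (.adj2 5 10)))))
  (.fresh 7 .big (.dec 10 8 (.emb 2 [3,8,10,7]) (.dec 10 11 (.full 10 (.dec 11 8 (.emb 17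
  [2,0,5,6,1,10,9,4,3,11,7,8]) (.fresh 11 .big (.fresh 8 .big (.low 8))))) (.fresh 10 .big (.adj2
  7 10)))))) (.dec 7 11 (.fresh 7 .big (.dec 11 8 (.emb 2 [3,8,11,7]) (.dec 11 10 (.full 11 (.dec
  10 8 (.emb 17 [2,0,5,6,1,10,9,4,3,11,8,7]) (.fresh 10 .big (.adj2 5 10)))) (.fresh 11 .big
  (.adj2 7 11))))) (.fresh 7 .big (.low 7)))))) (.adj2 6 9)))))

def s12_45 : Cs :=
  (.dec 7 9 (.dec 7 10 (.full 7 (.dec 9 8 (.emb 2 [3,8,9,7]) (.dec 9 10 (.emb 1 [7,9,10]) (.dec 9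
  11 (.full 9 (.dec 10 8 (.emb 2 [3,8,10,7]) (.dec 10 11 (.emb 2 [7,9,11,10]) (.fresh 10 .big
  (.adj2 5 10))))) (.fresh 9 .big (.adj2 4 9)))))) (.dec 7 11 (.full 7 (.dec 9 8 (.emb 2
  [3,8,9,7]) (.dec 9 10 (.full 9 (.dec 10 8 (.emb 3 [3,8,1,7,4,10,9]) (.dec 10 11 (.emb 2
  [7,11,10,9]) (.fresh 10 .big (.adj2 5 10))))) (.dec 9 11 (.emb 1 [7,11,9]) (.fresh 9 .big (.adj2
  4 9)))))) (.fresh 7 .big (.dec 9 8 (.emb 2 [3,8,9,7]) (.dec 9 10 (.full 9 (.dec 10 8 (.emb 3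
  [3,8,1,7,4,10,9]) (.dec 10 11 (.full 10 (.dec 11 8 (.emb 18 [2,0,5,6,1,10,11,4,3,9,8,7]) (.fresh
  11 .big (.adj2 6 11)))) (.fresh 10 .big (.adj2 5 10))))) (.dec 9 11 (.full 9 (.dec 11 8 (.emb 3
  [3,8,1,7,4,11,9]) (.dec 11 10 (.full 11 (.dec 10 8 (.emb 18 [2,0,6,5,1,11,10,4,3,9,8,7]) (.fresh
  10 .big (.adj2 5 10)))) (.fresh 11 .big (.adj2 6 11))))) (.fresh 9 .big (.adj2 7 9)))))))) (.dec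
  7 10 (.dec 7 11 (.full 7 (.dec 10 8 (.emb 2 [3,8,10,7]) (.dec 10 9 (.full 10 (.dec 9 8 (.emb 3
  [3,1,7,8,10,4,9]) (.dec 9 11 (.emb 2 [7,11,9,10]) (.fresh 9 .big (.adj2 4 9))))) (.dec 10 11
  (.emb 1 [7,11,10]) (.fresh 10 .big (.adj2 5 10)))))) (.fresh 7 .big (.dec 10 8 (.emb 2
  [3,8,10,7]) (.dec 10 9 (.full 10 (.dec 9 8 (.emb 3 [3,1,7,8,10,4,9]) (.dec 9 11 (.full 9 (.dec
  11 8 (.emb 4 [1,3,8,7,11,9,10,4]) (.fresh 11 .big (.adj2 6 11)))) (.fresh 9 .big (.adj2 4 9)))))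
  (.dec 10 11 (.full 10 (.dec 11 8 (.emb 11 [10,5,2,6,7,11,0,1,8,3]) (.dec 11 9 (.full 11 (.dec 9
  8 (.emb 18 [2,0,6,5,1,11,10,4,3,9,7,8]) (.fresh 9 .big (.adj2 4 9)))) (.fresh 11 .big (.adj2 6
  11))))) (.fresh 10 .big (.adj2 7 10))))))) (.dec 7 11 (.fresh 7 .big (.dec 11 8 (.emb 2
  [3,8,11,7]) (.dec 11 9 (.full 11 (.dec 9 8 (.emb 3 [3,1,7,8,11,4,9]) (.dec 9 10 (.full 9 (.dec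
  10 8 (.emb 4 [1,3,8,7,10,9,11,4]) (.fresh 10 .big (.adj2 5 10)))) (.fresh 9 .big (.adj2 4 9)))))
  (.dec 11 10 (.full 11 (.dec 10 8 (.emb 11 [10,8,3,7,5,11,1,0,6,2]) (.dec 10 9 (.full 10 (.dec 9
  8 (.emb 18 [2,0,5,6,1,10,11,4,3,9,7,8]) (.fresh 9 .big (.adj2 4 9)))) (.fresh 10 .big (.adj2 5
  10))))) (.fresh 11 .big (.adj2 7 11)))))) (.fresh 7 .big (.low 7)))))

def s12_46 : Cs :=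
  (.fresh 5 (.full 5 (.dec 6 7 (.dec 6 8 (.emb 2 [3,8,6,7]) (.dec 6 9 (.emb 4 [0,1,3,4,7,6,9,2])
  (.dec 6 10 (.emb 2 [2,5,10,6]) (.dec 6 11 (.emb 2 [2,5,11,6]) (.fresh 6 .big (.dec 7 8 (.emb 1
  [3,8,7]) (.dec 7 9 (.full 7 (.dec 9 8 (.emb 2 [3,8,9,7]) (.dec 9 10 (.emb 9
  [2,5,0,1,4,9,10,3,6,7]) (.dec 9 11 (.emb 9 [2,5,0,1,4,9,11,3,6,7]) (.fresh 9 .big (.adj2 4
  9)))))) (.dec 7 10 (.full 7 (.dec 10 8 (.emb 2 [3,8,10,7]) (.dec 10 9 (.emb 9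
  [1,4,0,2,5,10,9,6,3,7]) (.dec 10 11 (.emb 1 [5,11,10]) (.fresh 10 .big (.dec 8 9 (.dec 8 11
  (.emb 7 [3,8,11,7,5,6,10,1,0,2]) (.fresh 8 .big (.dec 9 11 (.emb 18 [9,11,8,4,5,3,1,10,2,7,0,6])
  (.fresh 9 .big (.adj2 8 9))))) (.dec 8 11 (.emb 7 [3,8,11,7,5,6,10,1,0,2]) (.fresh 8 .big (.low
  8))))))))) (.dec 7 11 (.full 7 (.dec 11 8 (.emb 2 [3,8,11,7]) (.dec 11 9 (.emb 9
  [1,4,0,2,5,11,9,6,3,7]) (.dec 11 10 (.emb 1 [5,11,10]) (.fresh 11 .big (.dec 8 9 (.dec 8 10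
  (.emb 7 [3,8,10,7,5,6,11,1,0,2]) (.fresh 8 .big (.dec 9 10 (.emb 18 [9,10,8,4,5,3,1,11,2,7,0,6])
  (.fresh 9 .big (.adj2 8 9))))) (.dec 8 10 (.emb 7 [3,8,10,7,5,6,11,1,0,2]) (.fresh 8 .big (.low
  8))))))))) (.fresh 7 .big (.adj2 6 7))))))))))) s12_41)) (.dec 6 7 (.dec 6 8 (.emb 2 [3,8,6,7])
  (.dec 6 9 (.emb 4 [0,1,3,4,7,6,9,2]) (.dec 6 10 (.emb 2 [2,5,10,6]) s12_42))) (.dec 6 8 (.dec 6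
  9 (.emb 4 [0,1,3,4,8,6,9,2]) (.dec 6 10 (.emb 2 [2,5,10,6]) s12_43)) (.dec 6 9 (.dec 6 10 (.emb
  2 [2,5,10,6]) (.fresh 6 (.full 6 (.dec 9 7 (.full 9 (.dec 7 8 (.emb 1 [3,8,7]) (.dec 7 10 (.emb
  9 [2,5,0,1,3,7,10,4,6,9]) (.dec 7 11 (.emb 2 [6,9,7,11]) (.fresh 7 .big (.dec 8 10 (.dec 8 11
  (.emb 7 [6,2,0,9,1,7,4,11,8,3]) (.fresh 8 .big (.dec 10 11 (.emb 18 [10,8,11,5,3,6,2,7,1,9,0,4])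
  (.fresh 10 .big (.adj2 8 10))))) (.dec 8 11 (.emb 7 [6,2,0,9,1,7,4,11,8,3]) (.fresh 8 .big (.low
  8))))))))) (.dec 9 8 (.full 9 (.dec 8 7 (.emb 1 [3,8,7]) (.dec 8 10 (.emb 9
  [2,5,0,1,3,8,10,4,6,9]) (.dec 8 11 (.emb 2 [6,9,8,11]) (.fresh 8 .big (.dec 7 10 (.dec 7 11
  (.emb 7 [6,2,0,9,1,8,4,11,7,3]) (.fresh 7 .big (.dec 10 11 (.emb 18 [10,7,11,5,3,6,2,8,1,9,0,4])
  (.fresh 10 .big (.adj2 7 10))))) (.dec 7 11 (.emb 7 [6,2,0,9,1,8,4,11,7,3]) (.fresh 7 .big (.low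
  7))))))))) (.dec 9 10 (.full 9 (.dec 10 7 (.emb 9 [1,3,0,2,5,10,7,6,4,9]) (.dec 10 8 (.emb 9
  [1,3,0,2,5,10,8,6,4,9]) (.dec 10 11 (.emb 2 [6,9,10,11]) (.fresh 10 .big (.adj2 5 10)))))) (.dec
  9 11 (.emb 1 [6,9,11]) (.fresh 9 .big (.adj2 4 9))))))) s12_44)) (.dec 6 10 (.emb 2 [2,5,10,6])
  (.fresh 6 (.fresh 6 .big (.dec 7 8 (.emb 1 [3,8,7]) s12_45)) (.low 6)))))))

def s12_47 : Cs :=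
  (.dec 5 8 (.dec 5 9 (.emb 4 [0,1,3,4,8,5,9,2]) (.fresh 5 (.full 5 (.dec 8 6 (.emb 2 [2,5,8,6])
  (.dec 8 7 (.emb 1 [3,8,7]) s12_37))) (.dec 8 6 (.emb 2 [2,5,8,6]) (.dec 8 7 (.emb 1 [3,8,7])
  s12_38)))) (.dec 5 9 (.fresh 5 (.full 5 (.dec 9 6 (.emb 2 [2,5,9,6]) (.dec 9 7 (.full 9 (.dec 7
  6 (.emb 5 [7,3,1,6,0,9,2,5,4]) (.dec 7 8 (.emb 1 [3,8,7]) (.dec 7 10 (.emb 2 [5,9,7,10]) (.fresh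
  7 (.full 7 (.dec 6 8 (.emb 9 [2,6,5,9,7,3,8,4,0,1]) (.dec 6 10 (.emb 2 [2,5,10,6]) (.dec 6 11
  (.emb 9 [2,6,0,1,3,7,11,4,5,9]) (.fresh 6 .big (.low 6)))))) (.dec 6 8 (.emb 9
  [2,6,5,9,7,3,8,4,0,1]) (.dec 6 10 (.emb 2 [2,5,10,6]) (.fresh 6 (.fresh 6 .big (.dec 8 10 (.emb
  7 [5,2,0,9,1,7,4,10,8,3]) (.dec 8 11 (.fresh 8 .big (.dec 11 10 (.emb 18
  [11,8,10,6,3,5,2,7,1,9,0,4]) (.fresh 11 .big (.adj2 8 11)))) (.fresh 8 .big (.low 8))))) (.low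
  6))))))))) (.dec 9 8 (.full 9 (.dec 8 6 (.emb 5 [8,3,1,6,0,9,2,5,4]) (.dec 8 7 (.emb 1 [3,8,7])
  (.dec 8 10 (.emb 2 [5,9,8,10]) (.fresh 8 (.full 8 (.dec 6 7 (.emb 9 [2,6,5,9,8,3,7,4,0,1]) (.dec
  6 10 (.emb 2 [2,5,10,6]) (.dec 6 11 (.emb 9 [2,6,0,1,3,8,11,4,5,9]) (.fresh 6 .big (.low 6))))))
  (.dec 6 7 (.emb 9 [2,6,5,9,8,3,7,4,0,1]) (.dec 6 10 (.emb 2 [2,5,10,6]) (.fresh 6 (.fresh 6 .big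
  (.dec 7 10 (.emb 7 [5,2,0,9,1,8,4,10,7,3]) (.dec 7 11 (.fresh 7 .big (.dec 11 10 (.emb 18
  [11,7,10,6,3,5,2,8,1,9,0,4]) (.fresh 11 .big (.adj2 7 11)))) (.fresh 7 .big (.low 7))))) (.low
  6))))))))) (.dec 9 10 (.emb 1 [5,9,10]) (.fresh 9 (.full 9 (.dec 6 7 (.dec 6 8 (.emb 2
  [3,8,6,7]) (.dec 6 10 (.emb 2 [2,5,10,6]) (.dec 6 11 (.emb 9 [1,3,4,9,11,6,7,5,0,2]) (.fresh 6
  .big (.dec 7 8 (.emb 1 [3,8,7]) (.dec 7 10 (.emb 9 [1,4,3,7,10,5,9,6,0,2]) (.dec 7 11 (.emb 12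
  [0,1,3,7,6,2,5,4,11,9]) (.fresh 7 .big (.adj2 6 7))))))))) (.dec 6 8 (.dec 6 10 (.emb 2
  [2,5,10,6]) (.dec 6 11 (.emb 9 [1,3,4,9,11,6,8,5,0,2]) (.fresh 6 .big (.dec 8 7 (.emb 1 [3,8,7])
  (.dec 8 10 (.emb 9 [1,4,3,8,10,5,9,6,0,2]) (.dec 8 11 (.emb 12 [0,1,3,8,6,2,5,4,11,9]) (.fresh 8
  .big (.adj2 6 8)))))))) (.dec 6 10 (.emb 2 [2,5,10,6]) (.dec 6 11 (.fresh 6 .big (.dec 11 7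
  (.emb 9 [1,3,0,2,6,11,7,5,4,9]) (.dec 11 8 (.emb 9 [1,3,0,2,6,11,8,5,4,9]) (.dec 11 10 (.emb 2
  [5,9,11,10]) (.fresh 11 .big (.adj2 6 11)))))) (.fresh 6 .big (.low 6))))))) (.adj2 4 9)))))))
  (.dec 9 6 (.emb 2 [2,5,9,6]) s12_40)) (.fresh 5 s12_46 (.low 5))))

def s12_48 : Cs :=
  (.dec 4 6 (.dec 4 7 (.emb 2 [1,3,7,4]) (.dec 4 8 (.emb 2 [1,3,8,4]) (.fresh 4 (.full 4 (.dec 6 5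
  (.emb 1 [2,5,6]) (.dec 6 7 (.emb 3 [1,0,3,4,7,2,6]) (.dec 6 8 (.emb 3 [1,0,3,4,8,2,6]) (.dec 6 9
  (.emb 1 [4,6,9]) s12_27))))) (.dec 6 5 (.emb 1 [2,5,6]) (.dec 6 7 (.emb 3 [1,0,3,4,7,2,6]) (.dec
  6 8 (.emb 3 [1,0,3,4,8,2,6]) s12_29)))))) (.dec 4 7 (.emb 2 [1,3,7,4]) (.dec 4 8 (.emb 2
  [1,3,8,4]) (.fresh 4 (.fresh 4 (.full 4 (.dec 5 6 (.emb 1 [2,5,6]) (.dec 5 7 (.dec 5 8 (.emb 2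
  [3,8,5,7]) (.dec 5 9 (.emb 4 [0,1,3,4,7,5,9,2]) (.dec 5 10 (.emb 4 [0,1,3,4,7,5,10,2]) s12_30)))
  (.dec 5 8 (.dec 5 9 (.emb 4 [0,1,3,4,8,5,9,2]) (.dec 5 10 (.emb 4 [0,1,3,4,8,5,10,2]) s12_31))
  (.dec 5 9 (.dec 5 10 (.emb 2 [4,10,5,9]) s12_32) (.dec 5 10 s12_33 (.fresh 5 (.fresh 5 .big
  (.dec 6 7 (.dec 6 8 (.emb 2 [3,8,6,7]) (.dec 6 9 (.emb 4 [0,1,3,4,7,6,9,2]) (.dec 6 10 (.emb 4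
  [0,1,3,4,7,6,10,2]) (.dec 6 11 (.emb 2 [2,5,11,6]) (.fresh 6 .big (.dec 7 8 (.emb 1 [3,8,7])
  (.dec 7 9 (.full 7 (.dec 9 8 (.emb 2 [3,8,9,7]) (.dec 9 10 (.emb 1 [4,10,9]) (.dec 9 11 (.emb 9
  [2,5,0,1,4,9,11,3,6,7]) (.fresh 9 .big (.dec 8 10 (.emb 3 [3,8,7,1,9,10,4]) (.dec 8 11 (.fresh 8
  .big (.dec 11 10 (.emb 16 [2,6,5,0,7,11,1,3,9,8,10,4]) (.fresh 11 .big (.adj2 8 11)))) (.fresh 8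
  .big (.low 8))))))))) (.dec 7 10 (.full 7 (.dec 10 8 (.emb 2 [3,8,10,7]) (.dec 10 9 (.emb 1
  [4,10,9]) (.dec 10 11 (.emb 9 [2,5,0,1,4,10,11,3,6,7]) (.fresh 10 .big (.dec 8 9 (.emb 3
  [3,8,7,1,10,9,4]) (.dec 8 11 (.fresh 8 .big (.dec 11 9 (.emb 16 [2,6,5,0,7,11,1,3,10,8,9,4])
  (.fresh 11 .big (.adj2 8 11)))) (.fresh 8 .big (.low 8))))))))) (.dec 7 11 (.full 7 (.dec 11 8
  (.emb 2 [3,8,11,7]) (.dec 11 9 (.emb 9 [1,4,0,2,5,11,9,6,3,7]) (.dec 11 10 (.emb 9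
  [1,4,0,2,5,11,10,6,3,7]) (.fresh 11 .big (.adj2 5 11)))))) (.fresh 7 .big (.adj2 6 7)))))))))))
  s12_34)) (.low 5)))))))) (.dec 5 6 (.emb 1 [2,5,6]) (.dec 5 7 (.dec 5 8 (.emb 2 [3,8,5,7]) (.dec
  5 9 (.emb 4 [0,1,3,4,7,5,9,2]) (.fresh 5 (.full 5 (.dec 7 6 (.emb 2 [2,5,7,6]) (.dec 7 8 (.emb 1
  [3,8,7]) s12_35))) (.dec 7 6 (.emb 2 [2,5,7,6]) (.dec 7 8 (.emb 1 [3,8,7]) s12_36))))) s12_47)))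
  (.low 4)))))

def s12_49 : Cs :=
  (.dec 6 7 (.dec 6 8 (.emb 3 [2,0,6,5,8,1,4]) (.dec 6 9 (.emb 2 [2,5,9,6]) (.fresh 6 (.full 6
  (.dec 7 8 (.emb 5 [1,0,2,3,6,4,7,8,5]) (.dec 7 9 (.emb 5 [2,0,1,6,3,5,7,9,4]) (.dec 7 10 (.emb 1
  [6,10,7]) (.fresh 7 (.full 7 (.dec 8 9 (.emb 2 [4,8,9,5]) (.dec 8 10 (.emb 7
  [6,10,8,2,4,0,5,7,3,1]) (.dec 8 11 (.emb 9 [7,11,6,2,5,4,8,0,3,1]) (.fresh 8 .big (.low 8))))))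
  (.adj2 3 7)))))) (.dec 7 8 (.emb 5 [1,0,2,3,6,4,7,8,5]) (.dec 7 9 (.emb 5 [2,0,1,6,3,5,7,9,4])
  (.fresh 7 (.full 7 (.dec 8 9 (.emb 2 [4,8,9,5]) (.dec 8 10 (.emb 9 [7,10,6,2,5,4,8,0,3,1])
  (.fresh 8 (.fresh 8 .big (.dec 9 10 (.emb 9 [7,10,3,1,4,5,9,0,6,2]) (.dec 9 11 (.fresh 9 .big
  (.dec 11 10 (.emb 15 [7,3,10,6,1,11,2,0,4,8,9,5]) (.fresh 11 .big (.adj2 9 11)))) (.fresh 9 .big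
  (.low 9))))) (.low 8))))) (.adj2 6 7))))))) (.dec 6 8 (.emb 3 [2,0,6,5,8,1,4]) (.dec 6 9 (.emb 2
  [2,5,9,6]) (.fresh 6 (.fresh 6 (.full 6 (.dec 7 8 (.dec 7 9 (.emb 3 [4,1,5,8,9,3,7]) (.dec 7 10
  (.emb 11 [1,0,2,5,3,4,6,10,8,7]) (.dec 7 11 (.emb 11 [1,0,2,5,3,4,6,11,8,7]) (.fresh 7 .big
  (.adj2 3 7))))) (.dec 7 9 (.dec 7 10 (.emb 9 [7,10,3,1,0,2,6,4,9,5]) (.dec 7 11 (.emb 9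
  [7,11,3,1,0,2,6,4,9,5]) (.fresh 7 .big (.adj2 3 7)))) (.dec 7 10 (.dec 7 11 (.emb 2 [6,11,7,10])
  (.fresh 7 .big (.adj2 3 7))) (.dec 7 11 (.fresh 7 .big (.adj2 3 7)) (.fresh 7 .big (.low
  7))))))) (.dec 7 8 (.dec 7 9 (.emb 3 [4,1,5,8,9,3,7]) (.dec 7 10 (.emb 11
  [1,0,2,5,3,4,6,10,8,7]) (.fresh 7 (.full 7 (.dec 8 9 (.emb 2 [4,8,9,5]) (.dec 8 10 (.emb 6
  [1,4,3,0,5,8,7,2,10,6]) (.dec 8 11 (.emb 1 [7,8,11]) (.fresh 8 .big (.dec 9 10 (.emb 14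
  [1,4,5,2,0,3,7,8,9,10,6]) (.dec 9 11 (.emb 6 [1,4,0,3,8,5,2,7,9,11]) (.fresh 9 .big (.low
  9))))))))) (.adj2 3 7)))) (.dec 7 9 (.dec 7 10 (.emb 9 [7,10,3,1,0,2,6,4,9,5]) (.fresh 7 (.full
  7 (.dec 9 8 (.emb 2 [4,8,9,5]) (.dec 9 10 (.emb 6 [2,5,6,0,4,9,10,1,7,3]) (.dec 9 11 (.emb 1
  [7,11,9]) (.fresh 9 .big (.dec 8 10 (.dec 8 11 (.emb 4 [1,4,8,5,11,7,9,3]) (.fresh 8 .big (.dec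
  10 11 (.emb 16 [7,3,11,9,1,10,5,4,0,8,6,2]) (.fresh 10 .big (.adj2 8 10))))) (.dec 8 11 (.emb 4
  [1,4,8,5,11,7,9,3]) (.fresh 8 .big (.low 8))))))))) (.adj2 3 7))) (.dec 7 10 (.fresh 7 (.full 7
  (.dec 10 8 (.emb 9 [10,7,6,2,0,1,3,5,8,4]) (.dec 10 9 (.emb 11 [2,0,1,4,6,5,3,7,9,10]) (.dec 10
  11 (.emb 1 [7,11,10]) (.fresh 10 .big (.adj2 6 10)))))) (.adj2 3 7)) (.fresh 7 (.fresh 7 .big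
  (.adj2 3 7)) (.low 7)))))) (.low 6)))))

def s12_50 : Cs :=
  (.dec 7 8 (.dec 7 9 (.emb 11 [1,0,2,5,3,4,6,9,8,7]) (.fresh 7 (.full 7 (.dec 8 9 (.emb 6
  [1,4,3,0,5,8,7,2,9,6]) (.dec 8 10 (.emb 1 [7,8,10]) (.fresh 8 (.full 8 (.dec 9 10 (.dec 9 11
  (.emb 14 [1,4,8,7,3,0,2,5,11,9,10]) (.fresh 9 .big (.adj2 6 9))) (.dec 9 11 (.fresh 9 .big
  (.adj2 6 9)) (.fresh 9 .big (.low 9))))) (.dec 9 10 (.fresh 9 (.full 9 (.dec 10 11 (.emb 1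
  [9,10,11]) (.fresh 10 .big (.fresh 11 .big (.low 11))))) (.adj2 6 9)) (.fresh 9 (.fresh 9 .big
  (.adj2 6 9)) (.low 9))))))) (.adj2 3 7))) (.dec 7 9 (.fresh 7 (.full 7 (.dec 9 8 (.emb 9
  [9,7,6,2,0,1,3,5,8,4]) (.dec 9 10 (.emb 1 [7,9,10]) (.fresh 9 (.full 9 (.dec 8 10 (.dec 8 11
  (.emb 18 [2,6,5,0,9,4,1,11,7,8,3,10]) (.fresh 8 .big (.dec 10 11 (.emb 2 [7,9,11,10]) (.fresh 10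
  .big (.adj2 8 10))))) (.dec 8 11 (.fresh 8 .big (.dec 11 10 (.emb 2 [7,9,11,10]) (.fresh 11 .big
  (.adj2 8 11)))) (.fresh 8 .big (.low 8))))) (.adj2 6 9))))) (.adj2 3 7)) (.fresh 7 (.fresh 7
  (.full 7 (.dec 8 9 (.dec 8 10 (.full 8 (.dec 9 10 (.emb 1 [8,9,10]) (.dec 9 11 (.emb 19
  [2,6,0,5,9,1,4,8,11,3,10,7]) (.fresh 9 .big (.adj2 6 9))))) (.dec 8 11 (.full 8 (.dec 9 10 (.emb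
  19 [2,6,0,5,9,1,4,8,10,3,11,7]) (.dec 9 11 (.emb 1 [8,9,11]) (.fresh 9 .big (.adj2 6 9)))))
  (.fresh 8 .big (.dec 9 10 (.full 9 (.dec 10 11 (.emb 1 [7,11,10]) (.fresh 10 .big (.fresh 11
  .big (.low 11))))) (.dec 9 11 (.full 9 (.dec 11 10 (.emb 1 [7,11,10]) (.fresh 11 .big (.fresh 10
  .big (.low 10))))) (.fresh 9 .big (.adj2 8 9))))))) (.dec 8 10 (.dec 8 11 (.emb 2 [7,11,8,10])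
  (.fresh 8 .big (.dec 10 9 (.full 10 (.dec 9 11 (.emb 2 [7,11,9,10]) (.fresh 9 .big (.adj2 6
  9)))) (.dec 10 11 (.emb 1 [7,11,10]) (.fresh 10 .big (.adj2 8 10)))))) (.dec 8 11 (.fresh 8 .big
  (.dec 11 9 (.full 11 (.dec 9 10 (.emb 2 [7,11,9,10]) (.fresh 9 .big (.adj2 6 9)))) (.dec 11 10
  (.emb 1 [7,11,10]) (.fresh 11 .big (.adj2 8 11))))) (.fresh 8 .big (.low 8)))))) (.adj2 3 7))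
  (.low 7))))

def s12_51 : Cs :=
  (.dec 6 7 (.dec 6 8 (.emb 3 [2,0,6,5,8,1,4]) (.fresh 6 (.full 6 (.dec 7 8 (.emb 5
  [1,0,2,3,6,4,7,8,5]) (.dec 7 9 (.emb 1 [6,9,7]) (.fresh 7 (.full 7 (.dec 8 9 (.emb 7
  [6,9,8,2,4,0,5,7,3,1]) (.dec 8 10 (.emb 9 [7,10,6,2,5,4,8,0,3,1]) (.fresh 8 (.fresh 8 .big (.dec
  9 10 (.emb 2 [6,9,10,7]) (.dec 9 11 (.fresh 9 .big (.dec 11 10 (.emb 18
  [11,8,9,10,4,6,7,5,1,2,3,0]) (.fresh 11 .big (.adj2 9 11)))) (.fresh 9 .big (.low 9))))) (.low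
  8))))) (.adj2 3 7))))) (.dec 7 8 (.emb 5 [1,0,2,3,6,4,7,8,5]) (.fresh 7 (.full 7 (.dec 8 9 (.emb
  9 [7,9,6,2,5,4,8,0,3,1]) (.fresh 8 (.fresh 8 (.full 8 (.dec 9 10 (.dec 9 11 (.emb 2 [8,10,9,11])
  (.fresh 9 .big (.dec 10 11 (.emb 1 [8,10,11]) (.fresh 10 .big (.adj2 9 10))))) (.dec 9 11
  (.fresh 9 .big (.dec 11 10 (.emb 1 [8,10,11]) (.fresh 11 .big (.adj2 9 11)))) (.fresh 9 .big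
  (.low 9))))) (.dec 9 10 (.fresh 9 (.full 9 (.dec 10 11 (.emb 1 [9,10,11]) (.fresh 10 .big (.adj2
  8 10)))) (.fresh 10 (.full 10 (.fresh 11 .big (.low 11))) .cap)) (.fresh 9 (.fresh 9 .big (.dec
  10 11 (.fresh 10 .big .cap) (.fresh 10 .big (.low 10)))) (.low 9)))) (.low 8)))) (.adj2 6 7)))))
  (.dec 6 8 (.emb 3 [2,0,6,5,8,1,4]) (.fresh 6 (.fresh 6 (.full 6 (.dec 7 8 (.dec 7 9 (.emb 11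
  [1,0,2,5,3,4,6,9,8,7]) (.dec 7 10 (.emb 11 [1,0,2,5,3,4,6,10,8,7]) (.fresh 7 (.full 7 (.dec 8 9
  (.emb 6 [1,4,3,0,5,8,7,2,9,6]) (.dec 8 10 (.emb 6 [1,4,3,0,5,8,7,2,10,6]) (.dec 8 11 (.emb 1
  [7,8,11]) (.fresh 8 .big (.dec 9 10 (.emb 1 [6,9,10]) (.dec 9 11 (.fresh 9 .big (.dec 11 10
  (.emb 2 [6,9,11,10]) (.fresh 11 .big (.adj2 9 11)))) (.fresh 9 .big (.low 9))))))))) (.adj2 3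
  7)))) (.dec 7 9 (.dec 7 10 (.emb 2 [6,9,7,10]) (.fresh 7 (.full 7 (.dec 9 8 (.emb 9
  [9,7,6,2,0,1,3,5,8,4]) (.dec 9 10 (.emb 1 [6,9,10]) (.dec 9 11 (.emb 1 [7,11,9]) (.fresh 9 .big
  (.dec 8 10 (.dec 8 11 (.emb 17 [7,9,3,11,6,1,8,10,2,4,0,5]) (.fresh 8 .big (.dec 10 11 (.emb 18
  [7,3,9,11,1,6,10,0,4,2,8,5]) (.fresh 10 .big (.adj2 8 10))))) (.dec 8 11 (.fresh 8 .big (.dec 11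
  10 (.emb 21 [1,4,0,3,5,8,2,7,11,6,9,10]) (.fresh 11 .big (.adj2 8 11)))) (.fresh 8 .big (.low
  8))))))))) (.adj2 3 7))) (.dec 7 10 (.fresh 7 (.full 7 (.dec 10 8 (.emb 9
  [10,7,6,2,0,1,3,5,8,4]) (.dec 10 9 (.emb 1 [6,9,10]) (.dec 10 11 (.emb 1 [7,11,10]) (.fresh 10
  .big (.dec 8 9 (.dec 8 11 (.emb 17 [7,10,3,11,6,1,8,9,2,4,0,5]) (.fresh 8 .big (.dec 9 11 (.emb
  18 [7,3,10,11,1,6,9,0,4,2,8,5]) (.fresh 9 .big (.adj2 8 9))))) (.dec 8 11 (.fresh 8 .big (.dec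
  11 9 (.emb 21 [1,4,0,3,5,8,2,7,11,6,10,9]) (.fresh 11 .big (.adj2 8 11)))) (.fresh 8 .big (.low
  8))))))))) (.adj2 3 7)) (.fresh 7 (.fresh 7 .big (.adj2 3 7)) (.low 7)))))) s12_50) (.low 6))))

def s12_52 : Cs :=
  (.dec 7 8 (.dec 7 9 (.emb 9 [7,9,3,1,0,2,6,4,8,5]) (.fresh 7 (.full 7 (.dec 8 9 (.emb 6
  [2,5,6,0,4,8,9,1,7,3]) (.dec 8 10 (.emb 1 [7,8,10]) (.fresh 8 (.full 8 (.dec 9 10 (.dec 9 11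
  (.emb 19 [1,3,0,4,7,2,5,8,10,6,11,9]) (.fresh 9 .big (.adj2 6 9))) (.dec 9 11 (.fresh 9 .big
  (.adj2 6 9)) (.fresh 9 .big (.low 9))))) (.dec 9 10 (.fresh 9 (.full 9 (.dec 10 11 (.emb 1
  [9,10,11]) (.fresh 10 .big (.fresh 11 .big (.low 11))))) (.adj2 6 9)) (.fresh 9 (.fresh 9 .big
  (.adj2 6 9)) (.low 9))))))) (.adj2 3 7))) (.dec 7 9 (.fresh 7 (.full 7 (.dec 9 8 (.emb 11
  [2,0,1,4,6,5,3,7,8,9]) (.dec 9 10 (.emb 1 [7,9,10]) (.fresh 9 (.full 9 (.dec 8 10 (.dec 8 11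
  (.emb 18 [1,3,4,0,7,5,2,10,9,8,6,11]) (.fresh 8 .big (.dec 10 11 (.emb 2 [7,9,11,10]) (.fresh 10
  .big (.adj2 8 10))))) (.dec 8 11 (.fresh 8 .big (.dec 11 10 (.emb 2 [7,9,11,10]) (.fresh 11 .big
  (.adj2 8 11)))) (.fresh 8 .big (.low 8))))) (.adj2 6 9))))) (.adj2 3 7)) (.fresh 7 (.fresh 7
  (.full 7 (.dec 8 9 (.dec 8 10 (.full 8 (.dec 9 10 (.emb 1 [8,9,10]) (.dec 9 11 (.emb 14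
  [2,5,8,9,6,0,1,4,10,7,11]) (.fresh 9 .big (.adj2 6 9))))) (.dec 8 11 (.full 8 (.dec 9 10 (.emb
  14 [2,5,8,9,6,0,1,4,11,7,10]) (.dec 9 11 (.emb 1 [8,9,11]) (.fresh 9 .big (.adj2 6 9)))))
  (.fresh 8 .big (.dec 9 10 (.full 9 (.dec 10 11 (.emb 1 [7,11,10]) (.fresh 10 .big (.fresh 11
  .big (.low 11))))) (.dec 9 11 (.full 9 (.dec 11 10 (.emb 1 [7,11,10]) (.fresh 11 .big (.fresh 10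
  .big (.low 10))))) (.fresh 9 .big (.adj2 8 9))))))) (.dec 8 10 (.dec 8 11 (.emb 2 [7,11,8,10])
  (.fresh 8 .big (.dec 10 9 (.full 10 (.dec 9 11 (.emb 2 [7,11,9,10]) (.fresh 9 .big (.adj2 6
  9)))) (.dec 10 11 (.emb 1 [7,11,10]) (.fresh 10 .big (.adj2 8 10)))))) (.dec 8 11 (.fresh 8 .big
  (.dec 11 9 (.full 11 (.dec 9 10 (.emb 2 [7,11,9,10]) (.fresh 9 .big (.adj2 6 9)))) (.dec 11 10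
  (.emb 1 [7,11,10]) (.fresh 11 .big (.adj2 8 11))))) (.fresh 8 .big (.low 8)))))) (.adj2 3 7))
  (.low 7))))

def s12_53 : Cs :=
  (.dec 6 7 (.dec 6 8 (.emb 2 [2,5,8,6]) (.fresh 6 (.full 6 (.dec 7 8 (.emb 5 [2,0,1,6,3,5,7,8,4])
  (.dec 7 9 (.emb 1 [6,9,7]) (.fresh 7 (.full 7 (.dec 8 9 (.emb 6 [5,2,8,4,0,6,9,1,7,3]) (.dec 8
  10 (.emb 9 [7,10,3,1,4,5,8,0,6,2]) (.fresh 8 (.fresh 8 .big (.dec 9 10 (.emb 2 [6,9,10,7]) (.dec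
  9 11 (.fresh 9 .big (.dec 11 10 (.emb 19 [1,3,4,0,7,5,2,6,10,8,9,11]) (.fresh 11 .big (.adj2 9
  11)))) (.fresh 9 .big (.low 9))))) (.low 8))))) (.adj2 3 7))))) (.dec 7 8 (.emb 5
  [2,0,1,6,3,5,7,8,4]) (.fresh 7 (.full 7 (.dec 8 9 (.emb 9 [7,9,3,1,4,5,8,0,6,2]) (.fresh 8
  (.fresh 8 (.full 8 (.dec 9 10 (.dec 9 11 (.emb 2 [8,10,9,11]) (.fresh 9 .big (.dec 10 11 (.emb 1
  [8,10,11]) (.fresh 10 .big (.adj2 9 10))))) (.dec 9 11 (.fresh 9 .big (.dec 11 10 (.emb 1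
  [8,10,11]) (.fresh 11 .big (.adj2 9 11)))) (.fresh 9 .big (.low 9))))) (.dec 9 10 (.fresh 9
  (.full 9 (.dec 10 11 (.emb 1 [9,10,11]) (.fresh 10 .big (.adj2 8 10)))) (.fresh 10 (.full 10
  (.fresh 11 .big (.low 11))) .cap)) (.fresh 9 (.fresh 9 .big (.dec 10 11 (.fresh 10 .big .cap)
  (.fresh 10 .big (.low 10)))) (.low 9)))) (.low 8)))) (.adj2 6 7))))) (.dec 6 8 (.emb 2
  [2,5,8,6]) (.fresh 6 (.fresh 6 (.full 6 (.dec 7 8 (.dec 7 9 (.emb 9 [7,9,3,1,0,2,6,4,8,5]) (.dec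
  7 10 (.emb 9 [7,10,3,1,0,2,6,4,8,5]) (.fresh 7 (.full 7 (.dec 8 9 (.emb 6 [2,5,6,0,4,8,9,1,7,3])
  (.dec 8 10 (.emb 6 [2,5,6,0,4,8,10,1,7,3]) (.dec 8 11 (.emb 1 [7,8,11]) (.fresh 8 .big (.dec 9
  10 (.emb 1 [6,9,10]) (.dec 9 11 (.fresh 9 .big (.dec 11 10 (.emb 2 [6,9,11,10]) (.fresh 11 .big
  (.adj2 9 11)))) (.fresh 9 .big (.low 9))))))))) (.adj2 3 7)))) (.dec 7 9 (.dec 7 10 (.emb 2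
  [6,9,7,10]) (.fresh 7 (.full 7 (.dec 9 8 (.emb 11 [2,0,1,4,6,5,3,7,8,9]) (.dec 9 10 (.emb 1
  [6,9,10]) (.dec 9 11 (.emb 1 [7,11,9]) (.fresh 9 .big (.dec 8 10 (.dec 8 11 (.emb 15
  [7,11,3,9,8,1,6,10,5,4,0,2]) (.fresh 8 .big (.dec 10 11 (.emb 14 [5,2,6,10,8,4,1,0,9,7,11])
  (.fresh 10 .big (.adj2 8 10))))) (.dec 8 11 (.fresh 8 .big (.dec 11 10 (.emb 18
  [1,3,0,4,7,2,5,9,11,6,8,10]) (.fresh 11 .big (.adj2 8 11)))) (.fresh 8 .big (.low 8)))))))))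
  (.adj2 3 7))) (.dec 7 10 (.fresh 7 (.full 7 (.dec 10 8 (.emb 11 [2,0,1,4,6,5,3,7,8,10]) (.dec 10
  9 (.emb 1 [6,9,10]) (.dec 10 11 (.emb 1 [7,11,10]) (.fresh 10 .big (.dec 8 9 (.dec 8 11 (.emb 15
  [7,11,3,10,8,1,6,9,5,4,0,2]) (.fresh 8 .big (.dec 9 11 (.emb 14 [5,2,6,9,8,4,1,0,10,7,11])
  (.fresh 9 .big (.adj2 8 9))))) (.dec 8 11 (.fresh 8 .big (.dec 11 9 (.emb 18
  [1,3,0,4,7,2,5,10,11,6,8,9]) (.fresh 11 .big (.adj2 8 11)))) (.fresh 8 .big (.low 8)))))))))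
  (.adj2 3 7)) (.fresh 7 (.fresh 7 .big (.adj2 3 7)) (.low 7)))))) s12_52) (.low 6))))

def s12_54 : Cs :=
  (.dec 5 7 (.dec 5 8 (.emb 3 [2,0,5,6,8,1,4]) (.dec 5 9 (.emb 2 [2,5,9,6]) (.fresh 5 (.full 5
  (.dec 7 8 (.emb 5 [1,0,2,3,5,4,7,8,6]) (.dec 7 9 (.emb 5 [2,0,1,5,3,6,7,9,4]) (.dec 7 10 (.emb 1
  [5,10,7]) (.fresh 7 (.full 7 (.dec 8 9 (.emb 2 [4,8,9,6]) (.dec 8 10 (.emb 7
  [5,10,8,2,4,0,6,7,3,1]) (.dec 8 11 (.emb 9 [7,11,5,2,6,4,8,0,3,1]) (.fresh 8 .big (.low 8))))))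
  (.adj2 3 7)))))) (.dec 7 8 (.emb 5 [1,0,2,3,5,4,7,8,6]) (.dec 7 9 (.emb 5 [2,0,1,5,3,6,7,9,4])
  (.fresh 7 (.full 7 (.dec 8 9 (.emb 2 [4,8,9,6]) (.dec 8 10 (.emb 9 [7,10,5,2,6,4,8,0,3,1])
  (.fresh 8 (.fresh 8 .big (.dec 9 10 (.emb 9 [7,10,3,1,4,6,9,0,5,2]) (.dec 9 11 (.fresh 9 .big
  (.dec 11 10 (.emb 15 [7,3,10,5,1,11,2,0,4,8,9,6]) (.fresh 11 .big (.adj2 9 11)))) (.fresh 9 .big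
  (.low 9))))) (.low 8))))) (.adj2 5 7))))))) (.dec 5 8 (.emb 3 [2,0,5,6,8,1,4]) (.dec 5 9 (.emb 2
  [2,5,9,6]) (.fresh 5 (.fresh 5 (.full 5 (.dec 7 8 (.dec 7 9 (.emb 3 [4,1,6,8,9,3,7]) (.dec 7 10
  (.emb 11 [1,0,2,6,3,4,5,10,8,7]) (.dec 7 11 (.emb 11 [1,0,2,6,3,4,5,11,8,7]) (.fresh 7 .big
  (.adj2 3 7))))) (.dec 7 9 (.dec 7 10 (.emb 9 [7,10,3,1,0,2,5,4,9,6]) (.dec 7 11 (.emb 9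
  [7,11,3,1,0,2,5,4,9,6]) (.fresh 7 .big (.adj2 3 7)))) (.dec 7 10 (.dec 7 11 (.emb 2 [5,11,7,10])
  (.fresh 7 .big (.adj2 3 7))) (.dec 7 11 (.fresh 7 .big (.adj2 3 7)) (.fresh 7 .big (.low
  7))))))) (.dec 7 8 (.dec 7 9 (.emb 3 [4,1,6,8,9,3,7]) (.dec 7 10 (.emb 11
  [1,0,2,6,3,4,5,10,8,7]) (.fresh 7 (.full 7 (.dec 8 9 (.emb 2 [4,8,9,6]) (.dec 8 10 (.emb 6
  [1,4,3,0,6,8,7,2,10,5]) (.dec 8 11 (.emb 1 [7,8,11]) (.fresh 8 .big (.dec 9 10 (.emb 14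
  [1,4,6,2,0,3,7,8,9,10,5]) (.dec 9 11 (.emb 6 [1,4,0,3,8,6,2,7,9,11]) (.fresh 9 .big (.low
  9))))))))) (.adj2 3 7)))) (.dec 7 9 (.dec 7 10 (.emb 9 [7,10,3,1,0,2,5,4,9,6]) (.fresh 7 (.full
  7 (.dec 9 8 (.emb 2 [4,8,9,6]) (.dec 9 10 (.emb 6 [2,6,5,0,4,9,10,1,7,3]) (.dec 9 11 (.emb 1
  [7,11,9]) (.fresh 9 .big (.dec 8 10 (.dec 8 11 (.emb 4 [1,4,8,6,11,7,9,3]) (.fresh 8 .big (.dec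
  10 11 (.emb 16 [7,3,11,9,1,10,6,4,0,8,5,2]) (.fresh 10 .big (.adj2 8 10))))) (.dec 8 11 (.emb 4
  [1,4,8,6,11,7,9,3]) (.fresh 8 .big (.low 8))))))))) (.adj2 3 7))) (.dec 7 10 (.fresh 7 (.full 7
  (.dec 10 8 (.emb 9 [10,7,5,2,0,1,3,6,8,4]) (.dec 10 9 (.emb 11 [2,0,1,4,5,6,3,7,9,10]) (.dec 10
  11 (.emb 1 [7,11,10]) (.fresh 10 .big (.adj2 5 10)))))) (.adj2 3 7)) (.fresh 7 (.fresh 7 .big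
  (.adj2 3 7)) (.low 7)))))) (.low 5)))))

def s12_55 : Cs :=
  (.dec 7 8 (.dec 7 9 (.emb 11 [1,0,2,6,3,4,5,9,8,7]) (.fresh 7 (.full 7 (.dec 8 9 (.emb 6
  [1,4,3,0,6,8,7,2,9,5]) (.dec 8 10 (.emb 1 [7,8,10]) (.fresh 8 (.full 8 (.dec 9 10 (.dec 9 11
  (.emb 14 [1,4,8,7,3,0,2,6,11,9,10]) (.fresh 9 .big (.adj2 5 9))) (.dec 9 11 (.fresh 9 .big
  (.adj2 5 9)) (.fresh 9 .big (.low 9))))) (.dec 9 10 (.fresh 9 (.full 9 (.dec 10 11 (.emb 1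
  [9,10,11]) (.fresh 10 .big (.fresh 11 .big (.low 11))))) (.adj2 5 9)) (.fresh 9 (.fresh 9 .big
  (.adj2 5 9)) (.low 9))))))) (.adj2 3 7))) (.dec 7 9 (.fresh 7 (.full 7 (.dec 9 8 (.emb 9
  [9,7,5,2,0,1,3,6,8,4]) (.dec 9 10 (.emb 1 [7,9,10]) (.fresh 9 (.full 9 (.dec 8 10 (.dec 8 11
  (.emb 18 [2,5,6,0,9,4,1,11,7,8,3,10]) (.fresh 8 .big (.dec 10 11 (.emb 2 [7,9,11,10]) (.fresh 10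
  .big (.adj2 8 10))))) (.dec 8 11 (.fresh 8 .big (.dec 11 10 (.emb 2 [7,9,11,10]) (.fresh 11 .big
  (.adj2 8 11)))) (.fresh 8 .big (.low 8))))) (.adj2 5 9))))) (.adj2 3 7)) (.fresh 7 (.fresh 7
  (.full 7 (.dec 8 9 (.dec 8 10 (.full 8 (.dec 9 10 (.emb 1 [8,9,10]) (.dec 9 11 (.emb 19
  [2,5,0,6,9,1,4,8,11,3,10,7]) (.fresh 9 .big (.adj2 5 9))))) (.dec 8 11 (.full 8 (.dec 9 10 (.emb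
  19 [2,5,0,6,9,1,4,8,10,3,11,7]) (.dec 9 11 (.emb 1 [8,9,11]) (.fresh 9 .big (.adj2 5 9)))))
  (.fresh 8 .big (.dec 9 10 (.full 9 (.dec 10 11 (.emb 1 [7,11,10]) (.fresh 10 .big (.fresh 11
  .big (.low 11))))) (.dec 9 11 (.full 9 (.dec 11 10 (.emb 1 [7,11,10]) (.fresh 11 .big (.fresh 10
  .big (.low 10))))) (.fresh 9 .big (.adj2 8 9))))))) (.dec 8 10 (.dec 8 11 (.emb 2 [7,11,8,10])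
  (.fresh 8 .big (.dec 10 9 (.full 10 (.dec 9 11 (.emb 2 [7,11,9,10]) (.fresh 9 .big (.adj2 5
  9)))) (.dec 10 11 (.emb 1 [7,11,10]) (.fresh 10 .big (.adj2 8 10)))))) (.dec 8 11 (.fresh 8 .big
  (.dec 11 9 (.full 11 (.dec 9 10 (.emb 2 [7,11,9,10]) (.fresh 9 .big (.adj2 5 9)))) (.dec 11 10
  (.emb 1 [7,11,10]) (.fresh 11 .big (.adj2 8 11))))) (.fresh 8 .big (.low 8)))))) (.adj2 3 7))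
  (.low 7))))

def s12_56 : Cs :=
  (.dec 5 7 (.dec 5 8 (.emb 3 [2,0,5,6,8,1,4]) (.fresh 5 (.full 5 (.dec 7 8 (.emb 5
  [1,0,2,3,5,4,7,8,6]) (.dec 7 9 (.emb 1 [5,9,7]) (.fresh 7 (.full 7 (.dec 8 9 (.emb 7
  [5,9,8,2,4,0,6,7,3,1]) (.dec 8 10 (.emb 9 [7,10,5,2,6,4,8,0,3,1]) (.fresh 8 (.fresh 8 .big (.dec
  9 10 (.emb 2 [5,9,10,7]) (.dec 9 11 (.fresh 9 .big (.dec 11 10 (.emb 18
  [11,8,9,10,4,5,7,6,1,2,3,0]) (.fresh 11 .big (.adj2 9 11)))) (.fresh 9 .big (.low 9))))) (.low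
  8))))) (.adj2 3 7))))) (.dec 7 8 (.emb 5 [1,0,2,3,5,4,7,8,6]) (.fresh 7 (.full 7 (.dec 8 9 (.emb
  9 [7,9,5,2,6,4,8,0,3,1]) (.fresh 8 (.fresh 8 (.full 8 (.dec 9 10 (.dec 9 11 (.emb 2 [8,10,9,11])
  (.fresh 9 .big (.dec 10 11 (.emb 1 [8,10,11]) (.fresh 10 .big (.adj2 9 10))))) (.dec 9 11
  (.fresh 9 .big (.dec 11 10 (.emb 1 [8,10,11]) (.fresh 11 .big (.adj2 9 11)))) (.fresh 9 .big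
  (.low 9))))) (.dec 9 10 (.fresh 9 (.full 9 (.dec 10 11 (.emb 1 [9,10,11]) (.fresh 10 .big (.adj2
  8 10)))) (.fresh 10 (.full 10 (.fresh 11 .big (.low 11))) .cap)) (.fresh 9 (.fresh 9 .big (.dec
  10 11 (.fresh 10 .big .cap) (.fresh 10 .big (.low 10)))) (.low 9)))) (.low 8)))) (.adj2 5 7)))))
  (.dec 5 8 (.emb 3 [2,0,5,6,8,1,4]) (.fresh 5 (.fresh 5 (.full 5 (.dec 7 8 (.dec 7 9 (.emb 11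
  [1,0,2,6,3,4,5,9,8,7]) (.dec 7 10 (.emb 11 [1,0,2,6,3,4,5,10,8,7]) (.fresh 7 (.full 7 (.dec 8 9
  (.emb 6 [1,4,3,0,6,8,7,2,9,5]) (.dec 8 10 (.emb 6 [1,4,3,0,6,8,7,2,10,5]) (.dec 8 11 (.emb 1
  [7,8,11]) (.fresh 8 .big (.dec 9 10 (.emb 1 [5,9,10]) (.dec 9 11 (.fresh 9 .big (.dec 11 10
  (.emb 2 [5,9,11,10]) (.fresh 11 .big (.adj2 9 11)))) (.fresh 9 .big (.low 9))))))))) (.adj2 3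
  7)))) (.dec 7 9 (.dec 7 10 (.emb 2 [5,9,7,10]) (.fresh 7 (.full 7 (.dec 9 8 (.emb 9
  [9,7,5,2,0,1,3,6,8,4]) (.dec 9 10 (.emb 1 [5,9,10]) (.dec 9 11 (.emb 1 [7,11,9]) (.fresh 9 .big
  (.dec 8 10 (.dec 8 11 (.emb 17 [7,9,3,11,5,1,8,10,2,4,0,6]) (.fresh 8 .big (.dec 10 11 (.emb 18
  [7,3,9,11,1,5,10,0,4,2,8,6]) (.fresh 10 .big (.adj2 8 10))))) (.dec 8 11 (.fresh 8 .big (.dec 11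
  10 (.emb 21 [1,4,0,3,6,8,2,7,11,5,9,10]) (.fresh 11 .big (.adj2 8 11)))) (.fresh 8 .big (.low
  8))))))))) (.adj2 3 7))) (.dec 7 10 (.fresh 7 (.full 7 (.dec 10 8 (.emb 9
  [10,7,5,2,0,1,3,6,8,4]) (.dec 10 9 (.emb 1 [5,9,10]) (.dec 10 11 (.emb 1 [7,11,10]) (.fresh 10
  .big (.dec 8 9 (.dec 8 11 (.emb 17 [7,10,3,11,5,1,8,9,2,4,0,6]) (.fresh 8 .big (.dec 9 11 (.emb
  18 [7,3,10,11,1,5,9,0,4,2,8,6]) (.fresh 9 .big (.adj2 8 9))))) (.dec 8 11 (.fresh 8 .big (.dec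
  11 9 (.emb 21 [1,4,0,3,6,8,2,7,11,5,10,9]) (.fresh 11 .big (.adj2 8 11)))) (.fresh 8 .big (.low
  8))))))))) (.adj2 3 7)) (.fresh 7 (.fresh 7 .big (.adj2 3 7)) (.low 7)))))) s12_55) (.low 5))))

def s12_57 : Cs :=
  (.dec 7 8 (.dec 7 9 (.emb 9 [7,9,3,1,0,2,5,4,8,6]) (.fresh 7 (.full 7 (.dec 8 9 (.emb 6
  [2,6,5,0,4,8,9,1,7,3]) (.dec 8 10 (.emb 1 [7,8,10]) (.fresh 8 (.full 8 (.dec 9 10 (.dec 9 11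
  (.emb 19 [1,3,0,4,7,2,6,8,10,5,11,9]) (.fresh 9 .big (.adj2 5 9))) (.dec 9 11 (.fresh 9 .big
  (.adj2 5 9)) (.fresh 9 .big (.low 9))))) (.dec 9 10 (.fresh 9 (.full 9 (.dec 10 11 (.emb 1
  [9,10,11]) (.fresh 10 .big (.fresh 11 .big (.low 11))))) (.adj2 5 9)) (.fresh 9 (.fresh 9 .big
  (.adj2 5 9)) (.low 9))))))) (.adj2 3 7))) (.dec 7 9 (.fresh 7 (.full 7 (.dec 9 8 (.emb 11
  [2,0,1,4,5,6,3,7,8,9]) (.dec 9 10 (.emb 1 [7,9,10]) (.fresh 9 (.full 9 (.dec 8 10 (.dec 8 11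
  (.emb 18 [1,3,4,0,7,6,2,10,9,8,5,11]) (.fresh 8 .big (.dec 10 11 (.emb 2 [7,9,11,10]) (.fresh 10
  .big (.adj2 8 10))))) (.dec 8 11 (.fresh 8 .big (.dec 11 10 (.emb 2 [7,9,11,10]) (.fresh 11 .big
  (.adj2 8 11)))) (.fresh 8 .big (.low 8))))) (.adj2 5 9))))) (.adj2 3 7)) (.fresh 7 (.fresh 7
  (.full 7 (.dec 8 9 (.dec 8 10 (.full 8 (.dec 9 10 (.emb 1 [8,9,10]) (.dec 9 11 (.emb 14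
  [2,6,8,9,5,0,1,4,10,7,11]) (.fresh 9 .big (.adj2 5 9))))) (.dec 8 11 (.full 8 (.dec 9 10 (.emb
  14 [2,6,8,9,5,0,1,4,11,7,10]) (.dec 9 11 (.emb 1 [8,9,11]) (.fresh 9 .big (.adj2 5 9)))))
  (.fresh 8 .big (.dec 9 10 (.full 9 (.dec 10 11 (.emb 1 [7,11,10]) (.fresh 10 .big (.fresh 11
  .big (.low 11))))) (.dec 9 11 (.full 9 (.dec 11 10 (.emb 1 [7,11,10]) (.fresh 11 .big (.fresh 10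
  .big (.low 10))))) (.fresh 9 .big (.adj2 8 9))))))) (.dec 8 10 (.dec 8 11 (.emb 2 [7,11,8,10])
  (.fresh 8 .big (.dec 10 9 (.full 10 (.dec 9 11 (.emb 2 [7,11,9,10]) (.fresh 9 .big (.adj2 5
  9)))) (.dec 10 11 (.emb 1 [7,11,10]) (.fresh 10 .big (.adj2 8 10)))))) (.dec 8 11 (.fresh 8 .big
  (.dec 11 9 (.full 11 (.dec 9 10 (.emb 2 [7,11,9,10]) (.fresh 9 .big (.adj2 5 9)))) (.dec 11 10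
  (.emb 1 [7,11,10]) (.fresh 11 .big (.adj2 8 11))))) (.fresh 8 .big (.low 8)))))) (.adj2 3 7))
  (.low 7))))

def s12_58 : Cs :=
  (.dec 5 7 (.dec 5 8 (.emb 2 [2,5,8,6]) (.fresh 5 (.full 5 (.dec 7 8 (.emb 5 [2,0,1,5,3,6,7,8,4])
  (.dec 7 9 (.emb 1 [5,9,7]) (.fresh 7 (.full 7 (.dec 8 9 (.emb 6 [6,2,8,4,0,5,9,1,7,3]) (.dec 8
  10 (.emb 9 [7,10,3,1,4,6,8,0,5,2]) (.fresh 8 (.fresh 8 .big (.dec 9 10 (.emb 2 [5,9,10,7]) (.dec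
  9 11 (.fresh 9 .big (.dec 11 10 (.emb 19 [1,3,4,0,7,6,2,5,10,8,9,11]) (.fresh 11 .big (.adj2 9
  11)))) (.fresh 9 .big (.low 9))))) (.low 8))))) (.adj2 3 7))))) (.dec 7 8 (.emb 5
  [2,0,1,5,3,6,7,8,4]) (.fresh 7 (.full 7 (.dec 8 9 (.emb 9 [7,9,3,1,4,6,8,0,5,2]) (.fresh 8
  (.fresh 8 (.full 8 (.dec 9 10 (.dec 9 11 (.emb 2 [8,10,9,11]) (.fresh 9 .big (.dec 10 11 (.emb 1
  [8,10,11]) (.fresh 10 .big (.adj2 9 10))))) (.dec 9 11 (.fresh 9 .big (.dec 11 10 (.emb 1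
  [8,10,11]) (.fresh 11 .big (.adj2 9 11)))) (.fresh 9 .big (.low 9))))) (.dec 9 10 (.fresh 9
  (.full 9 (.dec 10 11 (.emb 1 [9,10,11]) (.fresh 10 .big (.adj2 8 10)))) (.fresh 10 (.full 10
  (.fresh 11 .big (.low 11))) .cap)) (.fresh 9 (.fresh 9 .big (.dec 10 11 (.fresh 10 .big .cap)
  (.fresh 10 .big (.low 10)))) (.low 9)))) (.low 8)))) (.adj2 5 7))))) (.dec 5 8 (.emb 2
  [2,5,8,6]) (.fresh 5 (.fresh 5 (.full 5 (.dec 7 8 (.dec 7 9 (.emb 9 [7,9,3,1,0,2,5,4,8,6]) (.dec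
  7 10 (.emb 9 [7,10,3,1,0,2,5,4,8,6]) (.fresh 7 (.full 7 (.dec 8 9 (.emb 6 [2,6,5,0,4,8,9,1,7,3])
  (.dec 8 10 (.emb 6 [2,6,5,0,4,8,10,1,7,3]) (.dec 8 11 (.emb 1 [7,8,11]) (.fresh 8 .big (.dec 9
  10 (.emb 1 [5,9,10]) (.dec 9 11 (.fresh 9 .big (.dec 11 10 (.emb 2 [5,9,11,10]) (.fresh 11 .big
  (.adj2 9 11)))) (.fresh 9 .big (.low 9))))))))) (.adj2 3 7)))) (.dec 7 9 (.dec 7 10 (.emb 2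
  [5,9,7,10]) (.fresh 7 (.full 7 (.dec 9 8 (.emb 11 [2,0,1,4,5,6,3,7,8,9]) (.dec 9 10 (.emb 1
  [5,9,10]) (.dec 9 11 (.emb 1 [7,11,9]) (.fresh 9 .big (.dec 8 10 (.dec 8 11 (.emb 15
  [7,11,3,9,8,1,5,10,6,4,0,2]) (.fresh 8 .big (.dec 10 11 (.emb 14 [6,2,5,10,8,4,1,0,9,7,11])
  (.fresh 10 .big (.adj2 8 10))))) (.dec 8 11 (.fresh 8 .big (.dec 11 10 (.emb 18
  [1,3,0,4,7,2,6,9,11,5,8,10]) (.fresh 11 .big (.adj2 8 11)))) (.fresh 8 .big (.low 8)))))))))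
  (.adj2 3 7))) (.dec 7 10 (.fresh 7 (.full 7 (.dec 10 8 (.emb 11 [2,0,1,4,5,6,3,7,8,10]) (.dec 10
  9 (.emb 1 [5,9,10]) (.dec 10 11 (.emb 1 [7,11,10]) (.fresh 10 .big (.dec 8 9 (.dec 8 11 (.emb 15
  [7,11,3,10,8,1,5,9,6,4,0,2]) (.fresh 8 .big (.dec 9 11 (.emb 14 [6,2,5,9,8,4,1,0,10,7,11])
  (.fresh 9 .big (.adj2 8 9))))) (.dec 8 11 (.fresh 8 .big (.dec 11 9 (.emb 18
  [1,3,0,4,7,2,6,10,11,5,8,9]) (.fresh 11 .big (.adj2 8 11)))) (.fresh 8 .big (.low 8)))))))))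
  (.adj2 3 7)) (.fresh 7 (.fresh 7 .big (.adj2 3 7)) (.low 7)))))) s12_57) (.low 5))))

def s12_59 : Cs :=
  (.dec 6 9 (.dec 6 10 (.emb 9 [1,4,3,7,10,6,9,5,0,2]) (.fresh 6 (.full 6 (.dec 9 8 (.emb 1
  [4,8,9]) (.dec 9 10 (.emb 12 [0,1,3,7,5,2,6,4,10,9]) (.dec 9 11 (.emb 1 [6,9,11]) (.fresh 9 .big
  (.dec 8 10 (.dec 8 11 (.emb 17 [7,5,10,3,2,8,1,0,6,4,11,9]) (.fresh 8 .big (.dec 10 11 (.emb 22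
  [1,4,0,3,9,8,2,7,6,10,5,11]) (.fresh 10 .big (.adj2 8 10))))) (.dec 8 11 (.fresh 8 .big (.dec 11
  10 (.emb 17 [7,3,10,5,1,11,2,0,4,6,8,9]) (.fresh 11 .big (.adj2 8 11)))) (.fresh 8 .big (.low
  8))))))))) (.dec 9 8 (.emb 1 [4,8,9]) (.dec 9 10 (.emb 12 [0,1,3,7,5,2,6,4,10,9]) (.fresh 9
  (.full 9 (.dec 8 10 (.dec 8 11 (.emb 2 [4,8,11,9]) (.fresh 8 .big (.dec 10 11 (.emb 17
  [2,5,6,0,7,9,1,3,10,4,11,8]) (.fresh 10 .big (.adj2 8 10))))) (.dec 8 11 (.emb 2 [4,8,11,9])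
  (.fresh 8 .big (.low 8))))) (.adj2 6 9)))))) (.dec 6 10 (.fresh 6 (.full 6 (.dec 10 8 (.emb 9
  [1,4,0,2,6,10,8,5,3,7]) (.dec 10 9 (.emb 9 [1,4,0,2,6,10,9,5,3,7]) (.dec 10 11 (.emb 1
  [6,11,10]) (.fresh 10 .big (.dec 8 9 (.emb 1 [4,8,9]) (.dec 8 11 (.fresh 8 .big (.dec 11 9 (.emb
  2 [4,8,11,9]) (.fresh 11 .big (.adj2 8 11)))) (.fresh 8 .big (.low 8))))))))) (.dec 10 8 (.emb 9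
  [1,4,0,2,6,10,8,5,3,7]) (.dec 10 9 (.emb 9 [1,4,0,2,6,10,9,5,3,7]) (.fresh 10 (.full 10 (.dec 8
  9 (.emb 1 [4,8,9]) (.dec 8 11 (.fresh 8 .big (.dec 11 9 (.emb 2 [4,8,11,9]) (.fresh 11 .big
  (.adj2 8 11)))) (.fresh 8 .big (.low 8))))) (.adj2 6 10))))) (.fresh 6 (.fresh 6 .big (.dec 8 9
  (.emb 1 [4,8,9]) (.dec 8 10 (.dec 8 11 (.full 8 (.dec 10 9 (.emb 2 [4,8,10,9]) (.dec 10 11 (.emb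
  1 [8,10,11]) (.fresh 10 .big (.dec 11 9 (.emb 2 [4,8,11,9]) (.fresh 11 .big (.adj2 6 11)))))))
  (.fresh 8 .big (.dec 10 9 (.emb 2 [4,8,10,9]) (.dec 10 11 (.full 10 (.dec 11 9 (.emb 17
  [2,0,6,5,1,11,7,3,4,10,9,8]) (.fresh 11 .big (.adj2 6 11)))) (.fresh 10 .big (.adj2 8 10))))))
  (.dec 8 11 (.fresh 8 .big (.dec 11 9 (.emb 2 [4,8,11,9]) (.dec 11 10 (.full 11 (.dec 10 9 (.emb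
  17 [2,0,6,5,1,11,7,3,4,10,8,9]) (.fresh 10 .big (.fresh 9 .big (.low 9))))) (.fresh 11 .big
  (.adj2 8 11))))) (.fresh 8 .big (.low 8)))))) (.low 6))))

def s12_60 : Cs :=
  (.dec 7 8 (.full 7 (.dec 8 6 (.emb 5 [7,3,1,5,0,8,2,6,4]) (.dec 8 9 (.emb 1 [4,8,9]) (.fresh 8
  (.full 8 (.dec 6 9 (.emb 9 [2,6,5,7,8,4,9,3,0,1]) (.dec 6 10 (.emb 9 [2,6,0,1,4,8,10,3,5,7])
  (.fresh 6 (.fresh 6 .big (.dec 9 10 (.emb 2 [4,8,10,9]) (.dec 9 11 (.fresh 9 .big (.dec 11 10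
  (.emb 15 [2,0,6,5,1,11,7,3,4,9,10,8]) (.fresh 11 .big (.adj2 9 11)))) (.fresh 9 .big (.low
  9))))) (.low 6))))) (.dec 6 9 (.emb 9 [2,6,5,7,8,4,9,3,0,1]) (.fresh 6 (.fresh 6 (.full 6 (.dec
  9 10 (.dec 9 11 (.emb 2 [6,11,9,10]) (.fresh 9 .big (.dec 10 11 (.emb 1 [6,11,10]) (.fresh 10
  .big (.adj2 9 10))))) (.dec 9 11 (.fresh 9 .big (.dec 11 10 (.emb 1 [6,11,10]) (.fresh 11 .big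
  (.adj2 9 11)))) (.fresh 9 .big (.low 9))))) (.dec 9 10 (.fresh 9 (.full 9 (.dec 10 11 (.emb 1
  [9,10,11]) (.fresh 10 .big (.adj2 6 10)))) (.fresh 10 (.full 10 (.fresh 11 .big (.low 11)))
  .cap)) (.fresh 9 (.fresh 9 .big (.dec 10 11 (.fresh 10 .big .cap) (.fresh 10 .big (.low 10))))
  (.low 9)))) (.low 6))))))) (.dec 7 9 (.full 7 (.dec 9 6 (.emb 5 [7,3,1,5,0,9,2,6,4]) (.dec 9 8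
  (.emb 1 [4,8,9]) (.fresh 9 (.full 9 (.dec 6 8 (.emb 9 [2,6,5,7,9,4,8,3,0,1]) (.dec 6 10 (.emb 9
  [2,6,0,1,4,9,10,3,5,7]) (.fresh 6 (.fresh 6 .big (.dec 8 10 (.emb 2 [4,8,10,9]) (.dec 8 11
  (.fresh 8 .big (.dec 11 10 (.emb 15 [2,0,6,5,1,11,7,3,4,8,10,9]) (.fresh 11 .big (.adj2 8 11))))
  (.fresh 8 .big (.low 8))))) (.low 6))))) (.dec 6 8 (.emb 9 [2,6,5,7,9,4,8,3,0,1]) (.fresh 6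
  (.fresh 6 (.full 6 (.dec 8 10 (.dec 8 11 (.emb 2 [6,11,8,10]) (.fresh 8 .big (.dec 10 11 (.emb 1
  [6,11,10]) (.fresh 10 .big (.adj2 8 10))))) (.dec 8 11 (.fresh 8 .big (.dec 11 10 (.emb 1
  [6,11,10]) (.fresh 11 .big (.adj2 8 11)))) (.fresh 8 .big (.low 8))))) (.dec 8 10 (.fresh 8
  (.full 8 (.dec 10 11 (.emb 1 [8,10,11]) (.fresh 10 .big (.adj2 6 10)))) (.fresh 10 (.full 10
  (.fresh 11 .big (.low 11))) .cap)) (.fresh 8 (.fresh 8 .big (.dec 10 11 (.fresh 10 .big .cap)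
  (.fresh 10 .big (.low 10)))) (.low 8)))) (.low 6))))))) (.fresh 7 (.full 7 (.dec 6 8 (.dec 6 9
  (.emb 2 [4,8,6,9]) (.dec 6 10 (.emb 9 [1,4,3,7,10,6,8,5,0,2]) (.fresh 6 (.full 6 (.dec 8 9 (.emb
  1 [4,8,9]) (.dec 8 10 (.emb 12 [0,1,3,7,5,2,6,4,10,8]) (.dec 8 11 (.emb 1 [6,8,11]) (.fresh 8
  .big (.dec 9 10 (.dec 9 11 (.emb 17 [7,5,10,3,2,9,1,0,6,4,11,8]) (.fresh 9 .big (.dec 10 11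
  (.emb 22 [1,4,0,3,8,9,2,7,6,10,5,11]) (.fresh 10 .big (.adj2 9 10))))) (.dec 9 11 (.fresh 9 .big
  (.dec 11 10 (.emb 17 [7,3,10,5,1,11,2,0,4,6,9,8]) (.fresh 11 .big (.adj2 9 11)))) (.fresh 9 .big
  (.low 9))))))))) (.dec 8 9 (.emb 1 [4,8,9]) (.dec 8 10 (.emb 12 [0,1,3,7,5,2,6,4,10,8]) (.fresh
  8 (.full 8 (.dec 9 10 (.dec 9 11 (.emb 2 [4,8,11,9]) (.fresh 9 .big (.dec 10 11 (.emb 17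
  [2,5,6,0,7,8,1,3,10,4,11,9]) (.fresh 10 .big (.adj2 9 10))))) (.dec 9 11 (.emb 2 [4,8,11,9])
  (.fresh 9 .big (.low 9))))) (.adj2 6 8))))))) s12_59)) (.adj2 5 7))))

def s12_61 : Cs :=
  (.dec 8 7 (.full 8 (.dec 7 6 (.emb 5 [7,3,1,6,0,8,2,5,4]) (.dec 7 9 (.emb 2 [4,8,7,9]) (.dec 7
  10 (.emb 2 [5,8,7,10]) (.fresh 7 (.full 7 (.dec 6 9 (.emb 4 [0,2,5,6,8,4,9,1]) (.dec 6 10 (.emb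
  2 [2,5,10,6]) (.dec 6 11 (.emb 9 [2,6,0,1,3,7,11,4,5,8]) (.fresh 6 .big (.low 6)))))) (.adj2 3
  7)))))) (.dec 8 9 (.emb 1 [4,8,9]) (.dec 8 10 (.emb 1 [5,8,10]) (.fresh 8 (.full 8 (.dec 6 7
  (.dec 6 9 (.emb 4 [0,1,3,4,7,6,9,2]) (.dec 6 10 (.emb 2 [2,5,10,6]) (.dec 6 11 (.emb 9
  [1,3,4,8,11,6,7,5,0,2]) (.fresh 6 .big (.dec 7 9 (.emb 9 [2,5,6,7,9,4,8,3,0,1]) (.dec 7 10 (.emb
  9 [1,4,3,7,10,5,8,6,0,2]) (.dec 7 11 (.emb 12 [0,1,3,7,6,2,5,4,11,8]) (.fresh 7 .big (.adj2 6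
  7))))))))) (.dec 6 9 (.emb 4 [0,2,5,6,8,4,9,1]) (.dec 6 10 (.emb 2 [2,5,10,6]) (.dec 6 11
  (.fresh 6 .big (.dec 11 7 (.emb 9 [1,3,0,2,6,11,7,5,4,8]) (.dec 11 9 (.emb 2 [4,8,11,9]) (.dec
  11 10 (.emb 2 [5,8,11,10]) (.fresh 11 .big (.adj2 6 11)))))) (.fresh 6 .big (.low 6))))))) (.dec
  6 7 (.dec 6 9 (.emb 4 [0,1,3,4,7,6,9,2]) (.dec 6 10 (.emb 2 [2,5,10,6]) (.fresh 6 (.full 6 (.dec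
  7 9 (.emb 9 [2,5,6,7,9,4,8,3,0,1]) (.dec 7 10 (.emb 9 [1,4,3,7,10,5,8,6,0,2]) (.dec 7 11 (.emb 1
  [6,11,7]) (.fresh 7 .big (.adj2 3 7)))))) (.dec 7 9 (.emb 9 [2,5,6,7,9,4,8,3,0,1]) (.dec 7 10
  (.emb 9 [1,4,3,7,10,5,8,6,0,2]) (.fresh 7 (.full 7 (.dec 9 10 (.dec 9 11 (.emb 17
  [7,6,11,3,2,9,1,0,5,4,10,8]) (.fresh 9 .big (.dec 10 11 (.emb 17 [7,3,11,6,1,10,2,0,4,5,9,8])
  (.fresh 10 .big (.adj2 9 10))))) (.dec 9 11 (.fresh 9 .big (.dec 11 10 (.emb 22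
  [1,4,0,3,8,9,2,7,5,11,6,10]) (.fresh 11 .big (.adj2 9 11)))) (.fresh 9 .big (.low 9))))) (.adj2
  6 7))))))) (.dec 6 9 (.emb 4 [0,2,5,6,8,4,9,1]) (.dec 6 10 (.emb 2 [2,5,10,6]) (.fresh 6 (.fresh
  6 .big (.dec 7 9 (.dec 7 10 (.emb 9 [5,2,10,7,3,1,0,9,8,4]) (.dec 7 11 (.full 7 (.dec 9 10 (.emb
  6 [9,4,7,10,8,1,3,5,0,2]) (.dec 9 11 (.emb 1 [7,11,9]) (.fresh 9 .big (.dec 11 10 (.emb 21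
  [1,4,3,0,9,8,7,2,5,11,6,10]) (.fresh 11 .big (.adj2 6 11))))))) (.fresh 7 .big (.adj2 3 7))))
  (.dec 7 10 (.dec 7 11 (.full 7 (.dec 10 9 (.emb 7 [1,0,2,4,5,9,8,3,7,10]) (.dec 10 11 (.emb 1
  [7,11,10]) (.fresh 10 .big (.dec 11 9 (.emb 20 [1,0,3,4,2,7,8,9,5,6,11,10]) (.fresh 11 .big
  (.adj2 6 11))))))) (.fresh 7 .big (.adj2 3 7))) (.dec 7 11 (.fresh 7 .big (.adj2 3 7)) (.fresh 7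
  .big (.low 7)))))) (.low 6)))))))))

def s12_62 : Cs :=
  (.dec 8 7 (.full 8 (.dec 7 6 (.emb 5 [7,3,1,6,0,8,2,5,4]) (.dec 7 9 (.emb 2 [4,8,7,9]) (.fresh 7
  (.full 7 (.dec 6 9 (.emb 4 [0,2,5,6,8,4,9,1]) (.dec 6 10 (.emb 9 [2,6,0,1,3,7,10,4,5,8]) (.fresh
  6 (.fresh 6 .big (.dec 9 10 (.emb 3 [4,1,9,8,10,3,7]) (.dec 9 11 (.fresh 9 .big (.dec 11 10
  (.emb 16 [2,0,6,5,1,11,8,4,3,9,10,7]) (.fresh 11 .big (.adj2 9 11)))) (.fresh 9 .big (.low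
  9))))) (.low 6))))) (.adj2 3 7))))) (.dec 8 9 (.emb 1 [4,8,9]) (.fresh 8 (.full 8 (.dec 6 7
  (.dec 6 9 (.emb 4 [0,1,3,4,7,6,9,2]) (.dec 6 10 (.emb 9 [1,3,4,8,10,6,7,5,0,2]) (.fresh 6 (.full
  6 (.dec 7 9 (.emb 9 [2,5,6,7,9,4,8,3,0,1]) (.dec 7 10 (.emb 12 [0,1,3,7,6,2,5,4,10,8]) (.dec 7
  11 (.emb 1 [6,11,7]) (.fresh 7 .big (.adj2 3 7)))))) (.dec 7 9 (.emb 9 [2,5,6,7,9,4,8,3,0,1])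
  (.dec 7 10 (.emb 12 [0,1,3,7,6,2,5,4,10,8]) (.fresh 7 (.full 7 (.dec 9 10 (.emb 2 [4,8,10,9])
  (.dec 9 11 (.fresh 9 .big (.dec 11 10 (.emb 17 [2,6,5,0,7,8,1,3,11,4,10,9]) (.fresh 11 .big
  (.adj2 9 11)))) (.fresh 9 .big (.low 9))))) (.adj2 6 7))))))) (.dec 6 9 (.emb 4
  [0,2,5,6,8,4,9,1]) (.dec 6 10 (.fresh 6 (.full 6 (.dec 10 7 (.emb 9 [1,3,0,2,6,10,7,5,4,8])
  (.dec 10 9 (.emb 2 [4,8,10,9]) (.dec 10 11 (.emb 1 [6,11,10]) (.fresh 10 .big (.dec 7 9 (.dec 7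
  11 (.emb 18 [7,11,9,3,6,4,1,10,2,8,0,5]) (.fresh 7 .big (.adj2 3 7))) (.dec 7 11 (.fresh 7 .big
  (.adj2 3 7)) (.fresh 7 .big (.low 7))))))))) (.dec 10 7 (.emb 9 [1,3,0,2,6,10,7,5,4,8]) (.dec 10
  9 (.emb 2 [4,8,10,9]) (.fresh 10 (.full 10 (.dec 7 9 (.dec 7 11 (.emb 19
  [2,0,6,5,1,10,8,4,3,11,9,7]) (.fresh 7 .big (.adj2 3 7))) (.dec 7 11 (.fresh 7 .big (.adj2 3 7))
  (.fresh 7 .big (.low 7))))) (.adj2 6 10))))) (.fresh 6 (.fresh 6 .big (.dec 7 9 (.dec 7 10 (.emb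
  3 [4,8,1,9,3,10,7]) (.dec 7 11 (.full 7 (.dec 9 10 (.emb 2 [4,8,10,9]) (.dec 9 11 (.emb 1
  [7,11,9]) (.fresh 9 .big (.dec 11 10 (.emb 17 [2,6,0,5,11,1,8,10,7,4,3,9]) (.fresh 11 .big
  (.adj2 6 11))))))) (.fresh 7 .big (.adj2 3 7)))) (.dec 7 10 (.dec 7 11 (.full 7 (.dec 10 9 (.emb
  2 [4,8,10,9]) (.dec 10 11 (.emb 1 [7,11,10]) (.fresh 10 .big (.dec 11 9 (.emb 4
  [1,4,8,9,10,7,11,3]) (.fresh 11 .big (.adj2 6 11))))))) (.fresh 7 .big (.adj2 3 7))) (.dec 7 11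
  (.fresh 7 .big (.adj2 3 7)) (.fresh 7 .big (.low 7)))))) (.low 6)))))) (.adj2 5 8))))

def s12_63 : Cs :=
  (.dec 9 7 (.full 9 (.dec 7 6 (.emb 5 [7,3,1,6,0,9,2,5,4]) (.dec 7 8 (.emb 2 [4,8,7,9]) (.dec 7
  10 (.emb 2 [5,9,7,10]) (.fresh 7 (.full 7 (.dec 6 8 (.emb 4 [0,2,5,6,9,4,8,1]) (.dec 6 10 (.emb
  2 [2,5,10,6]) (.dec 6 11 (.emb 9 [2,6,0,1,3,7,11,4,5,9]) (.fresh 6 .big (.low 6)))))) (.adj2 3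
  7)))))) (.dec 9 8 (.emb 1 [4,8,9]) (.dec 9 10 (.emb 1 [5,9,10]) (.fresh 9 (.full 9 (.dec 6 7
  (.dec 6 8 (.emb 4 [0,1,3,4,7,6,8,2]) (.dec 6 10 (.emb 2 [2,5,10,6]) (.dec 6 11 (.emb 9
  [1,3,4,9,11,6,7,5,0,2]) (.fresh 6 .big (.dec 7 8 (.emb 9 [2,5,6,7,8,4,9,3,0,1]) (.dec 7 10 (.emb
  9 [1,4,3,7,10,5,9,6,0,2]) (.dec 7 11 (.emb 12 [0,1,3,7,6,2,5,4,11,9]) (.fresh 7 .big (.adj2 6
  7))))))))) (.dec 6 8 (.emb 4 [0,2,5,6,9,4,8,1]) (.dec 6 10 (.emb 2 [2,5,10,6]) (.dec 6 11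
  (.fresh 6 .big (.dec 11 7 (.emb 9 [1,3,0,2,6,11,7,5,4,9]) (.dec 11 8 (.emb 2 [4,8,11,9]) (.dec
  11 10 (.emb 2 [5,9,11,10]) (.fresh 11 .big (.adj2 6 11)))))) (.fresh 6 .big (.low 6))))))) (.dec
  6 7 (.dec 6 8 (.emb 4 [0,1,3,4,7,6,8,2]) (.dec 6 10 (.emb 2 [2,5,10,6]) (.fresh 6 (.full 6 (.dec
  7 8 (.emb 9 [2,5,6,7,8,4,9,3,0,1]) (.dec 7 10 (.emb 9 [1,4,3,7,10,5,9,6,0,2]) (.dec 7 11 (.emb 1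
  [6,11,7]) (.fresh 7 .big (.adj2 3 7)))))) (.dec 7 8 (.emb 9 [2,5,6,7,8,4,9,3,0,1]) (.dec 7 10
  (.emb 9 [1,4,3,7,10,5,9,6,0,2]) (.fresh 7 (.full 7 (.dec 8 10 (.dec 8 11 (.emb 17
  [7,6,11,3,2,8,1,0,5,4,10,9]) (.fresh 8 .big (.dec 10 11 (.emb 17 [7,3,11,6,1,10,2,0,4,5,8,9])
  (.fresh 10 .big (.adj2 8 10))))) (.dec 8 11 (.fresh 8 .big (.dec 11 10 (.emb 22
  [1,4,0,3,9,8,2,7,5,11,6,10]) (.fresh 11 .big (.adj2 8 11)))) (.fresh 8 .big (.low 8))))) (.adj2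
  6 7))))))) (.dec 6 8 (.emb 4 [0,2,5,6,9,4,8,1]) (.dec 6 10 (.emb 2 [2,5,10,6]) (.fresh 6 (.fresh
  6 .big (.dec 7 8 (.dec 7 10 (.emb 9 [5,2,10,7,3,1,0,8,9,4]) (.dec 7 11 (.full 7 (.dec 8 10 (.emb
  6 [8,4,7,10,9,1,3,5,0,2]) (.dec 8 11 (.emb 1 [7,8,11]) (.fresh 8 .big (.dec 11 10 (.emb 21
  [1,4,3,0,8,9,7,2,5,11,6,10]) (.fresh 11 .big (.adj2 6 11))))))) (.fresh 7 .big (.adj2 3 7))))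
  (.dec 7 10 (.dec 7 11 (.full 7 (.dec 10 8 (.emb 7 [1,0,2,4,5,8,9,3,7,10]) (.dec 10 11 (.emb 1
  [7,11,10]) (.fresh 10 .big (.dec 11 8 (.emb 20 [1,0,3,4,2,7,9,8,5,6,11,10]) (.fresh 11 .big
  (.adj2 6 11))))))) (.fresh 7 .big (.adj2 3 7))) (.dec 7 11 (.fresh 7 .big (.adj2 3 7)) (.fresh 7
  .big (.low 7)))))) (.low 6)))))))))

def s12_64 : Cs :=
  (.dec 9 7 (.full 9 (.dec 7 6 (.emb 5 [7,3,1,6,0,9,2,5,4]) (.dec 7 8 (.emb 2 [4,8,7,9]) (.fresh 7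
  (.full 7 (.dec 6 8 (.emb 4 [0,2,5,6,9,4,8,1]) (.dec 6 10 (.emb 9 [2,6,0,1,3,7,10,4,5,9]) (.fresh
  6 (.fresh 6 .big (.dec 8 10 (.emb 3 [4,8,1,9,3,10,7]) (.dec 8 11 (.fresh 8 .big (.dec 11 10
  (.emb 16 [2,0,6,5,1,11,9,4,3,8,10,7]) (.fresh 11 .big (.adj2 8 11)))) (.fresh 8 .big (.low
  8))))) (.low 6))))) (.adj2 3 7))))) (.dec 9 8 (.emb 1 [4,8,9]) (.fresh 9 (.full 9 (.dec 6 7
  (.dec 6 8 (.emb 4 [0,1,3,4,7,6,8,2]) (.dec 6 10 (.emb 9 [1,3,4,9,10,6,7,5,0,2]) (.fresh 6 (.full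
  6 (.dec 7 8 (.emb 9 [2,5,6,7,8,4,9,3,0,1]) (.dec 7 10 (.emb 12 [0,1,3,7,6,2,5,4,10,9]) (.dec 7
  11 (.emb 1 [6,11,7]) (.fresh 7 .big (.adj2 3 7)))))) (.dec 7 8 (.emb 9 [2,5,6,7,8,4,9,3,0,1])
  (.dec 7 10 (.emb 12 [0,1,3,7,6,2,5,4,10,9]) (.fresh 7 (.full 7 (.dec 8 10 (.emb 2 [4,8,10,9])
  (.dec 8 11 (.fresh 8 .big (.dec 11 10 (.emb 17 [2,6,5,0,7,9,1,3,11,4,10,8]) (.fresh 11 .big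
  (.adj2 8 11)))) (.fresh 8 .big (.low 8))))) (.adj2 6 7))))))) (.dec 6 8 (.emb 4
  [0,2,5,6,9,4,8,1]) (.dec 6 10 (.fresh 6 (.full 6 (.dec 10 7 (.emb 9 [1,3,0,2,6,10,7,5,4,9])
  (.dec 10 8 (.emb 2 [4,8,10,9]) (.dec 10 11 (.emb 1 [6,11,10]) (.fresh 10 .big (.dec 7 8 (.dec 7
  11 (.emb 18 [7,11,8,3,6,4,1,10,2,9,0,5]) (.fresh 7 .big (.adj2 3 7))) (.dec 7 11 (.fresh 7 .big
  (.adj2 3 7)) (.fresh 7 .big (.low 7))))))))) (.dec 10 7 (.emb 9 [1,3,0,2,6,10,7,5,4,9]) (.dec 10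
  8 (.emb 2 [4,8,10,9]) (.fresh 10 (.full 10 (.dec 7 8 (.dec 7 11 (.emb 19
  [2,0,6,5,1,10,9,4,3,11,8,7]) (.fresh 7 .big (.adj2 3 7))) (.dec 7 11 (.fresh 7 .big (.adj2 3 7))
  (.fresh 7 .big (.low 7))))) (.adj2 6 10))))) (.fresh 6 (.fresh 6 .big (.dec 7 8 (.dec 7 10 (.emb
  3 [4,1,9,8,10,3,7]) (.dec 7 11 (.full 7 (.dec 8 10 (.emb 2 [4,8,10,9]) (.dec 8 11 (.emb 1
  [7,8,11]) (.fresh 8 .big (.dec 11 10 (.emb 17 [2,6,0,5,11,1,9,10,7,4,3,8]) (.fresh 11 .big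
  (.adj2 6 11))))))) (.fresh 7 .big (.adj2 3 7)))) (.dec 7 10 (.dec 7 11 (.full 7 (.dec 10 8 (.emb
  2 [4,8,10,9]) (.dec 10 11 (.emb 1 [7,11,10]) (.fresh 10 .big (.dec 11 8 (.emb 4
  [1,4,8,9,11,7,10,3]) (.fresh 11 .big (.adj2 6 11))))))) (.fresh 7 .big (.adj2 3 7))) (.dec 7 11
  (.fresh 7 .big (.adj2 3 7)) (.fresh 7 .big (.low 7)))))) (.low 6)))))) (.adj2 5 9))))

def s12_65 : Cs :=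
  (.dec 6 7 (.dec 6 8 (.emb 4 [0,1,3,4,7,6,8,2]) (.dec 6 9 (.emb 4 [0,1,3,4,7,6,9,2]) (.dec 6 10
  (.emb 2 [2,5,10,6]) (.dec 6 11 (.emb 2 [2,5,11,6]) (.fresh 6 .big (.dec 7 8 (.full 7 (.dec 8 9
  (.emb 1 [4,8,9]) (.dec 8 10 (.emb 9 [2,5,0,1,4,8,10,3,6,7]) (.dec 8 11 (.emb 9
  [2,5,0,1,4,8,11,3,6,7]) (.fresh 8 .big (.dec 9 10 (.dec 9 11 (.emb 2 [5,11,9,10]) (.fresh 9 .big
  (.dec 10 11 (.emb 1 [5,11,10]) (.fresh 10 .big (.adj2 9 10))))) (.dec 9 11 (.fresh 9 .big (.dec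
  11 10 (.emb 1 [5,11,10]) (.fresh 11 .big (.adj2 9 11)))) (.fresh 9 .big (.low 9))))))))) (.dec 7
  9 (.full 7 (.dec 9 8 (.emb 1 [4,8,9]) (.dec 9 10 (.emb 9 [2,5,0,1,4,9,10,3,6,7]) (.dec 9 11
  (.emb 9 [2,5,0,1,4,9,11,3,6,7]) (.fresh 9 .big (.dec 8 10 (.dec 8 11 (.emb 2 [5,11,8,10])
  (.fresh 8 .big (.dec 10 11 (.emb 1 [5,11,10]) (.fresh 10 .big (.adj2 8 10))))) (.dec 8 11
  (.fresh 8 .big (.dec 11 10 (.emb 1 [5,11,10]) (.fresh 11 .big (.adj2 8 11)))) (.fresh 8 .big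
  (.low 8))))))))) (.dec 7 10 (.full 7 (.dec 10 8 (.emb 9 [1,4,0,2,5,10,8,6,3,7]) (.dec 10 9 (.emb
  9 [1,4,0,2,5,10,9,6,3,7]) (.dec 10 11 (.emb 1 [5,11,10]) (.fresh 10 .big (.dec 8 9 (.emb 1
  [4,8,9]) (.dec 8 11 (.fresh 8 .big (.dec 11 9 (.emb 2 [4,8,11,9]) (.fresh 11 .big (.adj2 8
  11)))) (.fresh 8 .big (.low 8))))))))) (.dec 7 11 (.full 7 (.dec 11 8 (.emb 9
  [1,4,0,2,5,11,8,6,3,7]) (.dec 11 9 (.emb 9 [1,4,0,2,5,11,9,6,3,7]) (.dec 11 10 (.emb 1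
  [5,11,10]) (.fresh 11 .big (.dec 8 9 (.emb 1 [4,8,9]) (.dec 8 10 (.fresh 8 .big (.dec 10 9 (.emb
  2 [4,8,10,9]) (.fresh 10 .big (.adj2 8 10)))) (.fresh 8 .big (.low 8))))))))) (.fresh 7 .big
  (.adj2 6 7))))))))))) (.dec 6 8 (.dec 6 9 (.emb 2 [4,8,6,9]) (.dec 6 10 (.emb 2 [2,5,10,6])
  (.dec 6 11 (.emb 2 [2,5,11,6]) (.fresh 6 .big (.dec 8 7 (.full 8 (.dec 7 9 (.emb 2 [4,8,7,9])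
  (.dec 7 10 (.emb 9 [2,5,0,1,3,7,10,4,6,8]) (.dec 7 11 (.emb 9 [2,5,0,1,3,7,11,4,6,8]) (.fresh 7
  .big (.adj2 3 7)))))) (.dec 8 9 (.emb 1 [4,8,9]) (.dec 8 10 (.full 8 (.dec 10 7 (.emb 9
  [1,3,0,2,5,10,7,6,4,8]) (.dec 10 9 (.emb 2 [4,8,10,9]) (.dec 10 11 (.emb 1 [5,11,10]) (.fresh 10
  .big (.dec 7 9 (.dec 7 11 (.emb 18 [7,11,9,3,5,4,1,10,2,8,0,6]) (.fresh 7 .big (.adj2 3 7)))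
  (.dec 7 11 (.fresh 7 .big (.adj2 3 7)) (.fresh 7 .big (.low 7))))))))) (.dec 8 11 (.full 8 (.dec
  11 7 (.emb 9 [1,3,0,2,5,11,7,6,4,8]) (.dec 11 9 (.emb 2 [4,8,11,9]) (.dec 11 10 (.emb 1
  [5,11,10]) (.fresh 11 .big (.dec 7 9 (.dec 7 10 (.emb 18 [7,10,9,3,5,4,1,11,2,8,0,6]) (.fresh 7
  .big (.adj2 3 7))) (.dec 7 10 (.fresh 7 .big (.adj2 3 7)) (.fresh 7 .big (.low 7)))))))))
  (.fresh 8 .big (.adj2 6 8)))))))))) (.dec 6 9 (.dec 6 10 (.emb 2 [2,5,10,6]) (.dec 6 11 (.emb 2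
  [2,5,11,6]) (.fresh 6 .big (.dec 9 7 (.full 9 (.dec 7 8 (.emb 2 [4,8,7,9]) (.dec 7 10 (.emb 9
  [2,5,0,1,3,7,10,4,6,9]) (.dec 7 11 (.emb 9 [2,5,0,1,3,7,11,4,6,9]) (.fresh 7 .big (.adj2 3
  7)))))) (.dec 9 8 (.emb 1 [4,8,9]) (.dec 9 10 (.full 9 (.dec 10 7 (.emb 9
  [1,3,0,2,5,10,7,6,4,9]) (.dec 10 8 (.emb 2 [4,8,10,9]) (.dec 10 11 (.emb 1 [5,11,10]) (.fresh 10
  .big (.dec 7 8 (.dec 7 11 (.emb 18 [7,11,8,3,5,4,1,10,2,9,0,6]) (.fresh 7 .big (.adj2 3 7)))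
  (.dec 7 11 (.fresh 7 .big (.adj2 3 7)) (.fresh 7 .big (.low 7))))))))) (.dec 9 11 (.full 9 (.dec
  11 7 (.emb 9 [1,3,0,2,5,11,7,6,4,9]) (.dec 11 8 (.emb 2 [4,8,11,9]) (.dec 11 10 (.emb 1
  [5,11,10]) (.fresh 11 .big (.dec 7 8 (.dec 7 10 (.emb 18 [7,10,8,3,5,4,1,11,2,9,0,6]) (.fresh 7
  .big (.adj2 3 7))) (.dec 7 10 (.fresh 7 .big (.adj2 3 7)) (.fresh 7 .big (.low 7)))))))))
  (.fresh 9 .big (.adj2 6 9))))))))) (.dec 6 10 (.emb 2 [2,5,10,6]) (.dec 6 11 (.emb 2 [2,5,11,6])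
  (.fresh 6 .big (.low 6)))))))

def s12_66 : Cs :=
  (.dec 7 8 (.full 7 (.dec 8 9 (.emb 1 [4,8,9]) (.dec 8 10 (.emb 9 [2,5,0,1,4,8,10,3,6,7]) (.fresh
  8 (.full 8 (.dec 9 10 (.dec 9 11 (.emb 2 [4,8,11,9]) (.fresh 9 .big (.dec 10 11 (.emb 15
  [2,0,5,6,1,10,7,3,4,9,11,8]) (.fresh 10 .big (.adj2 9 10))))) (.dec 9 11 (.emb 2 [4,8,11,9])
  (.fresh 9 .big (.low 9))))) (.dec 9 10 (.fresh 9 (.full 9 (.dec 10 11 (.emb 1 [9,10,11]) (.fresh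
  10 .big (.adj2 5 10)))) (.fresh 10 (.full 10 (.fresh 11 .big (.low 11))) .cap)) (.fresh 9
  (.fresh 9 .big (.dec 10 11 (.fresh 10 .big .cap) (.fresh 10 .big (.low 10)))) (.low 9)))))))
  (.dec 7 9 (.full 7 (.dec 9 8 (.emb 1 [4,8,9]) (.dec 9 10 (.emb 9 [2,5,0,1,4,9,10,3,6,7]) (.fresh
  9 (.full 9 (.dec 8 10 (.dec 8 11 (.emb 2 [4,8,11,9]) (.fresh 8 .big (.dec 10 11 (.emb 15
  [2,0,5,6,1,10,7,3,4,8,11,9]) (.fresh 10 .big (.adj2 8 10))))) (.dec 8 11 (.emb 2 [4,8,11,9])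
  (.fresh 8 .big (.low 8))))) (.dec 8 10 (.fresh 8 (.full 8 (.dec 10 11 (.emb 1 [8,10,11]) (.fresh
  10 .big (.adj2 5 10)))) (.fresh 10 (.full 10 (.fresh 11 .big (.low 11))) .cap)) (.fresh 8
  (.fresh 8 .big (.dec 10 11 (.fresh 10 .big .cap) (.fresh 10 .big (.low 10)))) (.low 8)))))))
  (.dec 7 10 (.full 7 (.dec 10 8 (.emb 9 [1,4,0,2,5,10,8,6,3,7]) (.dec 10 9 (.emb 9
  [1,4,0,2,5,10,9,6,3,7]) (.fresh 10 (.full 10 (.dec 8 9 (.emb 1 [4,8,9]) (.dec 8 11 (.fresh 8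
  .big (.dec 11 9 (.emb 2 [4,8,11,9]) (.fresh 11 .big (.adj2 8 11)))) (.fresh 8 .big (.low 8)))))
  (.adj2 5 10))))) (.fresh 7 (.full 7 (.dec 8 9 (.emb 1 [4,8,9]) (.dec 8 10 (.dec 8 11 (.full 8
  (.dec 10 9 (.emb 2 [4,8,10,9]) (.dec 10 11 (.emb 1 [8,10,11]) (.fresh 10 .big (.adj2 5 10)))))
  (.fresh 8 .big (.dec 10 9 (.emb 2 [4,8,10,9]) (.dec 10 11 (.full 10 (.dec 11 9 (.emb 17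
  [2,0,5,6,1,10,7,3,4,11,8,9]) (.fresh 11 .big (.fresh 9 .big (.low 9))))) (.fresh 10 .big (.adj2
  8 10)))))) (.dec 8 11 (.fresh 8 .big (.dec 11 9 (.emb 2 [4,8,11,9]) (.dec 11 10 (.full 11 (.dec
  10 9 (.emb 17 [2,0,5,6,1,10,7,3,4,11,9,8]) (.fresh 10 .big (.adj2 5 10)))) (.fresh 11 .big
  (.adj2 8 11))))) (.fresh 8 .big (.low 8)))))) (.adj2 6 7)))))

def s12_67 : Cs :=
  (.fresh 6 (.full 6 (.dec 8 7 (.full 8 (.dec 7 9 (.emb 2 [4,8,7,9]) (.dec 7 10 (.emb 9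
  [2,5,0,1,3,7,10,4,6,8]) (.dec 7 11 (.emb 2 [6,8,7,11]) (.fresh 7 .big (.adj2 3 7)))))) (.dec 8 9
  (.emb 1 [4,8,9]) (.dec 8 10 (.full 8 (.dec 10 7 (.emb 9 [1,3,0,2,5,10,7,6,4,8]) (.dec 10 9 (.emb
  2 [4,8,10,9]) (.dec 10 11 (.emb 2 [6,8,10,11]) (.fresh 10 .big (.adj2 5 10)))))) (.dec 8 11
  (.emb 1 [6,8,11]) (.fresh 8 .big (.dec 7 9 (.dec 7 10 (.full 7 (.dec 9 10 (.emb 1 [7,9,10])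
  (.dec 9 11 (.emb 6 [9,4,7,11,8,1,3,6,0,2]) (.fresh 9 .big (.dec 10 11 (.emb 21
  [1,4,3,0,9,8,7,2,6,10,5,11]) (.fresh 10 .big (.adj2 5 10))))))) (.dec 7 11 (.emb 9
  [6,2,11,7,3,1,0,9,8,4]) (.fresh 7 .big (.adj2 3 7)))) (.dec 7 10 (.dec 7 11 (.full 7 (.dec 10 9
  (.emb 20 [1,0,3,4,2,7,8,9,6,5,10,11]) (.dec 10 11 (.emb 1 [7,11,10]) (.fresh 10 .big (.adj2 5
  10))))) (.fresh 7 .big (.adj2 3 7))) (.dec 7 11 (.fresh 7 .big (.adj2 3 7)) (.fresh 7 .big (.low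
  7))))))))))) (.dec 8 7 (.full 8 (.dec 7 9 (.emb 2 [4,8,7,9]) (.dec 7 10 (.emb 9
  [2,5,0,1,3,7,10,4,6,8]) (.fresh 7 (.full 7 (.dec 9 10 (.dec 9 11 (.emb 3 [4,1,9,8,11,3,7])
  (.fresh 9 .big (.dec 10 11 (.emb 16 [2,0,5,6,1,10,8,4,3,9,11,7]) (.fresh 10 .big (.adj2 9
  10))))) (.dec 9 11 (.emb 3 [4,1,9,8,11,3,7]) (.fresh 9 .big (.low 9))))) (.adj2 3 7))))) (.dec 8
  9 (.emb 1 [4,8,9]) (.dec 8 10 (.full 8 (.dec 10 7 (.emb 9 [1,3,0,2,5,10,7,6,4,8]) (.dec 10 9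
  (.emb 2 [4,8,10,9]) (.fresh 10 (.full 10 (.dec 7 9 (.dec 7 11 (.emb 19
  [2,0,5,6,1,10,8,4,3,11,9,7]) (.fresh 7 .big (.adj2 3 7))) (.dec 7 11 (.fresh 7 .big (.adj2 3 7))
  (.fresh 7 .big (.low 7))))) (.adj2 5 10))))) (.fresh 8 (.full 8 (.dec 7 9 (.dec 7 10 (.full 7
  (.dec 9 10 (.emb 1 [7,9,10]) (.dec 9 11 (.emb 2 [4,8,11,9]) (.fresh 9 .big (.dec 10 11 (.emb 17
  [2,5,0,6,10,1,8,11,7,4,3,9]) (.fresh 10 .big (.adj2 5 10))))))) (.dec 7 11 (.emb 3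
  [4,8,1,9,3,11,7]) (.fresh 7 .big (.adj2 3 7)))) (.dec 7 10 (.dec 7 11 (.full 7 (.dec 10 9 (.emb
  4 [1,4,8,9,11,7,10,3]) (.dec 10 11 (.emb 1 [7,11,10]) (.fresh 10 .big (.adj2 5 10))))) (.fresh 7
  .big (.adj2 3 7))) (.dec 7 11 (.fresh 7 .big (.adj2 3 7)) (.fresh 7 .big (.low 7)))))) (.adj2 6
  8))))))

def s12_68 : Cs :=
  (.fresh 6 (.full 6 (.dec 9 7 (.full 9 (.dec 7 8 (.emb 2 [4,8,7,9]) (.dec 7 10 (.emb 9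
  [2,5,0,1,3,7,10,4,6,9]) (.dec 7 11 (.emb 2 [6,9,7,11]) (.fresh 7 .big (.adj2 3 7)))))) (.dec 9 8
  (.emb 1 [4,8,9]) (.dec 9 10 (.full 9 (.dec 10 7 (.emb 9 [1,3,0,2,5,10,7,6,4,9]) (.dec 10 8 (.emb
  2 [4,8,10,9]) (.dec 10 11 (.emb 2 [6,9,10,11]) (.fresh 10 .big (.adj2 5 10)))))) (.dec 9 11
  (.emb 1 [6,9,11]) (.fresh 9 .big (.dec 7 8 (.dec 7 10 (.full 7 (.dec 8 10 (.emb 1 [7,8,10])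
  (.dec 8 11 (.emb 6 [8,4,7,11,9,1,3,6,0,2]) (.fresh 8 .big (.dec 10 11 (.emb 21
  [1,4,3,0,8,9,7,2,6,10,5,11]) (.fresh 10 .big (.adj2 5 10))))))) (.dec 7 11 (.emb 9
  [6,2,11,7,3,1,0,8,9,4]) (.fresh 7 .big (.adj2 3 7)))) (.dec 7 10 (.dec 7 11 (.full 7 (.dec 10 8
  (.emb 20 [1,0,3,4,2,7,9,8,6,5,10,11]) (.dec 10 11 (.emb 1 [7,11,10]) (.fresh 10 .big (.adj2 5
  10))))) (.fresh 7 .big (.adj2 3 7))) (.dec 7 11 (.fresh 7 .big (.adj2 3 7)) (.fresh 7 .big (.low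
  7))))))))))) (.dec 9 7 (.full 9 (.dec 7 8 (.emb 2 [4,8,7,9]) (.dec 7 10 (.emb 9
  [2,5,0,1,3,7,10,4,6,9]) (.fresh 7 (.full 7 (.dec 8 10 (.dec 8 11 (.emb 3 [4,8,1,9,3,11,7])
  (.fresh 8 .big (.dec 10 11 (.emb 16 [2,0,5,6,1,10,9,4,3,8,11,7]) (.fresh 10 .big (.adj2 8
  10))))) (.dec 8 11 (.emb 3 [4,8,1,9,3,11,7]) (.fresh 8 .big (.low 8))))) (.adj2 3 7))))) (.dec 9
  8 (.emb 1 [4,8,9]) (.dec 9 10 (.full 9 (.dec 10 7 (.emb 9 [1,3,0,2,5,10,7,6,4,9]) (.dec 10 8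
  (.emb 2 [4,8,10,9]) (.fresh 10 (.full 10 (.dec 7 8 (.dec 7 11 (.emb 19
  [2,0,5,6,1,10,9,4,3,11,8,7]) (.fresh 7 .big (.adj2 3 7))) (.dec 7 11 (.fresh 7 .big (.adj2 3 7))
  (.fresh 7 .big (.low 7))))) (.adj2 5 10))))) (.fresh 9 (.full 9 (.dec 7 8 (.dec 7 10 (.full 7
  (.dec 8 10 (.emb 1 [7,8,10]) (.dec 8 11 (.emb 2 [4,8,11,9]) (.fresh 8 .big (.dec 10 11 (.emb 17
  [2,5,0,6,10,1,9,11,7,4,3,8]) (.fresh 10 .big (.adj2 5 10))))))) (.dec 7 11 (.emb 3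
  [4,1,9,8,11,3,7]) (.fresh 7 .big (.adj2 3 7)))) (.dec 7 10 (.dec 7 11 (.full 7 (.dec 10 8 (.emb
  4 [1,4,8,9,10,7,11,3]) (.dec 10 11 (.emb 1 [7,11,10]) (.fresh 10 .big (.adj2 5 10))))) (.fresh 7
  .big (.adj2 3 7))) (.dec 7 11 (.fresh 7 .big (.adj2 3 7)) (.fresh 7 .big (.low 7)))))) (.adj2 6
  9))))))

def s12_69 : Cs :=
  (.dec 7 8 (.dec 7 9 (.emb 2 [4,8,7,9]) (.dec 7 10 (.full 7 (.dec 8 9 (.emb 1 [4,8,9]) (.dec 8 10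
  (.emb 1 [7,8,10]) (.dec 8 11 (.full 8 (.dec 10 9 (.emb 3 [4,1,9,8,10,3,7]) (.dec 10 11 (.emb 2
  [7,8,11,10]) (.fresh 10 .big (.adj2 5 10))))) (.fresh 8 .big (.dec 10 9 (.emb 3
  [4,1,9,8,10,3,7]) (.dec 10 11 (.full 10 (.dec 11 9 (.emb 18 [2,0,5,6,1,10,11,3,4,7,9,8]) (.fresh
  11 .big (.adj2 6 11)))) (.fresh 10 .big (.adj2 5 10))))))))) (.dec 7 11 (.full 7 (.dec 8 9 (.emb
  1 [4,8,9]) (.dec 8 10 (.full 8 (.dec 10 9 (.emb 2 [4,8,10,9]) (.dec 10 11 (.emb 2 [7,8,10,11])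
  (.fresh 10 .big (.adj2 5 10))))) (.dec 8 11 (.emb 1 [7,8,11]) (.fresh 8 .big (.dec 11 9 (.emb 3
  [4,1,9,8,11,3,7]) (.dec 11 10 (.full 11 (.dec 10 9 (.emb 18 [2,0,6,5,1,11,10,3,4,7,9,8]) (.fresh
  10 .big (.adj2 5 10)))) (.fresh 11 .big (.adj2 6 11))))))))) (.fresh 7 .big (.adj2 3 7)))))
  (.dec 7 9 (.dec 7 10 (.full 7 (.dec 9 8 (.emb 1 [4,8,9]) (.dec 9 10 (.emb 1 [7,9,10]) (.dec 9 11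
  (.full 9 (.dec 10 8 (.emb 3 [4,8,1,9,3,10,7]) (.dec 10 11 (.emb 2 [7,9,11,10]) (.fresh 10 .big
  (.adj2 5 10))))) (.fresh 9 .big (.dec 10 8 (.emb 3 [4,8,1,9,3,10,7]) (.dec 10 11 (.full 10 (.dec
  11 8 (.emb 18 [2,0,5,6,1,10,11,3,4,7,8,9]) (.fresh 11 .big (.adj2 6 11)))) (.fresh 10 .big
  (.adj2 5 10))))))))) (.dec 7 11 (.full 7 (.dec 9 8 (.emb 1 [4,8,9]) (.dec 9 10 (.full 9 (.dec 10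
  8 (.emb 2 [4,8,10,9]) (.dec 10 11 (.emb 2 [7,11,10,9]) (.fresh 10 .big (.adj2 5 10))))) (.dec 9
  11 (.emb 1 [7,11,9]) (.fresh 9 .big (.dec 11 8 (.emb 3 [4,8,1,9,3,11,7]) (.dec 11 10 (.full 11
  (.dec 10 8 (.emb 18 [2,0,6,5,1,11,10,3,4,7,8,9]) (.fresh 10 .big (.adj2 5 10)))) (.fresh 11 .big
  (.adj2 6 11))))))))) (.fresh 7 .big (.adj2 3 7)))) (.dec 7 10 (.dec 7 11 (.full 7 (.dec 10 8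
  (.full 10 (.dec 8 9 (.emb 1 [4,8,9]) (.dec 8 11 (.emb 2 [7,11,8,10]) (.fresh 8 .big (.dec 11 9
  (.emb 4 [1,4,8,9,10,7,11,3]) (.fresh 11 .big (.adj2 6 11))))))) (.dec 10 9 (.full 10 (.dec 9 8
  (.emb 1 [4,8,9]) (.dec 9 11 (.emb 2 [7,11,9,10]) (.fresh 9 .big (.dec 11 8 (.emb 4
  [1,4,8,9,11,7,10,3]) (.fresh 11 .big (.adj2 6 11))))))) (.dec 10 11 (.emb 1 [7,11,10]) (.fresh
  10 .big (.adj2 5 10)))))) (.fresh 7 .big (.adj2 3 7))) (.dec 7 11 (.fresh 7 .big (.adj2 3 7))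
  (.fresh 7 .big (.low 7))))))

def s12_70 : Cs :=
  (.dec 5 7 (.dec 5 8 (.emb 4 [0,1,3,4,7,5,8,2]) (.dec 5 9 (.emb 4 [0,1,3,4,7,5,9,2]) (.fresh 5
  (.full 5 (.dec 7 6 (.emb 2 [2,5,7,6]) (.dec 7 8 (.full 7 (.dec 8 6 (.emb 5 [7,3,1,5,0,8,2,6,4])
  (.dec 8 9 (.emb 1 [4,8,9]) (.dec 8 10 (.emb 2 [5,10,8,7]) (.fresh 8 (.full 8 (.dec 6 9 (.emb 9
  [2,6,5,7,8,4,9,3,0,1]) (.dec 6 10 (.emb 2 [2,5,10,6]) (.dec 6 11 (.emb 9 [2,6,0,1,4,8,11,3,5,7])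
  (.fresh 6 .big (.low 6)))))) (.dec 6 9 (.emb 9 [2,6,5,7,8,4,9,3,0,1]) (.dec 6 10 (.emb 2
  [2,5,10,6]) (.fresh 6 (.fresh 6 .big (.dec 9 10 (.emb 7 [5,2,0,7,1,8,3,10,9,4]) (.dec 9 11
  (.fresh 9 .big (.dec 11 10 (.emb 18 [11,9,10,6,4,5,2,8,1,7,0,3]) (.fresh 11 .big (.adj2 9 11))))
  (.fresh 9 .big (.low 9))))) (.low 6))))))))) (.dec 7 9 (.full 7 (.dec 9 6 (.emb 5
  [7,3,1,5,0,9,2,6,4]) (.dec 9 8 (.emb 1 [4,8,9]) (.dec 9 10 (.emb 2 [5,10,9,7]) (.fresh 9 (.full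
  9 (.dec 6 8 (.emb 9 [2,6,5,7,9,4,8,3,0,1]) (.dec 6 10 (.emb 2 [2,5,10,6]) (.dec 6 11 (.emb 9
  [2,6,0,1,4,9,11,3,5,7]) (.fresh 6 .big (.low 6)))))) (.dec 6 8 (.emb 9 [2,6,5,7,9,4,8,3,0,1])
  (.dec 6 10 (.emb 2 [2,5,10,6]) (.fresh 6 (.fresh 6 .big (.dec 8 10 (.emb 7
  [5,2,0,7,1,9,3,10,8,4]) (.dec 8 11 (.fresh 8 .big (.dec 11 10 (.emb 18
  [11,8,10,6,4,5,2,9,1,7,0,3]) (.fresh 11 .big (.adj2 8 11)))) (.fresh 8 .big (.low 8))))) (.low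
  6))))))))) (.dec 7 10 (.emb 1 [5,10,7]) (.fresh 7 (.full 7 (.dec 6 8 (.dec 6 9 (.emb 2
  [4,8,6,9]) (.dec 6 10 (.emb 2 [2,5,10,6]) (.dec 6 11 (.emb 9 [1,4,3,7,11,6,8,5,0,2]) (.fresh 6
  .big (.dec 8 9 (.emb 1 [4,8,9]) (.dec 8 10 (.emb 9 [1,3,4,8,10,5,7,6,0,2]) (.dec 8 11 (.emb 12
  [0,1,3,7,5,2,6,4,11,8]) (.fresh 8 .big (.adj2 6 8))))))))) (.dec 6 9 (.dec 6 10 (.emb 2
  [2,5,10,6]) (.dec 6 11 (.emb 9 [1,4,3,7,11,6,9,5,0,2]) (.fresh 6 .big (.dec 9 8 (.emb 1 [4,8,9])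
  (.dec 9 10 (.emb 9 [1,3,4,9,10,5,7,6,0,2]) (.dec 9 11 (.emb 12 [0,1,3,7,5,2,6,4,11,9]) (.fresh 9
  .big (.adj2 6 9)))))))) (.dec 6 10 (.emb 2 [2,5,10,6]) (.dec 6 11 (.fresh 6 .big (.dec 11 8
  (.emb 9 [1,4,0,2,6,11,8,5,3,7]) (.dec 11 9 (.emb 9 [1,4,0,2,6,11,9,5,3,7]) (.dec 11 10 (.emb 2
  [5,10,11,7]) (.fresh 11 .big (.adj2 6 11)))))) (.fresh 6 .big (.low 6))))))) (.adj2 3 7)))))))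
  (.dec 7 6 (.emb 2 [2,5,7,6]) s12_60)))) (.dec 5 8 (.dec 5 9 (.emb 2 [4,8,5,9]) (.fresh 5 (.full
  5 (.dec 8 6 (.emb 2 [2,5,8,6]) s12_61)) (.dec 8 6 (.emb 2 [2,5,8,6]) s12_62))) (.dec 5 9 (.fresh
  5 (.full 5 (.dec 9 6 (.emb 2 [2,5,9,6]) s12_63)) (.dec 9 6 (.emb 2 [2,5,9,6]) s12_64)) (.fresh 5
  (.fresh 5 (.full 5 s12_65) (.dec 6 7 (.dec 6 8 (.emb 4 [0,1,3,4,7,6,8,2]) (.dec 6 9 (.emb 4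
  [0,1,3,4,7,6,9,2]) (.dec 6 10 (.emb 2 [2,5,10,6]) (.fresh 6 (.full 6 (.dec 7 8 (.full 7 (.dec 8
  9 (.emb 1 [4,8,9]) (.dec 8 10 (.emb 9 [2,5,0,1,4,8,10,3,6,7]) (.dec 8 11 (.emb 2 [6,11,8,7])
  (.fresh 8 .big (.dec 9 10 (.dec 9 11 (.emb 7 [6,2,0,7,1,8,3,11,9,4]) (.fresh 9 .big (.dec 10 11
  (.emb 18 [10,9,11,5,4,6,2,8,1,7,0,3]) (.fresh 10 .big (.adj2 9 10))))) (.dec 9 11 (.emb 7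
  [6,2,0,7,1,8,3,11,9,4]) (.fresh 9 .big (.low 9))))))))) (.dec 7 9 (.full 7 (.dec 9 8 (.emb 1
  [4,8,9]) (.dec 9 10 (.emb 9 [2,5,0,1,4,9,10,3,6,7]) (.dec 9 11 (.emb 2 [6,11,9,7]) (.fresh 9
  .big (.dec 8 10 (.dec 8 11 (.emb 7 [6,2,0,7,1,9,3,11,8,4]) (.fresh 8 .big (.dec 10 11 (.emb 18
  [10,8,11,5,4,6,2,9,1,7,0,3]) (.fresh 10 .big (.adj2 8 10))))) (.dec 8 11 (.emb 7
  [6,2,0,7,1,9,3,11,8,4]) (.fresh 8 .big (.low 8))))))))) (.dec 7 10 (.full 7 (.dec 10 8 (.emb 9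
  [1,4,0,2,5,10,8,6,3,7]) (.dec 10 9 (.emb 9 [1,4,0,2,5,10,9,6,3,7]) (.dec 10 11 (.emb 2
  [6,11,10,7]) (.fresh 10 .big (.adj2 5 10)))))) (.dec 7 11 (.emb 1 [6,11,7]) (.fresh 7 .big
  (.adj2 3 7))))))) s12_66)))) (.dec 6 8 (.dec 6 9 (.emb 2 [4,8,6,9]) (.dec 6 10 (.emb 2
  [2,5,10,6]) s12_67)) (.dec 6 9 (.dec 6 10 (.emb 2 [2,5,10,6]) s12_68) (.dec 6 10 (.emb 2
  [2,5,10,6]) (.fresh 6 (.fresh 6 .big s12_69) (.low 6))))))) (.low 5)))))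

def s12_71 : Cs :=
  (.dec 7 8 (.full 7 (.dec 8 6 (.emb 5 [7,3,1,5,0,8,2,6,4]) (.dec 8 9 (.emb 2 [5,9,8,7]) (.fresh 8
  (.full 8 (.dec 6 9 (.emb 2 [2,5,9,6]) (.dec 6 10 (.emb 9 [2,6,0,1,4,8,10,3,5,7]) (.fresh 6
  (.fresh 6 .big (.dec 9 10 (.emb 6 [8,7,10,4,3,5,9,1,2,0]) (.dec 9 11 (.fresh 9 .big (.dec 11 10
  (.emb 19 [1,0,4,3,2,8,7,5,6,10,9,11]) (.fresh 11 .big (.adj2 9 11)))) (.fresh 9 .big (.low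
  9))))) (.low 6))))) (.adj2 4 8))))) (.dec 7 9 (.emb 1 [5,9,7]) (.fresh 7 (.full 7 (.dec 6 8
  (.dec 6 9 (.emb 2 [2,5,9,6]) (.dec 6 10 (.emb 9 [1,4,3,7,10,6,8,5,0,2]) (.fresh 6 (.full 6 (.dec
  8 9 (.emb 9 [1,3,4,8,9,5,7,6,0,2]) (.dec 8 10 (.emb 12 [0,1,3,7,5,2,6,4,10,8]) (.dec 8 11 (.emb
  1 [6,8,11]) (.fresh 8 .big (.adj2 4 8)))))) (.dec 8 9 (.emb 9 [1,3,4,8,9,5,7,6,0,2]) (.dec 8 10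
  (.emb 12 [0,1,3,7,5,2,6,4,10,8]) (.fresh 8 (.full 8 (.dec 9 10 (.emb 2 [5,9,10,7]) (.dec 9 11
  (.fresh 9 .big (.dec 11 10 (.emb 17 [1,4,3,0,8,7,2,6,11,5,10,9]) (.fresh 11 .big (.adj2 9 11))))
  (.fresh 9 .big (.low 9))))) (.adj2 6 8))))))) (.dec 6 9 (.emb 2 [2,5,9,6]) (.dec 6 10 (.fresh 6
  (.full 6 (.dec 10 8 (.emb 9 [1,4,0,2,6,10,8,5,3,7]) (.dec 10 9 (.emb 2 [5,9,10,7]) (.dec 10 11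
  (.emb 1 [6,11,10]) (.fresh 10 .big (.dec 8 9 (.dec 8 11 (.emb 16 [1,3,4,0,7,8,2,5,10,9,11,6])
  (.fresh 8 .big (.adj2 4 8))) (.dec 8 11 (.fresh 8 .big (.adj2 4 8)) (.fresh 8 .big (.low
  8))))))))) (.dec 10 8 (.emb 9 [1,4,0,2,6,10,8,5,3,7]) (.dec 10 9 (.emb 2 [5,9,10,7]) (.fresh 10
  (.full 10 (.dec 8 9 (.dec 8 11 (.emb 16 [1,0,4,3,2,8,7,5,6,9,11,10]) (.fresh 8 .big (.adj2 4
  8))) (.dec 8 11 (.fresh 8 .big (.adj2 4 8)) (.fresh 8 .big (.low 8))))) (.adj2 6 10))))) (.fresh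
  6 (.fresh 6 .big (.dec 8 9 (.dec 8 10 (.emb 9 [1,0,4,8,9,5,2,10,3,7]) (.dec 8 11 (.full 8 (.dec
  9 10 (.emb 2 [5,9,10,7]) (.dec 9 11 (.emb 1 [8,9,11]) (.fresh 9 .big (.dec 11 10 (.emb 4
  [2,5,9,7,8,11,10,6]) (.fresh 11 .big (.adj2 6 11))))))) (.fresh 8 .big (.adj2 4 8)))) (.dec 8 10
  (.dec 8 11 (.full 8 (.dec 10 9 (.emb 2 [5,9,10,7]) (.dec 10 11 (.emb 1 [8,10,11]) (.fresh 10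
  .big (.dec 11 9 (.emb 17 [1,4,0,3,8,2,7,10,11,5,6,9]) (.fresh 11 .big (.adj2 6 11))))))) (.fresh
  8 .big (.adj2 4 8))) (.dec 8 11 (.fresh 8 .big (.adj2 4 8)) (.fresh 8 .big (.low 8)))))) (.low
  6)))))) (.adj2 3 7))))

def s12_72 : Cs :=
  (.dec 6 9 (.fresh 6 (.full 6 (.dec 9 8 (.emb 9 [1,4,0,2,6,9,8,5,3,7]) (.dec 9 10 (.emb 1
  [6,9,10]) (.fresh 9 (.full 9 (.dec 8 10 (.dec 8 11 (.emb 15 [1,0,4,3,2,8,7,5,6,10,11,9]) (.fresh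
  8 .big (.adj2 4 8))) (.dec 8 11 (.fresh 8 .big (.adj2 4 8)) (.fresh 8 .big (.low 8))))) (.dec 8
  10 (.fresh 8 (.full 8 (.dec 10 11 (.emb 1 [8,10,11]) (.fresh 10 .big (.fresh 11 .big (.low
  11))))) (.adj2 4 8)) (.fresh 8 (.fresh 8 .big (.adj2 4 8)) (.low 8))))))) (.dec 9 8 (.emb 9
  [1,4,0,2,6,9,8,5,3,7]) (.fresh 9 (.full 9 (.dec 8 10 (.fresh 8 (.full 8 (.dec 10 11 (.emb 1
  [8,10,11]) (.fresh 10 .big (.fresh 11 .big (.low 11))))) (.adj2 4 8)) (.fresh 8 (.fresh 8 .big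
  (.adj2 4 8)) (.low 8)))) (.adj2 6 9)))) (.fresh 6 (.fresh 6 (.full 6 (.dec 8 9 (.dec 8 10 (.full
  8 (.dec 9 10 (.emb 1 [8,9,10]) (.dec 9 11 (.emb 17 [1,0,4,3,2,8,7,5,6,9,10,11]) (.fresh 9 .big
  (.dec 10 11 (.emb 1 [6,11,10]) (.fresh 10 .big (.fresh 11 .big (.low 11)))))))) (.dec 8 11
  (.full 8 (.dec 9 10 (.emb 17 [1,0,4,3,2,8,7,5,6,9,11,10]) (.dec 9 11 (.emb 1 [8,9,11]) (.fresh 9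
  .big (.dec 11 10 (.emb 1 [6,11,10]) (.fresh 11 .big (.fresh 10 .big (.low 10)))))))) (.fresh 8
  .big (.adj2 4 8)))) (.dec 8 10 (.dec 8 11 (.emb 2 [6,11,8,10]) (.fresh 8 .big (.adj2 4 8)))
  (.dec 8 11 (.fresh 8 .big (.adj2 4 8)) (.fresh 8 .big (.low 8)))))) (.dec 8 9 (.dec 8 10 (.full
  8 (.dec 9 10 (.emb 1 [8,9,10]) (.fresh 9 (.full 9 (.dec 10 11 (.emb 2 [8,9,11,10]) (.fresh 10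
  .big (.adj2 6 10)))) (.fresh 10 (.full 10 (.fresh 11 .big (.low 11))) .cap)))) (.fresh 8 (.full
  8 (.dec 9 10 (.full 9 (.dec 10 11 (.emb 2 [8,9,10,11]) (.fresh 10 .big (.adj2 6 10)))) (.dec 9
  11 (.emb 1 [8,9,11]) (.fresh 9 .big (.dec 10 11 (.fresh 10 .big .cap) (.fresh 10 .big (.low
  10))))))) (.adj2 4 8))) (.dec 8 10 (.fresh 8 (.full 8 (.dec 10 9 (.full 10 (.dec 9 11 (.emb 2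
  [8,10,9,11]) (.fresh 9 .big (.fresh 11 .big (.low 11))))) (.dec 10 11 (.emb 1 [8,10,11]) (.fresh
  10 .big (.adj2 6 10))))) (.adj2 4 8)) (.fresh 8 (.fresh 8 .big (.adj2 4 8)) (.low 8))))) (.low
  6)))

def s12_73 : Cs :=
  (.dec 8 7 (.full 8 (.dec 7 6 (.emb 5 [7,3,1,6,0,8,2,5,4]) (.dec 7 9 (.emb 2 [5,8,7,9]) (.fresh 7
  (.full 7 (.dec 6 9 (.emb 2 [2,5,9,6]) (.dec 6 10 (.emb 9 [2,6,0,1,3,7,10,4,5,8]) (.fresh 6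
  (.fresh 6 .big (.dec 9 10 (.emb 6 [7,8,10,3,4,5,9,1,2,0]) (.dec 9 11 (.fresh 9 .big (.dec 11 10
  (.emb 19 [1,0,3,4,2,7,8,5,6,10,9,11]) (.fresh 11 .big (.adj2 9 11)))) (.fresh 9 .big (.low
  9))))) (.low 6))))) (.adj2 3 7))))) (.dec 8 9 (.emb 1 [5,8,9]) (.fresh 8 (.full 8 (.dec 6 7
  (.dec 6 9 (.emb 2 [2,5,9,6]) (.dec 6 10 (.emb 9 [1,3,4,8,10,6,7,5,0,2]) (.fresh 6 (.full 6 (.dec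
  7 9 (.emb 9 [1,4,3,7,9,5,8,6,0,2]) (.dec 7 10 (.emb 12 [0,1,3,7,6,2,5,4,10,8]) (.dec 7 11 (.emb
  1 [6,11,7]) (.fresh 7 .big (.adj2 3 7)))))) (.dec 7 9 (.emb 9 [1,4,3,7,9,5,8,6,0,2]) (.dec 7 10
  (.emb 12 [0,1,3,7,6,2,5,4,10,8]) (.fresh 7 (.full 7 (.dec 9 10 (.emb 2 [5,8,10,9]) (.dec 9 11
  (.fresh 9 .big (.dec 11 10 (.emb 17 [1,3,4,0,7,8,2,6,11,5,10,9]) (.fresh 11 .big (.adj2 9 11))))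
  (.fresh 9 .big (.low 9))))) (.adj2 6 7))))))) (.dec 6 9 (.emb 2 [2,5,9,6]) (.dec 6 10 (.fresh 6
  (.full 6 (.dec 10 7 (.emb 9 [1,3,0,2,6,10,7,5,4,8]) (.dec 10 9 (.emb 2 [5,8,10,9]) (.dec 10 11
  (.emb 1 [6,11,10]) (.fresh 10 .big (.dec 7 9 (.dec 7 11 (.emb 16 [1,4,3,0,8,7,2,5,10,9,11,6])
  (.fresh 7 .big (.adj2 3 7))) (.dec 7 11 (.fresh 7 .big (.adj2 3 7)) (.fresh 7 .big (.low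
  7))))))))) (.dec 10 7 (.emb 9 [1,3,0,2,6,10,7,5,4,8]) (.dec 10 9 (.emb 2 [5,8,10,9]) (.fresh 10
  (.full 10 (.dec 7 9 (.dec 7 11 (.emb 16 [1,0,3,4,2,7,8,5,6,9,11,10]) (.fresh 7 .big (.adj2 3
  7))) (.dec 7 11 (.fresh 7 .big (.adj2 3 7)) (.fresh 7 .big (.low 7))))) (.adj2 6 10))))) (.fresh
  6 (.fresh 6 .big (.dec 7 9 (.dec 7 10 (.emb 9 [1,0,3,7,9,5,2,10,4,8]) (.dec 7 11 (.full 7 (.dec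
  9 10 (.emb 2 [5,8,10,9]) (.dec 9 11 (.emb 1 [7,11,9]) (.fresh 9 .big (.dec 11 10 (.emb 4
  [2,5,8,9,10,11,7,6]) (.fresh 11 .big (.adj2 6 11))))))) (.fresh 7 .big (.adj2 3 7)))) (.dec 7 10
  (.dec 7 11 (.full 7 (.dec 10 9 (.emb 2 [5,8,10,9]) (.dec 10 11 (.emb 1 [7,11,10]) (.fresh 10
  .big (.dec 11 9 (.emb 17 [1,3,0,4,7,2,8,10,11,5,6,9]) (.fresh 11 .big (.adj2 6 11))))))) (.fresh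
  7 .big (.adj2 3 7))) (.dec 7 11 (.fresh 7 .big (.adj2 3 7)) (.fresh 7 .big (.low 7)))))) (.low
  6)))))) (.adj2 4 8))))

def s12_74 : Cs :=
  (.dec 6 9 (.fresh 6 (.full 6 (.dec 9 7 (.emb 9 [1,3,0,2,6,9,7,5,4,8]) (.dec 9 10 (.emb 1
  [6,9,10]) (.fresh 9 (.full 9 (.dec 7 10 (.dec 7 11 (.emb 15 [1,0,3,4,2,7,8,5,6,10,11,9]) (.fresh
  7 .big (.adj2 3 7))) (.dec 7 11 (.fresh 7 .big (.adj2 3 7)) (.fresh 7 .big (.low 7))))) (.dec 7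
  10 (.fresh 7 (.full 7 (.dec 10 11 (.emb 1 [7,11,10]) (.fresh 10 .big (.fresh 11 .big (.low
  11))))) (.adj2 3 7)) (.fresh 7 (.fresh 7 .big (.adj2 3 7)) (.low 7))))))) (.dec 9 7 (.emb 9
  [1,3,0,2,6,9,7,5,4,8]) (.fresh 9 (.full 9 (.dec 7 10 (.fresh 7 (.full 7 (.dec 10 11 (.emb 1
  [7,11,10]) (.fresh 10 .big (.fresh 11 .big (.low 11))))) (.adj2 3 7)) (.fresh 7 (.fresh 7 .big
  (.adj2 3 7)) (.low 7)))) (.adj2 6 9)))) (.fresh 6 (.fresh 6 (.full 6 (.dec 7 9 (.dec 7 10 (.full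
  7 (.dec 9 10 (.emb 1 [7,9,10]) (.dec 9 11 (.emb 17 [1,0,3,4,2,7,8,5,6,9,10,11]) (.fresh 9 .big
  (.dec 10 11 (.emb 1 [6,11,10]) (.fresh 10 .big (.fresh 11 .big (.low 11)))))))) (.dec 7 11
  (.full 7 (.dec 9 10 (.emb 17 [1,0,3,4,2,7,8,5,6,9,11,10]) (.dec 9 11 (.emb 1 [7,11,9]) (.fresh 9
  .big (.dec 11 10 (.emb 1 [6,11,10]) (.fresh 11 .big (.fresh 10 .big (.low 10)))))))) (.fresh 7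
  .big (.adj2 3 7)))) (.dec 7 10 (.dec 7 11 (.emb 2 [6,11,7,10]) (.fresh 7 .big (.adj2 3 7)))
  (.dec 7 11 (.fresh 7 .big (.adj2 3 7)) (.fresh 7 .big (.low 7)))))) (.dec 7 9 (.dec 7 10 (.full
  7 (.dec 9 10 (.emb 1 [7,9,10]) (.fresh 9 (.full 9 (.dec 10 11 (.emb 2 [7,9,11,10]) (.fresh 10
  .big (.adj2 6 10)))) (.fresh 10 (.full 10 (.fresh 11 .big (.low 11))) .cap)))) (.fresh 7 (.full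
  7 (.dec 9 10 (.full 9 (.dec 10 11 (.emb 2 [7,11,10,9]) (.fresh 10 .big (.adj2 6 10)))) (.dec 9
  11 (.emb 1 [7,11,9]) (.fresh 9 .big (.dec 10 11 (.fresh 10 .big .cap) (.fresh 10 .big (.low
  10))))))) (.adj2 3 7))) (.dec 7 10 (.fresh 7 (.full 7 (.dec 10 9 (.full 10 (.dec 9 11 (.emb 2
  [7,11,9,10]) (.fresh 9 .big (.fresh 11 .big (.low 11))))) (.dec 10 11 (.emb 1 [7,11,10]) (.fresh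
  10 .big (.adj2 6 10))))) (.adj2 3 7)) (.fresh 7 (.fresh 7 .big (.adj2 3 7)) (.low 7))))) (.low
  6)))

def s12_75 : Cs :=
  (.fresh 6 (.full 6 (.dec 7 8 (.full 7 (.dec 8 9 (.emb 9 [2,5,0,1,4,8,9,3,6,7]) (.dec 8 10 (.emb
  9 [2,5,0,1,4,8,10,3,6,7]) (.dec 8 11 (.emb 2 [6,11,8,7]) (.fresh 8 .big (.adj2 4 8)))))) (.dec 7
  9 (.full 7 (.dec 9 8 (.emb 9 [1,4,0,2,5,9,8,6,3,7]) (.dec 9 10 (.emb 1 [5,9,10]) (.dec 9 11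
  (.emb 2 [6,11,9,7]) (.fresh 9 .big (.dec 8 10 (.dec 8 11 (.emb 16 [1,3,4,0,7,8,2,6,9,11,10,5])
  (.fresh 8 .big (.adj2 4 8))) (.dec 8 11 (.fresh 8 .big (.adj2 4 8)) (.fresh 8 .big (.low
  8))))))))) (.dec 7 10 (.full 7 (.dec 10 8 (.emb 9 [1,4,0,2,5,10,8,6,3,7]) (.dec 10 9 (.emb 1
  [5,9,10]) (.dec 10 11 (.emb 2 [6,11,10,7]) (.fresh 10 .big (.dec 8 9 (.dec 8 11 (.emb 16
  [1,3,4,0,7,8,2,6,10,11,9,5]) (.fresh 8 .big (.adj2 4 8))) (.dec 8 11 (.fresh 8 .big (.adj2 4 8))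
  (.fresh 8 .big (.low 8))))))))) (.dec 7 11 (.emb 1 [6,11,7]) (.fresh 7 .big (.adj2 3 7)))))))
  (.dec 7 8 (.full 7 (.dec 8 9 (.emb 9 [2,5,0,1,4,8,9,3,6,7]) (.dec 8 10 (.emb 9
  [2,5,0,1,4,8,10,3,6,7]) (.fresh 8 (.full 8 (.dec 9 10 (.emb 1 [5,9,10]) (.dec 9 11 (.fresh 9
  .big (.dec 11 10 (.emb 2 [5,9,11,10]) (.fresh 11 .big (.adj2 9 11)))) (.fresh 9 .big (.low
  9))))) (.adj2 4 8))))) (.dec 7 9 (.full 7 (.dec 9 8 (.emb 9 [1,4,0,2,5,9,8,6,3,7]) (.dec 9 10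
  (.emb 1 [5,9,10]) (.fresh 9 (.full 9 (.dec 8 10 (.dec 8 11 (.emb 15 [1,0,4,3,2,8,7,6,5,10,11,9])
  (.fresh 8 .big (.adj2 4 8))) (.dec 8 11 (.fresh 8 .big (.adj2 4 8)) (.fresh 8 .big (.low 8)))))
  (.dec 8 10 (.fresh 8 (.full 8 (.dec 10 11 (.emb 1 [8,10,11]) (.fresh 10 .big (.fresh 11 .big
  (.low 11))))) (.adj2 4 8)) (.fresh 8 (.fresh 8 .big (.adj2 4 8)) (.low 8))))))) (.dec 7 10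
  (.full 7 (.dec 10 8 (.emb 9 [1,4,0,2,5,10,8,6,3,7]) (.dec 10 9 (.emb 1 [5,9,10]) (.fresh 10
  (.full 10 (.dec 8 9 (.dec 8 11 (.emb 15 [1,0,4,3,2,8,7,6,5,9,11,10]) (.fresh 8 .big (.adj2 4
  8))) (.dec 8 11 (.fresh 8 .big (.adj2 4 8)) (.fresh 8 .big (.low 8))))) (.dec 8 9 (.fresh 8
  (.full 8 (.dec 9 11 (.emb 1 [8,9,11]) (.fresh 9 .big (.fresh 11 .big (.low 11))))) (.adj2 4 8))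
  (.fresh 8 (.fresh 8 .big (.adj2 4 8)) (.low 8))))))) (.fresh 7 (.full 7 (.dec 8 9 (.dec 8 10
  (.emb 2 [5,9,8,10]) (.dec 8 11 (.full 8 (.dec 9 10 (.emb 1 [5,9,10]) (.dec 9 11 (.emb 1
  [8,9,11]) (.fresh 9 .big (.dec 11 10 (.emb 17 [1,0,4,3,2,8,7,6,5,11,9,10]) (.fresh 11 .big
  (.fresh 10 .big (.low 10)))))))) (.fresh 8 .big (.adj2 4 8)))) (.dec 8 10 (.dec 8 11 (.full 8
  (.dec 10 9 (.emb 1 [5,9,10]) (.dec 10 11 (.emb 1 [8,10,11]) (.fresh 10 .big (.dec 11 9 (.emb 17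
  [1,0,4,3,2,8,7,6,5,11,10,9]) (.fresh 11 .big (.fresh 9 .big (.low 9)))))))) (.fresh 8 .big
  (.adj2 4 8))) (.dec 8 11 (.fresh 8 .big (.adj2 4 8)) (.fresh 8 .big (.low 8)))))) (.adj2 6
  7))))))

def s12_76 : Cs :=
  (.fresh 6 (.full 6 (.dec 8 7 (.full 8 (.dec 7 9 (.emb 9 [2,5,0,1,3,7,9,4,6,8]) (.dec 7 10 (.emb
  9 [2,5,0,1,3,7,10,4,6,8]) (.dec 7 11 (.emb 2 [6,8,7,11]) (.fresh 7 .big (.adj2 3 7)))))) (.dec 8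
  9 (.full 8 (.dec 9 7 (.emb 9 [1,3,0,2,5,9,7,6,4,8]) (.dec 9 10 (.emb 1 [5,9,10]) (.dec 9 11
  (.emb 2 [6,8,9,11]) (.fresh 9 .big (.dec 7 10 (.dec 7 11 (.emb 16 [1,4,3,0,8,7,2,6,9,11,10,5])
  (.fresh 7 .big (.adj2 3 7))) (.dec 7 11 (.fresh 7 .big (.adj2 3 7)) (.fresh 7 .big (.low
  7))))))))) (.dec 8 10 (.full 8 (.dec 10 7 (.emb 9 [1,3,0,2,5,10,7,6,4,8]) (.dec 10 9 (.emb 1
  [5,9,10]) (.dec 10 11 (.emb 2 [6,8,10,11]) (.fresh 10 .big (.dec 7 9 (.dec 7 11 (.emb 16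
  [1,4,3,0,8,7,2,6,10,11,9,5]) (.fresh 7 .big (.adj2 3 7))) (.dec 7 11 (.fresh 7 .big (.adj2 3 7))
  (.fresh 7 .big (.low 7))))))))) (.dec 8 11 (.emb 1 [6,8,11]) (.fresh 8 .big (.adj2 4 8)))))))
  (.dec 8 7 (.full 8 (.dec 7 9 (.emb 9 [2,5,0,1,3,7,9,4,6,8]) (.dec 7 10 (.emb 9
  [2,5,0,1,3,7,10,4,6,8]) (.fresh 7 (.full 7 (.dec 9 10 (.emb 1 [5,9,10]) (.dec 9 11 (.fresh 9
  .big (.dec 11 10 (.emb 2 [5,9,11,10]) (.fresh 11 .big (.adj2 9 11)))) (.fresh 9 .big (.low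
  9))))) (.adj2 3 7))))) (.dec 8 9 (.full 8 (.dec 9 7 (.emb 9 [1,3,0,2,5,9,7,6,4,8]) (.dec 9 10
  (.emb 1 [5,9,10]) (.fresh 9 (.full 9 (.dec 7 10 (.dec 7 11 (.emb 15 [1,0,3,4,2,7,8,6,5,10,11,9])
  (.fresh 7 .big (.adj2 3 7))) (.dec 7 11 (.fresh 7 .big (.adj2 3 7)) (.fresh 7 .big (.low 7)))))
  (.dec 7 10 (.fresh 7 (.full 7 (.dec 10 11 (.emb 1 [7,11,10]) (.fresh 10 .big (.fresh 11 .big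
  (.low 11))))) (.adj2 3 7)) (.fresh 7 (.fresh 7 .big (.adj2 3 7)) (.low 7))))))) (.dec 8 10
  (.full 8 (.dec 10 7 (.emb 9 [1,3,0,2,5,10,7,6,4,8]) (.dec 10 9 (.emb 1 [5,9,10]) (.fresh 10
  (.full 10 (.dec 7 9 (.dec 7 11 (.emb 15 [1,0,3,4,2,7,8,6,5,9,11,10]) (.fresh 7 .big (.adj2 3
  7))) (.dec 7 11 (.fresh 7 .big (.adj2 3 7)) (.fresh 7 .big (.low 7))))) (.dec 7 9 (.fresh 7
  (.full 7 (.dec 9 11 (.emb 1 [7,11,9]) (.fresh 9 .big (.fresh 11 .big (.low 11))))) (.adj2 3 7))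
  (.fresh 7 (.fresh 7 .big (.adj2 3 7)) (.low 7))))))) (.fresh 8 (.full 8 (.dec 7 9 (.dec 7 10
  (.emb 2 [5,9,7,10]) (.dec 7 11 (.full 7 (.dec 9 10 (.emb 1 [5,9,10]) (.dec 9 11 (.emb 1
  [7,11,9]) (.fresh 9 .big (.dec 11 10 (.emb 17 [1,0,3,4,2,7,8,6,5,11,9,10]) (.fresh 11 .big
  (.fresh 10 .big (.low 10)))))))) (.fresh 7 .big (.adj2 3 7)))) (.dec 7 10 (.dec 7 11 (.full 7
  (.dec 10 9 (.emb 1 [5,9,10]) (.dec 10 11 (.emb 1 [7,11,10]) (.fresh 10 .big (.dec 11 9 (.emb 17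
  [1,0,3,4,2,7,8,6,5,11,10,9]) (.fresh 11 .big (.fresh 9 .big (.low 9)))))))) (.fresh 7 .big
  (.adj2 3 7))) (.dec 7 11 (.fresh 7 .big (.adj2 3 7)) (.fresh 7 .big (.low 7)))))) (.adj2 6
  8))))))

def s12_77 : Cs :=
  (.dec 7 8 (.dec 7 9 (.full 7 (.dec 8 9 (.emb 1 [7,8,9]) (.dec 8 10 (.emb 11
  [7,9,5,10,3,8,2,0,4,1]) (.dec 8 11 (.full 8 (.dec 9 10 (.emb 1 [5,9,10]) (.dec 9 11 (.emb 2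
  [7,8,11,9]) (.fresh 9 .big (.dec 11 10 (.emb 18 [1,0,4,3,2,8,7,6,5,11,9,10]) (.fresh 11 .big
  (.adj2 6 11))))))) (.fresh 8 .big (.adj2 4 8)))))) (.dec 7 10 (.full 7 (.dec 8 9 (.emb 11
  [7,10,5,9,3,8,2,0,4,1]) (.dec 8 10 (.emb 1 [7,8,10]) (.dec 8 11 (.full 8 (.dec 10 9 (.emb 1
  [5,9,10]) (.dec 10 11 (.emb 2 [7,8,11,10]) (.fresh 10 .big (.dec 11 9 (.emb 18
  [1,0,4,3,2,8,7,6,5,11,10,9]) (.fresh 11 .big (.adj2 6 11))))))) (.fresh 8 .big (.adj2 4 8))))))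
  (.dec 7 11 (.full 7 (.dec 8 9 (.full 8 (.dec 9 10 (.emb 1 [5,9,10]) (.dec 9 11 (.emb 2
  [7,8,9,11]) (.fresh 9 .big (.dec 11 10 (.emb 18 [1,0,3,4,2,7,8,6,5,11,9,10]) (.fresh 11 .big
  (.adj2 6 11))))))) (.dec 8 10 (.full 8 (.dec 10 9 (.emb 1 [5,9,10]) (.dec 10 11 (.emb 2
  [7,8,10,11]) (.fresh 10 .big (.dec 11 9 (.emb 18 [1,0,3,4,2,7,8,6,5,11,10,9]) (.fresh 11 .big
  (.adj2 6 11))))))) (.dec 8 11 (.emb 1 [7,8,11]) (.fresh 8 .big (.adj2 4 8)))))) (.fresh 7 .big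
  (.adj2 3 7))))) (.dec 7 9 (.dec 7 10 (.emb 2 [5,9,7,10]) (.dec 7 11 (.full 7 (.dec 9 8 (.full 9
  (.dec 8 10 (.emb 2 [5,9,8,10]) (.dec 8 11 (.emb 2 [7,11,8,9]) (.fresh 8 .big (.adj2 4 8)))))
  (.dec 9 10 (.emb 1 [5,9,10]) (.dec 9 11 (.emb 1 [7,11,9]) (.fresh 9 .big (.dec 11 8 (.full 11
  (.dec 8 10 (.emb 4 [2,5,9,10,7,11,8,6]) (.fresh 8 .big (.adj2 4 8)))) (.dec 11 10 (.emb 3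
  [5,9,2,10,6,7,11]) (.fresh 11 .big (.adj2 6 11))))))))) (.fresh 7 .big (.adj2 3 7)))) (.dec 7 10
  (.dec 7 11 (.full 7 (.dec 10 8 (.full 10 (.dec 8 9 (.emb 2 [5,9,8,10]) (.dec 8 11 (.emb 2
  [7,11,8,10]) (.fresh 8 .big (.adj2 4 8))))) (.dec 10 9 (.emb 1 [5,9,10]) (.dec 10 11 (.emb 1
  [7,11,10]) (.fresh 10 .big (.dec 11 8 (.full 11 (.dec 8 9 (.emb 4 [2,5,9,10,8,11,7,6]) (.fresh 8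
  .big (.adj2 4 8)))) (.dec 11 9 (.emb 3 [5,2,10,9,7,6,11]) (.fresh 11 .big (.adj2 6 11)))))))))
  (.fresh 7 .big (.adj2 3 7))) (.dec 7 11 (.fresh 7 .big (.adj2 3 7)) (.fresh 7 .big (.low 7))))))

def s12_78 : Cs :=
  (.fresh 6 (.full 6 (.dec 7 8 (.full 7 (.dec 8 9 (.emb 9 [2,5,0,1,4,8,9,3,6,7]) (.dec 8 10 (.emb
  2 [6,10,8,7]) (.fresh 8 (.full 8 (.dec 9 10 (.dec 9 11 (.emb 19 [1,0,4,3,2,8,7,6,5,11,10,9])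
  (.fresh 9 .big (.adj2 5 9))) (.dec 9 11 (.fresh 9 .big (.adj2 5 9)) (.fresh 9 .big (.low 9)))))
  (.adj2 4 8))))) (.dec 7 9 (.full 7 (.dec 9 8 (.emb 9 [1,4,0,2,5,9,8,6,3,7]) (.dec 9 10 (.emb 2
  [6,10,9,7]) (.fresh 9 (.full 9 (.dec 8 10 (.dec 8 11 (.emb 16 [1,0,4,3,2,8,7,6,5,10,11,9])
  (.fresh 8 .big (.adj2 4 8))) (.dec 8 11 (.fresh 8 .big (.adj2 4 8)) (.fresh 8 .big (.low 8)))))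
  (.adj2 5 9))))) (.dec 7 10 (.emb 1 [6,10,7]) (.fresh 7 (.full 7 (.dec 8 9 (.dec 8 10 (.full 8
  (.dec 9 10 (.emb 1 [8,9,10]) (.dec 9 11 (.emb 4 [2,6,10,7,8,9,11,5]) (.fresh 9 .big (.adj2 5
  9))))) (.dec 8 11 (.full 8 (.dec 9 10 (.emb 17 [1,4,0,3,8,2,7,11,9,6,5,10]) (.dec 9 11 (.emb 1
  [8,9,11]) (.fresh 9 .big (.adj2 5 9))))) (.fresh 8 .big (.adj2 4 8)))) (.dec 8 10 (.dec 8 11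
  (.emb 9 [1,0,4,8,10,6,2,11,3,7]) (.fresh 8 .big (.adj2 4 8))) (.dec 8 11 (.fresh 8 .big (.adj2 4
  8)) (.fresh 8 .big (.low 8)))))) (.adj2 3 7)))))) (.dec 7 8 (.full 7 (.dec 8 9 (.emb 9
  [2,5,0,1,4,8,9,3,6,7]) (.fresh 8 (.full 8 (.dec 9 10 (.fresh 9 (.full 9 (.dec 10 11 (.emb 1
  [9,10,11]) (.fresh 10 .big (.fresh 11 .big (.low 11))))) (.adj2 5 9)) (.fresh 9 (.fresh 9 .big
  (.adj2 5 9)) (.low 9)))) (.adj2 4 8)))) (.dec 7 9 (.full 7 (.dec 9 8 (.emb 9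
  [1,4,0,2,5,9,8,6,3,7]) (.fresh 9 (.full 9 (.dec 8 10 (.fresh 8 (.full 8 (.dec 10 11 (.emb 1
  [8,10,11]) (.fresh 10 .big (.fresh 11 .big (.low 11))))) (.adj2 4 8)) (.fresh 8 (.fresh 8 .big
  (.adj2 4 8)) (.low 8)))) (.adj2 5 9)))) (.fresh 7 (.full 7 (.dec 8 9 (.dec 8 10 (.full 8 (.dec 9
  10 (.emb 1 [8,9,10]) (.fresh 9 (.full 9 (.dec 10 11 (.emb 2 [8,9,11,10]) (.fresh 10 .big (.fresh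
  11 .big (.low 11))))) (.adj2 5 9)))) (.fresh 8 (.full 8 (.dec 9 10 (.full 9 (.dec 10 11 (.emb 2
  [8,9,10,11]) (.fresh 10 .big (.fresh 11 .big (.low 11))))) (.dec 9 11 (.emb 1 [8,9,11]) (.fresh
  9 .big (.adj2 5 9))))) (.adj2 4 8))) (.dec 8 10 (.fresh 8 (.full 8 (.dec 10 9 (.full 10 (.dec 9
  11 (.emb 2 [8,10,9,11]) (.fresh 9 .big (.adj2 5 9)))) (.dec 10 11 (.emb 1 [8,10,11]) (.fresh 10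
  .big (.dec 9 11 (.fresh 9 .big .cap) (.fresh 9 .big (.low 9))))))) (.adj2 4 8)) (.fresh 8
  (.fresh 8 .big (.adj2 4 8)) (.low 8))))) (.adj2 6 7)))))

def s12_79 : Cs :=
  (.fresh 6 (.full 6 (.dec 8 7 (.full 8 (.dec 7 9 (.emb 9 [2,5,0,1,3,7,9,4,6,8]) (.dec 7 10 (.emb
  2 [6,8,7,10]) (.fresh 7 (.full 7 (.dec 9 10 (.dec 9 11 (.emb 19 [1,0,3,4,2,7,8,6,5,11,10,9])
  (.fresh 9 .big (.adj2 5 9))) (.dec 9 11 (.fresh 9 .big (.adj2 5 9)) (.fresh 9 .big (.low 9)))))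
  (.adj2 3 7))))) (.dec 8 9 (.full 8 (.dec 9 7 (.emb 9 [1,3,0,2,5,9,7,6,4,8]) (.dec 9 10 (.emb 2
  [6,8,9,10]) (.fresh 9 (.full 9 (.dec 7 10 (.dec 7 11 (.emb 16 [1,0,3,4,2,7,8,6,5,10,11,9])
  (.fresh 7 .big (.adj2 3 7))) (.dec 7 11 (.fresh 7 .big (.adj2 3 7)) (.fresh 7 .big (.low 7)))))
  (.adj2 5 9))))) (.dec 8 10 (.emb 1 [6,8,10]) (.fresh 8 (.full 8 (.dec 7 9 (.dec 7 10 (.full 7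
  (.dec 9 10 (.emb 1 [7,9,10]) (.dec 9 11 (.emb 4 [2,6,8,10,11,9,7,5]) (.fresh 9 .big (.adj2 5
  9))))) (.dec 7 11 (.full 7 (.dec 9 10 (.emb 17 [1,3,0,4,7,2,8,11,9,6,5,10]) (.dec 9 11 (.emb 1
  [7,11,9]) (.fresh 9 .big (.adj2 5 9))))) (.fresh 7 .big (.adj2 3 7)))) (.dec 7 10 (.dec 7 11
  (.emb 9 [1,0,3,7,10,6,2,11,4,8]) (.fresh 7 .big (.adj2 3 7))) (.dec 7 11 (.fresh 7 .big (.adj2 3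
  7)) (.fresh 7 .big (.low 7)))))) (.adj2 4 8)))))) (.dec 8 7 (.full 8 (.dec 7 9 (.emb 9
  [2,5,0,1,3,7,9,4,6,8]) (.fresh 7 (.full 7 (.dec 9 10 (.fresh 9 (.full 9 (.dec 10 11 (.emb 1
  [9,10,11]) (.fresh 10 .big (.fresh 11 .big (.low 11))))) (.adj2 5 9)) (.fresh 9 (.fresh 9 .big
  (.adj2 5 9)) (.low 9)))) (.adj2 3 7)))) (.dec 8 9 (.full 8 (.dec 9 7 (.emb 9
  [1,3,0,2,5,9,7,6,4,8]) (.fresh 9 (.full 9 (.dec 7 10 (.fresh 7 (.full 7 (.dec 10 11 (.emb 1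
  [7,11,10]) (.fresh 10 .big (.fresh 11 .big (.low 11))))) (.adj2 3 7)) (.fresh 7 (.fresh 7 .big
  (.adj2 3 7)) (.low 7)))) (.adj2 5 9)))) (.fresh 8 (.full 8 (.dec 7 9 (.dec 7 10 (.full 7 (.dec 9
  10 (.emb 1 [7,9,10]) (.fresh 9 (.full 9 (.dec 10 11 (.emb 2 [7,9,11,10]) (.fresh 10 .big (.fresh
  11 .big (.low 11))))) (.adj2 5 9)))) (.fresh 7 (.full 7 (.dec 9 10 (.full 9 (.dec 10 11 (.emb 2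
  [7,11,10,9]) (.fresh 10 .big (.fresh 11 .big (.low 11))))) (.dec 9 11 (.emb 1 [7,11,9]) (.fresh
  9 .big (.adj2 5 9))))) (.adj2 3 7))) (.dec 7 10 (.fresh 7 (.full 7 (.dec 10 9 (.full 10 (.dec 9
  11 (.emb 2 [7,11,9,10]) (.fresh 9 .big (.adj2 5 9)))) (.dec 10 11 (.emb 1 [7,11,10]) (.fresh 10
  .big (.dec 9 11 (.fresh 9 .big .cap) (.fresh 9 .big (.low 9))))))) (.adj2 3 7)) (.fresh 7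
  (.fresh 7 .big (.adj2 3 7)) (.low 7))))) (.adj2 6 8)))))

def s12_80 : Cs :=
  (.dec 7 8 (.dec 7 9 (.full 7 (.dec 8 9 (.emb 1 [7,8,9]) (.dec 8 10 (.full 8 (.dec 9 10 (.emb 2
  [7,8,10,9]) (.fresh 9 (.full 9 (.dec 10 11 (.emb 15 [2,5,0,6,9,1,10,11,7,3,4,8]) (.fresh 10 .big
  (.adj2 6 10)))) (.adj2 5 9)))) (.fresh 8 (.full 8 (.dec 9 10 (.full 9 (.dec 10 11 (.emb 14
  [8,7,9,10,11,4,1,3,5,2,6]) (.fresh 10 .big (.adj2 6 10)))) (.dec 9 11 (.emb 2 [7,8,11,9])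
  (.fresh 9 .big (.adj2 5 9))))) (.adj2 4 8))))) (.dec 7 10 (.full 7 (.dec 8 9 (.full 8 (.dec 9 10
  (.emb 2 [7,8,9,10]) (.fresh 9 (.full 9 (.dec 10 11 (.emb 15 [2,5,0,6,9,1,10,11,8,4,3,7]) (.fresh
  10 .big (.adj2 6 10)))) (.adj2 5 9)))) (.dec 8 10 (.emb 1 [7,8,10]) (.fresh 8 (.full 8 (.dec 10
  9 (.full 10 (.dec 9 11 (.emb 14 [8,7,10,9,11,4,1,3,6,2,5]) (.fresh 9 .big (.adj2 5 9)))) (.dec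
  10 11 (.emb 2 [7,8,11,10]) (.fresh 10 .big (.adj2 6 10))))) (.adj2 4 8))))) (.fresh 7 (.full 7
  (.dec 8 9 (.full 8 (.dec 9 10 (.full 9 (.dec 10 11 (.emb 14 [7,8,9,10,11,3,1,4,5,2,6]) (.fresh
  10 .big (.adj2 6 10)))) (.dec 9 11 (.emb 2 [7,8,9,11]) (.fresh 9 .big (.adj2 5 9))))) (.dec 8 10
  (.full 8 (.dec 10 9 (.full 10 (.dec 9 11 (.emb 14 [7,8,10,9,11,3,1,4,6,2,5]) (.fresh 9 .big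
  (.adj2 5 9)))) (.dec 10 11 (.emb 2 [7,8,10,11]) (.fresh 10 .big (.adj2 6 10))))) (.dec 8 11
  (.emb 1 [7,8,11]) (.fresh 8 .big (.adj2 4 8)))))) (.adj2 3 7)))) (.dec 7 9 (.dec 7 10 (.full 7
  (.dec 9 8 (.full 9 (.dec 8 10 (.emb 2 [7,9,8,10]) (.fresh 8 (.full 8 (.dec 10 11 (.emb 16
  [1,4,0,3,8,2,7,9,11,5,6,10]) (.fresh 10 .big (.adj2 6 10)))) (.adj2 4 8)))) (.dec 9 10 (.emb 1
  [7,9,10]) (.fresh 9 (.full 9 (.dec 10 8 (.full 10 (.dec 8 11 (.emb 16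
  [1,4,0,3,8,2,7,10,11,6,5,9]) (.fresh 8 .big (.adj2 4 8)))) (.dec 10 11 (.emb 2 [7,9,11,10])
  (.fresh 10 .big (.adj2 6 10))))) (.adj2 5 9))))) (.fresh 7 (.full 7 (.dec 9 8 (.full 9 (.dec 8
  10 (.full 8 (.dec 10 11 (.emb 16 [1,3,0,4,7,2,8,9,11,5,6,10]) (.fresh 10 .big (.adj2 6 10))))
  (.dec 8 11 (.emb 2 [7,11,8,9]) (.fresh 8 .big (.adj2 4 8))))) (.dec 9 10 (.full 9 (.dec 10 8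
  (.full 10 (.dec 8 11 (.emb 15 [1,3,0,4,7,2,8,11,9,5,6,10]) (.fresh 8 .big (.adj2 4 8)))) (.dec
  10 11 (.emb 2 [7,11,10,9]) (.fresh 10 .big (.adj2 6 10))))) (.dec 9 11 (.emb 1 [7,11,9]) (.fresh
  9 .big (.adj2 5 9)))))) (.adj2 3 7))) (.dec 7 10 (.fresh 7 (.full 7 (.dec 10 8 (.full 10 (.dec 8
  9 (.full 8 (.dec 9 11 (.emb 16 [1,3,0,4,7,2,8,10,11,6,5,9]) (.fresh 9 .big (.adj2 5 9)))) (.dec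
  8 11 (.emb 2 [7,11,8,10]) (.fresh 8 .big (.adj2 4 8))))) (.dec 10 9 (.full 10 (.dec 9 8 (.full 9
  (.dec 8 11 (.emb 15 [1,3,0,4,7,2,8,11,10,6,5,9]) (.fresh 8 .big (.adj2 4 8)))) (.dec 9 11 (.emb
  2 [7,11,9,10]) (.fresh 9 .big (.adj2 5 9))))) (.dec 10 11 (.emb 1 [7,11,10]) (.fresh 10 .big
  (.adj2 6 10)))))) (.adj2 3 7)) (.fresh 7 (.fresh 7 .big (.adj2 3 7)) (.low 7)))))

def s12_81 : Cs :=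
  (.fresh 5 (.full 5 (.dec 6 7 (.dec 6 8 (.emb 4 [0,1,3,4,7,6,8,2]) (.dec 6 9 (.emb 2 [2,5,9,6])
  (.dec 6 10 (.emb 2 [2,5,10,6]) s12_75))) (.dec 6 8 (.dec 6 9 (.emb 2 [2,5,9,6]) (.dec 6 10 (.emb
  2 [2,5,10,6]) s12_76)) (.dec 6 9 (.emb 2 [2,5,9,6]) (.dec 6 10 (.emb 2 [2,5,10,6]) (.fresh 6
  (.fresh 6 .big s12_77) (.low 6))))))) (.dec 6 7 (.dec 6 8 (.emb 4 [0,1,3,4,7,6,8,2]) (.dec 6 9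
  (.emb 2 [2,5,9,6]) s12_78)) (.dec 6 8 (.dec 6 9 (.emb 2 [2,5,9,6]) s12_79) (.dec 6 9 (.emb 2
  [2,5,9,6]) (.fresh 6 (.fresh 6 (.full 6 (.dec 7 8 (.dec 7 9 (.full 7 (.dec 8 9 (.emb 1 [7,8,9])
  (.dec 8 10 (.full 8 (.dec 9 10 (.emb 2 [7,8,10,9]) (.dec 9 11 (.emb 18
  [1,0,3,4,2,7,8,5,6,9,10,11]) (.fresh 9 .big (.adj2 5 9))))) (.dec 8 11 (.full 8 (.dec 9 10 (.emb
  18 [1,0,3,4,2,7,8,5,6,9,11,10]) (.dec 9 11 (.emb 2 [7,8,11,9]) (.fresh 9 .big (.adj2 5 9)))))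
  (.fresh 8 .big (.adj2 4 8)))))) (.dec 7 10 (.full 7 (.dec 8 9 (.full 8 (.dec 9 10 (.emb 2
  [7,8,9,10]) (.dec 9 11 (.emb 18 [1,0,4,3,2,8,7,5,6,9,10,11]) (.fresh 9 .big (.adj2 5 9)))))
  (.dec 8 10 (.emb 1 [7,8,10]) (.dec 8 11 (.emb 11 [7,10,6,11,3,8,2,0,4,1]) (.fresh 8 .big (.adj2
  4 8)))))) (.dec 7 11 (.full 7 (.dec 8 9 (.full 8 (.dec 9 10 (.emb 18
  [1,0,4,3,2,8,7,5,6,9,11,10]) (.dec 9 11 (.emb 2 [7,8,9,11]) (.fresh 9 .big (.adj2 5 9))))) (.dec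
  8 10 (.emb 11 [7,11,6,10,3,8,2,0,4,1]) (.dec 8 11 (.emb 1 [7,8,11]) (.fresh 8 .big (.adj2 4
  8)))))) (.fresh 7 .big (.adj2 3 7))))) (.dec 7 9 (.dec 7 10 (.full 7 (.dec 9 8 (.full 9 (.dec 8
  10 (.emb 2 [7,9,8,10]) (.dec 8 11 (.emb 4 [2,6,11,10,8,9,7,5]) (.fresh 8 .big (.adj2 4 8)))))
  (.dec 9 10 (.emb 1 [7,9,10]) (.dec 9 11 (.emb 3 [6,2,10,11,7,5,9]) (.fresh 9 .big (.adj2 5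
  9)))))) (.dec 7 11 (.full 7 (.dec 9 8 (.full 9 (.dec 8 10 (.emb 4 [2,6,11,10,7,9,8,5]) (.dec 8
  11 (.emb 2 [7,11,8,9]) (.fresh 8 .big (.adj2 4 8))))) (.dec 9 10 (.emb 3 [6,11,2,10,5,7,9])
  (.dec 9 11 (.emb 1 [7,11,9]) (.fresh 9 .big (.adj2 5 9)))))) (.fresh 7 .big (.adj2 3 7)))) (.dec
  7 10 (.dec 7 11 (.emb 2 [6,11,7,10]) (.fresh 7 .big (.adj2 3 7))) (.dec 7 11 (.fresh 7 .big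
  (.adj2 3 7)) (.fresh 7 .big (.low 7))))))) s12_80) (.low 6))))))

def s12_82 : Cs :=
  (.dec 5 7 (.dec 5 8 (.emb 4 [0,1,3,4,7,5,8,2]) (.fresh 5 (.full 5 (.dec 7 6 (.emb 2 [2,5,7,6])
  s12_71)) (.dec 7 6 (.emb 2 [2,5,7,6]) (.dec 7 8 (.full 7 (.dec 8 6 (.emb 5 [7,3,1,5,0,8,2,6,4])
  (.fresh 8 (.full 8 (.dec 6 9 (.emb 9 [2,6,0,1,4,8,9,3,5,7]) (.fresh 6 (.fresh 6 (.full 6 (.dec 9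
  10 (.dec 9 11 (.emb 2 [6,11,9,10]) (.fresh 9 .big (.dec 10 11 (.emb 1 [6,11,10]) (.fresh 10 .big
  (.adj2 9 10))))) (.dec 9 11 (.fresh 9 .big (.dec 11 10 (.emb 1 [6,11,10]) (.fresh 11 .big (.adj2
  9 11)))) (.fresh 9 .big (.low 9))))) (.dec 9 10 (.fresh 9 (.full 9 (.dec 10 11 (.emb 1
  [9,10,11]) (.fresh 10 .big (.adj2 6 10)))) (.fresh 10 (.full 10 (.fresh 11 .big (.low 11)))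
  .cap)) (.fresh 9 (.fresh 9 .big (.dec 10 11 (.fresh 10 .big .cap) (.fresh 10 .big (.low 10))))
  (.low 9)))) (.low 6)))) (.adj2 4 8)))) (.fresh 7 (.full 7 (.dec 6 8 (.dec 6 9 (.emb 9
  [1,4,3,7,9,6,8,5,0,2]) (.fresh 6 (.full 6 (.dec 8 9 (.emb 12 [0,1,3,7,5,2,6,4,9,8]) (.dec 8 10
  (.emb 1 [6,8,10]) (.fresh 8 (.full 8 (.dec 9 10 (.dec 9 11 (.emb 17 [1,3,4,0,7,8,2,5,9,6,11,10])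
  (.fresh 9 .big (.dec 10 11 (.emb 2 [6,8,11,10]) (.fresh 10 .big (.adj2 9 10))))) (.dec 9 11
  (.fresh 9 .big (.dec 11 10 (.emb 2 [6,8,11,10]) (.fresh 11 .big (.adj2 9 11)))) (.fresh 9 .big
  (.low 9))))) (.adj2 4 8))))) (.dec 8 9 (.emb 12 [0,1,3,7,5,2,6,4,9,8]) (.fresh 8 (.full 8 (.dec
  9 10 (.fresh 9 (.full 9 (.dec 10 11 (.emb 1 [9,10,11]) (.fresh 10 .big (.fresh 11 .big (.low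
  11))))) (.fresh 10 (.full 10 (.fresh 11 .big (.low 11))) .cap)) (.fresh 9 (.fresh 9 .big (.dec
  10 11 (.fresh 10 .big .cap) (.fresh 10 .big (.low 10)))) (.low 9)))) (.adj2 6 8))))) s12_72))
  (.adj2 5 7)))))) (.dec 5 8 (.fresh 5 (.full 5 (.dec 8 6 (.emb 2 [2,5,8,6]) s12_73)) (.dec 8 6
  (.emb 2 [2,5,8,6]) (.dec 8 7 (.full 8 (.dec 7 6 (.emb 5 [7,3,1,6,0,8,2,5,4]) (.fresh 7 (.full 7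
  (.dec 6 9 (.emb 9 [2,6,0,1,3,7,9,4,5,8]) (.fresh 6 (.fresh 6 (.full 6 (.dec 9 10 (.dec 9 11
  (.emb 2 [6,11,9,10]) (.fresh 9 .big (.dec 10 11 (.emb 1 [6,11,10]) (.fresh 10 .big (.adj2 9
  10))))) (.dec 9 11 (.fresh 9 .big (.dec 11 10 (.emb 1 [6,11,10]) (.fresh 11 .big (.adj2 9 11))))
  (.fresh 9 .big (.low 9))))) (.dec 9 10 (.fresh 9 (.full 9 (.dec 10 11 (.emb 1 [9,10,11]) (.fresh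
  10 .big (.adj2 6 10)))) (.fresh 10 (.full 10 (.fresh 11 .big (.low 11))) .cap)) (.fresh 9
  (.fresh 9 .big (.dec 10 11 (.fresh 10 .big .cap) (.fresh 10 .big (.low 10)))) (.low 9)))) (.low
  6)))) (.adj2 3 7)))) (.fresh 8 (.full 8 (.dec 6 7 (.dec 6 9 (.emb 9 [1,3,4,8,9,6,7,5,0,2])
  (.fresh 6 (.full 6 (.dec 7 9 (.emb 12 [0,1,3,7,6,2,5,4,9,8]) (.dec 7 10 (.emb 1 [6,10,7])
  (.fresh 7 (.full 7 (.dec 9 10 (.dec 9 11 (.emb 17 [1,4,3,0,8,7,2,5,9,6,11,10]) (.fresh 9 .big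
  (.dec 10 11 (.emb 2 [6,10,11,7]) (.fresh 10 .big (.adj2 9 10))))) (.dec 9 11 (.fresh 9 .big
  (.dec 11 10 (.emb 2 [6,10,11,7]) (.fresh 11 .big (.adj2 9 11)))) (.fresh 9 .big (.low 9)))))
  (.adj2 3 7))))) (.dec 7 9 (.emb 12 [0,1,3,7,6,2,5,4,9,8]) (.fresh 7 (.full 7 (.dec 9 10 (.fresh
  9 (.full 9 (.dec 10 11 (.emb 1 [9,10,11]) (.fresh 10 .big (.fresh 11 .big (.low 11))))) (.fresh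
  10 (.full 10 (.fresh 11 .big (.low 11))) .cap)) (.fresh 9 (.fresh 9 .big (.dec 10 11 (.fresh 10
  .big .cap) (.fresh 10 .big (.low 10)))) (.low 9)))) (.adj2 6 7))))) s12_74)) (.adj2 5 8)))))
  (.fresh 5 s12_81 (.low 5))))

def cert12 : Cs :=
  (.fresh 0 (.fresh 0 (.full 0 (.dec 1 2 (.emb 1 [0,1,2]) (.fresh 1 (.fresh 1 (.full 1 (.dec 2 3
  (.emb 2 [0,1,3,2]) (.dec 2 4 (.emb 2 [0,1,4,2]) (.fresh 2 (.fresh 2 (.full 2 (.dec 3 4 (.emb 1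
  [1,3,4]) (.dec 3 5 (.dec 3 6 (.emb 2 [2,5,3,6]) s12_10) (.dec 3 6 s12_21 (.fresh 3 (.fresh 3
  (.full 3 (.dec 4 5 (.dec 4 6 (.emb 2 [2,5,4,6]) (.dec 4 7 (.emb 2 [1,3,7,4]) (.dec 4 8 (.emb 2
  [1,3,8,4]) (.fresh 4 (.full 4 (.dec 5 6 (.emb 1 [2,5,6]) (.dec 5 7 (.emb 3 [1,0,3,4,7,2,5])
  (.dec 5 8 (.emb 3 [1,0,3,4,8,2,5]) (.dec 5 9 (.emb 1 [4,5,9]) s12_23))))) (.dec 5 6 (.emb 1
  [2,5,6]) (.dec 5 7 (.emb 3 [1,0,3,4,7,2,5]) (.dec 5 8 (.emb 3 [1,0,3,4,8,2,5]) s12_25)))))))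
  s12_48)) (.dec 4 5 (.dec 4 6 (.emb 2 [2,5,4,6]) (.dec 4 7 (.emb 2 [1,3,7,4]) (.fresh 4 (.full 4
  (.dec 5 6 (.emb 1 [2,5,6]) (.dec 5 7 (.emb 3 [1,0,3,4,7,2,5]) (.dec 5 8 (.emb 1 [4,8,5]) (.fresh
  5 (.full 5 s12_49) s12_51))))) (.dec 5 6 (.emb 1 [2,5,6]) (.dec 5 7 (.emb 3 [1,0,3,4,7,2,5])
  (.fresh 5 (.full 5 s12_53) (.adj2 4 5))))))) (.dec 4 6 (.dec 4 7 (.emb 2 [1,3,7,4]) (.fresh 4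
  (.full 4 (.dec 6 5 (.emb 1 [2,5,6]) (.dec 6 7 (.emb 3 [1,0,3,4,7,2,6]) (.dec 6 8 (.emb 1
  [4,8,6]) (.fresh 6 (.full 6 s12_54) s12_56))))) (.dec 6 5 (.emb 1 [2,5,6]) (.dec 6 7 (.emb 3
  [1,0,3,4,7,2,6]) (.fresh 6 (.full 6 s12_58) (.adj2 4 6)))))) (.dec 4 7 (.emb 2 [1,3,7,4])
  (.fresh 4 (.fresh 4 (.full 4 (.dec 5 6 (.emb 1 [2,5,6]) s12_70)) (.dec 5 6 (.emb 1 [2,5,6])
  s12_82)) (.low 4)))))) (.low 3)))))) (.adj2 0 2)) (.low 2))))) (.adj2 0 1)) (.low 1)))) (.low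
  0)) (.low 0))

theorem cert12_ok : chk3 cfgs12 cert12 1 [] [] [] = true := by decide +kernel

end Pool.Agent.TH372.BFR
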