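import Pool.Agent.TH372.BFR.CapApp

set_option autoImplicit false

/-! The final forms of the statements. -/

namespace Pool.Agent.TH372.BFR

open Finset

theorem cut_eq {V E : Type} [Fintype E] (s t : E → V) (Z : Set V) :
    Nat.card {e : E // ¬ (s e ∈ Z ↔ t e ∈ Z)} = cut s t Z := by
  classical
  unfold cut
  rw [Nat.card_eq_fintype_card, Fintype.card_subtype]

theorem cut_seven {V E : Type} [Fintype V] [Fintype E] {s t : E → V} (hS : Smallest s t)
    (Z : Set V) (hZ : Nat.card Z = 7 ∨ Nat.card Z = 9) :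
    7 ≤ Nat.card {e : E // ¬ (s e ∈ Z ↔ t e ∈ Z)} := by
  rw [cut_eq]
  rw [Nat.card_coe_set_eq] at hZ
  have h := cut_ge hS Z (by omega) (by omega)
  rcases hZ with hZ | hZ <;> rw [hZ] at h
  · have h2 : gB 7 = 7 := by decide
    omega
  · have h2 : gB 9 = 10 := by decide
    omega

theorem cut_ten {V E : Type} [Fintype V] [Fintype E] {s t : E → V} (hS : Smallest s t)
    (Z : Set V) (hZ : Nat.card Z = 10) : 8 ≤ Nat.card {e : E // ¬ (s e ∈ Z ↔ t e ∈ Z)} := by
  rw [cut_eq]
  rw [Nat.card_coe_set_eq] at hZ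
  have h := cut_ge hS Z (by omega) (by omega)
  rw [hZ] at h
  have h2 : gB 10 = 11 := by decide
  omega

theorem no_theta333 {V E : Type} [Fintype V] [Fintype E] {s t : E → V} (hS : Smallest s t) :
    ¬ HasSub s t 8 [(0, 2), (2, 3), (3, 1), (0, 4), (4, 5), (5, 1), (0, 6), (6, 7), (7, 1)] := by
  rintro ⟨φ, hφ, h⟩
  refine N8x3.no_sub hS ⟨fun i => φ ((![2, 0, 4, 6, 5, 1, 7, 3] : Fin 8 → Fin 8) i), ?_, ?_⟩
  · intro i j hij
    have h1 : Function.Injective (![2, 0, 4, 6, 5, 1, 7, 3] : Fin 8 → Fin 8) := by decide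
    exact h1 (hφ hij)
  · intro p hp
    simp only [N8x3.L, List.mem_cons, List.not_mem_nil, or_false] at hp
    rcases hp with rfl | rfl | rfl | rfl | rfl | rfl | rfl | rfl | rfl
    · exact (h (0, 2) (by decide)).symm
    · exact h (0, 4) (by decide)
    · exact h (0, 6) (by decide)
    · exact h (4, 5) (by decide)
    · exact h (5, 1) (by decide)
    · exact h (6, 7) (by decide)
    · exact h (2, 3) (by decide)
    · exact (h (7, 1) (by decide)).symm
    · exact (h (3, 1) (by decide)).symm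

end Pool.Agent.TH372.BFR
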