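import Pool.Agent.TH372.BFR.Lab

set_option autoImplicit false

/-! Codes of boundary colourings up to permutations of the six matchings, tables of codes with
ranks, and the induction on the rank. -/

namespace Pool.Agent.TH372.BFR

open Finset

/-- code of six subsets of the ports, invariant under permutations of the six subsets -/
def code {k : ℕ} (g : Fin 6 → Fin k → Bool) : ℕ := ∑ c : Fin 6, 8 ^ Nat.ofBits (g c)

theorem digit (m : Fin 6 → ℕ) (A : ℕ) :
    (∑ c, 8 ^ m c) / 8 ^ A % 8 = (univ.filter fun c => m c = A).card := by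
  have h8 : 0 < 8 ^ A := by positivity
  have h1 : ∑ c, 8 ^ m c = ∑ c ∈ univ.filter (fun c => m c < A), 8 ^ m c +
      (∑ c ∈ univ.filter (fun c => m c = A), 8 ^ m c +
        ∑ c ∈ univ.filter (fun c => A < m c), 8 ^ m c) := by
    rw [Finset.sum_filter, Finset.sum_filter, Finset.sum_filter, ← Finset.sum_add_distrib,
      ← Finset.sum_add_distrib]
    apply Finset.sum_congr rfl
    intro c _
    rcases lt_trichotomy (m c) A with h | h | h
    · simp [h, h.ne, h.not_gt]
    · simp [h]
    · simp [h, h.ne', h.not_gt]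
  have h2 : ∑ c ∈ univ.filter (fun c => m c < A), 8 ^ m c < 8 ^ A := by
    have h3 : 8 * ∑ c ∈ univ.filter (fun c => m c < A), 8 ^ m c ≤ 6 * 8 ^ A := by
      rw [Finset.mul_sum]
      calc ∑ c ∈ univ.filter (fun c => m c < A), 8 * 8 ^ m c
          ≤ ∑ c ∈ univ.filter (fun c => m c < A), 8 ^ A := by
            apply Finset.sum_le_sum
            intro c hc
            rw [mem_filter] at hc
            rw [← pow_succ']
            exact Nat.pow_le_pow_right (by norm_num) hc.2
        _ ≤ ∑ c : Fin 6, 8 ^ A := Finset.sum_le_sum_of_subset (filter_subset _ _)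
        _ = 6 * 8 ^ A := by simp
    omega
  have h3 : ∑ c ∈ univ.filter (fun c => m c = A), 8 ^ m c =
      8 ^ A * (univ.filter fun c => m c = A).card := by
    rw [Finset.sum_congr rfl (g := fun _ => 8 ^ A) (fun c hc => by
      rw [mem_filter] at hc; rw [hc.2]), Finset.sum_const, smul_eq_mul, mul_comm]
  have h4 : ∃ H, ∑ c ∈ univ.filter (fun c => A < m c), 8 ^ m c = 8 ^ A * (8 * H) := by
    refine ⟨∑ c ∈ univ.filter (fun c => A < m c), 8 ^ (m c - A - 1), ?_⟩
    rw [← mul_assoc, ← pow_succ, Finset.mul_sum]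
    apply Finset.sum_congr rfl
    intro c hc
    rw [mem_filter] at hc
    rw [← pow_add]
    congr 1
    omega
  obtain ⟨H, hH⟩ := h4
  rw [h1, h3, hH, ← mul_add, Nat.add_mul_div_left _ _ h8, Nat.div_eq_of_lt h2, zero_add]
  have h5 : (univ.filter fun c => m c = A).card ≤ 6 := by
    calc _ ≤ (univ : Finset (Fin 6)).card := card_filter_le _ _
      _ = 6 := by simp
  omega

theorem ofBits_inj {k : ℕ} {g g' : Fin k → Bool} (h : Nat.ofBits g = Nat.ofBits g') : g = g' := by
  funext p
  have h1 := Nat.testBit_ofBits_lt g p p.2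
  have h2 := Nat.testBit_ofBits_lt g' p p.2
  rw [h] at h1
  exact h1.symm.trans h2

theorem perm_of_code {k : ℕ} {g g' : Fin 6 → Fin k → Bool} (h : code g = code g') :
    ∃ σ : Equiv.Perm (Fin 6), ∀ c, g' (σ c) = g c := by
  have h1 : ∀ A, Nonempty ({c // Nat.ofBits (g c) = A} ≃ {c // Nat.ofBits (g' c) = A}) := by
    intro A
    refine ⟨Fintype.equivOfCardEq ?_⟩
    rw [Fintype.card_subtype, Fintype.card_subtype]
    have h2 := digit (fun c => Nat.ofBits (g c)) A
    have h3 := digit (fun c => Nat.ofBits (g' c)) A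
    rw [← h2, ← h3]
    unfold code at h
    rw [h]
  refine ⟨Equiv.ofFiberEquiv (fun A => (h1 A).some), fun c => ?_⟩
  apply ofBits_inj
  exact Equiv.ofFiberEquiv_map (f := fun c => Nat.ofBits (g c)) (g := fun c => Nat.ofBits (g' c))
    (fun A => (h1 A).some) c

/-- search trees of codes; a node holds key, rank and two numbers -/
inductive Tr where
  | lf : Tr
  | nd : Tr → ℕ → ℕ → ℕ → ℕ → Tr → Tr

def Tr.get : Tr → ℕ → Option (ℕ × ℕ × ℕ)
  | .lf, _ => none
  | .nd l y r a b t, x =>
    bif Nat.beq x y then some (r, a, b) else bif Nat.ble x y then l.get x else t.get x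

def Tr.rk (T : Tr) (x : ℕ) : ℕ :=
  match T.get x with
  | some (r, _, _) => r
  | none => 1000

def Tr.all (P : ℕ → ℕ → ℕ → ℕ → Bool) : Tr → Bool
  | .lf => true
  | .nd l y r a b t => P y r a b && (l.all P && t.all P)

theorem Tr.get_all (P : ℕ → ℕ → ℕ → ℕ → Bool) (x r a b : ℕ) :
    ∀ T : Tr, T.all P = true → T.get x = some (r, a, b) → P x r a b = true := by
  intro T
  induction T with
  | lf => intro _ h; simp [Tr.get] at h
  | nd l y r' a' b' t ihl iht =>
    intro h1 h2
    simp only [Tr.all, Bool.and_eq_true] at h1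
    simp only [Tr.get] at h2
    rcases hb : Nat.beq x y with _ | _
    · rw [hb, cond_false] at h2
      rcases hb2 : Nat.ble x y with _ | _
      · rw [hb2, cond_false] at h2
        exact iht h1.2.2 h2
      · rw [hb2, cond_true] at h2
        exact ihl h1.2.1 h2
    · rw [hb, cond_true] at h2
      have hxy : x = y := Nat.eq_of_beq_eq_true hb
      simp only [Option.some.injEq, Prod.mk.injEq] at h2
      obtain ⟨rfl, rfl, rfl⟩ := h2
      rw [hxy]
      exact h1.1

/-- every perfect matching of the list contains a good pair -/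
def allM (good : ℕ → ℕ → Bool) : ℕ → List ℕ → Bool
  | 0, _ => false
  | _ + 1, [] => false
  | n + 1, x :: l => l.all fun y => good x y || allM good n (l.erase y)

theorem allM_sound (good : ℕ → ℕ → Bool) (π : ℕ → ℕ) : ∀ (n : ℕ) (l : List ℕ), l.Nodup →
    (∀ p ∈ l, π p ∈ l ∧ π p ≠ p ∧ π (π p) = p) → allM good n l = true →
    ∃ p ∈ l, good p (π p) = true := by
  intro n
  induction n with
  | zero => intro l _ _ h; simp [allM] at h
  | succ n ih =>
    intro l hl hπ h
    rcases l with _ | ⟨x, l⟩
    · simp [allM] at h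
    · simp only [allM, List.all_eq_true, Bool.or_eq_true] at h
      rw [List.nodup_cons] at hl
      obtain ⟨h1, h2, h3⟩ := hπ x List.mem_cons_self
      have h4 : π x ∈ l := by
        rcases List.mem_cons.1 h1 with h | h
        · exact absurd h h2
        · exact h
      rcases h _ h4 with h5 | h5
      · exact ⟨x, List.mem_cons_self, h5⟩
      · obtain ⟨p, hp, hp2⟩ := ih (l.erase (π x)) (hl.2.erase _) (by
          intro p hp
          rw [hl.2.mem_erase_iff] at hp
          obtain ⟨hp1, hp2⟩ := hp
          have hpx : p ≠ x := fun h => hl.1 (h ▸ hp2)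
          obtain ⟨g1, g2, g3⟩ := hπ p (List.mem_cons_of_mem _ hp2)
          refine ⟨?_, g2, g3⟩
          rw [hl.2.mem_erase_iff]
          constructor
          · intro h
            apply hpx
            rw [← g3, h, h3]
          · rcases List.mem_cons.1 g1 with h | h
            · exfalso
              apply hp1
              rw [← g3, h]
            · exact h) h5
        exact ⟨p, List.mem_cons_of_mem _ (List.mem_of_mem_erase hp), hp2⟩

/-- the code after switching the pair `p`, `q` between the subsets `a` and `b` -/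
def nxt (x a b p q : ℕ) : ℕ :=
  x - 8 ^ a - 8 ^ b + 8 ^ (a ^^^ (2 ^ p ^^^ 2 ^ q)) + 8 ^ (b ^^^ (2 ^ p ^^^ 2 ^ q))

/-- check of a node of the table -/
def chk (T : Tr) (k : ℕ) (W : ℕ → ℕ → Bool) (x r a b : ℕ) : Bool :=
  bif Nat.beq r 0 then W x a else
    !(Nat.beq a b) && (!(Nat.beq (x / 8 ^ a % 8) 0) && (!(Nat.beq (x / 8 ^ b % 8) 0) &&
      allM (fun p q => Nat.ble (T.rk (nxt x a b p q) + 1) r) 3
        ((List.range k).filter fun p => (a ^^^ b).testBit p)))

variable {V E : Type} [Fintype V] [Fintype E] {k : ℕ}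

/-- the colours at the ports -/
def bd (f : Fin 6 → E ⊕ Fin k → Bool) : Fin 6 → Fin k → Bool := fun c p => f c (Sum.inr p)

omit [Fintype E] in
theorem code_sw (f : Fin 6 → E ⊕ Fin k → Bool) (i j : Fin 6) (hij : i ≠ j)
    (U : E ⊕ Fin k → Bool) (x y : Fin k) (hxy : x ≠ y)
    (hU : ∀ z : Fin k, U (Sum.inr z) = true ↔ z = x ∨ z = y) :
    code (bd (sw f i j U)) =
      nxt (code (bd f)) (Nat.ofBits (bd f i)) (Nat.ofBits (bd f j)) x y := by
  have h1 : ∀ c, c = i ∨ c = j → Nat.ofBits (bd (sw f i j U) c) =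
      Nat.ofBits (bd f c) ^^^ (2 ^ (x : ℕ) ^^^ 2 ^ (y : ℕ)) := by
    intro c hc
    apply Nat.eq_of_testBit_eq
    intro z
    by_cases hz : z < k
    · rw [Nat.testBit_ofBits_lt _ _ hz, Nat.testBit_xor, Nat.testBit_ofBits_lt _ _ hz,
        Nat.testBit_xor, Nat.testBit_two_pow, Nat.testBit_two_pow]
      simp only [bd, sw, if_pos hc]
      congr 1
      rw [Bool.eq_iff_iff, hU]
      have hxy' : (x : ℕ) ≠ y := fun h => hxy (Fin.ext h)
      simp only [Fin.ext_iff]
      by_cases h1 : (x : ℕ) = z
      · have h2 : ¬ (y : ℕ) = z := fun h => hxy' (h1.trans h.symm)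
        simp [h1, h2]
      · by_cases h2 : (y : ℕ) = z
        · simp [h1, h2]
        · simp [h1, h2, Ne.symm h1, Ne.symm h2]
    · rw [Nat.testBit_ofBits_ge _ _ (by omega), Nat.testBit_xor, Nat.testBit_ofBits_ge _ _ (by omega),
        Nat.testBit_xor, Nat.testBit_two_pow, Nat.testBit_two_pow]
      have hx := x.2
      have hy := y.2
      have h1 : ¬ (x : ℕ) = z := by omega
      have h2 : ¬ (y : ℕ) = z := by omega
      simp [h1, h2]
  have h2 : ∀ c, c ≠ i → c ≠ j → bd (sw f i j U) c = bd f c := by
    intro c h1 h2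
    funext z
    simp [bd, sw, h1, h2]
  have hj : j ∈ univ.erase i := by simp [hij.symm]
  unfold code nxt
  rw [← Finset.add_sum_erase univ _ (mem_univ i), ← Finset.add_sum_erase _ _ hj]
  rw [← Finset.add_sum_erase univ (fun c => 8 ^ Nat.ofBits (bd f c)) (mem_univ i),
    ← Finset.add_sum_erase _ (fun c => 8 ^ Nat.ofBits (bd f c)) hj]
  rw [h1 i (Or.inl rfl), h1 j (Or.inr rfl)]
  rw [Finset.sum_congr rfl (g := fun c => 8 ^ Nat.ofBits (bd f c)) (fun c hc => by
    rw [mem_erase, mem_erase] at hc
    rw [h2 c hc.2.1 hc.1])]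
  omega

theorem core {s t : E → V} {w : Fin k → V} (T : Tr) (W : ℕ → ℕ → Bool)
    (hT : T.all (chk T k W) = true) : ∀ r : ℕ, r < 1000 → ∀ f, Lab s t w f →
      T.rk (code (bd f)) = r → ∃ f', Lab s t w f' ∧ ∃ a, W (code (bd f')) a = true := by
  intro r
  induction r using Nat.strong_induction_on with
  | _ r ih =>
    intro hr f hf hrk
    rcases hg : T.get (code (bd f)) with _ | ⟨r', a, b⟩
    · rw [Tr.rk, hg] at hrk
      simp only at hrk
      omega
    · rw [Tr.rk, hg] at hrk
      simp only at hrk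
      subst hrk
      have h1 := Tr.get_all _ _ _ _ _ T hT hg
      unfold chk at h1
      rcases hr0 : Nat.beq r' 0 with _ | _
      · rw [hr0, cond_false] at h1
        simp only [Bool.and_eq_true] at h1
        obtain ⟨h2, h3, h4, h5⟩ := h1
        have hab : a ≠ b := by
          intro h
          rw [h, Nat.beq_refl] at h2
          simp at h2
        have hocc : ∀ a, (!(Nat.beq (code (bd f) / 8 ^ a % 8) 0)) = true →
            ∃ i, Nat.ofBits (bd f i) = a := by
          intro a h
          by_contra hno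
          push Not at hno
          have := digit (fun c => Nat.ofBits (bd f c)) a
          rw [Finset.filter_false_of_mem (fun c _ => hno c), card_empty] at this
          unfold code at h
          rw [this] at h
          simp at h
        obtain ⟨i, hi⟩ := hocc a h3
        obtain ⟨j, hj⟩ := hocc b h4
        have hij : i ≠ j := by
          rintro rfl
          exact hab (hi.symm.trans hj)
        obtain ⟨π, hπ⟩ := kempe hf i j hij
        let πn : ℕ → ℕ := fun p => if h : p < k then (π ⟨p, h⟩ : ℕ) else p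
        have hbit : ∀ p : Fin k, (a ^^^ b).testBit p = true ↔ f i (Sum.inr p) ≠ f j (Sum.inr p) := by
          intro p
          rw [Nat.testBit_xor, ← hi, ← hj, Nat.testBit_ofBits_lt _ _ p.2,
            Nat.testBit_ofBits_lt _ _ p.2]
          simp [bd]
        obtain ⟨p, hp, hp2⟩ := allM_sound _ πn 3 _ ((List.nodup_range).filter _) (by
          intro p hp
          rw [List.mem_filter, List.mem_range] at hp
          obtain ⟨hp1, hp2⟩ := hp
          have h6 := (hbit ⟨p, hp1⟩).1 hp2
          obtain ⟨h7, h8, h9, -⟩ := hπ _ h6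
          have h10 : πn p = (π ⟨p, hp1⟩ : ℕ) := by simp [πn, hp1]
          refine ⟨?_, ?_, ?_⟩
          · rw [List.mem_filter, List.mem_range, h10]
            exact ⟨(π ⟨p, hp1⟩).2, (hbit _).2 h7⟩
          · rw [h10]
            intro h
            exact h8 (Fin.ext h)
          · rw [h10]
            simp only [πn, Fin.is_lt, dif_pos, Fin.eta]
            rw [h9]) h5
        rw [List.mem_filter, List.mem_range] at hp
        obtain ⟨hp3, hp4⟩ := hp
        have h6 := (hbit ⟨p, hp3⟩).1 hp4
        obtain ⟨h7, h8, h9, U, h11, h12⟩ := hπ _ h6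
        have h10 : πn p = (π ⟨p, hp3⟩ : ℕ) := by simp [πn, hp3]
        rw [h10] at hp2
        have h13 := code_sw f i j hij U ⟨p, hp3⟩ (π ⟨p, hp3⟩) (Ne.symm h8) h12
        rw [hi, hj] at h13
        rw [← h13] at hp2
        have h14 := Nat.le_of_ble_eq_true hp2
        exact ih _ (by omega) (by omega) _ h11 rfl
      · rw [hr0, cond_true] at h1
        exact ⟨f, hf, a, h1⟩

end Pool.Agent.TH372.BFR
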