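import Pool.Agent.TH372.BFR.Glue

set_option autoImplicit false

/-! The small pieces replacing a configuration, and the codes of their colourings. -/

namespace Pool.Agent.TH372.BFR

open Finset

def codesA : List ℕ := [288230376185274368, 144396671659286528, 562967133298688, 144396663088222208, 562958562234368,
  562949991170048]

def codesB : List ℕ := [1361129467683753853855804272736286539778, 681893961837661843391101753787129266178,
  680730887341350046134381595120323526658, 680565058360433003206268148782513258498,
  1495381495260448209808933705771646978, 2658455991569832926399234837971992578,
  680565058360430590666138291247907864578, 1495381495258035669679076171166253058,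
  1329552514340992741565629833355984898, 332306998946238412958917504360513538,
  166478018029195484845471166550245378, 649037112152556732024828739977218,
  681893961837661842801958864933030461953, 2658455991569832337256345983873188353,
  680565058360430590076995402393809060353, 1495381495258035080536187317067448833,
  1329552514340992152422740979257180673, 1329552514338579612292883444651786753,
  166478018026782355572724777846047233, 649037109739427459278440035779073,
  2658455991569831748113457129774384128, 1329552514338579023149994590552982528,
  649037107326298186532051331580928]

def codesC : List ℕ := [1569275433846670190958947355801916604025588861116008628228,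
  786170212464200984337832024928108611196413169680187916803,
  784637716934753077021121356949424589768390391717785763843,
  784637716923357396224672208524099837731067114103882383363,
  1532495552283870400006026075616596939214735397617664003,
  3064991081731777716716694054300618367237478244367205378,
  784637716923357396224672208524099837731067078988229771778,
  1532495552283870400006026075616596939214700281965052418,
  1532495540888189603556877650291844901891422668061671938,
  22835963083295358096932575511191922319562899458,
  11440282286846209671607823473868644705659518978, 44601490397061246283071436545367091756138498,
  1532495540888189603556877650291844901891387552409060353,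
  11440282286846209671607823473868609590006907393, 44601490397061246283071436545331976103526913,
  44601490397061246283071436545296860450915328]

def codesD : List ℕ := [70368744177668, 35253091566083, 137438954498]


def memN (x : ℕ) (l : List ℕ) : Bool := l.any fun y => Nat.beq x y

theorem memN_iff {x : ℕ} {l : List ℕ} (h : memN x l = true) : x ∈ l := by
  unfold memN at h
  rw [List.any_eq_true] at h
  obtain ⟨y, hy, hxy⟩ := h
  rw [Nat.eq_of_beq_eq_true hxy]; exact hy

theorem chkA : (L15.all fun m0 => L15.all fun m1 => L15.all fun m2 =>
    !(du (63 - m1 - m2) && Nat.ble (m1 + m2) 63) ||
      memN (codeN [m0, m0, m1, m2, 63 - m1 - m2]) codesA) = true := by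
  decide +kernel

theorem chkB : (L15.all fun m1 => L15.all fun m2 =>
    !(du (63 - m1 - m2) && Nat.ble (m1 + m2) 63) || L15.all fun m4 =>
      !(du (m1 + m2 - m4) && Nat.ble m4 (m1 + m2)) || L15.all fun m0 =>
      memN (codeN [m0, m0, m1, m2, m4, m1 + m2 - m4]) codesB) = true := by
  decide +kernel

theorem chkC : (L15.all fun m0 => L15.all fun m1 => L15.all fun m2 =>
      memN (codeN [m0, m0, m1, m1, m2, m2]) codesC) = true := by
  decide +kernel

theorem chkD : (L15.all fun m0 => L15.all fun m1 =>
      memN (codeN [m0, m0, m1, m1]) codesD) = true := by
  decide +kernel

end Pool.Agent.TH372.BFR
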