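import Pool.Agent.TH372.BFR.YSide

set_option autoImplicit false

/-! Edge cuts of glued graphs. -/

namespace Pool.Agent.TH372.BFR

open Finset

open Classical in
/-- the number of edges with exactly one end in `Z` -/
noncomputable def cut {V E : Type} [Fintype E] (s t : E → V) (Z : Set V) : ℕ :=
  (univ.filter fun e => ¬ (s e ∈ Z ↔ t e ∈ Z)).card

/-- every vertex has degree three (a loop counts twice) -/
def Cubic {V E : Type} [Fintype E] (s t : E → V) : Prop :=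
  ∀ v, Nat.card {d : E × Bool // en s t d = v} = 3

/-- connected, and no cut edge -/
def TwoEC {V E : Type} [Fintype E] (s t : E → V) : Prop :=
  ∀ Z : Set V, Z.Nonempty → Zᶜ.Nonempty → 2 ≤ cut s t Z

/-- a cut with at most three edges separates at most one vertex -/
def Ess {V E : Type} [Fintype E] (s t : E → V) : Prop :=
  ∀ Z : Set V, cut s t Z ≤ 3 → Z.ncard ≤ 1 ∨ Zᶜ.ncard ≤ 1

open Classical in
/-- indicator -/
noncomputable def ind (P : Prop) : ℕ := if P then 1 else 0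

theorem ind_le (P : Prop) : ind P ≤ 1 := by unfold ind; split_ifs <;> simp

theorem ind_not (P : Prop) : ind (¬ P) = 1 - ind P := by
  unfold ind; by_cases h : P <;> simp [h]

theorem ind_cross (P Q : Prop) : ind (¬ (P ↔ Q)) = (ind P - ind Q) + (ind Q - ind P) := by
  unfold ind; by_cases h : P <;> by_cases h' : Q <;> simp [h, h']

theorem ind_true {P : Prop} (h : P) : ind P = 1 := by unfold ind; simp [h]

theorem ind_false {P : Prop} (h : ¬ P) : ind P = 0 := by unfold ind; simp [h]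

theorem cut_sum {V E : Type} [Fintype E] (s t : E → V) (Z : Set V) :
    cut s t Z = ∑ e, ind (¬ (s e ∈ Z ↔ t e ∈ Z)) := by
  classical
  unfold cut
  rw [Finset.card_filter]
  apply Finset.sum_congr rfl
  intro e _
  unfold ind
  congr

theorem cut_compl {V E : Type} [Fintype E] (s t : E → V) (Z : Set V) :
    cut s t Zᶜ = cut s t Z := by
  rw [cut_sum, cut_sum]
  apply Finset.sum_congr rfl
  intro e _
  congr 1
  simp only [Set.mem_compl_iff, eq_iff_iff]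
  tauto

/-- edges leaving `Z` in the outer part, including the dangling ones -/
noncomputable def dl {V E : Type} [Fintype E] {k : ℕ} (s t : E → V) (w : Fin k → V)
    (Z : Set V) : ℕ := cut s t Z + ∑ i, ind (w i ∈ Z)

theorem cut_glue {V E ι : Type} [Fintype E] [Fintype ι] {k n : ℕ} (s t : E → V) (w : Fin k → V)
    (e1 e2 : ι → Fin k ⊕ Fin n) (Z : Set (V ⊕ Fin n)) :
    cut (gs s w e1) (gs t w e2) Z = cut s t {v | Sum.inl v ∈ Z} +
      ∑ j, ind (¬ (Sum.map w id (e1 j) ∈ Z ↔ Sum.map w id (e2 j) ∈ Z)) := by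
  rw [cut_sum, cut_sum, Fintype.sum_sum_type]
  rfl

theorem cut_piece {V E : Type} [Fintype E] {k n q : ℕ} (s t : E → V) (w : Fin k → V)
    (X : Piece k n q) (Z : Set V) :
    cut (gs s w X.e1) (gs t w X.e2) (Sum.inl '' Z) = dl s t w Z := by
  rw [cut_glue, dl, Fintype.sum_sum_type]
  congr 1
  · congr 1
    ext v
    simp
  · have h1 : ∑ j : Fin q, ind (¬ (Sum.map w id (X.e1 (Sum.inr j)) ∈ (Sum.inl '' Z : Set (V ⊕ Fin n))
        ↔ Sum.map w id (X.e2 (Sum.inr j)) ∈ (Sum.inl '' Z : Set (V ⊕ Fin n)))) = 0 := by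
      apply Finset.sum_eq_zero
      intro j _
      apply ind_false
      simp [Piece.e1, Piece.e2]
    rw [h1, add_zero]
    apply Finset.sum_congr rfl
    intro i _
    congr 1
    simp [Piece.e1, Piece.e2]

theorem handshake' {V E : Type} [Fintype V] [Fintype E] (s t : E → V) (hc : Cubic s t)
    (Z : Set V) : cut s t Z + 2 * ∑ e, ind (s e ∈ Z ∧ t e ∈ Z) = 3 * Z.ncard := by
  classical
  have h1 : (univ.filter fun d : E × Bool => en s t d ∈ Z).card = 3 * Z.ncard := by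
    have h2 : Z.ncard = Z.toFinset.card := Set.ncard_eq_toFinset_card' Z
    rw [h2, Finset.card_eq_sum_card_fiberwise (f := en s t) (t := Z.toFinset) (by
      intro d hd
      simpa using hd)]
    rw [Finset.sum_congr rfl (g := fun _ => 3) (by
      intro v hv
      rw [← hc v, Nat.card_eq_fintype_card, Fintype.card_subtype, Finset.filter_filter]
      congr 1
      ext d
      simp only [mem_filter, mem_univ, true_and]
      constructor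
      · exact fun h => h.2
      · intro h
        refine ⟨?_, h⟩
        rw [h]
        simpa using hv)]
    simp [mul_comm]
  have h3 : (univ.filter fun d : E × Bool => en s t d ∈ Z).card =
      ∑ e, (ind (s e ∈ Z) + ind (t e ∈ Z)) := by
    rw [Finset.card_filter, ← Finset.univ_product_univ, Finset.sum_product]
    apply Finset.sum_congr rfl
    intro e _
    simp only [Fintype.sum_bool, en, ind]
    simp only [if_true, Bool.false_eq_true, if_false]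
    rw [add_comm]
  have h4 : ∑ e, (ind (s e ∈ Z) + ind (t e ∈ Z)) = cut s t Z +
      2 * ∑ e, ind (s e ∈ Z ∧ t e ∈ Z) := by
    rw [cut_sum, Finset.mul_sum, ← Finset.sum_add_distrib]
    apply Finset.sum_congr rfl
    intro e _
    by_cases ha : s e ∈ Z <;> by_cases hb : t e ∈ Z <;> simp [ind, ha, hb]
  omega

theorem handshake {V E : Type} [Fintype V] [Fintype E] (s t : E → V) (hc : Cubic s t)
    (Z : Set V) : cut s t Z % 2 = Z.ncard % 2 := by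
  have := handshake' s t hc Z
  omega

/-- what is needed of the outer part -/
structure ROK {V E : Type} [Fintype E] {k : ℕ} (s t : E → V) (w : Fin k → V) : Prop where
  two : ∀ Z : Set V, Z.Nonempty → 2 ≤ dl s t w Z
  ess : ∀ Z : Set V, dl s t w Z ≤ 3 → Z.ncard ≤ 1
  par : ∀ Z : Set V, dl s t w Z % 2 = Z.ncard % 2

theorem rok_of {V E : Type} [Fintype V] [Fintype E] {k n q : ℕ} (s t : E → V) (w : Fin k → V)
    (X : Piece k n q) (hn : 2 ≤ n) (hc : Cubic (gs s w X.e1) (gs t w X.e2))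
    (h2 : TwoEC (gs s w X.e1) (gs t w X.e2)) (h3 : Ess (gs s w X.e1) (gs t w X.e2)) :
    ROK s t w := by
  classical
  have hcard : ∀ Z : Set V, (Sum.inl '' Z : Set (V ⊕ Fin n)).ncard = Z.ncard := fun Z =>
    Set.ncard_image_of_injective Z Sum.inl_injective
  refine ⟨fun Z hZ => ?_, fun Z hZ => ?_, fun Z => ?_⟩
  · rw [← cut_piece s t w X Z]
    apply h2
    · exact hZ.image _
    · exact ⟨Sum.inr ⟨0, by omega⟩, by simp⟩
  · rw [← cut_piece s t w X Z] at hZ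
    rcases h3 _ hZ with h | h
    · rwa [hcard] at h
    · exfalso
      have h4 : (Sum.inr '' (Set.univ : Set (Fin n)) : Set (V ⊕ Fin n)) ⊆
          (Sum.inl '' Z : Set (V ⊕ Fin n))ᶜ := by
        rintro _ ⟨a, -, rfl⟩
        simp
      have h5 := Set.ncard_le_ncard h4 (Set.toFinite _)
      rw [Set.ncard_image_of_injective _ Sum.inr_injective, Set.ncard_univ,
        Nat.card_eq_fintype_card, Fintype.card_fin] at h5
      omega
  · rw [← cut_piece s t w X Z, handshake _ _ hc, hcard]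

theorem dl_compl {V E : Type} [Fintype E] {k : ℕ} (s t : E → V) (w : Fin k → V) (Z : Set V) :
    dl s t w Zᶜ = cut s t Z + ∑ i, (1 - ind (w i ∈ Z)) := by
  unfold dl
  rw [cut_compl]
  congr 1
  apply Finset.sum_congr rfl
  intro i _
  rw [← ind_not]
  rfl

theorem arA (c nZ nW a0 a1 a2 a3 a4 z : ℕ) (b0 : a0 ≤ 1) (b1 : a1 ≤ 1) (b2 : a2 ≤ 1)
    (b3 : a3 ≤ 1) (b4 : a4 ≤ 1) (bz : z ≤ 1)
    (h1 : 1 ≤ nZ → 2 ≤ c + (a0 + a1 + a2 + a3 + a4))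
    (h2 : 1 ≤ nW → 2 ≤ c + ((1 - a0) + (1 - a1) + (1 - a2) + (1 - a3) + (1 - a4)))
    (h3 : c + (a0 + a1 + a2 + a3 + a4) ≤ 3 → nZ ≤ 1)
    (h4 : c + ((1 - a0) + (1 - a1) + (1 - a2) + (1 - a3) + (1 - a4)) ≤ 3 → nW ≤ 1)
    (h5 : (c + (a0 + a1 + a2 + a3 + a4)) % 2 = nZ % 2)
    (h6 : (c + ((1 - a0) + (1 - a1) + (1 - a2) + (1 - a3) + (1 - a4))) % 2 = nW % 2)
    (h7 : nZ = 0 → c + (a0 + a1 + a2 + a3 + a4) = 0)
    (h8 : nW = 0 → c + ((1 - a0) + (1 - a1) + (1 - a2) + (1 - a3) + (1 - a4)) = 0)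
    (h9 : nZ ≤ 1 → a0 + a1 ≤ 1) (h10 : nW ≤ 1 → 1 ≤ a0 + a1)
    (k1 : 1 ≤ nZ + z) (k2 : 1 ≤ nW + (1 - z)) :
    2 ≤ c + (((a0 - a1) + (a1 - a0)) + ((a2 - z) + (z - a2)) + ((a3 - z) + (z - a3)) +
      ((a4 - z) + (z - a4))) := by
  obtain rfl | rfl : a0 = 0 ∨ a0 = 1 := by omega
  all_goals obtain rfl | rfl : a1 = 0 ∨ a1 = 1 := by omega
  all_goals obtain rfl | rfl : a2 = 0 ∨ a2 = 1 := by omega
  all_goals obtain rfl | rfl : a3 = 0 ∨ a3 = 1 := by omega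
  all_goals obtain rfl | rfl : a4 = 0 ∨ a4 = 1 := by omega
  all_goals obtain rfl | rfl : z = 0 ∨ z = 1 := by omega
  all_goals omega

theorem arD (c nZ nW a0 a1 a2 a3 : ℕ) (b0 : a0 ≤ 1) (b1 : a1 ≤ 1) (b2 : a2 ≤ 1)
    (b3 : a3 ≤ 1)
    (h1 : 1 ≤ nZ → 2 ≤ c + (a0 + a1 + a2 + a3))
    (h2 : 1 ≤ nW → 2 ≤ c + ((1 - a0) + (1 - a1) + (1 - a2) + (1 - a3)))
    (h3 : c + (a0 + a1 + a2 + a3) ≤ 3 → nZ ≤ 1)
    (h4 : c + ((1 - a0) + (1 - a1) + (1 - a2) + (1 - a3)) ≤ 3 → nW ≤ 1)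
    (h5 : (c + (a0 + a1 + a2 + a3)) % 2 = nZ % 2)
    (h6 : (c + ((1 - a0) + (1 - a1) + (1 - a2) + (1 - a3))) % 2 = nW % 2)
    (h7 : nZ = 0 → c + (a0 + a1 + a2 + a3) = 0)
    (h8 : nW = 0 → c + ((1 - a0) + (1 - a1) + (1 - a2) + (1 - a3)) = 0)
    (h9 : nZ ≤ 1 → a0 + a1 ≤ 1 ∧ a2 + a3 ≤ 1) (h10 : nW ≤ 1 → 1 ≤ a0 + a1 ∧ 1 ≤ a2 + a3)
    (k1 : 1 ≤ nZ) (k2 : 1 ≤ nW) :
    2 ≤ c + (((a0 - a1) + (a1 - a0)) + ((a2 - a3) + (a3 - a2))) := by
  obtain rfl | rfl : a0 = 0 ∨ a0 = 1 := by omega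
  all_goals obtain rfl | rfl : a1 = 0 ∨ a1 = 1 := by omega
  all_goals obtain rfl | rfl : a2 = 0 ∨ a2 = 1 := by omega
  all_goals obtain rfl | rfl : a3 = 0 ∨ a3 = 1 := by omega
  all_goals omega

theorem arC (c nZ nW a0 a1 a2 a3 a4 a5 : ℕ) (b0 : a0 ≤ 1) (b1 : a1 ≤ 1) (b2 : a2 ≤ 1)
    (b3 : a3 ≤ 1) (b4 : a4 ≤ 1) (b5 : a5 ≤ 1)
    (h1 : 1 ≤ nZ → 2 ≤ c + (a0 + a1 + a2 + a3 + a4 + a5))
    (h2 : 1 ≤ nW → 2 ≤ c + ((1 - a0) + (1 - a1) + (1 - a2) + (1 - a3) + (1 - a4) + (1 - a5)))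
    (h3 : c + (a0 + a1 + a2 + a3 + a4 + a5) ≤ 3 → nZ ≤ 1)
    (h4 : c + ((1 - a0) + (1 - a1) + (1 - a2) + (1 - a3) + (1 - a4) + (1 - a5)) ≤ 3 → nW ≤ 1)
    (h5 : (c + (a0 + a1 + a2 + a3 + a4 + a5)) % 2 = nZ % 2)
    (h6 : (c + ((1 - a0) + (1 - a1) + (1 - a2) + (1 - a3) + (1 - a4) + (1 - a5))) % 2 = nW % 2)
    (h7 : nZ = 0 → c + (a0 + a1 + a2 + a3 + a4 + a5) = 0)
    (h8 : nW = 0 → c + ((1 - a0) + (1 - a1) + (1 - a2) + (1 - a3) + (1 - a4) + (1 - a5)) = 0)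
    (h9 : nZ ≤ 1 → a0 + a1 ≤ 1 ∧ a2 + a3 ≤ 1 ∧ a4 + a5 ≤ 1)
    (h10 : nW ≤ 1 → 1 ≤ a0 + a1 ∧ 1 ≤ a2 + a3 ∧ 1 ≤ a4 + a5)
    (k1 : 1 ≤ nZ) (k2 : 1 ≤ nW) :
    2 ≤ c + (((a0 - a1) + (a1 - a0)) + ((a2 - a3) + (a3 - a2)) + ((a4 - a5) + (a5 - a4))) := by
  obtain rfl | rfl : a0 = 0 ∨ a0 = 1 := by omega
  all_goals obtain rfl | rfl : a1 = 0 ∨ a1 = 1 := by omega
  all_goals obtain rfl | rfl : a2 = 0 ∨ a2 = 1 := by omega
  all_goals obtain rfl | rfl : a3 = 0 ∨ a3 = 1 := by omega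
  all_goals obtain rfl | rfl : a4 = 0 ∨ a4 = 1 := by omega
  all_goals obtain rfl | rfl : a5 = 0 ∨ a5 = 1 := by omega
  all_goals omega

set_option maxHeartbeats 4000000 in
theorem arB (c nZ nW a0 a1 a2 a3 a4 a5 z0 z1 : ℕ) (b0 : a0 ≤ 1) (b1 : a1 ≤ 1) (b2 : a2 ≤ 1)
    (b3 : a3 ≤ 1) (b4 : a4 ≤ 1) (b5 : a5 ≤ 1) (bz0 : z0 ≤ 1) (bz1 : z1 ≤ 1)
    (h1 : 1 ≤ nZ → 2 ≤ c + (a0 + a1 + a2 + a3 + a4 + a5))
    (h2 : 1 ≤ nW → 2 ≤ c + ((1 - a0) + (1 - a1) + (1 - a2) + (1 - a3) + (1 - a4) + (1 - a5)))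
    (h3 : c + (a0 + a1 + a2 + a3 + a4 + a5) ≤ 3 → nZ ≤ 1)
    (h4 : c + ((1 - a0) + (1 - a1) + (1 - a2) + (1 - a3) + (1 - a4) + (1 - a5)) ≤ 3 → nW ≤ 1)
    (h5 : (c + (a0 + a1 + a2 + a3 + a4 + a5)) % 2 = nZ % 2)
    (h6 : (c + ((1 - a0) + (1 - a1) + (1 - a2) + (1 - a3) + (1 - a4) + (1 - a5))) % 2 = nW % 2)
    (h7 : nZ = 0 → c + (a0 + a1 + a2 + a3 + a4 + a5) = 0)
    (h8 : nW = 0 → c + ((1 - a0) + (1 - a1) + (1 - a2) + (1 - a3) + (1 - a4) + (1 - a5)) = 0)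
    (h9 : nZ ≤ 1 → a0 + a1 ≤ 1) (h10 : nW ≤ 1 → 1 ≤ a0 + a1)
    (k1 : 1 ≤ nZ + z0 + z1) (k2 : 1 ≤ nW + (1 - z0) + (1 - z1)) :
    2 ≤ c + (((a0 - a1) + (a1 - a0)) + ((a2 - z0) + (z0 - a2)) + ((a3 - z0) + (z0 - a3)) +
      ((z0 - z1) + (z1 - z0)) + ((a4 - z1) + (z1 - a4)) + ((a5 - z1) + (z1 - a5))) := by
  obtain rfl | rfl : a0 = 0 ∨ a0 = 1 := by omega
  all_goals obtain rfl | rfl : a1 = 0 ∨ a1 = 1 := by omega
  all_goals obtain rfl | rfl : a2 = 0 ∨ a2 = 1 := by omega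
  all_goals obtain rfl | rfl : a3 = 0 ∨ a3 = 1 := by omega
  all_goals obtain rfl | rfl : a4 = 0 ∨ a4 = 1 := by omega
  all_goals obtain rfl | rfl : a5 = 0 ∨ a5 = 1 := by omega
  all_goals obtain rfl | rfl : z0 = 0 ∨ z0 = 1 := by omega
  all_goals obtain rfl | rfl : z1 = 0 ∨ z1 = 1 := by omega
  all_goals omega

end Pool.Agent.TH372.BFR
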