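import Pool.Agent.TH372.BFR.Cut

set_option autoImplicit false

/-! The small pieces give 2-edge-connected cubic graphs. -/

namespace Pool.Agent.TH372.BFR

open Finset

section

variable {V E : Type} [Fintype V] [Fintype E] {k : ℕ} {s t : E → V} {w : Fin k → V}

theorem cut_empty {V E : Type} [Fintype E] (s t : E → V) : cut s t ∅ = 0 := by
  rw [cut_sum]
  apply Finset.sum_eq_zero
  intro e _
  apply ind_false
  simp

theorem dl_empty {V E : Type} [Fintype E] {k : ℕ} (s t : E → V) (w : Fin k → V) :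
    dl s t w ∅ = 0 := by
  unfold dl
  rw [cut_empty, zero_add]
  apply Finset.sum_eq_zero
  intro i _
  apply ind_false
  simp

theorem facts (h : ROK s t w) (S : Set V) : (1 ≤ S.ncard → 2 ≤ dl s t w S) ∧
    (dl s t w S ≤ 3 → S.ncard ≤ 1) ∧ (dl s t w S % 2 = S.ncard % 2) ∧
    (S.ncard = 0 → dl s t w S = 0) := by
  refine ⟨fun h1 => h.two S ?_, h.ess S, h.par S, fun h1 => ?_⟩
  · rw [Nat.one_le_iff_ne_zero] at h1
    exact Set.nonempty_of_ncard_ne_zero h1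
  · rw [Set.ncard_eq_zero (Set.toFinite S)] at h1
    rw [h1, dl_empty]

omit [Fintype E] in
theorem pairZ {i j : Fin k} (h : w i ≠ w j) (S : Set V) (hS : S.ncard ≤ 1) :
    ind (w i ∈ S) + ind (w j ∈ S) ≤ 1 := by
  by_cases hi : w i ∈ S
  · by_cases hj : w j ∈ S
    · exact absurd ((Set.ncard_le_one (Set.toFinite S)).1 hS _ hi _ hj) h
    · rw [ind_false hj]
      have := ind_le (w i ∈ S)
      omega
  · rw [ind_false hi]
    have := ind_le (w j ∈ S)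
    omega

omit [Fintype E] in
theorem pairW {i j : Fin k} (h : w i ≠ w j) (S : Set V) (hS : Sᶜ.ncard ≤ 1) :
    1 ≤ ind (w i ∈ S) + ind (w j ∈ S) := by
  have h1 := pairZ h Sᶜ hS
  have h2 : ind (w i ∈ Sᶜ) = 1 - ind (w i ∈ S) := ind_not _
  have h3 : ind (w j ∈ Sᶜ) = 1 - ind (w j ∈ S) := ind_not _
  have h4 := ind_le (w i ∈ S)
  have h5 := ind_le (w j ∈ S)
  omega

theorem ncard_pos_of {S : Set V} (h : S.Nonempty) : 1 ≤ S.ncard := by
  have := (Set.ncard_pos (Set.toFinite S)).2 h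
  omega

end

theorem twoA {V E : Type} [Fintype V] [Fintype E] {s t : E → V} {w : Fin 5 → V}
    (h : ROK s t w) (h01 : w 0 ≠ w 1) : TwoEC (gs s w A1) (gs t w A2) := by
  intro Z hZ hZc
  rw [cut_glue]
  set S : Set V := {v | Sum.inl v ∈ Z} with hS
  obtain ⟨f1, f2, f3, f4⟩ := facts h S
  obtain ⟨g1, g2, g3, g4⟩ := facts h Sᶜ
  rw [dl_compl, Fin.sum_univ_five] at g1 g2 g3 g4
  rw [dl, Fin.sum_univ_five] at f1 f2 f3 f4
  have e : ∑ j, ind (¬ (Sum.map w id (A1 j) ∈ Z ↔ Sum.map w id (A2 j) ∈ Z)) =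
      ((ind (w 0 ∈ S) - ind (w 1 ∈ S)) + (ind (w 1 ∈ S) - ind (w 0 ∈ S))) +
      ((ind (w 2 ∈ S) - ind ((Sum.inr 0 : V ⊕ Fin 1) ∈ Z)) +
        (ind ((Sum.inr 0 : V ⊕ Fin 1) ∈ Z) - ind (w 2 ∈ S))) +
      ((ind (w 3 ∈ S) - ind ((Sum.inr 0 : V ⊕ Fin 1) ∈ Z)) +
        (ind ((Sum.inr 0 : V ⊕ Fin 1) ∈ Z) - ind (w 3 ∈ S))) +
      ((ind (w 4 ∈ S) - ind ((Sum.inr 0 : V ⊕ Fin 1) ∈ Z)) +
        (ind ((Sum.inr 0 : V ⊕ Fin 1) ∈ Z) - ind (w 4 ∈ S))) := by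
    rw [Fin.sum_univ_four]
    simp only [ind_cross]
    rfl
  rw [e]
  refine arA _ S.ncard Sᶜ.ncard _ _ _ _ _ _ (ind_le _) (ind_le _) (ind_le _) (ind_le _) (ind_le _)
    (ind_le _) f1 g1 f2 g2 f3 g3 f4 g4 (pairZ h01 S) (pairW h01 S) ?_ ?_
  · rcases hZ with ⟨v | a, hv⟩
    · have := ncard_pos_of (S := S) ⟨v, hv⟩
      omega
    · have : a = 0 := Subsingleton.elim _ _
      subst this
      rw [ind_true hv]
      omega
  · rcases hZc with ⟨v | a, hv⟩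
    · have := ncard_pos_of (S := Sᶜ) ⟨v, hv⟩
      omega
    · have : a = 0 := Subsingleton.elim _ _
      subst this
      rw [ind_false hv]
      omega

theorem twoB {V E : Type} [Fintype V] [Fintype E] {s t : E → V} {w : Fin 6 → V}
    (h : ROK s t w) (h01 : w 0 ≠ w 1) : TwoEC (gs s w B1) (gs t w B2) := by
  intro Z hZ hZc
  rw [cut_glue]
  set S : Set V := {v | Sum.inl v ∈ Z} with hS
  obtain ⟨f1, f2, f3, f4⟩ := facts h S
  obtain ⟨g1, g2, g3, g4⟩ := facts h Sᶜ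
  rw [dl_compl, Fin.sum_univ_six] at g1 g2 g3 g4
  rw [dl, Fin.sum_univ_six] at f1 f2 f3 f4
  have e : ∑ j, ind (¬ (Sum.map w id (B1 j) ∈ Z ↔ Sum.map w id (B2 j) ∈ Z)) =
      ((ind (w 0 ∈ S) - ind (w 1 ∈ S)) + (ind (w 1 ∈ S) - ind (w 0 ∈ S))) +
      ((ind (w 2 ∈ S) - ind ((Sum.inr 0 : V ⊕ Fin 2) ∈ Z)) +
        (ind ((Sum.inr 0 : V ⊕ Fin 2) ∈ Z) - ind (w 2 ∈ S))) +
      ((ind (w 3 ∈ S) - ind ((Sum.inr 0 : V ⊕ Fin 2) ∈ Z)) +
        (ind ((Sum.inr 0 : V ⊕ Fin 2) ∈ Z) - ind (w 3 ∈ S))) +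
      ((ind ((Sum.inr 0 : V ⊕ Fin 2) ∈ Z) - ind ((Sum.inr 1 : V ⊕ Fin 2) ∈ Z)) +
        (ind ((Sum.inr 1 : V ⊕ Fin 2) ∈ Z) - ind ((Sum.inr 0 : V ⊕ Fin 2) ∈ Z))) +
      ((ind (w 4 ∈ S) - ind ((Sum.inr 1 : V ⊕ Fin 2) ∈ Z)) +
        (ind ((Sum.inr 1 : V ⊕ Fin 2) ∈ Z) - ind (w 4 ∈ S))) +
      ((ind (w 5 ∈ S) - ind ((Sum.inr 1 : V ⊕ Fin 2) ∈ Z)) +
        (ind ((Sum.inr 1 : V ⊕ Fin 2) ∈ Z) - ind (w 5 ∈ S))) := by
    rw [Fin.sum_univ_six]
    simp only [ind_cross]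
    rfl
  rw [e]
  refine arB _ S.ncard Sᶜ.ncard _ _ _ _ _ _ _ _ (ind_le _) (ind_le _) (ind_le _) (ind_le _)
    (ind_le _) (ind_le _) (ind_le _) (ind_le _) f1 g1 f2 g2 f3 g3 f4 g4 (pairZ h01 S)
    (pairW h01 S) ?_ ?_
  · rcases hZ with ⟨v | a, hv⟩
    · have := ncard_pos_of (S := S) ⟨v, hv⟩
      omega
    · fin_cases a
      · rw [ind_true (P := (Sum.inr 0 : V ⊕ Fin 2) ∈ Z) hv]
        omega
      · rw [ind_true (P := (Sum.inr 1 : V ⊕ Fin 2) ∈ Z) hv]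
        omega
  · rcases hZc with ⟨v | a, hv⟩
    · have := ncard_pos_of (S := Sᶜ) ⟨v, hv⟩
      omega
    · fin_cases a
      · rw [ind_false (P := (Sum.inr 0 : V ⊕ Fin 2) ∈ Z) hv]
        omega
      · rw [ind_false (P := (Sum.inr 1 : V ⊕ Fin 2) ∈ Z) hv]
        omega

theorem twoC {V E : Type} [Fintype V] [Fintype E] {s t : E → V} {w : Fin 6 → V}
    (h : ROK s t w) (h01 : w 0 ≠ w 1) (h23 : w 2 ≠ w 3) (h45 : w 4 ≠ w 5) :
    TwoEC (gs s w C1) (gs t w C2) := by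
  intro Z hZ hZc
  rw [cut_glue]
  set S : Set V := {v | Sum.inl v ∈ Z} with hS
  obtain ⟨f1, f2, f3, f4⟩ := facts h S
  obtain ⟨g1, g2, g3, g4⟩ := facts h Sᶜ
  rw [dl_compl, Fin.sum_univ_six] at g1 g2 g3 g4
  rw [dl, Fin.sum_univ_six] at f1 f2 f3 f4
  have e : ∑ j, ind (¬ (Sum.map w id (C1 j) ∈ Z ↔ Sum.map w id (C2 j) ∈ Z)) =
      ((ind (w 0 ∈ S) - ind (w 1 ∈ S)) + (ind (w 1 ∈ S) - ind (w 0 ∈ S))) +
      ((ind (w 2 ∈ S) - ind (w 3 ∈ S)) + (ind (w 3 ∈ S) - ind (w 2 ∈ S))) +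
      ((ind (w 4 ∈ S) - ind (w 5 ∈ S)) + (ind (w 5 ∈ S) - ind (w 4 ∈ S))) := by
    rw [Fin.sum_univ_three]
    simp only [ind_cross]
    rfl
  rw [e]
  refine arC _ S.ncard Sᶜ.ncard _ _ _ _ _ _ (ind_le _) (ind_le _) (ind_le _) (ind_le _) (ind_le _)
    (ind_le _) f1 g1 f2 g2 f3 g3 f4 g4 (fun h => ⟨pairZ h01 S h, pairZ h23 S h, pairZ h45 S h⟩)
    (fun h => ⟨pairW h01 S h, pairW h23 S h, pairW h45 S h⟩) ?_ ?_
  · rcases hZ with ⟨v | a, hv⟩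
    · exact ncard_pos_of (S := S) ⟨v, hv⟩
    · exact a.elim0
  · rcases hZc with ⟨v | a, hv⟩
    · exact ncard_pos_of (S := Sᶜ) ⟨v, hv⟩
    · exact a.elim0

theorem twoD {V E : Type} [Fintype V] [Fintype E] {s t : E → V} {w : Fin 4 → V}
    (h : ROK s t w) (h01 : w 0 ≠ w 1) (h23 : w 2 ≠ w 3) :
    TwoEC (gs s w D1) (gs t w D2) := by
  intro Z hZ hZc
  rw [cut_glue]
  set S : Set V := {v | Sum.inl v ∈ Z} with hS
  obtain ⟨f1, f2, f3, f4⟩ := facts h S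
  obtain ⟨g1, g2, g3, g4⟩ := facts h Sᶜ
  rw [dl_compl, Fin.sum_univ_four] at g1 g2 g3 g4
  rw [dl, Fin.sum_univ_four] at f1 f2 f3 f4
  have e : ∑ j, ind (¬ (Sum.map w id (D1 j) ∈ Z ↔ Sum.map w id (D2 j) ∈ Z)) =
      ((ind (w 0 ∈ S) - ind (w 1 ∈ S)) + (ind (w 1 ∈ S) - ind (w 0 ∈ S))) +
      ((ind (w 2 ∈ S) - ind (w 3 ∈ S)) + (ind (w 3 ∈ S) - ind (w 2 ∈ S))) := by
    rw [Fin.sum_univ_two]
    simp only [ind_cross]
    rfl
  rw [e]
  refine arD _ S.ncard Sᶜ.ncard _ _ _ _ (ind_le _) (ind_le _) (ind_le _) (ind_le _)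
    f1 g1 f2 g2 f3 g3 f4 g4 (fun h => ⟨pairZ h01 S h, pairZ h23 S h⟩)
    (fun h => ⟨pairW h01 S h, pairW h23 S h⟩) ?_ ?_
  · rcases hZ with ⟨v | a, hv⟩
    · exact ncard_pos_of (S := S) ⟨v, hv⟩
    · exact a.elim0
  · rcases hZc with ⟨v | a, hv⟩
    · exact ncard_pos_of (S := Sᶜ) ⟨v, hv⟩
    · exact a.elim0

/-! ### Degrees -/

theorem card_inl {V E ι : Type} [Fintype E] [Fintype ι] {k n : ℕ} (s t : E → V) (w : Fin k → V)
    (e1 e2 : ι → Fin k ⊕ Fin n) (pos : Fin k → ι × Bool)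
    (hpos : ∀ d i, en e1 e2 d = Sum.inl i ↔ d = pos i) (v : V) :
    Nat.card {d : (E ⊕ ι) × Bool // en (gs s w e1) (gs t w e2) d = Sum.inl v} =
      Nat.card {d : E × Bool // en s t d = v} + Nat.card {i // w i = v} := by
  classical
  have : Fintype {i // w i = v} := Fintype.ofFinite _
  rw [← Nat.card_sum]
  symm
  let F : {d : E × Bool // en s t d = v} ⊕ {i // w i = v} →
      {d : (E ⊕ ι) × Bool // en (gs s w e1) (gs t w e2) d = Sum.inl v} :=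
    Sum.elim (fun d => ⟨(Sum.inl d.1.1, d.1.2), by rw [en_gs_inl]; exact congrArg Sum.inl d.2⟩)
      (fun i => ⟨(Sum.inr (pos i.1).1, (pos i.1).2), by
        rw [en_gs_inr, show en e1 e2 ((pos i.1).1, (pos i.1).2) = Sum.inl i.1 from
          (hpos _ _).2 rfl]
        exact congrArg Sum.inl i.2⟩)
  apply Nat.card_eq_of_bijective F
  constructor
  · rintro (⟨⟨e, b⟩, h⟩ | ⟨i, h⟩) (⟨⟨e', b'⟩, h'⟩ | ⟨i', h'⟩) heq
    · simp only [F, Sum.elim_inl, Subtype.mk.injEq, Prod.mk.injEq, Sum.inl.injEq] at heq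
      simp [heq.1, heq.2]
    · simp [F] at heq
    · simp [F] at heq
    · simp only [F, Sum.elim_inr, Subtype.mk.injEq, Prod.mk.injEq, Sum.inr.injEq] at heq
      have h6 : pos i = pos i' := Prod.ext heq.1 heq.2
      have h7 := (hpos (pos i) i).2 rfl
      rw [h6, (hpos (pos i') i').2 rfl, Sum.inl.injEq] at h7
      subst h7
      rfl
  · rintro ⟨⟨e | j, b⟩, h⟩
    · refine ⟨Sum.inl ⟨(e, b), ?_⟩, rfl⟩
      rw [en_gs_inl, Sum.inl.injEq] at h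
      exact h
    · rw [en_gs_inr] at h
      rcases hq : en e1 e2 (j, b) with i | a
      · rw [hq, Sum.map_inl, Sum.inl.injEq] at h
        refine ⟨Sum.inr ⟨i, h⟩, ?_⟩
        have h5 := (hpos _ _).1 hq
        apply Subtype.ext
        simp only [F, Sum.elim_inr]
        rw [← h5]
      · rw [hq] at h
        simp at h

theorem card_inr {V E ι : Type} [Fintype E] [Fintype ι] {k n : ℕ} (s t : E → V) (w : Fin k → V)
    (e1 e2 : ι → Fin k ⊕ Fin n) (v : Fin n) :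
    Nat.card {d : (E ⊕ ι) × Bool // en (gs s w e1) (gs t w e2) d = Sum.inr v} =
      Nat.card {d : ι × Bool // en e1 e2 d = Sum.inr v} := by
  symm
  let F : {d : ι × Bool // en e1 e2 d = Sum.inr v} →
      {d : (E ⊕ ι) × Bool // en (gs s w e1) (gs t w e2) d = Sum.inr v} :=
    fun d => ⟨(Sum.inr d.1.1, d.1.2), by
      have h := d.2
      change en e1 e2 (d.1.1, d.1.2) = Sum.inr v at h
      rw [en_gs_inr, h]
      rfl⟩
  apply Nat.card_eq_of_bijective F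
  constructor
  · rintro ⟨⟨e, b⟩, h⟩ ⟨⟨e', b'⟩, h'⟩ heq
    simp only [F, Subtype.mk.injEq, Prod.mk.injEq, Sum.inr.injEq] at heq
    simp [heq.1, heq.2]
  · rintro ⟨⟨e | j, b⟩, h⟩
    · rw [en_gs_inl] at h
      simp at h
    · rw [en_gs_inr] at h
      rcases hq : en e1 e2 (j, b) with i | a
      · rw [hq] at h
        simp at h
      · rw [hq, Sum.map_inr, Sum.inr.injEq] at h
        exact ⟨⟨(j, b), by rw [hq, ← h]; rfl⟩, rfl⟩

theorem cubicY {V E ι κ : Type} [Fintype E] [Fintype ι] [Fintype κ] {k n n' : ℕ} {s t : E → V}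
    {w : Fin k → V} {e1 e2 : ι → Fin k ⊕ Fin n} {pos : Fin k → ι × Bool}
    (hpos : ∀ d i, en e1 e2 d = Sum.inl i ↔ d = pos i) {y1 y2 : κ → Fin k ⊕ Fin n'}
    {posy : Fin k → κ × Bool} (hposy : ∀ d i, en y1 y2 d = Sum.inl i ↔ d = posy i)
    (hy : ∀ v, Nat.card {d : κ × Bool // en y1 y2 d = Sum.inr v} = 3)
    (h : Cubic (gs s w e1) (gs t w e2)) : Cubic (gs s w y1) (gs t w y2) := by
  rintro (v | v)
  · rw [card_inl s t w y1 y2 posy hposy, ← card_inl s t w e1 e2 pos hpos]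
    exact h (Sum.inl v)
  · rw [card_inr]
    exact hy v

/-! ### Adjacent port vertices have different outer neighbours -/

theorem outer_ne {V E : Type} [Fintype V] [Fintype E] {k n q : ℕ} {s t : E → V} {w : Fin k → V}
    (X : Piece k n q) (hn : 4 ≤ n) (hc : Cubic (gs s w X.e1) (gs t w X.e2))
    (h3 : Ess (gs s w X.e1) (gs t w X.e2)) (i j : Fin k) (hij : X.p i ≠ X.p j) (e : Fin q)
    (he : (X.a e = X.p i ∧ X.b e = X.p j) ∨ (X.a e = X.p j ∧ X.b e = X.p i)) :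
    w i ≠ w j := by
  classical
  intro hw
  set Z : Set (V ⊕ Fin n) := {Sum.inl (w i), Sum.inr (X.p i), Sum.inr (X.p j)} with hZ
  have hcard : Z.ncard = 3 := by
    rw [hZ, Set.ncard_eq_three]
    exact ⟨_, _, _, by simp, by simp, by simpa using hij, rfl⟩
  have hh := handshake' _ _ hc Z
  have h4 : 3 ≤ ∑ y, ind ((gs s w X.e1) y ∈ Z ∧ (gs t w X.e2) y ∈ Z) := by
    have h5 : ∑ y ∈ ({Sum.inr (Sum.inl i), Sum.inr (Sum.inl j), Sum.inr (Sum.inr e)} :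
        Finset (E ⊕ (Fin k ⊕ Fin q))), ind ((gs s w X.e1) y ∈ Z ∧ (gs t w X.e2) y ∈ Z) ≤
        ∑ y, ind ((gs s w X.e1) y ∈ Z ∧ (gs t w X.e2) y ∈ Z) :=
      Finset.sum_le_sum_of_subset (subset_univ _)
    have hij' : i ≠ j := fun h => hij (by rw [h])
    rw [Finset.sum_insert (by simp [hij']), Finset.sum_insert (by simp), Finset.sum_singleton] at h5
    rw [ind_true, ind_true, ind_true] at h5
    · exact h5
    · constructor
      · change Sum.inr (X.a e) ∈ Z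
        rcases he with ⟨h, -⟩ | ⟨h, -⟩ <;> rw [h, hZ] <;> simp
      · change Sum.inr (X.b e) ∈ Z
        rcases he with ⟨-, h⟩ | ⟨-, h⟩ <;> rw [h, hZ] <;> simp
    · constructor
      · change Sum.inl (w j) ∈ Z
        rw [← hw, hZ]; simp
      · change Sum.inr (X.p j) ∈ Z
        rw [hZ]; simp
    · constructor
      · change Sum.inl (w i) ∈ Z
        rw [hZ]; simp
      · change Sum.inr (X.p i) ∈ Z
        rw [hZ]; simp
  rw [hcard] at hh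
  rcases h3 Z (by omega) with h6 | h6
  · omega
  · have h7 : (Z ∪ Zᶜ).ncard ≤ Z.ncard + Zᶜ.ncard := Set.ncard_union_le _ _
    rw [Set.union_compl_self, Set.ncard_univ, Nat.card_eq_fintype_card, Fintype.card_sum,
      Fintype.card_fin, hcard] at h7
    have h8 : 1 ≤ Fintype.card V := Fintype.card_pos_iff.2 ⟨w i⟩
    omega

end Pool.Agent.TH372.BFR
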