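import Mathlib

set_option autoImplicit false

/-! Definitions: finite graphs with loops and parallel edges are given by the two ends `s e` and
`t e` of each edge `e`. -/

namespace Pool.Agent.TH372.BFR

/-- some edge joins `u` and `v` -/
def Adj {V E : Type} (s t : E → V) (u v : V) : Prop :=
  ∃ e, (s e = u ∧ t e = v) ∨ (s e = v ∧ t e = u)

/-- The graph has a subgraph (not necessarily induced) isomorphic to the graph with vertex set
`Fin n` and edge list `L`. -/
def HasSub {V E : Type} (s t : E → V) (n : ℕ) (L : List (Fin n × Fin n)) : Prop :=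
  ∃ φ : Fin n → V, Function.Injective φ ∧ ∀ p ∈ L, Adj s t (φ p.1) (φ p.2)

/-- The number of ends at the vertex `v` of edges in `F`; the ends of the edge `e` are `s e` and
`t e`, and a loop has two ends at its vertex. -/
noncomputable def deg {V E : Type} (s t : E → V) (F : Set E) (v : V) : ℕ :=
  Nat.card {d : E × Bool // (if d.2 then t d.1 else s d.1) = v ∧ d.1 ∈ F}

/-- A quadruple cover by six even subgraphs. -/
def QuadrupleCover {V E : Type} (s t : E → V) : Prop :=
  ∃ C : Fin 6 → Set E, (∀ i v, Even (deg s t (C i) v)) ∧ ∀ e, Nat.card {i : Fin 6 // e ∈ C i} = 4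

/-- every vertex has degree three -/
def IsCubic {V E : Type} (s t : E → V) : Prop := ∀ v, deg s t Set.univ v = 3

/-- connected, and no cut edge: every vertex set other than the empty set and the set of all
vertices is left by at least two edges -/
def IsTwoEdgeConnected {V E : Type} (s t : E → V) : Prop :=
  ∀ Z : Set V, Z.Nonempty → Zᶜ.Nonempty → 2 ≤ Nat.card {e : E // ¬ (s e ∈ Z ↔ t e ∈ Z)}

/-- A 2-edge-connected cubic graph without a quadruple cover by six even subgraphs, such that every
2-edge-connected cubic graph with fewer vertices has one. -/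
structure IsSmallestCounterexample {V E : Type} [Fintype V] [Fintype E] (s t : E → V) : Prop where
  cubic : IsCubic s t
  conn : IsTwoEdgeConnected s t
  no : ¬ QuadrupleCover s t
  least : ∀ (V' E' : Type) [Fintype V'] [Fintype E'] (s' t' : E' → V'), IsCubic s' t' →
    IsTwoEdgeConnected s' t' → Fintype.card V' < Fintype.card V → QuadrupleCover s' t'

/-- The vertices `φ 0, …, φ 4` form a cycle of length five. -/
def IsFiveCycle {V E : Type} (s t : E → V) (φ : Fin 5 → V) : Prop :=
  Function.Injective φ ∧ ∀ i, Adj s t (φ i) (φ (i + 1))

end Pool.Agent.TH372.BFR
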