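import Pool.Agent.TH372.BFR.Main

set_option autoImplicit false

/-! Extending a configuration by a vertex adjacent to two of its vertices. -/

namespace Pool.Agent.TH372.BFR

open Finset

/-- A copy of the inner edges of a piece such that no further edge joins two vertices of the image
is a copy of the piece. -/
theorem contains_of {V E : Type} [Fintype V] [Fintype E] {k n q : ℕ} {s t : E → V}
    {X : Piece k n q} (hX : X.Good) (hp : Function.Injective X.p) (hc : Cubic s t)
    (φ : Fin n → V) (ψ : Fin q → E) (hφ : Function.Injective φ) (hψ : Function.Injective ψ)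
    (h1 : ∀ j, (s (ψ j) = φ (X.a j) ∧ t (ψ j) = φ (X.b j)) ∨
      (s (ψ j) = φ (X.b j) ∧ t (ψ j) = φ (X.a j)))
    (h2 : ∀ e a b, s e = φ a → t e = φ b → ∃ j, ψ j = e) : Contains s t X := by
  classical
  -- at the vertex of a port there is an edge-end outside ψ
  have hex : ∀ i : Fin k, ∃ d : E × Bool, en s t d = φ (X.p i) ∧ ∀ j, ψ j ≠ d.1 := by
    intro i
    by_contra hno
    push Not at hno
    -- use orientation bits to have an injection into ends of X other than the port end
    have ho : ∀ j, ∃ o : Bool, ∀ b, en s t (ψ j, b) = φ (en X.a X.b (j, xor o b)) := by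
      intro j
      rcases h1 j with ⟨g1, g2⟩ | ⟨g1, g2⟩
      · refine ⟨false, fun b => ?_⟩
        cases b
        · exact g1
        · exact g2
      · refine ⟨true, fun b => ?_⟩
        cases b
        · exact g1
        · exact g2
    choose o ho using ho
    have hch : ∀ d : {d : E × Bool // en s t d = φ (X.p i)}, ∃ j, ψ j = d.1.1 := fun d =>
      hno d.1 d.2
    choose J hJ using hch
    let F : Option {d : E × Bool // en s t d = φ (X.p i)} →
        {d : (Fin k ⊕ Fin q) × Bool // en X.e1 X.e2 d = Sum.inr (X.p i)} := fun x =>
      match x with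
      | none => ⟨(Sum.inl i, true), rfl⟩
      | some d => ⟨(Sum.inr (J d), xor (o (J d)) d.1.2), by
          have h5 := ho (J d) d.1.2
          have h6 : en s t (ψ (J d), d.1.2) = φ (X.p i) := by rw [hJ d]; exact d.2
          have h7 := hφ (h5.symm.trans h6)
          rcases hb : xor (o (J d)) d.1.2 with _ | _
          · rw [hb] at h7
            exact congrArg Sum.inr h7
          · rw [hb] at h7
            exact congrArg Sum.inr h7⟩
    have hF : Function.Injective F := by
      rintro (_ | d) (_ | d') h
      · rfl
      · exfalso
        have h := congrArg (fun z => z.1.1) h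
        simp [F] at h
      · exfalso
        have h := congrArg (fun z => z.1.1) h
        simp [F] at h
      · simp only [F, Subtype.mk.injEq, Prod.mk.injEq, Sum.inr.injEq] at h
        have h5 : d.1.1 = d'.1.1 := by rw [← hJ d, ← hJ d', h.1]
        have h6 := h.2
        rw [h.1] at h6
        have h7 : d.1.2 = d'.1.2 := by simpa using h6
        rw [show d = d' from Subtype.ext (Prod.ext h5 h7)]
    have h8 := Nat.card_le_card_of_injective F hF
    have h9 : Nat.card (Option {d : E × Bool // en s t d = φ (X.p i)}) = 3 + 1 := by
      rw [Nat.card_eq_fintype_card, Fintype.card_option, ← Nat.card_eq_fintype_card, hc]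
    rw [hX (X.p i), h9] at h8
    omega
  choose D hD1 hD2 using hex
  have hDout : ∀ i a, en s t ((D i).1, !(D i).2) ≠ φ a := by
    intro i a h
    rcases hb : (D i).2 with _ | _
    · rw [hb] at h
      have h3 := hD1 i
      have h4 : s (D i).1 = φ (X.p i) := by
        have : D i = ((D i).1, false) := Prod.ext rfl hb
        rw [this] at h3; exact h3
      obtain ⟨j, hj⟩ := h2 (D i).1 _ _ h4 h
      exact hD2 i j hj
    · rw [hb] at h
      have h3 := hD1 i
      have h4 : t (D i).1 = φ (X.p i) := by
        have : D i = ((D i).1, true) := Prod.ext rfl hb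
        rw [this] at h3; exact h3
      obtain ⟨j, hj⟩ := h2 (D i).1 _ _ h h4
      exact hD2 i j hj
  refine ⟨φ, ψ, fun i => (D i).1, hφ, hψ, ?_, h1, ?_⟩
  · intro i i' h
    simp only at h
    by_cases hb : (D i).2 = (D i').2
    · have h3 : D i = D i' := Prod.ext h hb
      have h4 := hD1 i
      rw [h3, hD1 i'] at h4
      exact (hp (hφ h4)).symm
    · exfalso
      have h5 : (D i').2 = !(D i).2 := by
        cases h6 : (D i).2 <;> cases h7 : (D i').2 <;> simp_all
      have h6 := hDout i (X.p i')
      rw [h, ← h5] at h6
      exact h6 (hD1 i')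
  · intro i
    rcases hb : (D i).2 with _ | _
    · left
      have h3 : D i = ((D i).1, false) := Prod.ext rfl hb
      have h4 := hD1 i
      rw [h3] at h4
      have h5 := hDout i
      rw [hb] at h5
      exact ⟨h4, h5⟩
    · right
      have h3 : D i = ((D i).1, true) := Prod.ext rfl hb
      have h4 := hD1 i
      rw [h3] at h4
      have h5 := hDout i
      rw [hb] at h5
      exact ⟨h4, h5⟩

end Pool.Agent.TH372.BFR
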