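import Pool.Agent.TH372.BFR.Bound12
import Pool.Agent.TH372.BFR.N12x1
import Pool.Agent.TH372.BFR.N12x2
import Pool.Agent.TH372.BFR.N12x3
import Pool.Agent.TH372.BFR.N12x4
import Pool.Agent.TH372.BFR.N12x5
import Pool.Agent.TH372.BFR.N12x6
import Pool.Agent.TH372.BFR.N12x7
import Pool.Agent.TH372.BFR.N12x8

set_option autoImplicit false

/-! The excluded subgraphs with twelve vertices. -/

namespace Pool.Agent.TH372.BFR

open Finset

/-- edges of the configuration N12x1 -/
def N12x1.L : List (Fin 12 × Fin 12) :=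
  [(0, 1), (0, 2), (0, 3), (1, 4), (2, 5), (3, 6), (4, 7), (4, 8), (5, 9), (5, 10), (6, 7), (6,
    11), (8, 9), (8, 11), (10, 11)]

theorem N12x1.no_sub {V E : Type} [Fintype V] [Fintype E] {s t : E → V} (hS : Smallest s t) :
    ¬ HasSub s t 12 N12x1.L := by
  rintro ⟨φ, hφ, h⟩
  have h1 : ∀ j, Adj s t (φ (N12x1.X.a j)) (φ (N12x1.X.b j)) := fun j =>
    h (N12x1.X.a j, N12x1.X.b j) (by revert j; decide +kernel)
  exact no_sub12 N12x1.X N12x1.good (by decide +kernel) (by decide +kernel) (by decide +kernel)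
    (by decide +kernel) hS (N12x1.no hS) φ hφ h1

/-- edges of the configuration N12x2 -/
def N12x2.L : List (Fin 12 × Fin 12) :=
  [(0, 1), (0, 2), (0, 3), (1, 4), (2, 5), (3, 6), (4, 7), (4, 8), (5, 9), (5, 10), (6, 7), (6,
    11), (7, 9), (8, 11), (10, 11)]

theorem N12x2.no_sub {V E : Type} [Fintype V] [Fintype E] {s t : E → V} (hS : Smallest s t) :
    ¬ HasSub s t 12 N12x2.L := by
  rintro ⟨φ, hφ, h⟩
  have h1 : ∀ j, Adj s t (φ (N12x2.X.a j)) (φ (N12x2.X.b j)) := fun j =>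
    h (N12x2.X.a j, N12x2.X.b j) (by revert j; decide +kernel)
  exact no_sub12 N12x2.X N12x2.good (by decide +kernel) (by decide +kernel) (by decide +kernel)
    (by decide +kernel) hS (N12x2.no hS) φ hφ h1

/-- edges of the configuration N12x3 -/
def N12x3.L : List (Fin 12 × Fin 12) :=
  [(0, 1), (0, 2), (0, 3), (1, 4), (2, 5), (3, 6), (4, 7), (4, 8), (5, 9), (5, 10), (6, 7), (6,
    9), (8, 10), (8, 11), (9, 11)]

theorem N12x3.no_sub {V E : Type} [Fintype V] [Fintype E] {s t : E → V} (hS : Smallest s t) :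
    ¬ HasSub s t 12 N12x3.L := by
  rintro ⟨φ, hφ, h⟩
  have h1 : ∀ j, Adj s t (φ (N12x3.X.a j)) (φ (N12x3.X.b j)) := fun j =>
    h (N12x3.X.a j, N12x3.X.b j) (by revert j; decide +kernel)
  exact no_sub12 N12x3.X N12x3.good (by decide +kernel) (by decide +kernel) (by decide +kernel)
    (by decide +kernel) hS (N12x3.no hS) φ hφ h1

/-- edges of the configuration N12x4 -/
def N12x4.L : List (Fin 12 × Fin 12) :=
  [(0, 1), (0, 2), (0, 3), (1, 4), (2, 5), (3, 6), (4, 7), (4, 8), (5, 6), (5, 9), (6, 10), (7,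
    9), (8, 10), (8, 11), (9, 11)]

theorem N12x4.no_sub {V E : Type} [Fintype V] [Fintype E] {s t : E → V} (hS : Smallest s t) :
    ¬ HasSub s t 12 N12x4.L := by
  rintro ⟨φ, hφ, h⟩
  have h1 : ∀ j, Adj s t (φ (N12x4.X.a j)) (φ (N12x4.X.b j)) := fun j =>
    h (N12x4.X.a j, N12x4.X.b j) (by revert j; decide +kernel)
  exact no_sub12 N12x4.X N12x4.good (by decide +kernel) (by decide +kernel) (by decide +kernel)
    (by decide +kernel) hS (N12x4.no hS) φ hφ h1

/-- edges of the configuration N12x5 -/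
def N12x5.L : List (Fin 12 × Fin 12) :=
  [(0, 1), (0, 2), (0, 3), (1, 4), (2, 5), (3, 6), (4, 7), (4, 8), (5, 6), (5, 9), (6, 7), (7,
    10), (8, 11), (9, 11), (10, 11)]

theorem N12x5.no_sub {V E : Type} [Fintype V] [Fintype E] {s t : E → V} (hS : Smallest s t) :
    ¬ HasSub s t 12 N12x5.L := by
  rintro ⟨φ, hφ, h⟩
  have h1 : ∀ j, Adj s t (φ (N12x5.X.a j)) (φ (N12x5.X.b j)) := fun j =>
    h (N12x5.X.a j, N12x5.X.b j) (by revert j; decide +kernel)
  exact no_sub12 N12x5.X N12x5.good (by decide +kernel) (by decide +kernel) (by decide +kernel)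
    (by decide +kernel) hS (N12x5.no hS) φ hφ h1

/-- edges of the configuration N12x6 -/
def N12x6.L : List (Fin 12 × Fin 12) :=
  [(0, 1), (0, 2), (0, 3), (1, 4), (2, 5), (3, 6), (3, 7), (4, 8), (4, 9), (5, 10), (5, 11), (6,
    8), (7, 10), (8, 11), (9, 10)]

theorem N12x6.no_sub {V E : Type} [Fintype V] [Fintype E] {s t : E → V} (hS : Smallest s t) :
    ¬ HasSub s t 12 N12x6.L := by
  rintro ⟨φ, hφ, h⟩
  have h1 : ∀ j, Adj s t (φ (N12x6.X.a j)) (φ (N12x6.X.b j)) := fun j =>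
    h (N12x6.X.a j, N12x6.X.b j) (by revert j; decide +kernel)
  exact no_sub12 N12x6.X N12x6.good (by decide +kernel) (by decide +kernel) (by decide +kernel)
    (by decide +kernel) hS (N12x6.no hS) φ hφ h1

/-- edges of the configuration N12x7 -/
def N12x7.L : List (Fin 12 × Fin 12) :=
  [(0, 1), (0, 2), (0, 3), (1, 4), (1, 5), (2, 6), (3, 7), (4, 6), (5, 8), (6, 9), (7, 8), (7,
    10), (8, 11), (9, 10), (9, 11)]

theorem N12x7.no_sub {V E : Type} [Fintype V] [Fintype E] {s t : E → V} (hS : Smallest s t) :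
    ¬ HasSub s t 12 N12x7.L := by
  rintro ⟨φ, hφ, h⟩
  have h1 : ∀ j, Adj s t (φ (N12x7.X.a j)) (φ (N12x7.X.b j)) := fun j =>
    h (N12x7.X.a j, N12x7.X.b j) (by revert j; decide +kernel)
  exact no_sub12 N12x7.X N12x7.good (by decide +kernel) (by decide +kernel) (by decide +kernel)
    (by decide +kernel) hS (N12x7.no hS) φ hφ h1

/-- edges of the configuration N12x8 -/
def N12x8.L : List (Fin 12 × Fin 12) :=
  [(0, 1), (0, 2), (0, 3), (1, 4), (1, 5), (2, 6), (3, 7), (4, 8), (5, 9), (6, 8), (6, 10), (7,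
    9), (7, 10), (8, 11), (9, 11)]

theorem N12x8.no_sub {V E : Type} [Fintype V] [Fintype E] {s t : E → V} (hS : Smallest s t) :
    ¬ HasSub s t 12 N12x8.L := by
  rintro ⟨φ, hφ, h⟩
  have h1 : ∀ j, Adj s t (φ (N12x8.X.a j)) (φ (N12x8.X.b j)) := fun j =>
    h (N12x8.X.a j, N12x8.X.b j) (by revert j; decide +kernel)
  exact no_sub12 N12x8.X N12x8.good (by decide +kernel) (by decide +kernel) (by decide +kernel)
    (by decide +kernel) hS (N12x8.no hS) φ hφ h1

end Pool.Agent.TH372.BFR
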