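import Pool.Agent.TH372.BFR.CapFinal
import Pool.Agent.TH372.BFR.CapData12
import Pool.Agent.TH372.BFR.Subs3

set_option autoImplicit false

/-! The final forms of the statements on sets with at most fourteen vertices. -/

namespace Pool.Agent.TH372.BFR

open Finset

theorem cfgs12_lt : ∀ c ∈ cfgs12, ∀ p ∈ c.2, p.1 < c.1 ∧ p.2 < c.1 := by decide +kernel

theorem excl_cfgs12 {V E : Type} [Fintype V] [Fintype E] {s t : E → V} (hS : Smallest s t)
    (h5 : 5 ≤ Fintype.card V) : Excl (Adj s t) cfgs12 := by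
  have hC := excl_cfgs hS h5
  intro c hc
  simp only [cfgs12, List.mem_cons, List.not_mem_nil, or_false] at hc
  rcases hc with rfl | rfl | rfl | rfl | rfl | rfl | rfl | rfl | rfl | rfl | rfl | rfl | rfl |
    rfl | rfl | rfl | rfl | rfl | rfl | rfl | rfl | rfl | rfl
  · exact hC _ (by simp [cfgs])
  · exact hC _ (by simp [cfgs])
  · exact hC _ (by simp [cfgs])
  · exact hC _ (by simp [cfgs])
  · exact hC _ (by simp [cfgs])
  · exact hC _ (by simp [cfgs])
  · exact hC _ (by simp [cfgs])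
  · exact hC _ (by simp [cfgs])
  · exact hC _ (by simp [cfgs])
  · exact hC _ (by simp [cfgs])
  · exact hC _ (by simp [cfgs])
  · exact hC _ (by simp [cfgs])
  · exact hC _ (by simp [cfgs])
  · exact hC _ (by simp [cfgs])
  · exact excl_of Row.L _ (by decide +kernel) (Row.no_sub hS)
  · exact excl_of N12x1.L _ (by decide +kernel) (N12x1.no_sub hS)
  · exact excl_of N12x2.L _ (by decide +kernel) (N12x2.no_sub hS)
  · exact excl_of N12x3.L _ (by decide +kernel) (N12x3.no_sub hS)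
  · exact excl_of N12x4.L _ (by decide +kernel) (N12x4.no_sub hS)
  · exact excl_of N12x5.L _ (by decide +kernel) (N12x5.no_sub hS)
  · exact excl_of N12x6.L _ (by decide +kernel) (N12x6.no_sub hS)
  · exact excl_of N12x7.L _ (by decide +kernel) (N12x7.no_sub hS)
  · exact excl_of N12x8.L _ (by decide +kernel) (N12x8.no_sub hS)

section

variable {V : Type} {A : V → V → Prop}

theorem b12 (hs : ∀ u v, A u v → A v u) (hc : Excl A cfgs) (hc12 : Excl A cfgs12) :
    ∀ Z : Finset V, Z.card = 12 → DD A Z ≤ 28 := by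
  classical
  intro Z hZ
  by_contra hlt
  have h3 : ∀ v ∈ Z, nb A Z v ≤ 3 := fun v _ => nb_le_three (by simp [cfgs]) hc Z v
  have hD : 30 ≤ DD A Z := by
    obtain ⟨r, hr⟩ := DD_even hs Z
    omega
  have hD' := b12w hs hc Z hZ
  have h2 : ∀ v ∈ Z, 2 ≤ nb A Z v := by
    intro v hv
    by_contra h
    have h4 := DD_erase hs Z v hv
    have h5 := b11 hs hc (Z.erase v) (by rw [Finset.card_erase_of_mem hv, hZ])
    omega
  have hex : ∃ v ∈ Z, nb A Z v ≤ 2 := by
    by_contra hcon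
    push Not at hcon
    have h7 : ∑ v ∈ Z, 3 ≤ DD A Z := Finset.sum_le_sum fun v hv => hcon v hv
    rw [Finset.sum_const, hZ, smul_eq_mul] at h7
    omega
  obtain ⟨v, hv, hv2⟩ := hex
  refine sound3 hs hc12 cfgs12_lt hZ h2 h3 hD (fun Z' hZ' => bound hs hc 10 le_rfl Z' hZ') hv2
    cert12 1 [] [] [] (fun _ => v) cert12_ok rfl ⟨?_, fun _ _ => hv, by simp, by simp, by simp⟩
  intro i hi j hj _
  omega

theorem b13 (hs : ∀ u v, A u v → A v u) (hc : Excl A cfgs) (hc12 : Excl A cfgs12) :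
    ∀ Z : Finset V, Z.card = 13 → DD A Z ≤ 32 :=
  step_bound hs (fun Z v => nb_le_three (by simp [cfgs]) hc Z v) 12 28 (b12 hs hc hc12)
    (by norm_num)

theorem b14 (hs : ∀ u v, A u v → A v u) (hc : Excl A cfgs) (hc12 : Excl A cfgs12) :
    ∀ Z : Finset V, Z.card = 14 → DD A Z ≤ 36 :=
  step_bound hs (fun Z v => nb_le_three (by simp [cfgs]) hc Z v) 13 32 (b13 hs hc hc12)
    (by norm_num)

end

/-- lower bound for the number of edges leaving a set with `n` vertices -/
def lowb (n : ℕ) : ℕ := ([0, 0, 0, 0, 0, 0, 6, 7, 6, 7, 8, 7, 8, 7, 6] : List ℕ).getD n 0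

theorem cut_lowb {V E : Type} [Fintype V] [Fintype E] {s t : E → V} (hS : Smallest s t)
    (Z : Set V) (h6 : 6 ≤ Z.ncard) (h14 : Z.ncard ≤ 14) : lowb Z.ncard ≤ cut s t Z := by
  classical
  have hV : 5 ≤ Fintype.card V := by
    have := Set.ncard_le_card Z
    rw [Nat.card_eq_fintype_card] at this
    omega
  have h3 := ess_of_min hS.cubic hS.two hS.below hS.no (by omega)
  have hh := handshake' s t hS.cubic Z
  have hn : Z.toFinset.card = Z.ncard := (Set.ncard_eq_toFinset_card' Z).symm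
  have h7 := inner_le hS.cubic hS.two h3 hV Z Z.toFinset (fun v => Set.mem_toFinset)
  have hs : ∀ u v, Adj s t u v → Adj s t v u := fun u v h => h.symm
  have hc := excl_cfgs hS hV
  have hc12 := excl_cfgs12 hS hV
  have h8 : DD (Adj s t) Z.toFinset + lowb Z.ncard ≤ 3 * Z.ncard := by
    have b := bound hs hc
    have c11 := b11 hs hc Z.toFinset
    have c12 := b12 hs hc hc12 Z.toFinset
    have c13 := b13 hs hc hc12 Z.toFinset
    have c14 := b14 hs hc hc12 Z.toFinset
    rw [hn] at c11 c12 c13 c14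
    obtain ⟨n, hnn⟩ : ∃ n, n = Z.ncard := ⟨_, rfl⟩
    rw [← hnn] at h6 h14 hn c11 c12 c13 c14 ⊢
    interval_cases n
    · have := b 6 (by norm_num) Z.toFinset hn
      have e : gB 6 = 6 := by decide
      have e' : lowb 6 = 6 := by decide
      omega
    · have := b 7 (by norm_num) Z.toFinset hn
      have e : gB 7 = 7 := by decide
      have e' : lowb 7 = 7 := by decide
      omega
    · have := b 8 (by norm_num) Z.toFinset hn
      have e : gB 8 = 9 := by decide
      have e' : lowb 8 = 6 := by decide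
      omega
    · have := b 9 (by norm_num) Z.toFinset hn
      have e : gB 9 = 10 := by decide
      have e' : lowb 9 = 7 := by decide
      omega
    · have := b 10 (by norm_num) Z.toFinset hn
      have e : gB 10 = 11 := by decide
      have e' : lowb 10 = 8 := by decide
      omega
    · have := c11 rfl
      have e' : lowb 11 = 7 := by decide
      omega
    · have := c12 rfl
      have e' : lowb 12 = 8 := by decide
      omega
    · have := c13 rfl
      have e' : lowb 13 = 7 := by decide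
      omega
    · have := c14 rfl
      have e' : lowb 14 = 6 := by decide
      omega
  omega

theorem cut_compl' {V E : Type} [Fintype E] (s t : E → V) (Z : Set V) :
    cut s t Zᶜ = cut s t Z := by
  classical
  unfold cut
  congr 1
  ext e
  simp only [mem_filter, mem_univ, true_and, Set.mem_compl_iff]
  tauto

/-- edge cuts with at most five edges -/
theorem five_cut {V E : Type} [Fintype V] [Fintype E] {s t : E → V} (hS : Smallest s t)
    (Z : Set V) (hZ : Nat.card {e : E // ¬ (s e ∈ Z ↔ t e ∈ Z)} ≤ 5) :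
    Nat.card Z ≤ 5 ∨ Nat.card ↥Zᶜ ≤ 5 ∨ (15 ≤ Nat.card Z ∧ 15 ≤ Nat.card ↥Zᶜ) := by
  rw [cut_eq] at hZ
  rw [Nat.card_coe_set_eq, Nat.card_coe_set_eq]
  have hl : ∀ n, 6 ≤ n → n ≤ 14 → 6 ≤ lowb n := by
    intro n h1 h2
    interval_cases n <;> decide
  have h1 : ¬ (6 ≤ Z.ncard ∧ Z.ncard ≤ 14) := by
    rintro ⟨a, b⟩
    have := cut_lowb hS Z a b
    have := hl _ a b
    omega
  have h2 : ¬ (6 ≤ Zᶜ.ncard ∧ Zᶜ.ncard ≤ 14) := by
    rintro ⟨a, b⟩
    have := cut_lowb hS Zᶜ a b
    rw [cut_compl'] at this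
    have := hl _ a b
    omega
  omega

/-- edge cuts with six edges -/
theorem six_cut {V E : Type} [Fintype V] [Fintype E] {s t : E → V} (hS : Smallest s t)
    (Z : Set V) (hZ : Nat.card {e : E // ¬ (s e ∈ Z ↔ t e ∈ Z)} = 6) :
    (Nat.card Z ≤ 6 ∨ Nat.card Z = 8) ∨ (Nat.card ↥Zᶜ ≤ 6 ∨ Nat.card ↥Zᶜ = 8) ∨
      (14 ≤ Nat.card Z ∧ 14 ≤ Nat.card ↥Zᶜ) := by
  rw [cut_eq] at hZ
  rw [Nat.card_coe_set_eq, Nat.card_coe_set_eq]
  have hl : ∀ n, 7 ≤ n → n ≤ 13 → n ≠ 8 → 7 ≤ lowb n := by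
    intro n h1 h2 h3
    interval_cases n <;> first | decide | exact absurd rfl h3
  have h1 : ¬ (7 ≤ Z.ncard ∧ Z.ncard ≤ 13 ∧ Z.ncard ≠ 8) := by
    rintro ⟨a, b, c⟩
    have := cut_lowb hS Z (by omega) (by omega)
    have := hl _ a b c
    omega
  have h2 : ¬ (7 ≤ Zᶜ.ncard ∧ Zᶜ.ncard ≤ 13 ∧ Zᶜ.ncard ≠ 8) := by
    rintro ⟨a, b, c⟩
    have := cut_lowb hS Zᶜ (by omega) (by omega)
    rw [cut_compl'] at this
    have := hl _ a b c
    omega
  omega

/-- sets with 7, 9, 11 or 13 vertices -/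
theorem odd_sets {V E : Type} [Fintype V] [Fintype E] {s t : E → V} (hS : Smallest s t)
    (Z : Set V) (hZ : Nat.card Z ∈ ({7, 9, 11, 13} : Set ℕ)) :
    7 ≤ Nat.card {e : E // ¬ (s e ∈ Z ↔ t e ∈ Z)} := by
  rw [cut_eq]
  rw [Nat.card_coe_set_eq] at hZ
  simp only [Set.mem_insert_iff, Set.mem_singleton_iff] at hZ
  have h := cut_lowb hS Z (by omega) (by omega)
  have hl : lowb Z.ncard = 7 := by
    rcases hZ with hZ | hZ | hZ | hZ <;> rw [hZ] <;> decide
  omega

/-- sets with 10 or 12 vertices -/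
theorem even_sets {V E : Type} [Fintype V] [Fintype E] {s t : E → V} (hS : Smallest s t)
    (Z : Set V) (hZ : Nat.card Z ∈ ({10, 12} : Set ℕ)) :
    8 ≤ Nat.card {e : E // ¬ (s e ∈ Z ↔ t e ∈ Z)} := by
  rw [cut_eq]
  rw [Nat.card_coe_set_eq] at hZ
  simp only [Set.mem_insert_iff, Set.mem_singleton_iff] at hZ
  have h := cut_lowb hS Z (by omega) (by omega)
  have hl : lowb Z.ncard = 8 := by
    rcases hZ with hZ | hZ <;> rw [hZ] <;> decide
  omega

end Pool.Agent.TH372.BFR
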