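import Mathlib

set_option autoImplicit false

/-! Cycles of length five in a graph of maximum degree three without cycles of length three and four
and without three given subgraphs. -/

namespace Pool.Agent.TH372.BFR

/-- a cycle of length five -/
structure Cyc {V : Type} (A : V → V → Prop) (a b c d e : V) : Prop where
  ab : A a b
  bc : A b c
  cd : A c d
  de : A d e
  ea : A e a
  nab : a ≠ b
  nac : a ≠ c
  nad : a ≠ d
  nae : a ≠ e
  nbc : b ≠ c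
  nbd : b ≠ d
  nbe : b ≠ e
  ncd : c ≠ d
  nce : c ≠ e
  nde : d ≠ e

/-- the graph has maximum degree three, no cycles of length three and four, and none of three
given subgraphs -/
structure Ctx {V : Type} (A : V → V → Prop) : Prop where
  symm : ∀ u v, A u v → A v u
  deg : ∀ v a b c d, A v a → A v b → A v c → A v d → a ≠ b → a ≠ c → a ≠ d → b ≠ c → b ≠ d →
    c ≠ d → False
  tri : ∀ u v w, A u v → A v w → A w u → u ≠ v → u ≠ w → v ≠ w → False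
  quad : ∀ u v w x, A u v → A v w → A w x → A x u → u ≠ v → u ≠ w → u ≠ x → v ≠ w → v ≠ x →
    w ≠ x → False
  theta : ∀ φ : Fin 7 → V, Function.Injective φ →
    (∀ p ∈ ([(0, 1), (0, 2), (0, 3), (2, 4), (1, 5), (4, 6), (5, 6), (3, 6)] :
      List (Fin 7 × Fin 7)), A (φ p.1) (φ p.2)) → False
  around : ∀ φ : Fin 10 → V, Function.Injective φ →
    (∀ p ∈ ([(0, 1), (1, 2), (1, 3), (2, 4), (0, 5), (4, 6), (3, 7), (0, 8), (8, 9),
      (2, 9), (5, 7), (3, 6)] : List (Fin 10 × Fin 10)), A (φ p.1) (φ p.2)) → False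
  row : ∀ φ : Fin 11 → V, Function.Injective φ →
    (∀ p ∈ ([(0, 1), (1, 2), (2, 3), (3, 4), (4, 0), (0, 5), (5, 6), (6, 7), (7, 1),
      (2, 8), (8, 9), (9, 10), (10, 3)] : List (Fin 11 × Fin 11)), A (φ p.1) (φ p.2)) → False

variable {V : Type} {A : V → V → Prop}

theorem Cyc.rot {a b c d e : V} (h : Cyc A a b c d e) : Cyc A b c d e a :=
  ⟨h.bc, h.cd, h.de, h.ea, h.ab, h.nbc, h.nbd, h.nbe, h.nab.symm, h.ncd, h.nce, h.nac.symm,
    h.nde, h.nad.symm, h.nae.symm⟩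

theorem Cyc.ref (hA : Ctx A) {a b c d e : V} (h : Cyc A a b c d e) : Cyc A a e d c b :=
  ⟨hA.symm _ _ h.ea, hA.symm _ _ h.de, hA.symm _ _ h.cd, hA.symm _ _ h.bc, hA.symm _ _ h.ab,
    h.nae, h.nad, h.nac, h.nab, h.nde.symm, h.nce.symm, h.nbe.symm, h.ncd.symm, h.nbd.symm,
    h.nbc.symm⟩

/-- exchange of the first two vertices -/
theorem Cyc.flip (hA : Ctx A) {v x a b c : V} (h : Cyc A v x a b c) : Cyc A x v c b a :=
  (h.ref hA).rot.rot.rot.rot

def S5 (a b c d e : V) : Set V := {a, b, c, d, e}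

theorem S5_rot (a b c d e : V) : S5 b c d e a = S5 a b c d e := by
  ext z; simp only [S5, Set.mem_insert_iff, Set.mem_singleton_iff]; tauto

theorem S5_flip (v x a b c : V) : S5 x v c b a = S5 v x a b c := by
  ext z; simp only [S5, Set.mem_insert_iff, Set.mem_singleton_iff]; tauto

theorem S5_ref (a b c d e : V) : S5 a e d c b = S5 a b c d e := by
  ext z; simp only [S5, Set.mem_insert_iff, Set.mem_singleton_iff]; tauto

/-- two cycles with a common path of length two are equal -/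
theorem half (hA : Ctx A) {v x a b c r s : V} (h : Cyc A v x a b c) (h' : Cyc A v x a r s) :
    b = r ∧ c = s := by
  by_cases hbr : b = r
  · subst hbr
    refine ⟨rfl, ?_⟩
    by_contra hcs
    exact hA.quad v c b s (hA.symm _ _ h.ea) (hA.symm _ _ h.de) h'.de h'.ea h.nae h.nad h'.nae
      h.nde.symm hcs h'.nde
  · exfalso
    by_cases hcs : c = s
    · subst hcs
      exact hA.quad a b c r h.cd h.de (hA.symm _ _ h'.de) (hA.symm _ _ h'.cd) h.ncd h.nce h'.ncd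
        h.nde hbr h'.nde.symm
    · have hbs : b ≠ s := by
        rintro rfl
        exact hA.quad v x a b h.ab h.bc h.cd h'.ea h.nab h.nac h.nad h.nbc h.nbd h.ncd
      have hcr : c ≠ r := by
        rintro rfl
        exact hA.quad v x a c h.ab h.bc h'.cd h.ea h.nab h.nac h.nae h.nbc h.nbe h.nce
      have k1 := h.nab
      have k2 := h.nac
      have k3 := h.nad
      have k4 := h.nae
      have k5 := h.nbc
      have k6 := h.nbd
      have k7 := h.nbe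
      have k8 := h.ncd
      have k9 := h.nce
      have k10 := h.nde
      have l3 := h'.nad
      have l4 := h'.nae
      have l6 := h'.nbd
      have l7 := h'.nbe
      have l8 := h'.ncd
      have l9 := h'.nce
      have l10 := h'.nde
      refine hA.theta ![v, c, s, x, r, b, a] ?_ ?_
      · rw [← List.nodup_ofFn]
        simp only [List.ofFn_succ, List.ofFn_zero, List.nodup_cons, List.mem_cons,
          List.not_mem_nil, or_false, not_or, not_false_eq_true, List.nodup_nil, and_true]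
        refine ⟨⟨?_, ?_, ?_, ?_, ?_, ?_⟩, ⟨?_, ?_, ?_, ?_, ?_⟩, ⟨?_, ?_, ?_, ?_⟩, ⟨?_, ?_, ?_⟩,
          ⟨?_, ?_⟩, ?_⟩ <;> first | assumption | (apply Ne.symm; assumption)
      · intro p hp
        simp only [List.mem_cons, List.not_mem_nil, or_false] at hp
        rcases hp with rfl | rfl | rfl | rfl | rfl | rfl | rfl | rfl
        · exact hA.symm _ _ h.ea
        · exact hA.symm _ _ h'.ea
        · exact h.ab
        · exact hA.symm _ _ h'.de
        · exact hA.symm _ _ h.de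
        · exact hA.symm _ _ h'.cd
        · exact hA.symm _ _ h.cd
        · exact h.bc

/-- two different cycles with a common edge have no other common vertex -/
theorem disj (hA : Ctx A) {v x a b c q r s : V} (h : Cyc A v x a b c) (h' : Cyc A v x q r s)
    (hne : S5 v x a b c ≠ S5 v x q r s) :
    (a ≠ q ∧ a ≠ r ∧ a ≠ s) ∧ (b ≠ q ∧ b ≠ r ∧ b ≠ s) ∧ (c ≠ q ∧ c ≠ r ∧ c ≠ s) := by
  have haq : a ≠ q := by
    rintro rfl
    obtain ⟨rfl, rfl⟩ := half hA h h'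
    exact hne rfl
  have hcs : c ≠ s := by
    rintro rfl
    obtain ⟨rfl, rfl⟩ := half hA (h.flip hA) (h'.flip hA)
    exact hne rfl
  have has : a ≠ s := by
    rintro rfl
    exact hA.tri v x a h.ab h.bc h'.ea h.nab h.nac h.nbc
  have hcq : c ≠ q := by
    rintro rfl
    exact hA.tri v x c h.ab h'.bc h.ea h.nab h.nae h.nbe
  have hbq : b ≠ q := by
    rintro rfl
    exact hA.tri x a b h.bc h.cd (hA.symm _ _ h'.bc) h.nbc h.nbd h.ncd
  have hbs : b ≠ s := by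
    rintro rfl
    exact hA.quad v x a b h.ab h.bc h.cd h'.ea h.nab h.nac h.nad h.nbc h.nbd h.ncd
  have har : a ≠ r := by
    rintro rfl
    exact hA.deg a x b q s (hA.symm _ _ h.bc) h.cd (hA.symm _ _ h'.cd) h'.de h.nbd h'.nbc h'.nbe
      hbq hbs h'.nce
  have hcr : c ≠ r := by
    rintro rfl
    exact hA.deg c v b q s h.ea (hA.symm _ _ h.de) (hA.symm _ _ h'.cd) h'.de h.nad h'.nac h'.nae
      hbq hbs h'.nce
  have hbr : b ≠ r := by
    rintro rfl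
    exact hA.deg b a c q s (hA.symm _ _ h.cd) h.de (hA.symm _ _ h'.cd) h'.de h.nce haq has hcq hcs
      h'.nce
  exact ⟨⟨haq, har, has⟩, ⟨hbq, hbr, hbs⟩, hcq, hcr, hcs⟩

/-- common edge at a common vertex -/
theorem edge_at (hA : Ctx A) {v x a b c p q r s : V} (h : Cyc A v x a b c)
    (h' : Cyc A v p q r s) : ∃ i j k, (Cyc A v x i j k ∧ S5 v x i j k = S5 v p q r s) ∨
      (Cyc A c v i j k ∧ S5 c v i j k = S5 v p q r s) := by
  by_cases h1 : x = p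
  · subst h1
    exact ⟨q, r, s, Or.inl ⟨h', rfl⟩⟩
  · by_cases h2 : x = s
    · subst h2
      exact ⟨r, q, p, Or.inl ⟨h'.ref hA, S5_ref _ _ _ _ _⟩⟩
    · by_cases h3 : c = s
      · subst h3
        exact ⟨p, q, r, Or.inr ⟨h'.rot.rot.rot.rot, by
          rw [← S5_rot c v p q r]⟩⟩
      · by_cases h4 : c = p
        · subst h4
          exact ⟨s, r, q, Or.inr ⟨h'.flip hA, S5_flip _ _ _ _ _⟩⟩
        · exfalso
          exact hA.deg v x c p s h.ab (hA.symm _ _ h.ea) h'.ab (hA.symm _ _ h'.ea) h.nbe h1 h2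
            h4 h3 h'.nbe

/-- rotate a cycle to start at a given vertex -/
theorem start {a b c d e y : V} (h : Cyc A a b c d e) (hy : y ∈ S5 a b c d e) :
    ∃ p q r s, Cyc A y p q r s ∧ S5 y p q r s = S5 a b c d e := by
  simp only [S5, Set.mem_insert_iff, Set.mem_singleton_iff] at hy
  rcases hy with rfl | rfl | rfl | rfl | rfl
  · exact ⟨_, _, _, _, h, rfl⟩
  · exact ⟨_, _, _, _, h.rot, S5_rot _ _ _ _ _⟩
  · exact ⟨_, _, _, _, h.rot.rot, by rw [S5_rot, S5_rot]⟩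
  · exact ⟨_, _, _, _, h.rot.rot.rot, by rw [S5_rot, S5_rot, S5_rot]⟩
  · exact ⟨_, _, _, _, h.rot.rot.rot.rot, by rw [S5_rot, S5_rot, S5_rot, S5_rot]⟩

/-- same edge -/
theorem case1 (hA : Ctx A) {v x a b c q r s q' r' s' : V} (h0 : Cyc A v x a b c)
    (h1 : Cyc A v x q r s) (h2 : Cyc A v x q' r' s') (n1 : S5 v x a b c ≠ S5 v x q r s)
    (n2 : S5 v x a b c ≠ S5 v x q' r' s') : S5 v x q r s = S5 v x q' r' s' := by
  by_contra hne
  obtain ⟨⟨a1, -, -⟩, -, -⟩ := disj hA h0 h1 n1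
  obtain ⟨⟨a2, -, -⟩, -, -⟩ := disj hA h0 h2 n2
  obtain ⟨⟨a3, -, -⟩, -, -⟩ := disj hA h1 h2 hne
  exact hA.deg x v a q q' (hA.symm _ _ h0.ab) h0.bc h1.bc h2.bc h0.nac h1.nac h2.nac a1 a2 a3

/-- adjacent edges -/
theorem case2 (hA : Ctx A) {v x a b c q r s q' r' s' : V} (h0 : Cyc A v x a b c)
    (h1 : Cyc A v x q r s) (h2 : Cyc A x a q' r' s') (n1 : S5 v x a b c ≠ S5 v x q r s)
    (n2 : S5 v x a b c ≠ S5 x a q' r' s') : False := by
  obtain ⟨⟨a1, a2, a3⟩, ⟨a4, a5, a6⟩, a7, a8, a9⟩ := disj hA h0 h1 n1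
  obtain ⟨⟨b1, b2, b3⟩, ⟨b4, b5, b6⟩, b7, b8, b9⟩ := disj hA h0.rot h2 (by
    rw [S5_rot]; exact n2)
  -- s' = q
  have hs : s' = q := by
    by_contra hsq
    exact hA.deg x v a q s' (hA.symm _ _ h0.ab) h0.bc h1.bc (hA.symm _ _ h2.ea) h0.nac h1.nac b9
      a1 h2.nbe (Ne.symm hsq)
  subst hs
  have h1' : Cyc A x s' r s v := h1.rot
  have h2' : Cyc A x s' r' q' a := h2.ref hA
  obtain ⟨⟨c1, c2, c3⟩, ⟨c4, c5, c6⟩, c7, c8, c9⟩ := disj hA h1' h2' (by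
    intro h
    have hv : v ∈ S5 x s' r' q' a := by
      rw [← h]; simp [S5]
    simp only [S5, Set.mem_insert_iff, Set.mem_singleton_iff] at hv
    rcases hv with hv | hv | hv | hv | hv
    · exact h0.nab hv
    · exact b9 hv
    · exact b8 hv
    · exact b7 hv
    · exact h0.nac hv)
  have k1 := h0.nab
  have k2 := h0.nac
  have k3 := h0.nad
  have k4 := h0.nae
  have k5 := h0.nbc
  have k6 := h0.nbd
  have k7 := h0.nbe
  have k8 := h0.ncd
  have k9 := h0.nce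
  have k10 := h0.nde
  have l2 := h1.nac
  have l3 := h1.nad
  have l4 := h1.nae
  have l5 := h1.nbc
  have l6 := h1.nbd
  have l7 := h1.nbe
  have l8 := h1.ncd
  have l9 := h1.nce
  have l10 := h1.nde
  have m2 := h2.nac
  have m3 := h2.nad
  have m5 := h2.nbc
  have m6 := h2.nbd
  have m7 := h2.nbe
  have m8 := h2.ncd
  have m9 := h2.nce
  have m10 := h2.nde
  refine hA.around ![v, x, a, s', q', s, r', r, c, b] ?_ ?_
  · rw [← List.nodup_ofFn]
    simp only [List.ofFn_succ, List.ofFn_zero, List.nodup_cons, List.mem_cons,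
      List.not_mem_nil, or_false, not_or, not_false_eq_true, List.nodup_nil, and_true]
    refine ⟨⟨?_, ?_, ?_, ?_, ?_, ?_, ?_, ?_, ?_⟩, ⟨?_, ?_, ?_, ?_, ?_, ?_, ?_, ?_⟩,
      ⟨?_, ?_, ?_, ?_, ?_, ?_, ?_⟩, ⟨?_, ?_, ?_, ?_, ?_, ?_⟩, ⟨?_, ?_, ?_, ?_, ?_⟩,
      ⟨?_, ?_, ?_, ?_⟩, ⟨?_, ?_, ?_⟩, ⟨?_, ?_⟩, ?_⟩ <;>
      first | assumption | (apply Ne.symm; assumption)
  · intro p hp
    simp only [List.mem_cons, List.not_mem_nil, or_false] at hp
    rcases hp with rfl | rfl | rfl | rfl | rfl | rfl | rfl | rfl | rfl | rfl | rfl | rfl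
    · exact h0.ab
    · exact h0.bc
    · exact h1.bc
    · exact h2.bc
    · exact hA.symm _ _ h1.ea
    · exact h2.cd
    · exact h1.cd
    · exact hA.symm _ _ h0.ea
    · exact hA.symm _ _ h0.de
    · exact h0.cd
    · exact hA.symm _ _ h1.de
    · exact hA.symm _ _ h2.de

/-- edges at distance one -/
theorem case3 (hA : Ctx A) {v x a b c q r s q' r' s' : V} (h0 : Cyc A v x a b c)
    (h1 : Cyc A v x q r s) (h2 : Cyc A a b q' r' s') (n1 : S5 v x a b c ≠ S5 v x q r s)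
    (n2 : S5 v x a b c ≠ S5 a b q' r' s') : False := by
  obtain ⟨⟨a1, a2, a3⟩, ⟨a4, a5, a6⟩, a7, a8, a9⟩ := disj hA h0 h1 n1
  obtain ⟨⟨b1, b2, b3⟩, ⟨b4, b5, b6⟩, b7, b8, b9⟩ := disj hA h0.rot.rot h2 (by
    rw [S5_rot, S5_rot]; exact n2)
  have k1 := h0.nab
  have k2 := h0.nac
  have k3 := h0.nad
  have k4 := h0.nae
  have k5 := h0.nbc
  have k6 := h0.nbd
  have k7 := h0.nbe
  have k8 := h0.ncd
  have k9 := h0.nce
  have k10 := h0.nde
  have l2 := h1.nac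
  have l3 := h1.nad
  have l4 := h1.nae
  have l5 := h1.nbc
  have l6 := h1.nbd
  have l7 := h1.nbe
  have l8 := h1.ncd
  have l9 := h1.nce
  have l10 := h1.nde
  have m2 := h2.nac
  have m3 := h2.nad
  have m4 := h2.nae
  have m5 := h2.nbc
  have m6 := h2.nbd
  have m7 := h2.nbe
  have m8 := h2.ncd
  have m9 := h2.nce
  have m10 := h2.nde
  -- short cycles
  have e1 : q ≠ q' := by
    intro h
    exact hA.quad x q b a h1.bc (by rw [h]; exact hA.symm _ _ h2.bc) (hA.symm _ _ h0.cd)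
      (hA.symm _ _ h0.bc) l5 k6 k5 (Ne.symm a4) (Ne.symm a1) (Ne.symm k8)
  have e2 : q ≠ s' := by
    intro h
    exact hA.tri x q a h1.bc (by rw [h]; exact h2.ea) (hA.symm _ _ h0.bc) l5 k5 (Ne.symm a1)
  have e3 : s ≠ q' := by
    intro h
    exact hA.quad v s b c (hA.symm _ _ h1.ea) (by rw [h]; exact hA.symm _ _ h2.bc) h0.de h0.ea
      l4 k3 k4 (Ne.symm a6) (Ne.symm a9) k10
  have e4 : s ≠ s' := by
    intro h
    exact hA.quad v s a x (hA.symm _ _ h1.ea) (by rw [h]; exact h2.ea) (hA.symm _ _ h0.bc)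
      (hA.symm _ _ h0.ab) l4 k2 k1 (Ne.symm a3) (Ne.symm l7) (Ne.symm k5)
  have e5 : r ≠ r' := by
    intro h
    exact hA.deg r q s q' s' (hA.symm _ _ h1.cd) h1.de (by rw [h]; exact hA.symm _ _ h2.cd)
      (by rw [h]; exact h2.de) l9 e1 e2 e3 e4 m9
  -- 5-cycles sharing three vertices with the first cycle
  have f1 : ¬ (A x q ∧ A q r ∧ A r b) := by
    rintro ⟨g1, g2, g3⟩
    have h4 : Cyc A x a b r q := ⟨h0.bc, h0.cd, hA.symm _ _ g3, hA.symm _ _ g2, hA.symm _ _ g1,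
      k5, k6, l6, l5, k8, a2, a1, a5, a4, Ne.symm l8⟩
    obtain ⟨g, -⟩ := half hA h0.rot h4
    exact a8 g
  have f2 : ¬ (A v s ∧ A s r ∧ A r b) := by
    rintro ⟨g1, g2, g3⟩
    have h4 : Cyc A b c v s r := ⟨h0.de, h0.ea, g1, g2, g3,
      k10, Ne.symm k3, a6, a5, Ne.symm k4, a9, a8, l4, l3, Ne.symm l10⟩
    obtain ⟨g, -⟩ := half hA h0.rot.rot.rot h4
    exact l7 g
  have f3 : ¬ (A v s ∧ A s r ∧ A r a) := by
    rintro ⟨g1, g2, g3⟩
    have h4 : Cyc A v x a r s := ⟨h0.ab, h0.bc, hA.symm _ _ g3, hA.symm _ _ g2, hA.symm _ _ g1,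
      k1, k2, l3, l4, k5, l6, l7, a2, a3, l10⟩
    obtain ⟨g, -⟩ := half hA h0 h4
    exact a5 g
  have vs := hA.symm _ _ h1.ea
  have sr := hA.symm _ _ h1.de
  -- r = q'
  have e6 : r ≠ q' := by
    intro h
    have g1 : A r b := by rw [h]; exact hA.symm _ _ h2.bc
    exact f1 ⟨h1.bc, h1.cd, g1⟩
  have e7 : r ≠ s' := by
    intro h
    have g1 : A r a := by rw [h]; exact h2.ea
    exact f3 ⟨vs, sr, g1⟩
  -- q = r'
  have e8 : q ≠ r' := by
    intro h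
    exact hA.deg q x r q' s' (hA.symm _ _ h1.bc) h1.cd (by rw [h]; exact hA.symm _ _ h2.cd)
      (by rw [h]; exact h2.de) l6 b7 b9 e6 e7 m9
  have e9 : s ≠ r' := by
    intro h
    exact hA.deg s v r q' s' h1.ea sr (by rw [h]; exact hA.symm _ _ h2.cd)
      (by rw [h]; exact h2.de) l3 b4 b6 e6 e7 m9
  refine hA.row ![v, x, a, b, c, s, r, q, s', r', q'] ?_ ?_
  · rw [← List.nodup_ofFn]
    simp only [List.ofFn_succ, List.ofFn_zero, List.nodup_cons, List.mem_cons,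
      List.not_mem_nil, or_false, not_or, not_false_eq_true, List.nodup_nil, and_true]
    refine ⟨⟨?_, ?_, ?_, ?_, ?_, ?_, ?_, ?_, ?_, ?_⟩, ⟨?_, ?_, ?_, ?_, ?_, ?_, ?_, ?_, ?_⟩,
      ⟨?_, ?_, ?_, ?_, ?_, ?_, ?_, ?_⟩, ⟨?_, ?_, ?_, ?_, ?_, ?_, ?_⟩, ⟨?_, ?_, ?_, ?_, ?_, ?_⟩,
      ⟨?_, ?_, ?_, ?_, ?_⟩, ⟨?_, ?_, ?_, ?_⟩, ⟨?_, ?_, ?_⟩, ⟨?_, ?_⟩, ?_⟩ <;>
      first | assumption | (apply Ne.symm; assumption)
  · intro p hp
    simp only [List.mem_cons, List.not_mem_nil, or_false] at hp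
    rcases hp with rfl | rfl | rfl | rfl | rfl | rfl | rfl | rfl | rfl | rfl | rfl | rfl | rfl
    · exact h0.ab
    · exact h0.bc
    · exact h0.cd
    · exact h0.de
    · exact h0.ea
    · exact vs
    · exact sr
    · exact hA.symm _ _ h1.cd
    · exact hA.symm _ _ h1.bc
    · exact hA.symm _ _ h2.ea
    · exact hA.symm _ _ h2.de
    · exact hA.symm _ _ h2.cd
    · exact hA.symm _ _ h2.bc

/-- a cycle of length five meets at most one other cycle of length five -/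
theorem main_cyc (hA : Ctx A) {a0 b0 c0 d0 e0 a1 b1 c1 d1 e1 a2 b2 c2 d2 e2 : V}
    (h0 : Cyc A a0 b0 c0 d0 e0) (h1 : Cyc A a1 b1 c1 d1 e1) (h2 : Cyc A a2 b2 c2 d2 e2)
    (m1 : (S5 a0 b0 c0 d0 e0 ∩ S5 a1 b1 c1 d1 e1).Nonempty)
    (m2 : (S5 a0 b0 c0 d0 e0 ∩ S5 a2 b2 c2 d2 e2).Nonempty)
    (n1 : S5 a0 b0 c0 d0 e0 ≠ S5 a1 b1 c1 d1 e1) (n2 : S5 a0 b0 c0 d0 e0 ≠ S5 a2 b2 c2 d2 e2) :
    S5 a1 b1 c1 d1 e1 = S5 a2 b2 c2 d2 e2 := by
  -- normal form of the first two cycles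
  have key : ∃ v x a b c q r s, Cyc A v x a b c ∧ S5 v x a b c = S5 a0 b0 c0 d0 e0 ∧
      Cyc A v x q r s ∧ S5 v x q r s = S5 a1 b1 c1 d1 e1 := by
    obtain ⟨y, hy0, hy1⟩ := m1
    obtain ⟨x, a, b, c, g1, g2⟩ := start h0 hy0
    obtain ⟨p, q, r, s, g3, g4⟩ := start h1 hy1
    obtain ⟨i, j, k, ⟨g5, g6⟩ | ⟨g5, g6⟩⟩ := edge_at hA g1 g3
    · exact ⟨y, x, a, b, c, i, j, k, g1, g2, g5, g6.trans g4⟩
    · exact ⟨c, y, x, a, b, i, j, k, g1.rot.rot.rot.rot, by rw [← g2, ← S5_rot c y x a b], g5,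
        g6.trans g4⟩
  obtain ⟨v, x, a, b, c, q, r, s, k0, k1, k2, k3⟩ := key
  rw [← k1] at m2 n1 n2
  rw [← k3] at n1 ⊢
  -- position of the third cycle
  have key2 : ∃ i j k, (Cyc A v x i j k ∧ S5 v x i j k = S5 a2 b2 c2 d2 e2) ∨
      (Cyc A x a i j k ∧ S5 x a i j k = S5 a2 b2 c2 d2 e2) ∨
      (Cyc A a b i j k ∧ S5 a b i j k = S5 a2 b2 c2 d2 e2) ∨
      (Cyc A b c i j k ∧ S5 b c i j k = S5 a2 b2 c2 d2 e2) ∨
      (Cyc A c v i j k ∧ S5 c v i j k = S5 a2 b2 c2 d2 e2) := by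
    obtain ⟨y, hy0, hy2⟩ := m2
    obtain ⟨p, q, r, s, g3, g4⟩ := start h2 hy2
    simp only [S5, Set.mem_insert_iff, Set.mem_singleton_iff] at hy0
    rcases hy0 with rfl | rfl | rfl | rfl | rfl
    · obtain ⟨i, j, k, ⟨g5, g6⟩ | ⟨g5, g6⟩⟩ := edge_at hA k0 g3
      · exact ⟨i, j, k, Or.inl ⟨g5, g6.trans g4⟩⟩
      · exact ⟨i, j, k, Or.inr (Or.inr (Or.inr (Or.inr ⟨g5, g6.trans g4⟩)))⟩
    · obtain ⟨i, j, k, ⟨g5, g6⟩ | ⟨g5, g6⟩⟩ := edge_at hA k0.rot g3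
      · exact ⟨i, j, k, Or.inr (Or.inl ⟨g5, g6.trans g4⟩)⟩
      · exact ⟨i, j, k, Or.inl ⟨g5, g6.trans g4⟩⟩
    · obtain ⟨i, j, k, ⟨g5, g6⟩ | ⟨g5, g6⟩⟩ := edge_at hA k0.rot.rot g3
      · exact ⟨i, j, k, Or.inr (Or.inr (Or.inl ⟨g5, g6.trans g4⟩))⟩
      · exact ⟨i, j, k, Or.inr (Or.inl ⟨g5, g6.trans g4⟩)⟩
    · obtain ⟨i, j, k, ⟨g5, g6⟩ | ⟨g5, g6⟩⟩ := edge_at hA k0.rot.rot.rot g3
      · exact ⟨i, j, k, Or.inr (Or.inr (Or.inr (Or.inl ⟨g5, g6.trans g4⟩)))⟩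
      · exact ⟨i, j, k, Or.inr (Or.inr (Or.inl ⟨g5, g6.trans g4⟩))⟩
    · obtain ⟨i, j, k, ⟨g5, g6⟩ | ⟨g5, g6⟩⟩ := edge_at hA k0.rot.rot.rot.rot g3
      · exact ⟨i, j, k, Or.inr (Or.inr (Or.inr (Or.inr ⟨g5, g6.trans g4⟩)))⟩
      · exact ⟨i, j, k, Or.inr (Or.inr (Or.inr (Or.inl ⟨g5, g6.trans g4⟩)))⟩
  obtain ⟨i, j, k, ⟨g1, g2⟩ | ⟨g1, g2⟩ | ⟨g1, g2⟩ | ⟨g1, g2⟩ | ⟨g1, g2⟩⟩ := key2
  · rw [← g2] at n2 ⊢
    exact case1 hA k0 k2 g1 n1 n2
  · rw [← g2] at n2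
    exact (case2 hA k0 k2 g1 n1 n2).elim
  · rw [← g2] at n2
    exact (case3 hA k0 k2 g1 n1 n2).elim
  · rw [← g2] at n2
    refine (case3 hA (k0.flip hA) (k2.flip hA) (g1.flip hA) ?_ ?_).elim
    · intro h
      exact n1 ((S5_flip v x a b c).symm.trans (h.trans (S5_flip v x q r s)))
    · intro h
      exact n2 ((S5_flip v x a b c).symm.trans (h.trans (S5_flip b c i j k)))
  · rw [← g2] at n2
    refine (case2 hA (k0.flip hA) (k2.flip hA) (g1.flip hA) ?_ ?_).elim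
    · intro h
      exact n1 ((S5_flip v x a b c).symm.trans (h.trans (S5_flip v x q r s)))
    · intro h
      exact n2 ((S5_flip v x a b c).symm.trans (h.trans (S5_flip c v i j k)))

end Pool.Agent.TH372.BFR
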