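import Pool.Agent.TH372.BFR.Jaeger
import Pool.Agent.TH372.BFR.Five

set_option autoImplicit false

/-! Cycles of length five in a smallest counterexample. -/

namespace Pool.Agent.TH372.BFR

theorem ctx_of {V E : Type} [Fintype V] [Fintype E] {s t : E → V} (hS : Smallest s t)
    (h5 : 5 ≤ Fintype.card V) : Ctx (Adj s t) := by
  have h3 := ess_of_min hS.cubic hS.two hS.below hS.no (by omega)
  refine ⟨fun u v h => h.symm, ?_, ?_, ?_, ?_, ?_, ?_⟩
  · intro v a b c d ha hb hc hd nab nac nad nbc nbd ncd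
    refine N3 hS.cubic (v := v) ![a, b, c, d] ?_ ?_
    · rw [← List.nodup_ofFn]
      simp only [List.ofFn_succ, List.ofFn_zero, List.nodup_cons, List.mem_cons,
        List.not_mem_nil, or_false, not_or, not_false_eq_true, List.nodup_nil, and_true]
      exact ⟨⟨nab, nac, nad⟩, ⟨nbc, nbd⟩, ncd⟩
    · intro i
      fin_cases i
      · exact ha
      · exact hb
      · exact hc
      · exact hd
  · intro u v w a b c n1 n2 n3
    exact G3 hS.cubic h3 h5 n1 n2 n3 a b c
  · intro u v w x a b c d n1 n2 n3 n4 n5 n6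
    exact G4 hS h3 h5 n1 n2 n3 n4 n5 n6 a b c d
  · intro φ hφ h
    exact no_theta_sub hS ⟨φ, hφ, h⟩
  · intro φ hφ h
    exact N10x8.no_sub hS ⟨φ, hφ, h⟩
  · intro φ hφ h
    exact Row.no_sub hS ⟨φ, hφ, h⟩

theorem cyc_of {V E : Type} {s t : E → V} {C : Fin 5 → V} (h : IsFiveCycle s t C) :
    Cyc (Adj s t) (C 0) (C 1) (C 2) (C 3) (C 4) := by
  obtain ⟨h1, h2⟩ := h
  have hne : ∀ i j : Fin 5, i ≠ j → C i ≠ C j := fun i j hij h => hij (h1 h)
  exact ⟨h2 0, h2 1, h2 2, h2 3, h2 4, hne _ _ (by decide), hne _ _ (by decide),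
    hne _ _ (by decide), hne _ _ (by decide), hne _ _ (by decide), hne _ _ (by decide),
    hne _ _ (by decide), hne _ _ (by decide), hne _ _ (by decide), hne _ _ (by decide)⟩

theorem range_five {V : Type} (C : Fin 5 → V) :
    Set.range C = S5 (C 0) (C 1) (C 2) (C 3) (C 4) := by
  ext z
  simp only [S5, Set.mem_range, Set.mem_insert_iff, Set.mem_singleton_iff]
  constructor
  · rintro ⟨i, rfl⟩
    fin_cases i <;> simp
  · rintro (rfl | rfl | rfl | rfl | rfl)
    · exact ⟨0, rfl⟩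
    · exact ⟨1, rfl⟩
    · exact ⟨2, rfl⟩
    · exact ⟨3, rfl⟩
    · exact ⟨4, rfl⟩

/-- a cycle of length five meets at most one other cycle of length five -/
theorem five_cycles {V E : Type} [Fintype V] [Fintype E] {s t : E → V} (hS : Smallest s t)
    (C₀ C₁ C₂ : Fin 5 → V) (h0 : IsFiveCycle s t C₀) (h1 : IsFiveCycle s t C₁)
    (h2 : IsFiveCycle s t C₂) (m1 : (Set.range C₀ ∩ Set.range C₁).Nonempty)
    (m2 : (Set.range C₀ ∩ Set.range C₂).Nonempty) (n1 : Set.range C₀ ≠ Set.range C₁)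
    (n2 : Set.range C₀ ≠ Set.range C₂) : Set.range C₁ = Set.range C₂ := by
  have h5 := card_of (E := E) C₀ h0.1
  rw [range_five C₀, range_five C₁] at m1 n1
  rw [range_five C₀, range_five C₂] at m2 n2
  rw [range_five C₁, range_five C₂]
  exact main_cyc (ctx_of hS h5) (cyc_of h0) (cyc_of h1) (cyc_of h2) m1 m2 n1 n2

end Pool.Agent.TH372.BFR
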