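import Pool.Agent.TH372.BFR.Code

set_option autoImplicit false

/-! Gluing a small cubic piece to the outer part; colourings of glued graphs. -/

namespace Pool.Agent.TH372.BFR

open Finset

/-- six perfect matchings covering each edge twice, in Boolean form -/
def BFb {V E : Type} (s t : E → V) : Prop :=
  ∃ f : Fin 6 → E → Bool, (∀ c v, ∃! d : E × Bool, en s t d = v ∧ f c d.1 = true) ∧
    ∀ e, (univ.filter fun c => f c e = true).card = 2

/-- the ends of the edges of the glued graph -/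
def gs {V E ι : Type} {k n : ℕ} (s : E → V) (w : Fin k → V) (e1 : ι → Fin k ⊕ Fin n) :
    E ⊕ ι → V ⊕ Fin n :=
  Sum.elim (fun e => Sum.inl (s e)) (fun j => Sum.map w id (e1 j))

/-- colouring of a piece -/
def PC {ι : Type} {k n : ℕ} (e1 e2 : ι → Fin k ⊕ Fin n) (g : Fin 6 → ι → Bool) : Prop :=
  (∀ c (v : Fin n), ∃! d : ι × Bool, en e1 e2 d = Sum.inr v ∧ g c d.1 = true) ∧
    ∀ y, (univ.filter fun c => g c y = true).card = 2

variable {V E ι : Type} {k n : ℕ}

theorem en_gs_inl (s t : E → V) (w : Fin k → V) (e1 e2 : ι → Fin k ⊕ Fin n) (e : E) (b : Bool) :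
    en (gs s w e1) (gs t w e2) (Sum.inl e, b) = Sum.inl (en s t (e, b)) := by
  cases b <;> rfl

theorem en_gs_inr (s t : E → V) (w : Fin k → V) (e1 e2 : ι → Fin k ⊕ Fin n) (j : ι) (b : Bool) :
    en (gs s w e1) (gs t w e2) (Sum.inr j, b) = Sum.map w id (en e1 e2 (j, b)) := by
  cases b <;> rfl

theorem glue_bf {s t : E → V} {w : Fin k → V} {e1 e2 : ι → Fin k ⊕ Fin n}
    (pos : Fin k → ι × Bool) (hpos : ∀ d i, en e1 e2 d = Sum.inl i ↔ d = pos i)
    {f : Fin 6 → E ⊕ Fin k → Bool} (hf : Lab s t w f) {g : Fin 6 → ι → Bool} (hg : PC e1 e2 g)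
    (hfg : ∀ c i, f c (Sum.inr i) = g c (pos i).1) : BFb (gs s w e1) (gs t w e2) := by
  refine ⟨fun c => Sum.elim (fun e => f c (Sum.inl e)) (g c), ?_, ?_⟩
  · intro c v
    rcases v with v | v
    · obtain ⟨d0, ⟨h1, h2⟩, h3⟩ := hf.pm c v
      rcases d0 with ⟨e, b⟩ | i
      · refine ⟨(Sum.inl e, b), ⟨?_, h2⟩, ?_⟩
        · simp only [en_gs_inl]
          exact congrArg Sum.inl h1
        · rintro ⟨e' | j, b'⟩ ⟨g1, g2⟩
          · simp only [en_gs_inl, Sum.inl.injEq] at g1
            have h4 := h3 (Sum.inl (e', b')) ⟨g1, g2⟩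
            simp only [Sum.inl.injEq, Prod.mk.injEq] at h4
            rw [h4.1, h4.2]
          · exfalso
            simp only [en_gs_inr] at g1
            rcases hq : en e1 e2 (j, b') with i | a
            · rw [hq, Sum.map_inl, Sum.inl.injEq] at g1
              have h4 := (hpos _ _).1 hq
              have h5 := h3 (Sum.inr i) ⟨g1, by
                change f c (Sum.inr i) = true
                rw [hfg, ← h4]; exact g2⟩
              simp at h5
            · rw [hq] at g1
              simp at g1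
      · refine ⟨(Sum.inr (pos i).1, (pos i).2), ⟨?_, ?_⟩, ?_⟩
        · simp only [en_gs_inr]
          have h4 : en e1 e2 ((pos i).1, (pos i).2) = Sum.inl i := (hpos _ _).2 rfl
          rw [h4, Sum.map_inl]
          exact congrArg Sum.inl h1
        · change g c (pos i).1 = true
          rw [← hfg]; exact h2
        · rintro ⟨e' | j, b'⟩ ⟨g1, g2⟩
          · exfalso
            simp only [en_gs_inl, Sum.inl.injEq] at g1
            have h4 := h3 (Sum.inl (e', b')) ⟨g1, g2⟩
            simp at h4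
          · simp only [en_gs_inr] at g1
            rcases hq : en e1 e2 (j, b') with i' | a
            · rw [hq, Sum.map_inl, Sum.inl.injEq] at g1
              have h4 := (hpos _ _).1 hq
              have h5 := h3 (Sum.inr i') ⟨g1, by
                change f c (Sum.inr i') = true
                rw [hfg, ← h4]; exact g2⟩
              rw [Sum.inr.injEq] at h5
              subst h5
              rw [← h4]
            · rw [hq] at g1
              simp at g1
    · obtain ⟨⟨j, b⟩, ⟨h1, h2⟩, h3⟩ := hg.1 c v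
      refine ⟨(Sum.inr j, b), ⟨?_, h2⟩, ?_⟩
      · simp only [en_gs_inr]
        rw [h1]; rfl
      · rintro ⟨e' | j', b'⟩ ⟨g1, g2⟩
        · simp only [en_gs_inl] at g1
          simp at g1
        · simp only [en_gs_inr] at g1
          rcases hq : en e1 e2 (j', b') with i' | a
          · rw [hq] at g1
            simp at g1
          · rw [hq, Sum.map_inr, Sum.inr.injEq] at g1
            have h4 := h3 (j', b') ⟨by rw [hq, ← g1]; rfl, g2⟩
            rw [Prod.mk.injEq] at h4
            rw [h4.1, h4.2]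
  · rintro (e | j)
    · exact hf.two (Sum.inl e)
    · exact hg.2 j

theorem bf_glue {s t : E → V} {w : Fin k → V} {e1 e2 : ι → Fin k ⊕ Fin n}
    (pos : Fin k → ι × Bool) (hpos : ∀ d i, en e1 e2 d = Sum.inl i ↔ d = pos i)
    (h : BFb (gs s w e1) (gs t w e2)) : ∃ (f : Fin 6 → E ⊕ Fin k → Bool) (g : Fin 6 → ι → Bool),
      Lab s t w f ∧ PC e1 e2 g ∧ ∀ c i, f c (Sum.inr i) = g c (pos i).1 := by
  obtain ⟨F, hF1, hF2⟩ := h
  refine ⟨fun c => Sum.elim (fun e => F c (Sum.inl e)) (fun i => F c (Sum.inr (pos i).1)),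
    fun c j => F c (Sum.inr j), ⟨?_, ?_⟩, ⟨?_, ?_⟩, fun c i => rfl⟩
  · intro c v
    obtain ⟨⟨d0 | j, b⟩, ⟨h1, h2⟩, h3⟩ := hF1 c (Sum.inl v)
    · simp only [en_gs_inl, Sum.inl.injEq] at h1
      refine ⟨Sum.inl (d0, b), ⟨h1, h2⟩, ?_⟩
      rintro (⟨e', b'⟩ | i) ⟨g1, g2⟩
      · have h4 := h3 (Sum.inl e', b') ⟨by rw [en_gs_inl]; exact congrArg Sum.inl g1, g2⟩
        simp only [Prod.mk.injEq, Sum.inl.injEq] at h4
        rw [h4.1, h4.2]
      · exfalso
        have h4 := h3 (Sum.inr (pos i).1, (pos i).2) ⟨by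
          rw [en_gs_inr, show en e1 e2 ((pos i).1, (pos i).2) = Sum.inl i from (hpos _ _).2 rfl]
          exact congrArg Sum.inl g1, g2⟩
        simp at h4
    · simp only [en_gs_inr] at h1
      rcases hq : en e1 e2 (j, b) with i | a
      · rw [hq, Sum.map_inl, Sum.inl.injEq] at h1
        have h5 := (hpos _ _).1 hq
        refine ⟨Sum.inr i, ⟨h1, by
          change F c (Sum.inr (pos i).1) = true
          rw [← h5]; exact h2⟩, ?_⟩
        rintro (⟨e', b'⟩ | i') ⟨g1, g2⟩
        · exfalso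
          have h4 := h3 (Sum.inl e', b') ⟨by rw [en_gs_inl]; exact congrArg Sum.inl g1, g2⟩
          simp at h4
        · have h4 := h3 (Sum.inr (pos i').1, (pos i').2) ⟨by
            rw [en_gs_inr, show en e1 e2 ((pos i').1, (pos i').2) = Sum.inl i' from
              (hpos _ _).2 rfl]
            exact congrArg Sum.inl g1, g2⟩
          simp only [Prod.mk.injEq, Sum.inr.injEq] at h4
          have h6 : pos i' = pos i := by
            rw [← h5]
            exact Prod.ext h4.1 h4.2
          have h7 := (hpos (pos i') i').2 rfl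
          rw [h6, (hpos (pos i) i).2 rfl] at h7
          rw [Sum.inl.injEq] at h7
          rw [h7]
      · rw [hq] at h1
        simp at h1
  · rintro (e | i)
    · exact hF2 (Sum.inl e)
    · exact hF2 (Sum.inr _)
  · intro c v
    obtain ⟨⟨d0 | j, b⟩, ⟨h1, h2⟩, h3⟩ := hF1 c (Sum.inr v)
    · simp [en_gs_inl] at h1
    · simp only [en_gs_inr] at h1
      rcases hq : en e1 e2 (j, b) with i | a
      · rw [hq] at h1
        simp at h1
      · rw [hq, Sum.map_inr, Sum.inr.injEq] at h1
        refine ⟨(j, b), ⟨by rw [hq, ← h1]; rfl, h2⟩, ?_⟩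
        rintro ⟨j', b'⟩ ⟨g1, g2⟩
        have h4 := h3 (Sum.inr j', b') ⟨by rw [en_gs_inr, g1]; rfl, g2⟩
        simp only [Prod.mk.injEq, Sum.inr.injEq] at h4
        rw [h4.1, h4.2]
  · intro y
    exact hF2 (Sum.inr y)

/-! ### Pieces with one edge at each port -/

/-- A piece with `k` ports: port `i` is attached to the vertex `p i`; the other edges join `a j`
and `b j`. -/
structure Piece (k n q : ℕ) where
  p : Fin k → Fin n
  a : Fin q → Fin n
  b : Fin q → Fin n

def Piece.e1 {k n q : ℕ} (X : Piece k n q) : Fin k ⊕ Fin q → Fin k ⊕ Fin n :=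
  Sum.elim Sum.inl (fun j => Sum.inr (X.a j))

def Piece.e2 {k n q : ℕ} (X : Piece k n q) : Fin k ⊕ Fin q → Fin k ⊕ Fin n :=
  Sum.elim (fun i => Sum.inr (X.p i)) (fun j => Sum.inr (X.b j))

theorem Piece.pos {k n q : ℕ} (X : Piece k n q) (d : (Fin k ⊕ Fin q) × Bool) (i : Fin k) :
    en X.e1 X.e2 d = Sum.inl i ↔ d = (Sum.inl i, false) := by
  rcases d with ⟨y | y, b⟩ <;> cases b <;> simp [en, Piece.e1, Piece.e2]

/-- all edge-ends -/
def ends (k q : ℕ) : List ((Fin k ⊕ Fin q) × Bool) :=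
  ((List.finRange k).flatMap fun i => [(Sum.inl i, false), (Sum.inl i, true)]) ++
    ((List.finRange q).flatMap fun i => [(Sum.inr i, false), (Sum.inr i, true)])

theorem mem_ends {k q : ℕ} (d : (Fin k ⊕ Fin q) × Bool) : d ∈ ends k q := by
  rcases d with ⟨y | y, b⟩ <;> cases b <;> simp [ends]

def ps {k q : ℕ} : Fin k ⊕ Fin q → ℕ
  | Sum.inl i => i
  | Sum.inr j => k + j

theorem ps_lt {k q : ℕ} (y : Fin k ⊕ Fin q) : ps y < k + q := by
  rcases y with y | y <;> simp [ps]
  omega

/-- the positions of the edges at each vertex -/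
def Piece.inc {k n q : ℕ} (X : Piece k n q) : List (List ℕ) :=
  (List.finRange n).map fun v =>
    ((ends k q).filter fun d => decide (en X.e1 X.e2 d = Sum.inr v)).map fun d => ps d.1

/-! ### Checking colourings of a piece -/

def mk (a y : ℕ) : ℕ := a / 64 ^ y % 64

def L15 : List ℕ := [3, 5, 6, 9, 10, 12, 17, 18, 20, 24, 33, 34, 36, 40, 48]

def du (m : ℕ) : Bool := Nat.testBit 282668995843688 m

theorem du_mem : ∀ m < 64, du m = true → m ∈ L15 := by decide +kernel

theorem du_two : ∀ m ∈ L15, (univ.filter fun c : Fin 6 => m.testBit c = true).card = 2 := by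
  decide +kernel

theorem du_lt : ∀ m ∈ L15, m < 64 := by decide +kernel

theorem onehot : ∀ m0 ∈ L15, ∀ m1 ∈ L15, ∀ m2 ∈ L15, m0 + m1 + m2 = 63 → ∀ c : Fin 6,
    (m0.testBit c = true ∧ m1.testBit c = false ∧ m2.testBit c = false) ∨
    (m0.testBit c = false ∧ m1.testBit c = true ∧ m2.testBit c = false) ∨
    (m0.testBit c = false ∧ m1.testBit c = false ∧ m2.testBit c = true) := by
  decide +kernel

def colm (c : ℕ) : List ℕ → ℕ
  | [] => 0
  | m :: l => m / 2 ^ c % 2 + 2 * colm c l

def codeN (l : List ℕ) : ℕ :=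
  8 ^ colm 0 l + (8 ^ colm 1 l + (8 ^ colm 2 l + (8 ^ colm 3 l + (8 ^ colm 4 l + 8 ^ colm 5 l))))

theorem colm_eq (c : ℕ) : ∀ (k : ℕ) (h : Fin k → ℕ),
    colm c (List.ofFn h) = Nat.ofBits (fun i : Fin k => (h i).testBit c) := by
  intro k
  induction k with
  | zero => intro h; rfl
  | succ k ih =>
    intro h
    rw [List.ofFn_succ, colm, ih, Nat.ofBits_succ]
    have : h 0 / 2 ^ c % 2 = ((h 0).testBit c).toNat := by
      rw [Nat.testBit_eq_decide_div_mod_eq]
      rcases Nat.mod_two_eq_zero_or_one (h 0 / 2 ^ c) with h1 | h1 <;> rw [h1] <;> simp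
    rw [this, add_comm]
    rfl

theorem codeN_eq (k : ℕ) (h : Fin k → ℕ) :
    codeN (List.ofFn h) = code (fun c (i : Fin k) => (h i).testBit c) := by
  unfold codeN code
  rw [Fin.sum_univ_six]
  simp only [colm_eq]
  simp only [Fin.isValue, Fin.val_zero, Fin.val_one, Fin.val_two]
  have h3 : ((3 : Fin 6) : ℕ) = 3 := rfl
  have h4 : ((4 : Fin 6) : ℕ) = 4 := rfl
  have h5 : ((5 : Fin 6) : ℕ) = 5 := rfl
  rw [h3, h4, h5]
  ring

def WX (k L : ℕ) (inc : List (List ℕ)) (x a : ℕ) : Bool :=
  ((List.range L).all fun y => du (mk a y)) &&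
    ((inc.all fun l => match l with
      | [y0, y1, y2] => Nat.beq (mk a y0 + mk a y1 + mk a y2) 63
      | _ => false) && Nat.beq (codeN ((List.range k).map (mk a))) x)

theorem WX_sound {k n q : ℕ} (X : Piece k n q) (x a : ℕ)
    (h : WX k (k + q) X.inc x a = true) : ∃ g : Fin 6 → Fin k ⊕ Fin q → Bool,
      PC X.e1 X.e2 g ∧ code (fun c i => g c (Sum.inl i)) = x := by
  unfold WX at h
  simp only [Bool.and_eq_true, List.all_eq_true, List.mem_range] at h
  obtain ⟨h1, h2, h3⟩ := h
  have hd : ∀ y : Fin k ⊕ Fin q, mk a (ps y) ∈ L15 := fun y =>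
    du_mem _ (Nat.mod_lt _ (by norm_num)) (h1 _ (ps_lt y))
  refine ⟨fun c y => (mk a (ps y)).testBit c, ⟨?_, ?_⟩, ?_⟩
  · intro c v
    set l := (ends k q).filter fun d => decide (en X.e1 X.e2 d = Sum.inr v) with hl
    have h4 : l.map (fun d => ps d.1) ∈ X.inc := by
      unfold Piece.inc
      rw [List.mem_map]
      exact ⟨v, List.mem_finRange v, rfl⟩
    have h5 := h2 _ h4
    have hml : ∀ d, en X.e1 X.e2 d = Sum.inr v ↔ d ∈ l := by
      intro d
      rw [hl, List.mem_filter]
      simp [mem_ends]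
    rcases hq : l with _ | ⟨d0, _ | ⟨d1, _ | ⟨d2, _ | ⟨d3, l'⟩⟩⟩⟩
    · rw [hq] at h5; simp at h5
    · rw [hq] at h5; simp at h5
    · rw [hq] at h5; simp at h5
    · rw [hq] at h5
      simp only [List.map_cons, List.map_nil] at h5
      have h6 := Nat.eq_of_beq_eq_true h5
      have h7 := onehot _ (hd d0.1) _ (hd d1.1) _ (hd d2.1) h6 c
      have hml' : ∀ d, en X.e1 X.e2 d = Sum.inr v ↔ d = d0 ∨ d = d1 ∨ d = d2 := by
        intro d
        rw [hml, hq]
        simp
      rcases h7 with ⟨g0, g1, g2⟩ | ⟨g0, g1, g2⟩ | ⟨g0, g1, g2⟩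
      · refine ⟨d0, ⟨(hml' _).2 (by simp), g0⟩, ?_⟩
        rintro d ⟨k1, k2⟩
        replace k2 : (mk a (ps d.1)).testBit (c : ℕ) = true := k2
        rcases (hml' d).1 k1 with rfl | rfl | rfl
        · rfl
        · rw [g1] at k2; simp at k2
        · rw [g2] at k2; simp at k2
      · refine ⟨d1, ⟨(hml' _).2 (by simp), g1⟩, ?_⟩
        rintro d ⟨k1, k2⟩
        replace k2 : (mk a (ps d.1)).testBit (c : ℕ) = true := k2
        rcases (hml' d).1 k1 with rfl | rfl | rfl
        · rw [g0] at k2; simp at k2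
        · rfl
        · rw [g2] at k2; simp at k2
      · refine ⟨d2, ⟨(hml' _).2 (by simp), g2⟩, ?_⟩
        rintro d ⟨k1, k2⟩
        replace k2 : (mk a (ps d.1)).testBit (c : ℕ) = true := k2
        rcases (hml' d).1 k1 with rfl | rfl | rfl
        · rw [g0] at k2; simp at k2
        · rw [g1] at k2; simp at k2
        · rfl
    · rw [hq] at h5; simp at h5
  · intro y
    exact du_two _ (hd y)
  · have h4 := Nat.eq_of_beq_eq_true h3
    rw [← h4]
    have h5 : (List.range k).map (mk a) = List.ofFn (fun i : Fin k => mk a i) := by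
      rw [List.ofFn_eq_map]
      apply List.ext_getElem <;> simp
    rw [h5, codeN_eq]
    rfl

/-- The reduction: a colouring of the outer part with a small piece `Y` gives one with `X`. -/
theorem reduce [Fintype V] [Fintype E] {s t : E → V} {w : Fin k → V} {q : ℕ} (X : Piece k n q)
    (T : Tr) (hT : T.all (chk T k (WX k (k + q) X.inc)) = true) (f : Fin 6 → E ⊕ Fin k → Bool)
    (hf : Lab s t w f) (hr : T.rk (code (bd f)) < 1000) :
    BFb (gs s w X.e1) (gs t w X.e2) := by
  obtain ⟨f', hf', a, ha⟩ := core T _ hT _ hr f hf rfl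
  obtain ⟨g, hg, hg2⟩ := WX_sound X _ _ ha
  obtain ⟨σ, hσ⟩ := perm_of_code hg2.symm
  refine glue_bf (fun i => (Sum.inl i, false)) (X.pos) hf' (g := fun c => g (σ c)) ⟨?_, ?_⟩ ?_
  · intro c v
    exact hg.1 (σ c) v
  · intro y
    rw [← hg.2 y]
    apply Finset.card_bij (fun c _ => σ c)
    · intro c hc
      rw [mem_filter] at hc ⊢
      exact ⟨mem_univ _, hc.2⟩
    · intro c _ c' _ h
      exact σ.injective h
    · intro c hc
      rw [mem_filter] at hc
      exact ⟨σ.symm c, by rw [mem_filter]; exact ⟨mem_univ _, by simpa using hc.2⟩, by simp⟩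
  · intro c i
    have h1 := congrFun (hσ c) i
    exact h1.symm

end Pool.Agent.TH372.BFR
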