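import Pool.Agent.TH372.BFR.Subs

set_option autoImplicit false

/-! Quadruple covers by six even subgraphs and six perfect matchings covering each edge twice. -/

namespace Pool.Agent.TH372.BFR

open Finset

theorem deg_univ {V E : Type} (s t : E → V) (v : V) :
    deg s t Set.univ v = Nat.card {d : E × Bool // en s t d = v} := by
  unfold deg en
  simp

theorem quad_of_bf {V E : Type} [Fintype E] {s t : E → V} (hc : Cubic s t)
    (h : BFb s t) : QuadrupleCover s t := by
  classical
  obtain ⟨f, h1, h2⟩ := h
  refine ⟨fun i => {e | f i e = false}, ?_, ?_⟩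
  · intro i v
    have h3 : (univ.filter fun d : E × Bool => en s t d = v).card = 3 := by
      rw [← Fintype.card_subtype, ← Nat.card_eq_fintype_card]; exact hc v
    have h4 : (univ.filter fun d : E × Bool => en s t d = v ∧ f i d.1 = true).card = 1 := by
      rw [Finset.card_eq_one]
      obtain ⟨d, hd, hd2⟩ := h1 i v
      refine ⟨d, ?_⟩
      ext x
      simp only [mem_filter, mem_univ, true_and, mem_singleton]
      exact ⟨fun h => hd2 x h, fun h => h ▸ hd⟩
    have h5 : deg s t {e | f i e = false} v =
        (univ.filter fun d : E × Bool => en s t d = v ∧ f i d.1 = false).card := by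
      unfold deg
      rw [Nat.card_eq_fintype_card, Fintype.card_subtype]
      rfl
    have h6 : (univ.filter fun d : E × Bool => en s t d = v).card =
        (univ.filter fun d : E × Bool => en s t d = v ∧ f i d.1 = true).card +
        (univ.filter fun d : E × Bool => en s t d = v ∧ f i d.1 = false).card := by
      rw [← Finset.filter_filter, ← Finset.filter_filter]
      rw [← Finset.card_filter_add_card_filter_not (s := univ.filter fun d : E × Bool =>
        en s t d = v) (fun d => f i d.1 = true)]
      congr 2
      ext x
      simp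
    rw [h5]
    exact ⟨1, by omega⟩
  · intro e
    have h3 := h2 e
    have h4 : Nat.card {i : Fin 6 // e ∈ {e | f i e = false}} =
        (univ.filter fun i : Fin 6 => ¬ f i e = true).card := by
      rw [Nat.card_eq_fintype_card, Fintype.card_subtype]
      congr 1
      ext x
      simp
    have h5 := Finset.card_filter_add_card_filter_not (s := (univ : Finset (Fin 6)))
      (fun i => f i e = true)
    rw [card_univ, Fintype.card_fin] at h5
    rw [h4]
    omega

theorem bf_of_quad {V E : Type} [Fintype E] {s t : E → V} (hc : Cubic s t)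
    (h : QuadrupleCover s t) : BFb s t := by
  classical
  obtain ⟨C, h1, h2⟩ := h
  have hC : ∀ e, (univ.filter fun i : Fin 6 => e ∈ C i).card = 4 := by
    intro e
    rw [← h2 e, Nat.card_eq_fintype_card, Fintype.card_subtype]
  refine ⟨fun i e => decide (e ∉ C i), ?_, ?_⟩
  · intro c v
    have h3 : (univ.filter fun d : E × Bool => en s t d = v).card = 3 := by
      rw [← Fintype.card_subtype, ← Nat.card_eq_fintype_card]; exact hc v
    set D := univ.filter fun d : E × Bool => en s t d = v with hD
    have hx : ∀ i, deg s t (C i) v = (D.filter fun d => d.1 ∈ C i).card := by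
      intro i
      unfold deg
      rw [Nat.card_eq_fintype_card, Fintype.card_subtype, hD, Finset.filter_filter]
      rfl
    have hy : ∀ i, (D.filter fun d => d.1 ∈ C i).card +
        (D.filter fun d => ¬ d.1 ∈ C i).card = 3 := by
      intro i
      rw [Finset.card_filter_add_card_filter_not, h3]
    have hsum : ∑ i : Fin 6, (D.filter fun d => d.1 ∈ C i).card = 12 := by
      have h4 : ∑ i : Fin 6, (D.filter fun d => d.1 ∈ C i).card =
          ∑ d ∈ D, (univ.filter fun i : Fin 6 => d.1 ∈ C i).card := by
        simp only [Finset.card_filter]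
        rw [Finset.sum_comm]
      rw [h4, Finset.sum_congr rfl (fun d _ => hC d.1), Finset.sum_const, h3]
      rfl
    have hle : ∀ i, (D.filter fun d => d.1 ∈ C i).card ≤ 2 := by
      intro i
      have h5 := h1 i v
      rw [hx i] at h5
      have h6 := hy i
      obtain ⟨r, hr⟩ := h5
      omega
    have h7 : (D.filter fun d => d.1 ∈ C c).card = 2 := by
      have h8 : ∑ i : Fin 6, (2 - (D.filter fun d => d.1 ∈ C i).card) = 0 := by
        have h9 : ∑ i : Fin 6, (2 - (D.filter fun d => d.1 ∈ C i).card) +
            ∑ i : Fin 6, (D.filter fun d => d.1 ∈ C i).card = ∑ i : Fin 6, 2 := by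
          rw [← Finset.sum_add_distrib]
          apply Finset.sum_congr rfl
          intro i _
          have := hle i
          omega
        rw [hsum, Finset.sum_const, card_univ, Fintype.card_fin, smul_eq_mul] at h9
        omega
      have h10 := (Finset.sum_eq_zero_iff.1 h8) c (mem_univ c)
      have := hle c
      omega
    have h11 : (D.filter fun d => ¬ d.1 ∈ C c).card = 1 := by
      have := hy c
      omega
    rw [Finset.card_eq_one] at h11
    obtain ⟨d, hd⟩ := h11
    have hmem : ∀ x : E × Bool, (en s t x = v ∧ decide (x.1 ∉ C c) = true) ↔ x = d := by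
      intro x
      have h12 : x ∈ D.filter (fun d => ¬ d.1 ∈ C c) ↔ x = d := by rw [hd, mem_singleton]
      rw [← h12, mem_filter, hD, mem_filter]
      simp
    exact ⟨d, (hmem d).2 rfl, fun x hx => (hmem x).1 hx⟩
  · intro e
    have h5 := Finset.card_filter_add_card_filter_not (s := (univ : Finset (Fin 6)))
      (fun i => e ∈ C i)
    rw [card_univ, Fintype.card_fin, hC] at h5
    have h6 : (univ.filter fun i : Fin 6 => decide (e ∉ C i) = true) =
        univ.filter fun i : Fin 6 => ¬ e ∈ C i := by
      ext x
      simp
    rw [h6]
    omega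

theorem cubic_of {V E : Type} [Fintype E] {s t : E → V} : IsCubic s t ↔ Cubic s t := by
  unfold IsCubic Cubic
  simp only [deg_univ]

theorem two_of {V E : Type} [Fintype E] {s t : E → V} : IsTwoEdgeConnected s t ↔ TwoEC s t := by
  classical
  unfold IsTwoEdgeConnected TwoEC
  have h : ∀ Z : Set V, Nat.card {e : E // ¬ (s e ∈ Z ↔ t e ∈ Z)} = cut s t Z := by
    intro Z
    unfold cut
    rw [Nat.card_eq_fintype_card, Fintype.card_subtype]
  simp only [h]

theorem smallest_of {V E : Type} [Fintype V] [Fintype E] {s t : E → V}
    (h : IsSmallestCounterexample s t) : Smallest s t := by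
  refine ⟨cubic_of.1 h.cubic, two_of.1 h.conn, fun h1 => h.no (quad_of_bf (cubic_of.1 h.cubic) h1),
    ?_⟩
  intro V' E' _ _ s' t' h1 h2 h3
  exact bf_of_quad h1 (h.least V' E' s' t' (cubic_of.2 h1) (two_of.2 h2) h3)

end Pool.Agent.TH372.BFR
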