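import Pool.Agent.TH372.BFR.YClaw

set_option autoImplicit false

/-! The Petersen graph without a vertex. -/

namespace Pool.Agent.TH372.BFR.K3x1

/-- The Petersen graph without a vertex. -/
def X : Piece 3 9 12 where
  p := ![3, 7, 8]
  a := ![0, 0, 0, 2, 1, 4, 5, 3, 1, 4, 2, 5]
  b := ![1, 2, 3, 4, 5, 6, 6, 6, 7, 7, 8, 8]

/-- table: code, rank, and the two subsets switched or a colouring of the piece -/
def T : Tr :=
  (.nd .lf 8336 0 195096501097320769586135811 0 .lf)

def inc : List (List ℕ) := [[3, 4, 5], [3, 7, 11], [4, 6, 13], [0, 5, 10], [6, 8, 12], [7, 9, 14], [8, 9, 10], [1, 11, 12], [2, 13, 14]]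

theorem inc_eq : X.inc = inc := by decide +kernel

theorem T_ok' : T.all (chk T 3 (WX 3 (3 + 12) inc)) = true := by decide +kernel

theorem T_ok : T.all (chk T 3 (WX 3 (3 + 12) X.inc)) = true := by
  rw [inc_eq]; exact T_ok'

theorem good : X.Good := good_of X (by decide +kernel)

theorem T_rk : (YClaw.cod.all fun x => Nat.ble (T.rk x + 1) 1000) = true := by decide +kernel

theorem no {V E : Type} [Fintype V] [Fintype E] {s t : E → V} (hS : Smallest s t) :
    ¬ Contains s t X :=
  exclY X good (by norm_num) (by norm_num) T T_ok YClaw.Y (by norm_num) YClaw.good YClaw.chk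
    YClaw.cod YClaw.codes T_rk hS

end Pool.Agent.TH372.BFR.K3x1
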