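import Pool.Agent.TH372.BFR.YH

set_option autoImplicit false

/-! A cycle of length four. -/

namespace Pool.Agent.TH372.BFR.K4x1

/-- A cycle of length four. -/
def X : Piece 4 4 4 where
  p := ![0, 1, 2, 3]
  a := ![0, 1, 2, 3]
  b := ![1, 2, 3, 0]

/-- table: code, rank, and the two subsets switched or a colouring of the piece -/
def T : Tr :=
  (.nd (.nd (.nd (.nd .lf 268959746 0 53034319135536 0 .lf) 1208254466 1 5 10 .lf) 2147549186 2 5
  10 (.nd (.nd .lf 68853957122 0 44343956243220 0 .lf) 69793251842 1 5 10 .lf)) 137438954498 0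
  14022812566284 0 (.nd (.nd (.nd .lf 35184506568707 0 53004254480944 0 .lf) 35185445863427 1 5 10
  .lf) 35253091566083 0 27013494802984 0 (.nd .lf 70368744177668 0 52995664579632 0 .lf)))

def inc : List (List ℕ) := [[0, 4, 7], [1, 4, 5], [2, 5, 6], [3, 6, 7]]

theorem inc_eq : X.inc = inc := by decide +kernel

theorem T_ok' : T.all (chk T 4 (WX 4 (4 + 4) inc)) = true := by decide +kernel

theorem T_ok : T.all (chk T 4 (WX 4 (4 + 4) X.inc)) = true := by
  rw [inc_eq]; exact T_ok'

theorem good : X.Good := good_of X (by decide +kernel)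

theorem T_rk : (YH.cod.all fun x => Nat.ble (T.rk x + 1) 1000) = true := by decide +kernel

theorem no {V E : Type} [Fintype V] [Fintype E] {s t : E → V} (hS : Smallest s t) :
    ¬ Contains s t X :=
  exclY X good (by norm_num) (by norm_num) T T_ok YH.Y (by norm_num) YH.good YH.chk
    YH.cod YH.codes T_rk hS

end Pool.Agent.TH372.BFR.K4x1
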