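import Pool.Agent.TH372.BFR.Pair

set_option autoImplicit false

/-! Colourings of the outer part of a cubic graph with `k` dangling edges, and switching two
matchings along a path. -/

namespace Pool.Agent.TH372.BFR

open Finset

/-- the end of an edge-end -/
def en {V E : Type} (s t : E → V) (d : E × Bool) : V := if d.2 then t d.1 else s d.1

variable {V E : Type} [Fintype V] [Fintype E] {k : ℕ}

/-- the edge-ends at vertices of the outer part -/
abbrev Dt (E : Type) (k : ℕ) : Type := (E × Bool) ⊕ Fin k

def rn (s t : E → V) (w : Fin k → V) : Dt E k → V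
  | Sum.inl d => en s t d
  | Sum.inr i => w i

def ed : Dt E k → E ⊕ Fin k
  | Sum.inl d => Sum.inl d.1
  | Sum.inr i => Sum.inr i

/-- Six perfect matchings of the outer part covering each edge twice. -/
structure Lab (s t : E → V) (w : Fin k → V) (f : Fin 6 → E ⊕ Fin k → Bool) : Prop where
  pm : ∀ c v, ∃! d : Dt E k, rn s t w d = v ∧ f c (ed d) = true
  two : ∀ x, (univ.filter fun c => f c x = true).card = 2

/-- switching the matchings `i` and `j` on `U` -/
def sw {X : Type} (f : Fin 6 → X → Bool) (i j : Fin 6) (U : X → Bool) : Fin 6 → X → Bool :=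
  fun c x => if c = i ∨ c = j then xor (f c x) (U x) else f c x

def al : Dt E k → Dt E k
  | Sum.inl d => Sum.inl (d.1, !d.2)
  | Sum.inr i => Sum.inr i

omit [Fintype E] in
theorem al_al (d : Dt E k) : al (al d) = d := by
  rcases d with ⟨e, b⟩ | i <;> simp [al]

omit [Fintype E] in
theorem ed_al (d : Dt E k) : ed (al d) = ed d := by
  rcases d with ⟨e, b⟩ | i <;> rfl

omit [Fintype E] in
theorem eq_of_ed {d d' : Dt E k} (h : ed d' = ed d) : d' = d ∨ d' = al d := by
  rcases d with ⟨e, b⟩ | i <;> rcases d' with ⟨e', b'⟩ | i'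
  · simp only [ed, Sum.inl.injEq] at h
    subst h
    cases b <;> cases b' <;> simp [al]
  · simp [ed] at h
  · simp [ed] at h
  · simp only [ed, Sum.inr.injEq] at h
    subst h
    left; rfl

theorem kempe {s t : E → V} {w : Fin k → V} {f : Fin 6 → E ⊕ Fin k → Bool} (hf : Lab s t w f)
    (i j : Fin 6) (hij : i ≠ j) :
    ∃ π : Fin k → Fin k, ∀ x, f i (Sum.inr x) ≠ f j (Sum.inr x) →
      f i (Sum.inr (π x)) ≠ f j (Sum.inr (π x)) ∧ π x ≠ x ∧ π (π x) = x ∧
      ∃ U : E ⊕ Fin k → Bool, Lab s t w (sw f i j U) ∧
        ∀ y : Fin k, U (Sum.inr y) = true ↔ y = x ∨ y = π x := by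
  classical
  have hex := fun c v => (hf.pm c v).exists
  choose m hm using hex
  have hu : ∀ c v d, rn s t w d = v → f c (ed d) = true → d = m c v := fun c v d h1 h2 =>
    (hf.pm c v).unique ⟨h1, h2⟩ (hm c v)
  let Om : Type := {d : Dt E k // f i (ed d) ≠ f j (ed d)}
  have hval : ∀ v, m i v ≠ m j v → f j (ed (m i v)) = false ∧ f i (ed (m j v)) = false := by
    intro v hv
    constructor
    · by_contra h
      rw [Bool.not_eq_false] at h
      exact hv (hu j v _ (hm i v).1 h)
    · by_contra h
      rw [Bool.not_eq_false] at h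
      exact hv (hu i v _ (hm j v).1 h).symm
  have hOm : ∀ d : Om, (f i (ed d.1) = true ∧ f j (ed d.1) = false ∧ d.1 = m i (rn s t w d.1) ∧
      m i (rn s t w d.1) ≠ m j (rn s t w d.1)) ∨ (f i (ed d.1) = false ∧ f j (ed d.1) = true ∧
      d.1 = m j (rn s t w d.1) ∧ m i (rn s t w d.1) ≠ m j (rn s t w d.1)) := by
    rintro ⟨d, hd⟩
    simp only
    rcases hi : f i (ed d) with _ | _ <;> rcases hj : f j (ed d) with _ | _
    · exact absurd (hi.trans hj.symm) hd
    · right
      have h1 := hu j _ d rfl hj
      refine ⟨rfl, rfl, h1, fun h => ?_⟩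
      have h2 := (hm i (rn s t w d)).2
      rw [h, ← h1, hi] at h2
      exact absurd h2 (by simp)
    · left
      have h1 := hu i _ d rfl hi
      refine ⟨rfl, rfl, h1, fun h => ?_⟩
      have h2 := (hm j (rn s t w d)).2
      rw [← h, ← h1, hj] at h2
      exact absurd h2 (by simp)
    · exact absurd (hi.trans hj.symm) hd
  let A : Om → Om := fun d => ⟨al d.1, by rw [ed_al]; exact d.2⟩
  have hA : ∀ d, A (A d) = d := fun d => Subtype.ext (al_al d.1)
  have hex2 : ∀ d : Om, ∃ d' : Om, rn s t w d'.1 = rn s t w d.1 ∧
      ((d.1 = m i (rn s t w d.1) ∧ d'.1 = m j (rn s t w d.1)) ∨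
        (d.1 = m j (rn s t w d.1) ∧ d'.1 = m i (rn s t w d.1))) ∧
        m i (rn s t w d.1) ≠ m j (rn s t w d.1) := by
    intro d
    rcases hOm d with ⟨h1, h2, h3, h4⟩ | ⟨h1, h2, h3, h4⟩
    · refine ⟨⟨m j (rn s t w d.1), ?_⟩, (hm j _).1, Or.inl ⟨h3, rfl⟩, h4⟩
      rw [(hval _ h4).2, (hm j _).2]; simp
    · refine ⟨⟨m i (rn s t w d.1), ?_⟩, (hm i _).1, Or.inr ⟨h3, rfl⟩, h4⟩
      rw [(hval _ h4).1, (hm i _).2]; simp
  choose B hB using hex2
  have hB1 : ∀ d, B (B d) = d := by
    intro d
    obtain ⟨h1, h2, h3⟩ := hB d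
    obtain ⟨g1, g2, g3⟩ := hB (B d)
    apply Subtype.ext
    rw [h1] at g2
    rcases h2 with ⟨h2, h2'⟩ | ⟨h2, h2'⟩
    · rcases g2 with ⟨g2, g2'⟩ | ⟨g2, g2'⟩
      · exact absurd (g2.symm.trans h2') h3
      · rw [g2', ← h2]
    · rcases g2 with ⟨g2, g2'⟩ | ⟨g2, g2'⟩
      · rw [g2', ← h2]
      · exact absurd (h2'.symm.trans g2) h3
  have hB2 : ∀ d, B d ≠ d := by
    intro d h
    obtain ⟨h1, h2, h3⟩ := hB d
    rw [h] at h2
    rcases h2 with ⟨h2, h2'⟩ | ⟨h2, h2'⟩
    · exact h3 (h2.symm.trans h2')
    · exact h3 (h2'.symm.trans h2)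
  obtain ⟨O, π, hO⟩ := pairing A B hA hB1 hB2
  -- fixed points of A are the dangling edges
  have hfix : ∀ d : Om, A d = d → ∃ x : Fin k, d.1 = Sum.inr x := by
    rintro ⟨d, hd⟩ h
    have h1 : al d = d := congrArg Subtype.val h
    rcases d with ⟨e, b⟩ | x
    · exfalso
      simp only [al, Sum.inl.injEq, Prod.mk.injEq, true_and] at h1
      cases b <;> simp at h1
    · exact ⟨x, rfl⟩
  let P : ∀ x : Fin k, f i (Sum.inr x) ≠ f j (Sum.inr x) → Om := fun x hx => ⟨Sum.inr x, hx⟩
  have hP : ∀ x hx, A (P x hx) = P x hx := fun x hx => rfl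
  have hex3 : ∀ x : Fin k, ∃ y : Fin k, ∀ hx : f i (Sum.inr x) ≠ f j (Sum.inr x),
      (π (P x hx)).1 = Sum.inr y := by
    intro x
    by_cases hx : f i (Sum.inr x) ≠ f j (Sum.inr x)
    · obtain ⟨y, hy⟩ := hfix _ (hO _ (hP x hx)).2.2.1
      exact ⟨y, fun _ => hy⟩
    · exact ⟨x, fun h => absurd h hx⟩
  choose ρ hρ using hex3
  have hρm : ∀ x (hx : f i (Sum.inr x) ≠ f j (Sum.inr x)),
      f i (Sum.inr (ρ x)) ≠ f j (Sum.inr (ρ x)) := by
    intro x hx
    have h1 := (π (P x hx)).2
    rw [hρ x hx] at h1
    exact h1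
  have hρP : ∀ x (hx : f i (Sum.inr x) ≠ f j (Sum.inr x)), P (ρ x) (hρm x hx) = π (P x hx) :=
    fun x hx => Subtype.ext (hρ x hx).symm
  refine ⟨ρ, fun x hx => ⟨hρm x hx, ?_, ?_, ?_⟩⟩
  · intro h
    apply (hO _ (hP x hx)).2.2.2.1
    apply Subtype.ext
    rw [hρ x hx, h]
  · have h1 := (hO _ (hP x hx)).2.2.2.2.1
    have h2 := hρ (ρ x) (hρm x hx)
    rw [hρP x hx, h1] at h2
    exact (Sum.inr_injective h2).symm
  · obtain ⟨o1, o2, o3, o4, o5, o6, o7⟩ := hO _ (hP x hx)
    set Q := O (P x hx) with hQ
    let U : E ⊕ Fin k → Bool := fun y => decide (∃ d : Om, d ∈ Q ∧ ed d.1 = y)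
    have hU : ∀ d : Dt E k, U (ed d) = true ↔ ∃ h : f i (ed d) ≠ f j (ed d), (⟨d, h⟩ : Om) ∈ Q := by
      intro d
      simp only [U, decide_eq_true_eq]
      constructor
      · rintro ⟨d', h1, h2⟩
        have h3 : f i (ed d) ≠ f j (ed d) := by rw [← h2]; exact d'.2
        refine ⟨h3, ?_⟩
        rcases eq_of_ed h2 with h | h
        · have : d' = (⟨d, h3⟩ : Om) := Subtype.ext h
          rw [← this]; exact h1
        · have : A d' = (⟨d, h3⟩ : Om) := Subtype.ext (by
            change al d'.1 = d
            rw [h, al_al])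
          rw [← this]; exact (o6 _ h1).1
      · rintro ⟨h, h1⟩
        exact ⟨_, h1, rfl⟩
    have hUD : ∀ y, U y = true → f i y ≠ f j y := by
      intro y hy
      simp only [U, decide_eq_true_eq] at hy
      obtain ⟨d, -, rfl⟩ := hy
      exact d.2
    -- both or none of the two ends at v
    have hmem : ∀ v, m i v ≠ m j v → (U (ed (m i v)) = true ↔ U (ed (m j v)) = true) := by
      intro v hv
      have hi' : f i (ed (m i v)) ≠ f j (ed (m i v)) := by
        rw [(hm i v).2, (hval v hv).1]; simp
      have hj' : f i (ed (m j v)) ≠ f j (ed (m j v)) := by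
        rw [(hm j v).2, (hval v hv).2]; simp
      have hBi : B ⟨m i v, hi'⟩ = ⟨m j v, hj'⟩ := by
        obtain ⟨h1, h2, h3⟩ := hB ⟨m i v, hi'⟩
        simp only [(hm i v).1] at h2 h3
        rcases h2 with ⟨-, h2⟩ | ⟨h2, -⟩
        · exact Subtype.ext h2
        · exact absurd h2 h3
      have hBj : B ⟨m j v, hj'⟩ = ⟨m i v, hi'⟩ := by
        rw [← hBi, hB1]
      rw [hU, hU]
      constructor
      · rintro ⟨h, h1⟩
        refine ⟨hj', ?_⟩
        rw [← hBi]; exact (o6 _ h1).2
      · rintro ⟨h, h1⟩
        refine ⟨hi', ?_⟩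
        rw [← hBj]; exact (o6 _ h1).2
    have hside : ∀ (p q : Fin 6), (∀ v, m p v ≠ m q v →
        (U (ed (m p v)) = true ↔ U (ed (m q v)) = true)) →
        (∀ v, m p v ≠ m q v → f p (ed (m q v)) = false) →
        (∀ y, U y = true → f p y ≠ f q y) →
        ∀ v, ∃! d : Dt E k, rn s t w d = v ∧ (xor (f p (ed d)) (U (ed d))) = true := by
      intro p q h1 h2 h3 v
      by_cases hv : m p v ≠ m q v
      · by_cases hUv : U (ed (m p v)) = true
        · have hUq := (h1 v hv).1 hUv
          refine ⟨m q v, ⟨(hm q v).1, ?_⟩, ?_⟩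
          · rw [h2 v hv, hUq]; rfl
          · rintro d ⟨hd1, hd2⟩
            rcases hp : f p (ed d) with _ | _
            · rw [hp] at hd2
              have hUd : U (ed d) = true := by simpa using hd2
              have h4 := h3 _ hUd
              rw [hp] at h4
              exact hu q v d hd1 (by
                rcases hq : f q (ed d) with _ | _
                · exact absurd hq.symm h4
                · rfl)
            · have h4 := hu p v d hd1 hp
              rw [h4, (hm p v).2, hUv] at hd2
              simp at hd2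
        · have hUq : ¬ U (ed (m q v)) = true := fun h => hUv ((h1 v hv).2 h)
          refine ⟨m p v, ⟨(hm p v).1, ?_⟩, ?_⟩
          · rw [(hm p v).2]; simpa using hUv
          · rintro d ⟨hd1, hd2⟩
            rcases hp : f p (ed d) with _ | _
            · rw [hp] at hd2
              have hUd : U (ed d) = true := by simpa using hd2
              have h4 := h3 _ hUd
              rw [hp] at h4
              have h5 := hu q v d hd1 (by
                rcases hq : f q (ed d) with _ | _
                · exact absurd hq.symm h4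
                · rfl)
              rw [h5] at hUd
              exact absurd hUd hUq
            · exact hu p v d hd1 hp
      · push Not at hv
        have h5 : ∀ d, rn s t w d = v → U (ed d) = false := by
          intro d hd
          by_contra h
          rw [Bool.not_eq_false] at h
          have h4 := h3 _ h
          rcases hp : f p (ed d) with _ | _
          · have hq : f q (ed d) = true := by
              rcases hq : f q (ed d) with _ | _
              · exact absurd (hp.trans hq.symm) h4
              · rfl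
            have h6 := hu q v d hd hq
            rw [← hv] at h6
            rw [h6, (hm p v).2] at hp
            simp at hp
          · have h6 := hu p v d hd hp
            have h7 : f q (ed d) = true := by
              rw [h6, hv]; exact (hm q v).2
            exact h4 (hp.trans h7.symm)
        refine ⟨m p v, ⟨(hm p v).1, ?_⟩, ?_⟩
        · rw [(hm p v).2, h5 _ (hm p v).1]; rfl
        · rintro d ⟨hd1, hd2⟩
          rw [h5 d hd1] at hd2
          exact hu p v d hd1 (by simpa using hd2)
    refine ⟨U, ⟨?_, ?_⟩, ?_⟩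
    · intro c v
      by_cases hci : c = i
      · subst hci
        have := hside c j hmem (fun v hv => (hval v hv).2) hUD v
        simpa [sw] using this
      · by_cases hcj : c = j
        · subst hcj
          have := hside c i (fun v hv => (hmem v hv.symm).symm) (fun v hv => (hval v hv.symm).1)
            (fun y hy => (hUD y hy).symm) v
          simpa [sw] using this
        · have := hf.pm c v
          simpa [sw, hci, hcj] using this
    · intro y
      by_cases hy : U y = true
      · have h1 : ∀ c, sw f i j U c y = f (Equiv.swap i j c) y := by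
          intro c
          have h2 := hUD y hy
          have h3 : f j y = !(f i y) := by
            rcases hi : f i y with _ | _ <;> rcases hj : f j y with _ | _ <;> simp_all
          by_cases hci : c = i
          · subst hci
            simp [sw, hy, h3]
          · by_cases hcj : c = j
            · subst hcj
              simp [sw, hy, h3]
            · simp [sw, hci, hcj, Equiv.swap_apply_of_ne_of_ne hci hcj]
        have h4 : (univ.filter fun c => sw f i j U c y = true) =
            (univ.filter fun c => f c y = true).map (Equiv.swap i j).toEmbedding := by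
          ext c
          simp only [mem_filter, mem_univ, true_and, mem_map, Equiv.coe_toEmbedding, h1]
          constructor
          · intro h
            exact ⟨_, h, Equiv.swap_apply_self i j c⟩
          · rintro ⟨c', h, rfl⟩
            rw [Equiv.swap_apply_self]; exact h
        rw [h4, card_map, hf.two]
      · rw [Bool.not_eq_true] at hy
        have h1 : ∀ c, sw f i j U c y = f c y := by
          intro c
          simp [sw, hy]
        simp only [h1]
        exact hf.two y
    · intro y
      have h1 := hU (Sum.inr y)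
      change (U (Sum.inr y) = true ↔ _) at h1
      rw [h1]
      constructor
      · rintro ⟨h, h2⟩
        rcases o7 _ h2 (hP y h) with h3 | h3
        · left
          exact Sum.inr_injective (congrArg Subtype.val h3)
        · right
          have h4 := congrArg Subtype.val h3
          rw [hρ x hx] at h4
          exact Sum.inr_injective h4
      · rintro (rfl | rfl)
        · exact ⟨hx, o1⟩
        · refine ⟨hρm x hx, ?_⟩
          have h5 := hρP x hx
          change P (ρ x) (hρm x hx) ∈ Q
          rw [h5]
          exact o2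

end Pool.Agent.TH372.BFR
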