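import Pool.Agent.TH372.BFR.YGen

set_option autoImplicit false

/-! Reducible configurations: the general argument. -/

namespace Pool.Agent.TH372.BFR

open Finset

/-- a smallest counterexample -/
structure Smallest {V E : Type} [Fintype V] [Fintype E] (s t : E → V) : Prop where
  cubic : Cubic s t
  two : TwoEC s t
  no : ¬ BFb s t
  below : Below (Fintype.card V)

section

variable {V E : Type} [Fintype V] [Fintype E] {s t : E → V} {k n q : ℕ}

/-- everything known about the outer part of a configuration in a smallest counterexample -/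
theorem outer (hS : Smallest s t) {V' E' : Type} [Fintype V'] [Fintype E'] {s' t' : E' → V'}
    {w : Fin k → V'} {X : Piece k n q} (hn : 4 ≤ n) (hk : 1 ≤ k)
    (I : Iso s t (gs s' w X.e1) (gs t' w X.e2)) :
    Cubic (gs s' w X.e1) (gs t' w X.e2) ∧ Ess (gs s' w X.e1) (gs t' w X.e2) ∧ ROK s' t' w ∧
      Fintype.card V = Fintype.card V' + n ∧ Ess s t := by
  have h1 : Fintype.card V = Fintype.card V' + n := by
    rw [← Fintype.card_congr I.v, Fintype.card_sum, Fintype.card_fin]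
  have h2 : 1 ≤ Fintype.card V' := Fintype.card_pos_iff.2 ⟨w ⟨0, by omega⟩⟩
  have h3 := ess_of_min hS.cubic hS.two hS.below hS.no (by omega)
  have h4 := I.cubic hS.cubic
  have h5 := I.two hS.two
  have h6 := I.ess h3
  exact ⟨h4, h6, rok_of s' t' w X (by omega) h4 h5 h6, h1, h3⟩

theorem finish (hS : Smallest s t) {V' E' ι : Type} [Fintype V'] [Fintype E'] [Fintype ι]
    {s' t' : E' → V'} {w : Fin k → V'} {X : Piece k n q} {n' : ℕ} (hn : 4 ≤ n) (hk : 1 ≤ k)
    (hlt : n' < n)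
    (I : Iso s t (gs s' w X.e1) (gs t' w X.e2)) (T : Tr)
    (hT : T.all (chk T k (WX k (k + q) X.inc)) = true) (l : List ℕ)
    (hr : (l.all fun x => Nat.ble (T.rk x + 1) 1000) = true) (Y1 Y2 : ι → Fin k ⊕ Fin n')
    (Yp : Fin k → ι × Bool) (hp : ∀ d i, en Y1 Y2 d = Sum.inl i ↔ d = Yp i)
    (hl : ∀ g : Fin 6 → ι → Bool, PC Y1 Y2 g → code (fun c i => g c (Yp i).1) ∈ l)
    (hy : ∀ v, Nat.card {d : ι × Bool // en Y1 Y2 d = Sum.inr v} = 3)
    (htwo : TwoEC (gs s' w Y1) (gs t' w Y2)) : False := by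
  obtain ⟨h1, h2, h3, h4, h5⟩ := outer hS hn hk I
  have h6 : Cubic (gs s' w Y1) (gs t' w Y2) := cubicY X.pos hp hy h1
  have h7 : BFb (gs s' w Y1) (gs t' w Y2) := by
    apply hS.below _ _ _ _ h6 htwo
    rw [Fintype.card_sum, Fintype.card_fin]
    omega
  obtain ⟨f, g, hf, hg, hfg⟩ := bf_glue Yp hp h7
  refine hS.no (I.bf (reduce X T hT f hf ?_))
  have h8 : code (bd f) = code (fun c i => g c (Yp i).1) := by
    congr 1
    funext c i
    exact hfg c i
  rw [h8]
  rw [List.all_eq_true] at hr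
  have h9 := Nat.le_of_ble_eq_true (hr _ (hl g hg))
  omega

/-- Exclusion by a connected replacement. -/
theorem exclY (X : Piece k n q) (hX : X.Good) (hn : 4 ≤ n) (hk : 1 ≤ k) (T : Tr)
    (hT : T.all (chk T k (WX k (k + q) X.inc)) = true) {n' q' : ℕ} (Y : Piece k n' q')
    (hlt : n' < n) (hY : Y.Good) (hP : chkP Y = true) (l : List ℕ)
    (hl : ∀ g : Fin 6 → Fin k ⊕ Fin q' → Bool, PC Y.e1 Y.e2 g →
      code (fun c i => g c (Sum.inl i)) ∈ l)
    (hr : (l.all fun x => Nat.ble (T.rk x + 1) 1000) = true) (hS : Smallest s t) :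
    ¬ Contains s t X := by
  intro hcon
  obtain ⟨V', E', _, _, s', t', w, ⟨I⟩⟩ := contains_iso hX hS.cubic hcon
  obtain ⟨h1, h2, h3, h4, h5⟩ := outer hS hn hk I
  exact finish hS hn hk hlt I T hT l hr Y.e1 Y.e2 (fun i => (Sum.inl i, false)) Y.pos hl hY
    (twoP h3 Y hP)

theorem goodA : ∀ v, Nat.card {d : Fin 4 × Bool // en A1 A2 d = Sum.inr v} = 3 := by
  intro v
  rw [Nat.card_eq_fintype_card, Fintype.card_subtype]
  revert v
  decide +kernel

theorem goodB : ∀ v, Nat.card {d : Fin 6 × Bool // en B1 B2 d = Sum.inr v} = 3 := by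
  intro v
  rw [Nat.card_eq_fintype_card, Fintype.card_subtype]
  revert v
  decide +kernel

theorem good_of {k n q : ℕ} (X : Piece k n q)
    (h : ∀ v, (univ.filter fun d : (Fin k ⊕ Fin q) × Bool =>
      en X.e1 X.e2 d = Sum.inr v).card = 3) : X.Good := by
  intro v
  rw [Nat.card_eq_fintype_card, Fintype.card_subtype]
  exact h v

/-- two ports at adjacent vertices -/
def Adj2 (X : Piece k n q) (i j : Fin k) : Prop :=
  X.p i ≠ X.p j ∧ ∃ e, (X.a e = X.p i ∧ X.b e = X.p j) ∨ (X.a e = X.p j ∧ X.b e = X.p i)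

theorem exclA (X : Piece 5 n q) (hX : X.Good) (hn : 4 ≤ n) (T : Tr)
    (hT : T.all (chk T 5 (WX 5 (5 + q) X.inc)) = true)
    (hr : (codesA.all fun x => Nat.ble (T.rk x + 1) 1000) = true) (ha : Adj2 X 0 1)
    (hS : Smallest s t) : ¬ Contains s t X := by
  intro hcon
  obtain ⟨V', E', _, _, s', t', w, ⟨I⟩⟩ := contains_iso hX hS.cubic hcon
  obtain ⟨h1, h2, h3, h4, h5⟩ := outer hS hn (by norm_num) I
  obtain ⟨h6, e, he⟩ := ha
  have h7 := outer_ne X hn h1 h2 0 1 h6 e he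
  exact finish hS hn (by norm_num) (by omega) I T hT codesA hr A1 A2 Ap Apos codeA goodA
    (twoA h3 h7)

theorem exclB (X : Piece 6 n q) (hX : X.Good) (hn : 4 ≤ n) (T : Tr)
    (hT : T.all (chk T 6 (WX 6 (6 + q) X.inc)) = true)
    (hr : (codesB.all fun x => Nat.ble (T.rk x + 1) 1000) = true) (ha : Adj2 X 0 1)
    (hS : Smallest s t) : ¬ Contains s t X := by
  intro hcon
  obtain ⟨V', E', _, _, s', t', w, ⟨I⟩⟩ := contains_iso hX hS.cubic hcon
  obtain ⟨h1, h2, h3, h4, h5⟩ := outer hS hn (by norm_num) I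
  obtain ⟨h6, e, he⟩ := ha
  have h7 := outer_ne X hn h1 h2 0 1 h6 e he
  exact finish hS hn (by norm_num) (by omega) I T hT codesB hr B1 B2 Bp Bpos codeB goodB
    (twoB h3 h7)

theorem exclC (X : Piece 6 n q) (hX : X.Good) (hn : 4 ≤ n) (T : Tr)
    (hT : T.all (chk T 6 (WX 6 (6 + q) X.inc)) = true)
    (hr : (codesC.all fun x => Nat.ble (T.rk x + 1) 1000) = true) (h01 : Adj2 X 0 1)
    (h23 : Adj2 X 2 3) (h45 : Adj2 X 4 5)
    (hS : Smallest s t) : ¬ Contains s t X := by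
  intro hcon
  obtain ⟨V', E', _, _, s', t', w, ⟨I⟩⟩ := contains_iso hX hS.cubic hcon
  obtain ⟨h1, h2, h3, h4, h5⟩ := outer hS hn (by norm_num) I
  obtain ⟨h6, e, he⟩ := h01
  obtain ⟨h6', e', he'⟩ := h23
  obtain ⟨h6'', e'', he''⟩ := h45
  have h7 := outer_ne X hn h1 h2 0 1 h6 e he
  have h7' := outer_ne X hn h1 h2 2 3 h6' e' he'
  have h7'' := outer_ne X hn h1 h2 4 5 h6'' e'' he''
  exact finish hS hn (by norm_num) (by omega) I T hT codesC hr C1 C2 Cp Cpos codeC
    (fun v => v.elim0) (twoC h3 h7 h7' h7'')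

end

end Pool.Agent.TH372.BFR
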