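import Pool.Agent.TH372.BFR.Main

set_option autoImplicit false

/-! Replacing pieces with an edge separating three ports from the others. -/

namespace Pool.Agent.TH372.BFR

open Finset

def chkP2 {k n q : ℕ} (Y : Piece k n q) (i j : Fin k) : Bool :=
  (List.range (2 ^ k)).all fun A => (List.range (2 ^ n)).all fun Z =>
    Nat.ble 2 (crossF Y A Z) ||
    (Nat.beq (crossF Y A Z) 0 && ((Nat.beq A 0 && Nat.beq Z 0) ||
      (Nat.beq A (2 ^ k - 1) && Nat.beq Z (2 ^ n - 1)))) ||
    (Nat.beq (crossF Y A Z) 1 && (Nat.beq (popc k A) 1 || Nat.beq (popc k A) 2 ||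
      Nat.beq (popc k A + 1) k || Nat.beq (popc k A + 2) k ||
      (Nat.beq (popc k A) 3 && (A.testBit i && A.testBit j)) ||
      (Nat.beq (popc k A + 3) k && (!A.testBit i && !A.testBit j))))

theorem twoP2 {V E : Type} [Fintype V] [Fintype E] {k n q : ℕ} {s t : E → V} {w : Fin k → V}
    (h : ROK s t w) (Y : Piece k n q) (i j : Fin k)
    (hP : chkP2 Y i j = true) (hij : w i ≠ w j) :
    TwoEC (gs s w Y.e1) (gs t w Y.e2) := by
  classical
  intro Z hZ hZc
  rw [cut_glue]
  set S : Set V := {v | Sum.inl v ∈ Z} with hS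
  set A : ℕ := Nat.ofBits (fun i : Fin k => decide (w i ∈ S)) with hA
  set B : ℕ := Nat.ofBits (fun a : Fin n => decide ((Sum.inr a : V ⊕ Fin n) ∈ Z)) with hB
  have hA1 : ∀ i : Fin k, A.testBit i = decide (w i ∈ S) := fun i =>
    Nat.testBit_ofBits_lt _ _ i.2
  have hB1 : ∀ a : Fin n, B.testBit a = decide ((Sum.inr a : V ⊕ Fin n) ∈ Z) := fun a =>
    Nat.testBit_ofBits_lt _ _ a.2
  have hcross : ∑ j, ind (¬ (Sum.map w id (Y.e1 j) ∈ Z ↔ Sum.map w id (Y.e2 j) ∈ Z)) =
      crossF Y A B := by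
    rw [Fintype.sum_sum_type]
    unfold crossF
    congr 1
    · apply Finset.sum_congr rfl
      intro i _
      rw [hA1, hB1, ← ind_toNat]
      rfl
    · apply Finset.sum_congr rfl
      intro i _
      rw [hB1, hB1, ← ind_toNat]
      rfl
  have hpop : popc k A = ∑ i, ind (w i ∈ S) := by
    unfold popc
    apply Finset.sum_congr rfl
    intro i _
    rw [hA1, ind_toNat']
  have hpop2 : ∑ i, (1 - ind (w i ∈ S)) + popc k A = k := by
    rw [hpop, ← Finset.sum_add_distrib]
    rw [Finset.sum_congr rfl (g := fun _ => 1) (fun i _ => by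
      have := ind_le (w i ∈ S); omega)]
    simp
  obtain ⟨f1, f2, f3, f4⟩ := facts h S
  obtain ⟨g1, g2, g3, g4⟩ := facts h Sᶜ
  rw [dl_compl] at g1 g2 g3 g4
  rw [dl, ← hpop] at f1 f2 f3 f4
  rw [hcross]
  unfold chkP2 at hP
  rw [List.all_eq_true] at hP
  have h1 := hP A (by rw [List.mem_range]; exact Nat.ofBits_lt_two_pow _)
  rw [List.all_eq_true] at h1
  have h2 := h1 B (by rw [List.mem_range]; exact Nat.ofBits_lt_two_pow _)
  simp only [Bool.or_eq_true, Bool.and_eq_true] at h2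
  rcases h2 with (h2 | ⟨h2, h3⟩) | ⟨h2, h3⟩
  · have := Nat.le_of_ble_eq_true h2
    omega
  · have h2' := Nat.eq_of_beq_eq_true h2
    rcases h3 with ⟨h3, h4⟩ | ⟨h3, h4⟩
    · have h3' := Nat.eq_of_beq_eq_true h3
      have h4' := Nat.eq_of_beq_eq_true h4
      have h5 : popc k A = 0 := by
        rw [h3']; unfold popc; simp
      have h6 : 1 ≤ S.ncard := by
        obtain ⟨v | a, hv⟩ := hZ
        · exact ncard_pos_of (S := S) ⟨v, hv⟩
        · exfalso
          have h7 := hB1 a
          rw [h4', Nat.zero_testBit] at h7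
          have h8 := of_decide_eq_false h7.symm
          exact h8 hv
      have := f1 h6
      omega
    · have h3' := Nat.eq_of_beq_eq_true h3
      have h4' := Nat.eq_of_beq_eq_true h4
      have h5 : popc k A = k := by
        rw [h3']; unfold popc
        rw [Finset.sum_congr rfl (g := fun _ => 1) (fun i _ => by
          rw [Nat.testBit_two_pow_sub_one]; simp)]
        simp
      have h6 : 1 ≤ Sᶜ.ncard := by
        obtain ⟨v | a, hv⟩ := hZc
        · exact ncard_pos_of (S := Sᶜ) ⟨v, hv⟩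
        · exfalso
          have h7 := hB1 a
          rw [h4', Nat.testBit_two_pow_sub_one] at h7
          have h9 : decide ((a : ℕ) < n) = true := by simp
          rw [h9] at h7
          have h8 := of_decide_eq_true h7.symm
          exact hv h8
      have := g1 h6
      omega
  · have h2' := Nat.eq_of_beq_eq_true h2
    have h4 : popc k A = 1 ∨ popc k A = 2 ∨ popc k A + 1 = k ∨ popc k A + 2 = k ∨
        (popc k A = 3 ∧ ind (w i ∈ S) = 1 ∧ ind (w j ∈ S) = 1) ∨
        (popc k A + 3 = k ∧ ind (w i ∈ S) = 0 ∧ ind (w j ∈ S) = 0) := by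
      rcases h3 with ((((h3 | h3) | h3) | h3) | h3) | h3
      · exact Or.inl (Nat.eq_of_beq_eq_true h3)
      · exact Or.inr (Or.inl (Nat.eq_of_beq_eq_true h3))
      · exact Or.inr (Or.inr (Or.inl (Nat.eq_of_beq_eq_true h3)))
      · exact Or.inr (Or.inr (Or.inr (Or.inl (Nat.eq_of_beq_eq_true h3))))
      · refine Or.inr (Or.inr (Or.inr (Or.inr (Or.inl ⟨Nat.eq_of_beq_eq_true h3.1, ?_, ?_⟩))))
        · have h5 := h3.2.1
          rw [hA1] at h5
          exact ind_true (of_decide_eq_true h5)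
        · have h5 := h3.2.2
          rw [hA1] at h5
          exact ind_true (of_decide_eq_true h5)
      · refine Or.inr (Or.inr (Or.inr (Or.inr (Or.inr ⟨Nat.eq_of_beq_eq_true h3.1, ?_, ?_⟩))))
        · have h5 := h3.2.1
          rw [hA1, Bool.not_eq_true'] at h5
          exact ind_false (of_decide_eq_false h5)
        · have h5 := h3.2.2
          rw [hA1, Bool.not_eq_true'] at h5
          exact ind_false (of_decide_eq_false h5)
    have h5 := pairZ hij S
    have h6 := pairW hij S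
    by_contra hlt
    have hc0 : cut s t S = 0 := by omega
    rw [hc0] at f1 f2 f3 f4 g1 g2 g3 g4
    clear hlt h2' h2 hc0 h3
    rcases h4 with h4 | h4 | h4 | h4 | ⟨h4, h7, h8⟩ | ⟨h4, h7, h8⟩
    · rw [h4] at f1 f2 f3 f4
      omega
    · rw [h4] at f1 f2 f3 f4
      omega
    · have h9 : ∑ i, (1 - ind (w i ∈ S)) = 1 := by omega
      rw [h9] at g1 g2 g3 g4
      omega
    · have h9 : ∑ i, (1 - ind (w i ∈ S)) = 2 := by omega
      rw [h9] at g1 g2 g3 g4
      omega
    · rw [h4] at f1 f2 f3 f4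
      omega
    · have h9 : ∑ i, (1 - ind (w i ∈ S)) = 3 := by omega
      rw [h9] at g1 g2 g3 g4
      omega


theorem exclY2 {V E : Type} [Fintype V] [Fintype E] {s t : E → V} {k n q : ℕ}
    (X : Piece k n q) (hX : X.Good) (hn : 4 ≤ n) (hk : 1 ≤ k) (T : Tr)
    (hT : T.all (chk T k (WX k (k + q) X.inc)) = true) {n' q' : ℕ} (Y : Piece k n' q')
    (hlt : n' < n) (hY : Y.Good) (i j : Fin k) (hP : chkP2 Y i j = true) (ha : Adj2 X i j)
    (l : List ℕ)
    (hl : ∀ g : Fin 6 → Fin k ⊕ Fin q' → Bool, PC Y.e1 Y.e2 g →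
      code (fun c i => g c (Sum.inl i)) ∈ l)
    (hr : (l.all fun x => Nat.ble (T.rk x + 1) 1000) = true) (hS : Smallest s t) :
    ¬ Contains s t X := by
  intro hcon
  obtain ⟨V', E', _, _, s', t', w, ⟨I⟩⟩ := contains_iso hX hS.cubic hcon
  obtain ⟨h1, h2, h3, h4, h5⟩ := outer hS hn hk I
  obtain ⟨h6, e, he⟩ := ha
  have h7 := outer_ne X hn h1 h2 i j h6 e he
  exact finish hS hn hk hlt I T hT l hr Y.e1 Y.e2 (fun i => (Sum.inl i, false)) Y.pos hl hY
    (twoP2 h3 Y i j hP h7)

end Pool.Agent.TH372.BFR
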