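import Pool.Agent.TH372.BFR.Main

set_option autoImplicit false

/-! The configuration N7x1 with another order of the ports. -/

namespace Pool.Agent.TH372.BFR.N7x2

/-- The configuration N7x1 with another order of the ports. -/
def X : Piece 5 7 8 where
  p := ![2, 5, 1, 4, 3]
  a := ![0, 0, 0, 2, 1, 4, 5, 3]
  b := ![1, 2, 3, 4, 5, 6, 6, 6]

/-- table: code, rank, and the two subsets switched or a colouring of the piece -/
def T : Tr :=
  (.nd (.nd (.nd .lf 562949991170048 0 60213861118753914237123 0 .lf) 562958562234368 0
  59124490190505034920586 0 (.nd .lf 562967133298688 0 56945964507601138889484 0 .lf))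
  144396663088222208 0 57962196694532464064674 0 (.nd (.nd .lf 144396671659286528 0
  56945460102548792818216 0 .lf) 288230376185274368 0 56945315986819551083568 0 .lf))

def inc : List (List ℕ) := [[5, 6, 7], [2, 5, 9], [0, 6, 8], [4, 7, 12], [3, 8, 10], [1, 9, 11], [10, 11, 12]]

theorem inc_eq : X.inc = inc := by decide +kernel

theorem T_ok' : T.all (chk T 5 (WX 5 (5 + 8) inc)) = true := by decide +kernel

theorem T_ok : T.all (chk T 5 (WX 5 (5 + 8) X.inc)) = true := by
  rw [inc_eq]; exact T_ok'

theorem good : X.Good := good_of X (by decide +kernel)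

theorem T_rk : (codesA.all fun x => Nat.ble (T.rk x + 1) 1000) = true := by decide +kernel

end Pool.Agent.TH372.BFR.N7x2
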