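import Pool.Agent.TH372.BFR.YCat

set_option autoImplicit false

/-! Configuration N9x4. -/

namespace Pool.Agent.TH372.BFR.N9x4

/-- Configuration N9x4. -/
def X : Piece 5 9 11 where
  p := ![1, 3, 4, 7, 8]
  a := ![0, 1, 0, 2, 0, 3, 6, 5, 2, 5, 4]
  b := ![1, 2, 3, 4, 5, 6, 7, 8, 8, 7, 6]

/-- table: code, rank, and the two subsets switched or a colouring of the piece -/
def T : Tr :=
  (.nd (.nd (.nd (.nd (.nd .lf 562949991170048 0 60350540513178416062462439619 0 .lf)
  562958562234368 0 50449102771865977010143638154 0 (.nd .lf 562967133298688 0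
  15787376722377749140708799244 0 .lf)) 563499728109632 0 60352623076921492033214914762 0 (.nd
  (.nd .lf 563508299173952 0 45497937637548172339905077580 0 .lf) 564049465049216 0
  60353218095133799453429907660 0 .lf)) 567348018806792 1 1 14 (.nd (.nd (.nd .lf 567356589871112
  1 1 14 .lf) 567897755746376 1 1 14 (.nd .lf 571746046443536 2 1 14 .lf)) 144396663088222208 0
  30040354643691342545300764834 0 (.nd (.nd .lf 144396671659286528 0 30061779947898122460172663336
  0 .lf) 144397212825161792 0 25110019795367456351150188648 0 .lf))) 288230376185274368 0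
  14914275819640453105412226096 0 (.nd (.nd (.nd (.nd .lf 9223653511867138112 1 2 21 .lf)
  9223653520438202432 1 2 21 (.nd .lf 9223654061604077696 1 2 21 .lf)) 9223657909894774856 2 1 14
  (.nd (.nd .lf 9367487224964190272 1 2 21 .lf) 18446744073743106176 2 2 21 .lf))
  73787257769850568712 0 21374774376757346624271952003 0 (.nd (.nd (.nd .lf 73787257778421633032 0
  30061779947889398866198538761 0 .lf) 73787258319587508296 0 22634139719094646244444899465 0 (.nd
  .lf 73787262167878205456 1 1 14 .lf)) 73931091482947620872 0 11200455705235184228414663697 0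
  (.nd (.nd .lf 83010348331726536776 1 2 21 .lf) 147573952589709967376 0
  3772815476438153974766570499 0 .lf))))

def inc : List (List ℕ) := [[5, 7, 9], [0, 5, 6], [6, 8, 13], [1, 7, 10], [2, 8, 15], [9, 12, 14], [10, 11, 15], [3, 11, 14], [4, 12, 13]]

theorem inc_eq : X.inc = inc := by decide +kernel

theorem T_ok' : T.all (chk T 5 (WX 5 (5 + 11) inc)) = true := by decide +kernel

theorem T_ok : T.all (chk T 5 (WX 5 (5 + 11) X.inc)) = true := by
  rw [inc_eq]; exact T_ok'

theorem good : X.Good := good_of X (by decide +kernel)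

theorem T_rk : (YCat.cod.all fun x => Nat.ble (T.rk x + 1) 1000) = true := by decide +kernel

theorem no {V E : Type} [Fintype V] [Fintype E] {s t : E → V} (hS : Smallest s t) :
    ¬ Contains s t X :=
  exclY X good (by norm_num) (by norm_num) T T_ok YCat.Y (by norm_num) YCat.good YCat.chk
    YCat.cod YCat.codes T_rk hS

end Pool.Agent.TH372.BFR.N9x4
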