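import Mathlib

set_option autoImplicit false

/-! Two involutions on a finite set, the second without fixed points: the fixed points of the first
one are paired up by the orbits. -/

namespace Pool.Agent.TH372.BFR

theorem pair_aux {Ω : Type} [Fintype Ω] (a b : Equiv.Perm Ω) (ha : a * a = 1)
    (hb : b * b = 1) (hn : ∀ x, b x ≠ x) (x : Ω) (hx : a x = x) :
    (∀ n : ℤ, ∃ m : ℤ, a (((a * b) ^ n) x) = ((a * b) ^ m) x) ∧
    (∀ n : ℤ, ∃ m : ℤ, b (((a * b) ^ n) x) = ((a * b) ^ m) x) ∧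
    ∃ y, (∃ n : ℤ, y = ((a * b) ^ n) x) ∧ y ≠ x ∧ a y = y ∧
      ∀ n : ℤ, a (((a * b) ^ n) x) = ((a * b) ^ n) x →
        ((a * b) ^ n) x = x ∨ ((a * b) ^ n) x = y := by
  classical
  set τ := a * b with hτ
  have hai : a⁻¹ = a := by
    rw [inv_eq_iff_mul_eq_one]; exact ha
  have hbi : b⁻¹ = b := by
    rw [inv_eq_iff_mul_eq_one]; exact hb
  have h1 : a * τ * a⁻¹ = τ⁻¹ := by
    rw [hτ, mul_inv_rev, hai, hbi, ← mul_assoc, ha, one_mul]
  have h2 : ∀ n : ℤ, a ((τ ^ n) x) = (τ ^ (-n)) x := by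
    intro n
    have h3 : a * τ ^ n * a⁻¹ = τ ^ (-n) := by
      rw [← conj_zpow, h1, inv_zpow, zpow_neg]
    have h4 : a * τ ^ n = τ ^ (-n) * a := by
      rw [← h3]; group
    have h5 := congrArg (fun p : Equiv.Perm Ω => p x) h4
    simpa [Equiv.Perm.mul_apply, hx] using h5
  have h3 : ∀ n : ℤ, b ((τ ^ n) x) = (τ ^ (-(n + 1))) x := by
    intro n
    have h4 : b = a * τ := by rw [hτ, ← mul_assoc, ha, one_mul]
    have h6 : (τ ^ (n + 1)) x = τ ((τ ^ n) x) := by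
      rw [add_comm n 1, zpow_add, zpow_one, Equiv.Perm.mul_apply]
    have h5 : b ((τ ^ n) x) = a ((τ ^ (n + 1)) x) := by
      rw [h6]
      exact congrArg (fun p : Equiv.Perm Ω => p ((τ ^ n) x)) h4
    rw [h5, h2]
  -- minimal period
  have hex : ∃ n : ℕ, 0 < n ∧ (τ ^ (n : ℤ)) x = x :=
    ⟨orderOf τ, orderOf_pos τ, by rw [zpow_natCast, pow_orderOf_eq_one]; rfl⟩
  obtain ⟨hN0, hN1⟩ := Nat.find_spec hex
  have hNmin := fun m => Nat.find_min (H := hex) (m := m)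
  set N := Nat.find hex with hN
  have hper : ∀ l : ℤ, (τ ^ ((N : ℤ) * l)) x = x := by
    intro l
    rw [zpow_mul]
    induction l with
    | zero => simp
    | succ i ih =>
      rw [zpow_add, zpow_one, Equiv.Perm.mul_apply, hN1]
      exact ih
    | pred i ih =>
      have h6 : (τ ^ (N : ℤ))⁻¹ x = x := by
        rw [Equiv.Perm.inv_eq_iff_eq]; exact hN1.symm
      rw [zpow_sub, zpow_one, Equiv.Perm.mul_apply, h6]
      exact ih
  have hdvd : ∀ n : ℤ, (τ ^ n) x = x → (N : ℤ) ∣ n := by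
    intro n hn'
    have h6 : (τ ^ (n % N)) x = x := by
      have h7 : n % N = n - N * (n / N) := Int.emod_def n N
      rw [h7, sub_eq_add_neg, zpow_add, Equiv.Perm.mul_apply, ← mul_neg, hper]
      exact hn'
    have h8 : 0 ≤ n % (N : ℤ) := Int.emod_nonneg _ (by omega)
    have h9 : n % (N : ℤ) < N := Int.emod_lt_of_pos _ (by omega)
    obtain ⟨r, hr⟩ := Int.eq_ofNat_of_zero_le h8
    rw [hr] at h6 h9
    by_cases hr0 : r = 0
    · rw [Int.dvd_iff_emod_eq_zero, hr, hr0]; rfl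
    · exact absurd ⟨by omega, h6⟩ (hNmin r (by omega))
  have heven : ∃ m : ℕ, N = 2 * m := by
    rcases Nat.even_or_odd' N with ⟨m, hm | hm⟩
    · exact ⟨m, hm⟩
    · exfalso
      apply hn ((τ ^ (m : ℤ)) x)
      rw [h3]
      have h7 : (-((m : ℤ) + 1)) = (m : ℤ) + N * (-1) := by rw [hm]; push_cast; ring
      rw [h7, zpow_add, Equiv.Perm.mul_apply, hper]
  obtain ⟨m, hm⟩ := heven
  refine ⟨fun n => ⟨-n, h2 n⟩, fun n => ⟨-(n + 1), h3 n⟩, (τ ^ (m : ℤ)) x, ⟨m, rfl⟩, ?_, ?_, ?_⟩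
  · intro h
    have := hdvd _ h
    obtain ⟨l, hl⟩ := this
    have h7 : (m : ℤ) = 2 * m * l := by
      have : (N : ℤ) = 2 * m := by rw [hm]; push_cast; ring
      rw [← this]; exact hl
    have h8 : 0 < (m : ℤ) := by omega
    have h9 : (m : ℤ) * (2 * l - 1) = 0 := by linarith
    rcases mul_eq_zero.1 h9 with h | h <;> omega
  · rw [h2]
    have h7 : (-(m : ℤ)) = m + N * (-1) := by rw [hm]; push_cast; ring
    rw [h7, zpow_add, Equiv.Perm.mul_apply, hper]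
  · intro n hn'
    rw [h2] at hn'
    have h7 : (τ ^ (2 * n)) x = x := by
      have h8 : (τ ^ n) ((τ ^ n) x) = (τ ^ n) ((τ ^ (-n)) x) := by rw [hn']
      rw [← Equiv.Perm.mul_apply, ← Equiv.Perm.mul_apply, ← zpow_add, ← zpow_add] at h8
      rw [two_mul, h8]; simp
    obtain ⟨l, hl⟩ := hdvd _ h7
    have h8 : n = m * l := by
      have h9 : (N : ℤ) = 2 * m := by rw [hm]; push_cast; ring
      rw [h9] at hl
      have : 2 * n = 2 * (m * l) := by rw [hl]; ring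
      omega
    rcases Int.even_or_odd' l with ⟨q, hq | hq⟩
    · left
      rw [h8, hq]
      have : (m : ℤ) * (2 * q) = N * q := by rw [hm]; push_cast; ring
      rw [this, hper]
    · right
      rw [h8, hq]
      have : (m : ℤ) * (2 * q + 1) = m + N * q := by rw [hm]; push_cast; ring
      rw [this, zpow_add, Equiv.Perm.mul_apply, hper]

/-- The pairing of the fixed points of the involution `α` by the orbits of `α` and `β`. -/
theorem pairing {Ω : Type} [Fintype Ω] (α β : Ω → Ω) (ha : ∀ x, α (α x) = x)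
    (hb : ∀ x, β (β x) = x) (hn : ∀ x, β x ≠ x) :
    ∃ (O : Ω → Set Ω) (π : Ω → Ω), ∀ x, α x = x →
      (x ∈ O x ∧ π x ∈ O x ∧ α (π x) = π x ∧ π x ≠ x ∧ π (π x) = x ∧
      (∀ y ∈ O x, α y ∈ O x ∧ β y ∈ O x) ∧ ∀ z ∈ O x, α z = z → z = x ∨ z = π x) := by
  classical
  let a : Equiv.Perm Ω := ⟨α, α, ha, ha⟩
  let b : Equiv.Perm Ω := ⟨β, β, hb, hb⟩
  have haa : a * a = 1 := by ext x; exact ha x
  have hbb : b * b = 1 := by ext x; exact hb x
  have key := fun x hx => pair_aux a b haa hbb hn x hx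
  let O : Ω → Set Ω := fun x => {y | ∃ n : ℤ, y = ((a * b) ^ n) x}
  have hsym : ∀ x y, y ∈ O x → x ∈ O y := by
    rintro x y ⟨n, rfl⟩
    exact ⟨-n, by rw [← Equiv.Perm.mul_apply, ← zpow_add]; simp⟩
  have key2 : ∀ x, ∃ y, a x = x → y ∈ O x ∧ y ≠ x ∧ a y = y ∧
      ∀ z ∈ O x, a z = z → z = x ∨ z = y := by
    intro x
    by_cases hx : a x = x
    · obtain ⟨-, -, y, h1, h2, h3, h4⟩ := key x hx
      refine ⟨y, fun _ => ⟨h1, h2, h3, ?_⟩⟩
      rintro z ⟨n, rfl⟩ hz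
      exact h4 n hz
    · exact ⟨x, fun h => absurd h hx⟩
  choose π hπ using key2
  refine ⟨O, π, fun x hx => ?_⟩
  obtain ⟨h1, h2, h3, h4⟩ := hπ x hx
  obtain ⟨k1, k2, -⟩ := key x hx
  refine ⟨⟨0, by simp⟩, h1, h3, h2, ?_, ?_, h4⟩
  · obtain ⟨g1, g2, g3, g4⟩ := hπ (π x) h3
    rcases g4 x (hsym _ _ h1) hx with h | h
    · exact absurd h.symm h2
    · exact h.symm
  · rintro y ⟨n, rfl⟩
    exact ⟨k1 n, k2 n⟩

end Pool.Agent.TH372.BFR
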