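import Pool.Agent.TH372.BFR.Trans

set_option autoImplicit false

/-! A smallest counterexample has only trivial cuts with at most three edges. -/

namespace Pool.Agent.TH372.BFR

open Finset

/-- every 2-edge-connected cubic graph with fewer than `N` vertices has six perfect matchings
covering each edge twice -/
def Below (N : ℕ) : Prop :=
  ∀ (V E : Type) [Fintype V] [Fintype E] (s t : E → V), Cubic s t → TwoEC s t →
    Fintype.card V < N → BFb s t

theorem contract {V E : Type} [Fintype V] [Fintype E] {s t : E → V} (hc : Cubic s t)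
    (h2 : TwoEC s t) (hmin : Below (Fintype.card V)) (Z : Set V) (hZ : cut s t Z = 3)
    (hZc : 2 ≤ Zᶜ.ncard) : ∃ f : Fin 6 → E → Bool,
      (∀ c, ∀ v ∈ Z, ∃! d : E × Bool, en s t d = v ∧ f c d.1 = true) ∧
      (∀ e, (s e ∈ Z ∨ t e ∈ Z) → (univ.filter fun c => f c e = true).card = 2) ∧
      ∀ c, ∃! e, ¬ (s e ∈ Z ↔ t e ∈ Z) ∧ f c e = true := by
  classical
  let V1 : Type := Option {v : V // v ∈ Z}
  let E1 : Type := {e : E // s e ∈ Z ∨ t e ∈ Z}
  let κ : V → V1 := fun v => if h : v ∈ Z then some ⟨v, h⟩ else none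
  have hκ1 : ∀ v (h : v ∈ Z), κ v = some ⟨v, h⟩ := fun v h => by simp [κ, h]
  have hκ2 : ∀ v, v ∉ Z → κ v = none := fun v h => by simp [κ, h]
  have hκ3 : ∀ v z, κ v = some z → v = z.1 := by
    intro v z h
    by_cases hv : v ∈ Z
    · rw [hκ1 v hv, Option.some.injEq] at h
      rw [← h]
    · rw [hκ2 v hv] at h
      simp at h
  have hκ4 : ∀ v, κ v = none → v ∉ Z := by
    intro v h hv
    rw [hκ1 v hv] at h
    simp at h
  let s1 : E1 → V1 := fun e => κ (s e.1)
  let t1 : E1 → V1 := fun e => κ (t e.1)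
  have hen : ∀ (e : E1) (b : Bool), en s1 t1 (e, b) = κ (en s t (e.1, b)) := by
    intro e b; cases b <;> rfl
  have hE : ∀ (e : E) (b : Bool), en s t (e, b) ∈ Z → (s e ∈ Z ∨ t e ∈ Z) := by
    intro e b h
    cases b
    · exact Or.inl h
    · exact Or.inr h
  have hout : ∀ (e : E1) (b : Bool), en s t (e.1, b) ∉ Z → ¬ (s e.1 ∈ Z ↔ t e.1 ∈ Z) := by
    intro e b h
    have := e.2
    cases b
    · have h : s e.1 ∉ Z := h
      tauto
    · have h : t e.1 ∉ Z := h
      tauto
  have hcub : Cubic s1 t1 := by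
    intro v
    rcases v with _ | z
    · rw [← hZ]
      have h5 : cut s t Z = Nat.card {e : E // ¬ (s e ∈ Z ↔ t e ∈ Z)} := by
        unfold cut
        rw [Nat.card_eq_fintype_card, Fintype.card_subtype]
      rw [h5]
      let F : {d : E1 × Bool // en s1 t1 d = none} → {e : E // ¬ (s e ∈ Z ↔ t e ∈ Z)} :=
        fun d => ⟨d.1.1.1, hout d.1.1 d.1.2 (hκ4 _ (by rw [← hen]; exact d.2))⟩
      apply Nat.card_eq_of_bijective F
      constructor
      · rintro ⟨⟨e, b⟩, h⟩ ⟨⟨e', b'⟩, h'⟩ heq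
        simp only [F, Subtype.mk.injEq] at heq
        have h6 : e = e' := Subtype.ext heq
        subst h6
        have h7 := hκ4 _ ((hen e b).symm.trans h)
        have h8 := hκ4 _ ((hen e b').symm.trans h')
        have := e.2
        have h9 : b = b' := by
          cases b <;> cases b'
          · rfl
          · have h7 : s e.1 ∉ Z := h7
            have h8 : t e.1 ∉ Z := h8
            tauto
          · have h7 : t e.1 ∉ Z := h7
            have h8 : s e.1 ∉ Z := h8
            tauto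
          · rfl
        subst h9
        rfl
      · rintro ⟨e, he⟩
        by_cases hs : s e ∈ Z
        · have ht : t e ∉ Z := by tauto
          exact ⟨⟨(⟨e, Or.inl hs⟩, true), hκ2 _ ht⟩, rfl⟩
        · have ht : t e ∈ Z := by tauto
          exact ⟨⟨(⟨e, Or.inr ht⟩, false), hκ2 _ hs⟩, rfl⟩
    · rw [← hc z.1]
      let F : {d : E1 × Bool // en s1 t1 d = some z} → {d : E × Bool // en s t d = z.1} :=
        fun d => ⟨(d.1.1.1, d.1.2), hκ3 _ _ (by rw [← hen]; exact d.2)⟩
      apply Nat.card_eq_of_bijective F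
      constructor
      · rintro ⟨⟨e, b⟩, h⟩ ⟨⟨e', b'⟩, h'⟩ heq
        simp only [F, Subtype.mk.injEq, Prod.mk.injEq] at heq
        have h6 : e = e' := Subtype.ext heq.1
        subst h6
        have h7 : b = b' := heq.2
        subst h7
        rfl
      · rintro ⟨⟨e, b⟩, he⟩
        have h6 : en s t (e, b) ∈ Z := by rw [he]; exact z.2
        refine ⟨⟨(⟨e, hE e b h6⟩, b), ?_⟩, rfl⟩
        rw [hen]
        rw [hκ1 _ h6]
        congr 1
        exact Subtype.ext he
  have hcut : ∀ Y : Set V1, cut s1 t1 Y = cut s t (κ ⁻¹' Y) := by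
    intro Y
    rw [cut_sum, cut_sum]
    rw [← Fintype.sum_subtype_add_sum_subtype (fun e : E => s e ∈ Z ∨ t e ∈ Z)]
    have h5 : ∑ x : {e // ¬ (s e ∈ Z ∨ t e ∈ Z)},
        ind (¬ (s x.1 ∈ κ ⁻¹' Y ↔ t x.1 ∈ κ ⁻¹' Y)) = 0 := by
      apply Finset.sum_eq_zero
      rintro ⟨e, he⟩ _
      push Not at he
      apply ind_false
      simp only [Set.mem_preimage, hκ2 _ he.1, hκ2 _ he.2, not_true_eq_false, not_false_eq_true]
    rw [h5, add_zero]
    rfl
  have hZne : Zᶜ.Nonempty := by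
    apply Set.nonempty_of_ncard_ne_zero
    omega
  have hsurj : Function.Surjective κ := by
    rintro (_ | z)
    · obtain ⟨v, hv⟩ := hZne
      exact ⟨v, hκ2 v hv⟩
    · exact ⟨z.1, hκ1 z.1 z.2⟩
  have htwo : TwoEC s1 t1 := by
    intro Y hY hYc
    rw [hcut]
    apply h2
    · obtain ⟨y, hy⟩ := hY
      obtain ⟨v, rfl⟩ := hsurj y
      exact ⟨v, hy⟩
    · obtain ⟨y, hy⟩ := hYc
      obtain ⟨v, rfl⟩ := hsurj y
      exact ⟨v, hy⟩
  have hcard : Fintype.card V1 < Fintype.card V := by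
    have h5 : Fintype.card V1 = Fintype.card {v : V // v ∈ Z} + 1 := Fintype.card_option
    have h6 : Z.ncard = Fintype.card {v : V // v ∈ Z} := by
      rw [Set.ncard_eq_toFinset_card', Set.toFinset_card]
    have h7 := Set.ncard_add_ncard_compl Z
    rw [Nat.card_eq_fintype_card] at h7
    omega
  obtain ⟨f, hf1, hf2⟩ := hmin V1 E1 s1 t1 hcub htwo hcard
  let g : Fin 6 → E → Bool := fun c e =>
    if h : s e ∈ Z ∨ t e ∈ Z then f c ⟨e, h⟩ else false
  have hg : ∀ c e (h : s e ∈ Z ∨ t e ∈ Z), g c e = f c ⟨e, h⟩ := fun c e h => by simp [g, h]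
  refine ⟨g, ?_, ?_, ?_⟩
  · intro c v hv
    obtain ⟨⟨e, b⟩, ⟨g1, g2⟩, g3⟩ := hf1 c (some ⟨v, hv⟩)
    rw [hen] at g1
    refine ⟨(e.1, b), ⟨hκ3 _ _ g1, by rw [hg c _ e.2]; exact g2⟩, ?_⟩
    rintro ⟨e', b'⟩ ⟨k1, k2⟩
    have h5 : en s t (e', b') ∈ Z := by rw [k1]; exact hv
    rw [hg c _ (hE e' b' h5)] at k2
    have h6 := g3 (⟨e', hE e' b' h5⟩, b') ⟨by
      rw [hen, hκ1 _ h5]
      congr 1
      exact Subtype.ext k1, k2⟩
    rw [Prod.mk.injEq] at h6
    rw [← h6.1, ← h6.2]
  · intro e he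
    have : (univ.filter fun c => g c e = true) = univ.filter fun c => f c ⟨e, he⟩ = true := by
      ext c
      simp [hg c e he]
    rw [this]
    exact hf2 _
  · intro c
    obtain ⟨⟨e, b⟩, ⟨g1, g2⟩, g3⟩ := hf1 c none
    rw [hen] at g1
    refine ⟨e.1, ⟨hout e b (hκ4 _ g1), by rw [hg c _ e.2]; exact g2⟩, ?_⟩
    rintro e' ⟨k1, k2⟩
    by_cases hs : s e' ∈ Z
    · have ht : t e' ∉ Z := by tauto
      have h5 : s e' ∈ Z ∨ t e' ∈ Z := Or.inl hs
      rw [hg c e' h5] at k2
      have h6 := g3 (⟨e', h5⟩, true) ⟨by rw [hen]; exact hκ2 _ ht, k2⟩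
      rw [Prod.mk.injEq] at h6
      rw [← h6.1]
    · have ht : t e' ∈ Z := by tauto
      have h5 : s e' ∈ Z ∨ t e' ∈ Z := Or.inr ht
      rw [hg c e' h5] at k2
      have h6 := g3 (⟨e', h5⟩, false) ⟨by rw [hen]; exact hκ2 _ hs, k2⟩
      rw [Prod.mk.injEq] at h6
      rw [← h6.1]

theorem combine {V E : Type} [Fintype V] [Fintype E] {s t : E → V} (hc : Cubic s t)
    (h2 : TwoEC s t) (hmin : Below (Fintype.card V)) (Z : Set V) (hZ : cut s t Z = 3)
    (h1 : 2 ≤ Z.ncard) (h1' : 2 ≤ Zᶜ.ncard) : BFb s t := by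
  classical
  obtain ⟨f, f1, f2, f3⟩ := contract hc h2 hmin Z hZ h1'
  obtain ⟨g, g1, g2, g3⟩ := contract hc h2 hmin Zᶜ (by rw [cut_compl]; exact hZ)
    (by rw [compl_compl]; exact h1)
  have hcr : ∀ e, (¬ (s e ∈ Zᶜ ↔ t e ∈ Zᶜ)) ↔ ¬ (s e ∈ Z ↔ t e ∈ Z) := by
    intro e
    simp only [Set.mem_compl_iff]
    tauto
  choose F hF1 hF2 using f3
  choose G hG1 hG2 using g3
  have hFe : ∀ c e, ¬ (s e ∈ Z ↔ t e ∈ Z) → (F c = e ↔ f c e = true) := by
    intro c e he
    constructor
    · rintro rfl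
      exact (hF1 c).2
    · intro h
      exact (hF2 c e ⟨he, h⟩).symm
  have hGe : ∀ c e, ¬ (s e ∈ Z ↔ t e ∈ Z) → (G c = e ↔ g c e = true) := by
    intro c e he
    constructor
    · rintro rfl
      exact (hG1 c).2
    · intro h
      exact (hG2 c e ⟨(hcr e).2 he, h⟩).symm
  have hfib : ∀ e, Nonempty ({c // F c = e} ≃ {c // G c = e}) := by
    intro e
    refine ⟨Fintype.equivOfCardEq ?_⟩
    rw [Fintype.card_subtype, Fintype.card_subtype]
    by_cases he : ¬ (s e ∈ Z ↔ t e ∈ Z)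
    · rw [Finset.filter_congr (fun c _ => hFe c e he), Finset.filter_congr (fun c _ => hGe c e he)]
      rw [f2 e (by tauto), g2 e (by simp only [Set.mem_compl_iff]; tauto)]
    · have e1 : (univ.filter fun c => F c = e) = ∅ := by
        apply Finset.filter_false_of_mem
        rintro c _ rfl
        exact he (hF1 c).1
      have e2 : (univ.filter fun c => G c = e) = ∅ := by
        apply Finset.filter_false_of_mem
        rintro c _ rfl
        exact he ((hcr _).1 (hG1 c).1)
      rw [e1, e2]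
  let σ : Equiv.Perm (Fin 6) := Equiv.ofFiberEquiv (fun e => (hfib e).some)
  have hσ : ∀ c, G (σ c) = F c := fun c => Equiv.ofFiberEquiv_map (fun e => (hfib e).some) c
  let h : Fin 6 → E → Bool := fun c e => if s e ∈ Z ∨ t e ∈ Z then f c e else g (σ c) e
  have hh1 : ∀ c e, (s e ∈ Z ∨ t e ∈ Z) → h c e = f c e := fun c e he => by simp [h, he]
  have hh2 : ∀ c e, (s e ∉ Z ∨ t e ∉ Z) → h c e = g (σ c) e := by
    intro c e he
    by_cases h5 : s e ∈ Z ∨ t e ∈ Z
    · rw [hh1 c e h5]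
      have h6 : ¬ (s e ∈ Z ↔ t e ∈ Z) := by tauto
      rw [Bool.eq_iff_iff, ← hFe c e h6, ← hGe (σ c) e h6, hσ]
    · simp only [h, if_neg h5]
  refine ⟨h, ?_, ?_⟩
  · intro c v
    by_cases hv : v ∈ Z
    · obtain ⟨d, ⟨k1, k2⟩, k3⟩ := f1 c v hv
      have h5 : ∀ d : E × Bool, en s t d = v → h c d.1 = f c d.1 := by
        rintro ⟨e, b⟩ hd
        apply hh1
        cases b
        · left
          have hd : s e = v := hd
          rw [hd]; exact hv
        · right
          have hd : t e = v := hd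
          rw [hd]; exact hv
      refine ⟨d, ⟨k1, by rw [h5 d k1]; exact k2⟩, ?_⟩
      rintro d' ⟨m1, m2⟩
      exact k3 d' ⟨m1, by rw [← h5 d' m1]; exact m2⟩
    · obtain ⟨d, ⟨k1, k2⟩, k3⟩ := g1 (σ c) v hv
      have h5 : ∀ d : E × Bool, en s t d = v → h c d.1 = g (σ c) d.1 := by
        rintro ⟨e, b⟩ hd
        apply hh2
        cases b
        · left
          have hd : s e = v := hd
          rw [hd]; exact hv
        · right
          have hd : t e = v := hd
          rw [hd]; exact hv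
      refine ⟨d, ⟨k1, by rw [h5 d k1]; exact k2⟩, ?_⟩
      rintro d' ⟨m1, m2⟩
      exact k3 d' ⟨m1, by rw [← h5 d' m1]; exact m2⟩
  · intro e
    by_cases he : s e ∈ Z ∨ t e ∈ Z
    · simp only [hh1 _ e he]
      exact f2 e he
    · have he' : s e ∈ Zᶜ ∨ t e ∈ Zᶜ := by
        simp only [Set.mem_compl_iff]
        tauto
      have he2 : s e ∉ Z ∨ t e ∉ Z := by tauto
      simp only [hh2 _ e he2]
      rw [← g2 e he']
      apply Finset.card_bij (fun c _ => σ c)
      · intro c hc'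
        rw [mem_filter] at hc' ⊢
        exact ⟨mem_univ _, hc'.2⟩
      · intro c _ c' _ hcc
        exact σ.injective hcc
      · intro c hc'
        rw [mem_filter] at hc'
        exact ⟨σ.symm c, by rw [mem_filter]; exact ⟨mem_univ _, by simpa using hc'.2⟩, by simp⟩

theorem cut2_aux {V E : Type} [Fintype V] [Fintype E] {s t : E → V} (hc : Cubic s t)
    (h2 : TwoEC s t) (hmin : Below (Fintype.card V)) (Z : Set V) (hZ : cut s t Z = 2)
    (h1 : 3 ≤ Z.ncard) (h1' : 1 ≤ Zᶜ.ncard) : BFb s t := by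
  classical
  have hex : ∃ z, z ∈ Z ∧ ∃ e0, ((s e0 = z ∧ t e0 ∉ Z) ∨ (t e0 = z ∧ s e0 ∉ Z)) := by
    by_contra hno
    push Not at hno
    have h5 : cut s t Z = 0 := by
      rw [cut_sum]
      apply Finset.sum_eq_zero
      intro e _
      apply ind_false
      rw [not_not]
      constructor
      · intro h; exact (hno _ h e).1 rfl
      · intro h; exact (hno _ h e).2 rfl
    omega
  obtain ⟨z, hz, e0, he0⟩ := hex
  have h5 : cut s t (Z \ {z}) + 2 * ∑ e, ind ((s e = z ∧ t e ∉ Z) ∨ (t e = z ∧ s e ∉ Z)) ≤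
      cut s t Z + cut s t {z} := by
    rw [cut_sum, cut_sum, cut_sum, Finset.mul_sum, ← Finset.sum_add_distrib,
      ← Finset.sum_add_distrib]
    apply Finset.sum_le_sum
    intro e _
    simp only [Set.mem_diff, Set.mem_singleton_iff]
    by_cases a : s e = z
    · by_cases b : t e = z
      · simp [ind, a, b, hz]
      · by_cases b' : t e ∈ Z
        · simp [ind, a, b, b', hz]
        · simp [ind, a, b, b', hz]
    · by_cases b : t e = z
      · by_cases a' : s e ∈ Z
        · simp [ind, a, b, a', hz]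
        · simp [ind, a, b, a', hz]
      · simp only [a, b, not_false_eq_true, and_true, false_and, or_self, iff_self, not_true]
        rw [ind_false (P := False) id]
        omega
  have h6 : 1 ≤ ∑ e, ind ((s e = z ∧ t e ∉ Z) ∨ (t e = z ∧ s e ∉ Z)) := by
    calc 1 = ind ((s e0 = z ∧ t e0 ∉ Z) ∨ (t e0 = z ∧ s e0 ∉ Z)) := (ind_true he0).symm
      _ ≤ _ := Finset.single_le_sum (f := fun e => ind ((s e = z ∧ t e ∉ Z) ∨
        (t e = z ∧ s e ∉ Z))) (fun _ _ => Nat.zero_le _) (mem_univ e0)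
  have h7 := handshake' s t hc {z}
  rw [Set.ncard_singleton] at h7
  have h8 : (Z \ {z}).ncard = Z.ncard - 1 := Set.ncard_diff_singleton_of_mem hz
  have h9 := handshake s t hc Z
  have h10 := handshake s t hc (Z \ {z})
  have h11 := Set.ncard_add_ncard_compl Z
  have h12 := Set.ncard_add_ncard_compl (Z \ {z})
  have h13 := h2 (Z \ {z}) (by apply Set.nonempty_of_ncard_ne_zero; omega)
    (by apply Set.nonempty_of_ncard_ne_zero; omega)
  exact combine hc h2 hmin (Z \ {z}) (by omega) (by omega) (by omega)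

theorem ess_of_min {V E : Type} [Fintype V] [Fintype E] {s t : E → V} (hc : Cubic s t)
    (h2 : TwoEC s t) (hmin : Below (Fintype.card V)) (hno : ¬ BFb s t)
    (h5 : 5 ≤ Fintype.card V) : Ess s t := by
  intro Z hZ
  by_contra hcon
  push Not at hcon
  obtain ⟨k1, k2⟩ := hcon
  have h3 := h2 Z (by apply Set.nonempty_of_ncard_ne_zero; omega)
    (by apply Set.nonempty_of_ncard_ne_zero; omega)
  have h7 := Set.ncard_add_ncard_compl Z
  rw [Nat.card_eq_fintype_card] at h7
  have h8 : cut s t Z = 2 ∨ cut s t Z = 3 := by omega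
  rcases h8 with h8 | h8
  · by_cases h9 : 3 ≤ Z.ncard
    · exact hno (cut2_aux hc h2 hmin Z h8 h9 (by omega))
    · refine hno (cut2_aux hc h2 hmin Zᶜ (by rw [cut_compl]; exact h8) (by omega) ?_)
      rw [compl_compl]
      omega
  · exact hno (combine hc h2 hmin Z h8 (by omega) (by omega))

end Pool.Agent.TH372.BFR
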