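import Pool.Agent.TH372.BFR.YCat

set_option autoImplicit false

/-! Three cycles of length five in a row, with one more edge (5, 9). -/

namespace Pool.Agent.TH372.BFR.Row59

/-- Three cycles of length five in a row, with one more edge (5, 9). -/
def X : Piece 5 11 14 where
  p := ![4, 6, 7, 8, 10]
  a := ![0, 1, 2, 3, 4, 0, 5, 6, 7, 2, 8, 9, 10, 5]
  b := ![1, 2, 3, 4, 0, 5, 6, 7, 1, 8, 9, 10, 3, 9]

/-- table: code, rank, and the two subsets switched or a colouring of the piece -/
def T : Tr :=
  (.nd (.nd (.nd (.nd .lf 564049465049216 0 989777686412823952420503806853324 0 .lf)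
  567897755746376 0 989777695637349462574737147347589 0 .lf) 571746046443536 0
  989777699803348557999076191290115 0 (.nd (.nd .lf 9223654061604077696 0
  989777686282631436674232092885224 0 .lf) 9223657909894774856 0 989777687174868220869204723794593
  0 .lf)) 18446744073743106176 0 989777686245433575032440174608624 0 (.nd (.nd (.nd .lf
  73787258319587508296 0 989777687173125010205708993595529 0 .lf) 73787262167878205456 0
  989777691338833570519465415838211 0 .lf) 83010348331726536776 0
  989777688326254109415240033831057 0 (.nd .lf 147573952589709967376 0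
  989777688920400716953862337137667 0 .lf)))

def inc : List (List ℕ) := [[5, 9, 10], [5, 6, 13], [6, 7, 14], [7, 8, 17], [0, 8, 9], [10, 11, 18], [1, 11, 12], [2, 12, 13], [3, 14, 15], [15, 16, 18], [4, 16, 17]]

theorem inc_eq : X.inc = inc := by decide +kernel

theorem T_ok' : T.all (chk T 5 (WX 5 (5 + 14) inc)) = true := by decide +kernel

theorem T_ok : T.all (chk T 5 (WX 5 (5 + 14) X.inc)) = true := by
  rw [inc_eq]; exact T_ok'

theorem good : X.Good := good_of X (by decide +kernel)

theorem T_rk : (YCat.cod.all fun x => Nat.ble (T.rk x + 1) 1000) = true := by decide +kernel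

theorem no {V E : Type} [Fintype V] [Fintype E] {s t : E → V} (hS : Smallest s t) :
    ¬ Contains s t X :=
  exclY X good (by norm_num) (by norm_num) T T_ok YCat.Y (by norm_num) YCat.good YCat.chk
    YCat.cod YCat.codes T_rk hS

end Pool.Agent.TH372.BFR.Row59
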