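import Pool.Agent.TH372.BFR.YCat

set_option autoImplicit false

/-! Three cycles of length five in a row, with one more edge (6, 10). -/

namespace Pool.Agent.TH372.BFR.Row6x10

/-- Three cycles of length five in a row, with one more edge (6, 10). -/
def X : Piece 5 11 14 where
  p := ![4, 5, 7, 8, 9]
  a := ![0, 1, 2, 3, 4, 0, 5, 6, 7, 2, 8, 9, 10, 6]
  b := ![1, 2, 3, 4, 0, 5, 6, 7, 1, 8, 9, 10, 3, 10]

/-- table: code, rank, and the two subsets switched or a colouring of the piece -/
def T : Tr :=
  (.nd (.nd (.nd (.nd (.nd .lf 562949991170048 0 1217899971011753428837032810000579 0 .lf)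
  562958562234368 0 11120786459992421235519607282872970 0 .lf) 562967133298688 0
  15593057777596595132574685128045324 0 (.nd (.nd .lf 563499728109632 0
  11120786459959881178973583633850570 0 .lf) 563508299173952 0 15593057777564055076028661479022924
  0 .lf)) 564049465049216 0 15593057777554757917015511865016524 0 (.nd (.nd (.nd .lf
  567348018806792 1 1 14 .lf) 567356589871112 1 1 14 .lf) 567897755746376 1 1 14 (.nd .lf
  571746046443536 2 1 14 .lf))) 9223653511867138112 0 6009619232587267310708983029965026 0 (.nd
  (.nd (.nd (.nd .lf 9223653520438202432 0 6009619231396933430665764974764648 0 .lf)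
  9223654061604077696 0 6009619230773878473200654653489384 0 .lf) 9223657909894774856 1 1 14 (.nd
  (.nd .lf 18446744073743106176 0 1217899957411337147524569986433264 0 .lf) 73787257769850568712 0
  11120786452706290646819981109635203 0 .lf)) 73787257778421633032 0
  15593057769120132970229139265169929 0 (.nd (.nd (.nd .lf 73787258319587508296 0
  15593057769092241493189690423150729 0 .lf) 73787262167878205456 1 1 14 .lf) 83010348331726536776
  0 11120786448475050025967214897858705 0 (.nd .lf 147573952589709967376 0
  15593057766674373821145767224740867 0 .lf))))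

def inc : List (List ℕ) := [[5, 9, 10], [5, 6, 13], [6, 7, 14], [7, 8, 17], [0, 8, 9], [1, 10, 11], [11, 12, 18], [2, 12, 13], [3, 14, 15], [4, 15, 16], [16, 17, 18]]

theorem inc_eq : X.inc = inc := by decide +kernel

theorem T_ok' : T.all (chk T 5 (WX 5 (5 + 14) inc)) = true := by decide +kernel

theorem T_ok : T.all (chk T 5 (WX 5 (5 + 14) X.inc)) = true := by
  rw [inc_eq]; exact T_ok'

theorem good : X.Good := good_of X (by decide +kernel)

theorem T_rk : (YCat.cod.all fun x => Nat.ble (T.rk x + 1) 1000) = true := by decide +kernel

theorem no {V E : Type} [Fintype V] [Fintype E] {s t : E → V} (hS : Smallest s t) :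
    ¬ Contains s t X :=
  exclY X good (by norm_num) (by norm_num) T T_ok YCat.Y (by norm_num) YCat.good YCat.chk
    YCat.cod YCat.codes T_rk hS

end Pool.Agent.TH372.BFR.Row6x10
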