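import Pool.Agent.TH372.BFR.Theta
import Pool.Agent.TH372.BFR.K4x1
import Pool.Agent.TH372.BFR.Defs

set_option autoImplicit false

/-! Subgraphs that need not be induced. -/

namespace Pool.Agent.TH372.BFR

open Finset

theorem Adj.symm {V E : Type} {s t : E → V} {u v : V} (h : Adj s t u v) : Adj s t v u := by
  obtain ⟨e, h⟩ := h
  exact ⟨e, h.symm⟩

section

variable {V E : Type} [Fintype V] [Fintype E] {s t : E → V}

omit [Fintype V] in
/-- inner edges of `Z` bounded below by a finset of edges -/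
theorem inner_ge (Z : Set V) (F : Finset E) (hF : ∀ e ∈ F, s e ∈ Z ∧ t e ∈ Z) :
    F.card ≤ ∑ e, ind (s e ∈ Z ∧ t e ∈ Z) := by
  classical
  have h6 : ∑ x ∈ F, ind (s x ∈ Z ∧ t x ∈ Z) ≤ ∑ e, ind (s e ∈ Z ∧ t e ∈ Z) :=
    Finset.sum_le_sum_of_subset (subset_univ _)
  rw [Finset.sum_congr rfl (g := fun _ => 1) (fun x hx => ind_true (hF x hx)), Finset.sum_const,
    smul_eq_mul, mul_one] at h6
  exact h6

theorem G1 (hc : Cubic s t) (h2 : TwoEC s t) (h5 : 5 ≤ Fintype.card V) (e : E) : s e ≠ t e := by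
  classical
  intro h
  have h3 := handshake' s t hc {s e}
  have h4 := inner_ge (s := s) (t := t) {s e} {e} (by
    intro x hx
    rw [Finset.mem_singleton] at hx
    subst hx
    exact ⟨rfl, h.symm⟩)
  rw [Finset.card_singleton] at h4
  rw [Set.ncard_singleton] at h3
  have h6 := Set.ncard_add_ncard_compl ({s e} : Set V)
  rw [Nat.card_eq_fintype_card, Set.ncard_singleton] at h6
  have h7 := h2 {s e} ⟨_, rfl⟩ (Set.nonempty_of_ncard_ne_zero (by omega))
  omega

theorem G2 (hc : Cubic s t) (h3 : Ess s t) (h5 : 5 ≤ Fintype.card V) {u v : V} (huv : u ≠ v)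
    (e e' : E) (he : (s e = u ∧ t e = v) ∨ (s e = v ∧ t e = u))
    (he' : (s e' = u ∧ t e' = v) ∨ (s e' = v ∧ t e' = u)) : e = e' := by
  classical
  by_contra hne
  have h4 := handshake' s t hc {u, v}
  have h6 := inner_ge (s := s) (t := t) {u, v} {e, e'} (by
    intro x hx
    rw [Finset.mem_insert, Finset.mem_singleton] at hx
    rcases hx with rfl | rfl
    · rcases he with ⟨a, b⟩ | ⟨a, b⟩ <;> rw [a, b] <;> simp
    · rcases he' with ⟨a, b⟩ | ⟨a, b⟩ <;> rw [a, b] <;> simp)
  rw [Finset.card_pair hne] at h6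
  rw [Set.ncard_pair huv] at h4
  have h7 := Set.ncard_add_ncard_compl ({u, v} : Set V)
  rw [Nat.card_eq_fintype_card, Set.ncard_pair huv] at h7
  rcases h3 {u, v} (by omega) with h8 | h8
  · rw [Set.ncard_pair huv] at h8; omega
  · omega

omit [Fintype V] [Fintype E] in
theorem edge_ne {u v u' v' : V} {e e' : E} (he : (s e = u ∧ t e = v) ∨ (s e = v ∧ t e = u))
    (he' : (s e' = u' ∧ t e' = v') ∨ (s e' = v' ∧ t e' = u')) (h : u ≠ u') (h' : u ≠ v') :
    e ≠ e' := by
  rintro rfl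
  rcases he with ⟨a, b⟩ | ⟨a, b⟩ <;> rcases he' with ⟨c, d⟩ | ⟨c, d⟩
  · exact h (a.symm.trans c)
  · exact h' (a.symm.trans c)
  · exact h' (b.symm.trans d)
  · exact h (b.symm.trans d)

theorem G3 (hc : Cubic s t) (h3 : Ess s t) (h5 : 5 ≤ Fintype.card V) {u v x : V} (h1 : u ≠ v)
    (h2 : u ≠ x) (h4 : v ≠ x) (a : Adj s t u v) (b : Adj s t v x) (c : Adj s t x u) : False := by
  classical
  obtain ⟨e1, he1⟩ := a
  obtain ⟨e2, he2⟩ := b
  obtain ⟨e3, he3⟩ := c
  have n12 : e1 ≠ e2 := edge_ne he1 he2 h1 h2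
  have n13 : e1 ≠ e3 := edge_ne he1.symm he3 h4 h1.symm
  have n23 : e2 ≠ e3 := edge_ne he2 he3 h4 h1.symm
  have hcard : ({u, v, x} : Set V).ncard = 3 := by
    rw [Set.ncard_eq_three]
    exact ⟨u, v, x, h1, h2, h4, rfl⟩
  have k1 := handshake' s t hc {u, v, x}
  have k2 := inner_ge (s := s) (t := t) {u, v, x} {e1, e2, e3} (by
    intro y hy
    rw [Finset.mem_insert, Finset.mem_insert, Finset.mem_singleton] at hy
    rcases hy with rfl | rfl | rfl
    · rcases he1 with ⟨a, b⟩ | ⟨a, b⟩ <;> rw [a, b] <;> simp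
    · rcases he2 with ⟨a, b⟩ | ⟨a, b⟩ <;> rw [a, b] <;> simp
    · rcases he3 with ⟨a, b⟩ | ⟨a, b⟩ <;> rw [a, b] <;> simp)
  have k3 : ({e1, e2, e3} : Finset E).card = 3 := by
    rw [Finset.card_eq_three]
    exact ⟨e1, e2, e3, n12, n13, n23, rfl⟩
  rw [k3] at k2
  rw [hcard] at k1
  have k4 := Set.ncard_add_ncard_compl ({u, v, x} : Set V)
  rw [Nat.card_eq_fintype_card, hcard] at k4
  rcases h3 {u, v, x} (by omega) with h8 | h8
  · omega
  · omega

omit [Fintype V] in
/-- at most three neighbours -/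
theorem N3 (hc : Cubic s t) {v : V} (y : Fin 4 → V) (hy : Function.Injective y)
    (h : ∀ i, Adj s t v (y i)) : False := by
  classical
  have hex : ∀ i, ∃ d : E × Bool, en s t d = v ∧ en s t (d.1, !d.2) = y i := by
    intro i
    obtain ⟨e, h | h⟩ := h i
    · exact ⟨(e, false), h.1, h.2⟩
    · exact ⟨(e, true), h.2, h.1⟩
  choose d hd1 hd2 using hex
  let F : Fin 4 → {d : E × Bool // en s t d = v} := fun i => ⟨d i, hd1 i⟩
  have hF : Function.Injective F := by
    intro i j hij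
    apply hy
    have : d i = d j := congrArg Subtype.val hij
    rw [← hd2 i, ← hd2 j, this]
  have := Nat.card_le_card_of_injective F hF
  rw [hc v, Nat.card_eq_fintype_card, Fintype.card_fin] at this
  omega

end

/-- adjacency in a piece -/
def adjB {k n q : ℕ} (X : Piece k n q) (a b : Fin n) : Bool :=
  (List.finRange q).any fun j => (decide (X.a j = a) && decide (X.b j = b)) ||
    (decide (X.a j = b) && decide (X.b j = a))

theorem adjB_iff {k n q : ℕ} {X : Piece k n q} {a b : Fin n} : adjB X a b = true ↔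
    ∃ j, (X.a j = a ∧ X.b j = b) ∨ (X.a j = b ∧ X.b j = a) := by
  simp [adjB]

theorem contains_of_adj {V E : Type} [Fintype V] [Fintype E] {s t : E → V} {k n q : ℕ}
    {X : Piece k n q} (hX : X.Good) (hp : Function.Injective X.p)
    (hsimple : ∀ i j, (X.a i = X.a j ∧ X.b i = X.b j) ∨ (X.a i = X.b j ∧ X.b i = X.a j) → i = j)
    (hc : Cubic s t) (h2 : TwoEC s t) (h3 : Ess s t) (h5 : 5 ≤ Fintype.card V) (φ : Fin n → V)
    (hφ : Function.Injective φ) (h1 : ∀ j, Adj s t (φ (X.a j)) (φ (X.b j)))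
    (hind : ∀ a b, a ≠ b → Adj s t (φ a) (φ b) → adjB X a b = true) : Contains s t X := by
  choose ψ hψ using h1
  refine contains_of hX hp hc φ ψ hφ ?_ hψ ?_
  · intro i j hij
    apply hsimple
    have h6 := hψ i
    rw [hij] at h6
    rcases h6 with ⟨a, b⟩ | ⟨a, b⟩ <;> rcases hψ j with ⟨c, d⟩ | ⟨c, d⟩
    · left; exact ⟨hφ (a.symm.trans c), hφ (b.symm.trans d)⟩
    · right; exact ⟨hφ (a.symm.trans c), hφ (b.symm.trans d)⟩
    · right; exact ⟨hφ (b.symm.trans d), hφ (a.symm.trans c)⟩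
    · left; exact ⟨hφ (b.symm.trans d), hφ (a.symm.trans c)⟩
  · intro e a b ha hb
    have hab : a ≠ b := by
      rintro rfl
      exact G1 hc h2 h5 e (ha.trans hb.symm)
    obtain ⟨j, hj⟩ := adjB_iff.1 (hind a b hab ⟨e, Or.inl ⟨ha, hb⟩⟩)
    refine ⟨j, ?_⟩
    apply G2 hc h3 h5 (fun h => hab (hφ h)) (ψ j) e ?_ (Or.inl ⟨ha, hb⟩)
    have h6 := hψ j
    rcases hj with ⟨p, q⟩ | ⟨p, q⟩ <;> rw [p, q] at h6
    · exact h6
    · exact h6.symm

/-- C4 -/
theorem G4 {V E : Type} [Fintype V] [Fintype E] {s t : E → V} (hS : Smallest s t)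
    (h3 : Ess s t) (h5 : 5 ≤ Fintype.card V) {u v x y : V} (h1 : u ≠ v) (h2 : u ≠ x)
    (h4 : u ≠ y) (h6 : v ≠ x) (h7 : v ≠ y) (h8 : x ≠ y) (a : Adj s t u v) (b : Adj s t v x)
    (c : Adj s t x y) (d : Adj s t y u) : False := by
  classical
  refine K4x1.no hS (contains_of_adj K4x1.good (by decide) (by decide) hS.cubic hS.two h3 h5
    ![u, v, x, y] ?_ ?_ ?_)
  · intro i j hij
    fin_cases i <;> fin_cases j <;> first
      | rfl
      | (exfalso; first
          | exact h1 hij | exact h1 (Eq.symm hij) | exact h2 hij | exact h2 (Eq.symm hij)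
          | exact h4 hij | exact h4 (Eq.symm hij) | exact h6 hij | exact h6 (Eq.symm hij)
          | exact h7 hij | exact h7 (Eq.symm hij) | exact h8 hij | exact h8 (Eq.symm hij))
  · intro j
    fin_cases j
    · exact a
    · exact b
    · exact c
    · exact d
  · intro i j hij hadj
    have q1 : ¬ Adj s t u x := fun h => G3 hS.cubic h3 h5 h1 h2 h6 a b h.symm
    have q2 : ¬ Adj s t v y := fun h => G3 hS.cubic h3 h5 h6 h7 h8 b c h.symm
    fin_cases i <;> fin_cases j <;> first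
      | (exact absurd rfl hij)
      | decide
      | (exfalso; first
          | exact q1 hadj | exact q1 (Adj.symm hadj) | exact q2 hadj | exact q2 (Adj.symm hadj))

/-- static check that a pair of vertices of a piece cannot be joined by a further edge -/
def okB {k n q : ℕ} (X : Piece k n q) (a b : Fin n) : Bool :=
  adjB X a b || decide (a = b) ||
    Nat.ble 3 ((List.finRange n).filter (adjB X a)).length ||
    Nat.ble 3 ((List.finRange n).filter (adjB X b)).length ||
    ((List.finRange n).any fun c => adjB X a c && adjB X c b) ||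
    ((List.finRange n).any fun c => adjB X a c && !decide (c = b) &&
      (List.finRange n).any fun d => adjB X c d && !decide (a = d) && adjB X d b)

theorem three_of {n : ℕ} (l : List (Fin n)) (hn : l.Nodup) (h : 3 ≤ l.length) :
    ∃ x y z, x ∈ l ∧ y ∈ l ∧ z ∈ l ∧ x ≠ y ∧ x ≠ z ∧ y ≠ z := by
  rcases l with _ | ⟨x, _ | ⟨y, _ | ⟨z, l⟩⟩⟩
  · simp at h
  · simp at h
  · simp at h
  · simp only [List.nodup_cons, List.mem_cons, not_or] at hn
    exact ⟨x, y, z, by simp, by simp, by simp, hn.1.1, hn.1.2.1, hn.2.1.1⟩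

theorem ind_of {V E : Type} [Fintype V] [Fintype E] {s t : E → V} {k n q : ℕ}
    (X : Piece k n q) (hloop : ∀ j, X.a j ≠ X.b j) (hS : Smallest s t) (h3 : Ess s t)
    (h5 : 5 ≤ Fintype.card V) (φ : Fin n → V) (hφ : Function.Injective φ)
    (h1 : ∀ j, Adj s t (φ (X.a j)) (φ (X.b j))) (a b : Fin n) (hab : a ≠ b)
    (hok : okB X a b = true) (h : Adj s t (φ a) (φ b)) : adjB X a b = true := by
  classical
  have hadj : ∀ a b, adjB X a b = true → Adj s t (φ a) (φ b) := by
    intro a b h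
    obtain ⟨j, ⟨p, q⟩ | ⟨p, q⟩⟩ := adjB_iff.1 h
    · have := h1 j; rwa [p, q] at this
    · have := h1 j; rw [p, q] at this; exact this.symm
  have hne : ∀ a b, adjB X a b = true → a ≠ b := by
    rintro a b h rfl
    obtain ⟨j, ⟨p, q⟩ | ⟨p, q⟩⟩ := adjB_iff.1 h
    · exact hloop j (p.trans q.symm)
    · exact hloop j (p.trans q.symm)
  have hdeg : ∀ a b, 3 ≤ ((List.finRange n).filter (adjB X a)).length → Adj s t (φ a) (φ b) →
      adjB X a b = true := by
    intro a b h6 h7
    obtain ⟨x, y, z, hx, hy, hz, h8, h9, h10⟩ := three_of _ ((List.nodup_finRange n).filter _) h6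
    rw [List.mem_filter] at hx hy hz
    by_contra hno
    have e1 : b ≠ x := by rintro rfl; exact hno hx.2
    have e2 : b ≠ y := by rintro rfl; exact hno hy.2
    have e3 : b ≠ z := by rintro rfl; exact hno hz.2
    refine N3 hS.cubic (v := φ a) ![φ b, φ x, φ y, φ z] ?_ ?_
    · intro i j hij
      fin_cases i <;> fin_cases j <;> first
        | rfl
        | (exfalso; first
            | exact e1 (hφ hij) | exact e1 (hφ (Eq.symm hij)) | exact e2 (hφ hij)
            | exact e2 (hφ (Eq.symm hij)) | exact e3 (hφ hij) | exact e3 (hφ (Eq.symm hij))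
            | exact h8 (hφ hij) | exact h8 (hφ (Eq.symm hij)) | exact h9 (hφ hij)
            | exact h9 (hφ (Eq.symm hij)) | exact h10 (hφ hij) | exact h10 (hφ (Eq.symm hij)))
    · intro i
      fin_cases i
      · exact h7
      · exact hadj _ _ hx.2
      · exact hadj _ _ hy.2
      · exact hadj _ _ hz.2
  unfold okB at hok
  simp only [Bool.or_eq_true] at hok
  rcases hok with ((((hok | hok) | hok) | hok) | hok) | hok
  · exact hok
  · exact absurd (of_decide_eq_true hok) hab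
  · exact hdeg a b (Nat.le_of_ble_eq_true hok) h
  · have h6 := hdeg b a (Nat.le_of_ble_eq_true hok) h.symm
    rw [adjB_iff] at h6 ⊢
    obtain ⟨j, hj⟩ := h6
    exact ⟨j, hj.symm⟩
  · exfalso
    rw [List.any_eq_true] at hok
    obtain ⟨c, -, hc⟩ := hok
    rw [Bool.and_eq_true] at hc
    exact G3 hS.cubic h3 h5 (fun h => hne _ _ hc.1 (hφ h)) (fun h => hab (hφ h))
      (fun h => hne _ _ hc.2 (hφ h)) (hadj _ _ hc.1) (hadj _ _ hc.2) h.symm
  · exfalso
    rw [List.any_eq_true] at hok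
    obtain ⟨c, -, hc⟩ := hok
    simp only [Bool.and_eq_true, Bool.not_eq_true', decide_eq_false_iff_not, List.any_eq_true] at hc
    obtain ⟨⟨c1, c2⟩, d, -, ⟨d1, d2⟩, d3⟩ := hc
    exact G4 hS h3 h5 (fun h => hne _ _ c1 (hφ h)) (fun h => d2 (hφ h)) (fun h => hab (hφ h))
      (fun h => hne _ _ d1 (hφ h)) (fun h => c2 (hφ h)) (fun h => hne _ _ d3 (hφ h))
      (hadj _ _ c1) (hadj _ _ d1) (hadj _ _ d3) h.symm

/-- edges of the two 5-cycles sharing a path of length two -/
def thetaL : List (Fin 7 × Fin 7) :=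
  [(0, 1), (0, 2), (0, 3), (2, 4), (1, 5), (4, 6), (5, 6), (3, 6)]

theorem card_of {V E : Type} [Fintype V] [Fintype E] {n : ℕ} (φ : Fin n → V)
    (hφ : Function.Injective φ) : n ≤ Fintype.card V := by
  have := Fintype.card_le_of_injective φ hφ
  rwa [Fintype.card_fin] at this

theorem no_theta_sub {V E : Type} [Fintype V] [Fintype E] {s t : E → V} (hS : Smallest s t) :
    ¬ HasSub s t 7 thetaL := by
  rintro ⟨φ, hφ, h⟩
  have h7 := card_of (E := E) φ hφ
  have h3 := ess_of_min hS.cubic hS.two hS.below hS.no (by omega)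
  have h1 : ∀ j, Adj s t (φ (N7x1.X.a j)) (φ (N7x1.X.b j)) := fun j =>
    h (N7x1.X.a j, N7x1.X.b j) (by revert j; decide)
  refine no_theta hS (contains_of_adj N7x1.good (by decide) (by decide) hS.cubic hS.two h3
    (by omega) φ hφ h1 ?_)
  intro a b hab hadj
  have hk : ∀ a b, okB N7x1.X a b = true := by decide +kernel
  exact ind_of N7x1.X (by decide) hS h3 (by omega) φ hφ h1 a b hab (hk a b) hadj

/-- data for the exclusion of a subgraph: special pairs with a map of the vertices of the graph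
`thetaL` -/
def spOK {k n q : ℕ} (X : Piece k n q) (sp : List (Fin n × Fin n × (Fin 7 → Fin n))) : Bool :=
  sp.all fun p => decide (Function.Injective p.2.2) && thetaL.all fun e =>
    adjB X (p.2.2 e.1) (p.2.2 e.2) || (decide (p.2.2 e.1 = p.1) && decide (p.2.2 e.2 = p.2.1)) ||
      (decide (p.2.2 e.1 = p.2.1) && decide (p.2.2 e.2 = p.1))

theorem sp_sound {V E : Type} [Fintype V] [Fintype E] {s t : E → V} {k n q : ℕ}
    (X : Piece k n q) (sp : List (Fin n × Fin n × (Fin 7 → Fin n))) (hsp : spOK X sp = true)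
    (hS : Smallest s t) (φ : Fin n → V) (hφ : Function.Injective φ)
    (h1 : ∀ j, Adj s t (φ (X.a j)) (φ (X.b j))) (p : Fin n × Fin n × (Fin 7 → Fin n))
    (hp : p ∈ sp) (h : Adj s t (φ p.1) (φ p.2.1)) : False := by
  have hadj : ∀ a b, adjB X a b = true → Adj s t (φ a) (φ b) := by
    intro a b h
    obtain ⟨j, ⟨p, q⟩ | ⟨p, q⟩⟩ := adjB_iff.1 h
    · have := h1 j; rwa [p, q] at this
    · have := h1 j; rw [p, q] at this; exact this.symm
  unfold spOK at hsp
  rw [List.all_eq_true] at hsp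
  have h2 := hsp p hp
  rw [Bool.and_eq_true, List.all_eq_true] at h2
  obtain ⟨h3, h4⟩ := h2
  refine no_theta_sub hS ⟨fun i => φ (p.2.2 i), fun i j hij => of_decide_eq_true h3 (hφ hij), ?_⟩
  intro e he
  have h5 := h4 e he
  simp only [Bool.or_eq_true, Bool.and_eq_true, decide_eq_true_eq] at h5
  rcases h5 with (h5 | ⟨h5, h6⟩) | ⟨h5, h6⟩
  · exact hadj _ _ h5
  · change Adj s t (φ (p.2.2 e.1)) (φ (p.2.2 e.2))
    rw [h5, h6]; exact h
  · change Adj s t (φ (p.2.2 e.1)) (φ (p.2.2 e.2))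
    rw [h5, h6]; exact h.symm

/-- the pairs that are not covered by `okB` are special -/
def pairsOK {k n q : ℕ} (X : Piece k n q) (sp : List (Fin n × Fin n)) : Bool :=
  (List.finRange n).all fun a => (List.finRange n).all fun b =>
    okB X a b || sp.any fun p => (decide (p.1 = a) && decide (p.2 = b)) ||
      (decide (p.1 = b) && decide (p.2 = a))

/-- Exclusion of a subgraph, induced or not. -/
theorem no_sub {V E : Type} [Fintype V] [Fintype E] {s t : E → V} {k n q : ℕ}
    (X : Piece k n q) (hX : X.Good) (hp : Function.Injective X.p)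
    (hsimple : ∀ i j, (X.a i = X.a j ∧ X.b i = X.b j) ∨ (X.a i = X.b j ∧ X.b i = X.a j) → i = j)
    (hloop : ∀ j, X.a j ≠ X.b j) (hn : 5 ≤ n) (hS : Smallest s t)
    (hno : ¬ Contains s t X) (sp : List (Fin n × Fin n)) (hpr : pairsOK X sp = true)
    (φ : Fin n → V) (hφ : Function.Injective φ)
    (h1 : ∀ j, Adj s t (φ (X.a j)) (φ (X.b j)))
    (hsp : ∀ p ∈ sp, ¬ Adj s t (φ p.1) (φ p.2)) : False := by
  have h7 := card_of (E := E) φ hφ
  have h3 := ess_of_min hS.cubic hS.two hS.below hS.no (by omega)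
  refine hno (contains_of_adj hX hp hsimple hS.cubic hS.two h3 (by omega) φ hφ h1 ?_)
  intro a b hab hadj
  unfold pairsOK at hpr
  rw [List.all_eq_true] at hpr
  have h4 := hpr a (List.mem_finRange a)
  rw [List.all_eq_true] at h4
  have h5 := h4 b (List.mem_finRange b)
  rw [Bool.or_eq_true] at h5
  rcases h5 with h5 | h5
  · exact ind_of X hloop hS h3 (by omega) φ hφ h1 a b hab h5 hadj
  · exfalso
    rw [List.any_eq_true] at h5
    obtain ⟨p, hp1, hp2⟩ := h5
    simp only [Bool.or_eq_true, Bool.and_eq_true, decide_eq_true_eq] at hp2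
    rcases hp2 with ⟨a1, a2⟩ | ⟨a1, a2⟩
    · exact hsp p hp1 (by rw [a1, a2]; exact hadj)
    · exact hsp p hp1 (by rw [a1, a2]; exact hadj.symm)

end Pool.Agent.TH372.BFR
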