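import Pool.Agent.TH372.BFR.Sub
import Pool.Agent.TH372.BFR.N8x3
import Pool.Agent.TH372.BFR.N9x4
import Pool.Agent.TH372.BFR.N10x2
import Pool.Agent.TH372.BFR.N10x5
import Pool.Agent.TH372.BFR.N10x6
import Pool.Agent.TH372.BFR.N10x7
import Pool.Agent.TH372.BFR.N10x8
import Pool.Agent.TH372.BFR.N10x12
import Pool.Agent.TH372.BFR.N10x13
import Pool.Agent.TH372.BFR.Row
import Pool.Agent.TH372.BFR.Row59
import Pool.Agent.TH372.BFR.Row69
import Pool.Agent.TH372.BFR.Row6x10

set_option autoImplicit false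

/-! The excluded subgraphs. -/

namespace Pool.Agent.TH372.BFR

open Finset

/-- edges of the configuration N8x3 -/
def N8x3.L : List (Fin 8 × Fin 8) :=
  [(0, 1), (1, 2), (1, 3), (2, 4), (4, 5), (3, 6), (0, 7), (5, 6), (5, 7)]

def N8x3.spd : List (Fin 8 × Fin 8 × (Fin 7 → Fin 8)) :=
  []

theorem N8x3.no_sub {V E : Type} [Fintype V] [Fintype E] {s t : E → V} (hS : Smallest s t) :
    ¬ HasSub s t 8 N8x3.L := by
  rintro ⟨φ, hφ, h⟩
  have h1 : ∀ j, Adj s t (φ (N8x3.X.a j)) (φ (N8x3.X.b j)) := fun j =>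
    h (N8x3.X.a j, N8x3.X.b j) (by revert j; decide +kernel)
  refine BFR.no_sub N8x3.X N8x3.good (by decide +kernel) (by decide +kernel) (by decide +kernel)
    (by norm_num) hS (N8x3.no hS) (N8x3.spd.map fun p => (p.1,
    p.2.1)) (by decide +kernel) φ hφ h1 ?_
  intro p hp hadj
  rw [List.mem_map] at hp
  obtain ⟨p', hp', rfl⟩ := hp
  exact sp_sound N8x3.X N8x3.spd (by decide +kernel) hS φ hφ h1 p' hp' hadj

/-- edges of the configuration N9x4 -/
def N9x4.L : List (Fin 9 × Fin 9) :=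
  [(0, 1), (1, 2), (0, 3), (2, 4), (0, 5), (3, 6), (6, 7), (5, 8), (2, 8), (5, 7), (4, 6)]

def N9x4.spd : List (Fin 9 × Fin 9 × (Fin 7 → Fin 9)) :=
  []

theorem N9x4.no_sub {V E : Type} [Fintype V] [Fintype E] {s t : E → V} (hS : Smallest s t) :
    ¬ HasSub s t 9 N9x4.L := by
  rintro ⟨φ, hφ, h⟩
  have h1 : ∀ j, Adj s t (φ (N9x4.X.a j)) (φ (N9x4.X.b j)) := fun j =>
    h (N9x4.X.a j, N9x4.X.b j) (by revert j; decide +kernel)
  refine BFR.no_sub N9x4.X N9x4.good (by decide +kernel) (by decide +kernel) (by decide +kernel)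
    (by norm_num) hS (N9x4.no hS) (N9x4.spd.map fun p => (p.1,
    p.2.1)) (by decide +kernel) φ hφ h1 ?_
  intro p hp hadj
  rw [List.mem_map] at hp
  obtain ⟨p', hp', rfl⟩ := hp
  exact sp_sound N9x4.X N9x4.spd (by decide +kernel) hS φ hφ h1 p' hp' hadj

/-- edges of the configuration N10x2 -/
def N10x2.L : List (Fin 10 × Fin 10) :=
  [(0, 1), (0, 2), (0, 3), (1, 4), (1, 5), (5, 6), (3, 7), (5, 8), (8, 9), (2, 6), (4, 7), (7, 9)]

def N10x2.spd : List (Fin 10 × Fin 10 × (Fin 7 → Fin 10)) :=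
  [(2, 9, ![0, 1, 2, 3, 9, 4, 7])]

theorem N10x2.no_sub {V E : Type} [Fintype V] [Fintype E] {s t : E → V} (hS : Smallest s t) :
    ¬ HasSub s t 10 N10x2.L := by
  rintro ⟨φ, hφ, h⟩
  have h1 : ∀ j, Adj s t (φ (N10x2.X.a j)) (φ (N10x2.X.b j)) := fun j =>
    h (N10x2.X.a j, N10x2.X.b j) (by revert j; decide +kernel)
  refine BFR.no_sub N10x2.X N10x2.good (by decide +kernel) (by decide +kernel) (by decide +kernel)
    (by norm_num) hS (N10x2.no hS) (N10x2.spd.map fun p => (p.1,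
    p.2.1)) (by decide +kernel) φ hφ h1 ?_
  intro p hp hadj
  rw [List.mem_map] at hp
  obtain ⟨p', hp', rfl⟩ := hp
  exact sp_sound N10x2.X N10x2.spd (by decide +kernel) hS φ hφ h1 p' hp' hadj

/-- edges of the configuration N10x5 -/
def N10x5.L : List (Fin 10 × Fin 10) :=
  [(0, 1), (1, 2), (0, 3), (2, 4), (3, 5), (4, 6), (0, 7), (7, 8), (4, 9), (8, 9), (3, 6), (5, 9)]

def N10x5.spd : List (Fin 10 × Fin 10 × (Fin 7 → Fin 10)) :=
  []

theorem N10x5.no_sub {V E : Type} [Fintype V] [Fintype E] {s t : E → V} (hS : Smallest s t) :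
    ¬ HasSub s t 10 N10x5.L := by
  rintro ⟨φ, hφ, h⟩
  have h1 : ∀ j, Adj s t (φ (N10x5.X.a j)) (φ (N10x5.X.b j)) := fun j =>
    h (N10x5.X.a j, N10x5.X.b j) (by revert j; decide +kernel)
  refine BFR.no_sub N10x5.X N10x5.good (by decide +kernel) (by decide +kernel) (by decide +kernel)
    (by norm_num) hS (N10x5.no hS) (N10x5.spd.map fun p => (p.1,
    p.2.1)) (by decide +kernel) φ hφ h1 ?_
  intro p hp hadj
  rw [List.mem_map] at hp
  obtain ⟨p', hp', rfl⟩ := hp
  exact sp_sound N10x5.X N10x5.spd (by decide +kernel) hS φ hφ h1 p' hp' hadj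

/-- edges of the configuration N10x6 -/
def N10x6.L : List (Fin 10 × Fin 10) :=
  [(0, 1), (1, 2), (1, 3), (3, 4), (3, 5), (5, 6), (5, 7), (0, 8), (0, 9), (6, 8), (4, 9), (2, 7)]

def N10x6.spd : List (Fin 10 × Fin 10 × (Fin 7 → Fin 10)) :=
  [(7, 9, ![1, 0, 3, 2, 5, 9, 7])]

theorem N10x6.no_sub {V E : Type} [Fintype V] [Fintype E] {s t : E → V} (hS : Smallest s t) :
    ¬ HasSub s t 10 N10x6.L := by
  rintro ⟨φ, hφ, h⟩
  have h1 : ∀ j, Adj s t (φ (N10x6.X.a j)) (φ (N10x6.X.b j)) := fun j =>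
    h (N10x6.X.a j, N10x6.X.b j) (by revert j; decide +kernel)
  refine BFR.no_sub N10x6.X N10x6.good (by decide +kernel) (by decide +kernel) (by decide +kernel)
    (by norm_num) hS (N10x6.no hS) (N10x6.spd.map fun p => (p.1,
    p.2.1)) (by decide +kernel) φ hφ h1 ?_
  intro p hp hadj
  rw [List.mem_map] at hp
  obtain ⟨p', hp', rfl⟩ := hp
  exact sp_sound N10x6.X N10x6.spd (by decide +kernel) hS φ hφ h1 p' hp' hadj

/-- edges of the configuration N10x7 -/
def N10x7.L : List (Fin 10 × Fin 10) :=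
  [(0, 1), (0, 2), (2, 3), (3, 4), (4, 5), (1, 6), (3, 7), (0, 8), (7, 9), (5, 6), (5, 9), (8, 9)]

def N10x7.spd : List (Fin 10 × Fin 10 × (Fin 7 → Fin 10)) :=
  [(1, 7, ![0, 2, 8, 1, 9, 3, 7])]

theorem N10x7.no_sub {V E : Type} [Fintype V] [Fintype E] {s t : E → V} (hS : Smallest s t) :
    ¬ HasSub s t 10 N10x7.L := by
  rintro ⟨φ, hφ, h⟩
  have h1 : ∀ j, Adj s t (φ (N10x7.X.a j)) (φ (N10x7.X.b j)) := fun j =>
    h (N10x7.X.a j, N10x7.X.b j) (by revert j; decide +kernel)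
  refine BFR.no_sub N10x7.X N10x7.good (by decide +kernel) (by decide +kernel) (by decide +kernel)
    (by norm_num) hS (N10x7.no hS) (N10x7.spd.map fun p => (p.1,
    p.2.1)) (by decide +kernel) φ hφ h1 ?_
  intro p hp hadj
  rw [List.mem_map] at hp
  obtain ⟨p', hp', rfl⟩ := hp
  exact sp_sound N10x7.X N10x7.spd (by decide +kernel) hS φ hφ h1 p' hp' hadj

/-- edges of the configuration N10x8 -/
def N10x8.L : List (Fin 10 × Fin 10) :=
  [(0, 1), (1, 2), (1, 3), (2, 4), (0, 5), (4, 6), (3, 7), (0, 8), (8, 9), (2, 9), (5, 7), (3, 6)]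

def N10x8.spd : List (Fin 10 × Fin 10 × (Fin 7 → Fin 10)) :=
  [(4, 5, ![0, 5, 8, 1, 9, 4, 2]), (6, 8, ![0, 5, 8, 1, 6, 7, 3]), (7, 9, ![0, 1, 5, 8, 7, 2, 9])]

theorem N10x8.no_sub {V E : Type} [Fintype V] [Fintype E] {s t : E → V} (hS : Smallest s t) :
    ¬ HasSub s t 10 N10x8.L := by
  rintro ⟨φ, hφ, h⟩
  have h1 : ∀ j, Adj s t (φ (N10x8.X.a j)) (φ (N10x8.X.b j)) := fun j =>
    h (N10x8.X.a j, N10x8.X.b j) (by revert j; decide +kernel)
  refine BFR.no_sub N10x8.X N10x8.good (by decide +kernel) (by decide +kernel) (by decide +kernel)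
    (by norm_num) hS (N10x8.no hS) (N10x8.spd.map fun p => (p.1,
    p.2.1)) (by decide +kernel) φ hφ h1 ?_
  intro p hp hadj
  rw [List.mem_map] at hp
  obtain ⟨p', hp', rfl⟩ := hp
  exact sp_sound N10x8.X N10x8.spd (by decide +kernel) hS φ hφ h1 p' hp' hadj

/-- edges of the configuration N10x12 -/
def N10x12.L : List (Fin 10 × Fin 10) :=
  [(0, 1), (1, 2), (2, 3), (0, 4), (0, 5), (2, 6), (6, 7), (5, 8), (7, 9), (4, 9), (8, 9), (3, 5)]

def N10x12.spd : List (Fin 10 × Fin 10 × (Fin 7 → Fin 10)) :=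
  []

theorem N10x12.no_sub {V E : Type} [Fintype V] [Fintype E] {s t : E → V} (hS : Smallest s t) :
    ¬ HasSub s t 10 N10x12.L := by
  rintro ⟨φ, hφ, h⟩
  have h1 : ∀ j, Adj s t (φ (N10x12.X.a j)) (φ (N10x12.X.b j)) := fun j =>
    h (N10x12.X.a j, N10x12.X.b j) (by revert j; decide +kernel)
  refine BFR.no_sub N10x12.X N10x12.good (by decide +kernel) (by decide +kernel) (by decide +kernel)
    (by norm_num) hS (N10x12.no hS) (N10x12.spd.map fun p => (p.1,
    p.2.1)) (by decide +kernel) φ hφ h1 ?_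
  intro p hp hadj
  rw [List.mem_map] at hp
  obtain ⟨p', hp', rfl⟩ := hp
  exact sp_sound N10x12.X N10x12.spd (by decide +kernel) hS φ hφ h1 p' hp' hadj

/-- edges of the configuration N10x13 -/
def N10x13.L : List (Fin 10 × Fin 10) :=
  [(0, 1), (1, 2), (2, 3), (3, 4), (4, 5), (5, 6), (1, 7), (3, 8), (6, 9), (0, 5), (7, 9), (8, 9)]

def N10x13.spd : List (Fin 10 × Fin 10 × (Fin 7 → Fin 10)) :=
  [(0, 8, ![0, 1, 5, 8, 4, 2, 3]), (2, 6, ![1, 0, 7, 2, 9, 5, 6]), (4, 7, ![1, 0, 2, 7, 3, 5, 4])]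

theorem N10x13.no_sub {V E : Type} [Fintype V] [Fintype E] {s t : E → V} (hS : Smallest s t) :
    ¬ HasSub s t 10 N10x13.L := by
  rintro ⟨φ, hφ, h⟩
  have h1 : ∀ j, Adj s t (φ (N10x13.X.a j)) (φ (N10x13.X.b j)) := fun j =>
    h (N10x13.X.a j, N10x13.X.b j) (by revert j; decide +kernel)
  refine BFR.no_sub N10x13.X N10x13.good (by decide +kernel) (by decide +kernel) (by decide +kernel)
    (by norm_num) hS (N10x13.no hS) (N10x13.spd.map fun p => (p.1,
    p.2.1)) (by decide +kernel) φ hφ h1 ?_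
  intro p hp hadj
  rw [List.mem_map] at hp
  obtain ⟨p', hp', rfl⟩ := hp
  exact sp_sound N10x13.X N10x13.spd (by decide +kernel) hS φ hφ h1 p' hp' hadj

def Row59.spd : List (Fin 11 × Fin 11 × (Fin 7 → Fin 11)) :=
  [(7, 10, ![1, 0, 7, 2, 10, 4, 3])]

theorem Row59.no_sub {V E : Type} [Fintype V] [Fintype E] {s t : E → V} (hS : Smallest s t)
    (φ : Fin 11 → V) (hφ : Function.Injective φ)
    (h1 : ∀ j, Adj s t (φ (Row59.X.a j)) (φ (Row59.X.b j))) : False := by
  refine BFR.no_sub Row59.X Row59.good (by decide +kernel) (by decide +kernel) (by decide +kernel)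
    (by norm_num) hS (Row59.no hS) (Row59.spd.map fun p => (p.1,
    p.2.1)) (by decide +kernel) φ hφ h1 ?_
  intro p hp hadj
  rw [List.mem_map] at hp
  obtain ⟨p', hp', rfl⟩ := hp
  exact sp_sound Row59.X Row59.spd (by decide +kernel) hS φ hφ h1 p' hp' hadj

def Row69.spd : List (Fin 11 × Fin 11 × (Fin 7 → Fin 11)) :=
  []

theorem Row69.no_sub {V E : Type} [Fintype V] [Fintype E] {s t : E → V} (hS : Smallest s t)
    (φ : Fin 11 → V) (hφ : Function.Injective φ)
    (h1 : ∀ j, Adj s t (φ (Row69.X.a j)) (φ (Row69.X.b j))) : False := by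
  refine BFR.no_sub Row69.X Row69.good (by decide +kernel) (by decide +kernel) (by decide +kernel)
    (by norm_num) hS (Row69.no hS) (Row69.spd.map fun p => (p.1,
    p.2.1)) (by decide +kernel) φ hφ h1 ?_
  intro p hp hadj
  rw [List.mem_map] at hp
  obtain ⟨p', hp', rfl⟩ := hp
  exact sp_sound Row69.X Row69.spd (by decide +kernel) hS φ hφ h1 p' hp' hadj

def Row6x10.spd : List (Fin 11 × Fin 11 × (Fin 7 → Fin 11)) :=
  [(5, 8, ![0, 4, 5, 1, 8, 3, 2])]

theorem Row6x10.no_sub {V E : Type} [Fintype V] [Fintype E] {s t : E → V} (hS : Smallest s t)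
    (φ : Fin 11 → V) (hφ : Function.Injective φ)
    (h1 : ∀ j, Adj s t (φ (Row6x10.X.a j)) (φ (Row6x10.X.b j))) : False := by
  refine BFR.no_sub Row6x10.X Row6x10.good (by decide +kernel) (by decide +kernel) (by decide +kernel)
    (by norm_num) hS (Row6x10.no hS) (Row6x10.spd.map fun p => (p.1,
    p.2.1)) (by decide +kernel) φ hφ h1 ?_
  intro p hp hadj
  rw [List.mem_map] at hp
  obtain ⟨p', hp', rfl⟩ := hp
  exact sp_sound Row6x10.X Row6x10.spd (by decide +kernel) hS φ hφ h1 p' hp' hadj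

/-- edges of three cycles of length five in a row -/
def Row.L : List (Fin 11 × Fin 11) :=
  [(0, 1), (1, 2), (2, 3), (3, 4), (4, 0), (0, 5), (5, 6), (6, 7), (7, 1), (2, 8), (8, 9), (9,
    10), (10, 3)]

def Row.spd : List (Fin 11 × Fin 11 × (Fin 7 → Fin 11)) :=
  [(5, 8, ![0, 4, 5, 1, 8, 3, 2]), (5, 10, ![0, 1, 5, 4, 10, 2, 3]), (6, 8, ![1, 0, 2, 7, 8, 5,
    6]), (7, 9, ![2, 1, 3, 8, 10, 7, 9]), (7, 10, ![1, 0, 7, 2, 10, 4, 3])]

theorem Row.no_sub {V E : Type} [Fintype V] [Fintype E] {s t : E → V} (hS : Smallest s t) :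
    ¬ HasSub s t 11 Row.L := by
  rintro ⟨φ, hφ, h⟩
  have h1 : ∀ j, Adj s t (φ (Row.X.a j)) (φ (Row.X.b j)) := fun j =>
    h (Row.X.a j, Row.X.b j) (by revert j; decide +kernel)
  have hext : ∀ p ∈ ([(5, 9), (6, 9), (6, 10)] : List (Fin 11 × Fin 11)),
      ¬ Adj s t (φ p.1) (φ p.2) := by
    intro p hp hadj
    simp only [List.mem_cons, List.not_mem_nil, or_false] at hp
    rcases hp with rfl | rfl | rfl
    · refine Row59.no_sub hS φ hφ fun j => ?_
      fin_cases j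
      · exact h1 0
      · exact h1 1
      · exact h1 2
      · exact h1 3
      · exact h1 4
      · exact h1 5
      · exact h1 6
      · exact h1 7
      · exact h1 8
      · exact h1 9
      · exact h1 10
      · exact h1 11
      · exact h1 12
      · exact hadj
    · refine Row69.no_sub hS φ hφ fun j => ?_
      fin_cases j
      · exact h1 0
      · exact h1 1
      · exact h1 2
      · exact h1 3
      · exact h1 4
      · exact h1 5
      · exact h1 6
      · exact h1 7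
      · exact h1 8
      · exact h1 9
      · exact h1 10
      · exact h1 11
      · exact h1 12
      · exact hadj
    · refine Row6x10.no_sub hS φ hφ fun j => ?_
      fin_cases j
      · exact h1 0
      · exact h1 1
      · exact h1 2
      · exact h1 3
      · exact h1 4
      · exact h1 5
      · exact h1 6
      · exact h1 7
      · exact h1 8
      · exact h1 9
      · exact h1 10
      · exact h1 11
      · exact h1 12
      · exact hadj
  refine BFR.no_sub Row.X Row.good (by decide +kernel) (by decide +kernel) (by decide +kernel)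
    (by norm_num) hS (Row.no hS) ([(5, 9), (6, 9), (6, 10)] ++ Row.spd.map fun p => (p.1, p.2.1))
    (by decide +kernel) φ hφ h1 ?_
  intro p hp hadj
  rw [List.mem_append] at hp
  rcases hp with hp | hp
  · exact hext p hp hadj
  · rw [List.mem_map] at hp
    obtain ⟨p', hp', rfl⟩ := hp
    exact sp_sound Row.X Row.spd (by decide +kernel) hS φ hφ h1 p' hp' hadj

end Pool.Agent.TH372.BFR
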