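import Pool.Agent.TH372.BFR.Ext
import Pool.Agent.TH372.BFR.K3x1
import Pool.Agent.TH372.BFR.N7x1
import Pool.Agent.TH372.BFR.N7x2

set_option autoImplicit false

/-! Two cycles of length five sharing a path of length two. -/

namespace Pool.Agent.TH372.BFR

open Finset

theorem noextra {V E : Type} [Fintype V] [Fintype E] {n q : ℕ} {s t : E → V} (hc : Cubic s t)
    (h2 : TwoEC s t) (φ : Fin n → V) (ψ : Fin q → E) (hφ : Function.Injective φ)
    (hψ : Function.Injective ψ) (h1 : ∀ j, s (ψ j) ∈ Set.range φ ∧ t (ψ j) ∈ Set.range φ)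
    (hn : 3 * n ≤ 2 * q + 3) (hodd : n % 2 = 1) (hn0 : 0 < n) (e : E) (hs : s e ∈ Set.range φ)
    (ht : t e ∈ Set.range φ) : ∃ j, ψ j = e := by
  classical
  by_contra hno
  push Not at hno
  have h3 := handshake' s t hc (Set.range φ)
  have h4 : (Set.range φ).ncard = n := by
    rw [← Set.image_univ, Set.ncard_image_of_injective _ hφ, Set.ncard_univ,
      Nat.card_eq_fintype_card, Fintype.card_fin]
  have h5 : q + 1 ≤ ∑ e, ind (s e ∈ Set.range φ ∧ t e ∈ Set.range φ) := by
    have h6 : ∑ x ∈ insert e (univ.image ψ), ind (s x ∈ Set.range φ ∧ t x ∈ Set.range φ) ≤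
        ∑ e, ind (s e ∈ Set.range φ ∧ t e ∈ Set.range φ) :=
      Finset.sum_le_sum_of_subset (subset_univ _)
    rw [Finset.sum_congr rfl (g := fun _ => 1) (by
      intro x hx
      rw [mem_insert, mem_image] at hx
      rcases hx with rfl | ⟨j, -, rfl⟩
      · exact ind_true ⟨hs, ht⟩
      · exact ind_true (h1 j))] at h6
    rw [Finset.sum_const, smul_eq_mul, mul_one, Finset.card_insert_of_notMem (by
      rw [mem_image]
      rintro ⟨j, -, hj⟩
      exact hno j hj), Finset.card_image_of_injective _ hψ, card_univ, Fintype.card_fin] at h6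
    exact h6
  rw [h4] at h3
  have h7 : ((Set.range φ)ᶜ).Nonempty := by
    by_contra hemp
    rw [Set.not_nonempty_iff_eq_empty, Set.compl_empty_iff] at hemp
    have h8 := handshake s t hc (Set.range φ)
    rw [h4, hemp] at h8
    have h9 : cut s t (Set.univ : Set V) = 0 := by
      rw [← Set.compl_empty, cut_compl, cut_empty]
    rw [h9] at h8
    omega
  have h8 := h2 (Set.range φ) ⟨φ ⟨0, hn0⟩, ⟨_, rfl⟩⟩ h7
  omega

/-- another order of the ports -/
def Iso.report {V E V' E' : Type} {k n q : ℕ} {s t : E → V} {s' t' : E' → V'}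
    {w : Fin k → V'} {X : Piece k n q} (I : Iso s t (gs s' w X.e1) (gs t' w X.e2))
    (τ : Equiv.Perm (Fin k)) (X2 : Piece k n q) (hp : ∀ i, X2.p i = X.p (τ i))
    (ha : X2.a = X.a) (hb : X2.b = X.b) :
    Iso s t (gs s' (fun i => w (τ i)) X2.e1) (gs t' (fun i => w (τ i)) X2.e2) where
  v := I.v
  e := (Equiv.sumCongr (Equiv.refl E') (Equiv.sumCongr τ (Equiv.refl (Fin q)))).trans I.e
  h := by
    rintro (e | i | j)
    · exact I.h (Sum.inl e)
    · have h1 := I.h (Sum.inr (Sum.inl (τ i)))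
      change (s (I.e (Sum.inr (Sum.inl (τ i)))) = I.v (Sum.inl (w (τ i))) ∧
        t (I.e (Sum.inr (Sum.inl (τ i)))) = I.v (Sum.inr (X2.p i))) ∨ _
      rw [hp]
      rcases h1 with h1 | h1
      · exact Or.inl h1
      · right
        change s (I.e (Sum.inr (Sum.inl (τ i)))) = I.v (Sum.inr (X2.p i)) ∧ _
        rw [hp]
        exact h1
    · have h1 := I.h (Sum.inr (Sum.inr j))
      change (s (I.e (Sum.inr (Sum.inr j))) = I.v (Sum.inr (X2.a j)) ∧
        t (I.e (Sum.inr (Sum.inr j))) = I.v (Sum.inr (X2.b j))) ∨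
        (s (I.e (Sum.inr (Sum.inr j))) = I.v (Sum.inr (X2.b j)) ∧
        t (I.e (Sum.inr (Sum.inr j))) = I.v (Sum.inr (X2.a j)))
      rw [ha, hb]
      exact h1

theorem Smallest.iso {V E V' E' : Type} [Fintype V] [Fintype E] [Fintype V'] [Fintype E']
    {s t : E → V} {s' t' : E' → V'} (hS : Smallest s t) (I : Iso s t s' t') :
    Smallest s' t' := by
  refine ⟨I.cubic hS.cubic, I.two hS.two, fun h => hS.no (I.bf h), ?_⟩
  rw [Fintype.card_congr I.v]
  exact hS.below

theorem no_theta {V E : Type} [Fintype V] [Fintype E] {s t : E → V} (hS : Smallest s t) :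
    ¬ Contains s t N7x1.X := by
  classical
  intro hcon
  obtain ⟨V', E', _, _, s', t', w, ⟨I⟩⟩ := contains_iso N7x1.good hS.cubic hcon
  obtain ⟨h1, h2, h3, h4, h5⟩ := outer hS (by norm_num) (by norm_num) I
  by_cases h01 : w 0 ≠ w 1
  · exact finish hS (by norm_num) (by norm_num) (by norm_num) I N7x1.T N7x1.T_ok codesA
      N7x1.T_rk A1 A2 Ap Apos codeA goodA (twoA h3 h01)
  · by_cases h23 : w 2 ≠ w 3
    · let τ : Equiv.Perm (Fin 5) := ⟨![2, 3, 0, 1, 4], ![2, 3, 0, 1, 4], by decide, by decide⟩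
      let I' := I.report τ N7x2.X (by decide) (by decide) (by decide)
      obtain ⟨g1, g2, g3, g4, g5⟩ := outer hS (by norm_num) (by norm_num) I'
      exact finish hS (by norm_num) (by norm_num) (by norm_num) I' N7x2.T N7x2.T_ok codesA
        N7x2.T_rk A1 A2 Ap Apos codeA goodA (twoA g3 h23)
    · push Not at h01 h23
      have hS' := hS.iso I
      have huu : w 0 ≠ w 2 := by
        intro h02
        have h6 := handshake' _ _ h1 (Sum.inl '' {w 0})
        rw [cut_piece, Set.ncard_image_of_injective _ Sum.inl_injective, Set.ncard_singleton,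
          dl, Fin.sum_univ_five, ind_true (P := w 0 ∈ ({w 0} : Set V')) rfl,
          ind_true (P := w 1 ∈ ({w 0} : Set V')) h01.symm,
          ind_true (P := w 2 ∈ ({w 0} : Set V')) h02.symm,
          ind_true (P := w 3 ∈ ({w 0} : Set V')) (h23.symm.trans h02.symm)] at h6
        omega
      let Φ : Fin 9 → V' ⊕ Fin 7 := ![Sum.inr 0, Sum.inr 1, Sum.inr 2, Sum.inr 3, Sum.inr 4,
        Sum.inr 5, Sum.inr 6, Sum.inl (w 0), Sum.inl (w 2)]
      let Ψ : Fin 12 → E' ⊕ (Fin 5 ⊕ Fin 8) := ![Sum.inr (Sum.inr 0), Sum.inr (Sum.inr 1),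
        Sum.inr (Sum.inr 2), Sum.inr (Sum.inr 3), Sum.inr (Sum.inr 4), Sum.inr (Sum.inr 5),
        Sum.inr (Sum.inr 6), Sum.inr (Sum.inr 7), Sum.inr (Sum.inl 0), Sum.inr (Sum.inl 1),
        Sum.inr (Sum.inl 2), Sum.inr (Sum.inl 3)]
      have hΦ : Function.Injective Φ := by
        intro a b hab
        fin_cases a <;> fin_cases b <;> first
          | rfl
          | (exfalso; exact huu (Sum.inl_injective hab))
          | (exfalso; exact huu (Sum.inl_injective hab).symm)
          | (exfalso; simp [Φ] at hab; done)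
      have hΨ : Function.Injective Ψ := by
        intro a b hab
        fin_cases a <;> fin_cases b <;> first
          | rfl
          | (exfalso; simp [Ψ] at hab)
      have hE : ∀ j, (gs s' w N7x1.X.e1 (Ψ j) = Φ (K3x1.X.a j) ∧
          gs t' w N7x1.X.e2 (Ψ j) = Φ (K3x1.X.b j)) ∨ (gs s' w N7x1.X.e1 (Ψ j) = Φ (K3x1.X.b j) ∧
          gs t' w N7x1.X.e2 (Ψ j) = Φ (K3x1.X.a j)) := by
        intro j
        fin_cases j
        · exact Or.inl ⟨rfl, rfl⟩
        · exact Or.inl ⟨rfl, rfl⟩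
        · exact Or.inl ⟨rfl, rfl⟩
        · exact Or.inl ⟨rfl, rfl⟩
        · exact Or.inl ⟨rfl, rfl⟩
        · exact Or.inl ⟨rfl, rfl⟩
        · exact Or.inl ⟨rfl, rfl⟩
        · exact Or.inl ⟨rfl, rfl⟩
        · exact Or.inr ⟨rfl, rfl⟩
        · exact Or.inr ⟨congrArg Sum.inl h01.symm, rfl⟩
        · exact Or.inr ⟨rfl, rfl⟩
        · exact Or.inr ⟨congrArg Sum.inl h23.symm, rfl⟩
      have hcon2 : Contains (gs s' w N7x1.X.e1) (gs t' w N7x1.X.e2) K3x1.X := by
        refine contains_of K3x1.good (by decide) hS'.cubic Φ Ψ hΦ hΨ hE ?_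
        intro e a b ha hb
        refine noextra hS'.cubic hS'.two Φ Ψ hΦ hΨ (fun j => ?_) (by norm_num) (by norm_num)
          (by norm_num) e ⟨a, ha.symm⟩ ⟨b, hb.symm⟩
        rcases hE j with ⟨k1, k2⟩ | ⟨k1, k2⟩
        · exact ⟨⟨_, k1.symm⟩, ⟨_, k2.symm⟩⟩
        · exact ⟨⟨_, k1.symm⟩, ⟨_, k2.symm⟩⟩
      exact K3x1.no hS' hcon2

end Pool.Agent.TH372.BFR
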