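import Pool.Agent.TH372.BFR.Cut2

set_option autoImplicit false

/-! Transport to graphs containing a piece. -/

namespace Pool.Agent.TH372.BFR

open Finset

/-- isomorphic graphs, up to the order of the two ends of the edges -/
structure Iso {V E V' E' : Type} (s t : E → V) (s' t' : E' → V') where
  v : V' ≃ V
  e : E' ≃ E
  h : ∀ x, (s (e x) = v (s' x) ∧ t (e x) = v (t' x)) ∨ (s (e x) = v (t' x) ∧ t (e x) = v (s' x))

section

variable {V E V' E' : Type} {s t : E → V} {s' t' : E' → V'}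

open Classical in
/-- the bijection of the edge-ends -/
noncomputable def Iso.d (I : Iso s t s' t') : E' × Bool ≃ E × Bool where
  toFun x := (I.e x.1, if s (I.e x.1) = I.v (s' x.1) ∧ t (I.e x.1) = I.v (t' x.1) then x.2
    else !x.2)
  invFun y := (I.e.symm y.1, if s y.1 = I.v (s' (I.e.symm y.1)) ∧ t y.1 = I.v (t' (I.e.symm y.1))
    then y.2 else !y.2)
  left_inv x := by
    simp only [Equiv.symm_apply_apply, Prod.ext_iff, true_and]
    split_ifs <;> simp
  right_inv y := by
    simp only [Equiv.apply_symm_apply, Prod.ext_iff, true_and]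
    split_ifs <;> simp

theorem Iso.d_fst (I : Iso s t s' t') (x : E' × Bool) : (I.d x).1 = I.e x.1 := rfl

theorem Iso.en_d (I : Iso s t s' t') (x : E' × Bool) :
    en s t (I.d x) = I.v (en s' t' x) := by
  classical
  obtain ⟨e, b⟩ := x
  by_cases h : s (I.e e) = I.v (s' e) ∧ t (I.e e) = I.v (t' e)
  · have h1 : I.d (e, b) = (I.e e, b) := by simp [Iso.d, h]
    rw [h1]
    cases b
    · exact h.1
    · exact h.2
  · have h1 : I.d (e, b) = (I.e e, !b) := by simp only [Iso.d, Equiv.coe_fn_mk, if_neg h]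
    rw [h1]
    rcases I.h e with h2 | h2
    · exact absurd h2 h
    · cases b
      · exact h2.2
      · exact h2.1

theorem Iso.bf (I : Iso s t s' t') (h : BFb s' t') : BFb s t := by
  obtain ⟨f, h1, h2⟩ := h
  refine ⟨fun c e => f c (I.e.symm e), fun c v => ?_, fun e => h2 _⟩
  obtain ⟨d, ⟨g1, g2⟩, g3⟩ := h1 c (I.v.symm v)
  refine ⟨I.d d, ⟨?_, ?_⟩, ?_⟩
  · rw [I.en_d, g1, Equiv.apply_symm_apply]
  · change f c (I.e.symm (I.e d.1)) = true
    rw [Equiv.symm_apply_apply]; exact g2
  · rintro d' ⟨k1, k2⟩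
    obtain ⟨d'', rfl⟩ := I.d.surjective d'
    rw [I.en_d] at k1
    change f c (I.e.symm (I.e d''.1)) = true at k2
    rw [Equiv.symm_apply_apply] at k2
    rw [g3 d'' ⟨by rw [← k1, Equiv.symm_apply_apply], k2⟩]

theorem Iso.cubic [Fintype E] [Fintype E'] (I : Iso s t s' t') (h : Cubic s t) :
    Cubic s' t' := by
  intro v
  rw [← h (I.v v)]
  apply Nat.card_congr
  apply I.d.subtypeEquiv
  intro d
  rw [I.en_d]
  simp

theorem Iso.cut [Fintype E] [Fintype E'] (I : Iso s t s' t') (Z : Set V') :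
    cut s' t' Z = cut s t (I.v '' Z) := by
  rw [cut_sum, cut_sum]
  apply Fintype.sum_equiv I.e
  intro x
  have hm : ∀ y, I.v y ∈ I.v '' Z ↔ y ∈ Z := fun y => by simp
  rcases I.h x with ⟨h1, h2⟩ | ⟨h1, h2⟩
  · rw [h1, h2, hm, hm]
  · rw [h1, h2, hm, hm]
    congr 1
    simp only [eq_iff_iff]
    tauto

theorem Iso.two [Fintype E] [Fintype E'] (I : Iso s t s' t') (h : TwoEC s t) :
    TwoEC s' t' := by
  intro Z h1 h2
  rw [I.cut]
  apply h _ (h1.image _)
  rw [← Set.image_compl_eq I.v.bijective]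
  exact h2.image _

theorem Iso.ess [Fintype E] [Fintype E'] (I : Iso s t s' t') (h : Ess s t) :
    Ess s' t' := by
  intro Z h1
  rw [I.cut] at h1
  have h2 := h _ h1
  rw [← Set.image_compl_eq I.v.bijective, Set.ncard_image_of_injective _ I.v.injective,
    Set.ncard_image_of_injective _ I.v.injective] at h2
  exact h2

end

/-- The graph contains the piece `X`: `φ` maps its vertices and `ψ` its edges, the edge of port `i`
leaves the image of `φ`. -/
def Contains {V E : Type} {k n q : ℕ} (s t : E → V) (X : Piece k n q) : Prop :=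
  ∃ (φ : Fin n → V) (ψ : Fin q → E) (χ : Fin k → E), Function.Injective φ ∧
    Function.Injective ψ ∧ Function.Injective χ ∧
    (∀ j, (s (ψ j) = φ (X.a j) ∧ t (ψ j) = φ (X.b j)) ∨
      (s (ψ j) = φ (X.b j) ∧ t (ψ j) = φ (X.a j))) ∧
    ∀ i, (s (χ i) = φ (X.p i) ∧ ∀ a, t (χ i) ≠ φ a) ∨ (t (χ i) = φ (X.p i) ∧ ∀ a, s (χ i) ≠ φ a)

/-- every vertex of the piece has degree three -/
def Piece.Good {k n q : ℕ} (X : Piece k n q) : Prop :=
  ∀ v, Nat.card {d : (Fin k ⊕ Fin q) × Bool // en X.e1 X.e2 d = Sum.inr v} = 3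

theorem contains_iso {V E : Type} [Fintype V] [Fintype E] {k n q : ℕ} {s t : E → V}
    {X : Piece k n q} (hX : X.Good) (hc : Cubic s t) (h : Contains s t X) :
    ∃ (V' E' : Type) (_ : Fintype V') (_ : Fintype E') (s' t' : E' → V') (w : Fin k → V'),
      Nonempty (Iso s t (gs s' w X.e1) (gs t' w X.e2)) := by
  classical
  obtain ⟨φ, ψ, χ, hφ, hψ, hχ, h1, h2⟩ := h
  -- orientation
  let ρ : Fin k ⊕ Fin q → E := Sum.elim χ ψ
  have hout : ∀ i, ∃ b, en s t (χ i, b) = φ (X.p i) ∧ ∀ a, en s t (χ i, !b) ≠ φ a := by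
    intro i
    rcases h2 i with ⟨g1, g2⟩ | ⟨g1, g2⟩
    · exact ⟨false, g1, g2⟩
    · exact ⟨true, g1, g2⟩
  choose β hβ1 hβ2 using hout
  have hin : ∀ j, ∃ b, en s t (ψ j, b) = φ (X.a j) ∧ en s t (ψ j, !b) = φ (X.b j) := by
    intro j
    rcases h1 j with ⟨g1, g2⟩ | ⟨g1, g2⟩
    · exact ⟨false, g1, g2⟩
    · exact ⟨true, g2, g1⟩
  choose γ hγ1 hγ2 using hin
  have hρ : Function.Injective ρ := by
    rintro (i | j) (i' | j') h
    · exact congrArg _ (hχ h)
    · exfalso
      have h : χ i = ψ j' := h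
      have g := hβ2 i
      rw [h] at g
      have h5 : (!β i) = γ j' ∨ (!β i) = !γ j' := by
        cases β i <;> cases γ j' <;> simp
      rcases h5 with h5 | h5
      · rw [h5] at g; exact g _ (hγ1 j')
      · rw [h5] at g; exact g _ (hγ2 j')
    · exfalso
      have h : ψ j = χ i' := h
      have g := hβ2 i'
      rw [← h] at g
      have h5 : (!β i') = γ j ∨ (!β i') = !γ j := by
        cases β i' <;> cases γ j <;> simp
      rcases h5 with h5 | h5
      · rw [h5] at g; exact g _ (hγ1 j)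
      · rw [h5] at g; exact g _ (hγ2 j)
    · exact congrArg _ (hψ h)
  let o : Fin k ⊕ Fin q → Bool := Sum.elim (fun i => !β i) γ
  -- ends at image vertices
  have hend : ∀ (d : (Fin k ⊕ Fin q) × Bool) (v : Fin n), en X.e1 X.e2 d = Sum.inr v →
      en s t (ρ d.1, xor (o d.1) d.2) = φ v := by
    rintro ⟨i | j, b⟩ v hv
    · cases b
      · simp [en, Piece.e1] at hv
      · have : X.p i = v := by simpa [en, Piece.e2] using hv
        rw [← this, ← hβ1 i]
        simp [ρ, o]
    · cases b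
      · have : X.a j = v := by simpa [en, Piece.e1] using hv
        rw [← this, ← hγ1 j]
        simp [ρ, o]
      · have : X.b j = v := by simpa [en, Piece.e2] using hv
        rw [← this, ← hγ2 j]
        simp [ρ, o]
  -- all edges at image vertices are images
  have hall : ∀ (d : E × Bool) (v : Fin n), en s t d = φ v → ∃ y, ρ y = d.1 := by
    intro d v hd
    let F : {d : (Fin k ⊕ Fin q) × Bool // en X.e1 X.e2 d = Sum.inr v} →
        {d : E × Bool // en s t d = φ v} :=
      fun x => ⟨(ρ x.1.1, xor (o x.1.1) x.1.2), hend x.1 v x.2⟩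
    have hF : Function.Injective F := by
      rintro ⟨⟨y, b⟩, hy⟩ ⟨⟨y', b'⟩, hy'⟩ heq
      simp only [F, Subtype.mk.injEq, Prod.mk.injEq] at heq
      have h5 := hρ heq.1
      subst h5
      have h6 := heq.2
      simp only [Bool.xor_right_inj] at h6
      simp [h6]
    have hb := (Nat.bijective_iff_injective_and_card F).2 ⟨hF, by rw [hX v, hc]⟩
    obtain ⟨x, hx⟩ := hb.2 ⟨d, hd⟩
    exact ⟨x.1.1, congrArg (fun z => z.1.1) hx⟩
  let V' : Type := {v : V // ∀ a, v ≠ φ a}
  let E' : Type := {e : E // ∀ y, e ≠ ρ y}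
  have hs : ∀ e : E', ∀ a, s e.1 ≠ φ a := fun e a h => by
    obtain ⟨y, hy⟩ := hall (e.1, false) a h
    exact e.2 y hy.symm
  have ht : ∀ e : E', ∀ a, t e.1 ≠ φ a := fun e a h => by
    obtain ⟨y, hy⟩ := hall (e.1, true) a h
    exact e.2 y hy.symm
  let s' : E' → V' := fun e => ⟨s e.1, hs e⟩
  let t' : E' → V' := fun e => ⟨t e.1, ht e⟩
  let w : Fin k → V' := fun i => ⟨en s t (χ i, !β i), hβ2 i⟩
  let eV : V' ⊕ Fin n ≃ V := Equiv.ofBijective (Sum.elim (fun v => v.1) φ) (by
    constructor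
    · rintro (v | a) (v' | a') h
      · exact congrArg _ (Subtype.ext h)
      · exact absurd h (v.2 a')
      · exact absurd h.symm (v'.2 a)
      · exact congrArg _ (hφ h)
    · intro v
      by_cases hv : ∃ a, v = φ a
      · obtain ⟨a, rfl⟩ := hv
        exact ⟨Sum.inr a, rfl⟩
      · push Not at hv
        exact ⟨Sum.inl ⟨v, hv⟩, rfl⟩)
  let eE : E' ⊕ (Fin k ⊕ Fin q) ≃ E := Equiv.ofBijective (Sum.elim (fun e => e.1) ρ) (by
    constructor
    · rintro (v | a) (v' | a') h
      · exact congrArg _ (Subtype.ext h)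
      · exact absurd h (v.2 a')
      · exact absurd h.symm (v'.2 a)
      · exact congrArg _ (hρ h)
    · intro v
      by_cases hv : ∃ a, v = ρ a
      · obtain ⟨a, rfl⟩ := hv
        exact ⟨Sum.inr a, rfl⟩
      · push Not at hv
        exact ⟨Sum.inl ⟨v, hv⟩, rfl⟩)
  refine ⟨V', E', Fintype.ofFinite _, Fintype.ofFinite _, s', t', w, ⟨⟨eV, eE, ?_⟩⟩⟩
  rintro (e | i | j)
  · left
    exact ⟨rfl, rfl⟩
  · rcases hb : β i with _ | _
    · right
      constructor
      · change s (χ i) = φ (X.p i)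
        have := hβ1 i
        rw [hb] at this
        exact this
      · change t (χ i) = en s t (χ i, !β i)
        rw [hb]; rfl
    · left
      constructor
      · change s (χ i) = en s t (χ i, !β i)
        rw [hb]; rfl
      · change t (χ i) = φ (X.p i)
        have := hβ1 i
        rw [hb] at this
        exact this
  · exact h1 j

end Pool.Agent.TH372.BFR
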