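import Pool.Agent.TH372.BFR.Main

set_option autoImplicit false

/-! A path of three vertices. -/

namespace Pool.Agent.TH372.BFR.YCat

/-- A path of three vertices. -/
def Y : Piece 5 3 2 where
  p := ![0, 0, 1, 2, 2]
  a := ![0, 1]
  b := ![1, 2]

def cod : List ℕ := [147573952589709967376, 73787262167878205456, 571746046443536, 83010348331726536776,
  73787258319587508296, 9223657909894774856, 567897755746376, 18446744073743106176,
  9223654061604077696, 564049465049216]

theorem good : Y.Good := good_of Y (by decide +kernel)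

theorem nd : (ends 5 2).Nodup := by decide +kernel

theorem chk : chkP Y = true := by decide +kernel

def L : List (ℕ × List (List ℕ)) :=
  [(2, [[2, 5]]), (6, [[2, 5, 6]]), (3, [[3, 6]]), (4, [[3, 4, 6]])]

theorem bt_ok : bt 5 cod L (48 * 64 ^ 5 + 12 * 64 ^ 1 + 3 * 64 ^ 0) = true := by
  decide +kernel

theorem codes (g : Fin 6 → Fin 5 ⊕ Fin 2 → Bool) (hg : PC Y.e1 Y.e2 g) :
    code (fun c i => g c (Sum.inl i)) ∈ cod :=
  codeY Y nd cod L 0 1 5 (by decide +kernel) (by decide) (by decide +kernel) bt_ok g hg

end Pool.Agent.TH372.BFR.YCat
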