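import Pool.Agent.TH372.BFR.Main

set_option autoImplicit false

/-! Three edges at one vertex. -/

namespace Pool.Agent.TH372.BFR.YClaw

/-- Three edges at one vertex. -/
def Y : Piece 3 1 0 where
  p := ![0, 0, 0]
  a := ![]
  b := ![]

def cod : List ℕ := [8336]

theorem good : Y.Good := good_of Y (by decide +kernel)

theorem nd : (ends 3 0).Nodup := by decide +kernel

theorem chk : chkP Y = true := by decide +kernel

def L : List (ℕ × List (List ℕ)) :=
  []

theorem bt_ok : bt 3 cod L (48 * 64 ^ 2 + 12 * 64 ^ 1 + 3 * 64 ^ 0) = true := by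
  decide +kernel

theorem codes (g : Fin 6 → Fin 3 ⊕ Fin 0 → Bool) (hg : PC Y.e1 Y.e2 g) :
    code (fun c i => g c (Sum.inl i)) ∈ cod :=
  codeY Y nd cod L 0 1 2 (by decide +kernel) (by decide) (by decide +kernel) bt_ok g hg

end Pool.Agent.TH372.BFR.YClaw
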