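import Pool.Agent.TH372.BFR.Red3

set_option autoImplicit false

/-! Replacing pieces that are connected and have all their ports at vertices. -/

namespace Pool.Agent.TH372.BFR

open Finset

/-! ### Cuts -/

/-- number of edges of the piece between the two sides given by the bits of `A` and `Z` -/
def crossF {k n q : ℕ} (Y : Piece k n q) (A Z : ℕ) : ℕ :=
  (∑ i : Fin k, (xor (A.testBit i) (Z.testBit (Y.p i))).toNat) +
    ∑ j : Fin q, (xor (Z.testBit (Y.a j)) (Z.testBit (Y.b j))).toNat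

def popc (k A : ℕ) : ℕ := ∑ i : Fin k, (A.testBit i).toNat

def chkP {k n q : ℕ} (Y : Piece k n q) : Bool :=
  (List.range (2 ^ k)).all fun A => (List.range (2 ^ n)).all fun Z =>
    Nat.ble 2 (crossF Y A Z) ||
    (Nat.beq (crossF Y A Z) 0 && ((Nat.beq A 0 && Nat.beq Z 0) ||
      (Nat.beq A (2 ^ k - 1) && Nat.beq Z (2 ^ n - 1)))) ||
    (Nat.beq (crossF Y A Z) 1 && (Nat.beq (popc k A) 1 || Nat.beq (popc k A) 2 ||
      Nat.beq (popc k A + 1) k || Nat.beq (popc k A + 2) k))

theorem ind_toNat (P Q : Prop) [Decidable P] [Decidable Q] :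
    ind (¬ (P ↔ Q)) = (xor (decide P) (decide Q)).toNat := by
  unfold ind
  by_cases h : P <;> by_cases h' : Q <;> simp [h, h']

theorem ind_toNat' (P : Prop) [Decidable P] : ind P = (decide P).toNat := by
  unfold ind
  by_cases h : P <;> simp [h]

theorem twoP {V E : Type} [Fintype V] [Fintype E] {k n q : ℕ} {s t : E → V} {w : Fin k → V}
    (h : ROK s t w) (Y : Piece k n q) (hP : chkP Y = true) :
    TwoEC (gs s w Y.e1) (gs t w Y.e2) := by
  classical
  intro Z hZ hZc
  rw [cut_glue]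
  set S : Set V := {v | Sum.inl v ∈ Z} with hS
  set A : ℕ := Nat.ofBits (fun i : Fin k => decide (w i ∈ S)) with hA
  set B : ℕ := Nat.ofBits (fun a : Fin n => decide ((Sum.inr a : V ⊕ Fin n) ∈ Z)) with hB
  have hA1 : ∀ i : Fin k, A.testBit i = decide (w i ∈ S) := fun i =>
    Nat.testBit_ofBits_lt _ _ i.2
  have hB1 : ∀ a : Fin n, B.testBit a = decide ((Sum.inr a : V ⊕ Fin n) ∈ Z) := fun a =>
    Nat.testBit_ofBits_lt _ _ a.2
  have hcross : ∑ j, ind (¬ (Sum.map w id (Y.e1 j) ∈ Z ↔ Sum.map w id (Y.e2 j) ∈ Z)) =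
      crossF Y A B := by
    rw [Fintype.sum_sum_type]
    unfold crossF
    congr 1
    · apply Finset.sum_congr rfl
      intro i _
      rw [hA1, hB1, ← ind_toNat]
      rfl
    · apply Finset.sum_congr rfl
      intro i _
      rw [hB1, hB1, ← ind_toNat]
      rfl
  have hpop : popc k A = ∑ i, ind (w i ∈ S) := by
    unfold popc
    apply Finset.sum_congr rfl
    intro i _
    rw [hA1, ind_toNat']
  have hpop2 : ∑ i, (1 - ind (w i ∈ S)) + popc k A = k := by
    rw [hpop, ← Finset.sum_add_distrib]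
    rw [Finset.sum_congr rfl (g := fun _ => 1) (fun i _ => by
      have := ind_le (w i ∈ S); omega)]
    simp
  obtain ⟨f1, f2, f3, f4⟩ := facts h S
  obtain ⟨g1, g2, g3, g4⟩ := facts h Sᶜ
  rw [dl_compl] at g1 g2 g3 g4
  rw [dl, ← hpop] at f1 f2 f3 f4
  rw [hcross]
  unfold chkP at hP
  rw [List.all_eq_true] at hP
  have h1 := hP A (by rw [List.mem_range]; exact Nat.ofBits_lt_two_pow _)
  rw [List.all_eq_true] at h1
  have h2 := h1 B (by rw [List.mem_range]; exact Nat.ofBits_lt_two_pow _)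
  simp only [Bool.or_eq_true, Bool.and_eq_true] at h2
  rcases h2 with (h2 | ⟨h2, h3⟩) | ⟨h2, h3⟩
  · have := Nat.le_of_ble_eq_true h2
    omega
  · have h2' := Nat.eq_of_beq_eq_true h2
    rcases h3 with ⟨h3, h4⟩ | ⟨h3, h4⟩
    · have h3' := Nat.eq_of_beq_eq_true h3
      have h4' := Nat.eq_of_beq_eq_true h4
      have h5 : popc k A = 0 := by
        rw [h3']; unfold popc; simp
      have h6 : 1 ≤ S.ncard := by
        obtain ⟨v | a, hv⟩ := hZ
        · exact ncard_pos_of (S := S) ⟨v, hv⟩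
        · exfalso
          have h7 := hB1 a
          rw [h4', Nat.zero_testBit] at h7
          have h8 := of_decide_eq_false h7.symm
          exact h8 hv
      have := f1 h6
      omega
    · have h3' := Nat.eq_of_beq_eq_true h3
      have h4' := Nat.eq_of_beq_eq_true h4
      have h5 : popc k A = k := by
        rw [h3']; unfold popc
        rw [Finset.sum_congr rfl (g := fun _ => 1) (fun i _ => by
          rw [Nat.testBit_two_pow_sub_one]; simp)]
        simp
      have h6 : 1 ≤ Sᶜ.ncard := by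
        obtain ⟨v | a, hv⟩ := hZc
        · exact ncard_pos_of (S := Sᶜ) ⟨v, hv⟩
        · exfalso
          have h7 := hB1 a
          rw [h4', Nat.testBit_two_pow_sub_one] at h7
          have h9 : decide ((a : ℕ) < n) = true := by simp
          rw [h9] at h7
          have h8 := of_decide_eq_true h7.symm
          exact hv h8
      have := g1 h6
      omega
  · have h2' := Nat.eq_of_beq_eq_true h2
    have h4 : popc k A = 1 ∨ popc k A = 2 ∨ popc k A + 1 = k ∨ popc k A + 2 = k := by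
      rcases h3 with ((h3 | h3) | h3) | h3
      · exact Or.inl (Nat.eq_of_beq_eq_true h3)
      · exact Or.inr (Or.inl (Nat.eq_of_beq_eq_true h3))
      · exact Or.inr (Or.inr (Or.inl (Nat.eq_of_beq_eq_true h3)))
      · exact Or.inr (Or.inr (Or.inr (Nat.eq_of_beq_eq_true h3)))
    omega

/-! ### Digits -/

def dsum (N : ℕ) (m : ℕ → ℕ) : ℕ := ∑ p ∈ range N, m p * 64 ^ p

theorem mk_dsum : ∀ (N : ℕ) (m : ℕ → ℕ), (∀ p, m p < 64) → ∀ p < N, mk (dsum N m) p = m p := by
  intro N
  induction N with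
  | zero => intro m _ p hp; omega
  | succ N ih =>
    intro m hm p hp
    have h1 : dsum (N + 1) m = m 0 + 64 * dsum N (fun p => m (p + 1)) := by
      unfold dsum
      rw [Finset.sum_range_succ', Finset.mul_sum, add_comm]
      congr 1
      · simp
      · apply Finset.sum_congr rfl
        intro i _
        rw [pow_succ]
        ring
    unfold mk
    rw [h1]
    rcases p with _ | p
    · have := hm 0
      rw [pow_zero, Nat.div_one]
      omega
    · rw [pow_succ', ← Nat.div_div_eq_div_mul, Nat.add_mul_div_left _ _ (by norm_num : 0 < 64),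
        Nat.div_eq_of_lt (hm 0), zero_add]
      exact ih (fun p => m (p + 1)) (fun p => hm _) p (by omega)

/-! ### Enumeration of the colourings of a piece -/

/-- a constraint on a partial colouring: three edges at a vertex, or two of them -/
def okc (a : ℕ) : List ℕ → Bool
  | [y0, y1, y2] => Nat.beq (mk a y0 + mk a y1 + mk a y2) 63
  | [y0, y1] => Nat.beq (mk a y0 &&& mk a y1) 0
  | _ => true

/-- all colourings that extend `a`: at each step one more edge is coloured -/
def bt (k : ℕ) (cod : List ℕ) : List (ℕ × List (List ℕ)) → ℕ → Bool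
  | [], a => memN (codeN ((List.range k).map (mk a))) cod
  | (y, cs) :: l, a => L15.all fun m =>
      !(cs.all (okc (a + m * 64 ^ y))) || bt k cod l (a + m * 64 ^ y)

/-- the constraint is a consequence of the incidences -/
def okl (inc : List (List ℕ)) : List ℕ → Bool
  | [y0, y1, y2] => inc.any fun l => match l with
    | [z0, z1, z2] => Nat.beq y0 z0 && (Nat.beq y1 z1 && Nat.beq y2 z2)
    | _ => false
  | [y0, y1] => inc.any fun l => match l with
    | [z0, z1, z2] => (Nat.beq y0 z0 && Nat.beq y1 z1) || ((Nat.beq y0 z0 && Nat.beq y1 z2) ||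
      (Nat.beq y0 z1 && Nat.beq y1 z2))
    | _ => false
  | _ => true

/-- static check of the order of the enumeration -/
def btOK (k N : ℕ) (inc : List (List ℕ)) : List (ℕ × List (List ℕ)) → List ℕ → Bool
  | [], A => (List.range k).all fun p => decide (p ∈ A)
  | (y, cs) :: l, A => decide (y ∉ A) && (decide (y < N) &&
      ((cs.all fun c => okl inc c && c.all fun z => decide (z ∈ y :: A)) &&
        btOK k N inc l (y :: A)))

def asum (N : ℕ) (m : ℕ → ℕ) (A : List ℕ) : ℕ := dsum N (fun p => if p ∈ A then m p else 0)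

theorem asum_cons (N : ℕ) (m : ℕ → ℕ) (A : List ℕ) (y : ℕ) (hy : y ∉ A) (hN : y < N) :
    asum N m (y :: A) = asum N m A + m y * 64 ^ y := by
  unfold asum dsum
  have h1 : m y * 64 ^ y = ∑ p ∈ range N, if p = y then m y * 64 ^ y else 0 := by
    rw [Finset.sum_ite_eq' (range N) y]
    simp [hN]
  rw [h1, ← Finset.sum_add_distrib]
  apply Finset.sum_congr rfl
  intro p _
  by_cases hp : p = y
  · subst hp
    simp [hy]
  · simp [hp]

theorem mk_asum (N : ℕ) (m : ℕ → ℕ) (hm : ∀ p, m p < 64) (A : List ℕ) (p : ℕ) (hp : p ∈ A)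
    (hpN : p < N) : mk (asum N m A) p = m p := by
  unfold asum
  rw [mk_dsum N _ (fun q => by split_ifs; exacts [hm q, by norm_num]) p hpN]
  simp [hp]

theorem and_zero : ∀ m0 ∈ L15, ∀ m1 ∈ L15, ∀ m2 ∈ L15, m0 + m1 + m2 = 63 →
    m0 &&& m1 = 0 ∧ m0 &&& m2 = 0 ∧ m1 &&& m2 = 0 := by decide +kernel

theorem bt_sound (k N : ℕ) (inc : List (List ℕ)) (cod : List ℕ) (m : ℕ → ℕ)
    (hm : ∀ p < N, m p ∈ L15) (hm' : ∀ p, m p < 64) (hkN : k ≤ N)
    (hinc : ∀ z0 z1 z2, [z0, z1, z2] ∈ inc → (z0 < N ∧ z1 < N ∧ z2 < N) ∧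
      m z0 + m z1 + m z2 = 63) :
    ∀ (L : List (ℕ × List (List ℕ))) (A : List ℕ), (∀ p ∈ A, p < N) →
      btOK k N inc L A = true → bt k cod L (asum N m A) = true →
      codeN ((List.range k).map m) ∈ cod := by
  intro L
  induction L with
  | nil =>
    intro A hA h1 h2
    simp only [btOK, List.all_eq_true, List.mem_range, decide_eq_true_eq] at h1
    have h3 := memN_iff h2
    have h4 : (List.range k).map (mk (asum N m A)) = (List.range k).map m := by
      apply List.map_congr_left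
      intro p hp
      rw [List.mem_range] at hp
      exact mk_asum N m hm' A p (h1 p hp) (hA p (h1 p hp))
    rw [h4] at h3
    exact h3
  | cons hd l ih =>
    obtain ⟨y, cs⟩ := hd
    intro A hA h1 h2
    simp only [btOK, Bool.and_eq_true, decide_eq_true_eq, List.all_eq_true] at h1
    obtain ⟨hy, hyN, hcs, hl⟩ := h1
    simp only [bt, List.all_eq_true, Bool.or_eq_true, Bool.not_eq_true'] at h2
    have h3 := h2 (m y) (hm y hyN)
    rw [← asum_cons N m A y hy hyN] at h3
    have hA' : ∀ p ∈ y :: A, p < N := by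
      intro p hp
      rcases List.mem_cons.1 hp with rfl | hp
      · exact hyN
      · exact hA p hp
    have h4 : cs.all (okc (asum N m (y :: A))) = true := by
      rw [List.all_eq_true]
      intro c hc
      obtain ⟨h5, h6⟩ := hcs c hc
      rcases c with _ | ⟨y0, _ | ⟨y1, _ | ⟨y2, _ | ⟨y3, c'⟩⟩⟩⟩
      · rfl
      · rfl
      · -- two edges
        simp only [okl, List.any_eq_true] at h5
        obtain ⟨l', hl', h7⟩ := h5
        rcases l' with _ | ⟨z0, _ | ⟨z1, _ | ⟨z2, _ | ⟨z3, l''⟩⟩⟩⟩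
        · simp at h7
        · simp at h7
        · simp at h7
        · obtain ⟨⟨k0, k1, k2⟩, k3⟩ := hinc z0 z1 z2 hl'
          obtain ⟨a1, a2, a3⟩ := and_zero _ (hm z0 k0) _ (hm z1 k1) _ (hm z2 k2) k3
          have e0 := mk_asum N m hm' (y :: A) y0 (h6 y0 (by simp)) (hA' _ (h6 y0 (by simp)))
          have e1 := mk_asum N m hm' (y :: A) y1 (h6 y1 (by simp)) (hA' _ (h6 y1 (by simp)))
          simp only [okc, e0, e1]
          simp only [Bool.or_eq_true, Bool.and_eq_true] at h7
          rcases h7 with ⟨g0, g1⟩ | ⟨g0, g1⟩ | ⟨g0, g1⟩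
          · rw [Nat.eq_of_beq_eq_true g0, Nat.eq_of_beq_eq_true g1, a1]; rfl
          · rw [Nat.eq_of_beq_eq_true g0, Nat.eq_of_beq_eq_true g1, a2]; rfl
          · rw [Nat.eq_of_beq_eq_true g0, Nat.eq_of_beq_eq_true g1, a3]; rfl
        · simp at h7
      · -- three edges
        simp only [okl, List.any_eq_true] at h5
        obtain ⟨l', hl', h7⟩ := h5
        rcases l' with _ | ⟨z0, _ | ⟨z1, _ | ⟨z2, _ | ⟨z3, l''⟩⟩⟩⟩
        · simp at h7
        · simp at h7
        · simp at h7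
        · obtain ⟨-, k3⟩ := hinc z0 z1 z2 hl'
          have e0 := mk_asum N m hm' (y :: A) y0 (h6 y0 (by simp)) (hA' _ (h6 y0 (by simp)))
          have e1 := mk_asum N m hm' (y :: A) y1 (h6 y1 (by simp)) (hA' _ (h6 y1 (by simp)))
          have e2 := mk_asum N m hm' (y :: A) y2 (h6 y2 (by simp)) (hA' _ (h6 y2 (by simp)))
          simp only [okc, e0, e1, e2]
          simp only [Bool.and_eq_true] at h7
          obtain ⟨g0, g1, g2⟩ := h7
          rw [Nat.eq_of_beq_eq_true g0, Nat.eq_of_beq_eq_true g1, Nat.eq_of_beq_eq_true g2, k3]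
          rfl
        · simp at h7
      · rfl
    rcases h3 with h3 | h3
    · rw [h4] at h3
      simp at h3
    · exact ih (y :: A) hA' hl h3

/-- Colourings of a piece can be permuted so that the three edges at a vertex get the first,
second and third pair of colours. -/
theorem normal {ι : Type} (g : Fin 6 → ι → Bool) (y0 y1 y2 : ι)
    (h : ∀ c, (g c y0 = true ∧ g c y1 = false ∧ g c y2 = false) ∨
      (g c y0 = false ∧ g c y1 = true ∧ g c y2 = false) ∨
      (g c y0 = false ∧ g c y1 = false ∧ g c y2 = true))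
    (h2 : ∀ y, (univ.filter fun c => g c y = true).card = 2) :
    ∃ σ : Equiv.Perm (Fin 6), col (fun c => g (σ c)) y0 = 3 ∧ col (fun c => g (σ c)) y1 = 12 ∧
      col (fun c => g (σ c)) y2 = 48 := by
  classical
  let F : Fin 6 → Fin 3 := fun c => if g c y0 = true then 0 else if g c y1 = true then 1 else 2
  let F0 : Fin 6 → Fin 3 := ![0, 0, 1, 1, 2, 2]
  have e0 : ∀ c, F c = 0 ↔ g c y0 = true := by
    intro c
    rcases h c with ⟨a, b, d⟩ | ⟨a, b, d⟩ | ⟨a, b, d⟩ <;> simp [F, a, b]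
  have e1 : ∀ c, F c = 1 ↔ g c y1 = true := by
    intro c
    rcases h c with ⟨a, b, d⟩ | ⟨a, b, d⟩ | ⟨a, b, d⟩ <;> simp [F, a, b]
  have e2 : ∀ c, F c = 2 ↔ g c y2 = true := by
    intro c
    rcases h c with ⟨a, b, d⟩ | ⟨a, b, d⟩ | ⟨a, b, d⟩ <;> simp [F, a, b, d]
  have hfib : ∀ x, Nonempty ({c // F0 c = x} ≃ {c // F c = x}) := by
    intro x
    refine ⟨Fintype.equivOfCardEq ?_⟩
    rw [Fintype.card_subtype, Fintype.card_subtype]
    have hx : x = 0 ∨ x = 1 ∨ x = 2 := by fin_cases x <;> simp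
    have p0 : (univ.filter fun c => F0 c = 0).card = 2 := by decide
    have p1 : (univ.filter fun c => F0 c = 1).card = 2 := by decide
    have p2 : (univ.filter fun c => F0 c = 2).card = 2 := by decide
    rcases hx with rfl | rfl | rfl
    · rw [p0, Finset.filter_congr (fun c _ => e0 c), h2]
    · rw [p1, Finset.filter_congr (fun c _ => e1 c), h2]
    · rw [p2, Finset.filter_congr (fun c _ => e2 c), h2]
  let σ : Equiv.Perm (Fin 6) := Equiv.ofFiberEquiv (fun x => (hfib x).some)
  have hσ : ∀ c, F (σ c) = F0 c := fun c => Equiv.ofFiberEquiv_map (fun x => (hfib x).some) c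
  have key : ∀ (y : ι) (x : Fin 3), (∀ c, F c = x ↔ g c y = true) →
      col (fun c => g (σ c)) y = Nat.ofBits (fun c : Fin 6 => decide (F0 c = x)) := by
    intro y x hx
    unfold col
    congr 1
    funext c
    rw [Bool.eq_iff_iff, ← hx, hσ, decide_eq_true_eq]
  refine ⟨σ, ?_, ?_, ?_⟩
  · rw [key y0 0 e0]; decide
  · rw [key y1 1 e1]; decide
  · rw [key y2 2 e2]; decide

theorem code_perm {k : ℕ} (b : Fin 6 → Fin k → Bool) (σ : Equiv.Perm (Fin 6)) :
    code (fun c => b (σ c)) = code b := by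
  unfold code
  exact Equiv.sum_comp σ (fun c => 8 ^ Nat.ofBits (b c))

theorem PC_perm {ι : Type} {k n : ℕ} {e1 e2 : ι → Fin k ⊕ Fin n} {g : Fin 6 → ι → Bool}
    (hg : PC e1 e2 g) (σ : Equiv.Perm (Fin 6)) : PC e1 e2 (fun c => g (σ c)) := by
  refine ⟨fun c v => hg.1 (σ c) v, fun y => ?_⟩
  rw [← hg.2 y]
  apply Finset.card_bij (fun c _ => σ c)
  · intro c hc
    rw [mem_filter] at hc ⊢
    exact ⟨mem_univ _, hc.2⟩
  · intro c _ c' _ h
    exact σ.injective h
  · intro c hc
    rw [mem_filter] at hc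
    exact ⟨σ.symm c, by rw [mem_filter]; exact ⟨mem_univ _, by simpa using hc.2⟩, by simp⟩

/-- the colour masks by position -/
def mm {k q : ℕ} (g : Fin 6 → Fin k ⊕ Fin q → Bool) (p : ℕ) : ℕ :=
  if h : p < k then col g (Sum.inl ⟨p, h⟩) else
    if h' : p < k + q then col g (Sum.inr ⟨p - k, by omega⟩) else 0

theorem mm_ps {k q : ℕ} (g : Fin 6 → Fin k ⊕ Fin q → Bool) (y : Fin k ⊕ Fin q) :
    mm g (ps y) = col g y := by
  rcases y with i | j
  · simp [mm, ps]
  · have h1 : ¬ (k + (j : ℕ) < k) := by omega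
    simp [mm, ps]

theorem inc_onehot {k n q : ℕ} (Y : Piece k n q) (hnd : (ends k q).Nodup)
    {g : Fin 6 → Fin k ⊕ Fin q → Bool} (hg : PC Y.e1 Y.e2 g) (z0 z1 z2 : ℕ)
    (h : [z0, z1, z2] ∈ Y.inc) : ∃ y0 y1 y2 : Fin k ⊕ Fin q, ps y0 = z0 ∧ ps y1 = z1 ∧
      ps y2 = z2 ∧ ∀ c, (g c y0 = true ∧ g c y1 = false ∧ g c y2 = false) ∨
      (g c y0 = false ∧ g c y1 = true ∧ g c y2 = false) ∨
      (g c y0 = false ∧ g c y1 = false ∧ g c y2 = true) := by
  unfold Piece.inc at h
  rw [List.mem_map] at h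
  obtain ⟨v, -, hv⟩ := h
  set l := (ends k q).filter fun d => decide (en Y.e1 Y.e2 d = Sum.inr v) with hl
  have hnd' : l.Nodup := hnd.filter _
  have hml : ∀ d, en Y.e1 Y.e2 d = Sum.inr v ↔ d ∈ l := by
    intro d
    rw [hl, List.mem_filter]
    simp [mem_ends]
  rcases hq : l with _ | ⟨d0, _ | ⟨d1, _ | ⟨d2, _ | ⟨d3, l'⟩⟩⟩⟩
  · rw [hq] at hv; simp at hv
  · rw [hq] at hv; simp at hv
  · rw [hq] at hv; simp at hv
  · rw [hq] at hv hnd'
    simp only [List.map_cons, List.map_nil, List.cons.injEq, and_true] at hv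
    simp only [List.nodup_cons, List.mem_cons, List.not_mem_nil, or_false, not_or] at hnd'
    refine ⟨d0.1, d1.1, d2.1, hv.1, hv.2.1, hv.2.2, fun c => ?_⟩
    exact onehot_of Y.e1 Y.e2 (Sum.inr v) (g c) d0 d1 d2 (hg.1 c v) (fun d => by
      rw [hml, hq]; simp) hnd'.1.1 hnd'.1.2 hnd'.2.1
  · rw [hq] at hv; simp at hv

/-- The codes of the colourings of a piece. -/
theorem codeY {k n q : ℕ} (Y : Piece k n q) (hnd : (ends k q).Nodup) (cod : List ℕ)
    (L : List (ℕ × List (List ℕ))) (y0 y1 y2 : ℕ) (h0 : [y0, y1, y2] ∈ Y.inc)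
    (hy : y0 ≠ y1 ∧ y0 ≠ y2 ∧ y1 ≠ y2) (hok : btOK k (k + q) Y.inc L [y0, y1, y2] = true)
    (hbt : bt k cod L (48 * 64 ^ y2 + 12 * 64 ^ y1 + 3 * 64 ^ y0) = true)
    (g : Fin 6 → Fin k ⊕ Fin q → Bool) (hg : PC Y.e1 Y.e2 g) :
    code (fun c i => g c (Sum.inl i)) ∈ cod := by
  obtain ⟨w0, w1, w2, a0, a1, a2, a3⟩ := inc_onehot Y hnd hg y0 y1 y2 h0
  obtain ⟨σ, b0, b1, b2⟩ := normal g w0 w1 w2 a3 hg.2
  have hg' := PC_perm hg σ
  set g' : Fin 6 → Fin k ⊕ Fin q → Bool := fun c => g (σ c) with hg'def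
  have hcode : code (fun c i => g c (Sum.inl i)) = code (fun c i => g' c (Sum.inl i)) :=
    (code_perm (fun c i => g c (Sum.inl i)) σ).symm
  have hmL : ∀ y : Fin k ⊕ Fin q, col g' y ∈ L15 := fun y => mem15 _ (hg'.2 y)
  have hm : ∀ p < k + q, mm g' p ∈ L15 := by
    intro p hp
    by_cases h : p < k
    · have := hmL (Sum.inl ⟨p, h⟩)
      rw [← mm_ps] at this
      exact this
    · have := hmL (Sum.inr ⟨p - k, by omega⟩)
      rw [← mm_ps] at this
      have h5 : ps (Sum.inr ⟨p - k, by omega⟩ : Fin k ⊕ Fin q) = p := by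
        simp only [ps]; omega
      rw [h5] at this
      exact this
  have hm' : ∀ p, mm g' p < 64 := by
    intro p
    by_cases h : p < k + q
    · exact du_lt _ (hm p h)
    · have : mm g' p = 0 := by
        unfold mm
        rw [dif_neg (by omega), dif_neg (by omega)]
      omega
  have hinc : ∀ z0 z1 z2, [z0, z1, z2] ∈ Y.inc → (z0 < k + q ∧ z1 < k + q ∧ z2 < k + q) ∧
      mm g' z0 + mm g' z1 + mm g' z2 = 63 := by
    intro z0 z1 z2 hz
    obtain ⟨v0, v1, v2, c0, c1, c2, c3⟩ := inc_onehot Y hnd hg' z0 z1 z2 hz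
    refine ⟨⟨c0 ▸ ps_lt v0, c1 ▸ ps_lt v1, c2 ▸ ps_lt v2⟩, ?_⟩
    rw [← c0, ← c1, ← c2, mm_ps, mm_ps, mm_ps]
    exact sum63 _ _ _ c3
  have hlt : ∀ p ∈ [y0, y1, y2], p < k + q := by
    intro p hp
    have := (hinc y0 y1 y2 h0).1
    simp only [List.mem_cons, List.not_mem_nil, or_false] at hp
    rcases hp with rfl | rfl | rfl
    · exact this.1
    · exact this.2.1
    · exact this.2.2
  have hstart : 48 * 64 ^ y2 + 12 * 64 ^ y1 + 3 * 64 ^ y0 =
      asum (k + q) (mm g') [y0, y1, y2] := by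
    rw [asum_cons _ _ _ _ (by simp [hy.1, hy.2.1]) (hlt y0 (by simp)),
      asum_cons _ _ _ _ (by simp [hy.2.2]) (hlt y1 (by simp)),
      asum_cons _ _ _ _ (by simp) (hlt y2 (by simp))]
    have h9 : asum (k + q) (mm g') [] = 0 := by
      unfold asum dsum
      simp
    rw [h9, ← a0, ← a1, ← a2, mm_ps, mm_ps, mm_ps, b0, b1, b2, zero_add]
  rw [hstart] at hbt
  have h10 := bt_sound k (k + q) Y.inc cod (mm g') hm hm' (by omega) hinc L _ hlt hok hbt
  rw [hcode]
  have h11 : code (fun c i => g' c (Sum.inl i)) = codeN ((List.range k).map (mm g')) := by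
    have h5 : (List.range k).map (mm g') = List.ofFn (fun i : Fin k => mm g' i) := by
      rw [List.ofFn_eq_map]
      apply List.ext_getElem <;> simp
    rw [h5, codeN_eq]
    congr 1
    funext c i
    have h6 := mm_ps g' (Sum.inl i)
    change mm g' i = _ at h6
    rw [h6, col, Nat.testBit_ofBits_lt _ _ c.2]
  rw [h11]
  exact h10

end Pool.Agent.TH372.BFR
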