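import Pool.Agent.TH372.BFR.Main

set_option autoImplicit false

/-! Two adjacent vertices. -/

namespace Pool.Agent.TH372.BFR.YH

/-- Two adjacent vertices. -/
def Y : Piece 4 2 1 where
  p := ![0, 0, 1, 1]
  a := ![0]
  b := ![1]

def cod : List ℕ := [2147549186, 1208254466, 268959746]

theorem good : Y.Good := good_of Y (by decide +kernel)

theorem nd : (ends 4 1).Nodup := by decide +kernel

theorem chk : chkP Y = true := by decide +kernel

def L : List (ℕ × List (List ℕ)) :=
  [(2, [[2, 4]]), (3, [[2, 3, 4]])]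

theorem bt_ok : bt 4 cod L (48 * 64 ^ 4 + 12 * 64 ^ 1 + 3 * 64 ^ 0) = true := by
  decide +kernel

theorem codes (g : Fin 6 → Fin 4 ⊕ Fin 1 → Bool) (hg : PC Y.e1 Y.e2 g) :
    code (fun c i => g c (Sum.inl i)) ∈ cod :=
  codeY Y nd cod L 0 1 4 (by decide +kernel) (by decide) (by decide +kernel) bt_ok g hg

end Pool.Agent.TH372.BFR.YH
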