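import Pool.Agent.TH372.BFR.Codes

set_option autoImplicit false

/-! The codes of the colourings of the outer part that extend to the small pieces. -/

namespace Pool.Agent.TH372.BFR

open Finset

theorem onehot_of {ι α : Type} (e1 e2 : ι → α) (v : α) (Q : ι → Bool) (d0 d1 d2 : ι × Bool)
    (h : ∃! d : ι × Bool, en e1 e2 d = v ∧ Q d.1 = true)
    (hP : ∀ d, en e1 e2 d = v ↔ d = d0 ∨ d = d1 ∨ d = d2) (h01 : d0 ≠ d1) (h02 : d0 ≠ d2)
    (h12 : d1 ≠ d2) :
    (Q d0.1 = true ∧ Q d1.1 = false ∧ Q d2.1 = false) ∨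
    (Q d0.1 = false ∧ Q d1.1 = true ∧ Q d2.1 = false) ∨
    (Q d0.1 = false ∧ Q d1.1 = false ∧ Q d2.1 = true) := by
  obtain ⟨d, ⟨g1, g2⟩, g3⟩ := h
  have k0 : Q d0.1 = true → d0 = d := fun h => g3 d0 ⟨(hP _).2 (by simp), h⟩
  have k1 : Q d1.1 = true → d1 = d := fun h => g3 d1 ⟨(hP _).2 (by simp), h⟩
  have k2 : Q d2.1 = true → d2 = d := fun h => g3 d2 ⟨(hP _).2 (by simp), h⟩
  rcases (hP d).1 g1 with rfl | rfl | rfl
  · left
    refine ⟨g2, ?_, ?_⟩
    · by_contra h; rw [Bool.not_eq_false] at h; exact h01 (k1 h).symm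
    · by_contra h; rw [Bool.not_eq_false] at h; exact h02 (k2 h).symm
  · right; left
    refine ⟨?_, g2, ?_⟩
    · by_contra h; rw [Bool.not_eq_false] at h; exact h01 (k0 h)
    · by_contra h; rw [Bool.not_eq_false] at h; exact h12 (k2 h).symm
  · right; right
    refine ⟨?_, ?_, g2⟩
    · by_contra h; rw [Bool.not_eq_false] at h; exact h02 (k0 h)
    · by_contra h; rw [Bool.not_eq_false] at h; exact h12 (k1 h)

theorem sum63 (h0 h1 h2 : Fin 6 → Bool) (h : ∀ c, (h0 c = true ∧ h1 c = false ∧ h2 c = false) ∨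
    (h0 c = false ∧ h1 c = true ∧ h2 c = false) ∨ (h0 c = false ∧ h1 c = false ∧ h2 c = true)) :
    Nat.ofBits h0 + Nat.ofBits h1 + Nat.ofBits h2 = 63 := by
  have h' : ∀ c, (h0 c).toNat + (h1 c).toNat + (h2 c).toNat = 1 := by
    intro c
    rcases h c with ⟨a, b, c⟩ | ⟨a, b, c⟩ | ⟨a, b, c⟩ <;> rw [a, b, c] <;> rfl
  have hs : ∀ g : Fin 6 → Bool, Nat.ofBits g = (g 0).toNat + 2 * (g 1).toNat + 4 * (g 2).toNat +
      8 * (g 3).toNat + 16 * (g 4).toNat + 32 * (g 5).toNat := by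
    intro g
    simp only [Nat.ofBits_succ, Nat.ofBits_zero, Function.comp]
    have e1 : (Fin.succ 0 : Fin 6) = 1 := rfl
    have e2 : (Fin.succ (Fin.succ 0) : Fin 6) = 2 := rfl
    have e3 : (Fin.succ (Fin.succ (Fin.succ 0)) : Fin 6) = 3 := rfl
    have e4 : (Fin.succ (Fin.succ (Fin.succ (Fin.succ 0))) : Fin 6) = 4 := rfl
    have e5 : (Fin.succ (Fin.succ (Fin.succ (Fin.succ (Fin.succ 0)))) : Fin 6) = 5 := rfl
    rw [e1, e2, e3, e4, e5]
    ring
  rw [hs h0, hs h1, hs h2]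
  have a0 := h' 0
  have a1 := h' 1
  have a2 := h' 2
  have a3 := h' 3
  have a4 := h' 4
  have a5 := h' 5
  omega

theorem mem15 : ∀ h : Fin 6 → Bool, (univ.filter fun c => h c = true).card = 2 →
    Nat.ofBits h ∈ L15 := by
  decide +kernel

theorem L15_du : ∀ m ∈ L15, du m = true := by decide +kernel

/-- column of an edge: the set of matchings containing it, as a number -/
def col {ι : Type} (g : Fin 6 → ι → Bool) (y : ι) : ℕ := Nat.ofBits fun c => g c y

theorem code_col {ι : Type} {k : ℕ} (g : Fin 6 → ι → Bool) (pos : Fin k → ι × Bool) :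
    code (fun c i => g c (pos i).1) = codeN (List.ofFn fun i => col g (pos i).1) := by
  rw [codeN_eq]
  congr 1
  funext c i
  rw [col, Nat.testBit_ofBits_lt _ _ c.2]

def A1 : Fin 4 → Fin 5 ⊕ Fin 1 := ![Sum.inl 0, Sum.inl 2, Sum.inl 3, Sum.inl 4]
def A2 : Fin 4 → Fin 5 ⊕ Fin 1 := ![Sum.inl 1, Sum.inr 0, Sum.inr 0, Sum.inr 0]
def Ap : Fin 5 → Fin 4 × Bool := ![(0, false), (0, true), (1, false), (2, false), (3, false)]

def B1 : Fin 6 → Fin 6 ⊕ Fin 2 := ![Sum.inl 0, Sum.inl 2, Sum.inl 3, Sum.inr 0, Sum.inl 4, Sum.inl 5]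
def B2 : Fin 6 → Fin 6 ⊕ Fin 2 := ![Sum.inl 1, Sum.inr 0, Sum.inr 0, Sum.inr 1, Sum.inr 1, Sum.inr 1]
def Bp : Fin 6 → Fin 6 × Bool :=
  ![(0, false), (0, true), (1, false), (2, false), (4, false), (5, false)]

def C1 : Fin 3 → Fin 6 ⊕ Fin 0 := ![Sum.inl 0, Sum.inl 2, Sum.inl 4]
def C2 : Fin 3 → Fin 6 ⊕ Fin 0 := ![Sum.inl 1, Sum.inl 3, Sum.inl 5]
def Cp : Fin 6 → Fin 3 × Bool :=
  ![(0, false), (0, true), (1, false), (1, true), (2, false), (2, true)]

def D1 : Fin 2 → Fin 4 ⊕ Fin 0 := ![Sum.inl 0, Sum.inl 2]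
def D2 : Fin 2 → Fin 4 ⊕ Fin 0 := ![Sum.inl 1, Sum.inl 3]
def Dp : Fin 4 → Fin 2 × Bool := ![(0, false), (0, true), (1, false), (1, true)]

theorem Apos : ∀ d i, en A1 A2 d = Sum.inl i ↔ d = Ap i := by decide +kernel
theorem Bpos : ∀ d i, en B1 B2 d = Sum.inl i ↔ d = Bp i := by decide +kernel
theorem Cpos : ∀ d i, en C1 C2 d = Sum.inl i ↔ d = Cp i := by decide +kernel
theorem Dpos : ∀ d i, en D1 D2 d = Sum.inl i ↔ d = Dp i := by decide +kernel

theorem codeA (g : Fin 6 → Fin 4 → Bool) (hg : PC A1 A2 g) :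
    code (fun c i => g c (Ap i).1) ∈ codesA := by
  have h1 : col g 1 + col g 2 + col g 3 = 63 := sum63 _ _ _ fun c =>
    onehot_of A1 A2 (Sum.inr 0) (g c) (1, true) (2, true) (3, true) (hg.1 c 0)
      (by decide +kernel) (by decide) (by decide) (by decide)
  have hm : ∀ y, col g y ∈ L15 := fun y => mem15 _ (hg.2 y)
  have h2 := chkA
  simp only [List.all_eq_true, Bool.or_eq_true, Bool.not_eq_true'] at h2
  have h3 := h2 _ (hm 0) _ (hm 1) _ (hm 2)
  have h4 : 63 - col g 1 - col g 2 = col g 3 := by omega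
  rw [h4, L15_du _ (hm 3), Bool.true_and] at h3
  rcases h3 with h3 | h3
  · have : Nat.ble (col g 1 + col g 2) 63 = true := Nat.ble_eq_true_of_le (by omega)
    rw [this] at h3
    simp at h3
  · rw [code_col g Ap]
    exact memN_iff h3

theorem codeB (g : Fin 6 → Fin 6 → Bool) (hg : PC B1 B2 g) :
    code (fun c i => g c (Bp i).1) ∈ codesB := by
  have h1 : col g 1 + col g 2 + col g 3 = 63 := sum63 _ _ _ fun c =>
    onehot_of B1 B2 (Sum.inr 0) (g c) (1, true) (2, true) (3, false) (hg.1 c 0)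
      (by decide +kernel) (by decide) (by decide) (by decide)
  have h1' : col g 3 + col g 4 + col g 5 = 63 := sum63 _ _ _ fun c =>
    onehot_of B1 B2 (Sum.inr 1) (g c) (3, true) (4, true) (5, true) (hg.1 c 1)
      (by decide +kernel) (by decide) (by decide) (by decide)
  have hm : ∀ y, col g y ∈ L15 := fun y => mem15 _ (hg.2 y)
  have h2 := chkB
  simp only [List.all_eq_true, Bool.or_eq_true, Bool.not_eq_true'] at h2
  have h3 := h2 _ (hm 1) _ (hm 2)
  have h4 : 63 - col g 1 - col g 2 = col g 3 := by omega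
  rw [h4, L15_du _ (hm 3), Bool.true_and] at h3
  rcases h3 with h3 | h3
  · have : Nat.ble (col g 1 + col g 2) 63 = true := Nat.ble_eq_true_of_le (by omega)
    rw [this] at h3
    simp at h3
  · have h5 := h3 _ (hm 4)
    have h6 : col g 1 + col g 2 - col g 4 = col g 5 := by omega
    rw [h6, L15_du _ (hm 5), Bool.true_and] at h5
    rcases h5 with h5 | h5
    · have : Nat.ble (col g 4) (col g 1 + col g 2) = true := Nat.ble_eq_true_of_le (by omega)
      rw [this] at h5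
      simp at h5
    · rw [code_col g Bp]
      exact memN_iff (h5 _ (hm 0))

theorem codeC (g : Fin 6 → Fin 3 → Bool) (hg : PC C1 C2 g) :
    code (fun c i => g c (Cp i).1) ∈ codesC := by
  have hm : ∀ y, col g y ∈ L15 := fun y => mem15 _ (hg.2 y)
  have h2 := chkC
  simp only [List.all_eq_true] at h2
  rw [code_col g Cp]
  exact memN_iff (h2 _ (hm 0) _ (hm 1) _ (hm 2))

theorem codeD (g : Fin 6 → Fin 2 → Bool) (hg : PC D1 D2 g) :
    code (fun c i => g c (Dp i).1) ∈ codesD := by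
  have hm : ∀ y, col g y ∈ L15 := fun y => mem15 _ (hg.2 y)
  have h2 := chkD
  simp only [List.all_eq_true] at h2
  rw [code_col g Dp]
  exact memN_iff (h2 _ (hm 0) _ (hm 1))

/-- From a colouring of the graph with a small piece to one of the graph with `X`. -/
theorem reduceY {V E : Type} [Fintype V] [Fintype E] {k n q m n' : ℕ} {s t : E → V}
    {w : Fin k → V} (X : Piece k n q) (T : Tr)
    (hT : T.all (chk T k (WX k (k + q) X.inc)) = true) (l : List ℕ)
    (hr : (l.all fun x => Nat.ble (T.rk x + 1) 1000) = true) (Y1 Y2 : Fin m → Fin k ⊕ Fin n')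
    (Yp : Fin k → Fin m × Bool) (hp : ∀ d i, en Y1 Y2 d = Sum.inl i ↔ d = Yp i)
    (hl : ∀ g : Fin 6 → Fin m → Bool, PC Y1 Y2 g → code (fun c i => g c (Yp i).1) ∈ l)
    (h : BFb (gs s w Y1) (gs t w Y2)) : BFb (gs s w X.e1) (gs t w X.e2) := by
  obtain ⟨f, g, hf, hg, hfg⟩ := bf_glue Yp hp h
  refine reduce X T hT f hf ?_
  have h1 : code (bd f) = code (fun c i => g c (Yp i).1) := by
    congr 1
    funext c i
    exact hfg c i
  rw [h1]
  rw [List.all_eq_true] at hr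
  have h2 := Nat.le_of_ble_eq_true (hr _ (hl g hg))
  omega

end Pool.Agent.TH372.BFR
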