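import Pool.Agent.TH372.BFR.Main

set_option autoImplicit false

/-! A vertex with three neighbours. -/

namespace Pool.Agent.TH372.BFR.YT

/-- A vertex with three neighbours. -/
def Y : Piece 6 4 3 where
  p := ![0, 0, 1, 1, 2, 2]
  a := ![0, 1, 2]
  b := ![3, 3, 3]

def cod : List ℕ := [2658455991569831745843642917579718656, 1329233066387321508205910315247927296,
  10141204811270568177712916135936, 2658455991569831745827880318884151296,
  1329233066387321508190147716552359936, 1329228629610220709403005076786937856,
  5704427710471765272474455146496, 1329552514338574299666619013454135296,
  1329233066387316786992348950343745536, 329589156064062028886411122343936,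
  10141204806549354616348011954176, 1329552514338574299650856415697862656,
  1329233066387316786976586352587472896, 329589156064062013123813366071296,
  1329228629610215988189443712822050816, 325152378963263225981173600649216,
  5704427705750551711110490259456, 2658455991569831745812117720188583936,
  1329228629610220709387242478091370496, 1267650609672962367235994157056,
  1329552514338574299650856414758567936, 1329233066387316786976586351648178176,
  329589156064062013123812426776576, 1329228629610215988189443711882756096,
  325152378963263225981172661354496, 5704427705750551711109550964736,
  1329552514338574299635093817002295296, 1329228629610215988173681114126483456,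
  325152378963263210218574905081856, 1267650604951748805872029270016,
  649037107316853489595109328551936, 329589156059340815325046218162176,
  10141204801828141054983107772416, 649037107316853473832511572279296,
  329589156059340799562448461889536, 325152378958542012419808696467456,
  5704427701029338149745586077696, 649037107316853458069913816006656,
  325152378958541996657210940194816, 1267650600230535244508064382976]

theorem good : Y.Good := good_of Y (by decide +kernel)

theorem nd : (ends 6 3).Nodup := by decide +kernel

theorem chk : chkP Y = true := by decide +kernel

def L : List (ℕ × List (List ℕ)) :=
  [(7, [[6, 7]]), (8, [[6, 7, 8]]), (2, [[2, 7]]), (3, [[2, 3, 7]]), (4, [[4, 8]]), (5, [[4, 5, 8]])]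

theorem bt_ok : bt 6 cod L (48 * 64 ^ 6 + 12 * 64 ^ 1 + 3 * 64 ^ 0) = true := by
  decide +kernel

theorem codes (g : Fin 6 → Fin 6 ⊕ Fin 3 → Bool) (hg : PC Y.e1 Y.e2 g) :
    code (fun c i => g c (Sum.inl i)) ∈ cod :=
  codeY Y nd cod L 0 1 6 (by decide +kernel) (by decide) (by decide +kernel) bt_ok g hg

end Pool.Agent.TH372.BFR.YT
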